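import Pool.Agent.DL.PC

/-!
MP_3ff0f8_gt, ALGEBRA HALF, EX/K block: definitions (helper16).
All graphs are `SimpleGraph α`; cycles, paths are edge sets (DL/Defs, DL/PC).
-/

open SimpleGraph Finset

namespace DL

variable {α : Type*} [Fintype α] [DecidableEq α]

/-! ## Local polynomials -/

/-- span of the products of three different coordinates in `A` -/
def TR (A : Set (Sym2 α)) : Submodule (ZMod 2) (Chain α → ZMod 2) :=
  Submodule.span (ZMod 2) {f | ∃ x ∈ A, ∃ y ∈ A, ∃ z ∈ A, x ≠ y ∧ x ≠ z ∧ y ≠ z ∧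
    f = fun c => c x * c y * c z}

/-- the edges of `G` at `v` -/
def star (G : SimpleGraph α) (v : α) : Set (Sym2 α) := {e | e ∈ G.edgeSet ∧ v ∈ e}

/-- `R_v(G)`: span of the products of three different edges at `v` -/
def RV (G : SimpleGraph α) (v : α) : Submodule (ZMod 2) (Chain α → ZMod 2) := TR (star G v)

/-- span of the products of two different coordinates in `A` -/
def PR (A : Set (Sym2 α)) : Submodule (ZMod 2) (Chain α → ZMod 2) :=
  Submodule.span (ZMod 2) {f | ∃ x ∈ A, ∃ y ∈ A, x ≠ y ∧ f = fun c => c x * c y}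

/-- combination of coherence functions -/
noncomputable def cohs (l : α → α → α → α → ZMod 2) (C : Finset (Sym2 α)) : ZMod 2 :=
  ∑ a, ∑ b, ∑ c, ∑ d, l a b c d * coh a b c d C

/-- the value of the coefficients `l` on a symmetric function on pairs of edges -/
noncomputable def pair2 (l : α → α → α → α → ZMod 2) (z : Sym2 α → Sym2 α → ZMod 2) : ZMod 2 :=
  ∑ a, ∑ b, ∑ c, ∑ d, l a b c d * z s(a, b) s(c, d)

/-! ## Subdivisions of 3-connected graphs -/

/-- `J` is a subdivision of a simple 3-connected graph in which every edge is subdivided at most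
once: intrinsic form -/
def S3S (J : SimpleGraph α) : Prop :=
  KConn 2 J ∧ (∃ c x y z, x ≠ y ∧ x ≠ z ∧ y ≠ z ∧ J.Adj c x ∧ J.Adj c y ∧ J.Adj c z) ∧
  ∀ p q, p ≠ q → ConnOff J {p, q} ∨
    ∃ v, (∀ w, J.Adj v w ↔ w = p ∨ w = q) ∧ ¬ J.Adj p q ∧ ConnOff J {p, q, v}

/-- what directness needs: `G - v` is connected and `G - v - z` has at most two components -/
def DH (G : SimpleGraph α) : Prop :=
  (∀ v, ConnOff G {v}) ∧ ∀ v z, v ≠ z → ∀ x ∈ VS G, ∀ y ∈ VS G, ∀ w ∈ VS G,
    x ∉ ({v, z} : Finset α) → y ∉ ({v, z} : Finset α) → w ∉ ({v, z} : Finset α) →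
    (del G {v, z}).Reachable x y ∨ (del G {v, z}).Reachable x w ∨ (del G {v, z}).Reachable y w

/-! ## Contraction of the edge `ab` -/

/-- the cycles of the multigraph `G/ab`: cycles of `G` which use `ab` if they pass through `a` and `b` -/
def CycM (G : SimpleGraph α) (a b : α) (C : Finset (Sym2 α)) : Prop :=
  IsCyc G C ∧ (a ∈ vs C → b ∈ vs C → s(a, b) ∈ C)

/-- merge `b` into `a` -/
def mrg (a b v : α) : α := if v = b then a else v

/-- `a`, `b` have no common neighbour -/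
def NoCN (G : SimpleGraph α) (a b : α) : Prop := ∀ x, ¬ (G.Adj a x ∧ G.Adj b x)

open Classical in
/-- lift of chains from `contr G a b` to `G` (used if `NoCN G a b`) -/
noncomputable def lft (G : SimpleGraph α) (a b : α) (c : Chain α) : Chain α := fun e =>
  if e = s(a, b) then ∑ x, if G.Adj a x ∧ x ≠ b then c s(a, x) else 0
  else if e ∈ G.edgeSet then c (e.map (mrg a b)) else 0

open Classical in
/-- projection of chains from `G` to `contr G a b` -/
noncomputable def prj (a b : α) (c : Chain α) : Chain α := fun e =>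
  if b ∈ e ∨ e.IsDiag then 0 else ∑ f ∈ univ.filter (fun f => f ≠ s(a, b) ∧ f.map (mrg a b) = e), c f

/-- `G` without the edges `ax` (`x ∈ K`) and `bx` (`x ∉ K`) for all common neighbours `x` of `a`, `b` -/
def sel (G : SimpleGraph α) (a b : α) (K : Finset α) : SimpleGraph α :=
  G.deleteEdges {e | ∃ x, G.Adj a x ∧ G.Adj b x ∧ ((x ∈ K ∧ e = s(a, x)) ∨ (x ∉ K ∧ e = s(b, x)))}

/-! ## Chains of two beads -/

/-- a 2-bead chain from `s` to `t`: three disjoint trees `T 0`, `T 1`, `T 2` (vertex sets `X i`, `s ∈ X 0`,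
`t ∈ X 2`) and two different edges from `X 0` to `X 1` and from `X 1` to `X 2` -/
structure Ch2 (G : SimpleGraph α) (s t : α) where
  X : Fin 3 → Finset α
  disj : ∀ i j, i ≠ j → Disjoint (X i) (X j)
  T : Fin 3 → SimpleGraph α
  sub : ∀ i, T i ≤ G
  inX : ∀ i v w, (T i).Adj v w → v ∈ X i
  conn : ∀ i, ∀ v ∈ X i, ∀ w ∈ X i, (T i).Reachable v w
  acyc : ∀ i, (T i).IsAcyclic
  sX : s ∈ X 0
  tX : t ∈ X 2
  p : Fin 2 → Bool → α
  q : Fin 2 → Bool → α
  pX : ∀ (i : Fin 2) b, p i b ∈ X i.castSucc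
  qX : ∀ (i : Fin 2) b, q i b ∈ X i.succ
  adj : ∀ i b, G.Adj (p i b) (q i b)
  ne : ∀ i, s(p i false, q i false) ≠ s(p i true, q i true)

/-- the four paths of a 2-bead chain -/
noncomputable def Ch2.pth {G : SimpleGraph α} {s t : α} (K : Ch2 G s t) (e : Fin 2 → Bool) :
    Finset (Sym2 α) :=
  tp (K.T 0) s (K.p 0 (e 0)) ∪ {s(K.p 0 (e 0), K.q 0 (e 0))} ∪
    tp (K.T 1) (K.q 0 (e 0)) (K.p 1 (e 1)) ∪ {s(K.p 1 (e 1), K.q 1 (e 1))} ∪
    tp (K.T 2) (K.q 1 (e 1)) t

/-! ## Cocycles of the deleted product -/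

/-- `al` is a cocycle on the cells (vertex, edge) of the unordered deleted product of `J` -/
def IsCoc (J : SimpleGraph α) (al : α → Sym2 α → ZMod 2) : Prop :=
  ∀ a b c d, J.Adj a b → J.Adj c d → a ≠ c → a ≠ d → b ≠ c → b ≠ d →
    al a s(c, d) + al b s(c, d) + al c s(a, b) + al d s(a, b) = 0

/-- `Σ_{h ∈ C} al a h` -/
def csum (al : α → Sym2 α → ZMod 2) (a : α) (C : Finset (Sym2 α)) : ZMod 2 := ∑ h ∈ C, al a h

/-- sum over the ordered pairs of different elements `p`, `q` of `{x, y, z}` of `al p s(c, q)` -/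
def sv (al : α → Sym2 α → ZMod 2) (c x y z : α) : ZMod 2 :=
  al x s(c, y) + al x s(c, z) + al y s(c, x) + al y s(c, z) + al z s(c, x) + al z s(c, y)

end DL
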