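import Pool.Agent.DL.EX.Spec

set_option autoImplicit false

/-!
# MUE: coefficients supported on one orientation; sums over quadruples
-/

open SimpleGraph Finset

namespace DL

namespace MUEM

variable {α : Type} [Fintype α] [DecidableEq α]

/-- an injective numbering of the vertices -/
noncomputable def rk (a : α) : ℕ := (Fintype.equivFin α a : ℕ)

lemma rk_inj {a b : α} (h : rk a = rk b) : a = b :=
  (Fintype.equivFin α).injective (Fin.ext h)

lemma rk_lt_or {a b : α} (h : a ≠ b) : (rk a < rk b ∧ ¬ rk b < rk a) ∨ (rk b < rk a ∧ ¬ rk a < rk b) := by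
  have : rk a ≠ rk b := fun e => h (rk_inj e)
  omega

open Classical in
/-- coefficients supported on one orientation -/
noncomputable def mu (g : Sym2 α → Sym2 α → ZMod 2) (E : Set (Sym2 α)) (a b c d : α) : ZMod 2 :=
  if Dj4 a b c d ∧ rk a < rk b ∧ rk c < rk d ∧ s(a, b) ∈ E ∧ (s(c, d) ∈ E → rk a < rk c) then
    g s(a, b) s(c, d) else 0

lemma dj_swap1 {a b c d : α} (h : Dj4 a b c d) : Dj4 b a c d := by
  obtain ⟨h1, h2, h3, h4, h5, h6⟩ := h
  exact ⟨h1.symm, h2, h5, h6, h3, h4⟩

lemma dj_swap2 {a b c d : α} (h : Dj4 a b c d) : Dj4 a b d c := by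
  obtain ⟨h1, h2, h3, h4, h5, h6⟩ := h
  exact ⟨h1, h2.symm, h4, h3, h6, h5⟩

lemma dj_comm {a b c d : α} (h : Dj4 a b c d) : Dj4 c d a b := by
  obtain ⟨h1, h2, h3, h4, h5, h6⟩ := h
  exact ⟨h2, h1, h3.symm, h5.symm, h4.symm, h6.symm⟩

/-- `sym8` is invariant -/
lemma sym8_swap1 (l : α → α → α → α → ZMod 2) (a b c d : α) :
    sym8 l b a c d = sym8 l a b c d := by
  unfold sym8; ring

lemma sym8_swap2 (l : α → α → α → α → ZMod 2) (a b c d : α) :
    sym8 l a b d c = sym8 l a b c d := by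
  unfold sym8; ring

lemma sym8_comm (l : α → α → α → α → ZMod 2) (a b c d : α) :
    sym8 l c d a b = sym8 l a b c d := by
  unfold sym8; ring

lemma sym8_mu_sorted (g : Sym2 α → Sym2 α → ZMod 2) (E : Set (Sym2 α)) {a b c d : α}
    (hg : ∀ e f, g e f = g f e) (h : Dj4 a b c d) (hab : rk a < rk b) (hcd : rk c < rk d)
    (hac : rk a < rk c) :
    (s(a, b) ∈ E ∨ s(c, d) ∈ E → sym8 (mu g E) a b c d = g s(a, b) s(c, d)) ∧
      (s(a, b) ∉ E → s(c, d) ∉ E → sym8 (mu g E) a b c d = 0) := by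
  have d2 := dj_comm h
  have n1 : ¬ rk b < rk a := by omega
  have n2 : ¬ rk d < rk c := by omega
  have n3 : ¬ rk c < rk a := by omega
  by_cases p : s(a, b) ∈ E <;> by_cases q : s(c, d) ∈ E <;>
    simp [sym8, mu, h, d2, hab, hcd, hac, n1, n2, n3, p, q, hg s(c, d) s(a, b)]

lemma sym8_mu (g : Sym2 α → Sym2 α → ZMod 2) (E : Set (Sym2 α)) {a b c d : α}
    (hg : ∀ e f, g e f = g f e) (h : Dj4 a b c d) :
    (s(a, b) ∈ E ∨ s(c, d) ∈ E → sym8 (mu g E) a b c d = g s(a, b) s(c, d)) ∧
      (s(a, b) ∉ E → s(c, d) ∉ E → sym8 (mu g E) a b c d = 0) := by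
  -- reduce to `a < b`
  wlog hab : rk a < rk b generalizing a b
  · have h' := this (dj_swap1 h) (by
      rcases rk_lt_or h.1 with h1 | h1
      · exact absurd h1.1 hab
      · exact h1.1)
    rw [sym8_swap1, Sym2.eq_swap (a := b) (b := a)] at h'
    exact h'
  wlog hcd : rk c < rk d generalizing c d
  · have h' := this (dj_swap2 h) (by
      rcases rk_lt_or h.2.1 with h1 | h1
      · exact absurd h1.1 hcd
      · exact h1.1)
    rw [sym8_swap2, Sym2.eq_swap (a := d) (b := c)] at h'
    exact h'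
  rcases rk_lt_or h.2.2.1 with h1 | h1
  · exact sym8_mu_sorted g E hg h hab hcd h1.1
  · have h' := sym8_mu_sorted g E hg (dj_comm h) hcd hab h1.1
    rw [sym8_comm, hg] at h'
    exact ⟨fun h2 => h'.1 h2.symm, fun h2 h3 => h'.2 h3 h2⟩

/-! ### sums over quadruples -/

/-- orientation of one pair -/
lemma sum_pair (g : α → α → ZMod 2) :
    ∑ a, ∑ b, (if a ≠ b then g a b else 0) = ∑ a, ∑ b, (if rk a < rk b then g a b + g b a else 0) := by
  have h1 : ∀ a b : α, (if a ≠ b then g a b else 0) =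
      (if rk a < rk b then g a b else 0) + (if rk b < rk a then g a b else 0) := by
    intro a b
    by_cases h : a = b
    · subst h; simp
    · rcases rk_lt_or h with h1 | h1 <;> simp [h, h1.1, h1.2]
  simp only [h1, sum_add_distrib]
  rw [sum_comm (f := fun a b => if rk b < rk a then g a b else 0), ← sum_add_distrib]
  refine sum_congr rfl fun a _ => ?_
  rw [← sum_add_distrib]
  refine sum_congr rfl fun b _ => ?_
  split_ifs <;> simp

/-- sum of the 8 orientations of a function -/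
def s8 (g : α → α → α → α → ZMod 2) (a b c d : α) : ZMod 2 :=
  g a b c d + g b a c d + g a b d c + g b a d c + (g c d a b + g d c a b + g c d b a + g d c b a)

lemma sym8_eq_s8 (l : α → α → α → α → ZMod 2) (a b c d : α) : sym8 l a b c d = s8 l a b c d := rfl

open Classical in
/-- a sum over the quadruples of different vertices, over unordered pairs -/
lemma sum_quad (g : α → α → α → α → ZMod 2) (hg : ∀ a b c d, g a b c d ≠ 0 → Dj4 a b c d) :
    ∑ a, ∑ b, ∑ c, ∑ d, g a b c d =
      ∑ a, ∑ b, ∑ c, ∑ d, (if rk a < rk b ∧ rk c < rk d ∧ rk a < rk c then s8 g a b c d else 0) := by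
  have hz : ∀ a b c d, ¬ Dj4 a b c d → g a b c d = 0 := fun a b c d h =>
    by_contra fun h' => h (hg a b c d h')
  -- step 1: orient `ab`
  have e1 : ∑ a, ∑ b, ∑ c, ∑ d, g a b c d =
      ∑ a, ∑ b, (if rk a < rk b then (∑ c, ∑ d, g a b c d) + ∑ c, ∑ d, g b a c d else 0) := by
    rw [← sum_pair]
    refine sum_congr rfl fun a _ => sum_congr rfl fun b _ => ?_
    split_ifs with h
    · rfl
    · push Not at h
      subst h
      exact sum_eq_zero fun c _ => sum_eq_zero fun d _ => hz _ _ _ _ fun h' => h'.1 rfl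
  -- step 2: orient `cd`
  have e2 : ∀ a b, ∑ c, ∑ d, g a b c d =
      ∑ c, ∑ d, (if rk c < rk d then g a b c d + g a b d c else 0) := by
    intro a b
    rw [← sum_pair]
    refine sum_congr rfl fun c _ => sum_congr rfl fun d _ => ?_
    split_ifs with h
    · rfl
    · push Not at h
      subst h
      exact hz _ _ _ _ fun h' => h'.2.1 rfl
  -- the function of the two oriented pairs
  set k : α → α → α → α → ZMod 2 := fun a b c d =>
    if rk a < rk b ∧ rk c < rk d then
      g a b c d + g a b d c + (g b a c d + g b a d c) else 0 with hk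
  have e3 : ∑ a, ∑ b, ∑ c, ∑ d, g a b c d = ∑ a, ∑ b, ∑ c, ∑ d, k a b c d := by
    rw [e1]
    refine sum_congr rfl fun a _ => sum_congr rfl fun b _ => ?_
    by_cases h : rk a < rk b
    · rw [if_pos h, e2, e2, ← sum_add_distrib]
      refine sum_congr rfl fun c _ => ?_
      rw [← sum_add_distrib]
      refine sum_congr rfl fun d _ => ?_
      simp only [hk]
      by_cases h2 : rk c < rk d <;> simp [h, h2]
    · rw [if_neg h]
      symm
      refine sum_eq_zero fun c _ => sum_eq_zero fun d _ => ?_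
      simp [hk, h]
  rw [e3]
  -- step 3: order of the pairs
  have hk0 : ∀ a b c d, k a b c d ≠ 0 → rk a ≠ rk c := by
    intro a b c d h he
    have hac := rk_inj he
    subst hac
    apply h
    simp only [hk]
    split_ifs
    · rw [hz _ _ _ _ fun h' => h'.2.2.1 rfl, hz _ _ _ _ fun h' => h'.2.2.2.1 rfl,
        hz _ _ _ _ fun h' => h'.2.2.2.2.1 rfl, hz _ _ _ _ fun h' => h'.2.2.2.2.2 rfl]
      simp
    · rfl
  have e4 : ∀ a b c d, k a b c d = (if rk a < rk c then k a b c d else 0) +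
      (if rk c < rk a then k a b c d else 0) := by
    intro a b c d
    by_cases h : k a b c d = 0
    · simp [h]
    · have := hk0 a b c d h
      rcases lt_or_gt_of_ne this with h1 | h1
      · simp [h1, not_lt.2 h1.le]
      · simp [h1, not_lt.2 (le_of_lt h1)]
  have e5 : ∑ a, ∑ b, ∑ c, ∑ d, k a b c d =
      ∑ a, ∑ b, ∑ c, ∑ d, (if rk a < rk c then k a b c d else 0) +
      ∑ a, ∑ b, ∑ c, ∑ d, (if rk c < rk a then k a b c d else 0) := by
    simp only [← sum_add_distrib]
    exact sum_congr rfl fun a _ => sum_congr rfl fun b _ => sum_congr rfl fun c _ =>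
      sum_congr rfl fun d _ => e4 a b c d
  have e6 : ∑ a, ∑ b, ∑ c, ∑ d, (if rk c < rk a then k a b c d else 0) =
      ∑ a, ∑ b, ∑ c, ∑ d, (if rk a < rk c then k c d a b else 0) := by
    calc ∑ a, ∑ b, ∑ c, ∑ d, (if rk c < rk a then k a b c d else 0)
        = ∑ p : α × α, ∑ q : α × α, (if rk q.1 < rk p.1 then k p.1 p.2 q.1 q.2 else 0) := by
          simp only [Fintype.sum_prod_type]
      _ = ∑ q : α × α, ∑ p : α × α, (if rk q.1 < rk p.1 then k p.1 p.2 q.1 q.2 else 0) :=
          sum_comm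
      _ = _ := by simp only [Fintype.sum_prod_type]
  rw [e5, e6, ← sum_add_distrib]
  refine sum_congr rfl fun a _ => ?_
  rw [← sum_add_distrib]
  refine sum_congr rfl fun b _ => ?_
  rw [← sum_add_distrib]
  refine sum_congr rfl fun c _ => ?_
  rw [← sum_add_distrib]
  refine sum_congr rfl fun d _ => ?_
  simp only [hk, s8]
  by_cases h1 : rk a < rk b <;> by_cases h2 : rk c < rk d <;> by_cases h3 : rk a < rk c <;>
    simp [h1, h2, h3]
  ring

/-- the value of the coefficients on a symmetric function of pairs of edges only depends on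
`sym8` -/
lemma pair_eq (l : α → α → α → α → ZMod 2) (z : Sym2 α → Sym2 α → ZMod 2)
    (hz : ∀ e f, z e f = z f e) (hd : ∀ a b c d, z s(a, b) s(c, d) ≠ 0 → Dj4 a b c d) :
    ∑ a, ∑ b, ∑ c, ∑ d, l a b c d * z s(a, b) s(c, d) =
      ∑ a, ∑ b, ∑ c, ∑ d, (if rk a < rk b ∧ rk c < rk d ∧ rk a < rk c then
        sym8 l a b c d * z s(a, b) s(c, d) else 0) := by
  rw [sum_quad (fun a b c d => l a b c d * z s(a, b) s(c, d))
    (fun a b c d h => hd a b c d (right_ne_zero_of_mul h))]
  refine sum_congr rfl fun a _ => sum_congr rfl fun b _ => sum_congr rfl fun c _ =>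
    sum_congr rfl fun d _ => ?_
  split_ifs
  · simp only [s8, sym8]
    rw [Sym2.eq_swap (a := b) (b := a), Sym2.eq_swap (a := d) (b := c), hz s(c, d) s(a, b)]
    ring
  · rfl

/-- coefficients with `sym8 = 0` do not see symmetric functions -/
lemma pair_zero (l : α → α → α → α → ZMod 2) (z : Sym2 α → Sym2 α → ZMod 2)
    (hz : ∀ e f, z e f = z f e) (hd : ∀ a b c d, z s(a, b) s(c, d) ≠ 0 → Dj4 a b c d)
    (hl : ∀ a b c d, z s(a, b) s(c, d) ≠ 0 → sym8 l a b c d = 0) :
    ∑ a, ∑ b, ∑ c, ∑ d, l a b c d * z s(a, b) s(c, d) = 0 := by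
  rw [pair_eq l z hz hd]
  refine sum_eq_zero fun a _ => sum_eq_zero fun b _ => sum_eq_zero fun c _ =>
    sum_eq_zero fun d _ => ?_
  split_ifs
  · by_cases h : z s(a, b) s(c, d) = 0
    · rw [h, mul_zero]
    · rw [hl a b c d h, zero_mul]
  · rfl

end MUEM

theorem specMUE : SpecMUE := by
  intro α _ _ g E hg
  refine ⟨MUEM.mu g E, fun a b c d h => ?_, fun a b c d h => MUEM.sym8_mu g E hg h⟩
  unfold MUEM.mu at h
  split_ifs at h with h1
  · exact ⟨h1.2.2.2.1, h1.1⟩
  · exact absurd rfl h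

end DL
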