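import Pool.Agent.DL.EX.Spec
import Pool.Agent.DL.EX.MUE

section
/-!
MP_3ff0f8_gt, EX/K block, module CTA: chains and cycles of the contraction.  (helper55)
-/
open SimpleGraph Finset

namespace DL

namespace CTAM

set_option linter.unusedSectionVars false
set_option linter.unusedFintypeInType false
set_option linter.unusedDecidableInType false

variable {α : Type} [Fintype α] [DecidableEq α] {G : SimpleGraph α} {a b : α}

theorem mrg_b (a b : α) : mrg a b b = a := by simp [mrg]

theorem mrg_of_ne {v : α} (a : α) {b : α} (h : v ≠ b) : mrg a b v = v := by simp [mrg, h]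

theorem mrg_eq_of_ne_a {u v : α} (hv : v ≠ a) : mrg a b u = v ↔ u = v ∧ u ≠ b := by
  unfold mrg
  by_cases h : u = b
  · simp only [h, if_true, ne_eq, not_true, and_false, iff_false]
    exact fun h' => hv h'.symm
  · simp [h]

theorem mrg_eq_a {u : α} : mrg a b u = a ↔ u = a ∨ u = b := by
  unfold mrg
  by_cases h : u = b
  · simp [h]
  · simp [h]

/-- the boundary as a sum over the possible neighbours -/
theorem bdy_eq_nbr (c : Chain α) (v : α) : bdy c v = ∑ x, c s(v, x) := by
  classical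
  rw [bdy_eq]
  symm
  refine sum_bij (fun x _ => s(v, x)) ?_ ?_ ?_ ?_
  · intro x _
    simp
  · intro x _ y _ h
    exact Sym2.congr_right.1 h
  · intro e he
    rw [mem_filter] at he
    exact ⟨Sym2.Mem.other he.2, mem_univ _, Sym2.other_spec he.2⟩
  · intro x _
    rfl

theorem sum_split (hab : a ≠ b) (f : α → ZMod 2) :
    ∑ x, f x = f a + f b + ∑ x ∈ univ.filter (fun x => x ≠ a ∧ x ≠ b), f x := by
  classical
  have h1 : (univ : Finset α) = insert a (insert b (univ.filter (fun x => x ≠ a ∧ x ≠ b))) := by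
    ext x
    simp only [mem_univ, mem_insert, mem_filter, true_and, true_iff]
    tauto
  conv_lhs => rw [h1]
  rw [sum_insert, sum_insert]
  · ring
  · simp
  · simp [hab]

/-! ### `prj` -/

theorem prj_b {c : Chain α} {e : Sym2 α} (h : b ∈ e) : prj a b c e = 0 := by
  simp [prj, h]

theorem prj_diag {c : Chain α} {e : Sym2 α} (h : e.IsDiag) : prj a b c e = 0 := by
  simp [prj, h]

theorem prj_off {c : Chain α} {u v : α} (hua : u ≠ a) (hub : u ≠ b) (hva : v ≠ a) (hvb : v ≠ b)
    (huv : u ≠ v) : prj a b c s(u, v) = c s(u, v) := by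
  have h1 : ¬ (b ∈ s(u, v) ∨ (s(u, v)).IsDiag) := by
    simp only [Sym2.mem_iff, Sym2.mk_isDiag_iff]
    rintro ((h | h) | h)
    · exact hub h.symm
    · exact hvb h.symm
    · exact huv h
  rw [prj, if_neg h1]
  rw [sum_eq_single s(u, v)]
  · intro f hf hne
    exfalso
    rw [mem_filter] at hf
    apply hne
    have h2 := hf.2.2
    induction f using Sym2.ind with
    | _ x y =>
      rw [Sym2.map_mk, Sym2.eq_iff] at h2
      rcases h2 with ⟨h2, h3⟩ | ⟨h2, h3⟩
      · rw [mrg_eq_of_ne_a hua] at h2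
        rw [mrg_eq_of_ne_a hva] at h3
        rw [h2.1, h3.1]
      · rw [mrg_eq_of_ne_a hva] at h2
        rw [mrg_eq_of_ne_a hua] at h3
        rw [h2.1, h3.1, Sym2.eq_swap]
  · intro h
    exfalso
    apply h
    rw [mem_filter]
    refine ⟨mem_univ _, ?_, ?_⟩
    · intro h3
      rw [Sym2.eq_iff] at h3
      rcases h3 with ⟨h3, h4⟩ | ⟨h3, h4⟩
      · exact hua h3
      · exact hub h3
    · rw [Sym2.map_mk, mrg_of_ne a hub, mrg_of_ne a hvb]

theorem prj_a {c : Chain α} {v : α} (hab : a ≠ b) (hva : v ≠ a) (hvb : v ≠ b) :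
    prj a b c s(a, v) = c s(a, v) + c s(b, v) := by
  have h1 : ¬ (b ∈ s(a, v) ∨ (s(a, v)).IsDiag) := by
    simp only [Sym2.mem_iff, Sym2.mk_isDiag_iff]
    rintro ((h | h) | h)
    · exact hab h.symm
    · exact hvb h.symm
    · exact hva h.symm
  rw [prj, if_neg h1]
  have h2 : (univ.filter (fun f : Sym2 α => f ≠ s(a, b) ∧ f.map (mrg a b) = s(a, v))) =
      {s(a, v), s(b, v)} := by
    ext f
    rw [mem_filter, mem_insert, mem_singleton]
    constructor
    · rintro ⟨-, -, h3⟩
      induction f using Sym2.ind with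
      | _ x y =>
        rw [Sym2.map_mk, Sym2.eq_iff] at h3
        rcases h3 with ⟨h3, h4⟩ | ⟨h3, h4⟩
        · rw [mrg_eq_a] at h3
          rw [mrg_eq_of_ne_a hva] at h4
          rcases h3 with h3 | h3
          · left; rw [h3, h4.1]
          · right; rw [h3, h4.1]
        · rw [mrg_eq_of_ne_a hva] at h3
          rw [mrg_eq_a] at h4
          rcases h4 with h4 | h4
          · left; rw [h4, h3.1, Sym2.eq_swap]
          · right; rw [h4, h3.1, Sym2.eq_swap]
    · rintro (h3 | h3)
      · rw [h3]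
        refine ⟨mem_univ _, ?_, ?_⟩
        · intro h4
          exact hvb (Sym2.congr_right.1 h4)
        · rw [Sym2.map_mk, mrg_of_ne a hab, mrg_of_ne a hvb]
      · rw [h3]
        refine ⟨mem_univ _, ?_, ?_⟩
        · intro h4
          rw [Sym2.eq_swap (a := a), Sym2.congr_right] at h4
          exact hva h4
        · rw [Sym2.map_mk, mrg_b, mrg_of_ne a hvb]
  have h3 : s(a, v) ≠ s(b, v) := by
    rw [Sym2.eq_swap, Sym2.eq_swap (a := b)]
    intro h
    exact hab (Sym2.congr_right.1 h)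
  rw [h2, sum_pair h3]

/-! ### `lft` -/

open Classical in
theorem lft_ab (c : Chain α) :
    lft G a b c s(a, b) = ∑ x, if G.Adj a x ∧ x ≠ b then c s(a, x) else 0 := by
  simp [lft]

theorem lft_ne {c : Chain α} {e : Sym2 α} (he : e ≠ s(a, b)) (h : e ∈ G.edgeSet) :
    lft G a b c e = c (e.map (mrg a b)) := by
  simp [lft, he, h]

theorem lft_not {c : Chain α} {e : Sym2 α} (he : e ≠ s(a, b)) (h : e ∉ G.edgeSet) :
    lft G a b c e = 0 := by
  simp [lft, he, h]

open Classical in
theorem lft_off {c : Chain α} {u v : α} (hua : u ≠ a) (hub : u ≠ b) (hvb : v ≠ b) :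
    lft G a b c s(u, v) = if G.Adj u v then c s(u, v) else 0 := by
  have h1 : s(u, v) ≠ s(a, b) := by
    intro h3
    rw [Sym2.eq_iff] at h3
    rcases h3 with ⟨h3, h4⟩ | ⟨h3, h4⟩
    · exact hua h3
    · exact hub h3
  by_cases h : G.Adj u v
  · rw [lft_ne h1 (by simpa using h), Sym2.map_mk, mrg_of_ne a hub, mrg_of_ne a hvb, if_pos h]
  · rw [lft_not h1 (by simpa using h), if_neg h]

open Classical in
theorem lft_a {c : Chain α} {v : α} (hab : a ≠ b) (hvb : v ≠ b) :
    lft G a b c s(a, v) = if G.Adj a v then c s(a, v) else 0 := by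
  have h1 : s(a, v) ≠ s(a, b) := by
    intro h4
    exact hvb (Sym2.congr_right.1 h4)
  by_cases h : G.Adj a v
  · rw [lft_ne h1 (by simpa using h), Sym2.map_mk, mrg_of_ne a hab, mrg_of_ne a hvb, if_pos h]
  · rw [lft_not h1 (by simpa using h), if_neg h]

open Classical in
theorem lft_b {c : Chain α} {v : α} (hva : v ≠ a) (hvb : v ≠ b) :
    lft G a b c s(b, v) = if G.Adj b v then c s(a, v) else 0 := by
  have h1 : s(b, v) ≠ s(a, b) := by
    intro h4
    rw [Sym2.eq_swap (a := a), Sym2.congr_right] at h4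
    exact hva h4
  by_cases h : G.Adj b v
  · rw [lft_ne h1 (by simpa using h), Sym2.map_mk, mrg_b, mrg_of_ne a hvb, if_pos h]
  · rw [lft_not h1 (by simpa using h), if_neg h]

/-! ### supports -/

theorem zero_of_not {H : SimpleGraph α} {c : Chain α} (hc : ∀ e, c e ≠ 0 → e ∈ H.edgeSet) {u v : α}
    (h : ¬ H.Adj u v) : c s(u, v) = 0 := by
  by_contra h'
  exact h (by simpa using hc _ h')

theorem zero_self {H : SimpleGraph α} {c : Chain α} (hc : ∀ e, c e ≠ 0 → e ∈ H.edgeSet) (u : α) :
    c s(u, u) = 0 := zero_of_not hc (H.loopless.irrefl u)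

theorem contr_b {u : α} : ¬ (contr G a b).Adj b u := fun h => h.1 rfl

theorem contr_b' {u : α} : ¬ (contr G a b).Adj u b := fun h => h.2.1 rfl

theorem contr_off {u v : α} (hua : u ≠ a) (hub : u ≠ b) (hva : v ≠ a) (hvb : v ≠ b) :
    (contr G a b).Adj u v ↔ G.Adj u v := by
  constructor
  · rintro ⟨-, -, -, h | h | h⟩
    · exact h
    · exact absurd h.1 hua
    · exact absurd h.1 hva
  · intro h
    exact ⟨hub, hvb, h.ne, Or.inl h⟩

theorem contr_a {v : α} (hab : a ≠ b) (hva : v ≠ a) (hvb : v ≠ b) :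
    (contr G a b).Adj a v ↔ G.Adj a v ∨ G.Adj b v := by
  constructor
  · rintro ⟨-, -, -, h | h | h⟩
    · exact Or.inl h
    · exact Or.inr h.2
    · exact absurd h.1 hva
  · rintro (h | h)
    · exact ⟨hab, hvb, hva.symm, Or.inl h⟩
    · exact ⟨hab, hvb, hva.symm, Or.inr (Or.inl ⟨rfl, h⟩)⟩

open Classical in
/-- the sum of the two lifts of a value at `a` -/
theorem ite_add_ite {c : Chain α} (hN : NoCN G a b) (hab : a ≠ b)
    (hc : ∀ e, c e ≠ 0 → e ∈ (contr G a b).edgeSet) {v : α} (hva : v ≠ a) (hvb : v ≠ b) :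
    (if G.Adj a v then c s(a, v) else 0) + (if G.Adj b v then c s(a, v) else 0) = c s(a, v) := by
  by_cases h1 : G.Adj a v
  · have h2 : ¬ G.Adj b v := fun h2 => hN v ⟨h1, h2⟩
    simp [h1, h2]
  · by_cases h2 : G.Adj b v
    · simp [h1, h2]
    · rw [if_neg h1, if_neg h2, add_zero]
      symm
      apply zero_of_not hc
      rw [contr_a hab hva hvb]
      tauto

/-! ### The first group -/

theorem lin (G : SimpleGraph α) (a b : α) (c d : Chain α) :
    lft G a b (c + d) = lft G a b c + lft G a b d ∧ prj a b (c + d) = prj a b c + prj a b d := by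
  classical
  constructor
  · funext e
    rw [Pi.add_apply]
    by_cases he : e = s(a, b)
    · subst he
      rw [lft_ab, lft_ab, lft_ab, ← sum_add_distrib]
      refine sum_congr rfl fun x _ => ?_
      by_cases h : G.Adj a x ∧ x ≠ b
      · rw [if_pos h, if_pos h, if_pos h, Pi.add_apply]
      · rw [if_neg h, if_neg h, if_neg h, add_zero]
    · by_cases h : e ∈ G.edgeSet
      · rw [lft_ne he h, lft_ne he h, lft_ne he h, Pi.add_apply]
      · rw [lft_not he h, lft_not he h, lft_not he h, add_zero]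
  · funext e
    rw [Pi.add_apply]
    unfold prj
    by_cases h : b ∈ e ∨ e.IsDiag
    · rw [if_pos h, if_pos h, if_pos h, add_zero]
    · rw [if_neg h, if_neg h, if_neg h, ← sum_add_distrib]
      rfl

theorem lz (hab : G.Adj a b) (hN : NoCN G a b) : ∀ c ∈ Z1 (contr G a b), lft G a b c ∈ Z1 G := by
  classical
  rintro c ⟨hc, hb⟩
  have hne : a ≠ b := hab.ne
  constructor
  · intro e he
    by_cases h1 : e = s(a, b)
    · rw [h1]
      exact hab
    · by_contra h
      exact he (lft_not h1 h)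
  · intro v
    -- the sum over the edges at `a`
    have ha : ∑ x ∈ univ.filter (fun x => x ≠ a ∧ x ≠ b), c s(a, x) = 0 := by
      have := hb a
      rw [bdy_eq_nbr, sum_split hne, zero_self hc, zero_of_not hc contr_b', zero_add,
        zero_add] at this
      exact this
    have hab2 : lft G a b c s(a, b) =
        ∑ x ∈ univ.filter (fun x => x ≠ a ∧ x ≠ b), if G.Adj a x then c s(a, x) else 0 := by
      rw [lft_ab, sum_split hne]
      rw [if_neg (fun h => G.loopless.irrefl a h.1), if_neg (fun h => h.2 rfl), zero_add, zero_add]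
      refine sum_congr rfl fun x hx => ?_
      rw [mem_filter] at hx
      simp [hx.2.2]
    by_cases hva : v = a
    · subst hva
      rw [bdy_eq_nbr, sum_split hne, lft_a hne hne, if_neg (G.loopless.irrefl v), zero_add, hab2]
      rw [← sum_add_distrib]
      apply sum_eq_zero
      intro x hx
      rw [mem_filter] at hx
      rw [lft_a hne hx.2.2]
      exact zmod2_add_self _
    · by_cases hvb : v = b
      · subst hvb
        rw [bdy_eq_nbr, sum_split hne, Sym2.eq_swap (a := v) (b := a), hab2,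
          lft_not (fun h => hne (by rw [Sym2.eq_swap (a := a), Sym2.congr_right] at h; exact h.symm))
            (by simp), add_zero, ← sum_add_distrib]
        refine Eq.trans (sum_congr rfl fun x hx => ?_) ha
        rw [mem_filter] at hx
        rw [lft_b hx.2.1 hx.2.2]
        exact ite_add_ite hN hne hc hx.2.1 hx.2.2
      · have h1 := hb v
        rw [bdy_eq_nbr, sum_split hne, zero_of_not hc contr_b', add_zero] at h1
        rw [bdy_eq_nbr, sum_split hne, Sym2.eq_swap (b := a), Sym2.eq_swap (b := b),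
          lft_a hne hvb, lft_b hva hvb, ite_add_ite hN hne hc hva hvb, ← h1,
          Sym2.eq_swap (b := a)]
        congr 1
        refine sum_congr rfl fun x hx => ?_
        rw [mem_filter] at hx
        rw [lft_off hva hvb hx.2.2]
        by_cases h : G.Adj v x
        · rw [if_pos h]
        · rw [if_neg h]
          symm
          apply zero_of_not hc
          rw [contr_off hva hvb hx.2.1 hx.2.2]
          exact h

theorem pz (hab : G.Adj a b) : ∀ c ∈ Z1 G, prj a b c ∈ Z1 (contr G a b) := by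
  classical
  rintro c ⟨hc, hb⟩
  have hne : a ≠ b := hab.ne
  have hself : prj a b c s(a, a) = 0 := prj_diag (by simp)
  have hbb : ∀ x, prj a b c s(x, b) = 0 := fun x => prj_b (by simp)
  constructor
  · intro e he
    induction e using Sym2.ind with
    | _ u v =>
      show (contr G a b).Adj u v
      have hub : u ≠ b := fun h => he (by rw [h]; exact prj_b (by simp))
      have hvb : v ≠ b := fun h => he (by rw [h]; exact prj_b (by simp))
      have huv : u ≠ v := fun h => he (by rw [h]; exact prj_diag (by simp))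
      by_cases hua : u = a
      · subst hua
        rw [prj_a hne huv.symm hvb] at he
        rw [contr_a hne huv.symm hvb]
        by_contra h
        apply he
        rw [zero_of_not hc (fun h1 => h (Or.inl h1)), zero_of_not hc (fun h1 => h (Or.inr h1)),
          add_zero]
      · by_cases hva : v = a
        · subst hva
          rw [Sym2.eq_swap, prj_a hne hua hub] at he
          rw [SimpleGraph.adj_comm, contr_a hne hua hub]
          by_contra h
          apply he
          rw [zero_of_not hc (fun h1 => h (Or.inl h1)), zero_of_not hc (fun h1 => h (Or.inr h1)),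
            add_zero]
        · rw [prj_off hua hub hva hvb huv] at he
          rw [contr_off hua hub hva hvb]
          by_contra h
          exact he (zero_of_not hc h)
  · intro v
    by_cases hva : v = a
    · subst hva
      rw [bdy_eq_nbr, sum_split hne, hself, hbb, add_zero, zero_add]
      have h1 : ∑ x ∈ univ.filter (fun x => x ≠ v ∧ x ≠ b), prj v b c s(v, x) =
          ∑ x ∈ univ.filter (fun x => x ≠ v ∧ x ≠ b), (c s(v, x) + c s(b, x)) := by
        refine sum_congr rfl fun x hx => ?_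
        rw [mem_filter] at hx
        exact prj_a hne hx.2.1 hx.2.2
      rw [h1, sum_add_distrib]
      have h2 := hb v
      rw [bdy_eq_nbr, sum_split hne, zero_self hc, zero_add] at h2
      have h3 := hb b
      rw [bdy_eq_nbr, sum_split hne, zero_self hc, add_zero, Sym2.eq_swap (b := v)] at h3
      have h4 : c s(v, b) + ∑ x ∈ univ.filter (fun x => x ≠ v ∧ x ≠ b), c s(v, x) +
        (c s(v, b) + ∑ x ∈ univ.filter (fun x => x ≠ v ∧ x ≠ b), c s(b, x)) = 0 := by
        rw [h2, h3, add_zero]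
      have h5 := zmod2_add_self (c s(v, b))
      linear_combination h4 - h5
    · by_cases hvb : v = b
      · subst hvb
        rw [bdy_eq_nbr]
        apply sum_eq_zero
        intro x _
        exact prj_b (by simp)
      · have h1 := hb v
        rw [bdy_eq_nbr, sum_split hne] at h1
        rw [bdy_eq_nbr, sum_split hne, hbb, add_zero, Sym2.eq_swap (b := a), prj_a hne hva hvb,
          ← h1, Sym2.eq_swap (b := a), Sym2.eq_swap (b := b)]
        congr 1
        refine sum_congr rfl fun x hx => ?_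
        rw [mem_filter] at hx
        by_cases h : v = x
        · rw [← h, zero_self hc]
          exact prj_diag (by simp)
        · exact prj_off hva hvb hx.2.1 hx.2.2 h

theorem pl (hab : G.Adj a b) (hN : NoCN G a b) :
    ∀ c ∈ Z1 (contr G a b), prj a b (lft G a b c) = c := by
  classical
  rintro c ⟨hc, hb⟩
  have hne : a ≠ b := hab.ne
  have key : ∀ v, v ≠ a → v ≠ b → prj a b (lft G a b c) s(a, v) = c s(a, v) := by
    intro v hva hvb
    rw [prj_a hne hva hvb, lft_a hne hvb, lft_b hva hvb]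
    exact ite_add_ite hN hne hc hva hvb
  funext e
  induction e using Sym2.ind with
  | _ u v =>
    by_cases hub : u = b
    · subst hub
      rw [prj_b (by simp), zero_of_not hc contr_b]
    by_cases hvb : v = b
    · subst hvb
      rw [prj_b (by simp), zero_of_not hc contr_b']
    by_cases huv : u = v
    · subst huv
      rw [prj_diag (by simp), zero_self hc]
    by_cases hua : u = a
    · subst hua
      exact key v (Ne.symm huv) hvb
    by_cases hva : v = a
    · subst hva
      rw [Sym2.eq_swap]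
      exact key u hua hub
    · rw [prj_off hua hub hva hvb huv, lft_off hua hub hvb]
      by_cases h : G.Adj u v
      · rw [if_pos h]
      · rw [if_neg h]
        symm
        apply zero_of_not hc
        rw [contr_off hua hub hva hvb]
        exact h

theorem lp (hab : G.Adj a b) (hN : NoCN G a b) : ∀ c ∈ Z1 G, lft G a b (prj a b c) = c := by
  classical
  rintro c ⟨hc, hb⟩
  have hne : a ≠ b := hab.ne
  have keya : ∀ v, v ≠ a → v ≠ b → (if G.Adj a v then prj a b c s(a, v) else 0) = c s(a, v) := by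
    intro v hva hvb
    by_cases h : G.Adj a v
    · rw [if_pos h, prj_a hne hva hvb, zero_of_not hc (fun h1 => hN v ⟨h, h1⟩), add_zero]
    · rw [if_neg h, zero_of_not hc h]
  have keyb : ∀ v, v ≠ a → v ≠ b → (if G.Adj b v then prj a b c s(a, v) else 0) = c s(b, v) := by
    intro v hva hvb
    by_cases h : G.Adj b v
    · rw [if_pos h, prj_a hne hva hvb, zero_of_not hc (fun h1 => hN v ⟨h1, h⟩), zero_add]
    · rw [if_neg h, zero_of_not hc h]
  have keyab : lft G a b (prj a b c) s(a, b) = c s(a, b) := by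
    rw [lft_ab, sum_split hne, if_neg (fun h => G.loopless.irrefl a h.1), if_neg (fun h => h.2 rfl),
      zero_add, zero_add]
    have h1 : ∑ x ∈ univ.filter (fun x => x ≠ a ∧ x ≠ b),
        (if G.Adj a x ∧ x ≠ b then prj a b c s(a, x) else 0) =
        ∑ x ∈ univ.filter (fun x => x ≠ a ∧ x ≠ b), c s(a, x) := by
      refine sum_congr rfl fun x hx => ?_
      rw [mem_filter] at hx
      rw [← keya x hx.2.1 hx.2.2]
      simp [hx.2.2]
    rw [h1]
    have h2 := hb a
    rw [bdy_eq_nbr, sum_split hne, zero_self hc, zero_add] at h2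
    have h5 := zmod2_add_self (c s(a, b))
    linear_combination h2 - h5
  funext e
  induction e using Sym2.ind with
  | _ u v =>
    by_cases huv : u = v
    · subst huv
      rw [lft_not (by intro h; rw [Sym2.eq_iff] at h; rcases h with ⟨h1, h2⟩ | ⟨h1, h2⟩
                      · exact hne (h1 ▸ h2)
                      · exact hne (h2 ▸ h1)) (by simp), zero_self hc]
    by_cases hua : u = a
    · subst hua
      by_cases hvb : v = b
      · subst hvb
        exact keyab
      · rw [lft_a hne hvb]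
        exact keya v (Ne.symm huv) hvb
    by_cases hub : u = b
    · subst hub
      by_cases hva : v = a
      · subst hva
        rw [Sym2.eq_swap]
        exact keyab
      · rw [lft_b hva (Ne.symm huv)]
        exact keyb v hva (Ne.symm huv)
    by_cases hva : v = a
    · subst hva
      rw [Sym2.eq_swap, lft_a hne hub]
      exact keya u hua hub
    by_cases hvb : v = b
    · subst hvb
      rw [Sym2.eq_swap, lft_b hua hub]
      exact keyb u hua hub
    · rw [lft_off hua hub hvb]
      by_cases h : G.Adj u v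
      · rw [if_pos h, prj_off hua hub hva hvb huv]
      · rw [if_neg h, zero_of_not hc h]

/-! ### Supports of `prj`, cycles -/

theorem prj_supp {c : Chain α} {e : Sym2 α} (h : prj a b c e ≠ 0) :
    ∃ f, f ≠ s(a, b) ∧ f.map (mrg a b) = e ∧ c f ≠ 0 := by
  unfold prj at h
  split_ifs at h with h1
  · exact absurd rfl h
  · obtain ⟨f, hf, hf'⟩ := exists_ne_zero_of_sum_ne_zero h
    rw [mem_filter] at hf
    exact ⟨f, hf.2.1, hf.2.2, hf'⟩

theorem lft_supp {c : Chain α} {e : Sym2 α} (he : e ≠ s(a, b)) (h : lft G a b c e ≠ 0) :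
    e ∈ G.edgeSet ∧ c (e.map (mrg a b)) ≠ 0 := by
  by_cases h1 : e ∈ G.edgeSet
  · rw [lft_ne he h1] at h
    exact ⟨h1, h⟩
  · exact absurd (lft_not he h1) h

/-- edges `≠ ab` of `G` are determined by their image -/
theorem map_inj (hN : NoCN G a b) {e f : Sym2 α} (he : e ∈ G.edgeSet) (hf : f ∈ G.edgeSet)
    (hea : e ≠ s(a, b)) (hfa : f ≠ s(a, b)) (h : e.map (mrg a b) = f.map (mrg a b)) : e = f := by
  induction e using Sym2.ind with
  | _ u v =>
  induction f using Sym2.ind with
  | _ x y =>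
    have he' : G.Adj u v := he
    have hf' : G.Adj x y := hf
    -- key: two edges `u v`, `x y` with `mrg u = mrg x`, `mrg v = mrg y`
    have key : ∀ u v x y : α, G.Adj u v → G.Adj x y → s(u, v) ≠ s(a, b) → s(x, y) ≠ s(a, b) →
        mrg a b u = mrg a b x → mrg a b v = mrg a b y → s(u, v) = s(x, y) := by
      intro u v x y h1 h2 h3 h4 h5 h6
      have hcase : ∀ u x : α, mrg a b u = mrg a b x → u = x ∨ (u = a ∧ x = b) ∨ (u = b ∧ x = a) := by
        intro u x h
        unfold mrg at h
        by_cases hu : u = b <;> by_cases hx : x = b <;> simp only [hu, hx, if_true, if_false] at h ⊢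
        · tauto
        · right; right; exact ⟨trivial, h.symm⟩
        · right; left; exact ⟨h, trivial⟩
        · left; exact h
      rcases hcase u x h5 with h7 | ⟨h7, h8⟩ | ⟨h7, h8⟩
      · subst h7
        rcases hcase v y h6 with h9 | ⟨h9, h10⟩ | ⟨h9, h10⟩
        · rw [h9]
        · subst h9 h10
          exact absurd ⟨h1.symm, h2.symm⟩ (hN u)
        · subst h9 h10
          exact absurd ⟨h2.symm, h1.symm⟩ (hN u)
      · subst h7 h8
        rcases hcase v y h6 with h9 | ⟨h9, h10⟩ | ⟨h9, h10⟩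
        · subst h9
          exact absurd ⟨h1, h2⟩ (hN v)
        · subst h9
          exact absurd rfl h1.ne
        · subst h9
          exact absurd rfl h3
      · subst h7 h8
        rcases hcase v y h6 with h9 | ⟨h9, h10⟩ | ⟨h9, h10⟩
        · subst h9
          exact absurd ⟨h2, h1⟩ (hN v)
        · subst h9
          exact absurd Sym2.eq_swap h3
        · subst h9
          exact absurd rfl h1.ne
    rw [Sym2.map_mk, Sym2.map_mk, Sym2.eq_iff] at h
    rcases h with ⟨h1, h2⟩ | ⟨h1, h2⟩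
    · exact key u v x y he' hf' hea hfa h1 h2
    · rw [Sym2.eq_swap (a := x)]
      exact key u v y x he' hf'.symm hea (by rw [Sym2.eq_swap]; exact hfa) h1 h2

theorem edge_map (hab : G.Adj a b) {c : Chain α} (hc : c ∈ Z1 G) (hN : NoCN G a b) {f : Sym2 α}
    (hf : f ≠ s(a, b)) (hcf : c f ≠ 0) : prj a b c (f.map (mrg a b)) ≠ 0 := by
  have h1 := lp hab hN c hc
  have h2 : lft G a b (prj a b c) f ≠ 0 := by
    rw [h1]
    exact hcf
  exact (lft_supp hf h2).2

theorem cl (hab : G.Adj a b) (hN : NoCN G a b) : ∀ D, IsCyc (contr G a b) D →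
    ∃ C, CycM G a b C ∧ chi C = lft G a b (chi D) := by
  intro D hD
  have hne : a ≠ b := hab.ne
  have hz := lz hab hN (chi D) hD.chi_mem
  have h0 : lft G a b (chi D) ≠ 0 := by
    intro h
    have h1 := pl hab hN (chi D) hD.chi_mem
    rw [h] at h1
    have h2 : prj a b (0 : Chain α) = 0 := by
      have := (lin G a b (0 : Chain α) 0).2
      rw [add_zero] at this
      simpa using this
    rw [h2] at h1
    obtain ⟨e, he⟩ := hD.nonempty
    have h3 := congrFun h1 e
    rw [chi_of_mem he] at h3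
    simp at h3
  obtain ⟨C, hC, hCs⟩ := exists_isCyc_of_ne_zero hz h0
  -- the projection of `C` is `D`
  have hp := pz hab (chi C) hC.chi_mem
  have hp0 : prj a b (chi C) ≠ 0 := by
    intro h
    have h1 := lp hab hN (chi C) hC.chi_mem
    rw [h] at h1
    have h2 : lft G a b (0 : Chain α) = 0 := by
      have := (lin G a b (0 : Chain α) 0).1
      rw [add_zero] at this
      simpa using this
    rw [h2] at h1
    obtain ⟨e, he⟩ := hC.nonempty
    have h3 := congrFun h1 e
    rw [chi_of_mem he] at h3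
    simp at h3
  have hps : csupp (prj a b (chi C)) ⊆ D := by
    intro e he
    rw [mem_csupp] at he
    obtain ⟨f, hf, hfe, hfC⟩ := prj_supp he
    have h1 := hCs (chi_ne_zero.1 hfC)
    rw [mem_csupp] at h1
    have h2 := (lft_supp hf h1).2
    rw [hfe] at h2
    exact chi_ne_zero.1 h2
  obtain ⟨D', hD', hDs⟩ := exists_isCyc_of_ne_zero hp hp0
  have hDD : D' = D := hD.eq_of_subset hD' (hDs.trans hps)
  rw [hDD] at hDs
  have hpD : prj a b (chi C) = chi D := by
    rw [← chi_csupp (prj a b (chi C)), subset_antisymm hps hDs]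
  have hchi : chi C = lft G a b (chi D) := by
    rw [← hpD]
    exact (lp hab hN (chi C) hC.chi_mem).symm
  refine ⟨C, ⟨hC, ?_⟩, hchi⟩
  intro ha hb
  by_contra hnot
  have hmem : ∀ f ∈ C, f.map (mrg a b) ∈ D := by
    intro f hf
    have h1 : f ≠ s(a, b) := fun h => hnot (h ▸ hf)
    have h2 := edge_map hab hC.chi_mem hN h1 (chi_ne_zero.2 hf)
    rw [hpD] at h2
    exact chi_ne_zero.1 h2
  obtain ⟨i, j, hij, hi, hj, -⟩ := hC.two_edges ha
  obtain ⟨k, l, hkl, hk, hl, -⟩ := hC.two_edges hb
  have hib : i ≠ b := fun h => hnot (h ▸ hi)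
  have hjb : j ≠ b := fun h => hnot (h ▸ hj)
  have hka : k ≠ a := fun h => hnot (by rw [h] at hk; rw [Sym2.eq_swap]; exact hk)
  have hkb : k ≠ b := fun h => (hC.adj_of_mem hk).ne h.symm
  have hi' : s(a, i) ∈ D := by
    have := hmem _ hi
    rwa [Sym2.map_mk, mrg_of_ne a hne, mrg_of_ne a hib] at this
  have hj' : s(a, j) ∈ D := by
    have := hmem _ hj
    rwa [Sym2.map_mk, mrg_of_ne a hne, mrg_of_ne a hjb] at this
  have hk' : s(a, k) ∈ D := by
    have := hmem _ hk
    rwa [Sym2.map_mk, mrg_b, mrg_of_ne a hkb] at this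
  rcases hD.eq_or_eq hi' hj' hij hk' with h | h
  · subst h
    exact hN k ⟨hC.adj_of_mem hi, hC.adj_of_mem hk⟩
  · subst h
    exact hN k ⟨hC.adj_of_mem hj, hC.adj_of_mem hk⟩

theorem cp (hab : G.Adj a b) (hN : NoCN G a b) : ∀ C, CycM G a b C →
    ∃ D, IsCyc (contr G a b) D ∧ chi C = lft G a b (chi D) ∧ chi D = prj a b (chi C) := by
  rintro C ⟨hC, hM⟩
  have hp := pz hab (chi C) hC.chi_mem
  have hp0 : prj a b (chi C) ≠ 0 := by
    intro h
    have h1 := lp hab hN (chi C) hC.chi_mem
    rw [h] at h1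
    have h2 : lft G a b (0 : Chain α) = 0 := by
      have := (lin G a b (0 : Chain α) 0).1
      rw [add_zero] at this
      simpa using this
    rw [h2] at h1
    obtain ⟨e, he⟩ := hC.nonempty
    have h3 := congrFun h1 e
    rw [chi_of_mem he] at h3
    simp at h3
  obtain ⟨D, hD, hDs⟩ := exists_isCyc_of_ne_zero hp hp0
  obtain ⟨C', ⟨hC', hM'⟩, hchi⟩ := cl hab hN D hD
  have hsub1 : ∀ f ∈ C', f ≠ s(a, b) → f ∈ C := by
    intro f hf hfa
    have h1 : lft G a b (chi D) f ≠ 0 := by
      rw [← hchi]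
      exact chi_ne_zero.2 hf
    have h2 := lft_supp hfa h1
    have h3 := hDs (chi_ne_zero.1 h2.2)
    rw [mem_csupp] at h3
    obtain ⟨g, hg, hgf, hgC⟩ := prj_supp h3
    have hgC' := chi_ne_zero.1 hgC
    have h4 := map_inj hN (hC.subset g hgC') h2.1 hg hfa hgf
    rw [← h4]
    exact hgC'
  have hsub : C' ⊆ C := by
    intro f hf
    by_cases hfa : f = s(a, b)
    · subst hfa
      obtain ⟨i, hib, hi⟩ := hC'.exists_other hf
      have hf' : s(b, a) ∈ C' := by
        rw [Sym2.eq_swap]
        exact hf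
      obtain ⟨k, hka, hk⟩ := hC'.exists_other hf'
      have h1 := hsub1 _ hi (fun h => hib (Sym2.congr_right.1 h))
      have h2 := hsub1 _ hk (fun h => hka (by
        rw [Sym2.eq_swap (a := a), Sym2.congr_right] at h
        exact h))
      exact hM (left_mem_vs h1) (left_mem_vs h2)
    · exact hsub1 f hf hfa
  have hCC : C' = C := hC.eq_of_subset hC' hsub
  rw [hCC] at hchi
  refine ⟨D, hD, hchi, ?_⟩
  rw [hchi]
  exact (pl hab hN (chi D) hD.chi_mem).symm

theorem dl : del (contr G a b) {a} = del G {a, b} := by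
  ext u v
  simp only [del, contr, mem_singleton, mem_insert]
  constructor
  · rintro ⟨⟨h1, h2, h3, h4⟩, h5, h6⟩
    refine ⟨?_, ?_, ?_⟩
    · rcases h4 with h4 | h4 | h4
      · exact h4
      · exact absurd h4.1 h5
      · exact absurd h4.1 h6
    · tauto
    · tauto
  · rintro ⟨h1, h2, h3⟩
    refine ⟨⟨?_, ?_, h1.ne, Or.inl h1⟩, ?_, ?_⟩ <;> tauto

end CTAM

theorem specCTA : SpecCTA where
  lin := fun G a b c d => CTAM.lin G a b c d
  lz := fun hab hN => CTAM.lz hab hN
  pz := fun hab => CTAM.pz hab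
  pl := fun hab hN => CTAM.pl hab hN
  lp := fun hab hN => CTAM.lp hab hN
  cl := fun hab hN => CTAM.cl hab hN
  cp := fun hab hN => CTAM.cp hab hN
  dl := fun _ => CTAM.dl

end DL
end

section
/-!
MP_3ff0f8_gt, ALGEBRA HALF, EX/K block, module CTB: coherence functions of corresponding cycles of a
graph and its contraction (helper28).
-/
open SimpleGraph Finset

namespace DL

namespace CTBM

set_option linter.unusedSectionVars false
set_option linter.unusedFintypeInType false
set_option linter.unusedDecidableInType false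

variable {α : Type} [Fintype α] [DecidableEq α] {G : SimpleGraph α} {a b : α}

theorem mrg_b : mrg a b b = a := if_pos rfl

theorem mrg_ne {v : α} (h : v ≠ b) : mrg a b v = v := if_neg h

theorem mrg_eq {x y : α} (h : mrg a b x = mrg a b y) :
    x = y ∨ (x = a ∧ y = b) ∨ (x = b ∧ y = a) := by
  unfold mrg at h
  split_ifs at h with h1 h2 h2
  · exact Or.inl (h1.trans h2.symm)
  · exact Or.inr (Or.inr ⟨h1, h.symm⟩)
  · exact Or.inr (Or.inl ⟨h, h2⟩)
  · exact Or.inl h

theorem inj_aux (hN : NoCN G a b) {x y u v : α} (h1 : G.Adj x y) (h2 : G.Adj u v)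
    (he : s(x, y) ≠ s(a, b)) (hx : mrg a b x = mrg a b u) (hy : mrg a b y = mrg a b v) :
    s(x, y) = s(u, v) := by
  rcases mrg_eq hx with rfl | ⟨rfl, rfl⟩ | ⟨rfl, rfl⟩
  · rcases mrg_eq hy with rfl | ⟨rfl, rfl⟩ | ⟨rfl, rfl⟩
    · rfl
    · exact absurd ⟨h1.symm, h2.symm⟩ (hN x)
    · exact absurd ⟨h2.symm, h1.symm⟩ (hN x)
  · rcases mrg_eq hy with rfl | ⟨rfl, rfl⟩ | ⟨rfl, -⟩
    · exact absurd ⟨h1, h2⟩ (hN y)
    · exact absurd h1 (G.irrefl)
    · exact absurd rfl he
  · rcases mrg_eq hy with rfl | ⟨rfl, -⟩ | ⟨rfl, rfl⟩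
    · exact absurd ⟨h2, h1⟩ (hN y)
    · exact absurd Sym2.eq_swap he
    · exact absurd h1 (G.irrefl)

/-- the edges of `G` other than `ab` are mapped injectively -/
theorem inj (hN : NoCN G a b) {e f : Sym2 α} (he : e ∈ G.edgeSet) (hf : f ∈ G.edgeSet)
    (he' : e ≠ s(a, b)) (h : e.map (mrg a b) = f.map (mrg a b)) : e = f := by
  induction e using Sym2.ind with
  | _ x y =>
    induction f using Sym2.ind with
    | _ u v =>
      rw [Sym2.map_mk, Sym2.map_mk, Sym2.eq_iff] at h
      rcases h with ⟨h1, h2⟩ | ⟨h1, h2⟩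
      · exact inj_aux hN he hf he' h1 h2
      · rw [@Sym2.eq_swap _ u v]
        exact inj_aux hN he (Adj.symm hf) he' h1 h2

/-- every edge of the contraction comes from an edge other than `ab` -/
theorem lift {f : Sym2 α} (hf : f ∈ (contr G a b).edgeSet) :
    ∃ g ∈ G.edgeSet, g ≠ s(a, b) ∧ g.map (mrg a b) = f := by
  induction f using Sym2.ind with
  | _ u w =>
    obtain ⟨hu, hw, huw, h | ⟨rfl, h⟩ | ⟨rfl, h⟩⟩ := hf
    · refine ⟨s(u, w), h, ?_, ?_⟩
      · intro e
        rw [Sym2.eq_iff] at e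
        rcases e with ⟨-, e⟩ | ⟨e, -⟩
        · exact hw e
        · exact hu e
      · rw [Sym2.map_mk, mrg_ne hu, mrg_ne hw]
    · refine ⟨s(b, w), h, ?_, ?_⟩
      · intro e
        rw [Sym2.eq_iff] at e
        rcases e with ⟨-, e⟩ | ⟨-, e⟩
        · exact hw e
        · exact huw e.symm
      · rw [Sym2.map_mk, mrg_b, mrg_ne hw]
    · refine ⟨s(u, b), h, ?_, ?_⟩
      · intro e
        rw [Sym2.eq_iff] at e
        rcases e with ⟨e, -⟩ | ⟨e, -⟩
        · exact huw e
        · exact hu e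
      · rw [Sym2.map_mk, mrg_b, mrg_ne hu]

variable {C D : Finset (Sym2 α)}

theorem mem_iff (hch : chi C = lft G a b (chi D)) {e : Sym2 α} (he : e ∈ G.edgeSet)
    (he' : e ≠ s(a, b)) : e ∈ C ↔ e.map (mrg a b) ∈ D := by
  have h := congr_fun hch e
  unfold lft at h
  rw [if_neg he', if_pos he] at h
  rw [← chi_eq_one, ← chi_eq_one, h]

theorem fwd (hN : NoCN G a b) (hC : CycM G a b C) (hD : IsCyc (contr G a b) D)
    (hch : chi C = lft G a b (chi D)) {e1 e2 : Sym2 α} (h1 : e1 ∈ G.edgeSet) (h2 : e2 ∈ G.edgeSet)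
    {x y : α} (h : Rch (C \ {e1, e2}) x y) :
    Rch (D \ {e1.map (mrg a b), e2.map (mrg a b)}) (mrg a b x) (mrg a b y) := by
  unfold Rch at *
  obtain ⟨w⟩ := h
  induction w with
  | nil => exact Reachable.refl _
  | @cons x z y hxz w ih =>
    refine Reachable.trans ?_ ih
    rw [fromEdgeSet_adj] at hxz
    obtain ⟨hm, hne⟩ := hxz
    rw [mem_coe, mem_sdiff, mem_insert, mem_singleton] at hm
    obtain ⟨hmC, hmn⟩ := hm
    by_cases hab : s(x, z) = s(a, b)
    · have e : mrg a b x = mrg a b z := by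
        rw [Sym2.eq_iff] at hab
        rcases hab with ⟨rfl, rfl⟩ | ⟨rfl, rfl⟩
        · rw [mrg_b, mrg_ne hne]
        · rw [mrg_b, mrg_ne hne.symm]
      rw [e]
    · have hG : s(x, z) ∈ G.edgeSet := hC.1.subset _ hmC
      have hmD := (mem_iff hch hG hab).1 hmC
      rw [Sym2.map_mk] at hmD
      refine Adj.reachable ?_
      rw [fromEdgeSet_adj, mem_coe, mem_sdiff, mem_insert, mem_singleton]
      refine ⟨⟨hmD, ?_⟩, ?_⟩
      · rintro (e | e)
        · exact hmn (Or.inl (inj hN hG h1 hab (by rw [Sym2.map_mk]; exact e)))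
        · exact hmn (Or.inr (inj hN hG h2 hab (by rw [Sym2.map_mk]; exact e)))
      · exact (hD.adj_of_mem hmD).ne

theorem bwd (hC : CycM G a b C) (hD : IsCyc (contr G a b) D)
    (hch : chi C = lft G a b (chi D)) {e1 e2 : Sym2 α} (h1 : e1 ≠ s(a, b)) (h2 : e2 ≠ s(a, b))
    {p q : α} (h : Rch (D \ {e1.map (mrg a b), e2.map (mrg a b)}) p q) :
    ∀ x y, x ∈ vs C → y ∈ vs C → mrg a b x = p → mrg a b y = q → Rch (C \ {e1, e2}) x y := by
  have base : ∀ x y, x ∈ vs C → y ∈ vs C → mrg a b x = mrg a b y → Rch (C \ {e1, e2}) x y := by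
    intro x y hx hy hxy
    have key : a ∈ vs C → b ∈ vs C → Rch (C \ {e1, e2}) a b := by
      intro ha hb
      have hmem := hC.2 ha hb
      refine Adj.reachable ?_
      rw [fromEdgeSet_adj, mem_coe, mem_sdiff, mem_insert, mem_singleton]
      refine ⟨⟨hmem, ?_⟩, (hC.1.adj_of_mem hmem).ne⟩
      rintro (e | e)
      · exact h1 e.symm
      · exact h2 e.symm
    rcases mrg_eq hxy with rfl | ⟨rfl, rfl⟩ | ⟨rfl, rfl⟩
    · exact Reachable.refl _
    · exact key hx hy
    · exact (key hy hx).symm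
  unfold Rch at h
  obtain ⟨w⟩ := h
  induction w with
  | nil =>
    intro x y hx hy hxp hyp
    exact base x y hx hy (hxp.trans hyp.symm)
  | @cons p r q hpr w ih =>
    intro x y hx hy hxp hyq
    rw [fromEdgeSet_adj] at hpr
    obtain ⟨hm, hne⟩ := hpr
    rw [mem_coe, mem_sdiff, mem_insert, mem_singleton] at hm
    obtain ⟨hmD, hmn⟩ := hm
    obtain ⟨g, hg, hgab, hgm⟩ := lift (hD.subset _ hmD)
    have hgC : g ∈ C := (mem_iff hch hg hgab).2 (hgm ▸ hmD)
    have hgn : ¬ (g = e1 ∨ g = e2) := by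
      rintro (e | e)
      · exact hmn (Or.inl (by rw [← hgm, e]))
      · exact hmn (Or.inr (by rw [← hgm, e]))
    obtain ⟨x', r', hgx, hx', hr'⟩ : ∃ x' r', g = s(x', r') ∧ mrg a b x' = p ∧ mrg a b r' = r := by
      induction g using Sym2.ind with
      | _ c d =>
        rw [Sym2.map_mk, Sym2.eq_iff] at hgm
        rcases hgm with ⟨h3, h4⟩ | ⟨h3, h4⟩
        · exact ⟨c, d, rfl, h3, h4⟩
        · exact ⟨d, c, Sym2.eq_swap, h4, h3⟩
    subst hgx
    have s1 := base x x' hx (left_mem_vs hgC) (hxp.trans hx'.symm)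
    have s3 := ih r' y (right_mem_vs hgC) hy hr' hyq
    refine Reachable.trans s1 (Reachable.trans (Adj.reachable ?_) s3)
    rw [fromEdgeSet_adj, mem_coe, mem_sdiff, mem_insert, mem_singleton]
    exact ⟨⟨hgC, hgn⟩, (hC.1.adj_of_mem hgC).ne⟩

end CTBM

open CTBM in
theorem specCTB : SpecCTB := by
  intro α _ _ G a b _ hN C D hC hD hch s t u v hst huv hst' huv'
  have m1 := mem_iff hch (e := s(s, t)) hst hst'
  have m2 := mem_iff hch (e := s(u, v)) huv huv'
  rw [Sym2.map_mk] at m1 m2
  unfold coh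
  have key : (s(s, t) ∈ C ∧ s(u, v) ∈ C ∧ Rch (C \ {s(s, t), s(u, v)}) t u) ↔
      (s(mrg a b s, mrg a b t) ∈ D ∧ s(mrg a b u, mrg a b v) ∈ D ∧
        Rch (D \ {s(mrg a b s, mrg a b t), s(mrg a b u, mrg a b v)}) (mrg a b t) (mrg a b u)) := by
    constructor
    · rintro ⟨h1, h2, h3⟩
      have h4 := fwd hN hC hD hch (e1 := s(s, t)) (e2 := s(u, v)) hst huv h3
      rw [Sym2.map_mk, Sym2.map_mk] at h4
      exact ⟨m1.1 h1, m2.1 h2, h4⟩
    · rintro ⟨h1, h2, h3⟩
      have h1' := m1.2 h1
      have h2' := m2.2 h2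
      rw [← Sym2.map_mk, ← Sym2.map_mk (mrg a b)] at h3
      exact ⟨h1', h2', bwd hC hD hch hst' huv' h3 t u (right_mem_vs h1') (left_mem_vs h2') rfl rfl⟩
  by_cases h : s(s, t) ∈ C ∧ s(u, v) ∈ C ∧ Rch (C \ {s(s, t), s(u, v)}) t u
  · rw [if_pos h, if_pos (key.1 h)]
  · rw [if_neg h, if_neg (fun h' => h (key.2 h'))]

end DL
end

section
/-!
MP_3ff0f8_gt, ALGEBRA HALF, module CTD: lift of a `D_4` minor of `contr G a b` to `G`.  (helper26)
-/
open SimpleGraph Finset

namespace DL.CTDM

set_option linter.unusedSectionVars false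

open CTAM

variable {α : Type} [Fintype α] [DecidableEq α] {G : SimpleGraph α} {a b : α}

/-- the boundary of a projected chain -/
theorem bdy_prj (hne : a ≠ b) {c : Chain α} (hd : ∀ v, c s(v, v) = 0) (u : α) :
    bdy (prj a b c) u = ∑ v, if mrg a b v = u then bdy c v else 0 := by
  classical
  have hself : prj a b c s(a, a) = 0 := prj_diag (by simp)
  have hbb : ∀ x, prj a b c s(x, b) = 0 := fun x => prj_b (by simp)
  by_cases hua : u = a
  · subst hua
    have hr : (∑ v, if mrg u b v = u then bdy c v else 0) = bdy c u + bdy c b := by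
      rw [sum_split hne, mrg_of_ne u hne, mrg_b, if_pos rfl, if_pos rfl]
      rw [sum_eq_zero, add_zero]
      intro x hx
      rw [mem_filter] at hx
      rw [mrg_of_ne u hx.2.2, if_neg hx.2.1]
    rw [hr, bdy_eq_nbr, sum_split hne, hself, hbb, add_zero, zero_add]
    have h1 : ∑ x ∈ univ.filter (fun x => x ≠ u ∧ x ≠ b), prj u b c s(u, x) =
        ∑ x ∈ univ.filter (fun x => x ≠ u ∧ x ≠ b), (c s(u, x) + c s(b, x)) := by
      refine sum_congr rfl fun x hx => ?_
      rw [mem_filter] at hx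
      exact prj_a hne hx.2.1 hx.2.2
    rw [h1, sum_add_distrib, bdy_eq_nbr, sum_split hne, hd, bdy_eq_nbr, sum_split hne, hd,
      Sym2.eq_swap (a := b) (b := u)]
    have h5 := zmod2_add_self (c s(u, b))
    linear_combination - h5
  · by_cases hub : u = b
    · subst hub
      rw [bdy_eq_nbr]
      rw [sum_eq_zero fun x _ => prj_b (by simp)]
      symm
      apply sum_eq_zero
      intro v _
      rw [if_neg]
      intro h
      by_cases hv : v = u
      · rw [hv, mrg_b] at h
        exact hne h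
      · rw [mrg_of_ne a hv] at h
        exact hv h
    · have hr : (∑ v, if mrg a b v = u then bdy c v else 0) = bdy c u := by
        rw [sum_eq_single u]
        · rw [mrg_of_ne a hub, if_pos rfl]
        · intro v _ hv
          rw [if_neg]
          intro h
          exact hv ((mrg_eq_of_ne_a hua).1 h).1
        · exact fun h => absurd (mem_univ _) h
      rw [hr, bdy_eq_nbr, sum_split hne, hbb, add_zero, Sym2.eq_swap, prj_a hne hua hub,
        bdy_eq_nbr, sum_split hne, Sym2.eq_swap (a := a), Sym2.eq_swap (a := b)]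
      congr 1
      refine sum_congr rfl fun x hx => ?_
      rw [mem_filter] at hx
      by_cases h : u = x
      · rw [← h, hd]
        exact prj_diag (by simp)
      · exact prj_off hua hub hx.2.1 hx.2.2 h

/-- lift of a graph on part of the contraction: the edges of `G` which merge to edges of `T`, and `ab` if `A` -/
def lT (G : SimpleGraph α) (a b : α) (T : SimpleGraph α) (A : Prop) : SimpleGraph α where
  Adj u v := G.Adj u v ∧ (T.Adj (mrg a b u) (mrg a b v) ∨ (A ∧ s(u, v) = s(a, b)))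
  symm := ⟨fun u v h => ⟨h.1.symm, by
    rcases h.2 with h | h
    · exact Or.inl h.symm
    · exact Or.inr ⟨h.1, by rw [Sym2.eq_swap]; exact h.2⟩⟩⟩
  loopless := ⟨fun u h => h.1.ne rfl⟩

theorem lT_le {T : SimpleGraph α} {A : Prop} : lT G a b T A ≤ G := fun _ _ h => h.1

/-- edges lift to paths -/
theorem reach_adj (hab : G.Adj a b) {T : SimpleGraph α} (hT : T ≤ contr G a b) {A : Prop}
    (hA : ∀ x, T.Adj a x → A) {x y : α} (h : T.Adj x y) : (lT G a b T A).Reachable x y := by
  have hH := hT h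
  obtain ⟨hxb, hyb, hxy, hc⟩ := hH
  rcases hc with h1 | ⟨rfl, h1⟩ | ⟨rfl, h1⟩
  · apply Adj.reachable
    exact ⟨h1, Or.inl (by rw [mrg_of_ne a hxb, mrg_of_ne a hyb]; exact h)⟩
  · have a1 : (lT G x b T A).Adj x b := ⟨hab, Or.inr ⟨hA _ h, rfl⟩⟩
    have a2 : (lT G x b T A).Adj b y :=
      ⟨h1, Or.inl (by rw [mrg_b, mrg_of_ne x hyb]; exact h)⟩
    exact a1.reachable.trans a2.reachable
  · have a1 : (lT G y b T A).Adj y b := ⟨hab, Or.inr ⟨hA _ h.symm, rfl⟩⟩
    have a2 : (lT G y b T A).Adj b x :=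
      ⟨h1.symm, Or.inl (by rw [mrg_b, mrg_of_ne y hxb]; exact h.symm)⟩
    exact (a1.reachable.trans a2.reachable).symm

theorem reach (hab : G.Adj a b) {T : SimpleGraph α} (hT : T ≤ contr G a b) {A : Prop}
    (hA : ∀ x, T.Adj a x → A) {x y : α} (h : T.Reachable x y) : (lT G a b T A).Reachable x y := by
  obtain ⟨w⟩ := h
  induction w with
  | nil => exact Reachable.refl _
  | cons h _ ih => exact (reach_adj hab hT hA h).trans ih

/-- a projected chain of the lifted tree lies in the tree -/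
theorem prj_in {T : SimpleGraph α} {A : Prop} {c : Chain α}
    (hc : ∀ e, c e ≠ 0 → e ∈ (lT G a b T A).edgeSet) :
    ∀ e, prj a b c e ≠ 0 → e ∈ T.edgeSet := by
  intro e he
  obtain ⟨f, hf1, hf2, hf3⟩ := prj_supp he
  have h1 := hc f hf3
  induction f using Sym2.ind with
  | _ u v =>
    rw [SimpleGraph.mem_edgeSet] at h1
    rcases h1.2 with h2 | h2
    · rw [← hf2, Sym2.map_mk]
      exact h2
    · exact absurd h2.2 hf1

/-- the lifted tree -/
theorem tree (hCTA : SpecCTA) (hTRE : SpecTRE) (hab : G.Adj a b) (hN : NoCN G a b)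
    {T : SimpleGraph α} {X : Finset α} (hTX : TreeOn T X) (hT : T ≤ contr G a b) (hb : b ∉ X)
    {X' : Finset α} (hX' : ∀ v, v ∈ X' ↔ v ∈ X ∨ (v = b ∧ a ∈ X)) :
    TreeOn (lT G a b T (a ∈ X)) X' := by
  have hA : ∀ x, T.Adj a x → a ∈ X := fun x hx => hTX.inX a x hx
  refine ⟨?_, ?_, ?_⟩
  · rintro v w ⟨h1, h2 | ⟨h2, h3⟩⟩
    · rw [hX']
      have h4 := hTX.inX _ _ h2
      by_cases hv : v = b
      · rw [hv, mrg_b] at h4
        exact Or.inr ⟨hv, h4⟩
      · rw [mrg_of_ne a hv] at h4
        exact Or.inl h4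
    · rw [hX']
      rw [Sym2.eq_iff] at h3
      rcases h3 with ⟨rfl, -⟩ | ⟨rfl, -⟩
      · exact Or.inl h2
      · exact Or.inr ⟨rfl, h2⟩
  · -- everything is connected to its image
    have hm : ∀ v ∈ X', mrg a b v ∈ X ∧ (lT G a b T (a ∈ X)).Reachable v (mrg a b v) := by
      intro v hv
      rcases (hX' v).1 hv with h | ⟨rfl, h⟩
      · have hvb : v ≠ b := by
          rintro rfl
          exact hb h
        rw [mrg_of_ne a hvb]
        exact ⟨h, Reachable.refl _⟩
      · rw [mrg_b]
        refine ⟨h, ?_⟩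
        have : (lT G a v T (a ∈ X)).Adj v a :=
          ⟨hab.symm, Or.inr ⟨h, Sym2.eq_swap⟩⟩
        exact this.reachable
    intro v hv w hw
    obtain ⟨h1, h2⟩ := hm v hv
    obtain ⟨h3, h4⟩ := hm w hw
    exact h2.trans ((reach hab hT hA (hTX.conn _ h1 _ h3)).trans h4.symm)
  · rw [hTRE.z1]
    intro c hc
    have hcG : c ∈ Z1 G := Z1_mono lT_le hc
    have h1 := hCTA.pz hab c hcG
    have h2 : prj a b c ∈ Z1 T := ⟨prj_in hc.1, h1.2⟩
    have h3 : prj a b c = 0 := (hTRE.z1 T).1 hTX.acyc _ h2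
    have h4 := hCTA.lp hab hN c hcG
    rw [h3] at h4
    have h5 := (hCTA.lin G a b 0 0).1
    rw [add_zero] at h5
    have h6 : lft G a b 0 = 0 := by
      have h7 : lft G a b 0 + lft G a b 0 = lft G a b 0 + 0 := by rw [add_zero]; exact h5.symm
      exact add_left_cancel h7
    rw [← h4, h6]

/-- lift of an edge -/
theorem lift_edge (hab : G.Adj a b) {x y : α} (h : (contr G a b).Adj x y) :
    ∃ x' y' : α, G.Adj x' y' ∧ mrg a b x' = x ∧ mrg a b y' = y ∧ s(x', y') ≠ s(a, b) := by
  obtain ⟨hxb, hyb, hxy, hc⟩ := h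
  rcases hc with h1 | ⟨rfl, h1⟩ | ⟨rfl, h1⟩
  · refine ⟨x, y, h1, mrg_of_ne a hxb, mrg_of_ne a hyb, ?_⟩
    intro h
    rw [Sym2.eq_iff] at h
    rcases h with ⟨-, h⟩ | ⟨h, -⟩
    · exact hyb h
    · exact hxb h
  · refine ⟨b, y, h1, mrg_b _ _, mrg_of_ne _ hyb, ?_⟩
    intro h
    rw [Sym2.eq_iff] at h
    rcases h with ⟨h, -⟩ | ⟨-, h⟩
    · exact hxb h.symm
    · exact hxy h.symm
  · refine ⟨x, b, h1, mrg_of_ne _ hxb, mrg_b _ _, ?_⟩
    intro h
    rw [Sym2.eq_iff] at h
    rcases h with ⟨h, -⟩ | ⟨h, -⟩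
    · exact hxy h
    · exact hxb h

/-- a lift of a vertex of `X` is in `X'` -/
theorem mem_lift {X X' : Finset α} (hX' : ∀ v, v ∈ X' ↔ v ∈ X ∨ (v = b ∧ a ∈ X)) {x' : α}
    (h : mrg a b x' ∈ X) : x' ∈ X' := by
  rw [hX']
  by_cases hx : x' = b
  · rw [hx, mrg_b] at h
    exact Or.inr ⟨hx, h⟩
  · rw [mrg_of_ne a hx] at h
    exact Or.inl h

/-- the projection of the chain of an edge -/
theorem prj_edge {x y : α} (hne : s(x, y) ≠ s(a, b)) (h1 : ¬ (b ∈ s(mrg a b x, mrg a b y) ∨
    (s(mrg a b x, mrg a b y)).IsDiag)) :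
    prj a b (chi {s(x, y)}) = chi {s(mrg a b x, mrg a b y)} := by
  funext e
  by_cases he : e = s(mrg a b x, mrg a b y)
  · rw [he, chi_of_mem (mem_singleton_self _), prj, if_neg h1]
    rw [sum_eq_single s(x, y)]
    · exact chi_of_mem (mem_singleton_self _)
    · intro f _ hf
      exact chi_of_notMem fun h => hf (mem_singleton.1 h)
    · intro h
      exfalso
      apply h
      rw [mem_filter]
      exact ⟨mem_univ _, hne, rfl⟩
  · rw [chi_of_notMem fun h => he (mem_singleton.1 h)]
    by_contra h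
    obtain ⟨f, -, hf2, hf3⟩ := prj_supp h
    rw [chi_ne_zero, mem_singleton] at hf3
    rw [hf3, Sym2.map_mk] at hf2
    exact he hf2.symm

/-- the projection of a tree path -/
theorem prj_tp (hTRE : SpecTRE) (hab : G.Adj a b) {T : SimpleGraph α} {X X' : Finset α}
    (hTX : TreeOn T X) {A : Prop} (hT' : TreeOn (lT G a b T A) X') {x y : α} (hx : x ∈ X')
    (hy : y ∈ X') (hmx : mrg a b x ∈ X) (hmy : mrg a b y ∈ X) :
    prj a b (chi (tp (lT G a b T A) x y)) = chi (tp T (mrg a b x) (mrg a b y)) := by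
  have hP := (hTRE.tp hT' x hx y hy).1
  refine hTRE.tpc hTX _ hmx _ hmy _ (prj_in fun e he => hP.subset e (chi_ne_zero.1 he)) ?_
  intro u
  rw [bdy_prj hab.ne]
  · have h1 : ∀ v, (if mrg a b v = u then bdy (chi (tp (lT G a b T A) x y)) v else 0) =
        (if v = x then (if mrg a b v = u then 1 else 0) else 0) +
          (if v = y then (if mrg a b v = u then 1 else 0) else 0) := by
      intro v
      rw [hP.bdy_chi]
      split_ifs <;> simp
    rw [sum_congr rfl fun v _ => h1 v, sum_add_distrib, sum_ite_eq', sum_ite_eq',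
      if_pos (mem_univ _), if_pos (mem_univ _)]
    congr 1
    · split_ifs with h2 h3 h3
      · rfl
      · exact absurd h2.symm h3
      · exact absurd h3.symm h2
      · rfl
    · split_ifs with h2 h3 h3
      · rfl
      · exact absurd h2.symm h3
      · exact absurd h3.symm h2
      · rfl
  · intro v
    apply chi_of_notMem
    intro h
    exact hP.not_isDiag _ h (by simp)

end DL.CTDM

namespace DL

open CTDM CTAM in
theorem specCTD (hCTA : SpecCTA) (hTRE : SpecTRE) (hDCB : SpecDCB) : SpecCTD := by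
  intro α _ _ G a b hab hN D
  classical
  have htree : ∀ i, TreeOn (D.T i) (D.X i) := fun i => ⟨D.inX i, D.conn i, D.acyc i⟩
  -- `b` is in no `X i`
  have hb : ∀ i, b ∉ D.X i := by
    intro i hi
    have h1 := D.conn i _ hi _ (D.pX i false)
    have hne : b ≠ D.p i false := fun h => (D.adj i false).1 h.symm
    obtain ⟨w, hw⟩ := exists_adj_of_reachable h1 hne
    exact (D.sub i hw).1 rfl
  set X' : Fin 4 → Finset α := fun i => D.X i ∪ (if a ∈ D.X i then {b} else ∅) with hX'
  have memX : ∀ i v, v ∈ X' i ↔ v ∈ D.X i ∨ (v = b ∧ a ∈ D.X i) := by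
    intro i v
    simp only [hX', mem_union]
    split_ifs with h
    · simp [h]
    · simp [h]
  have htree' : ∀ i, TreeOn (lT G a b (D.T i) (a ∈ D.X i)) (X' i) := fun i =>
    tree hCTA hTRE hab hN (htree i) (D.sub i) (hb i) (memX i)
  -- the beads
  have hbead : ∀ (i : Fin 4) (e : Bool), ∃ z : α × α, G.Adj z.1 z.2 ∧ mrg a b z.1 = D.p i e ∧
      mrg a b z.2 = D.q i e ∧ s(z.1, z.2) ≠ s(a, b) := by
    intro i e
    obtain ⟨x, y, h⟩ := lift_edge hab (D.adj i e)
    exact ⟨(x, y), h⟩
  choose z hz1 hz2 hz3 hz4 using hbead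
  have hzp : ∀ i e, (z i e).1 ∈ X' i := fun i e =>
    mem_lift (memX i) (by rw [hz2]; exact D.pX i e)
  have hzq : ∀ i e, (z i e).2 ∈ X' (i + 1) := fun i e =>
    mem_lift (memX (i + 1)) (by rw [hz3]; exact D.qX i e)
  let D' : D4M G :=
    { X := X'
      disj := by
        intro i j hij
        rw [Finset.disjoint_left]
        intro v hv hw
        have hd := Finset.disjoint_left.1 (D.disj i j hij)
        rcases (memX i v).1 hv with h1 | ⟨h1, h2⟩
        · rcases (memX j v).1 hw with h3 | ⟨h3, h4⟩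
          · exact hd h1 h3
          · exact hb i (h3 ▸ h1)
        · rcases (memX j v).1 hw with h3 | ⟨h3, h4⟩
          · exact hb j (h1 ▸ h3)
          · exact hd h2 h4
      T := fun i => lT G a b (D.T i) (a ∈ D.X i)
      sub := fun i => lT_le
      inX := fun i => (htree' i).inX
      conn := fun i => (htree' i).conn
      acyc := fun i => (htree' i).acyc
      p := fun i e => (z i e).1
      q := fun i e => (z i e).2
      pX := hzp
      qX := hzq
      adj := hz1
      ne := by
        intro i h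
        apply D.ne i
        have h1 := congrArg (Sym2.map (mrg a b)) h
        rw [Sym2.map_mk, Sym2.map_mk, hz2, hz3, hz2, hz3] at h1
        exact h1 }
  refine ⟨D', fun e => ?_⟩
  obtain ⟨hc', hchi'⟩ := hDCB.cyc D' e
  obtain ⟨hc, hchi⟩ := hDCB.cyc D e
  -- `prj` of the cycle
  have padd : ∀ c d : Chain α, prj a b (c + d) = prj a b c + prj a b d := fun c d =>
    (hCTA.lin G a b c d).2
  have psum : ∀ (f : Fin 4 → Chain α), prj a b (∑ i, f i) = ∑ i, prj a b (f i) := by
    intro f
    rw [Fin.sum_univ_four, Fin.sum_univ_four, padd, padd, padd]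
  have hprj : prj a b (chi (D'.cyc e)) = chi (D.cyc e) := by
    rw [hchi', hchi, psum]
    refine sum_congr rfl fun i _ => ?_
    rw [padd]
    congr 1
    · show prj a b (chi {s((z i (e i)).1, (z i (e i)).2)}) = _
      rw [prj_edge (hz4 i (e i)), hz2, hz3]
      rw [hz2, hz3]
      rintro (h | h)
      · rw [Sym2.mem_iff] at h
        rcases h with h | h
        · exact (D.adj i (e i)).1 h.symm
        · exact (D.adj i (e i)).2.1 h.symm
      · exact (D.adj i (e i)).ne (by simpa using h)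
    · show prj a b (chi (tp (lT G a b (D.T (i + 1)) (a ∈ D.X (i + 1))) (z i (e i)).2
        (z (i + 1) (e (i + 1))).1)) = _
      rw [prj_tp hTRE hab (htree (i + 1)) (htree' (i + 1)) (hzq i (e i)) (hzp (i + 1) (e (i + 1)))
        (by rw [hz3]; exact D.qX i _) (by rw [hz2]; exact D.pX (i + 1) _), hz3, hz2]
  have hfin : chi (D'.cyc e) = lft G a b (chi (D.cyc e)) := by
    rw [← hprj, hCTA.lp hab hN _ hc'.chi_mem]
  refine ⟨?_, hfin⟩
  obtain ⟨C, hC1, hC2⟩ := hCTA.cl hab hN _ hc
  have : C = D'.cyc e := chi_inj.1 (hC2.trans hfin.symm)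
  rw [← this]
  exact hC1

end DL
end

section
/-!
MP_3ff0f8_gt, EX/K block, module CTF: functions in `F` and contraction.  (helper55)
-/
open SimpleGraph Finset

namespace DL

namespace CTFM

set_option linter.unusedSectionVars false
set_option linter.unusedFintypeInType false
set_option linter.unusedDecidableInType false

variable {α : Type} [Fintype α] [DecidableEq α] {G H : SimpleGraph α} {a b : α}

/-! ### closure properties of `InF` -/

theorem inF_congr {f g : Finset (Sym2 α) → ZMod 2} (h : ∀ C, IsCyc G C → f C = g C)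
    (hg : InF G g) : InF G f := by
  obtain ⟨p, hp, h0, l, hl⟩ := hg
  exact ⟨p, hp, h0, l, fun C hC => (h C hC).trans (hl C hC)⟩

theorem inF_poly {p : Chain α → ZMod 2} (hp : DegLE 3 p) (h0 : p 0 = 0) :
    InF G (fun C => p (chi C)) :=
  ⟨p, hp, h0, fun _ _ _ _ => 0, fun C _ => by simp⟩

theorem inF_zero (hPOL : SpecPOL) : InF G (fun _ => 0) :=
  inF_congr (fun _ _ => rfl) (inF_poly (p := fun _ => 0) (hPOL.zero 3) rfl)

theorem inF_add (hPOL : SpecPOL) {f g : Finset (Sym2 α) → ZMod 2} (hf : InF G f) (hg : InF G g) :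
    InF G (fun C => f C + g C) := by
  obtain ⟨p, hp, h0, l, hl⟩ := hf
  obtain ⟨p', hp', h0', l', hl'⟩ := hg
  refine ⟨fun c => p c + p' c, hPOL.add hp hp', by simp [h0, h0'],
    fun a b c d => l a b c d + l' a b c d, fun C hC => ?_⟩
  show f C + g C = _
  rw [hl C hC, hl' C hC]
  simp only [add_mul, sum_add_distrib]
  ring

theorem inF_sum (hPOL : SpecPOL) {ι : Type} (s : Finset ι) (f : ι → Finset (Sym2 α) → ZMod 2)
    (h : ∀ i ∈ s, InF G (f i)) : InF G (fun C => ∑ i ∈ s, f i C) := by
  classical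
  induction s using Finset.induction_on with
  | empty => simpa using inF_zero hPOL
  | insert i s hi ih =>
    have h1 := inF_add hPOL (h i (mem_insert_self i s))
      (ih fun j hj => h j (mem_insert_of_mem hj))
    refine inF_congr (fun C _ => ?_) h1
    rw [sum_insert hi]

theorem inF_smul (hPOL : SpecPOL) (x : ZMod 2) {f : Finset (Sym2 α) → ZMod 2} (hf : InF G f) :
    InF G (fun C => x * f C) := by
  rcases zmod2_cases x with h | h
  · subst h
    simpa using inF_zero hPOL
  · subst h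
    simpa using hf

theorem inF_coh (hPOL : SpecPOL) (s t u v : α) : InF G (fun C => coh s t u v C) := by
  classical
  refine ⟨fun _ => 0, hPOL.zero 3, rfl,
    fun a b c d => if a = s ∧ b = t ∧ c = u ∧ d = v then 1 else 0, fun C _ => ?_⟩
  rw [zero_add, sum_eq_single s, sum_eq_single t, sum_eq_single u, sum_eq_single v]
  · simp
  · intro d _ hd
    simp [hd]
  · simp
  · intro c _ hc
    simp [hc]
  · simp
  · intro b _ hb
    simp [hb]
  · simp
  · intro a _ ha
    simp [ha]
  · simp

/-! ### degrees -/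

theorem deg_coord (hPOL : SpecPOL) (e : Sym2 α) : DegLE 1 (fun c : Chain α => c e) :=
  hPOL.ofAdd (fun _ _ => rfl)

theorem deg_PR (hPOL : SpecPOL) {A : Set (Sym2 α)} {q : Chain α → ZMod 2} (hq : q ∈ PR A) :
    DegLE 2 q ∧ q 0 = 0 := by
  induction hq using Submodule.span_induction with
  | mem f hf =>
    obtain ⟨x, -, y, -, -, rfl⟩ := hf
    exact ⟨hPOL.mul (d := 1) (e := 1) (deg_coord hPOL x) (deg_coord hPOL y), by simp⟩
  | zero => exact ⟨hPOL.zero 2, rfl⟩
  | add f g _ _ hf hg => exact ⟨hPOL.add hf.1 hg.1, by simp [hf.2, hg.2]⟩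
  | smul r f _ hf =>
    rcases zmod2_cases r with h | h
    · subst h
      rw [zero_smul]
      exact ⟨hPOL.zero 2, rfl⟩
    · subst h
      rw [one_smul]
      exact hf

/-- `lft` as an additive map -/
noncomputable def lftH (G : SimpleGraph α) (a b : α) : Chain α →+ Chain α :=
  AddMonoidHom.mk' (lft G a b) (fun c d => (CTAM.lin G a b c d).1)

noncomputable def prjH (a b : α) : Chain α →+ Chain α :=
  AddMonoidHom.mk' (prj a b) (fun c d => (CTAM.lin (⊥ : SimpleGraph α) a b c d).2)

theorem lftH_apply (G : SimpleGraph α) (a b : α) (c : Chain α) : lftH G a b c = lft G a b c := rfl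

theorem prjH_apply (a b : α) (c : Chain α) : prjH a b c = prj a b c := rfl

/-! ### the cycle of `G` over a cycle of the contraction -/

/-- the cycle over `D` -/
noncomputable def Cof (G : SimpleGraph α) (a b : α) (D : Finset (Sym2 α)) : Finset (Sym2 α) :=
  csupp (lft G a b (chi D))

theorem chi_Cof (G : SimpleGraph α) (a b : α) (D : Finset (Sym2 α)) :
    chi (Cof G a b D) = lft G a b (chi D) := chi_csupp _

theorem cof_cyc (hab : G.Adj a b) (hN : NoCN G a b) {D : Finset (Sym2 α)}
    (hD : IsCyc (contr G a b) D) : CycM G a b (Cof G a b D) := by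
  obtain ⟨C, hC, hchi⟩ := CTAM.cl hab hN D hD
  have : Cof G a b D = C := by
    rw [Cof, ← hchi, csupp_chi]
  rw [this]
  exact hC

/-- polynomials in the chain of the lifted cycle -/
theorem inF_lift_poly (hPOL : SpecPOL) (G : SimpleGraph α) (a b : α) {p : Chain α → ZMod 2}
    (hp : DegLE 3 p) (h0 : p 0 = 0) : InF H (fun D => p (chi (Cof G a b D))) := by
  have h1 : InF H (fun D => (fun c => p (lftH G a b c)) (chi D)) :=
    inF_poly (hPOL.comp (lftH G a b) hp) (by
      show p (lftH G a b 0) = 0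
      rw [map_zero]
      exact h0)
  refine inF_congr (fun D _ => ?_) h1
  rw [chi_Cof]
  rfl

theorem pair_share {s t u v : α} (hPOL : SpecPOL) (hab : G.Adj a b) (hN : NoCN G a b)
    (h : ∃ w, w ∈ s(s, t) ∧ w ∈ s(u, v)) :
    InF (contr G a b) (fun D => coh s t u v (Cof G a b D)) := by
  rcases coh_share h with h1 | h1
  · exact inF_congr (fun D hD => h1 G _ (cof_cyc hab hN hD).1) (inF_zero hPOL)
  · have h2 : DegLE 3 (fun c : Chain α => c s(s, t) * c s(u, v)) :=
      hPOL.mono (by norm_num) (hPOL.mul (d := 1) (e := 1) (deg_coord hPOL _) (deg_coord hPOL _))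
    exact inF_congr (fun D hD => h1 G _ (cof_cyc hab hN hD).1)
      (inF_lift_poly hPOL G a b h2 (by simp))

theorem pair_edges (hCTB : SpecCTB) (hPOL : SpecPOL) (hab : G.Adj a b) (hN : NoCN G a b)
    {s t u v : α} (hst : s(s, t) ≠ s(a, b)) (huv : s(u, v) ≠ s(a, b)) :
    InF (contr G a b) (fun D => coh s t u v (Cof G a b D)) := by
  by_cases h1 : G.Adj s t
  · by_cases h2 : G.Adj u v
    · refine inF_congr (fun D hD => ?_)
        (inF_coh hPOL (mrg a b s) (mrg a b t) (mrg a b u) (mrg a b v))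
      exact hCTB hab hN _ D (cof_cyc hab hN hD) hD (chi_Cof G a b D) s t u v h1 h2 hst huv
    · refine inF_congr (fun D hD => ?_) (inF_zero hPOL)
      apply coh_eq_zero_right
      intro h
      exact h2 ((cof_cyc hab hN hD).1.adj_of_mem h)
  · refine inF_congr (fun D hD => ?_) (inF_zero hPOL)
    apply coh_eq_zero_left
    intro h
    exact h1 ((cof_cyc hab hN hD).1.adj_of_mem h)

/-- the pair `ab`, `uv` -/
theorem pair_ab (hCTB : SpecCTB) (hVRW : SpecVRW) (hPOL : SpecPOL) (hab : G.Adj a b)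
    (hN : NoCN G a b) (u v : α) : InF (contr G a b) (fun D => coh a b u v (Cof G a b D)) := by
  classical
  by_cases hsh : ∃ w, w ∈ s(a, b) ∧ w ∈ s(u, v)
  · exact pair_share hPOL hab hN hsh
  have hau : a ≠ u := fun h => hsh ⟨a, by simp, by simp [h]⟩
  have hav : a ≠ v := fun h => hsh ⟨a, by simp, by simp [h]⟩
  have hbu : b ≠ u := fun h => hsh ⟨b, by simp, by simp [h]⟩
  by_cases huv : u = v
  · subst huv
    refine inF_congr (fun D hD => ?_) (inF_zero hPOL)
    apply coh_eq_zero_right
    intro h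
    exact G.loopless.irrefl u ((cof_cyc hab hN hD).1.adj_of_mem h)
  have huvab : s(u, v) ≠ s(a, b) := by
    intro h
    rw [Sym2.eq_iff] at h
    rcases h with ⟨h, -⟩ | ⟨h, -⟩
    · exact hau h.symm
    · exact hbu h.symm
  obtain ⟨q, hq, hqv⟩ := hVRW.vs2 a
  obtain ⟨hq2, hq0⟩ := deg_PR hPOL hq
  have hpoly : InF (contr G a b)
      (fun D => (fun c : Chain α => c s(u, v) * q c) (chi (Cof G a b D))) :=
    inF_lift_poly hPOL G a b (hPOL.mul (d := 1) (e := 2) (deg_coord hPOL _) hq2) (by simp)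
  have hsum : InF (contr G a b)
      (fun D => ∑ x ∈ univ.erase b, coh a x u v (Cof G a b D)) := by
    apply inF_sum hPOL
    intro x hx
    rw [mem_erase] at hx
    exact pair_edges hCTB hPOL hab hN (fun h => hx.1 (Sym2.congr_right.1 h)) huvab
  refine inF_congr (fun D hD => ?_) (inF_add hPOL hpoly hsum)
  have hC := (cof_cyc hab hN hD).1
  have h1 := hVRW.vr hC a u v hau hav huv
  have h2 := hqv G _ hC
  have h3 := add_sum_erase univ (fun x => coh a x u v (Cof G a b D)) (mem_univ b)
  have h4 : (if s(u, v) ∈ Cof G a b D ∧ a ∈ vs (Cof G a b D) then (1 : ZMod 2) else 0) =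
      chi (Cof G a b D) s(u, v) * q (chi (Cof G a b D)) := by
    rw [h2, chi_apply]
    by_cases h5 : s(u, v) ∈ Cof G a b D <;> by_cases h6 : a ∈ vs (Cof G a b D) <;> simp [h5, h6]
  have h5 := zmod2_add_self (∑ x ∈ univ.erase b, coh a x u v (Cof G a b D))
  have h6 : coh a b u v (Cof G a b D) + ∑ x ∈ univ.erase b, coh a x u v (Cof G a b D) =
      chi (Cof G a b D) s(u, v) * q (chi (Cof G a b D)) := by
    rw [← h4, ← h1, ← h3]
  show coh a b u v (Cof G a b D) = chi (Cof G a b D) s(u, v) * q (chi (Cof G a b D)) +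
    ∑ x ∈ univ.erase b, coh a x u v (Cof G a b D)
  linear_combination h6 - h5

theorem pair_ab_left (hCTB : SpecCTB) (hVRW : SpecVRW) (hPOL : SpecPOL) (hab : G.Adj a b)
    (hN : NoCN G a b) {s t : α} (hst : s(s, t) = s(a, b)) (u v : α) :
    InF (contr G a b) (fun D => coh s t u v (Cof G a b D)) := by
  rw [Sym2.eq_iff] at hst
  rcases hst with ⟨h1, h2⟩ | ⟨h1, h2⟩
  · rw [h1, h2]
    exact pair_ab hCTB hVRW hPOL hab hN u v
  · rw [h1, h2]
    refine inF_congr (fun D hD => ?_) (pair_ab hCTB hVRW hPOL hab hN v u)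
    exact (cof_cyc hab hN hD).1.coh_reverse a b v u

theorem pair_all (hCTB : SpecCTB) (hVRW : SpecVRW) (hPOL : SpecPOL) (hab : G.Adj a b)
    (hN : NoCN G a b) (s t u v : α) :
    InF (contr G a b) (fun D => coh s t u v (Cof G a b D)) := by
  by_cases hst : s(s, t) = s(a, b)
  · exact pair_ab_left hCTB hVRW hPOL hab hN hst u v
  · by_cases huv : s(u, v) = s(a, b)
    · refine inF_congr (fun D hD => ?_) (pair_ab_left hCTB hVRW hPOL hab hN huv s t)
      exact (cof_cyc hab hN hD).1.coh_comm u v s t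
    · exact pair_edges hCTB hPOL hab hN hst huv

theorem down (hCTB : SpecCTB) (hVRW : SpecVRW) (hPOL : SpecPOL) (hab : G.Adj a b)
    (hN : NoCN G a b) (φ φ' : Finset (Sym2 α) → ZMod 2) (hφ : InF G φ)
    (h : ∀ C D, CycM G a b C → IsCyc (contr G a b) D → chi C = lft G a b (chi D) → φ' D = φ C) :
    InF (contr G a b) φ' := by
  obtain ⟨p, hp, h0, l, hl⟩ := hφ
  have h1 : InF (contr G a b) (fun D => p (chi (Cof G a b D))) := inF_lift_poly hPOL G a b hp h0
  have h2 : InF (contr G a b) (fun D => ∑ s, ∑ t, ∑ u, ∑ v, l s t u v * coh s t u v (Cof G a b D)) := by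
    apply inF_sum hPOL univ
    intro s _
    apply inF_sum hPOL univ
    intro t _
    apply inF_sum hPOL univ
    intro u _
    apply inF_sum hPOL univ
    intro v _
    exact inF_smul hPOL _ (pair_all hCTB hVRW hPOL hab hN s t u v)
  refine inF_congr (fun D hD => ?_) (inF_add hPOL h1 h2)
  have hC := cof_cyc hab hN hD
  rw [h (Cof G a b D) D hC hD (chi_Cof G a b D)]
  exact hl _ hC.1

/-! ### from the contraction to the graph -/

/-- edges of the contraction can be lifted -/
theorem exists_lift {G' : SimpleGraph α} (hab : a ≠ b) {s t : α} (h : (contr G' a b).Adj s t) :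
    ∃ x y, G'.Adj x y ∧ mrg a b x = s ∧ mrg a b y = t ∧ s(x, y) ≠ s(a, b) := by
  obtain ⟨hs, ht, hst, h⟩ := h
  have key : ∀ x y : α, mrg a b x = s → mrg a b y = t → s(x, y) ≠ s(a, b) := by
    intro x y h1 h2 h3
    rw [Sym2.eq_iff] at h3
    rcases h3 with ⟨h3, h4⟩ | ⟨h3, h4⟩
    · subst h3 h4
      rw [CTAM.mrg_of_ne x hab] at h1
      rw [CTAM.mrg_b] at h2
      exact hst (h1.symm.trans h2)
    · subst h3 h4
      rw [CTAM.mrg_b] at h1
      rw [CTAM.mrg_of_ne y hab] at h2
      exact hst (h1.symm.trans h2)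
  rcases h with h | ⟨h1, h⟩ | ⟨h1, h⟩
  · exact ⟨s, t, h, CTAM.mrg_of_ne a hs, CTAM.mrg_of_ne a ht,
      key s t (CTAM.mrg_of_ne a hs) (CTAM.mrg_of_ne a ht)⟩
  · subst h1
    exact ⟨b, t, h, CTAM.mrg_b s b, CTAM.mrg_of_ne s ht,
      key b t (CTAM.mrg_b s b) (CTAM.mrg_of_ne s ht)⟩
  · subst h1
    exact ⟨s, b, h, CTAM.mrg_of_ne t hs, CTAM.mrg_b t b,
      key s b (CTAM.mrg_of_ne t hs) (CTAM.mrg_b t b)⟩

theorem up (hCTB : SpecCTB) (hSEF : SpecSEF) (hPOL : SpecPOL) (hab : G.Adj a b) (K : Finset α)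
    (φ' : Finset (Sym2 α) → ZMod 2) (hφ : InF (contr G a b) φ') :
    ∃ φ, InF G φ ∧ ∀ C D, CycM (sel G a b K) a b C → IsCyc (contr G a b) D →
      chi C = lft (sel G a b K) a b (chi D) → φ C = φ' D := by
  classical
  obtain ⟨hab', hN', hc'⟩ := hSEF.adj K hab
  obtain ⟨p, hp, h0, l, hl⟩ := hφ
  -- the function of one pair
  have key : ∀ s t u v : α, ∃ ψ, InF G ψ ∧ ∀ C D, CycM (sel G a b K) a b C →
      IsCyc (contr G a b) D → chi C = lft (sel G a b K) a b (chi D) → ψ C = coh s t u v D := by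
    intro s t u v
    by_cases h1 : (contr G a b).Adj s t
    · by_cases h2 : (contr G a b).Adj u v
      · rw [← hc'] at h1 h2
        obtain ⟨s', t', hst, hs, ht, hne⟩ := exists_lift hab.ne h1
        obtain ⟨u', v', huv, hu, hv, hne'⟩ := exists_lift hab.ne h2
        refine ⟨fun C => coh s' t' u' v' C, inF_coh hPOL _ _ _ _, ?_⟩
        intro C D hC hD hchi
        rw [← hc'] at hD
        have h3 := hCTB hab' hN' C D hC hD hchi s' t' u' v' hst huv hne hne'
        rw [hs, ht, hu, hv] at h3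
        exact h3
      · refine ⟨fun _ => 0, inF_zero hPOL, fun C D _ hD _ => ?_⟩
        symm
        apply coh_eq_zero_right
        intro h
        exact h2 (hD.adj_of_mem h)
    · refine ⟨fun _ => 0, inF_zero hPOL, fun C D _ hD _ => ?_⟩
      symm
      apply coh_eq_zero_left
      intro h
      exact h1 (hD.adj_of_mem h)
  choose ψ hψ hψ' using key
  refine ⟨fun C => p (prj a b (chi C)) + ∑ s, ∑ t, ∑ u, ∑ v, l s t u v * ψ s t u v C, ?_, ?_⟩
  · apply inF_add hPOL
    · exact inF_poly (p := fun c => p (prjH a b c)) (hPOL.comp (prjH a b) hp) (by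
        show p (prjH a b 0) = 0
        rw [map_zero]
        exact h0)
    · apply inF_sum hPOL univ
      intro s _
      apply inF_sum hPOL univ
      intro t _
      apply inF_sum hPOL univ
      intro u _
      apply inF_sum hPOL univ
      intro v _
      exact inF_smul hPOL _ (hψ s t u v)
  · intro C D hC hD hchi
    rw [hl D hD]
    have h3 : prj a b (chi C) = chi D := by
      rw [hchi]
      exact CTAM.pl hab' hN' (chi D) (by rw [hc']; exact hD.chi_mem)
    show p (prj a b (chi C)) + ∑ s, ∑ t, ∑ u, ∑ v, l s t u v * ψ s t u v C = _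
    rw [h3]
    congr 1
    refine sum_congr rfl fun s _ => sum_congr rfl fun t _ => sum_congr rfl fun u _ =>
      sum_congr rfl fun v _ => ?_
    rw [hψ' s t u v C D hC hD hchi]

end CTFM

theorem specCTF (hPOL : SpecPOL) (hCTB : SpecCTB) (hSEF : SpecSEF) (hVRW : SpecVRW) : SpecCTF where
  down := fun hab hN φ φ' hφ h => CTFM.down hCTB hVRW hPOL hab hN φ φ' hφ h
  up := fun hab K φ' hφ => CTFM.up hCTB hSEF hPOL hab K φ' hφ

end DL
end

section
/-!
MP_3ff0f8_gt, ALGEBRA HALF, module CTZ: two-cycles and contraction.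
-/
open SimpleGraph Finset

namespace DL.CTZM

variable {α : Type} [Fintype α] [DecidableEq α]

/-- the rows of a 2-cycle are cycles -/
theorem row {G : SimpleGraph α} {z : Sym2 α → Sym2 α → ZMod 2} (hz : IsZ2 G z) (e : Sym2 α) :
    z e ∈ Z1 G := by
  refine ⟨fun f hf => (hz.2.1 e f hf).2.1, fun v => ?_⟩
  by_cases hv : v ∈ e
  · unfold bdy
    refine Finset.sum_eq_zero fun f hf => ?_
    by_contra hne
    exact (hz.2.1 e f hne).2.2 v ⟨hv, (mem_filter.1 hf).2⟩
  · exact hz.2.2 e v hv

/-- from cycles as rows to 2-cycles -/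
theorem mk {G : SimpleGraph α} {z : Sym2 α → Sym2 α → ZMod 2} (hs : ∀ e f, z e f = z f e)
    (hr : ∀ e, z e ∈ Z1 G) (hd : ∀ e f, z e f ≠ 0 → Dj e f) : IsZ2 G z := by
  refine ⟨hs, fun e f h => ⟨?_, (hr e).1 f h, hd e f h⟩, fun e v _ => (hr e).2 v⟩
  rw [hs e f] at h
  exact (hr f).1 e h

/-- the edges of `G` different from `ab` are mapped to edges of `contr G a b` -/
theorem map_mem {G : SimpleGraph α} {a b : α} (hab : G.Adj a b) {e : Sym2 α} (he : e ∈ G.edgeSet)
    (hne : e ≠ s(a, b)) : e.map (mrg a b) ∈ (contr G a b).edgeSet := by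
  induction e using Sym2.ind with
  | _ u v =>
    have huv : G.Adj u v := he
    have h1 := huv.ne
    have hab' := hab.ne
    rw [Sym2.map_mk, SimpleGraph.mem_edgeSet]
    show mrg a b u ≠ b ∧ mrg a b v ≠ b ∧ mrg a b u ≠ mrg a b v ∧ _
    unfold mrg
    by_cases hu : u = b
    · subst hu
      have hv : v ≠ u := h1.symm
      have hva : v ≠ a := by
        rintro rfl
        exact hne Sym2.eq_swap
      rw [if_pos rfl, if_neg hv]
      exact ⟨hab', hv, hva.symm, Or.inr (Or.inl ⟨rfl, huv⟩)⟩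
    · by_cases hv : v = b
      · subst hv
        have hua : u ≠ a := by
          rintro rfl
          exact hne rfl
        rw [if_pos rfl, if_neg hu]
        exact ⟨hu, hab', hua, Or.inr (Or.inr ⟨rfl, huv⟩)⟩
      · rw [if_neg hu, if_neg hv]
        exact ⟨hu, hv, h1, Or.inl huv⟩

/-- the map is injective on these edges if `a`, `b` have no common neighbour -/
theorem map_inj {G : SimpleGraph α} {a b : α} (hN : NoCN G a b) {e f : Sym2 α}
    (he : e ∈ G.edgeSet) (hf : f ∈ G.edgeSet) (hne : e ≠ s(a, b)) (hnf : f ≠ s(a, b))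
    (h : e.map (mrg a b) = f.map (mrg a b)) : e = f := by
  induction e using Sym2.ind with
  | _ u v =>
    induction f using Sym2.ind with
    | _ x y =>
      have huv : G.Adj u v := he
      have hxy : G.Adj x y := hf
      rw [Sym2.map_mk, Sym2.map_mk, Sym2.eq_iff] at h
      -- the common argument
      have key : ∀ u v x y : α, G.Adj u v → G.Adj x y → s(u, v) ≠ s(a, b) → s(x, y) ≠ s(a, b) →
          mrg a b u = mrg a b x → mrg a b v = mrg a b y → s(u, v) = s(x, y) := by
        intro u v x y huv hxy hne hnf h1 h2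
        have c1 : u = x ∨ (u = a ∧ x = b) ∨ (u = b ∧ x = a) := by
          unfold mrg at h1
          by_cases hu : u = b
          · by_cases hx : x = b
            · exact Or.inl (hu.trans hx.symm)
            · rw [if_pos hu, if_neg hx] at h1
              exact Or.inr (Or.inr ⟨hu, h1.symm⟩)
          · by_cases hx : x = b
            · rw [if_neg hu, if_pos hx] at h1
              exact Or.inr (Or.inl ⟨h1, hx⟩)
            · rw [if_neg hu, if_neg hx] at h1
              exact Or.inl h1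
        have c2 : v = y ∨ (v = a ∧ y = b) ∨ (v = b ∧ y = a) := by
          unfold mrg at h2
          by_cases hu : v = b
          · by_cases hx : y = b
            · exact Or.inl (hu.trans hx.symm)
            · rw [if_pos hu, if_neg hx] at h2
              exact Or.inr (Or.inr ⟨hu, h2.symm⟩)
          · by_cases hx : y = b
            · rw [if_neg hu, if_pos hx] at h2
              exact Or.inr (Or.inl ⟨h2, hx⟩)
            · rw [if_neg hu, if_neg hx] at h2
              exact Or.inl h2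
        rcases c1 with rfl | ⟨rfl, rfl⟩ | ⟨rfl, rfl⟩
        · rcases c2 with rfl | ⟨rfl, rfl⟩ | ⟨rfl, rfl⟩
          · rfl
          · exact absurd ⟨huv.symm, hxy.symm⟩ (hN u)
          · exact absurd ⟨hxy.symm, huv.symm⟩ (hN u)
        · rcases c2 with rfl | ⟨rfl, rfl⟩ | ⟨rfl, rfl⟩
          · exact absurd ⟨huv, hxy⟩ (hN v)
          · exact absurd rfl huv.ne
          · exact absurd rfl hne
        · rcases c2 with rfl | ⟨rfl, rfl⟩ | ⟨rfl, rfl⟩
          · exact absurd ⟨hxy, huv⟩ (hN v)
          · exact absurd Sym2.eq_swap hne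
          · exact absurd rfl huv.ne
      rcases h with ⟨h1, h2⟩ | ⟨h1, h2⟩
      · exact key u v x y huv hxy hne hnf h1 h2
      · rw [show s(x, y) = s(y, x) from Sym2.eq_swap] at hnf ⊢
        exact key u v y x huv hxy.symm hne hnf h1 h2

/-- the lifts -/
theorem lft_ab (G : SimpleGraph α) (a b : α) (c : Chain α) [DecidablePred fun x => G.Adj a x ∧ x ≠ b] :
    lft G a b c s(a, b) = ∑ x, if G.Adj a x ∧ x ≠ b then c s(a, x) else 0 := by
  unfold lft
  rw [if_pos rfl]
  refine Finset.sum_congr rfl fun x _ => ?_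
  split_ifs <;> rfl

theorem lft_ne {G : SimpleGraph α} {a b : α} (c : Chain α) {e : Sym2 α} (hne : e ≠ s(a, b))
    (he : e ∈ G.edgeSet) : lft G a b c e = c (e.map (mrg a b)) := by
  unfold lft
  rw [if_neg hne, if_pos he]

theorem lft_out {G : SimpleGraph α} {a b : α} (c : Chain α) {e : Sym2 α} (hne : e ≠ s(a, b))
    (he : e ∉ G.edgeSet) : lft G a b c e = 0 := by
  unfold lft
  rw [if_neg hne, if_neg he]

/-- a common vertex stays a common vertex -/
theorem dj_of_map {a b : α} {e f : Sym2 α} (h : Dj (e.map (mrg a b)) (f.map (mrg a b))) : Dj e f :=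
  fun v hv => h (mrg a b v) ⟨Sym2.mem_map.2 ⟨v, hv.1, rfl⟩, Sym2.mem_map.2 ⟨v, hv.2, rfl⟩⟩

end DL.CTZM

namespace DL

open CTZM

theorem specCTZ (hCTA : SpecCTA) : SpecCTZ := by
  classical
  refine ⟨?_, ?_⟩
  · intro α _ _ G a b hab hN w hw
    set ρ : Sym2 α → Chain α := fun e h => lft G a b (fun g => w g h) e with hρ
    -- the rows
    have hρ1 : ρ s(a, b) = ∑ x, if G.Adj a x ∧ x ≠ b then w s(a, x) else 0 := by
      funext h
      simp only [hρ]
      rw [lft_ab, Finset.sum_apply]
      refine Finset.sum_congr rfl fun x _ => ?_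
      split_ifs <;> rfl
    have hρ2 : ∀ e, e ≠ s(a, b) → e ∈ G.edgeSet → ρ e = w (e.map (mrg a b)) := by
      intro e h1 h2
      funext h
      exact lft_ne _ h1 h2
    have hρ3 : ∀ e, e ≠ s(a, b) → e ∉ G.edgeSet → ρ e = 0 := by
      intro e h1 h2
      funext h
      exact lft_out _ h1 h2
    have hρZ : ∀ e, ρ e ∈ Z1 (contr G a b) := by
      intro e
      by_cases h1 : e = s(a, b)
      · rw [h1, hρ1]
        refine Submodule.sum_mem _ fun x _ => ?_
        split_ifs
        · exact row hw _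
        · exact Submodule.zero_mem _
      · by_cases h2 : e ∈ G.edgeSet
        · rw [hρ2 e h1 h2]; exact row hw _
        · rw [hρ3 e h1 h2]; exact Submodule.zero_mem _
    set z : Sym2 α → Sym2 α → ZMod 2 := fun e f => lft G a b (ρ e) f with hzdef
    have hzZ : ∀ e, z e ∈ Z1 G := fun e => hCTA.lz hab hN _ (hρZ e)
    -- values
    have v11 : z s(a, b) s(a, b) = ∑ y, ∑ x, if G.Adj a x ∧ x ≠ b ∧ (G.Adj a y ∧ y ≠ b) then
        w s(a, x) s(a, y) else 0 := by
      simp only [hzdef]
      rw [lft_ab]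
      refine Finset.sum_congr rfl fun y _ => ?_
      split_ifs with hy
      · rw [hρ1, Finset.sum_apply]
        refine Finset.sum_congr rfl fun x _ => ?_
        by_cases hx : G.Adj a x ∧ x ≠ b
        · rw [if_pos hx, if_pos ⟨hx.1, hx.2, hy⟩]
        · rw [if_neg hx, if_neg fun h => hx ⟨h.1, h.2.1⟩]; rfl
      · symm
        exact Finset.sum_eq_zero fun x _ => if_neg fun h => hy h.2.2
    have v12 : ∀ f, f ≠ s(a, b) → f ∈ G.edgeSet → z s(a, b) f =
        ∑ x, if G.Adj a x ∧ x ≠ b then w s(a, x) (f.map (mrg a b)) else 0 := by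
      intro f h1 h2
      simp only [hzdef]
      rw [lft_ne _ h1 h2, hρ1, Finset.sum_apply]
      refine Finset.sum_congr rfl fun x _ => ?_
      split_ifs <;> rfl
    have v21 : ∀ f, f ≠ s(a, b) → f ∈ G.edgeSet → z f s(a, b) =
        ∑ x, if G.Adj a x ∧ x ≠ b then w (f.map (mrg a b)) s(a, x) else 0 := by
      intro f h1 h2
      simp only [hzdef]
      rw [lft_ab, hρ2 f h1 h2]
    have v22 : ∀ e f, e ≠ s(a, b) → e ∈ G.edgeSet → f ≠ s(a, b) → f ∈ G.edgeSet →
        z e f = w (e.map (mrg a b)) (f.map (mrg a b)) := by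
      intro e f h1 h2 h3 h4
      simp only [hzdef]
      rw [lft_ne _ h3 h4, hρ2 e h1 h2]
    have o1 : ∀ e f, e ∉ G.edgeSet → z e f = 0 := by
      intro e f h
      have h1 : e ≠ s(a, b) := by rintro rfl; exact h hab
      simp only [hzdef]
      rw [hρ3 e h1 h]
      by_cases h2 : f = s(a, b)
      · rw [h2, lft_ab]; simp
      · by_cases h3 : f ∈ G.edgeSet
        · rw [lft_ne _ h2 h3]; rfl
        · rw [lft_out _ h2 h3]
    have o2 : ∀ e f, f ∉ G.edgeSet → z e f = 0 := by
      intro e f h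
      by_contra hne
      exact h ((hzZ e).1 f hne)
    have hsym : ∀ e f, z e f = z f e := by
      intro e f
      by_cases he : e ∈ G.edgeSet
      · by_cases hf : f ∈ G.edgeSet
        · by_cases h1 : e = s(a, b)
          · by_cases h2 : f = s(a, b)
            · rw [h1, h2]
            · rw [h1, v12 f h2 hf, v21 f h2 hf]
              refine Finset.sum_congr rfl fun x _ => ?_
              rw [hw.1]
          · by_cases h2 : f = s(a, b)
            · rw [h2, v12 e h1 he, v21 e h1 he]
              refine Finset.sum_congr rfl fun x _ => ?_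
              rw [hw.1]
            · rw [v22 e f h1 he h2 hf, v22 f e h2 hf h1 he, hw.1]
        · rw [o2 e f hf, o1 f e hf]
      · rw [o1 e f he, o2 f e he]
    have hdj : ∀ e f, z e f ≠ 0 → Dj e f := by
      -- one of the edges is `ab`
      have hA : ∀ f, f ≠ s(a, b) → f ∈ G.edgeSet → z s(a, b) f ≠ 0 → Dj s(a, b) f := by
        intro f h1 h2 h3
        rw [v12 f h1 h2] at h3
        obtain ⟨x, -, hx⟩ := Finset.exists_ne_zero_of_sum_ne_zero h3
        have hx' : w s(a, x) (f.map (mrg a b)) ≠ 0 := by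
          split_ifs at hx with hc
          · exact hx
          · exact absurd rfl hx
        have h4 := (hw.2.1 _ _ hx').2.2
        rintro v ⟨hv1, hv2⟩
        apply h4 a
        refine ⟨Sym2.mem_mk_left _ _, Sym2.mem_map.2 ⟨v, hv2, ?_⟩⟩
        rw [Sym2.mem_iff] at hv1
        unfold mrg
        rcases hv1 with rfl | rfl
        · split_ifs <;> rfl
        · rw [if_pos rfl]
      intro e f h
      have hf : f ∈ G.edgeSet := (hzZ e).1 f h
      have he : e ∈ G.edgeSet := by
        by_contra he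
        exact h (o1 e f he)
      by_cases h1 : e = s(a, b)
      · by_cases h2 : f = s(a, b)
        · exfalso
          rw [h1, h2, v11] at h
          apply h
          refine Finset.sum_eq_zero fun y _ => Finset.sum_eq_zero fun x _ => ?_
          split_ifs with hc
          · by_contra hne
            exact (hw.2.1 _ _ hne).2.2 a ⟨Sym2.mem_mk_left _ _, Sym2.mem_mk_left _ _⟩
          · rfl
        · rw [h1] at h ⊢
          exact hA f h2 hf h
      · by_cases h2 : f = s(a, b)
        · rw [hsym, h2] at h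
          rw [h2]
          intro v hv
          exact hA e h1 he h v ⟨hv.2, hv.1⟩
        · rw [v22 e f h1 he h2 hf] at h
          exact dj_of_map (hw.2.1 _ _ h).2.2
    exact ⟨z, mk hsym hzZ hdj, fun e he f hf h1 h2 => v22 e f h1 he h2 hf⟩
  · intro α _ _ G a b hab hN z hz h0
    set σ : Sym2 α → Chain α := fun e h => prj a b (fun g => z g h) e with hσ
    have hσ1 : ∀ e, (b ∈ e ∨ e.IsDiag) → σ e = 0 := by
      intro e he
      funext h
      simp only [hσ, prj]
      rw [if_pos he]; rfl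
    have hσ2 : ∀ e, ¬ (b ∈ e ∨ e.IsDiag) →
        σ e = ∑ g ∈ univ.filter (fun g => g ≠ s(a, b) ∧ g.map (mrg a b) = e), z g := by
      intro e he
      funext h
      rw [Finset.sum_apply]
      simp only [hσ, prj]
      rw [if_neg he]
    have hσZ : ∀ e, σ e ∈ Z1 G := by
      intro e
      by_cases he : b ∈ e ∨ e.IsDiag
      · rw [hσ1 e he]; exact Submodule.zero_mem _
      · rw [hσ2 e he]
        exact Submodule.sum_mem _ fun g _ => row hz g
    set w : Sym2 α → Sym2 α → ZMod 2 := fun e f => prj a b (σ e) f with hwdef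
    have hwZ : ∀ e, w e ∈ Z1 (contr G a b) := fun e => hCTA.pz hab _ (hσZ e)
    -- values
    have val : ∀ e f, ¬ (b ∈ e ∨ e.IsDiag) → ¬ (b ∈ f ∨ f.IsDiag) → w e f =
        ∑ h ∈ univ.filter (fun g => g ≠ s(a, b) ∧ g.map (mrg a b) = f),
          ∑ g ∈ univ.filter (fun g => g ≠ s(a, b) ∧ g.map (mrg a b) = e), z g h := by
      intro e f he hf
      simp only [hwdef]
      rw [prj, if_neg hf]
      refine Finset.sum_congr rfl fun h _ => ?_
      rw [hσ2 e he, Finset.sum_apply]
    have o1 : ∀ e f, (b ∈ e ∨ e.IsDiag) → w e f = 0 := by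
      intro e f he
      simp only [hwdef]
      rw [hσ1 e he, prj]
      split_ifs
      · rfl
      · exact Finset.sum_eq_zero fun _ _ => rfl
    have o2 : ∀ e f, (b ∈ f ∨ f.IsDiag) → w e f = 0 := by
      intro e f hf
      simp only [hwdef]
      rw [prj, if_pos hf]
    have hsym : ∀ e f, w e f = w f e := by
      intro e f
      by_cases he : b ∈ e ∨ e.IsDiag
      · rw [o1 e f he, o2 f e he]
      · by_cases hf : b ∈ f ∨ f.IsDiag
        · rw [o2 e f hf, o1 f e hf]
        · rw [val e f he hf, val f e hf he, Finset.sum_comm]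
          refine Finset.sum_congr rfl fun g _ => Finset.sum_congr rfl fun h _ => ?_
          rw [hz.1]
    have hdj : ∀ e f, w e f ≠ 0 → Dj e f := by
      intro e f h
      have he : ¬ (b ∈ e ∨ e.IsDiag) := fun he => h (o1 e f he)
      have hf : ¬ (b ∈ f ∨ f.IsDiag) := fun hf => h (o2 e f hf)
      rw [val e f he hf] at h
      obtain ⟨g', hg', h'⟩ := Finset.exists_ne_zero_of_sum_ne_zero h
      obtain ⟨g, hg, hgg⟩ := Finset.exists_ne_zero_of_sum_ne_zero h'
      obtain ⟨-, hg'1, hg'2⟩ := Finset.mem_filter.1 hg'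
      obtain ⟨-, hg1, hg2⟩ := Finset.mem_filter.1 hg
      have hD := (hz.2.1 g g' hgg).2.2
      rintro v ⟨hv1, hv2⟩
      rw [← hg2] at hv1
      rw [← hg'2] at hv2
      obtain ⟨u, hu, hum⟩ := Sym2.mem_map.1 hv1
      obtain ⟨u', hu', hum'⟩ := Sym2.mem_map.1 hv2
      have hne : u ≠ u' := by
        rintro rfl
        exact hD u ⟨hu, hu'⟩
      have h5 : mrg a b u = mrg a b u' := hum.trans hum'.symm
      unfold mrg at h5
      by_cases h6 : u = b
      · by_cases h7 : u' = b
        · exact hne (h6.trans h7.symm)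
        · rw [if_pos h6, if_neg h7] at h5
          apply hgg
          rw [hz.1]
          exact h0 g' g (h5 ▸ hu') (h6 ▸ hu) hg'1 hg1
      · by_cases h7 : u' = b
        · rw [if_neg h6, if_pos h7] at h5
          apply hgg
          exact h0 g g' (h5 ▸ hu) (h7 ▸ hu') hg1 hg'1
        · rw [if_neg h6, if_neg h7] at h5
          exact hne h5
    refine ⟨w, mk hsym hwZ hdj, ?_⟩
    intro e he f hf h1 h2
    have nb : ∀ e ∈ (contr G a b).edgeSet, ¬ (b ∈ e ∨ e.IsDiag) := by
      intro e he
      rintro (h | h)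
      · induction e using Sym2.ind with
        | _ u v =>
          have := he
          rw [SimpleGraph.mem_edgeSet] at this
          rw [Sym2.mem_iff] at h
          rcases h with h | h
          · exact this.1 h.symm
          · exact this.2.1 h.symm
      · exact (contr G a b).not_isDiag_of_mem_edgeSet he h
    have me := map_mem hab he h1
    have mf := map_mem hab hf h2
    rw [val _ _ (nb _ me) (nb _ mf)]
    have sing : ∀ (e : Sym2 α) (he : e ∈ G.edgeSet) (h1 : e ≠ s(a, b)) (φ : Sym2 α → ZMod 2),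
        (∀ g, φ g ≠ 0 → g ∈ G.edgeSet) →
        ∑ g ∈ univ.filter (fun g => g ≠ s(a, b) ∧ g.map (mrg a b) = e.map (mrg a b)), φ g = φ e := by
      intro e he h1 φ hφ
      refine Finset.sum_eq_single_of_mem e (Finset.mem_filter.2 ⟨mem_univ _, h1, rfl⟩) ?_
      intro g hg hge
      by_contra hne
      obtain ⟨-, hg1, hg2⟩ := Finset.mem_filter.1 hg
      exact hge (map_inj hN (hφ g hne) he hg1 h1 hg2)
    rw [sing f hf h2 _ ?_]
    · rw [sing e he h1 (fun g => z g f) fun g hg => (hz.2.1 g f hg).1]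
    · intro h hh
      obtain ⟨g, -, hg⟩ := Finset.exists_ne_zero_of_sum_ne_zero hh
      exact (hz.2.1 g h hg).2.1

end DL
end

section
/-!
MP_3ff0f8_gt, ALGEBRA HALF, module DCB (helper67): the 16 cycles of a `D_4` minor and the four paths of a
2-bead chain.
-/
open SimpleGraph Finset

namespace DL

namespace DCBM

variable {α : Type} [Fintype α] [DecidableEq α] {G : SimpleGraph α}

/-- a path of `G` inside the vertex set `A` -/
structure InP (G : SimpleGraph α) (A : Finset α) (s t : α) (P : Finset (Sym2 α)) : Prop where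
  pth : IsPth G s t P
  left : s ∈ A
  right : t ∈ A
  sub : vs P ⊆ A

theorem step {A B : Finset α} {s p q r : α} {P Q : Finset (Sym2 α)} (hP : InP G A s p P)
    (hQ : InP G B q r Q) (hAB : Disjoint A B) (hpq : G.Adj p q) :
    InP G (A ∪ B) s r (P ∪ {s(p, q)} ∪ Q) ∧
      chi (P ∪ {s(p, q)} ∪ Q) = chi P + chi {s(p, q)} + chi Q := by
  have hA : ∀ x ∈ A, x ∉ B := fun x hx hx' => Finset.disjoint_left.1 hAB hx hx'
  have h1 : IsPth G p r (insert s(p, q) Q) :=
    hQ.pth.cons hpq fun h => hA _ hP.right (hQ.sub h)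
  have h2 : IsPth G s r (P ∪ insert s(p, q) Q) := by
    refine hP.pth.append h1 fun x hx => ?_
    rw [mem_inter, vs_insert, mem_union, mem_insert, mem_singleton] at hx
    obtain ⟨hx1, (rfl | rfl) | hx2⟩ := hx
    · simp
    · exact absurd hQ.left (hA _ (hP.sub hx1))
    · exact absurd (hQ.sub hx2) (hA _ (hP.sub hx1))
  have h3 : P ∪ insert s(p, q) Q = P ∪ {s(p, q)} ∪ Q := by
    rw [insert_eq, union_assoc]
  rw [h3] at h2
  refine ⟨⟨h2, mem_union_left _ hP.left, mem_union_right _ hQ.right, ?_⟩, ?_⟩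
  · intro x hx
    rw [mem_vs_union, mem_vs_union, vs_singleton, mem_insert, mem_singleton] at hx
    rw [mem_union]
    rcases hx with (hx | rfl | rfl) | hx
    · exact Or.inl (hP.sub hx)
    · exact Or.inl hP.right
    · exact Or.inr hQ.left
    · exact Or.inr (hQ.sub hx)
  · rw [chi_union, chi_union]
    · rw [Finset.disjoint_singleton_right]
      intro h
      exact hA _ (hP.sub (right_mem_vs h)) hQ.left
    · rw [Finset.disjoint_left]
      intro e he he'
      rw [mem_union, mem_singleton] at he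
      rcases he with he | rfl
      · induction e using Sym2.ind with
        | _ x y => exact hA _ (hP.sub (left_mem_vs he)) (hQ.sub (left_mem_vs he'))
      · exact hA _ hP.right (hQ.sub (left_mem_vs he'))

theorem vs_tree {T : SimpleGraph α} {X : Finset α} (hT : TreeOn T X) {s t : α}
    {P : Finset (Sym2 α)} (h : IsPth T s t P) : vs P ⊆ X := by
  intro x hx
  rw [mem_vs] at hx
  obtain ⟨e, he, hxe⟩ := hx
  have := h.subset e he
  induction e using Sym2.ind with
  | _ a b =>
    rw [mem_edgeSet] at this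
    rw [Sym2.mem_iff] at hxe
    rcases hxe with rfl | rfl
    · exact hT.inX _ _ this
    · exact hT.inX _ _ this.symm

theorem inP (hTRE : SpecTRE) {T : SimpleGraph α} {X : Finset α} (hT : TreeOn T X) (hle : T ≤ G)
    {v w : α} (hv : v ∈ X) (hw : w ∈ X) : InP G X v w (tp T v w) :=
  ⟨(hTRE.tp hT v hv w hw).1.mono hle, hv, hw, vs_tree hT (hTRE.tp hT v hv w hw).1⟩

theorem tp_self (hTRE : SpecTRE) {T : SimpleGraph α} {X : Finset α} (hT : TreeOn T X)
    {v : α} (hv : v ∈ X) : tp T v v = ∅ :=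
  (hTRE.tp hT v hv v hv).1.eq_empty

theorem chi_comm (hTRE : SpecTRE) {T : SimpleGraph α} {X : Finset α} (hT : TreeOn T X)
    {v w : α} (hv : v ∈ X) (hw : w ∈ X) : chi (tp T v w) = chi (tp T w v) := by
  have := hTRE.four hT v hv w hw v hv
  rwa [tp_self hTRE hT hv, chi_empty, add_zero] at this

/-- the sum of two tree paths with a common last vertex -/
theorem four' (hTRE : SpecTRE) {T : SimpleGraph α} {X : Finset α} (hT : TreeOn T X)
    {v w u : α} (hv : v ∈ X) (hw : w ∈ X) (hu : u ∈ X) :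
    chi (tp T w v) + chi (tp T u v) = chi (tp T w u) := by
  rw [chi_comm hTRE hT hw hv, chi_comm hTRE hT hu hv]
  exact hTRE.four hT v hv w hw u hu

/-- the cycle of a bead -/
theorem bead (hTRE : SpecTRE) {T T' : SimpleGraph α} {X X' : Finset α} (hT : TreeOn T X)
    (hT' : TreeOn T' X') (hle : T ≤ G) (hle' : T' ≤ G) (hd : Disjoint X X') {p p' q q' : α}
    (hp : p ∈ X) (hp' : p' ∈ X) (hq : q ∈ X') (hq' : q' ∈ X') (h : G.Adj p q) (h' : G.Adj p' q')
    (hne : s(p, q) ≠ s(p', q')) :
    ∃ Z, IsCyc G Z ∧ chi Z = chi (tp T p p') + chi {s(p', q')} + chi (tp T' q' q) +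
      chi {s(p, q)} := by
  have hA : ∀ x ∈ X, x ∉ X' := fun x hx hx' => Finset.disjoint_left.1 hd hx hx'
  have h1 := inP hTRE hT hle hp hp'
  have h2 := inP hTRE hT' hle' hq' hq
  obtain ⟨h3, h4⟩ := step h1 h2 hd h'
  have h5 : s(p, q) ∉ tp T p p' ∪ {s(p', q')} ∪ tp T' q' q := by
    rw [mem_union, mem_union, mem_singleton]
    rintro ((h6 | h6) | h6)
    · exact hA _ (h1.sub (right_mem_vs h6)) hq
    · exact hne h6
    · exact hA _ hp (h2.sub (left_mem_vs h6))
  refine ⟨_, h3.pth.isCyc h h5, ?_⟩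
  rw [chi_insert h5, h4, add_comm]

theorem two_sum {M : Type} [AddCommMonoid M] (f : (Fin 2 → Bool) → M) :
    ∑ e : Fin 2 → Bool, f e = f ![false, false] + f ![true, false] + f ![false, true] +
      f ![true, true] := by
  have : (univ : Finset (Fin 2 → Bool)) =
      {![false, false], ![true, false], ![false, true], ![true, true]} := by decide
  rw [this, sum_insert (by decide), sum_insert (by decide), sum_insert (by decide), sum_singleton]
  simp only [add_assoc]

omit [Fintype α] [DecidableEq α] in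
theorem treeD (D : D4M G) (i : Fin 4) : TreeOn (D.T i) (D.X i) := ⟨D.inX i, D.conn i, D.acyc i⟩

omit [Fintype α] [DecidableEq α] in
theorem treeK {s t : α} (K : Ch2 G s t) (i : Fin 3) : TreeOn (K.T i) (K.X i) :=
  ⟨K.inX i, K.conn i, K.acyc i⟩

theorem un4 {β : Type} [DecidableEq β] (E : Fin 4 → β) (P : Fin 4 → Finset β) :
    univ.image E ∪ univ.biUnion P =
      insert (E 0) (P 0 ∪ {E 1} ∪ P 1 ∪ {E 2} ∪ P 2 ∪ {E 3} ∪ P 3) := by
  ext x
  constructor
  · intro h
    rw [mem_union, mem_image, mem_biUnion] at h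
    rcases h with ⟨i, _, rfl⟩ | ⟨i, _, hi⟩
    · fin_cases i <;> simp
    · fin_cases i <;> simp at hi <;> simp [hi]
  · intro h
    rw [mem_union, mem_image, mem_biUnion]
    simp only [mem_insert, mem_union, mem_singleton] at h
    rcases h with rfl | ((((((h | rfl) | h) | rfl) | h) | rfl) | h)
    · exact Or.inl ⟨0, mem_univ _, rfl⟩
    · exact Or.inr ⟨0, mem_univ _, h⟩
    · exact Or.inl ⟨1, mem_univ _, rfl⟩
    · exact Or.inr ⟨1, mem_univ _, h⟩
    · exact Or.inl ⟨2, mem_univ _, rfl⟩
    · exact Or.inr ⟨2, mem_univ _, h⟩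
    · exact Or.inl ⟨3, mem_univ _, rfl⟩
    · exact Or.inr ⟨3, mem_univ _, h⟩

theorem cyc_eq (D : D4M G) (e : Fin 4 → Bool) :
    D.cyc e = insert s(D.p 0 (e 0), D.q 0 (e 0))
      (tp (D.T 1) (D.q 0 (e 0)) (D.p 1 (e 1)) ∪ {s(D.p 1 (e 1), D.q 1 (e 1))} ∪
        tp (D.T 2) (D.q 1 (e 1)) (D.p 2 (e 2)) ∪ {s(D.p 2 (e 2), D.q 2 (e 2))} ∪
        tp (D.T 3) (D.q 2 (e 2)) (D.p 3 (e 3)) ∪ {s(D.p 3 (e 3), D.q 3 (e 3))} ∪
        tp (D.T 0) (D.q 3 (e 3)) (D.p 0 (e 0))) :=
  un4 (fun i => s(D.p i (e i), D.q i (e i)))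
    (fun i => tp (D.T (i + 1)) (D.q i (e i)) (D.p (i + 1) (e (i + 1))))

theorem cyc (hTRE : SpecTRE) (D : D4M G) (e : Fin 4 → Bool) :
    IsCyc G (D.cyc e) ∧ chi (D.cyc e) = ∑ i : Fin 4, (chi {s(D.p i (e i), D.q i (e i))} +
      chi (tp (D.T (i + 1)) (D.q i (e i)) (D.p (i + 1) (e (i + 1))))) := by
  have e0 : (0 : Fin 4) + 1 = 1 := rfl
  have e1 : (1 : Fin 4) + 1 = 2 := rfl
  have e2 : (2 : Fin 4) + 1 = 3 := rfl
  have e3 : (3 : Fin 4) + 1 = 0 := rfl
  have q0 : D.q 0 (e 0) ∈ D.X 1 := D.qX 0 _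
  have q1 : D.q 1 (e 1) ∈ D.X 2 := D.qX 1 _
  have q2 : D.q 2 (e 2) ∈ D.X 3 := D.qX 2 _
  have q3 : D.q 3 (e 3) ∈ D.X 0 := D.qX 3 _
  have a1 := inP hTRE (treeD D 1) (D.sub 1) q0 (D.pX 1 (e 1))
  have a2 := inP hTRE (treeD D 2) (D.sub 2) q1 (D.pX 2 (e 2))
  have a3 := inP hTRE (treeD D 3) (D.sub 3) q2 (D.pX 3 (e 3))
  have a0 := inP hTRE (treeD D 0) (D.sub 0) q3 (D.pX 0 (e 0))
  obtain ⟨b1, c1⟩ := step a1 a2 (D.disj 1 2 (by decide)) (D.adj 1 (e 1))
  obtain ⟨b2, c2⟩ := step b1 a3 (by
    rw [disjoint_union_left]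
    exact ⟨D.disj 1 3 (by decide), D.disj 2 3 (by decide)⟩) (D.adj 2 (e 2))
  obtain ⟨b3, c3⟩ := step b2 a0 (by
    rw [disjoint_union_left, disjoint_union_left]
    exact ⟨⟨D.disj 1 0 (by decide), D.disj 2 0 (by decide)⟩, D.disj 3 0 (by decide)⟩)
    (D.adj 3 (e 3))
  have hn : s(D.p 0 (e 0), D.q 0 (e 0)) ∉
      (tp (D.T 1) (D.q 0 (e 0)) (D.p 1 (e 1)) ∪ {s(D.p 1 (e 1), D.q 1 (e 1))} ∪
        tp (D.T 2) (D.q 1 (e 1)) (D.p 2 (e 2)) ∪ {s(D.p 2 (e 2), D.q 2 (e 2))} ∪
        tp (D.T 3) (D.q 2 (e 2)) (D.p 3 (e 3)) ∪ {s(D.p 3 (e 3), D.q 3 (e 3))} ∪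
        tp (D.T 0) (D.q 3 (e 3)) (D.p 0 (e 0))) := by
    intro h
    have h1 := b3.pth.symm.eq_singleton h
    have h2 : s(D.p 1 (e 1), D.q 1 (e 1)) ∈ ({s(D.p 0 (e 0), D.q 0 (e 0))} : Finset (Sym2 α)) := by
      rw [← h1]
      simp only [mem_union, mem_singleton, true_or, or_true]
    rw [mem_singleton, Sym2.eq_iff] at h2
    rcases h2 with ⟨_, h2⟩ | ⟨_, h2⟩
    · exact Finset.disjoint_left.1 (D.disj 2 1 (by decide)) q1 (h2 ▸ q0)
    · exact Finset.disjoint_left.1 (D.disj 2 0 (by decide)) q1 (h2 ▸ D.pX 0 (e 0))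
  rw [cyc_eq D e]
  refine ⟨b3.pth.symm.isCyc (D.adj 0 (e 0)) hn, ?_⟩
  rw [chi_insert hn, c3, c2, c1, Fin.sum_univ_four, e0, e1, e2, e3]
  abel

theorem pth (hTRE : SpecTRE) {s t : α} (K : Ch2 G s t) (e : Fin 2 → Bool) :
    IsPth G s t (K.pth e) ∧ (∀ v ∈ vs (K.pth e), ∃ i, v ∈ K.X i) ∧
    chi (K.pth e) = chi (tp (K.T 0) s (K.p 0 (e 0))) + chi {s(K.p 0 (e 0), K.q 0 (e 0))} +
      chi (tp (K.T 1) (K.q 0 (e 0)) (K.p 1 (e 1))) + chi {s(K.p 1 (e 1), K.q 1 (e 1))} +
      chi (tp (K.T 2) (K.q 1 (e 1)) t) := by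
  have p0 : K.p 0 (e 0) ∈ K.X 0 := K.pX 0 _
  have q0 : K.q 0 (e 0) ∈ K.X 1 := K.qX 0 _
  have p1 : K.p 1 (e 1) ∈ K.X 1 := K.pX 1 _
  have q1 : K.q 1 (e 1) ∈ K.X 2 := K.qX 1 _
  have a0 := inP hTRE (treeK K 0) (K.sub 0) K.sX p0
  have a1 := inP hTRE (treeK K 1) (K.sub 1) q0 p1
  have a2 := inP hTRE (treeK K 2) (K.sub 2) q1 K.tX
  obtain ⟨b1, c1⟩ := step a0 a1 (K.disj 0 1 (by decide)) (K.adj 0 (e 0))
  obtain ⟨b2, c2⟩ := step b1 a2 (by
    rw [disjoint_union_left]
    exact ⟨K.disj 0 2 (by decide), K.disj 1 2 (by decide)⟩) (K.adj 1 (e 1))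
  refine ⟨b2.pth, fun v hv => ?_, ?_⟩
  · have := b2.sub hv
    rw [mem_union, mem_union] at this
    rcases this with (h | h) | h
    exacts [⟨0, h⟩, ⟨1, h⟩, ⟨2, h⟩]
  · rw [Ch2.pth, c2, c1]

theorem four (hTRE : SpecTRE) {s t : α} (K : Ch2 G s t) :
    ∑ e : Fin 2 → Bool, chi (K.pth e) = 0 := by
  have q0 : ∀ b, K.q 0 b ∈ K.X 1 := K.qX 0
  have p1 : ∀ b, K.p 1 b ∈ K.X 1 := K.pX 1
  have h1 := hTRE.four (treeK K 1) _ (q0 false) _ (p1 false) _ (p1 true)
  have h2 := hTRE.four (treeK K 1) _ (q0 true) _ (p1 false) _ (p1 true)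
  have h3 := h1.trans h2.symm
  rw [two_sum, (pth hTRE K _).2.2, (pth hTRE K _).2.2, (pth hTRE K _).2.2, (pth hTRE K _).2.2]
  simp only [Matrix.cons_val_zero, Matrix.cons_val_one]
  have key : ∀ a a' b b' c c' c'' c''' d d' f f' : Chain α, c + c' = c'' + c''' →
      a + b + c + d + f + (a' + b' + c'' + d + f) + (a + b + c' + d' + f') +
        (a' + b' + c''' + d' + f') = 0 := by
    intro a a' b b' c c' c'' c''' d d' f f' h
    have : a + b + c + d + f + (a' + b' + c'' + d + f) + (a + b + c' + d' + f') +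
        (a' + b' + c''' + d' + f') = (a + a) + (a' + a') + (b + b) + (b' + b') +
        ((c + c') + (c'' + c''')) + (d + d) + (f + f) + (d' + d') + (f' + f') := by abel
    rw [this, h]
    simp only [chain_add_self, add_zero]
  exact key _ _ _ _ _ _ _ _ _ _ _ _ h3

theorem bead_one (hTRE : SpecTRE) {s t : α} (K : Ch2 G s t) (b : Bool) :
    ∃ Z, IsCyc G Z ∧ chi (K.pth ![false, b]) + chi (K.pth ![true, b]) = chi Z := by
  have p0 : ∀ b, K.p 0 b ∈ K.X 0 := K.pX 0
  have q0 : ∀ b, K.q 0 b ∈ K.X 1 := K.qX 0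
  have p1 : ∀ b, K.p 1 b ∈ K.X 1 := K.pX 1
  obtain ⟨Z, hZ, hZ'⟩ := bead hTRE (treeK K 0) (treeK K 1) (K.sub 0) (K.sub 1)
    (K.disj 0 1 (by decide)) (p0 false) (p0 true) (q0 false) (q0 true) (K.adj 0 false)
    (K.adj 0 true) (K.ne 0)
  refine ⟨Z, hZ, ?_⟩
  have h1 := hTRE.four (treeK K 0) _ K.sX _ (p0 false) _ (p0 true)
  have h2 := four' hTRE (treeK K 1) (p1 b) (q0 true) (q0 false)
  rw [hZ', (pth hTRE K _).2.2, (pth hTRE K _).2.2, ← h1, ← h2]
  simp only [Matrix.cons_val_zero, Matrix.cons_val_one]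
  have key : ∀ a a' b b' c c' d f : Chain α,
      a + b + c + d + f + (a' + b' + c' + d + f) = a + a' + b' + (c' + c) + b := by
    intro a a' b b' c c' d f
    have : a + b + c + d + f + (a' + b' + c' + d + f) =
        (a + a' + b' + (c' + c) + b) + (d + d) + (f + f) := by abel
    rw [this]
    simp only [chain_add_self, add_zero]
  exact key _ _ _ _ _ _ _ _

theorem bead_two (hTRE : SpecTRE) {s t : α} (K : Ch2 G s t) (b : Bool) :
    ∃ Z, IsCyc G Z ∧ chi (K.pth ![b, false]) + chi (K.pth ![b, true]) = chi Z := by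
  have q0 : ∀ b, K.q 0 b ∈ K.X 1 := K.qX 0
  have p1 : ∀ b, K.p 1 b ∈ K.X 1 := K.pX 1
  have q1 : ∀ b, K.q 1 b ∈ K.X 2 := K.qX 1
  obtain ⟨Z, hZ, hZ'⟩ := bead hTRE (treeK K 1) (treeK K 2) (K.sub 1) (K.sub 2)
    (K.disj 1 2 (by decide)) (p1 false) (p1 true) (q1 false) (q1 true) (K.adj 1 false)
    (K.adj 1 true) (K.ne 1)
  refine ⟨Z, hZ, ?_⟩
  have h1 := hTRE.four (treeK K 1) _ (q0 b) _ (p1 false) _ (p1 true)
  have h2 := four' hTRE (treeK K 2) K.tX (q1 true) (q1 false)
  rw [hZ', (pth hTRE K _).2.2, (pth hTRE K _).2.2, ← h1, ← h2]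
  simp only [Matrix.cons_val_zero, Matrix.cons_val_one]
  have key : ∀ a b c c' d d' f f' : Chain α,
      a + b + c + d + f + (a + b + c' + d' + f') = c + c' + d' + (f' + f) + d := by
    intro a b c c' d d' f f'
    have : a + b + c + d + f + (a + b + c' + d' + f') =
        (c + c' + d' + (f' + f) + d) + (a + a) + (b + b) := by abel
    rw [this]
    simp only [chain_add_self, add_zero]
  exact key _ _ _ _ _ _ _ _

theorem sum_eq_chi (w : Chain α) (P : Finset (Sym2 α)) : ∑ h ∈ P, w h = ∑ h, w h * chi P h := by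
  simp only [chi_apply, mul_ite, mul_one, mul_zero, sum_ite_mem, univ_inter]

theorem aff (hTRE : SpecTRE) {s t : α} (K : Ch2 G s t) (w0 : ZMod 2) (w : Chain α) :
    ∑ e : Fin 2 → Bool, (w0 + ∑ h ∈ K.pth e, w h) = 0 := by
  rw [sum_add_distrib]
  have h1 : ∑ _e : Fin 2 → Bool, w0 = 0 := by
    rw [two_sum, zmod2_add_self, zero_add, zmod2_add_self]
  have h2 : ∑ e : Fin 2 → Bool, ∑ h ∈ K.pth e, w h = 0 := by
    rw [sum_congr rfl fun e _ => sum_eq_chi w (K.pth e), sum_comm]
    refine sum_eq_zero fun h _ => ?_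
    rw [← mul_sum]
    have := congrFun (four hTRE K) h
    rw [Finset.sum_apply] at this
    rw [this]
    simp
  rw [h1, h2, add_zero]

end DCBM

theorem specDCB (hTRE : SpecTRE) : SpecDCB where
  cyc := fun D e => DCBM.cyc hTRE D e
  pth := fun K e => DCBM.pth hTRE K e
  four := fun K => DCBM.four hTRE K
  bead := fun K b => ⟨DCBM.bead_one hTRE K b, DCBM.bead_two hTRE K b⟩
  aff := fun K w0 w => DCBM.aff hTRE K w0 w

end DL
end

section
/-!
# MP_3ff0f8_gt, ALGEBRA HALF, module DIR: directness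
-/
open SimpleGraph Finset

namespace DL

namespace DIRM

variable {α : Type} [Fintype α] [DecidableEq α]

open Classical in
/-- the edges at `v`, as a finite set -/
noncomputable def stF (G : SimpleGraph α) (v : α) : Finset (Sym2 α) :=
  univ.filter fun e => e ∈ G.edgeSet ∧ v ∈ e

lemma mem_stF {G : SimpleGraph α} {v : α} {e : Sym2 α} :
    e ∈ stF G v ↔ e ∈ G.edgeSet ∧ v ∈ e := by simp [stF]

lemma coe_stF (G : SimpleGraph α) (v : α) : (stF G v : Set (Sym2 α)) = star G v := by
  ext e
  rw [mem_coe, mem_stF]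
  rfl

/-- the trace of a chain of `G` on the edges at `v` -/
lemma sum_stF {G : SimpleGraph α} {c : Chain α} (hc : ∀ e, c e ≠ 0 → e ∈ G.edgeSet) (v : α) :
    ∑ e ∈ stF G v, c e = bdy c v := by
  rw [bdy_eq]
  apply Finset.sum_subset
  · intro e he
    rw [mem_filter]
    exact ⟨mem_univ _, (mem_stF.1 he).2⟩
  · intro e he he'
    by_contra h
    exact he' (mem_stF.2 ⟨hc e h, (mem_filter.1 he).2⟩)

lemma zmod2_eq_one {x : ZMod 2} (h : x ≠ 0) : x = 1 := zmod2_ne_zero.1 h

/-- an even trace with at most three edges at `w` is killed by `R_w` -/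
lemma small (hTRA : SpecTRA) {G : SimpleGraph α} {w : α} {r : Chain α → ZMod 2} (hr : r ∈ RV G w)
    {c : Chain α} (hb : bdy c w = 0) (h : ((csupp c).filter fun e => w ∈ e).card ≤ 3) : r c = 0 := by
  set S := (csupp c).filter fun e => w ∈ e with hS
  have hpar : ((S.card : ℕ) : ZMod 2) = 0 := by
    rw [← hb, bdy_eq]
    have h1 : ∑ e ∈ S, c e = (S.card : ZMod 2) := by
      rw [sum_congr rfl (g := fun _ => (1 : ZMod 2))]
      · simp
      · intro e he
        exact zmod2_eq_one (mem_csupp.1 (mem_filter.1 he).1)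
    rw [← h1]
    apply Finset.sum_subset
    · intro e he
      rw [mem_filter]
      exact ⟨mem_univ _, (mem_filter.1 he).2⟩
    · intro e he he'
      by_contra h
      exact he' (mem_filter.2 ⟨mem_csupp.2 h, (mem_filter.1 he).2⟩)
  have hev : S.card ≤ 2 := by
    have h2 : 2 ∣ S.card := (ZMod.natCast_eq_zero_iff _ _).1 hpar
    omega
  obtain ⟨x, y, hxy⟩ : ∃ x y, S ⊆ {x, y} := by
    rcases Nat.lt_or_ge S.card 2 with h2 | h2
    · rcases Nat.lt_or_ge S.card 1 with h3 | h3
      · have : S = ∅ := card_eq_zero.1 (by omega)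
        exact ⟨s(w, w), s(w, w), by rw [this]; simp⟩
      · obtain ⟨x, hx⟩ := card_eq_one.1 (by omega : S.card = 1)
        exact ⟨x, x, by rw [hx]; simp⟩
    · obtain ⟨x, y, _, hx⟩ := card_eq_two.1 (by omega : S.card = 2)
      exact ⟨x, y, by rw [hx]⟩
  refine hTRA.two hr c x y fun e he hce => ?_
  have := hxy (mem_filter.2 ⟨mem_csupp.2 hce, he.2⟩)
  simpa using this

/-- four edges at `v` -/
lemma four_edges {G : SimpleGraph α} {v : α} {F : Finset (Sym2 α)} (hF : F ⊆ stF G v)
    (hc : F.card = 4) : ∃ t : Fin 4 → α, Function.Injective t ∧ (∀ i, G.Adj v (t i)) ∧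
      ∀ e, e ∈ F ↔ ∃ i, e = s(v, t i) := by
  classical
  set N : Finset α := univ.filter fun x => s(v, x) ∈ F with hN
  have hFN : F = N.image fun x => s(v, x) := by
    ext e
    rw [mem_image]
    constructor
    · intro he
      obtain ⟨x, rfl⟩ := Sym2.mem_iff_exists.1 (mem_stF.1 (hF he)).2
      exact ⟨x, mem_filter.2 ⟨mem_univ _, he⟩, rfl⟩
    · rintro ⟨x, hx, rfl⟩
      exact (mem_filter.1 hx).2
  have hinj : Function.Injective fun x : α => s(v, x) := fun x y hxy => Sym2.congr_right.1 hxy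
  have hNc : N.card = 4 := by
    rw [← hc, hFN, card_image_of_injective _ hinj]
  set t : Fin 4 → α := fun i => ((N.equivFinOfCardEq hNc).symm i : α) with ht
  have htN : ∀ i, t i ∈ N := fun i => ((N.equivFinOfCardEq hNc).symm i).2
  refine ⟨t, ?_, ?_, ?_⟩
  · intro i j hij
    exact (N.equivFinOfCardEq hNc).symm.injective (Subtype.ext hij)
  · intro i
    have h1 := (mem_stF.1 (hF (mem_filter.1 (htN i)).2)).1
    exact h1
  · intro e
    constructor
    · intro he
      rw [hFN, mem_image] at he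
      obtain ⟨x, hx, rfl⟩ := he
      refine ⟨N.equivFinOfCardEq hNc ⟨x, hx⟩, ?_⟩
      simp [ht]
    · rintro ⟨i, rfl⟩
      exact (mem_filter.1 (htN i)).2

end DIRM

open DIRM in
theorem specDIR (hTRA : SpecTRA) (hLTR : SpecLTR) : SpecDIR := by
  intro α _ _ G hDH r hr hsum v c hcG hcv
  have hr' : r v ∈ TR (stF G v : Set (Sym2 α)) := by
    rw [coe_stF]
    exact hr v
  refine hTRA.four (stF G v) hr' ?_ c (by rw [sum_stF hcG, hcv])
  intro F hF hFc
  obtain ⟨t, htinj, htadj, htF⟩ := four_edges hF hFc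
  -- the connecting tree
  have hU : ∀ x ∈ (VS G).erase v, x ∈ VS G ∧ x ≠ v := fun x hx =>
    ⟨(mem_erase.1 hx).2, (mem_erase.1 hx).1⟩
  have hreach : ∀ x ∈ (VS G).erase v, ∀ y ∈ (VS G).erase v, (del G {v}).Reachable x y := by
    intro x hx y hy
    exact hDH.1 v x (hU x hx).1 y (hU y hy).1 (by simpa using (hU x hx).2)
      (by simpa using (hU y hy).2)
  obtain ⟨T, hT1, hT2, hT3, hT4⟩ := hLTR (del G {v}) ((VS G).erase v) t htinj
    (fun i => mem_erase.2 ⟨(htadj i).ne.symm, right_mem_VS (htadj i)⟩) hreach (by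
      intro z x hx y hy w hw hxz hyz hwz
      rw [del_del]
      by_cases hz : z = v
      · subst hz
        left
        have : ({z} ∪ {z} : Finset α) = {z} := by simp
        rw [this]
        exact hreach x hx y hy
      · have e : ({v} ∪ {z} : Finset α) = {v, z} := rfl
        rw [e]
        refine hDH.2 v z (Ne.symm hz) x (hU x hx).1 y (hU y hy).1 w (hU w hw).1 ?_ ?_ ?_
        · simp [(hU x hx).2, hxz]
        · simp [(hU y hy).2, hyz]
        · simp [(hU w hw).2, hwz])
  -- the two paths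
  obtain ⟨P, hP⟩ := exists_isPth (hT2 0 1)
  obtain ⟨P', hP'⟩ := exists_isPth (hT2 2 3)
  have hPT : ∀ e ∈ P, e ∈ T := fun e he => by
    have := hP.subset e he
    rw [edgeSet_fromEdgeSet] at this
    exact this.1
  have hPT' : ∀ e ∈ P', e ∈ T := fun e he => by
    have := hP'.subset e he
    rw [edgeSet_fromEdgeSet] at this
    exact this.1
  have hTG : ∀ e ∈ T, e ∈ G.edgeSet := fun e he => edgeSet_mono (del_le G {v}) (hT1 e he)
  have hTv : ∀ e ∈ T, v ∉ e := by
    intro e he hve
    obtain ⟨x, rfl⟩ := Sym2.mem_iff_exists.1 hve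
    have : (del G {v}).Adj v x := hT1 _ he
    exact this.2.1 (by simp)
  set d : Chain α := chi P + chi P' + chi F with hd
  have hsupp : ∀ e, d e ≠ 0 → e ∈ T ∨ e ∈ F := by
    intro e he
    by_contra h
    rw [not_or] at h
    apply he
    rw [hd, Pi.add_apply, Pi.add_apply, chi_of_notMem fun h1 => h.1 (hPT e h1),
      chi_of_notMem fun h1 => h.1 (hPT' e h1), chi_of_notMem h.2]
    rfl
  have hFsum : ∀ w, bdy (chi F) w = ∑ i : Fin 4, ((if w = v then 1 else 0) +
      (if w = t i then 1 else 0) : ZMod 2) := by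
    intro w
    have hchi : chi F = ∑ i : Fin 4, chi {s(v, t i)} := by
      funext e
      rw [Finset.sum_apply]
      by_cases he : e ∈ F
      · obtain ⟨i, rfl⟩ := (htF e).1 he
        rw [chi_of_mem he, Finset.sum_eq_single i]
        · rw [chi_of_mem (by simp)]
        · intro j _ hji
          apply chi_of_notMem
          rw [mem_singleton]
          intro h
          exact hji (htinj (Sym2.congr_right.1 h)).symm
        · intro h
          exact absurd (mem_univ _) h
      · rw [chi_of_notMem he, Finset.sum_eq_zero]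
        intro i _
        apply chi_of_notMem
        rw [mem_singleton]
        intro h
        exact he ((htF e).2 ⟨i, h⟩)
    rw [hchi]
    have hlin : bdy (∑ i : Fin 4, chi {s(v, t i)}) w = ∑ i : Fin 4, bdy (chi {s(v, t i)}) w := by
      simp only [bdy, Finset.sum_apply]
      rw [Finset.sum_comm]
    rw [hlin]
    exact sum_congr rfl fun i _ => bdy_chi_edge w (htadj i).ne
  have hdZ : d ∈ Z1 G := by
    refine ⟨fun e he => ?_, fun w => ?_⟩
    · rcases hsupp e he with h | h
      · exact hTG e h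
      · exact (mem_stF.1 (hF h)).1
    · rw [hd, bdy_add, bdy_add, hP.bdy_chi, hP'.bdy_chi, hFsum, Fin.sum_univ_four]
      generalize (if w = v then (1 : ZMod 2) else 0) = x
      generalize (if w = t 0 then (1 : ZMod 2) else 0) = x0
      generalize (if w = t 1 then (1 : ZMod 2) else 0) = x1
      generalize (if w = t 2 then (1 : ZMod 2) else 0) = x2
      generalize (if w = t 3 then (1 : ZMod 2) else 0) = x3
      revert x x0 x1 x2 x3
      decide
  have hsmall : ∀ w, w ≠ v → ((csupp d).filter fun e => w ∈ e).card ≤ 3 := by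
    intro w hw
    by_cases hwt : ∃ i, w = t i
    · obtain ⟨i, rfl⟩ := hwt
      have hsub : (csupp d).filter (fun e => t i ∈ e) ⊆
          insert s(v, t i) (T.filter fun e => t i ∈ e) := by
        intro e he
        rw [mem_filter, mem_csupp] at he
        rw [mem_insert, mem_filter]
        rcases hsupp e he.1 with h | h
        · exact Or.inr ⟨h, he.2⟩
        · obtain ⟨j, rfl⟩ := (htF e).1 h
          left
          rcases Sym2.mem_iff.1 he.2 with h1 | h1
          · exact absurd h1 hw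
          · rw [h1]
      exact (card_le_card hsub).trans ((card_insert_le _ _).trans (Nat.succ_le_succ (hT4 i)))
    · have hsub : (csupp d).filter (fun e => w ∈ e) ⊆ T.filter fun e => w ∈ e := by
        intro e he
        rw [mem_filter, mem_csupp] at he
        rw [mem_filter]
        rcases hsupp e he.1 with h | h
        · exact ⟨h, he.2⟩
        · obtain ⟨j, rfl⟩ := (htF e).1 h
          rcases Sym2.mem_iff.1 he.2 with h1 | h1
          · exact absurd h1 hw
          · exact absurd ⟨j, h1⟩ hwt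
      exact (card_le_card hsub).trans (hT3 w)
  have h0 := hsum d hdZ
  rw [Finset.sum_eq_single v] at h0
  · rw [← h0]
    refine hTRA.loc (hr v) _ _ fun e he => ?_
    rw [hd, Pi.add_apply, Pi.add_apply, chi_of_notMem fun h1 => hTv e (hPT e h1) he.2,
      chi_of_notMem fun h1 => hTv e (hPT' e h1) he.2, zero_add, zero_add]
  · intro w _ hw
    exact small hTRA (hr w) (hdZ.2 w) (hsmall w hw)
  · intro h
    exact absurd (mem_univ _) h

end DL
end

section
/-!
# DVS: division
-/
set_option autoImplicit false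

open SimpleGraph Finset

namespace DL

namespace DVSM

theorem coord {α : Type} [Fintype α] [DecidableEq α] (hPOL : SpecPOL) (e : Sym2 α) :
    DegLE 1 (fun c : Chain α => c e) := hPOL.ofAdd fun _ _ => rfl

theorem two_eq (x : ZMod 2) : x + x = 0 := by
  have h : (2 : ZMod 2) = 0 := by decide
  rw [← two_mul, h, zero_mul]

end DVSM

theorem specDVS (hPOL : SpecPOL) : SpecDVS := by
  intro α _ _ V S
  classical
  induction S using Finset.induction_on generalizing V with
  | empty =>
    intro d p _ hp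
    refine ⟨fun _ _ => 0, fun e => hPOL.zero d, fun c hc => ?_⟩
    rw [Finset.sum_empty]
    exact hp c hc (by simp)
  | insert e S he ih =>
    intro d p hd hp
    let V' : Submodule (ZMod 2) (Chain α) :=
      { carrier := {c | c ∈ V ∧ c e = 0}
        add_mem' := by
          rintro a b ⟨ha, ha'⟩ ⟨hb, hb'⟩
          refine ⟨V.add_mem ha hb, ?_⟩
          show a e + b e = 0
          rw [ha', hb', add_zero]
        zero_mem' := ⟨V.zero_mem, rfl⟩
        smul_mem' := by
          rintro r a ⟨ha, ha'⟩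
          refine ⟨V.smul_mem r ha, ?_⟩
          show r * a e = 0
          rw [ha', mul_zero] }
    obtain ⟨q', hq', hq⟩ := ih V' d p hd (fun c hc h => hp c hc.1 fun f hf => by
      rcases Finset.mem_insert.1 hf with rfl | hf
      · exact hc.2
      · exact h f hf)
    have hqe : ∀ (w : Chain α → ZMod 2) (c : Chain α), ∑ f ∈ S, c f * (Function.update q' e w) f c =
        ∑ f ∈ S, c f * q' f c := by
      intro w c
      refine Finset.sum_congr rfl fun f hf => ?_
      rw [Function.update_of_ne (by rintro rfl; exact he hf)]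
    by_cases hV : ∀ c ∈ V, c e = 0
    · refine ⟨Function.update q' e (fun _ => 0), fun f => ?_, fun c hc => ?_⟩
      · by_cases hf : f = e
        · rw [hf, Function.update_self]
          exact hPOL.zero d
        · rw [Function.update_of_ne hf]
          exact hq' f
      · rw [Finset.sum_insert he, Function.update_self, mul_zero, zero_add, hqe]
        exact hq c ⟨hc, hV c hc⟩
    · push Not at hV
      obtain ⟨t, ht, hte⟩ := hV
      have ht1 : t e = 1 := by
        have : ∀ x : ZMod 2, x ≠ 0 → x = 1 := by decide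
        exact this _ hte
      set p' : Chain α → ZMod 2 := fun c => p c + ∑ f ∈ S, c f * q' f c with hp'
      have hdp' : DegLE (d + 1) p' := by
        refine hPOL.add hd (hPOL.sum S (fun f c => c f * q' f c) fun f _ => ?_)
        rw [add_comm d 1]
        exact hPOL.mul (DVSM.coord hPOL f) (hq' f)
      have hp'0 : ∀ c ∈ V, c e = 0 → p' c = 0 := by
        intro c hc hce
        rw [hp']
        dsimp only
        rw [hq c ⟨hc, hce⟩, DVSM.two_eq]
      refine ⟨Function.update q' e (fun c => p' (c + t) + p' c), fun f => ?_, fun c hc => ?_⟩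
      · by_cases hf : f = e
        · rw [hf, Function.update_self]
          exact hPOL.dif t hdp'
        · rw [Function.update_of_ne hf]
          exact hq' f
      · rw [Finset.sum_insert he, Function.update_self, hqe]
        have hc01 : c e = 0 ∨ c e = 1 := by
          have : ∀ x : ZMod 2, x = 0 ∨ x = 1 := by decide
          exact this _
        rcases hc01 with h0 | h1
        · rw [h0, zero_mul, zero_add]
          exact hq c ⟨hc, h0⟩
        · have h2 : p' (c + t) = 0 := by
            apply hp'0 _ (V.add_mem hc ht)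
            show c e + t e = 0
            rw [h1, ht1]
            decide
          rw [h2, h1, zero_add, one_mul]
          show p c = p c + ∑ f ∈ S, c f * q' f c + ∑ f ∈ S, c f * q' f c
          rw [add_assoc, DVSM.two_eq, add_zero]

end DL
end

section
set_option autoImplicit false

/-!
# VRS: combinations of vertex relations
-/

open SimpleGraph Finset

namespace DL

namespace VRSM

open MUEM

variable {α : Type} [Fintype α] [DecidableEq α]

open Classical in
/-- the coefficients -/
noncomputable def lc (m : α → Sym2 α → ZMod 2) (w _x c d : α) : ZMod 2 :=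
  if rk c < rk d ∧ w ≠ c ∧ w ≠ d then m w s(c, d) else 0

lemma sym8_lc (m : α → Sym2 α → ZMod 2) {a b c d : α} (h : Dj4 a b c d) :
    sym8 (lc m) a b c d = m a s(c, d) + m b s(c, d) + m c s(a, b) + m d s(a, b) := by
  obtain ⟨h1, h2, h3, h4, h5, h6⟩ := h
  have k3 := h3.symm
  have k4 := h4.symm
  have k5 := h5.symm
  have k6 := h6.symm
  rcases rk_lt_or h1 with p | p <;> rcases rk_lt_or h2 with q | q <;>
    simp [sym8, lc, p.1, p.2, q.1, q.2, h3, h4, h5, h6, k3, k4, k5, k6,
      Sym2.eq_swap (a := b) (b := a), Sym2.eq_swap (a := d) (b := c)] <;> ring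

open Classical in
/-- the polynomial -/
noncomputable def pl (q : α → Chain α → ZMod 2) (m : α → Sym2 α → ZMod 2) (x : Chain α) : ZMod 2 :=
  ∑ w, ∑ c, ∑ d, if rk c < rk d ∧ w ≠ c ∧ w ≠ d then m w s(c, d) * (x s(c, d) * q w x) else 0

lemma pr_deg (hPOL : SpecPOL) {A : Set (Sym2 α)} {r : Chain α → ZMod 2} (hr : r ∈ PR A) :
    DegLE 2 r := by
  unfold PR at hr
  induction hr using Submodule.span_induction with
  | mem x h =>
    obtain ⟨e, _, f, _, _, rfl⟩ := h
    have h1 : ∀ e : Sym2 α, DegLE 1 (fun c : Chain α => c e) := fun e =>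
      hPOL.ofAdd fun a b => Pi.add_apply a b e
    exact hPOL.mul (h1 e) (h1 f)
  | zero => exact hPOL.zero 2
  | add x y _ _ h1 h2 => exact hPOL.add h1 h2
  | smul a x _ h =>
    have h2 := hPOL.mul (hPOL.const 0 a) h
    rw [zero_add] at h2
    exact h2

end VRSM

open VRSM MUEM in
theorem specVRS (hVRW : SpecVRW) (hPOL : SpecPOL) : SpecVRS := by
  intro α _ _ m
  refine ⟨lc m, fun a b c d h => sym8_lc m h, ?_⟩
  choose q hq1 hq2 using fun w : α => hVRW.vs2 w
  have hq3 : ∀ w, DegLE 2 (q w) := fun w => pr_deg hPOL (hq1 w)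
  refine ⟨pl q m, ?_, ?_, ?_⟩
  · unfold pl
    refine hPOL.sum _ _ fun w _ => hPOL.sum _ _ fun c _ => hPOL.sum _ _ fun d _ => ?_
    by_cases h : rk c < rk d ∧ w ≠ c ∧ w ≠ d
    · simp only [if_pos h]
      have h1 : DegLE 1 (fun x : Chain α => x s(c, d)) := hPOL.ofAdd fun a b => Pi.add_apply a b _
      have h2 := hPOL.mul (hPOL.const 0 (m w s(c, d))) (hPOL.mul h1 (hq3 w))
      exact h2
    · simp only [if_neg h]
      exact hPOL.zero 3
  · unfold pl
    refine sum_eq_zero fun w _ => sum_eq_zero fun c _ => sum_eq_zero fun d _ => ?_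
    split_ifs
    · simp
    · rfl
  · intro G C hC
    unfold cohs pl
    refine sum_congr rfl fun w _ => ?_
    rw [sum_comm]
    refine sum_congr rfl fun c _ => ?_
    rw [sum_comm]
    refine sum_congr rfl fun d _ => ?_
    by_cases h : rk c < rk d ∧ w ≠ c ∧ w ≠ d
    · rw [if_pos h]
      simp only [lc, if_pos h]
      rw [← mul_sum, hVRW.vr hC w c d h.2.1 h.2.2 (by rintro rfl; exact lt_irrefl _ h.1),
        hq2 w G C hC, chi_apply]
      by_cases h1 : s(c, d) ∈ C <;> by_cases h2 : w ∈ vs C <;> simp [h1, h2]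
    · rw [if_neg h]
      simp only [lc, if_neg h]
      simp

end DL
end
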