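import Pool.Agent.DL.EX.Spec
import Pool.Agent.DL.EX.VRS

section
/-!
MP_3ff0f8_gt, ALGEBRA HALF, module K2M (helper67): `Kur = Z_2` for the multigraph `G/ab`.
-/
open SimpleGraph Finset

namespace DL

namespace K2MM

set_option linter.unusedSectionVars false
set_option linter.unusedVariables false

variable {α : Type} [Fintype α] [DecidableEq α] {G : SimpleGraph α}

theorem pair2_add (l : α → α → α → α → ZMod 2) (z z' : Sym2 α → Sym2 α → ZMod 2) :
    pair2 l (fun e f => z e f + z' e f) = pair2 l z + pair2 l z' := by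
  simp only [pair2, mul_add, sum_add_distrib]

theorem pair2_sum {ι : Type} (l : α → α → α → α → ZMod 2) (s : Finset ι)
    (z : ι → Sym2 α → Sym2 α → ZMod 2) :
    pair2 l (fun e f => ∑ i ∈ s, z i e f) = ∑ i ∈ s, pair2 l (z i) := by
  classical
  induction s using Finset.induction_on with
  | empty => simp [pair2]
  | insert i s hi ih =>
    rw [sum_insert hi, ← ih, ← pair2_add]
    congr 1
    funext e f
    rw [sum_insert hi]

theorem pair2_congr {a b : α} {l : α → α → α → α → ZMod 2}
    (hl : ∀ s t u v, l s t u v ≠ 0 → s(s, t) ≠ s(a, b) ∧ s(u, v) ≠ s(a, b))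
    {z z' : Sym2 α → Sym2 α → ZMod 2}
    (h : ∀ e f, e ≠ s(a, b) → f ≠ s(a, b) → z e f = z' e f) : pair2 l z = pair2 l z' := by
  unfold pair2
  refine sum_congr rfl fun p _ => sum_congr rfl fun q _ => sum_congr rfl fun r _ =>
    sum_congr rfl fun s _ => ?_
  by_cases h0 : l p q r s = 0
  · rw [h0, zero_mul, zero_mul]
  · obtain ⟨h1, h2⟩ := hl p q r s h0
    rw [h _ _ h1 h2]

/-- `t ⊗ Z` -/
def tor (t Z : Chain α) : Sym2 α → Sym2 α → ZMod 2 := fun e f => t e * Z f + Z e * t f

theorem tor_symm (t Z : Chain α) (e f : Sym2 α) : tor t Z e f = tor t Z f e := by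
  unfold tor; ring

theorem bdy_filter (c : Chain α) (v : α) [DecidablePred fun e : Sym2 α => v ∈ e] :
    ∑ e ∈ univ.filter (fun e : Sym2 α => v ∈ e), c e = bdy c v := by
  rw [bdy_eq]
  refine sum_congr ?_ fun _ _ => rfl
  ext e
  simp only [mem_filter]

theorem isZ2_tor {t Z : Chain α} (ht : ∀ e, t e ≠ 0 → e ∈ G.edgeSet)
    (hZ : ∀ e, Z e ≠ 0 → e ∈ G.edgeSet) (hd : ∀ e f, t e ≠ 0 → Z f ≠ 0 → Dj e f)
    (ht0 : ∀ v, bdy t v = 0) (hZ0 : ∀ v, bdy Z v = 0) : IsZ2 G (tor t Z) := by
  refine ⟨fun e f => tor_symm t Z e f, fun e f h => ?_, fun e v _ => ?_⟩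
  · by_cases h1 : t e ≠ 0 ∧ Z f ≠ 0
    · exact ⟨ht e h1.1, hZ f h1.2, hd e f h1.1 h1.2⟩
    · by_cases h2 : Z e ≠ 0 ∧ t f ≠ 0
      · exact ⟨hZ e h2.1, ht f h2.2, fun v hv => hd f e h2.2 h2.1 v ⟨hv.2, hv.1⟩⟩
      · exfalso
        apply h
        unfold tor
        have e1 : t e * Z f = 0 := by
          by_contra h3
          exact h1 ⟨left_ne_zero_of_mul h3, right_ne_zero_of_mul h3⟩
        have e2 : Z e * t f = 0 := by
          by_contra h3
          exact h2 ⟨left_ne_zero_of_mul h3, right_ne_zero_of_mul h3⟩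
        rw [e1, e2, add_zero]
  · unfold tor
    rw [sum_add_distrib, ← mul_sum, ← mul_sum]
    have h1 := hZ0 v
    have h2 := ht0 v
    rw [bdy_eq] at h1 h2
    rw [h1, h2, mul_zero, mul_zero, add_zero]

theorem ne_of_mem_of_notMem {e f : Sym2 α} {v : α} (h : v ∈ e) (h' : v ∉ f) : e ≠ f := by
  rintro rfl; exact h' h

theorem mem_del_edge {S : Finset α} {e : Sym2 α} :
    e ∈ (del G S).edgeSet ↔ e ∈ G.edgeSet ∧ ∀ v ∈ e, v ∉ S := by
  induction e using Sym2.ind with
  | _ p q =>
    rw [mem_edgeSet, mem_edgeSet]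
    constructor
    · rintro ⟨h1, h2, h3⟩
      refine ⟨h1, fun v hv => ?_⟩
      rw [Sym2.mem_iff] at hv
      rcases hv with rfl | rfl
      exacts [h2, h3]
    · rintro ⟨h1, h2⟩
      exact ⟨h1, h2 p (by simp), h2 q (by simp)⟩

theorem map_mrg_eq {a b : α} {e : Sym2 α} (h : b ∉ e) : e.map (mrg a b) = e := by
  induction e using Sym2.ind with
  | _ p q =>
    rw [Sym2.mem_iff, not_or] at h
    rw [Sym2.map_mk]
    simp only [mrg]
    rw [if_neg (Ne.symm h.1), if_neg (Ne.symm h.2)]

theorem mem_map_mrg {a b : α} {e : Sym2 α} (h : b ∈ e) : a ∈ e.map (mrg a b) := by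
  rw [Sym2.mem_map]
  exact ⟨b, h, by simp [mrg]⟩

theorem mem_map_mrg' {a b : α} {e : Sym2 α} (hab : a ≠ b) (h : a ∈ e) :
    a ∈ e.map (mrg a b) := by
  rw [Sym2.mem_map]
  exact ⟨a, h, by simp [mrg, hab]⟩

/-- membership in `sel` -/
theorem mem_sel {a b : α} {K : Finset α} {e : Sym2 α} :
    e ∈ (sel G a b K).edgeSet ↔ e ∈ G.edgeSet ∧
      ¬ ∃ x, G.Adj a x ∧ G.Adj b x ∧ ((x ∈ K ∧ e = s(a, x)) ∨ (x ∉ K ∧ e = s(b, x))) := by
  unfold sel
  rw [edgeSet_deleteEdges]
  rfl

theorem mem_cmn {a b x : α} : x ∈ cmn G a b ↔ G.Adj a x ∧ G.Adj b x := by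
  unfold cmn
  simp only [mem_filter, mem_univ, true_and]

/-- chains of the triangle -/
def tri (a b x : α) : Chain α := chi {s(a, x), s(b, x), s(a, b)}

theorem tri_ne {a b x : α} {e : Sym2 α} : tri a b x e ≠ 0 ↔
    e = s(a, x) ∨ e = s(b, x) ∨ e = s(a, b) := by
  rw [tri, chi_ne_zero]
  simp only [mem_insert, mem_singleton]

section

variable {a b : α}

theorem z_prop {x : α} {Z : Chain α} (hZ : Z ∈ Z1 (del G {a, b, x})) {e : Sym2 α} (he : Z e ≠ 0) :
    e ∈ G.edgeSet ∧ a ∉ e ∧ b ∉ e ∧ x ∉ e := by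
  have h := mem_del_edge.1 (hZ.1 e he)
  refine ⟨h.1, fun h' => h.2 _ h' (by simp), fun h' => h.2 _ h' (by simp), fun h' => h.2 _ h' (by simp)⟩

theorem isZ2_tri (hSEF : SpecSEF) {x : α} (hab : G.Adj a b) (hax : G.Adj a x) (hbx : G.Adj b x)
    {Z : Chain α} (hZ : Z ∈ Z1 (del G {a, b, x})) : IsZ2 G (tor (tri a b x) Z) := by
  have hc := (hSEF.tri hab hax hbx).1
  refine isZ2_tor (fun e he => ?_) (fun e he => (z_prop hZ he).1) (fun e f he hf v hv => ?_)
    (fun v => hc.bdy_chi v) (fun v => hZ.2 v)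
  · exact hc.subset e (chi_ne_zero.1 he)
  · obtain ⟨_, h1, h2, h3⟩ := z_prop hZ hf
    rw [tri_ne] at he
    rcases he with rfl | rfl | rfl <;> rw [Sym2.mem_iff] at hv <;>
      rcases hv with ⟨rfl | rfl, hv⟩ <;> first | exact h1 hv | exact h2 hv | exact h3 hv

theorem del_contr (hab : G.Adj a b) (x : α) (hx : x ≠ b) :
    del (contr G a b) {a, x} = del G {a, b, x} := by
  ext u w
  have hu : (u ∉ ({a, x} : Finset α) ↔ u ≠ a ∧ u ≠ x) := by simp
  have hw : (w ∉ ({a, x} : Finset α) ↔ w ≠ a ∧ w ≠ x) := by simp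
  have hu' : (u ∉ ({a, b, x} : Finset α) ↔ u ≠ a ∧ u ≠ b ∧ u ≠ x) := by simp
  have hw' : (w ∉ ({a, b, x} : Finset α) ↔ w ≠ a ∧ w ≠ b ∧ w ≠ x) := by simp
  show ((u ≠ b ∧ w ≠ b ∧ u ≠ w ∧ (G.Adj u w ∨ (u = a ∧ G.Adj b w) ∨ (w = a ∧ G.Adj u b))) ∧
    u ∉ ({a, x} : Finset α) ∧ w ∉ ({a, x} : Finset α)) ↔ G.Adj u w ∧ u ∉ ({a, b, x} : Finset α) ∧
      w ∉ ({a, b, x} : Finset α)
  rw [hu, hw, hu', hw']
  constructor
  · rintro ⟨⟨h1, h2, _, h3⟩, ⟨h4, h5⟩, h6, h7⟩
    rcases h3 with h3 | ⟨h3, _⟩ | ⟨h3, _⟩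
    · exact ⟨h3, ⟨h4, h1, h5⟩, h6, h2, h7⟩
    · exact absurd h3 h4
    · exact absurd h3 h6
  · rintro ⟨h1, ⟨h2, h3, h4⟩, h5, h6, h7⟩
    exact ⟨⟨h3, h6, h1.ne, Or.inl h1⟩, ⟨h2, h4⟩, h5, h7⟩

/-- lifted 2-cycles vanish on `A × B` -/
theorem lift_zero {K : Finset α} {w z : Sym2 α → Sym2 α → ZMod 2} (hab : a ≠ b)
    (hw : IsZ2 (contr G a b) w) (hz : IsZ2 (sel G a b K) z)
    (h : ∀ e ∈ (sel G a b K).edgeSet, ∀ f ∈ (sel G a b K).edgeSet, e ≠ s(a, b) →
      f ≠ s(a, b) → z e f = w (e.map (mrg a b)) (f.map (mrg a b))) :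
    ∀ e f, a ∈ e → b ∈ f → e ≠ s(a, b) → f ≠ s(a, b) → z e f = 0 := by
  intro e f hae hbf he hf
  by_contra h0
  obtain ⟨h1, h2, _⟩ := hz.2.1 e f h0
  rw [h e h1 f h2 he hf] at h0
  exact (hw.2.1 _ _ h0).2.2 a ⟨mem_map_mrg' hab hae, mem_map_mrg hbf⟩

theorem edge_ne_ab {x : α} (hxa : x ≠ a) (hxb : x ≠ b) (hab : a ≠ b) :
    s(a, x) ≠ s(a, b) ∧ s(b, x) ≠ s(a, b) ∧ s(a, x) ≠ s(b, x) := by
  refine ⟨fun h => ?_, fun h => ?_, fun h => ?_⟩ <;> rw [Sym2.eq_iff] at h
  · rcases h with ⟨_, h⟩ | ⟨h, _⟩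
    · exact hxb h
    · exact hab h
  · rcases h with ⟨h, _⟩ | ⟨_, h⟩
    · exact hab h.symm
    · exact hxa h
  · rcases h with ⟨h, _⟩ | ⟨_, h⟩
    · exact hab h
    · exact hxb h

/-- the torus of a common neighbour is killed -/
theorem pair_tor (hL2M : SpecL2M) (hLPE : SpecLPE) (hCTZ : SpecCTZ) (hSEF : SpecSEF)
    (hS3F : SpecS3F) (hab : G.Adj a b) (hH : KConn 3 (contr G a b)) (hK : KZ (contr G a b))
    {l : α → α → α → α → ZMod 2}
    (hl : ∀ s t u v, l s t u v ≠ 0 → s(s, t) ≠ s(a, b) ∧ s(u, v) ≠ s(a, b))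
    (hp : ∃ p : Chain α → ZMod 2, DegLE 3 p ∧ p 0 = 0 ∧ ∀ C, CycM G a b C → cohs l C = p (chi C))
    {x : α} (hax : G.Adj a x) (hbx : G.Adj b x) (hS : S3S (delE (contr G a b) a x))
    {Z : Chain α} (hZ : Z ∈ Z1 (del G {a, b, x})) : pair2 l (tor (tri a b x) Z) = 0 := by
  have hxb : x ≠ b := hbx.ne.symm
  have hxa : x ≠ a := hax.ne.symm
  obtain ⟨n1, n2, n3⟩ := edge_ne_ab hxa hxb hab.ne
  have hHax : (contr G a b).Adj a x := ⟨hab.ne, hxb, hax.ne, Or.inl hax⟩
  have hvs := hS3F.vsE a x (show KConn 2 (contr G a b) from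
    ⟨lt_trans (by norm_num) hH.1, fun S hS => hH.2 S (lt_trans hS (by norm_num))⟩)
  have ha : a ∈ VS (delE (contr G a b) a x) := by
    rw [hvs, mem_VS]
    exact ⟨x, hHax⟩
  have hx : x ∈ VS (delE (contr G a b) a x) := by
    rw [hvs, mem_VS]
    exact ⟨a, hHax.symm⟩
  obtain ⟨w, hw, hwZ⟩ := hLPE.edge hHax hS ha hx Z (by rw [del_contr hab x hxb]; exact hZ)
  obtain ⟨s1, s2, s3⟩ := hSEF.adj ∅ hab
  obtain ⟨t1, t2, t3⟩ := hSEF.adj {x} hab
  obtain ⟨z0, hz0, hz0'⟩ := hCTZ.up s1 s2 w (by rw [s3]; exact hw)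
  obtain ⟨z1, hz1, hz1'⟩ := hCTZ.up t1 t2 w (by rw [t3]; exact hw)
  have k0 := hL2M hab hK l hl hp ∅ z0 hz0 (lift_zero hab.ne hw hz0 hz0')
  have k1 := hL2M hab hK l hl hp {x} z1 hz1 (lift_zero hab.ne hw hz1 hz1')
  have Zw : ∀ f : Sym2 α, Z f ≠ 0 → b ∉ f := fun f hf => (z_prop hZ hf).2.2.1
  -- the value of `Z` on a merged edge
  have Zm : ∀ f : Sym2 α, Z (f.map (mrg a b)) = Z f := by
    intro f
    by_cases hbf : b ∈ f
    · have h1 : Z f = 0 := by
        by_contra h; exact Zw f h hbf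
      rw [h1]
      by_contra h
      exact (z_prop hZ h).2.1 (mem_map_mrg hbf)
    · rw [map_mrg_eq hbf]
  have wax : ∀ f, w s(a, x) f = Z f := hwZ
  -- membership of the edges with nonzero `Z`
  have Zsel : ∀ (K : Finset α) (f : Sym2 α), Z f ≠ 0 → f ∈ (sel G a b K).edgeSet := by
    intro K f hf
    obtain ⟨h1, h2, h3, h4⟩ := z_prop hZ hf
    rw [mem_sel]
    refine ⟨h1, ?_⟩
    rintro ⟨y, _, _, ⟨_, rfl⟩ | ⟨_, rfl⟩⟩
    · exact h2 (by simp)
    · exact h3 (by simp)
  have ax0 : s(a, x) ∈ (sel G a b ∅).edgeSet := by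
    rw [mem_sel]
    refine ⟨hax, ?_⟩
    rintro ⟨y, _, hy, ⟨h, _⟩ | ⟨_, h⟩⟩
    · simp at h
    · rw [Sym2.eq_iff] at h
      rcases h with ⟨h, _⟩ | ⟨_, h⟩
      · exact hab.ne h
      · exact hxb h
  have ax1 : s(a, x) ∉ (sel G a b {x}).edgeSet := by
    rw [mem_sel]
    rintro ⟨_, h⟩
    exact h ⟨x, hax, hbx, Or.inl ⟨by simp, rfl⟩⟩
  have bx0 : s(b, x) ∉ (sel G a b ∅).edgeSet := by
    rw [mem_sel]
    rintro ⟨_, h⟩
    exact h ⟨x, hax, hbx, Or.inr ⟨by simp, rfl⟩⟩
  have bx1 : s(b, x) ∈ (sel G a b {x}).edgeSet := by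
    rw [mem_sel]
    refine ⟨hbx, ?_⟩
    rintro ⟨y, hy, _, ⟨_, h⟩ | ⟨h0, h⟩⟩
    · rw [Sym2.eq_iff] at h
      rcases h with ⟨h, _⟩ | ⟨_, h⟩
      · exact hab.ne h.symm
      · exact hxa h
    · rw [Sym2.eq_iff] at h
      rcases h with ⟨_, h⟩ | ⟨_, h⟩
      · exact h0 (by simp [h])
      · exact hxb h
  -- outside `ax`, `bx` the two graphs have the same edges
  have same : ∀ e : Sym2 α, e ≠ s(a, x) → e ≠ s(b, x) →
      (e ∈ (sel G a b ∅).edgeSet ↔ e ∈ (sel G a b {x}).edgeSet) := by
    intro e h1 h2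
    rw [mem_sel, mem_sel]
    refine and_congr_right fun _ => not_congr ?_
    constructor
    · rintro ⟨y, hy, hy', ⟨h, _⟩ | ⟨_, rfl⟩⟩
      · simp at h
      · refine ⟨y, hy, hy', Or.inr ⟨?_, rfl⟩⟩
        rw [mem_singleton]
        rintro rfl
        exact h2 rfl
    · rintro ⟨y, hy, hy', ⟨h, rfl⟩ | ⟨_, rfl⟩⟩
      · rw [mem_singleton] at h
        subst h
        exact absurd rfl h1
      · exact ⟨y, hy, hy', Or.inr ⟨by simp, rfl⟩⟩
  have z0z : ∀ e f, e ∉ (sel G a b ∅).edgeSet ∨ f ∉ (sel G a b ∅).edgeSet → z0 e f = 0 := by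
    intro e f h
    by_contra h0
    obtain ⟨h1, h2, _⟩ := hz0.2.1 e f h0
    exact h.elim (fun h => h h1) (fun h => h h2)
  have z1z : ∀ e f, e ∉ (sel G a b {x}).edgeSet ∨ f ∉ (sel G a b {x}).edgeSet → z1 e f = 0 := by
    intro e f h
    by_contra h0
    obtain ⟨h1, h2, _⟩ := hz1.2.1 e f h0
    exact h.elim (fun h => h h1) (fun h => h h2)
  have t_ax : tri a b x s(a, x) = 1 := by
    rw [tri, chi_eq_one]; simp
  have t_bx : tri a b x s(b, x) = 1 := by
    rw [tri, chi_eq_one]; simp
  have t_other : ∀ e, e ≠ s(a, x) → e ≠ s(b, x) → e ≠ s(a, b) → tri a b x e = 0 := by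
    intro e h1 h2 h3
    by_contra h
    rw [← ne_eq, tri_ne] at h
    rcases h with h | h | h
    exacts [h1 h, h2 h, h3 h]
  have Z_ax : Z s(a, x) = 0 := by
    by_contra h; exact (z_prop hZ h).2.1 (by simp)
  have Z_bx : Z s(b, x) = 0 := by
    by_contra h; exact (z_prop hZ h).2.2.1 (by simp)
  -- rows at `ax` and `bx`
  have row_ax : ∀ f, f ≠ s(a, b) → z0 s(a, x) f + z1 s(a, x) f = tor (tri a b x) Z s(a, x) f := by
    intro f hf
    rw [z1z _ _ (Or.inl ax1), add_zero, tor, t_ax, Z_ax, one_mul, zero_mul, add_zero]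
    by_cases hf0 : f ∈ (sel G a b ∅).edgeSet
    · rw [hz0' _ ax0 _ hf0 n1 hf, map_mrg_eq (e := s(a, x)) (by
        rw [Sym2.mem_iff]; push Not; exact ⟨hab.ne.symm, hxb.symm⟩), wax, Zm]
    · rw [z0z _ _ (Or.inr hf0)]
      by_contra h
      exact hf0 (Zsel _ _ (Ne.symm h))
  have mbx : s(b, x).map (mrg a b) = s(a, x) := by
    rw [Sym2.map_mk]
    simp only [mrg, if_true]
    rw [if_neg hxb]
  have row_bx : ∀ f, f ≠ s(a, b) → z0 s(b, x) f + z1 s(b, x) f = tor (tri a b x) Z s(b, x) f := by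
    intro f hf
    rw [z0z _ _ (Or.inl bx0), zero_add, tor, t_bx, Z_bx, one_mul, zero_mul, add_zero]
    by_cases hf0 : f ∈ (sel G a b {x}).edgeSet
    · rw [hz1' _ bx1 _ hf0 n2 hf, mbx, wax, Zm]
    · rw [z1z _ _ (Or.inr hf0)]
      by_contra h
      exact hf0 (Zsel _ _ (Ne.symm h))
  have main : ∀ e f, e ≠ s(a, b) → f ≠ s(a, b) → z0 e f + z1 e f = tor (tri a b x) Z e f := by
    intro e f he hf
    by_cases e1 : e = s(a, x)
    · subst e1; exact row_ax f hf
    by_cases e2 : e = s(b, x)
    · subst e2; exact row_bx f hf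
    by_cases f1 : f = s(a, x)
    · subst f1
      rw [hz0.1, hz1.1, tor_symm]; exact row_ax e he
    by_cases f2 : f = s(b, x)
    · subst f2
      rw [hz0.1, hz1.1, tor_symm]; exact row_bx e he
    rw [tor, t_other e e1 e2 he, t_other f f1 f2 hf, zero_mul, mul_zero, add_zero]
    by_cases h1 : e ∈ (sel G a b ∅).edgeSet ∧ f ∈ (sel G a b ∅).edgeSet
    · rw [hz0' e h1.1 f h1.2 he hf, hz1' e ((same e e1 e2).1 h1.1) f ((same f f1 f2).1 h1.2) he hf,
        zmod2_add_self]
    · have h2 : ¬ (e ∈ (sel G a b {x}).edgeSet ∧ f ∈ (sel G a b {x}).edgeSet) := by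
        rwa [← same e e1 e2, ← same f f1 f2]
      rw [z0z e f (not_and_or.1 h1), z1z e f (not_and_or.1 h2), add_zero]
  rw [← pair2_congr hl main, pair2_add, k0, k1, add_zero]

end

end K2MM

open K2MM in
theorem specK2M (hL2M : SpecL2M) (hLPE : SpecLPE) (hCTZ : SpecCTZ) (hSEF : SpecSEF)
    (hS3F : SpecS3F) : SpecK2M := by
  intro α _ _ G a b hab hH hK hS l hl hp z hz hz0
  -- the chains `Z_x`
  have hZ : ∀ x ∈ cmn G a b, z s(b, x) ∈ Z1 (del G {a, b, x}) := by
    intro x hx
    rw [mem_cmn] at hx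
    obtain ⟨hax, hbx⟩ := hx
    obtain ⟨n1, n2, n3⟩ := edge_ne_ab hax.ne.symm hbx.ne.symm hab.ne
    refine ⟨fun f hf => ?_, fun v => ?_⟩
    · obtain ⟨_, h2, h3⟩ := hz.2.1 _ _ hf
      have hb : b ∉ f := fun h => h3 b ⟨by simp, h⟩
      have hx : x ∉ f := fun h => h3 x ⟨by simp, h⟩
      have ha : a ∉ f := by
        intro h
        apply hf
        rw [hz.1]
        exact hz0 f s(b, x) h (by simp) (fun e => hb (by rw [e]; simp)) n2
      rw [mem_del_edge]
      refine ⟨h2, fun v hv => ?_⟩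
      simp only [mem_insert, mem_singleton, not_or]
      exact ⟨fun e => ha (e ▸ hv), fun e => hb (e ▸ hv), fun e => hx (e ▸ hv)⟩
    · rw [bdy_eq]
      by_cases hv : v ∈ s(b, x)
      · refine sum_eq_zero fun f hf => ?_
        rw [mem_filter] at hf
        by_contra h
        exact (hz.2.1 _ _ h).2.2 v ⟨hv, hf.2⟩
      · exact hz.2.2 _ v hv
  have hT : ∀ x ∈ cmn G a b, IsZ2 G (tor (tri a b x) (z s(b, x))) := by
    intro x hx
    have hx' := hx
    rw [mem_cmn] at hx'
    exact isZ2_tri hSEF hab hx'.1 hx'.2 (hZ x hx)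
  set z' : Sym2 α → Sym2 α → ZMod 2 := fun e f => z e f +
    ∑ x ∈ cmn G a b, tor (tri a b x) (z s(b, x)) e f with hz'
  have symm' : ∀ e f, z' e f = z' f e := by
    intro e f
    simp only [hz']
    rw [hz.1 e f]
    congr 1
    exact sum_congr rfl fun x _ => tor_symm _ _ _ _
  -- rows at `bx` vanish
  have rowb : ∀ x ∈ cmn G a b, ∀ f, z' s(b, x) f = 0 := by
    intro x hx f
    have hx' := hx
    rw [mem_cmn] at hx'
    obtain ⟨hax, hbx⟩ := hx'
    obtain ⟨n1, n2, n3⟩ := edge_ne_ab hax.ne.symm hbx.ne.symm hab.ne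
    simp only [hz']
    rw [sum_eq_single_of_mem x hx]
    · have h1 : tri a b x s(b, x) = 1 := by
        rw [tri, chi_eq_one]; simp
      have h2 : z s(b, x) s(b, x) = 0 := by
        by_contra h; exact (hz.2.1 _ _ h).2.2 b ⟨by simp, by simp⟩
      rw [tor, h1, h2, one_mul, zero_mul, add_zero, zmod2_add_self]
    · intro y hy hyx
      have hy' := hy
      rw [mem_cmn] at hy'
      obtain ⟨hay, hby⟩ := hy'
      have h1 : tri a b y s(b, x) = 0 := by
        by_contra h
        rw [← ne_eq, tri_ne] at h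
        rcases h with h | h | h
        · rw [Sym2.eq_iff] at h
          rcases h with ⟨h, _⟩ | ⟨h, _⟩
          · exact hab.ne h.symm
          · exact hby.ne h
        · rw [Sym2.eq_iff] at h
          rcases h with ⟨_, h⟩ | ⟨h, h'⟩
          · exact hyx h.symm
          · exact hby.ne h
        · exact n2 h
      have h2 : z s(b, y) s(b, x) = 0 := by
        by_contra h; exact (hz.2.1 _ _ h).2.2 b ⟨by simp, by simp⟩
      rw [tor, h1, h2, zero_mul, zero_mul, add_zero]
  have hz'Z : IsZ2 (sel G a b ∅) z' := by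
    refine ⟨symm', fun e f h => ?_, fun e v hv => ?_⟩
    · have key : e ∈ G.edgeSet ∧ f ∈ G.edgeSet ∧ Dj e f := by
        by_cases h1 : z e f ≠ 0
        · exact hz.2.1 e f h1
        · rw [not_not] at h1
          simp only [hz', h1, zero_add] at h
          obtain ⟨x, hx, h2⟩ := exists_ne_zero_of_sum_ne_zero h
          exact (hT x hx).2.1 e f h2
      have nb : ∀ e f, z' e f ≠ 0 → e ∈ G.edgeSet → e ∈ (sel G a b ∅).edgeSet := by
        intro e f h he
        rw [mem_sel]
        refine ⟨he, ?_⟩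
        rintro ⟨x, hax, hbx, ⟨h1, _⟩ | ⟨_, rfl⟩⟩
        · simp at h1
        · exact h (rowb x (mem_cmn.2 ⟨hax, hbx⟩) f)
      exact ⟨nb e f h key.1, nb f e (by rwa [symm'] at h) key.2.1, key.2.2⟩
    · simp only [hz']
      rw [sum_add_distrib, hz.2.2 e v hv, zero_add, sum_comm]
      exact sum_eq_zero fun x hx => (hT x hx).2.2 e v hv
  have hz'0 : ∀ e f, a ∈ e → b ∈ f → e ≠ s(a, b) → f ≠ s(a, b) → z' e f = 0 := by
    intro e f ha hb he hf
    simp only [hz']
    rw [hz0 e f ha hb he hf, zero_add]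
    refine sum_eq_zero fun x hx => ?_
    have h1 : z s(b, x) f = 0 := by
      by_contra h; exact (z_prop (hZ x hx) h).2.2.1 hb
    have h2 : z s(b, x) e = 0 := by
      by_contra h; exact (z_prop (hZ x hx) h).2.1 ha
    rw [tor, h1, h2, mul_zero, zero_mul, add_zero]
  have k := hL2M hab hK l hl hp ∅ z' hz'Z hz'0
  have k' : pair2 l z' = pair2 l z + ∑ x ∈ cmn G a b, pair2 l (tor (tri a b x) (z s(b, x))) := by
    rw [← pair2_sum, ← pair2_add]
  rw [k] at k'
  have k'' : ∑ x ∈ cmn G a b, pair2 l (tor (tri a b x) (z s(b, x))) = 0 := by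
    refine sum_eq_zero fun x hx => ?_
    have hx' := hx
    rw [mem_cmn] at hx'
    exact pair_tor hL2M hLPE hCTZ hSEF hS3F hab hH hK hl hp hx'.1 hx'.2
      (hS x hx'.1 hx'.2) (hZ x hx)
  rw [k'', add_zero] at k'
  exact k'.symm

end DL
end

section
/-!
# MP_3ff0f8_gt, ALGEBRA HALF, module K4B: Theorem I3 for graphs with four vertices
-/
open SimpleGraph Finset

namespace DL

namespace K4BM

variable {α : Type} [Fintype α] [DecidableEq α]

/-- a cycle has at least three vertices -/
lemma three_le_vs {G : SimpleGraph α} {C : Finset (Sym2 α)} (hC : IsCyc G C) : 3 ≤ (vs C).card := by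
  obtain ⟨v, hv⟩ := vs_nonempty hC.nonempty
  obtain ⟨i, j, hij, hi, hj, -⟩ := hC.two_edges hv
  have hvi := (hC.adj_of_mem hi).ne
  have hvj := (hC.adj_of_mem hj).ne
  have h3 : ({v, i, j} : Finset α).card = 3 := card_eq_three.2 ⟨v, i, j, hvi, hvj, hij, rfl⟩
  rw [← h3]
  refine card_le_card fun x hx => ?_
  simp only [mem_insert, mem_singleton] at hx
  rcases hx with rfl | rfl | rfl
  · exact hv
  · exact right_mem_vs hi
  · exact right_mem_vs hj

/-- in a graph with at most four vertices two cycles have a common edge -/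
lemma not_disjoint {G : SimpleGraph α} (h4 : (VS G).card ≤ 4) {C D : Finset (Sym2 α)}
    (hC : IsCyc G C) (hD : IsCyc G D) : ¬ Disjoint C D := by
  intro hdis
  have hvs : Disjoint (vs C) (vs D) := by
    rw [Finset.disjoint_left]
    intro v hv hv'
    obtain ⟨i, j, hij, hi, hj, -⟩ := hC.two_edges hv
    obtain ⟨k, l, hkl, hk, hl, -⟩ := hD.two_edges hv'
    have e1 : ∀ x y, s(v, x) ∈ C → s(v, y) ∈ D → x ≠ y := by
      rintro x y hx hy rfl
      exact Finset.disjoint_left.1 hdis hx hy
    have hsub : ({i, j, k, l} : Finset α) ⊆ (VS G).erase v := by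
      intro x hx
      simp only [mem_insert, mem_singleton] at hx
      have : G.Adj v x := by
        rcases hx with rfl | rfl | rfl | rfl
        · exact hC.adj_of_mem hi
        · exact hC.adj_of_mem hj
        · exact hD.adj_of_mem hk
        · exact hD.adj_of_mem hl
      exact mem_erase.2 ⟨this.ne.symm, right_mem_VS this⟩
    have hc4 : ({i, j, k, l} : Finset α).card = 4 := by
      rw [card_insert_of_notMem, card_insert_of_notMem, card_insert_of_notMem, card_singleton]
      · simpa using hkl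
      · simp [e1 j k hj hk, e1 j l hj hl]
      · simp [hij, e1 i k hi hk, e1 i l hi hl]
    have h5 := card_le_card hsub
    rw [hc4, card_erase_of_mem (hC.vs_subset hv)] at h5
    have : 0 < (VS G).card := card_pos.2 ⟨v, hC.vs_subset hv⟩
    omega
  have h6 := card_le_card (union_subset hC.vs_subset hD.vs_subset)
  rw [card_union_of_disjoint hvs] at h6
  have := three_le_vs hC
  have := three_le_vs hD
  omega

end K4BM

open K4BM in
theorem specK4B : SpecK4B := by
  intro α _ _ G _ h4 p _ hp0 hpC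
  refine ⟨fun _ => 0, fun v => Submodule.zero_mem _, fun c hc => ?_⟩
  have : p c = 0 := by
    by_cases h0 : c = 0
    · rw [h0, hp0]
    obtain ⟨C, hC, hCc⟩ := exists_isCyc_of_ne_zero hc h0
    have hd : c + chi C ∈ Z1 G := (Z1 G).add_mem hc hC.chi_mem
    by_cases h1 : c + chi C = 0
    · have : c = chi C := by
        rw [chain_add_eq_iff, zero_add] at h1
        exact h1
      rw [this]
      exact hpC C hC
    · obtain ⟨D, hD, hDc⟩ := exists_isCyc_of_ne_zero hd h1
      rw [csupp_add_chi hCc] at hDc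
      exact absurd (Finset.disjoint_left.2 fun e he he' => (mem_sdiff.1 (hDc he')).2 he)
        (not_disjoint h4 hC hD)
  rw [this]
  simp

end DL
end

section
/-!
# Module L2M: 2-cycles of `sel G a b K` are killed
-/
open SimpleGraph Finset

namespace DL

namespace L2MM

variable {α : Type} [Fintype α] [DecidableEq α]

open Classical in
/-- the coefficients at pairs of edges `≠ ab` of `G` -/
noncomputable def res (G : SimpleGraph α) (a b : α) (l : α → α → α → α → ZMod 2) :
    α → α → α → α → ZMod 2 := fun s t u v =>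
  if G.Adj s t ∧ G.Adj u v ∧ s(s, t) ≠ s(a, b) ∧ s(u, v) ≠ s(a, b) then l s t u v else 0

/-- merged coefficients -/
noncomputable def push (a b : α) (l : α → α → α → α → ZMod 2) :
    α → α → α → α → ZMod 2 := fun s' t' u' v' =>
  ∑ x : α × α × α × α,
    if (mrg a b x.1, mrg a b x.2.1, mrg a b x.2.2.1, mrg a b x.2.2.2) = (s', t', u', v') then
      l x.1 x.2.1 x.2.2.1 x.2.2.2 else 0

omit [DecidableEq α] in
theorem sum4 (f : α → α → α → α → ZMod 2) :
    ∑ a, ∑ b, ∑ c, ∑ d, f a b c d = ∑ x : α × α × α × α, f x.1 x.2.1 x.2.2.1 x.2.2.2 := by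
  simp only [Fintype.sum_prod_type]

theorem sum_push (a b : α) (l g : α → α → α → α → ZMod 2) :
    ∑ s, ∑ t, ∑ u, ∑ v, push a b l s t u v * g s t u v =
      ∑ s, ∑ t, ∑ u, ∑ v, l s t u v * g (mrg a b s) (mrg a b t) (mrg a b u) (mrg a b v) := by
  rw [sum4 fun s t u v => push a b l s t u v * g s t u v,
    sum4 fun s t u v => l s t u v * g (mrg a b s) (mrg a b t) (mrg a b u) (mrg a b v)]
  simp only [push, Finset.sum_mul]
  rw [Finset.sum_comm]
  refine sum_congr rfl fun x _ => ?_
  rw [Finset.sum_eq_single (mrg a b x.1, mrg a b x.2.1, mrg a b x.2.2.1, mrg a b x.2.2.2)]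
  · rw [if_pos rfl]
  · intro y _ hy
    rw [if_neg, zero_mul]
    intro h
    exact hy h.symm
  · intro h
    exact absurd (mem_univ _) h

theorem res_mul_congr {G : SimpleGraph α} {a b : α} {l g h : α → α → α → α → ZMod 2}
    (hgh : ∀ s t u v, G.Adj s t → G.Adj u v → s(s, t) ≠ s(a, b) → s(u, v) ≠ s(a, b) →
      g s t u v = h s t u v)
    (hl : ∀ s t u v, l s t u v ≠ 0 → s(s, t) ≠ s(a, b) ∧ s(u, v) ≠ s(a, b))
    (hh : ∀ s t u v, h s t u v ≠ 0 → G.Adj s t ∧ G.Adj u v) :
    ∑ s, ∑ t, ∑ u, ∑ v, res G a b l s t u v * g s t u v =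
      ∑ s, ∑ t, ∑ u, ∑ v, l s t u v * h s t u v := by
  refine sum_congr rfl fun s _ => sum_congr rfl fun t _ => sum_congr rfl fun u _ =>
    sum_congr rfl fun v _ => ?_
  rw [res]
  split_ifs with h1
  · rw [hgh s t u v h1.1 h1.2.1 h1.2.2.1 h1.2.2.2]
  · rw [zero_mul]
    by_cases hl0 : l s t u v = 0
    · rw [hl0, zero_mul]
    by_cases hh0 : h s t u v = 0
    · rw [hh0, mul_zero]
    exact absurd ⟨(hh s t u v hh0).1, (hh s t u v hh0).2, (hl s t u v hl0).1,
      (hl s t u v hl0).2⟩ h1

end L2MM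

open L2MM in
theorem specL2M (hPOL : SpecPOL) (hCTA : SpecCTA) (hCTB : SpecCTB) (hCTZ : SpecCTZ)
    (hSEF : SpecSEF) : SpecL2M := by
  intro α _ _ G a b hab hKZ l hl ⟨p, hp, hp0, hpl⟩ K z hz hz0
  obtain ⟨hab', hN, hH⟩ := hSEF.adj K hab
  set G' := sel G a b K with hG'
  rw [← hH] at hKZ
  -- cubic
  have hadd : ∀ c d, lft G' a b (c + d) = lft G' a b c + lft G' a b d :=
    fun c d => (hCTA.lin G' a b c d).1
  let L : Chain α →+ Chain α := AddMonoidHom.mk' (lft G' a b) hadd
  have hInP3 : InP3 (contr G' a b)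
      (fun C => ∑ s, ∑ t, ∑ u, ∑ v, push a b (res G' a b l) s t u v * coh s t u v C) := by
    refine ⟨fun c => p (L c), hPOL.comp L hp, ?_, ?_⟩
    · show p (L 0) = 0
      rw [map_zero, hp0]
    · intro D hD
      obtain ⟨C, hC, hCD⟩ := hCTA.cl hab' hN D hD
      show _ = p (lft G' a b (chi D))
      rw [← hCD, ← hpl C ⟨hC.1.mono (hSEF.le G a b K), hC.2⟩]
      show ∑ s, ∑ t, ∑ u, ∑ v, push a b (res G' a b l) s t u v * coh s t u v D = _
      rw [sum_push a b (res G' a b l) fun s t u v => coh s t u v D]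
      rw [cohs]
      refine res_mul_congr (g := fun s t u v => coh (mrg a b s) (mrg a b t) (mrg a b u)
        (mrg a b v) D) (h := fun s t u v => coh s t u v C) ?_ hl ?_
      · intro s t u v h1 h2 h3 h4
        exact (hCTB hab' hN C D hC hD hCD s t u v h1 h2 h3 h4).symm
      · intro s t u v h
        obtain ⟨h1, h2, -⟩ := coh_ne_zero.1 h
        exact ⟨hC.1.adj_of_mem h1, hC.1.adj_of_mem h2⟩
  obtain ⟨w, hw, hzw⟩ := hCTZ.down hab' hN z hz hz0
  have h1 := hKZ _ hInP3 w hw
  rw [sum_push a b (res G' a b l) fun s t u v => w s(s, t) s(u, v)] at h1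
  rw [pair2, ← h1]
  symm
  refine res_mul_congr (g := fun s t u v => w s(mrg a b s, mrg a b t) s(mrg a b u, mrg a b v))
    (h := fun s t u v => z s(s, t) s(u, v)) ?_ hl ?_
  · intro s t u v h1 h2 h3 h4
    have := hzw s(s, t) h1 s(u, v) h2 h3 h4
    rw [Sym2.map_mk, Sym2.map_mk] at this
    exact this.symm
  · intro s t u v h
    obtain ⟨h1, h2, -⟩ := hz.2.1 _ _ h
    exact ⟨h1, h2⟩

end DL
end

section
/-!
MP_3ff0f8_gt, ALGEBRA HALF, EX/K block, module LPE (helper77): COROLLARY L' from LEX.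
-/
open SimpleGraph Finset

namespace DL

namespace LPEM

set_option linter.unusedSectionVars false

variable {α : Type} [Fintype α] [DecidableEq α] {G : SimpleGraph α}

theorem zero_of_mem {S : Finset α} {Z : Chain α} (hZ : Z ∈ Z1 (del G S)) {v : α} (hv : v ∈ S)
    {e : Sym2 α} (he : v ∈ e) : Z e = 0 := by
  by_contra h
  have := hZ.1 e h
  induction e using Sym2.ind with
  | _ a b =>
    obtain ⟨_, ha, hb⟩ := this
    rw [Sym2.mem_iff] at he
    rcases he with rfl | rfl
    · exact ha hv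
    · exact hb hv

theorem edge_of_ne {S : Finset α} {Z : Chain α} (hZ : Z ∈ Z1 (del G S)) {e : Sym2 α} (he : Z e ≠ 0) :
    e ∈ G.edgeSet ∧ ∀ v ∈ S, v ∉ e := by
  refine ⟨?_, fun v hv hve => he (zero_of_mem hZ hv hve)⟩
  have := hZ.1 e he
  induction e using Sym2.ind with
  | _ a b => exact this.1

theorem bdy_zr {Z : Chain α} (hZ : Z ∈ Z1 G) (v : α) :
    ∑ f ∈ univ.filter (fun f => v ∈ f), Z f = 0 := by
  have := hZ.2 v
  rw [bdy_eq] at this
  convert this

theorem sum_pair {a b : α} (hab : a ≠ b) (v : α) (c : ZMod 2) :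
    ∑ f ∈ univ.filter (fun f => v ∈ f), (if f = s(a, b) then c else 0) =
      (if v = a then c else 0) + if v = b then c else 0 := by
  rw [sum_ite_eq']
  simp only [mem_filter, mem_univ, true_and, Sym2.mem_iff]
  by_cases h1 : v = a
  · subst h1; simp [hab]
  · by_cases h2 : v = b
    · subst h2; simp [h1]
    · simp [h1, h2]

end LPEM

open LPEM in
theorem specLPE (hLEX : SpecLEX) : SpecLPE where
  edge := by
    intro α _ _ G a b hab hS ha hb Z hZ
    have hne : a ≠ b := hab.ne
    have hle : ∀ w, w = a ∨ w = b → del G {a, b} ≤ del (delE G a b) {w} := by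
      rintro w hw u v ⟨huv, hu, hv⟩
      simp only [mem_insert, mem_singleton, not_or] at hu hv
      refine ⟨?_, ?_, ?_⟩
      · simp only [delE, deleteEdges_adj, Set.mem_singleton_iff]
        refine ⟨huv, fun h => ?_⟩
        rw [Sym2.eq_iff] at h
        rcases h with ⟨h, _⟩ | ⟨h, _⟩
        · exact hu.1 h
        · exact hu.2 h
      · rcases hw with rfl | rfl
        · simpa using hu.1
        · simpa using hu.2
      · rcases hw with rfl | rfl
        · simpa using hv.1
        · simpa using hv.2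
    set la : α → Chain α := fun w => if w = a ∨ w = b then Z else 0 with hla
    obtain ⟨zJ, s1, s2, s3⟩ := hLEX (delE G a b) hS la (by
        intro w
        simp only [hla]
        split_ifs with h
        · exact Z1_mono (hle w h) hZ
        · exact Submodule.zero_mem _) (by
        intro w hw
        simp only [hla]
        rw [if_neg]
        rintro (rfl | rfl)
        · exact hw ha
        · exact hw hb) (by
        have : ∀ w, la w = (if w = a then Z else 0) + if w = b then Z else 0 := by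
          intro w
          simp only [hla]
          by_cases h1 : w = a
          · subst h1; simp [hne]
          · by_cases h2 : w = b
            · subst h2; simp [h1]
            · simp [h1, h2]
        rw [sum_congr rfl fun w _ => this w, sum_add_distrib, sum_ite_eq', sum_ite_eq']
        simp only [mem_univ, if_true]
        exact chain_add_self Z)
    have hzab : ∀ f, zJ s(a, b) f = 0 := by
      intro f
      by_contra h
      have := (s2 _ _ h).1
      simp [delE] at this
    refine ⟨fun e f => zJ e f + (if e = s(a, b) then Z f else 0) + (if f = s(a, b) then Z e else 0),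
      ⟨?_, ?_, ?_⟩, ?_⟩
    · intro e f
      dsimp only
      rw [s1 e f]
      abel
    · intro e f h
      dsimp only at h
      by_cases h1 : zJ e f = 0
      · rw [h1, zero_add] at h
        by_cases h2 : e = s(a, b) ∧ Z f ≠ 0
        · obtain ⟨rfl, h2⟩ := h2
          have := edge_of_ne hZ h2
          refine ⟨hab, this.1, fun v hv => ?_⟩
          have hv1 := hv.1
          rw [Sym2.mem_iff] at hv1
          exact this.2 v (by simpa using hv1) hv.2
        · have h3 : f = s(a, b) ∧ Z e ≠ 0 := by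
            by_contra h3
            apply h
            have e1 : (if e = s(a, b) then Z f else 0) = 0 := by
              split_ifs with h4
              · by_contra h5; exact h2 ⟨h4, h5⟩
              · rfl
            have e2 : (if f = s(a, b) then Z e else 0) = 0 := by
              split_ifs with h4
              · by_contra h5; exact h3 ⟨h4, h5⟩
              · rfl
            rw [e1, e2, add_zero]
          obtain ⟨rfl, h3⟩ := h3
          have := edge_of_ne hZ h3
          refine ⟨this.1, hab, fun v hv => ?_⟩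
          have hv2 := hv.2
          rw [Sym2.mem_iff] at hv2
          exact this.2 v (by simpa using hv2) hv.1
      · obtain ⟨h2, h3, h4⟩ := s2 _ _ h1
        refine ⟨?_, ?_, h4⟩
        · simp only [delE, edgeSet_deleteEdges] at h2; exact h2.1
        · simp only [delE, edgeSet_deleteEdges] at h3; exact h3.1
    · intro e v hv
      have h1 : ∑ f ∈ univ.filter (fun f => v ∈ f), (zJ e f + (if e = s(a, b) then Z f else 0) +
          (if f = s(a, b) then Z e else 0)) = 0 := by
        rw [sum_add_distrib, sum_add_distrib, s3 v e hv, sum_pair hne]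
        have h2 : ∑ f ∈ univ.filter (fun f => v ∈ f), (if e = s(a, b) then Z f else 0) = 0 := by
          by_cases h3 : e = s(a, b)
          · simp only [h3, if_true]
            exact bdy_zr hZ v
          · simp [h3]
        rw [h2, add_zero]
        simp only [hla]
        by_cases h1 : v = a
        · subst h1; simp [hne, zmod2_add_self]
        · by_cases h2 : v = b
          · subst h2; simp [h1, zmod2_add_self]
          · simp [h1, h2]
      convert h1
    · intro f
      dsimp only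
      rw [hzab, if_pos rfl, zero_add]
      have : Z s(a, b) = 0 := zero_of_mem hZ (v := a) (by simp) (by simp)
      rw [this]
      simp
  star := by
    intro α _ _ G u hS la h1 h2 h3
    have hu0 : la u = 0 := by
      by_contra h
      exact (h2 u h).1.ne rfl
    have hdd : ∀ w, del (del G {u}) {w} = del G {u, w} := by
      intro w
      ext x y
      simp only [del, mem_singleton, mem_insert, not_or]
      tauto
    obtain ⟨zJ, s1, s2, s3⟩ := hLEX (del G {u}) hS la (by
        intro w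
        rw [hdd]
        exact h1 w) (by
        intro w hw
        by_contra h
        exact hw (h2 w h).2) h3
    have hzu : ∀ e f, u ∈ e → zJ e f = 0 := by
      intro e f hue
      by_contra h
      have := (s2 _ _ h).1
      induction e using Sym2.ind with
      | _ x y =>
        obtain ⟨_, hx, hy⟩ := this
        rw [Sym2.mem_iff] at hue
        rcases hue with rfl | rfl
        · exact hx (by simp)
        · exact hy (by simp)
    refine ⟨fun e f => zJ e f + ∑ w, (if e = s(u, w) then la w f else 0) +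
      ∑ w, (if f = s(u, w) then la w e else 0), ⟨?_, ?_, ?_⟩, ?_⟩
    · intro e f
      dsimp only
      rw [s1 e f]
      abel
    · intro e f h
      dsimp only at h
      by_cases g1 : zJ e f = 0
      · rw [g1, zero_add] at h
        by_cases g2 : ∃ w, e = s(u, w) ∧ la w f ≠ 0
        · obtain ⟨w, rfl, g2⟩ := g2
          have := edge_of_ne (h1 w) g2
          have hw : la w ≠ 0 := fun hh => g2 (by rw [hh]; rfl)
          refine ⟨(h2 w hw).1, this.1, fun v hv => ?_⟩
          have hv1 := hv.1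
          rw [Sym2.mem_iff] at hv1
          exact this.2 v (by simpa using hv1) hv.2
        · have g3 : ∃ w, f = s(u, w) ∧ la w e ≠ 0 := by
            by_contra g3
            apply h
            rw [sum_eq_zero, sum_eq_zero, add_zero]
            · intro w _
              split_ifs with h4
              · by_contra h5; exact g3 ⟨w, h4, h5⟩
              · rfl
            · intro w _
              split_ifs with h4
              · by_contra h5; exact g2 ⟨w, h4, h5⟩
              · rfl
          obtain ⟨w, rfl, g3⟩ := g3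
          have := edge_of_ne (h1 w) g3
          have hw : la w ≠ 0 := fun hh => g3 (by rw [hh]; rfl)
          refine ⟨this.1, (h2 w hw).1, fun v hv => ?_⟩
          have hv2 := hv.2
          rw [Sym2.mem_iff] at hv2
          exact this.2 v (by simpa using hv2) hv.1
      · obtain ⟨g2, g3, g4⟩ := s2 _ _ g1
        refine ⟨?_, ?_, g4⟩
        · induction e using Sym2.ind with
          | _ x y => exact g2.1
        · induction f using Sym2.ind with
          | _ x y => exact g3.1
    · intro e v hv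
      have k1 : ∑ f ∈ univ.filter (fun f => v ∈ f), (zJ e f + ∑ w, (if e = s(u, w) then la w f else 0) +
          ∑ w, (if f = s(u, w) then la w e else 0)) = 0 := by
        rw [sum_add_distrib, sum_add_distrib, s3 v e hv, sum_comm]
        have k2 : ∑ w, ∑ f ∈ univ.filter (fun f => v ∈ f), (if e = s(u, w) then la w f else 0) = 0 := by
          refine sum_eq_zero fun w _ => ?_
          by_cases k3 : e = s(u, w)
          · simp only [k3, if_true]
            exact bdy_zr (h1 w) v
          · simp [k3]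
        rw [k2, add_zero, sum_comm]
        have k3 : ∀ w, ∑ f ∈ univ.filter (fun f => v ∈ f), (if f = s(u, w) then la w e else 0) =
            (if v = u then la w e else 0) + if v = w then la w e else 0 := by
          intro w
          by_cases hw : u = w
          · subst hw
            rw [hu0]
            simp
          · exact sum_pair hw v _
        rw [sum_congr rfl fun w _ => k3 w, sum_add_distrib, sum_ite_eq]
        simp only [mem_univ, if_true]
        have k4 : ∑ w, (if v = u then la w e else 0) = 0 := by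
          by_cases hvu : v = u
          · simp only [hvu, if_true]
            have := congrFun h3 e
            rwa [Finset.sum_apply] at this
          · simp [hvu]
        rw [k4, zero_add, zmod2_add_self]
      convert k1
    · intro w f hw
      dsimp only
      rw [hzu _ _ (by simp), zero_add, sum_eq_single w]
      · rw [if_pos rfl, sum_eq_zero, add_zero]
        intro x _
        split_ifs with h
        · exact zero_of_mem (h1 x) (v := u) (by simp) (by simp)
        · rfl
      · intro x _ hx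
        rw [if_neg]
        intro h
        rw [Sym2.eq_iff] at h
        rcases h with ⟨_, h⟩ | ⟨h, h'⟩
        · exact hx h.symm
        · exact hx (h ▸ h'.symm ▸ rfl)
      · simp

end DL
end

section
/-!
MP_3ff0f8_gt, ALGEBRA HALF, module LTR: four terminals and a set of edges of small degree.
-/
open SimpleGraph Finset

namespace DL.LTRM

variable {α : Type} [Fintype α] [DecidableEq α] {H : SimpleGraph α}

/-- the degree -/
def dg (T : Finset (Sym2 α)) (w : α) : ℕ := (T.filter fun e => w ∈ e).card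

theorem dg_union (S T : Finset (Sym2 α)) (w : α) : dg (S ∪ T) w ≤ dg S w + dg T w := by
  unfold dg
  rw [filter_union]
  exact card_union_le _ _

theorem dg_mono {S T : Finset (Sym2 α)} (h : S ⊆ T) (w : α) : dg S w ≤ dg T w :=
  card_le_card (filter_subset_filter _ h)

theorem dg_zero {T : Finset (Sym2 α)} {w : α} (h : w ∉ vs T) : dg T w = 0 := by
  unfold dg
  rw [card_eq_zero, filter_eq_empty_iff]
  intro e he hw
  exact h (mem_vs.2 ⟨e, he, hw⟩)

theorem dg_left {s t : α} {P : Finset (Sym2 α)} (h : IsPth H s t P) : dg P s ≤ 1 := by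
  unfold dg
  rw [card_le_one]
  intro e he f hf
  rw [mem_filter] at he hf
  obtain ⟨x, rfl⟩ := he.2
  obtain ⟨y, rfl⟩ := hf.2
  rw [h.left_unique he.1 hf.1]

theorem dg_right {s t : α} {P : Finset (Sym2 α)} (h : IsPth H s t P) : dg P t ≤ 1 :=
  dg_left h.symm

theorem dg_two {s t : α} {P : Finset (Sym2 α)} (h : IsPth H s t P) (w : α) : dg P w ≤ 2 := by
  by_cases hw : w ∈ vs P
  · obtain ⟨P1, P2, h1, h2, h3, -, -⟩ := h.split (Or.inr hw)
    rw [← h3]
    have := dg_union P1 P2 w
    have a1 := dg_right h1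
    have a2 := dg_left h2
    omega
  · rw [dg_zero hw]; omega

/-- the union of three sets of edges -/
theorem dg_bUnion (L : Fin 3 → Finset (Sym2 α)) (w : α) :
    dg (univ.biUnion L) w ≤ ∑ i, dg (L i) w := by
  unfold dg
  rw [filter_biUnion]
  exact card_biUnion_le

/-- only one leg -/
theorem sum_one (L : Fin 3 → Finset (Sym2 α)) {w : α} {i : Fin 3} (h : ∀ j, j ≠ i → w ∉ vs (L j)) :
    ∑ j, dg (L j) w = dg (L i) w :=
  sum_eq_single i (fun j _ hj => dg_zero (h j hj)) (fun h => absurd (mem_univ _) h)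

/-- `Y`-configuration: three legs from `z` and a path from a fourth vertex to an inner point of a leg -/
theorem yconf {z z' y : α} {x : Fin 3 → α} {L : Fin 3 → Finset (Sym2 α)} {R : Finset (Sym2 α)}
    (hL : ∀ i, IsPth H z (x i) (L i)) (hLL : ∀ i j, i ≠ j → vs (L i) ∩ vs (L j) ⊆ {z})
    (hR : IsPth H y z' R) (hz' : z' ≠ z) {i0 : Fin 3} (hi0 : z' ∈ vs (L i0))
    (hRL : ∀ i, vs R ∩ vs (L i) ⊆ {z'}) :
    ∃ T : Finset (Sym2 α), (∀ e ∈ T, e ∈ H.edgeSet) ∧ (∀ i, Rch T z (x i)) ∧ Rch T z y ∧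
      (∀ w, dg T w ≤ 3) ∧ (∀ i, dg T (x i) ≤ 2) ∧ dg T y ≤ 2 := by
  set U := univ.biUnion L with hU
  have hLU : ∀ i, L i ⊆ U := fun i => subset_biUnion_of_mem L (mem_univ i)
  -- `z` is not on `R`
  have hzi0 : z ∈ vs (L i0) := (hL i0).left_mem' (by
    rw [nonempty_iff_ne_empty]
    intro h0
    rw [h0, vs_empty] at hi0
    exact absurd hi0 (notMem_empty _))
  have hzR : z ∉ vs R := by
    intro h
    have := hRL i0 (mem_inter.2 ⟨h, hzi0⟩)
    exact hz' (mem_singleton.1 this).symm
  have hother : ∀ i, ∀ w ∈ vs (L i), w ≠ z → ∀ j, j ≠ i → w ∉ vs (L j) := by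
    intro i w hw hwz j hj hwj
    exact hwz (mem_singleton.1 (hLL j i hj (mem_inter.2 ⟨hwj, hw⟩)))
  -- bounds
  have hle : ∀ w, dg (U ∪ R) w ≤ ∑ i, dg (L i) w + dg R w := by
    intro w
    have h1 := dg_union U R w
    have h2 : dg U w ≤ ∑ i, dg (L i) w := dg_bUnion L w
    omega
  have hz3 : ∑ i, dg (L i) z ≤ 3 := by
    have h1 : ∀ i ∈ (univ : Finset (Fin 3)), dg (L i) z ≤ 1 := fun i _ => dg_left (hL i)
    have h2 := sum_le_card_nsmul univ (fun i => dg (L i) z) 1 h1
    simpa using h2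
  have main3 : ∀ w, dg (U ∪ R) w ≤ 3 := by
    intro w
    by_cases h1 : w = z
    · have := hle w
      rw [h1, dg_zero hzR] at this
      rw [h1]; omega
    · by_cases h2 : ∃ i, w ∈ vs (L i)
      · obtain ⟨i, hi⟩ := h2
        have h3 := hle w
        rw [sum_one L (hother i w hi h1)] at h3
        have h4 := dg_two (hL i) w
        by_cases h5 : w = z'
        · have h6 := dg_right hR
          rw [← h5] at h6
          omega
        · have h6 : w ∉ vs R := by
            intro h6
            exact h5 (mem_singleton.1 (hRL i (mem_inter.2 ⟨h6, hi⟩)))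
          rw [dg_zero h6] at h3
          omega
      · push Not at h2
        have h3 := hle w
        rw [sum_eq_zero fun i _ => dg_zero (h2 i)] at h3
        have := dg_two hR w
        omega
  refine ⟨U ∪ R, ?_, ?_, ?_, main3, ?_, ?_⟩
  · intro e he
    rcases mem_union.1 he with he | he
    · obtain ⟨i, -, hi⟩ := mem_biUnion.1 he
      exact (hL i).subset e hi
    · exact hR.subset e he
  · intro i
    exact (hL i).rch ((hLU i).trans subset_union_left)
  · obtain ⟨P1, P2, h1, h2, h3, -, -⟩ := (hL i0).split (Or.inr hi0)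
    have a1 : Rch (U ∪ R) z z' := h1.rch (by
      refine Subset.trans ?_ ((hLU i0).trans subset_union_left)
      rw [← h3]; exact subset_union_left)
    have a2 : Rch (U ∪ R) y z' := hR.rch subset_union_right
    exact a1.trans a2.symm
  · intro i
    by_cases h1 : x i = z
    · have h2 : L i = ∅ := by
        have := hL i
        rw [h1] at this
        exact this.eq_empty
      have h3 := hle (x i)
      rw [h1, dg_zero hzR] at h3
      have h4 : ∑ j, dg (L j) z ≤ 2 := by
        have h5 : ∀ j ∈ (univ.erase i : Finset (Fin 3)), dg (L j) z ≤ 1 := fun j _ => dg_left (hL j)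
        have h6 := sum_le_card_nsmul _ (fun j => dg (L j) z) 1 h5
        rw [card_erase_of_mem (mem_univ i), card_univ, Fintype.card_fin] at h6
        rw [← add_sum_erase univ (fun j => dg (L j) z) (mem_univ i)]
        have h7 : dg (L i) z = 0 := by rw [h2]; rfl
        rw [h7]
        simpa using h6
      rw [h1]; omega
    · have hxi : x i ∈ vs (L i) := (hL i).right_mem (Ne.symm h1)
      have h3 := hle (x i)
      rw [sum_one L (hother i (x i) hxi h1)] at h3
      have h4 := dg_right (hL i)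
      by_cases h5 : x i = z'
      · have h6 := dg_right hR
        rw [← h5] at h6
        omega
      · have h6 : x i ∉ vs R := by
          intro h6
          exact h5 (mem_singleton.1 (hRL i (mem_inter.2 ⟨h6, hxi⟩)))
        rw [dg_zero h6] at h3
        omega
  · by_cases h1 : y = z'
    · have h2 : R = ∅ := by
        rw [h1] at hR
        exact hR.eq_empty
      have h3 := hle y
      have hyz : y ≠ z := by rw [h1]; exact hz'
      have hyi : y ∈ vs (L i0) := by rw [h1]; exact hi0
      rw [sum_one L (hother i0 y hyi hyz)] at h3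
      have h4 := dg_two (hL i0) y
      have h5 : dg R y = 0 := by rw [h2]; rfl
      omega
    · have hyR : y ∈ vs R := hR.left_mem h1
      have h2 : ∀ i, y ∉ vs (L i) := by
        intro i hi
        exact h1 (mem_singleton.1 (hRL i (mem_inter.2 ⟨hyR, hi⟩)))
      have h3 := hle y
      rw [sum_eq_zero fun i _ => dg_zero (h2 i)] at h3
      have := dg_left hR
      omega

/-- a tripod -/
theorem tripod {x : Fin 3 → α} (hab : x 0 ≠ x 1) (h1 : H.Reachable (x 0) (x 1))
    (h2 : H.Reachable (x 2) (x 0)) :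
    ∃ (z : α) (L : Fin 3 → Finset (Sym2 α)), (∀ i, IsPth H z (x i) (L i)) ∧
      ∀ i j, i ≠ j → vs (L i) ∩ vs (L j) ⊆ {z} := by
  obtain ⟨a, ha⟩ : ∃ a, a = x 0 := ⟨_, rfl⟩
  obtain ⟨b, hb⟩ : ∃ b, b = x 1 := ⟨_, rfl⟩
  obtain ⟨c, hc⟩ : ∃ c, c = x 2 := ⟨_, rfl⟩
  rw [← ha, ← hb] at hab h1
  rw [← ha, ← hc] at h2
  obtain ⟨P, hP⟩ := exists_isPth h1
  obtain ⟨Q, hQ⟩ := exists_isPth h2
  have haP : a ∈ vs P := hP.left_mem hab
  have hX : c ∈ (vs P : Set α) ∨ ∃ v ∈ vs Q, v ∈ (vs P : Set α) := by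
    by_cases hca : c = a
    · left; rw [hca]; exact haP
    · right; exact ⟨a, hQ.right_mem hca, haP⟩
  obtain ⟨z, Q1, Q2, hz, hQ1, -, -, -, -, hQ1X, -⟩ := hQ.first hX
  obtain ⟨P1, P2, hP1, hP2, hPP, -, hPi⟩ := hP.split (Or.inr hz)
  have s1 : vs P1 ⊆ vs P := vs_mono (by rw [← hPP]; exact subset_union_left)
  have s2 : vs P2 ⊆ vs P := vs_mono (by rw [← hPP]; exact subset_union_right)
  refine ⟨z, ![P1, P2, Q1], ?_, ?_⟩
  · intro i
    have hi : i = 0 ∨ i = 1 ∨ i = 2 := by omega
    rcases hi with rfl | rfl | rfl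
    · rw [← ha]; exact hP1.symm
    · rw [← hb]; exact hP2
    · rw [← hc]; exact hQ1.symm
  · have k1 : vs P1 ∩ vs Q1 ⊆ {z} := fun w hw => by
      rw [mem_inter] at hw
      exact mem_singleton.2 (hQ1X w hw.2 (s1 hw.1))
    have k2 : vs P2 ∩ vs Q1 ⊆ {z} := fun w hw => by
      rw [mem_inter] at hw
      exact mem_singleton.2 (hQ1X w hw.2 (s2 hw.1))
    have k3 : vs P2 ∩ vs P1 ⊆ {z} := by rw [inter_comm]; exact hPi
    have k4 : vs Q1 ∩ vs P1 ⊆ {z} := by rw [inter_comm]; exact k1
    have k5 : vs Q1 ∩ vs P2 ⊆ {z} := by rw [inter_comm]; exact k2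
    intro i j hij
    have hi : i = 0 ∨ i = 1 ∨ i = 2 := by omega
    have hj : j = 0 ∨ j = 1 ∨ j = 2 := by omega
    rcases hi with hi | hi | hi
    · rcases hj with hj | hj | hj
      · exact absurd (hi.trans hj.symm) hij
      · rw [hi, hj]; exact hPi
      · rw [hi, hj]; exact k1
    · rcases hj with hj | hj | hj
      · rw [hi, hj]; exact k3
      · exact absurd (hi.trans hj.symm) hij
      · rw [hi, hj]; exact k2
    · rcases hj with hj | hj | hj
      · rw [hi, hj]; exact k4
      · rw [hi, hj]; exact k5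
      · exact absurd (hi.trans hj.symm) hij

end DL.LTRM

namespace DL

open LTRM

theorem specLTR : SpecLTR := by
  intro α _ _ H U t hinj htU hconn hsep
  -- it is enough to have a `Y`-configuration for a permutation of the terminals
  have fin : ∀ (i : Fin 4) (z z' : α) (L : Fin 3 → Finset (Sym2 α)) (R : Finset (Sym2 α)),
      (∀ k, IsPth H z (t (i.succAbove k)) (L k)) → (∀ k l, k ≠ l → vs (L k) ∩ vs (L l) ⊆ {z}) →
      IsPth H (t i) z' R → z' ≠ z → (∃ k, z' ∈ vs (L k)) → (∀ k, vs R ∩ vs (L k) ⊆ {z'}) →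
      ∃ T : Finset (Sym2 α), (∀ e ∈ T, e ∈ H.edgeSet) ∧ (∀ i j, Rch T (t i) (t j)) ∧
        (∀ w, (T.filter fun e => w ∈ e).card ≤ 3) ∧ ∀ i, (T.filter fun e => t i ∈ e).card ≤ 2 := by
    rintro i z z' L R h1 h2 h3 h4 ⟨k0, h5⟩ h6
    obtain ⟨T, g1, g2, g3, g4, g5, g6⟩ := yconf (x := fun k => t (i.succAbove k)) h1 h2 h3 h4 h5 h6
    have hr : ∀ j, Rch T z (t j) := by
      intro j
      rcases eq_or_ne j i with rfl | hj
      · exact g3
      · obtain ⟨k, rfl⟩ := Fin.exists_succAbove_eq hj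
        exact g2 k
    refine ⟨T, g1, fun a b => (hr a).symm.trans (hr b), g4, ?_⟩
    intro j
    rcases eq_or_ne j i with rfl | hj
    · exact g6
    · obtain ⟨k, rfl⟩ := Fin.exists_succAbove_eq hj
      exact g5 k
  -- a spider with four legs is enough
  have spider : ∀ (z : α) (L : Fin 4 → Finset (Sym2 α)), (∀ k, IsPth H z (t k) (L k)) →
      (∀ k l, k ≠ l → vs (L k) ∩ vs (L l) ⊆ {z}) →
      ∃ T : Finset (Sym2 α), (∀ e ∈ T, e ∈ H.edgeSet) ∧ (∀ i j, Rch T (t i) (t j)) ∧
        (∀ w, (T.filter fun e => w ∈ e).card ≤ 3) ∧ ∀ i, (T.filter fun e => t i ∈ e).card ≤ 2 := by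
    intro z L hL hLL
    -- two legs whose ends are connected without `z`
    have hij : ∃ i j : Fin 4, i ≠ j ∧ t i ≠ z ∧ t j ≠ z ∧ (del H {z}).Reachable (t i) (t j) := by
      obtain ⟨m, hm⟩ : ∃ m : Fin 4, ∀ k : Fin 3, t (m.succAbove k) ≠ z := by
        by_cases h : ∃ m, t m = z
        · obtain ⟨m, hm⟩ := h
          refine ⟨m, fun k hk => ?_⟩
          exact Fin.succAbove_ne m k (hinj (hk.trans hm.symm))
        · push Not at h
          exact ⟨0, fun k => h _⟩
      have hne : ∀ k l : Fin 3, k ≠ l → m.succAbove k ≠ m.succAbove l := fun k l h h' =>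
        h (Fin.succAbove_right_injective h')
      rcases hsep z _ (htU (m.succAbove 0)) _ (htU (m.succAbove 1)) _ (htU (m.succAbove 2))
        (hm 0) (hm 1) (hm 2) with h | h | h
      · exact ⟨_, _, hne 0 1 (by decide), hm 0, hm 1, h⟩
      · exact ⟨_, _, hne 0 2 (by decide), hm 0, hm 2, h⟩
      · exact ⟨_, _, hne 1 2 (by decide), hm 1, hm 2, h⟩
    obtain ⟨i, j, hij, hiz, hjz, hreach⟩ := hij
    obtain ⟨R, hR⟩ := exists_isPth hreach
    have hti : t i ∈ vs (L i) := (hL i).right_mem (Ne.symm hiz)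
    have htj : t j ∈ vs (L j) := (hL j).right_mem (Ne.symm hjz)
    have htij : t i ≠ t j := fun h => hij (hinj h)
    -- `B`: the other legs
    obtain ⟨u', R1, R1', hu', hR1, -, hRR, -, -, hR1X, -⟩ :=
      hR.first (X := {w | w ≠ z ∧ ∃ k, k ≠ i ∧ w ∈ vs (L k)})
        (Or.inr ⟨t j, hR.right_mem htij, hjz, j, hij.symm, htj⟩)
    obtain ⟨hu'z, k0, hk0, hu'k⟩ := hu'
    -- `A`: the leg `i`
    have hu'i : u' ∉ vs (L i) := fun h =>
      hu'z (mem_singleton.1 (hLL i k0 hk0.symm (mem_inter.2 ⟨h, hu'k⟩)))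
    have hne : t i ≠ u' := by
      rintro h
      exact hu'i (h ▸ hti)
    obtain ⟨u, R2, R2', hu, hR2, -, hRR2, -, -, hR2X, -⟩ :=
      hR1.symm.first (X := (vs (L i) : Set α))
        (Or.inr ⟨t i, hR1.left_mem hne, hti⟩)
    have hR2' : IsPth (del H {z}) u' u R2 := hR2
    rw [isPth_del] at hR2'
    obtain ⟨hR2H, hR2z⟩ := hR2'
    rw [disjoint_singleton_right] at hR2z
    have hu'u : u' ≠ u := by
      rintro rfl
      exact hu'i hu
    have huz : u ≠ z := by
      rintro rfl
      exact hR2z (hR2H.right_mem hu'u)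
    have hs2 : vs R2 ⊆ vs R1 := vs_mono (by rw [← hRR2]; exact subset_union_left)
    -- `R2` meets the other legs only in `u'`
    have hR2B : ∀ k, k ≠ i → vs R2 ∩ vs (L k) ⊆ {u'} := by
      intro k hk w hw
      rw [mem_inter] at hw
      refine mem_singleton.2 (hR1X w (hs2 hw.1) ⟨?_, k, hk, hw.2⟩)
      rintro rfl
      exact hR2z hw.1
    obtain ⟨M1, M2, hM1, hM2, hMM, -, hMi⟩ := (hL i).split (Or.inr hu)
    have hM2s : vs M2 ⊆ vs (L i) := vs_mono (by rw [← hMM]; exact subset_union_right)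
    have hzM2 : z ∉ vs M2 := by
      intro h
      have hz1 : z ∈ vs M1 := hM1.left_mem (Ne.symm huz)
      exact huz (mem_singleton.1 (hMi (mem_inter.2 ⟨hz1, h⟩))).symm
    -- the path from `t i` to `u'`
    have hpath : IsPth H (t i) u' (M2 ∪ R2) := by
      refine hM2.symm.append hR2H.symm ?_
      intro w hw
      rw [mem_inter] at hw
      exact mem_singleton.2 (hR2X w hw.2 (hM2s hw.1))
    refine fin i z u' (fun k => L (i.succAbove k)) (M2 ∪ R2) (fun k => hL _) ?_ hpath hu'z ?_ ?_
    · intro k l hkl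
      exact hLL _ _ fun h => hkl (Fin.succAbove_right_injective h)
    · obtain ⟨k, rfl⟩ := Fin.exists_succAbove_eq hk0
      exact ⟨k, hu'k⟩
    · intro k w hw
      rw [mem_inter, vs_union, mem_union] at hw
      have hk : i.succAbove k ≠ i := Fin.succAbove_ne i k
      rcases hw.1 with h | h
      · exfalso
        have := mem_singleton.1 (hLL _ i hk (mem_inter.2 ⟨hw.2, hM2s h⟩))
        rw [this] at h
        exact hzM2 h
      · exact hR2B _ hk (mem_inter.2 ⟨h, hw.2⟩)
  -- the tripod for `t 0, t 1, t 2`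
  have h01 : t (Fin.castSucc (0 : Fin 3)) ≠ t (Fin.castSucc (1 : Fin 3)) :=
    fun h => absurd (hinj h) (by decide)
  obtain ⟨z, L, hL, hLL⟩ := tripod (x := fun k : Fin 3 => t k.castSucc) h01
    (hconn _ (htU _) _ (htU _)) (hconn _ (htU _) _ (htU _))
  obtain ⟨Q, hQ⟩ := exists_isPth (hconn _ (htU (Fin.last 3)) _ (htU (Fin.castSucc (0 : Fin 3))))
  have h30 : t (Fin.last 3) ≠ t (Fin.castSucc (0 : Fin 3)) := fun h => absurd (hinj h) (by decide)
  have hL0 := hL 0
  have hL1 := hL 1
  -- `t 0` is on the tripod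
  have hz0 : ∃ k, t (Fin.castSucc (0 : Fin 3)) ∈ vs (L k) := by
    by_cases hzt : z = t (Fin.castSucc (0 : Fin 3))
    · refine ⟨1, ?_⟩
      have h1 : z ≠ t (Fin.castSucc (1 : Fin 3)) := by rw [hzt]; exact h01
      have h2 := hL1.left_mem h1
      rw [hzt] at h2
      exact h2
    · exact ⟨0, hL0.right_mem hzt⟩
  obtain ⟨k0, hk0⟩ := hz0
  obtain ⟨z', R, R', hz', hR, -, -, -, -, hRX, hR3⟩ :=
    hQ.first (X := {w | ∃ k, w ∈ vs (L k)}) (Or.inr ⟨_, hQ.right_mem h30, k0, hk0⟩)
  obtain ⟨k1, hk1⟩ := hz'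
  have hRL : ∀ k, vs R ∩ vs (L k) ⊆ {z'} := by
    intro k w hw
    rw [mem_inter] at hw
    exact mem_singleton.2 (hRX w hw.1 ⟨k, hw.2⟩)
  by_cases hzz : z' = z
  · -- a spider
    rw [hzz] at hRL hR
    have k1 : ∀ k, vs (L k) ∩ vs R ⊆ {z} := fun k => by rw [inter_comm]; exact hRL k
    refine spider z (fun k : Fin 4 => if h : (k : ℕ) < 3 then L ⟨k, h⟩ else R) ?_ ?_
    · intro k
      by_cases h : (k : ℕ) < 3
      · have h1 := hL ⟨k, h⟩
        have h2 : Fin.castSucc (⟨k, h⟩ : Fin 3) = k := Fin.ext rfl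
        simp only [h2] at h1
        simp only [dif_pos h]
        exact h1
      · have h2 : k = Fin.last 3 := by
          apply Fin.ext
          have := k.2
          simp only [Fin.val_last]
          omega
        simp only [dif_neg h]
        rw [h2]
        exact hR.symm
    · intro k l hkl
      by_cases h : (k : ℕ) < 3
      · by_cases h' : (l : ℕ) < 3
        · simp only [dif_pos h, dif_pos h']
          exact hLL _ _ fun he => hkl (Fin.ext (Fin.mk.inj he))
        · simp only [dif_pos h, dif_neg h']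
          exact k1 _
      · by_cases h' : (l : ℕ) < 3
        · simp only [dif_neg h, dif_pos h']
          exact hRL _
        · exfalso
          apply hkl
          apply Fin.ext
          have := k.2
          have := l.2
          omega
  · refine fin (Fin.last 3) z z' L R ?_ hLL hR hzz ⟨k1, hk1⟩ hRL
    intro k
    rw [Fin.succAbove_last]
    exact hL k

end DL
end

section
/-!
# MP_3ff0f8_gt, ALGEBRA HALF, module ME: Theorem ME
-/
open SimpleGraph Finset

namespace DL

namespace MEM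

variable {α : Type} [Fintype α] [DecidableEq α]

lemma mem_cmn {G : SimpleGraph α} {a b x : α} : x ∈ cmn G a b ↔ G.Adj a x ∧ G.Adj b x := by
  simp [cmn]

lemma d4even_add {G : SimpleGraph α} {f g : Finset (Sym2 α) → ZMod 2} (hf : D4even G f)
    (hg : D4even G g) : D4even G fun C => f C + g C := fun D => by
  rw [sum_add_distrib, hf D, hg D, add_zero]

lemma inF_add (hPOL : SpecPOL) {G : SimpleGraph α} {f : Finset (Sym2 α) → ZMod 2} (hf : InF G f)
    {p : Chain α → ZMod 2} (hp : DegLE 3 p) (hp0 : p 0 = 0) : InF G fun C => f C + p (chi C) := by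
  obtain ⟨p₀, h1, h2, l, h3⟩ := hf
  refine ⟨fun c => p₀ c + p c, hPOL.add h1 hp, by simp only [h2, hp0, add_zero], l, fun C hC => ?_⟩
  simp only [h3 C hC]
  ring

/-- the cycles of the `D_4` minor with at most one edge `bz` -/
lemma at_most_one {G : SimpleGraph α} {a b x y : α} (hab : G.Adj a b) (hx : x ∈ cmn G a b)
    (hy : y ∈ cmn G a b) {P : Finset (Sym2 α)} (hP : IsPth (del G {a, b}) x y P)
    {C : Finset (Sym2 α)} (hC : IsCyc G C) {e2 e3 : Bool} (he : ¬ (e2 = true ∧ e3 = true))
    (hCe : C = P ∪ {s(if e3 then b else a, x), s(if e2 then b else a, y)} ∪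
      if e3 = e2 then ∅ else {s(a, b)}) :
    CycM G a b C ∧ ∀ z z', z ∈ cmn G a b → z' ∈ cmn G a b → s(b, z) ∈ C → s(b, z') ∈ C →
      z = z' := by
  have hbP : b ∉ vs P := fun h =>
    Finset.disjoint_left.1 (vs_of_isPth_del hP) h (by simp)
  have hxb : b ≠ x := (mem_cmn.1 hx).2.ne
  have hyb : b ≠ y := (mem_cmn.1 hy).2.ne
  have hza : ∀ z ∈ cmn G a b, z ≠ a := fun z hz => (mem_cmn.1 hz).1.ne.symm
  have h1 : ∀ z, s(b, z) ∉ P := fun z h => hbP (left_mem_vs h)
  have h2 : ∀ z ∈ cmn G a b, s(b, z) ≠ s(a, b) := by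
    intro z hz e
    rw [Sym2.eq_iff] at e
    rcases e with e | e
    · exact hab.ne e.1.symm
    · exact hza z hz e.2
  have h3 : ∀ z u, u ≠ b → s(b, z) ≠ s(a, u) := by
    intro z u hu e
    rw [Sym2.eq_iff] at e
    rcases e with e | e
    · exact hab.ne e.1.symm
    · exact hu e.1.symm
  cases e3 with
  | false =>
    cases e2 with
    | false =>
      simp only [if_true, union_empty, Bool.false_eq_true, if_false] at hCe
      have hnb : b ∉ vs C := by
        intro h
        obtain ⟨e, he, hbe⟩ := mem_vs.1 h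
        obtain ⟨z, rfl⟩ := Sym2.mem_iff_exists.1 hbe
        rw [hCe, mem_union, mem_insert, mem_singleton] at he
        rcases he with he | he | he
        · exact h1 z he
        · exact h3 z x hxb.symm he
        · exact h3 z y hyb.symm he
      exact ⟨⟨hC, fun _ h => absurd h hnb⟩, fun z z' _ _ h => absurd (left_mem_vs h) hnb⟩
    | true =>
      simp only [Bool.false_eq_true, if_false, if_true] at hCe
      refine ⟨⟨hC, fun _ _ => by rw [hCe]; simp⟩, fun z z' hz hz' h h' => ?_⟩
      have key : ∀ z ∈ cmn G a b, s(b, z) ∈ C → z = y := by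
        intro z hz h
        rw [hCe, mem_union, mem_union, mem_insert, mem_singleton, mem_singleton] at h
        rcases h with (h | h | h) | h
        · exact absurd h (h1 z)
        · exact absurd h (h3 z x hxb.symm)
        · exact Sym2.congr_right.1 h
        · exact absurd h (h2 z hz)
      rw [key z hz h, key z' hz' h']
  | true =>
    cases e2 with
    | false =>
      simp only [Bool.true_eq_false, Bool.false_eq_true, if_false, if_true] at hCe
      refine ⟨⟨hC, fun _ _ => by rw [hCe]; simp⟩, fun z z' hz hz' h h' => ?_⟩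
      have key : ∀ z ∈ cmn G a b, s(b, z) ∈ C → z = x := by
        intro z hz h
        rw [hCe, mem_union, mem_union, mem_insert, mem_singleton, mem_singleton] at h
        rcases h with (h | h | h) | h
        · exact absurd h (h1 z)
        · exact Sym2.congr_right.1 h
        · exact absurd h (h3 z y hyb.symm)
        · exact absurd h (h2 z hz)
      rw [key z hz h, key z' hz' h']
    | true => exact absurd ⟨rfl, rfl⟩ he

/-- the affine function on the paths from `x` to `y` -/
lemma affine (hDCB : SpecDCB) (hD4C : SpecD4C) (hRT1 : SpecRT1) {G : SimpleGraph α} {a b : α}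
    (hab : G.Adj a b) {g : Finset (Sym2 α) → ZMod 2} (hg : D4even G g)
    (hg0 : ∀ C, CycM G a b C → (∀ x y, x ∈ cmn G a b → y ∈ cmn G a b → s(b, x) ∈ C → s(b, y) ∈ C →
      x = y) → g C = 0) {x y : α} (hx : x ∈ cmn G a b) (hy : y ∈ cmn G a b) (hxy : x ≠ y) :
    ∃ (w0 : ZMod 2) (w : Chain α), ∀ P, IsPth (del G {a, b}) x y P →
      g (P ∪ {s(b, x), s(b, y)}) = w0 + ∑ h ∈ P, w h := by
  refine hRT1 (del G {a, b}) x y hxy (fun P => g (P ∪ {s(b, x), s(b, y)})) fun K => ?_
  obtain ⟨D, hD⟩ := hD4C hab (mem_cmn.1 hx).1 (mem_cmn.1 hx).2 (mem_cmn.1 hy).1 (mem_cmn.1 hy).2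
    hxy K
  rw [← hg D]
  refine Finset.sum_of_injOn (fun e' : Fin 2 → Bool => ![e' 0, e' 1, true, true]) ?_ ?_ ?_ ?_
  · intro e₁ _ e₂ _ h
    funext i
    fin_cases i
    · exact congrFun h 0
    · exact congrFun h 1
  · intro e _
    simp
  · intro e _ he
    have hne : ¬ (e 2 = true ∧ e 3 = true) := by
      rintro ⟨h2, h3⟩
      apply he
      refine ⟨fun i => if i = 0 then e 0 else e 1, by simp, ?_⟩
      funext i
      fin_cases i
      · rfl
      · rfl
      · exact h2.symm
      · exact h3.symm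
    have h1 := at_most_one hab hx hy (hDCB.pth K ![e 0, e 1]).1 (hDCB.cyc D e).1 hne (hD e)
    exact hg0 _ h1.1 h1.2
  · intro e _
    have h1 : (![(![e 0, e 1, true, true] : Fin 4 → Bool) 0,
        (![e 0, e 1, true, true] : Fin 4 → Bool) 1] : Fin 2 → Bool) = e := by
      funext i
      fin_cases i
      · rfl
      · rfl
    rw [hD, h1]
    simp

end MEM

open MEM in
theorem specME (hMEB : SpecMEB) (hD4C : SpecD4C) (hDCB : SpecDCB) (hRT1 : SpecRT1)
    (hFEV : SpecFEV) (hPOL : SpecPOL) : SpecME := by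
  classical
  intro α _ _ G a b hab hH hU hx f hf
  obtain ⟨φ₀, hφ₀, hfφ⟩ := hMEB hab hH hU hx f hf
  set g : Finset (Sym2 α) → ZMod 2 := fun C => f C + φ₀ C with hgd
  have hg : D4even G g := d4even_add hf (hFEV G φ₀ hφ₀)
  have hg0 : ∀ C, CycM G a b C → (∀ x y, x ∈ cmn G a b → y ∈ cmn G a b → s(b, x) ∈ C →
      s(b, y) ∈ C → x = y) → g C = 0 := by
    intro C hC h
    simp only [hgd]
    rw [hfφ C hC h, zmod2_add_self]
  have hw : ∀ x y, ∃ (w0 : ZMod 2) (w : Chain α), x ∈ cmn G a b → y ∈ cmn G a b → x ≠ y →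
      ∀ P, IsPth (del G {a, b}) x y P → g (P ∪ {s(b, x), s(b, y)}) = w0 + ∑ h ∈ P, w h := by
    intro x y
    by_cases h : x ∈ cmn G a b ∧ y ∈ cmn G a b ∧ x ≠ y
    · obtain ⟨w0, w, h1⟩ := affine hDCB hD4C hRT1 hab hg hg0 h.1 h.2.1 h.2.2
      exact ⟨w0, w, fun _ _ _ => h1⟩
    · exact ⟨0, 0, fun h1 h2 h3 => absurd ⟨h1, h2, h3⟩ h⟩
  choose w0 w hw using hw
  set w' : α → α → Chain α := fun x y h => if h ∈ (del G {a, b}).edgeSet then w x y h else 0
    with hw'
  set r : α → ℕ := fun x => (Fintype.equivFin α x : ℕ) with hr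
  have hrinj : Function.Injective r := fun x y h =>
    (Fintype.equivFin α).injective (Fin.ext h)
  set p : Chain α → ZMod 2 := fun c => ∑ x, ∑ y,
    if x ∈ cmn G a b ∧ y ∈ cmn G a b ∧ r x < r y then
      c s(b, x) * c s(b, y) * (w0 x y + ∑ h, w' x y h * c h) else 0 with hp
  have hlin : ∀ e : Sym2 α, DegLE 1 fun c : Chain α => c e := fun e =>
    hPOL.ofAdd fun _ _ => rfl
  have hpdeg : DegLE 3 p := by
    rw [hp]
    refine hPOL.sum univ (fun (x : α) (c : Chain α) => ∑ y, if x ∈ cmn G a b ∧ y ∈ cmn G a b ∧ r x < r y then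
      c s(b, x) * c s(b, y) * (w0 x y + ∑ h, w' x y h * c h) else 0) fun x _ => ?_
    refine hPOL.sum univ (fun (y : α) (c : Chain α) => if x ∈ cmn G a b ∧ y ∈ cmn G a b ∧ r x < r y then
      c s(b, x) * c s(b, y) * (w0 x y + ∑ h, w' x y h * c h) else 0) fun y _ => ?_
    split_ifs with h
    · refine hPOL.mul (d := 2) (e := 1) (hPOL.mul (d := 1) (e := 1) (hlin _) (hlin _)) ?_
      refine hPOL.add (hPOL.const 1 _) ?_
      refine hPOL.sum univ (fun (h : Sym2 α) (c : Chain α) => w' x y h * c h) fun h _ => ?_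
      exact hPOL.mul (d := 0) (e := 1) (hPOL.const 0 _) (hlin h)
    · exact hPOL.zero 3
  have hp0 : p 0 = 0 := by
    simp only [hp, Pi.zero_apply, zero_mul, ite_self, sum_const_zero]
  refine ⟨fun C => φ₀ C + p (chi C), inF_add hPOL hφ₀ hpdeg hp0, fun C hC => ?_⟩
  have hmain : g C = p (chi C) := by
    by_cases hone : ∀ x y, x ∈ cmn G a b → y ∈ cmn G a b → s(b, x) ∈ C → s(b, y) ∈ C → x = y
    · rw [hg0 C hC hone]
      symm
      simp only [hp]
      refine sum_eq_zero fun x _ => sum_eq_zero fun y _ => ?_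
      split_ifs with h
      · by_cases h1 : s(b, x) ∈ C
        · by_cases h2 : s(b, y) ∈ C
          · have := hone x y h.1 h.2.1 h1 h2
            rw [this] at h
            exact absurd h.2.2 (lt_irrefl _)
          · rw [chi_of_notMem h2, mul_zero, zero_mul]
        · rw [chi_of_notMem h1, zero_mul, zero_mul]
      · rfl
    · -- two edges
      push Not at hone
      obtain ⟨x, y, hx, hy, hxC, hyC, hxy, hrxy⟩ : ∃ x y, x ∈ cmn G a b ∧ y ∈ cmn G a b ∧
          s(b, x) ∈ C ∧ s(b, y) ∈ C ∧ x ≠ y ∧ r x < r y := by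
        obtain ⟨x, y, hx, hy, hxC, hyC, hxy⟩ := hone
        rcases lt_trichotomy (r x) (r y) with h | h | h
        · exact ⟨x, y, hx, hy, hxC, hyC, hxy, h⟩
        · exact absurd (hrinj h) hxy
        · exact ⟨y, x, hy, hx, hyC, hxC, hxy.symm, h⟩
      have hnab : s(a, b) ∉ C := by
        intro h
        rw [Sym2.eq_swap] at h
        rcases hC.1.eq_or_eq hxC hyC hxy h with h1 | h1
        · exact (mem_cmn.1 hx).1.ne h1
        · exact (mem_cmn.1 hy).1.ne h1
      have haC : a ∉ vs C := fun h => hnab (hC.2 h (left_mem_vs hxC))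
      have hP := hC.1.isPth_del hxC hyC hxy
      set P := C \ {s(b, x), s(b, y)} with hPd
      have hPC : C = P ∪ {s(b, x), s(b, y)} := by
        rw [hPd, sdiff_union_of_subset]
        intro e he
        simp only [mem_insert, mem_singleton] at he
        rcases he with rfl | rfl
        · exact hxC
        · exact hyC
      have hP2 : IsPth (del G {a, b}) x y P := by
        rw [isPth_del] at hP ⊢
        refine ⟨hP.1, ?_⟩
        rw [Finset.disjoint_right]
        intro v hv hvP
        simp only [mem_insert, mem_singleton] at hv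
        rcases hv with rfl | rfl
        · exact haC (vs_mono sdiff_subset hvP)
        · exact Finset.disjoint_left.1 hP.2 hvP (by simp)
      have h1 := hw x y hx hy hxy P hP2
      rw [← hPC] at h1
      rw [h1]
      -- the polynomial
      have honly : ∀ x' y', x' ∈ cmn G a b ∧ y' ∈ cmn G a b ∧ r x' < r y' →
          s(b, x') ∈ C → s(b, y') ∈ C → x' = x ∧ y' = y := by
        rintro x' y' ⟨_, _, hlt⟩ hx' hy'
        rcases hC.1.eq_or_eq hxC hyC hxy hx' with rfl | rfl
        · rcases hC.1.eq_or_eq hxC hyC hxy hy' with rfl | rfl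
          · exact absurd hlt (lt_irrefl _)
          · exact ⟨rfl, rfl⟩
        · rcases hC.1.eq_or_eq hxC hyC hxy hy' with rfl | rfl
          · exact absurd (hlt.trans hrxy) (lt_irrefl _)
          · exact absurd hlt (lt_irrefl _)
      have hterm : ∀ x' y', (x' ≠ x ∨ y' ≠ y) →
          (if x' ∈ cmn G a b ∧ y' ∈ cmn G a b ∧ r x' < r y' then
            chi C s(b, x') * chi C s(b, y') * (w0 x' y' + ∑ h, w' x' y' h * chi C h) else 0) =
          (0 : ZMod 2) := by
        intro x' y' hne
        split_ifs with h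
        · by_cases h2 : s(b, x') ∈ C
          · by_cases h3 : s(b, y') ∈ C
            · obtain ⟨h4, h5⟩ := honly x' y' h h2 h3
              rcases hne with h6 | h6
              · exact absurd h4 h6
              · exact absurd h5 h6
            · rw [chi_of_notMem h3, mul_zero, zero_mul]
          · rw [chi_of_notMem h2, zero_mul, zero_mul]
        · rfl
      simp only [hp]
      rw [Finset.sum_eq_single x, Finset.sum_eq_single y]
      · rw [if_pos ⟨hx, hy, hrxy⟩, chi_of_mem hxC, chi_of_mem hyC, one_mul, one_mul]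
        congr 1
        rw [sum_mul_chi, hPC, Finset.sum_union]
        · have h2 : ∑ h ∈ ({s(b, x), s(b, y)} : Finset (Sym2 α)), w' x y h = 0 := by
            refine sum_eq_zero fun h hh => ?_
            simp only [hw']
            rw [if_neg]
            intro h3
            simp only [mem_insert, mem_singleton] at hh
            rcases hh with rfl | rfl
            · exact h3.2.1 (by simp)
            · exact h3.2.1 (by simp)
          rw [h2, add_zero]
          refine sum_congr rfl fun h hh => ?_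
          simp only [hw']
          rw [if_pos (hP2.subset h hh)]
        · exact disjoint_sdiff.symm
      · intro y' _ hne
        exact hterm x y' (Or.inr hne)
      · intro h
        exact absurd (mem_univ _) h
      · intro x' _ hne
        exact sum_eq_zero fun y' _ => hterm x' y' (Or.inl hne)
      · intro h
        exact absurd (mem_univ _) h
  have h9 : f C = φ₀ C + g C := by
    simp only [hgd]
    rw [add_comm, add_assoc, zmod2_add_self, add_zero]
  rw [h9, hmain]

end DL
end

section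
/-!
# MP_3ff0f8_gt, ALGEBRA HALF, module PMA: the polynomials vanishing on the cycles of `G/ab`, first half
-/
open SimpleGraph Finset

namespace DL

namespace PMAM

variable {α : Type} [Fintype α] [DecidableEq α]

lemma mrg_of_ne {a b v : α} (h : v ≠ b) : mrg a b v = v := if_neg h

lemma mrg_self (a b : α) : mrg a b b = a := if_pos rfl

lemma mrg_eq {a b v u : α} (hu : u ≠ a) (h : mrg a b v = u) : v = u := by
  unfold mrg at h
  split_ifs at h
  · exact absurd h.symm hu
  · exact h

lemma mrg_eq_a {a b v : α} (h : mrg a b v = a) : v = a ∨ v = b := by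
  unfold mrg at h
  split_ifs at h with h1
  · exact Or.inr h1
  · exact Or.inl h

lemma prj_off {a b : α} (c : Chain α) {u v : α} (hua : u ≠ a) (hub : u ≠ b) (hva : v ≠ a)
    (hvb : v ≠ b) (huv : u ≠ v) : prj a b c s(u, v) = c s(u, v) := by
  classical
  unfold prj
  rw [if_neg]
  · rw [Finset.sum_eq_single s(u, v)]
    · intro f hf hne
      exfalso
      apply hne
      obtain ⟨_, hf1, hf2⟩ := mem_filter.1 hf
      induction f using Sym2.ind with
      | _ x y =>
        rw [Sym2.map_mk, Sym2.eq_iff] at hf2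
        rcases hf2 with ⟨h1, h2⟩ | ⟨h1, h2⟩
        · rw [mrg_eq hua h1, mrg_eq hva h2]
        · rw [mrg_eq hva h1, mrg_eq hua h2, Sym2.eq_swap]
    · intro h
      exfalso
      apply h
      rw [mem_filter]
      refine ⟨mem_univ _, ?_, ?_⟩
      · intro e
        rw [Sym2.eq_iff] at e
        rcases e with e | e
        · exact hua e.1
        · exact hub e.1
      · rw [Sym2.map_mk, mrg_of_ne hub, mrg_of_ne hvb]
  · rw [not_or]
    refine ⟨?_, ?_⟩
    · rw [Sym2.mem_iff, not_or]
      exact ⟨hub.symm, hvb.symm⟩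
    · rw [Sym2.mk_isDiag_iff]
      exact huv

lemma prj_a {a b : α} (hab : a ≠ b) (c : Chain α) {w : α} (hwa : w ≠ a) (hwb : w ≠ b) :
    prj a b c s(a, w) = c s(a, w) + c s(b, w) := by
  classical
  unfold prj
  rw [if_neg]
  · have hfil : (univ.filter fun f => f ≠ s(a, b) ∧ f.map (mrg a b) = s(a, w)) =
        {s(a, w), s(b, w)} := by
      ext f
      rw [mem_filter, mem_insert, mem_singleton]
      constructor
      · rintro ⟨_, hf1, hf2⟩
        induction f using Sym2.ind with
        | _ x y =>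
          rw [Sym2.map_mk, Sym2.eq_iff] at hf2
          rcases hf2 with ⟨h1, h2⟩ | ⟨h1, h2⟩
          · rw [mrg_eq hwa h2]
            rcases mrg_eq_a h1 with h | h <;> simp [h]
          · rw [mrg_eq hwa h1]
            rcases mrg_eq_a h2 with h | h
            · left; rw [h, Sym2.eq_swap]
            · right; rw [h, Sym2.eq_swap]
      · rintro (rfl | rfl)
        · refine ⟨mem_univ _, ?_, ?_⟩
          · intro e
            exact hwb (Sym2.congr_right.1 e)
          · rw [Sym2.map_mk, mrg_of_ne hab, mrg_of_ne hwb]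
        · refine ⟨mem_univ _, ?_, ?_⟩
          · intro e
            rw [Sym2.eq_iff] at e
            rcases e with e | e
            · exact hab e.1.symm
            · exact hwa e.2
          · rw [Sym2.map_mk, mrg_self, mrg_of_ne hwb]
    rw [hfil, Finset.sum_pair]
    intro e
    rw [Sym2.eq_iff] at e
    rcases e with e | e
    · exact hab e.1
    · exact hwa e.1.symm
  · rw [not_or]
    refine ⟨?_, ?_⟩
    · rw [Sym2.mem_iff, not_or]
      exact ⟨hab.symm, hwb.symm⟩
    · rw [Sym2.mk_isDiag_iff]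
      exact hwa.symm

lemma mem_cmn {G : SimpleGraph α} {a b x : α} : x ∈ cmn G a b ↔ G.Adj a x ∧ G.Adj b x := by
  simp [cmn]

/-- `sel` depends only on the common neighbours in `K` -/
lemma sel_inter (G : SimpleGraph α) (a b : α) (K : Finset α) :
    sel G a b K = sel G a b (K ∩ cmn G a b) := by
  unfold sel
  congr 1
  ext e
  simp only [Set.mem_ofPred_eq, mem_inter, mem_cmn]
  constructor
  · rintro ⟨x, h1, h2, h3⟩
    exact ⟨x, h1, h2, by tauto⟩
  · rintro ⟨x, h1, h2, h3⟩
    exact ⟨x, h1, h2, by tauto⟩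

lemma mem_sel {G : SimpleGraph α} {a b : α} {K : Finset α} {e : Sym2 α} :
    e ∈ (sel G a b K).edgeSet ↔ e ∈ G.edgeSet ∧ ¬ ∃ x, G.Adj a x ∧ G.Adj b x ∧
      ((x ∈ K ∧ e = s(a, x)) ∨ (x ∉ K ∧ e = s(b, x))) := by
  unfold sel
  rw [edgeSet_deleteEdges]
  rfl

/-- `sel` for `K` and `insert x K` differ only in the edges `ax`, `bx` -/
lemma sel_insert {G : SimpleGraph α} {a b x : α} {K : Finset α} {e : Sym2 α} (h1 : e ≠ s(a, x))
    (h2 : e ≠ s(b, x)) : e ∈ (sel G a b K).edgeSet ↔ e ∈ (sel G a b (insert x K)).edgeSet := by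
  rw [mem_sel, mem_sel]
  refine and_congr_right fun _ => not_congr ?_
  constructor
  · rintro ⟨y, hy1, hy2, hy3⟩
    refine ⟨y, hy1, hy2, ?_⟩
    by_cases hyx : y = x
    · subst hyx
      rcases hy3 with h | h
      · exact absurd h.2 h1
      · exact absurd h.2 h2
    · rw [mem_insert]
      tauto
  · rintro ⟨y, hy1, hy2, hy3⟩
    refine ⟨y, hy1, hy2, ?_⟩
    by_cases hyx : y = x
    · subst hyx
      rcases hy3 with h | h
      · exact absurd h.2 h1
      · exact absurd h.2 h2
    · rw [mem_insert] at hy3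
      tauto

/-- lifts of chains without the edge `ax` -/
lemma lft_insert {G : SimpleGraph α} {a b x : α} (hab : a ≠ b) (hxb : x ≠ b) (hxa : x ≠ a)
    {K : Finset α} {c : Chain α}
    (hc : c s(a, x) = 0) : lft (sel G a b K) a b c = lft (sel G a b (insert x K)) a b c := by
  classical
  funext e
  unfold lft
  by_cases he : e = s(a, b)
  · rw [if_pos he, if_pos he]
    refine sum_congr rfl fun y _ => ?_
    by_cases hyx : y = x
    · subst hyx
      rw [hc]
      simp
    · have h1 : (sel G a b K).Adj a y ↔ (sel G a b (insert x K)).Adj a y := by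
        rw [← mem_edgeSet, ← mem_edgeSet]
        apply sel_insert
        · intro h
          exact hyx (Sym2.congr_right.1 h)
        · intro h
          rw [Sym2.eq_iff] at h
          rcases h with h | h
          · exact hab h.1
          · exact hxa h.1.symm
      simp only [h1]
  · rw [if_neg he, if_neg he]
    by_cases h1 : e = s(a, x)
    · have h2 : c (e.map (mrg a b)) = 0 := by
        rw [h1, Sym2.map_mk, mrg_of_ne hab, mrg_of_ne hxb, hc]
      rw [h2]
      simp
    by_cases h3 : e = s(b, x)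
    · have h2 : c (e.map (mrg a b)) = 0 := by
        rw [h3, Sym2.map_mk, mrg_self, mrg_of_ne hxb, hc]
      rw [h2]
      simp
    have h4 := sel_insert (G := G) (a := a) (b := b) (K := K) h1 h3
    simp only [h4]

/-- relabelling at a vertex `w ≠ a, b` -/
lemma relabel (hTRA : SpecTRA) {G : SimpleGraph α} {a b w z : α} (hwa : w ≠ a) (hwb : w ≠ b)
    (hz : z = a ∨ z = b) (hzw : (contr G a b).Adj a w → G.Adj z w) {r : Chain α → ZMod 2}
    (hr : r ∈ RV (contr G a b) w) :
    ∃ r' ∈ RV G w, ∀ c c' : Chain α, (∀ y, y ≠ a → y ≠ b → G.Adj w y → c s(w, y) = c' s(w, y)) →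
      ((contr G a b).Adj a w → c s(a, w) = c' s(z, w)) → r c = r' c' := by
  classical
  set φ : Sym2 α → Sym2 α := fun e => if e = s(a, w) then s(z, w) else e with hφ
  have hst : ∀ e ∈ star (contr G a b) w, (e = s(a, w) ∧ (contr G a b).Adj a w) ∨
      ∃ y, y ≠ a ∧ y ≠ b ∧ G.Adj w y ∧ e = s(w, y) := by
    rintro e ⟨he, hwe⟩
    obtain ⟨y, rfl⟩ := Sym2.mem_iff_exists.1 hwe
    have hadj : (contr G a b).Adj w y := he
    by_cases hya : y = a
    · subst hya
      exact Or.inl ⟨Sym2.eq_swap, hadj.symm⟩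
    · right
      obtain ⟨h1, h2, h3, h4⟩ := contr_adj.1 hadj
      refine ⟨y, hya, h2, ?_, rfl⟩
      rcases h4 with h | h | h
      · exact h
      · exact absurd h.1 hwa
      · exact absurd h.1 hya
  have hne : ∀ y, y ≠ a → s(w, y) ≠ s(a, w) := by
    intro y hy e
    rw [Sym2.eq_iff] at e
    rcases e with e | e
    · exact hwa e.1
    · exact hy e.2
  have hzy : ∀ y, y ≠ a → y ≠ b → s(z, w) ≠ s(w, y) := by
    intro y hya hyb e
    have hyz : y ≠ z := by
      rcases hz with rfl | rfl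
      · exact hya
      · exact hyb
    have hwz : w ≠ z := by
      rcases hz with rfl | rfl
      · exact hwa
      · exact hwb
    rw [Sym2.eq_iff] at e
    rcases e with e | e
    · exact hwz e.1.symm
    · exact hyz e.1.symm
  obtain ⟨r', hr', h⟩ := hTRA.map (B := star G w) φ (by
    intro e₁ he₁ e₂ he₂ h12
    simp only [hφ] at h12
    rcases hst e₁ he₁ with ⟨rfl, _⟩ | ⟨y₁, hy1, hy2, hy3, rfl⟩
    · rcases hst e₂ he₂ with ⟨rfl, _⟩ | ⟨y₂, hy1', hy2', hy3', rfl⟩
      · rfl
      · rw [if_pos rfl, if_neg (hne y₂ hy1')] at h12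
        exact absurd h12 (hzy y₂ hy1' hy2')
    · rcases hst e₂ he₂ with ⟨rfl, _⟩ | ⟨y₂, hy1', hy2', hy3', rfl⟩
      · rw [if_pos rfl, if_neg (hne y₁ hy1)] at h12
        exact absurd h12.symm (hzy y₁ hy1 hy2)
      · rw [if_neg (hne y₁ hy1), if_neg (hne y₂ hy1')] at h12
        exact h12) (by
    intro e he
    simp only [hφ]
    rcases hst e he with ⟨rfl, h1⟩ | ⟨y, hy1, hy2, hy3, rfl⟩
    · rw [if_pos rfl]
      exact ⟨hzw h1, by simp⟩
    · rw [if_neg (hne y hy1)]
      exact ⟨hy3, by simp⟩) hr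
  refine ⟨r', hr', fun c c' h1 h2 => h c c' fun e he => ?_⟩
  simp only [hφ]
  rcases hst e he with ⟨rfl, h3⟩ | ⟨y, hy1, hy2, hy3, rfl⟩
  · rw [if_pos rfl]
    exact h2 h3
  · rw [if_neg (hne y hy1)]
    exact h1 y hy1 hy2 hy3

lemma eq_of_add {x y : ZMod 2} (h : x + y = 0) : x = y := by
  revert x y; decide

/-- part (A): the local functions on `H` for every selection -/
lemma partA (hPOL : SpecPOL) (hCTA : SpecCTA) (hSEF : SpecSEF) {G : SimpleGraph α} {a b : α}
    (hab : G.Adj a b) (hI : I3P (contr G a b)) {p : Chain α → ZMod 2} (hp : DegLE 3 p)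
    (hp0 : p 0 = 0) (hpC : ∀ C, CycM G a b C → p (chi C) = 0) (K : Finset α) :
    ∃ r : α → Chain α → ZMod 2, (∀ v, r v ∈ RV (contr G a b) v) ∧
      ∀ c ∈ Z1 (contr G a b), p (lft (sel G a b K) a b c) = ∑ v, r v c := by
  obtain ⟨h1, h2, h3⟩ := hSEF.adj K hab
  let L : Chain α →+ Chain α :=
    AddMonoidHom.mk' (lft (sel G a b K) a b) fun c d => (hCTA.lin (sel G a b K) a b c d).1
  refine hI (fun c => p (L c)) (hPOL.comp L hp) (by simp only [map_zero, hp0]) fun C hC => ?_
  obtain ⟨C', hC', e⟩ := hCTA.cl h1 h2 C (by rw [h3]; exact hC)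
  have : L (chi C) = chi C' := e.symm
  rw [this]
  exact hpC C' ⟨hC'.1.mono (hSEF.le G a b K), hC'.2⟩

/-- part (B): adding one common neighbour to the selection -/
lemma partB (hTRA : SpecTRA) (hDIR : SpecDIR) (hS3F : SpecS3F) {G : SimpleGraph α} {a b : α}
    (hab : G.Adj a b) (hH : KConn 3 (contr G a b)) {p : Chain α → ZMod 2}
    {r : Finset α → α → Chain α → ZMod 2} (hr : ∀ K v, r K v ∈ RV (contr G a b) v)
    (hrc : ∀ K, ∀ c ∈ Z1 (contr G a b), p (lft (sel G a b K) a b c) = ∑ v, r K v c)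
    {K : Finset α} {x : α} (hxD : x ∈ cmn G a b) {w : α} {c : Chain α}
    (hcs : ∀ e, c e ≠ 0 → e ∈ (contr G a b).edgeSet) (hcx : c s(a, x) = 0)
    (hcw : bdy c w = 0) : r K w c = r (insert x K) w c := by
  set H := contr G a b with hHd
  have hxa : x ≠ a := (mem_cmn.1 hxD).1.ne.symm
  have hxb : x ≠ b := (mem_cmn.1 hxD).2.ne.symm
  have hres : ∀ w, ∃ r' ∈ RV (delE H a x) w, ∀ c, c s(a, x) = 0 →
      (r K w c + r (insert x K) w c) = r' c := by
    intro w
    have h1 : (r K w + r (insert x K) w) ∈ TR (star H w) :=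
      Submodule.add_mem _ (hr K w) (hr (insert x K) w)
    obtain ⟨r', hr', h2⟩ := hTRA.res {s(a, x)} h1
    refine ⟨r', ?_, fun c hc => ?_⟩
    · refine hTRA.mono ?_ hr'
      rintro e ⟨he, he2⟩
      refine ⟨?_, he.2⟩
      unfold delE
      rw [edgeSet_deleteEdges]
      exact ⟨he.1, he2⟩
    · refine h2 c fun e he => ?_
      have : e = s(a, x) := he.2
      rw [this, hc]
  choose r' hr' hr'c using hres
  have hsum : ∀ c ∈ Z1 (delE H a x), ∑ v, r' v c = 0 := by
    intro c hc
    have hcx : c s(a, x) = 0 := by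
      by_contra h
      have h1 := hc.1 _ h
      unfold delE at h1
      rw [edgeSet_deleteEdges] at h1
      exact h1.2 rfl
    have hcH : c ∈ Z1 H := Z1_mono (deleteEdges_le _) hc
    calc ∑ v, r' v c = ∑ v, (r K v c + r (insert x K) v c) :=
          sum_congr rfl fun v _ => (hr'c v c hcx).symm
      _ = 0 := by
          rw [sum_add_distrib, ← hrc K c hcH, ← hrc (insert x K) c hcH,
            lft_insert hab.ne hxb hxa hcx, zmod2_add_self]
  have h3 := hDIR (delE H a x) (hS3F.dhE a x hH) r' hr' hsum w c (by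
    intro e he
    unfold delE
    rw [edgeSet_deleteEdges]
    refine ⟨hcs e he, ?_⟩
    rintro h
    have : e = s(a, x) := h
    rw [this] at he
    exact he hcx) hcw
  rw [← hr'c w c hcx] at h3
  exact eq_of_add h3

/-- part (B) at a vertex which is not an end of `ax` -/
lemma partB' (hTRA : SpecTRA) (hDIR : SpecDIR) (hS3F : SpecS3F) {G : SimpleGraph α} {a b : α}
    (hab : G.Adj a b) (hH : KConn 3 (contr G a b)) {p : Chain α → ZMod 2}
    {r : Finset α → α → Chain α → ZMod 2} (hr : ∀ K v, r K v ∈ RV (contr G a b) v)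
    (hrc : ∀ K, ∀ c ∈ Z1 (contr G a b), p (lft (sel G a b K) a b c) = ∑ v, r K v c)
    {K : Finset α} {x : α} (hxD : x ∈ cmn G a b) {w : α} (hwa : w ≠ a) (hwx : w ≠ x) {c : Chain α}
    (hcs : ∀ e, c e ≠ 0 → e ∈ (contr G a b).edgeSet)
    (hcw : bdy c w = 0) : r K w c = r (insert x K) w c := by
  classical
  set c₀ : Chain α := fun e => if e = s(a, x) then 0 else c e with hc₀
  have hnot : ∀ e, w ∈ e → e ≠ s(a, x) := by
    rintro e he rfl
    rcases Sym2.mem_iff.1 he with h | h
    · exact hwa h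
    · exact hwx h
  have hloc : ∀ e, w ∈ e → c e = c₀ e := by
    intro e he
    simp only [hc₀]
    rw [if_neg (hnot e he)]
  have h1 := partB hTRA hDIR hS3F hab hH hr hrc (K := K) hxD (w := w) (c := c₀) (by
    intro e he
    apply hcs
    intro h
    apply he
    simp only [hc₀, h, ite_self]) (by simp [hc₀]) (by
    rw [← hcw, bdy_eq, bdy_eq]
    exact sum_congr rfl fun e he => (hloc e (mem_filter.1 he).2).symm)
  rw [hTRA.loc (hr K w) c c₀ fun e he => hloc e he.2,
    hTRA.loc (hr (insert x K) w) c c₀ fun e he => hloc e he.2]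
  exact h1

/-- part (C) -/
lemma partC (hTRA : SpecTRA) (hDIR : SpecDIR) (hS3F : SpecS3F) {G : SimpleGraph α} {a b : α}
    (hab : G.Adj a b) (hH : KConn 3 (contr G a b)) {p : Chain α → ZMod 2}
    {r : Finset α → α → Chain α → ZMod 2} (hr : ∀ K v, r K v ∈ RV (contr G a b) v)
    (hrc : ∀ K, ∀ c ∈ Z1 (contr G a b), p (lft (sel G a b K) a b c) = ∑ v, r K v c)
    {w : α} (hwa : w ≠ a) {c : Chain α} (hcs : ∀ e, c e ≠ 0 → e ∈ (contr G a b).edgeSet)
    (hcw : bdy c w = 0) (K₀ L : Finset α) (hL : L ⊆ cmn G a b) (hwL : w ∉ L) :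
    r (L ∪ K₀) w c = r K₀ w c := by
  induction L using Finset.induction_on with
  | empty => rw [empty_union]
  | insert x L hx ih =>
    rw [mem_insert, not_or] at hwL
    have h1 := ih (fun y hy => hL (mem_insert_of_mem hy)) hwL.2
    rw [insert_union, ← h1]
    exact (partB' hTRA hDIR hS3F hab hH hr hrc (hL (mem_insert_self _ _)) hwa hwL.1 hcs hcw).symm

/-- part (D) -/
lemma partD (hTRA : SpecTRA) (hDIR : SpecDIR) (hS3F : SpecS3F) (hCTA : SpecCTA) (hSEF : SpecSEF)
    {G : SimpleGraph α} {a b : α}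
    (hab : G.Adj a b) (hH : KConn 3 (contr G a b)) {p : Chain α → ZMod 2}
    {r : Finset α → α → Chain α → ZMod 2} (hr : ∀ K v, r K v ∈ RV (contr G a b) v)
    (hrc : ∀ K, ∀ c ∈ Z1 (contr G a b), p (lft (sel G a b K) a b c) = ∑ v, r K v c)
    {w : α} (hwa : w ≠ a) (hwb : w ≠ b) :
    ∃ R ∈ RV G w, ∀ K ⊆ cmn G a b, ∀ c ∈ Z1 (sel G a b K), r K w (prj a b c) = R c := by
  classical
  have hpz : ∀ K, ∀ c ∈ Z1 (sel G a b K), prj a b c ∈ Z1 (contr G a b) := by
    intro K c hc
    obtain ⟨h1, h2, h3⟩ := hSEF.adj K hab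
    have := hCTA.pz h1 c hc
    rwa [h3] at this
  have hoff : ∀ (c : Chain α) y, y ≠ a → y ≠ b → G.Adj w y → prj a b c s(w, y) = c s(w, y) :=
    fun c y hya hyb hy => prj_off c hwa hwb hya hyb hy.ne
  have hHa : (contr G a b).Adj a w → G.Adj a w ∨ G.Adj b w := by
    intro h
    rcases (contr_adj.1 h).2.2.2 with h | h | h
    · exact Or.inl h
    · exact Or.inr h.2
    · exact absurd h.1 hwa
  have hCC := fun (c : Chain α) (hc : c ∈ Z1 (contr G a b)) (K₀ L : Finset α) (hL : L ⊆ cmn G a b)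
    (hwL : w ∉ L) => partC hTRA hDIR hS3F hab hH hr hrc hwa (c := c) hc.1 (hc.2 w) K₀ L hL hwL
  by_cases hwD : w ∈ cmn G a b
  · obtain ⟨haw, hbw⟩ := mem_cmn.1 hwD
    obtain ⟨R₁, hR₁, hR₁c⟩ := relabel hTRA hwa hwb (Or.inl rfl) (fun _ => haw) (hr ∅ w)
    obtain ⟨R₂, hR₂, hR₂c⟩ := relabel hTRA hwa hwb (Or.inr rfl) (fun _ => hbw) (hr {w} w)
    -- a third edge at `w`
    have hHwa : (contr G a b).Adj w a :=
      contr_adj.2 ⟨hwb, hab.ne, hwa, Or.inl haw.symm⟩
    obtain ⟨y, hya, hyb, hwy⟩ : ∃ y, y ≠ a ∧ y ≠ b ∧ G.Adj w y := by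
      have h1 := hH.le_nbs (left_mem_VS hHwa)
      have h2 : 1 < (nbs (contr G a b) w).card := by omega
      obtain ⟨y, hy, hya⟩ := Finset.exists_mem_ne h2 a
      rw [mem_nbs, contr_adj] at hy
      refine ⟨y, hya, hy.2.1, ?_⟩
      rcases hy.2.2.2 with h | h | h
      · exact h
      · exact absurd h.1 hwa
      · exact absurd h.1 hya
    have hR₁' : R₁ ∈ TR (DIRM.stF G w : Set (Sym2 α)) := by
      rw [DIRM.coe_stF]; exact hR₁
    have hR₂' : R₂ ∈ TR (DIRM.stF G w : Set (Sym2 α)) := by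
      rw [DIRM.coe_stF]; exact hR₂
    have hne1 : s(a, w) ≠ s(b, w) := by
      intro e
      rw [Sym2.eq_iff] at e
      rcases e with e | e
      · exact hab.ne e.1
      · exact hwa e.1.symm
    have hne2 : s(a, w) ≠ s(w, y) := by
      intro e
      rw [Sym2.eq_iff] at e
      rcases e with e | e
      · exact hwa e.1.symm
      · exact hya e.1.symm
    have hne3 : s(b, w) ≠ s(w, y) := by
      intro e
      rw [Sym2.eq_iff] at e
      rcases e with e | e
      · exact hwb e.1.symm
      · exact hyb e.1.symm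
    have hglue : ∀ c : Chain α, ∑ e ∈ DIRM.stF G w, c e = 0 → c s(a, w) = 0 → c s(b, w) = 0 →
        R₁ c = R₂ c := by
      intro c hc0 hca hcb
      set c₁ : Chain α := fun e => if e ∈ (contr G a b).edgeSet ∧ e ≠ s(a, w) then c e else 0
        with hc₁
      have hc₁a : c₁ s(a, w) = 0 := by simp [hc₁]
      have hc₁y : ∀ y, y ≠ a → y ≠ b → G.Adj w y → c₁ s(w, y) = c s(w, y) := by
        intro y hya hyb hwy
        simp only [hc₁]
        rw [if_pos]
        refine ⟨contr_adj_of_adj hwy hwb hyb, ?_⟩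
        intro e
        rw [Sym2.eq_iff] at e
        rcases e with e | e
        · exact hwa e.1
        · exact hya e.2
      have h1 : r ∅ w c₁ = R₁ c := hR₁c c₁ c hc₁y fun _ => by rw [hc₁a, hca]
      have h2 : r {w} w c₁ = R₂ c := hR₂c c₁ c hc₁y fun _ => by rw [hc₁a, hcb]
      rw [← h1, ← h2]
      have h3 := partB hTRA hDIR hS3F hab hH hr hrc (K := ∅) hwD (w := w) (c := c₁) (by
        intro e he
        by_contra h
        apply he
        simp only [hc₁]
        rw [if_neg fun h' => h h'.1]) hc₁a (by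
        rw [← hc0, bdy_eq]
        symm
        apply Finset.sum_subset_zero_on_sdiff (f := c) (g := c₁)
        · intro e he
          rw [mem_filter]
          exact ⟨mem_univ _, (DIRM.mem_stF.1 he).2⟩
        · intro e he
          rw [mem_sdiff, mem_filter] at he
          obtain ⟨⟨_, hwe⟩, he2⟩ := he
          obtain ⟨z, rfl⟩ := Sym2.mem_iff_exists.1 hwe
          simp only [hc₁]
          rw [if_neg]
          rintro ⟨h4, h5⟩
          have h4' : (contr G a b).Adj w z := h4
          rcases (contr_adj.1 h4').2.2.2 with h | h | h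
          · exact he2 (DIRM.mem_stF.2 ⟨h, hwe⟩)
          · exact hwa h.1
          · apply h5
            rw [h.1, Sym2.eq_swap]
        · intro e he
          obtain ⟨he1, he2⟩ := DIRM.mem_stF.1 he
          obtain ⟨z, rfl⟩ := Sym2.mem_iff_exists.1 he2
          by_cases hza : z = a
          · subst hza
            rw [Sym2.eq_swap, hca, hc₁a]
          by_cases hzb : z = b
          · subst hzb
            rw [Sym2.eq_swap, hcb]
            symm
            simp only [hc₁]
            rw [if_neg]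
            rintro ⟨h4, _⟩
            have h4' : (contr G a z).Adj z w := h4
            exact (contr_adj.1 h4').1 rfl
          · exact (hc₁y z hza hzb he1).symm)
      rw [h3]
      rfl
    obtain ⟨R, hR, hRc⟩ := hTRA.glue (DIRM.stF G w) s(a, w) s(b, w) s(w, y)
      (DIRM.mem_stF.2 ⟨haw, by simp⟩) (DIRM.mem_stF.2 ⟨hbw, by simp⟩)
      (DIRM.mem_stF.2 ⟨hwy, by simp⟩) hne1 hne2 hne3 hR₁' hR₂' hglue
    rw [DIRM.coe_stF] at hR
    refine ⟨R, hR, fun K hK c hc => ?_⟩
    have hc' := hpz K c hc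
    have hcG : c ∈ Z1 G := Z1_mono (hSEF.le G a b K) hc
    have htr : ∑ e ∈ DIRM.stF G w, c e = 0 := by rw [DIRM.sum_stF hcG.1, hcG.2]
    by_cases hwK : w ∈ K
    · have hca : c s(a, w) = 0 := by
        by_contra h
        have h1 := mem_sel.1 (hc.1 _ h)
        exact h1.2 ⟨w, haw, hbw, Or.inl ⟨hwK, rfl⟩⟩
      rw [(hRc c htr).2 hca]
      have h1 := hCC (prj a b c) hc' {w} (K.erase w) (fun x hx => hK (mem_of_mem_erase hx))
        (notMem_erase _ _)
      have h2 : K.erase w ∪ {w} = K := by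
        ext x
        rw [mem_union, mem_erase, mem_singleton]
        by_cases hx : x = w
        · rw [hx]; simp [hwK]
        · simp [hx]
      rw [h2] at h1
      rw [h1]
      refine hR₂c _ c (hoff c) fun _ => ?_
      rw [prj_a hab.ne c hwa hwb, hca, zero_add]
    · have hcb : c s(b, w) = 0 := by
        by_contra h
        have h1 := mem_sel.1 (hc.1 _ h)
        exact h1.2 ⟨w, haw, hbw, Or.inr ⟨hwK, rfl⟩⟩
      rw [(hRc c htr).1 hcb]
      have h1 := hCC (prj a b c) hc' ∅ K hK hwK
      rw [union_empty] at h1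
      rw [h1]
      refine hR₁c _ c (hoff c) fun _ => ?_
      rw [prj_a hab.ne c hwa hwb, hcb, add_zero]
  · -- at most one of the two edges
    have hno : ¬ (G.Adj a w ∧ G.Adj b w) := fun h => hwD (mem_cmn.2 h)
    have key : ∀ z, (z = a ∨ z = b) → ((contr G a b).Adj a w → G.Adj z w) →
        (∀ c ∈ Z1 G, (contr G a b).Adj a w → c s(a, w) + c s(b, w) = c s(z, w)) →
        ∃ R ∈ RV G w, ∀ K ⊆ cmn G a b, ∀ c ∈ Z1 (sel G a b K), r K w (prj a b c) = R c := by
      intro z hz hzw hzc
      obtain ⟨R, hR, hRc⟩ := relabel hTRA hwa hwb hz hzw (hr ∅ w)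
      refine ⟨R, hR, fun K hK c hc => ?_⟩
      have h1 := hCC (prj a b c) (hpz K c hc) ∅ K hK fun h => hwD (hK h)
      rw [union_empty] at h1
      rw [h1]
      refine hRc _ c (hoff c) fun h => ?_
      rw [prj_a hab.ne c hwa hwb]
      exact hzc c (Z1_mono (hSEF.le G a b K) hc) h
    by_cases haw : G.Adj a w
    · have hbw : ¬ G.Adj b w := fun h => hno ⟨haw, h⟩
      refine key a (Or.inl rfl) (fun _ => haw) fun c hc _ => ?_
      have : c s(b, w) = 0 := by
        by_contra h
        exact hbw (hc.1 _ h)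
      rw [this, add_zero]
    · refine key b (Or.inr rfl) (fun h => (hHa h).resolve_left haw) fun c hc _ => ?_
      have : c s(a, w) = 0 := by
        by_contra h
        exact haw (hc.1 _ h)
      rw [this, zero_add]

end PMAM

open PMAM in
theorem specPMA (hPOL : SpecPOL) (hTRA : SpecTRA) (hDIR : SpecDIR) (hS3F : SpecS3F)
    (hCTA : SpecCTA) (hSEF : SpecSEF) : SpecPMA := by
  classical
  intro α _ _ G a b hab hH hI p hp hp0 hpC
  choose r hr hrc using partA hPOL hCTA hSEF hab hI hp hp0 hpC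
  have hD : ∀ w, ∃ R ∈ RV G w, ((w = a ∨ w = b) → R = 0) ∧ (w ≠ a → w ≠ b →
      ∀ K ⊆ cmn G a b, ∀ c ∈ Z1 (sel G a b K), r K w (prj a b c) = R c) := by
    intro w
    by_cases hw : w = a ∨ w = b
    · refine ⟨0, Submodule.zero_mem _, fun _ => rfl, fun h1 h2 => ?_⟩
      rcases hw with h | h
      · exact absurd h h1
      · exact absurd h h2
    · rw [not_or] at hw
      obtain ⟨R, hR, h⟩ := partD hTRA hDIR hS3F hCTA hSEF hab hH hr hrc hw.1 hw.2
      refine ⟨R, hR, fun h1 => ?_, fun _ _ => h⟩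
      rcases h1 with h1 | h1
      · exact absurd h1 hw.1
      · exact absurd h1 hw.2
  choose R hR hR0 hRc using hD
  refine ⟨R, fun K => r (K ∩ cmn G a b) a, hR, hR0 a (Or.inl rfl), hR0 b (Or.inr rfl),
    fun K => hr _ a, fun K c hc => ?_⟩
  rw [sel_inter] at hc
  set K' := K ∩ cmn G a b with hK'
  obtain ⟨h1, h2, h3⟩ := hSEF.adj K' hab
  have hpz : prj a b c ∈ Z1 (contr G a b) := by
    have := hCTA.pz h1 c hc
    rwa [h3] at this
  have hlp : lft (sel G a b K') a b (prj a b c) = c := hCTA.lp h1 h2 c hc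
  have h4 := hrc K' (prj a b c) hpz
  rw [hlp] at h4
  rw [h4, ← Finset.add_sum_erase univ _ (mem_univ a)]
  congr 1
  rw [← Finset.add_sum_erase univ (fun w => R w c) (mem_univ a), hR0 a (Or.inl rfl)]
  simp only [Pi.zero_apply, zero_add]
  refine sum_congr rfl fun w hw => ?_
  have hwa : w ≠ a := (mem_erase.1 hw).1
  by_cases hwb : w = b
  · subst hwb
    rw [hR0 w (Or.inr rfl)]
    refine hTRA.two (hr K' w) _ s(a, a) s(a, a) fun e he _ => ?_
    exfalso
    obtain ⟨y, rfl⟩ := Sym2.mem_iff_exists.1 he.2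
    have h5 : (contr G a w).Adj w y := he.1
    exact (contr_adj.1 h5).1 rfl
  · exact hRc w hwa hwb K' inter_subset_right c hc

end DL
end

section
/-!
MP_3ff0f8_gt, ALGEBRA HALF, EX/K block, module POL: functions of bounded degree (helper28).
-/
open SimpleGraph Finset

namespace DL

namespace POLM

variable {A : Type} [AddCommGroup A]

theorem zero (d : ℕ) : DegLE d (fun _ : A => (0 : ZMod 2)) := by
  induction d with
  | zero => intro a; rfl
  | succ d ih =>
    intro v
    simpa using ih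

theorem const (d : ℕ) (x : ZMod 2) : DegLE d (fun _ : A => x) := by
  cases d with
  | zero => intro a; rfl
  | succ d =>
    intro v
    have h : (fun _ : A => x + x) = fun _ => (0 : ZMod 2) := by
      funext a
      exact CharTwo.add_self_eq_zero x
    change DegLE d (fun _ : A => x + x)
    rw [h]
    exact zero d

theorem succ {d : ℕ} : ∀ {f : A → ZMod 2}, DegLE d f → DegLE (d + 1) f := by
  induction d with
  | zero =>
    intro f h v a
    have h1 : ∀ a, f a = f 0 := h
    change f (a + v) + f a = f (0 + v) + f 0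
    rw [h1 (a + v), h1 a, h1 (0 + v)]
  | succ d ih =>
    intro f h v
    exact ih (h v)

theorem mono {d e : ℕ} {f : A → ZMod 2} (hde : d ≤ e) (h : DegLE d f) : DegLE e f := by
  induction hde with
  | refl => exact h
  | step _ ih => exact succ ih

theorem add {d : ℕ} : ∀ {f g : A → ZMod 2}, DegLE d f → DegLE d g →
    DegLE d (fun a => f a + g a) := by
  induction d with
  | zero =>
    intro f g hf hg a
    have h1 : ∀ a, f a = f 0 := hf
    have h2 : ∀ a, g a = g 0 := hg
    change f a + g a = f 0 + g 0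
    rw [h1 a, h2 a]
  | succ d ih =>
    intro f g hf hg v
    have h := ih (hf v) (hg v)
    have e : (fun a => (f (a + v) + f a) + (g (a + v) + g a)) =
        fun a => (f (a + v) + g (a + v)) + (f a + g a) := by
      funext a
      ring
    change DegLE d (fun a => (f (a + v) + g (a + v)) + (f a + g a))
    rw [← e]
    exact h

theorem sum {ι : Type} {d : ℕ} (s : Finset ι) (f : ι → A → ZMod 2)
    (h : ∀ i ∈ s, DegLE d (f i)) : DegLE d (fun a => ∑ i ∈ s, f i a) := by
  classical
  induction s using Finset.induction_on with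
  | empty => simpa using zero d
  | insert i s hi ih =>
    have h1 := add (h i (mem_insert_self i s)) (ih fun j hj => h j (mem_insert_of_mem hj))
    simpa only [sum_insert hi] using h1

theorem shift {d : ℕ} : ∀ {f : A → ZMod 2} (v : A), DegLE d f → DegLE d (fun a => f (a + v)) := by
  induction d with
  | zero =>
    intro f v h a
    have h1 : ∀ a, f a = f 0 := h
    change f (a + v) = f (0 + v)
    rw [h1 (a + v), h1 (0 + v)]
  | succ d ih =>
    intro f v h w
    have h1 := ih v (h w)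
    have e : (fun a => f (a + v + w) + f (a + v)) = fun a => f (a + w + v) + f (a + v) := by
      funext a
      rw [add_right_comm]
    change DegLE d (fun a => f (a + w + v) + f (a + v))
    rw [← e]
    exact h1

theorem zmod2 (x : ZMod 2) : x = 0 ∨ x = 1 := by
  revert x; decide

theorem mul {d : ℕ} : ∀ {e : ℕ} {f g : A → ZMod 2}, DegLE d f → DegLE e g →
    DegLE (d + e) (fun a => f a * g a) := by
  suffices H : ∀ n d e : ℕ, d + e = n → ∀ {f g : A → ZMod 2}, DegLE d f → DegLE e g →
      DegLE (d + e) (fun a => f a * g a) by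
    intro e f g
    exact H (d + e) d e rfl
  intro n
  induction n with
  | zero =>
    intro d e hde f g hf hg
    obtain rfl : d = 0 := by omega
    obtain rfl : e = 0 := by omega
    have h1 : ∀ a, f a = f 0 := hf
    have h2 : ∀ a, g a = g 0 := hg
    intro a
    change f a * g a = f 0 * g 0
    rw [h1 a, h2 a]
  | succ n ih =>
    intro d e hde f g hf hg
    rcases d with _ | d
    · have h1 : ∀ a, f a = f 0 := hf
      rw [zero_add]
      rcases zmod2 (f 0) with h0 | h0
      · have e1 : (fun a => f a * g a) = fun _ => 0 := by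
          funext a
          rw [h1 a, h0, zero_mul]
        rw [e1]
        exact zero e
      · have e1 : (fun a => f a * g a) = g := by
          funext a
          rw [h1 a, h0, one_mul]
        rw [e1]
        exact hg
    rcases e with _ | e
    · have h1 : ∀ a, g a = g 0 := hg
      rw [add_zero]
      rcases zmod2 (g 0) with h0 | h0
      · have e1 : (fun a => f a * g a) = fun _ => 0 := by
          funext a
          rw [h1 a, h0, mul_zero]
        rw [e1]
        exact zero _
      · have e1 : (fun a => f a * g a) = f := by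
          funext a
          rw [h1 a, h0, mul_one]
        rw [e1]
        exact hf
    intro v
    have hf' : DegLE d (fun a => f (a + v) + f a) := hf v
    have hg' : DegLE e (fun a => g (a + v) + g a) := hg v
    have h1 := ih d (e + 1) (by omega) hf' (shift v hg)
    have h2 := ih (d + 1) e (by omega) hf hg'
    have h2' : DegLE (d + (e + 1)) (fun a => f a * (g (a + v) + g a)) := by
      rw [show d + (e + 1) = d + 1 + e by omega]
      exact h2
    have h3 := add h1 h2'
    have e1 : (fun a => (f (a + v) + f a) * g (a + v) + f a * (g (a + v) + g a)) =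
        fun a => f (a + v) * g (a + v) + f a * g a := by
      funext a
      have h4 : f a * g (a + v) + f a * g (a + v) = 0 := CharTwo.add_self_eq_zero _
      linear_combination h4
    have e2 : d + 1 + e = d + (e + 1) := by omega
    change DegLE (d + 1 + e) (fun a => f (a + v) * g (a + v) + f a * g a)
    rw [← e1, e2]
    exact h3

theorem comp {A B : Type} [AddCommGroup A] [AddCommGroup B] {d : ℕ} :
    ∀ {f : B → ZMod 2} (L : A →+ B), DegLE d f → DegLE d (fun a => f (L a)) := by
  induction d with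
  | zero =>
    intro f L h a
    have h1 : ∀ a, f a = f 0 := h
    change f (L a) = f (L 0)
    rw [h1 (L a), h1 (L 0)]
  | succ d ih =>
    intro f L h v
    have h1 := ih L (h (L v))
    have e : (fun a => f (L a + L v) + f (L a)) = fun a => f (L (a + v)) + f (L a) := by
      funext a
      rw [map_add]
    change DegLE d (fun a => f (L (a + v)) + f (L a))
    rw [← e]
    exact h1

theorem ofAdd {f : A → ZMod 2} (h : ∀ a b, f (a + b) = f a + f b) : DegLE 1 f := by
  intro v a
  change f (a + v) + f a = f (0 + v) + f 0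
  have h0 : f 0 = 0 := by
    have := h 0 0
    rw [add_zero] at this
    have h2 : f 0 + f 0 = 0 := CharTwo.add_self_eq_zero _
    rw [this, h2]
  have h2 : f a + f a = 0 := CharTwo.add_self_eq_zero _
  rw [h a v, h0, zero_add, add_zero]
  linear_combination h2

theorem lin {f : A → ZMod 2} (h : DegLE 1 f) (h0 : f 0 = 0) (a b : A) :
    f (a + b) = f a + f b := by
  have h1 : f (a + b) + f a = f (0 + b) + f 0 := h b a
  have h2 : f a + f a = 0 := CharTwo.add_self_eq_zero _
  rw [zero_add, h0, add_zero] at h1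
  linear_combination h1 - h2

theorem two {f : A → ZMod 2} (h : DegLE 2 f) (a u v w : A) :
    f a + f (a + u) + f (a + v) + f (a + w) + f (a + u + v) + f (a + u + w) + f (a + v + w) +
      f (a + u + v + w) = 0 := by
  have h1 : ∀ x, (f (x + v + u) + f (x + v)) + (f (x + u) + f x) =
    (f (0 + v + u) + f (0 + v)) + (f (0 + u) + f 0) := fun x => h u v x
  have h2 := h1 a
  have h3 := h1 (a + w)
  rw [← h2] at h3
  have e1 : a + w + v + u = a + u + v + w := by abel
  have e2 : a + w + v = a + v + w := by abel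
  have e3 : a + w + u = a + u + w := by abel
  have e4 : a + v + u = a + u + v := by abel
  rw [e1, e2, e3, e4] at h3
  have h4 : ∀ x : ZMod 2, x + x = 0 := CharTwo.add_self_eq_zero
  have h5 := h4 (f (a + u + v) + f (a + v) + (f (a + u) + f a))
  linear_combination h3 + h5

theorem three {f : A → ZMod 2} (h : DegLE 3 f) (a u v w x : A) :
    f a + f (a + u) + f (a + v) + f (a + w) + f (a + u + v) + f (a + u + w) + f (a + v + w) +
      f (a + u + v + w) + (f (a + x) + f (a + u + x) + f (a + v + x) + f (a + w + x) +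
      f (a + u + v + x) + f (a + u + w + x) + f (a + v + w + x) + f (a + u + v + w + x)) = 0 := by
  have h1 := two (f := fun a => f (a + x) + f a) (h x) a u v w
  linear_combination h1

theorem dvan {ι : Type} [DecidableEq ι] (v : ι → A) (T : Finset ι) :
    ∀ (d : ℕ) (f : A → ZMod 2), DegLE d f → d < T.card → ∀ a,
      ∑ T' ∈ T.powerset, f (a + ∑ i ∈ T', v i) = 0 := by
  induction T using Finset.induction_on with
  | empty =>
    intro d f _ hd
    simp at hd
  | insert i T hi ih =>
    intro d f hf hd a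
    have key : ∑ T' ∈ (insert i T).powerset, f (a + ∑ i ∈ T', v i) =
        ∑ T' ∈ T.powerset, (f (a + ∑ i ∈ T', v i + v i) + f (a + ∑ i ∈ T', v i)) := by
      rw [sum_powerset_insert hi, sum_add_distrib, add_comm]
      congr 1
      refine sum_congr rfl fun T' hT' => ?_
      have hi' : i ∉ T' := fun h => hi (mem_powerset.1 hT' h)
      rw [sum_insert hi']
      congr 1
      abel
    rw [key]
    rcases d with _ | d
    · have h1 : ∀ a, f a = f 0 := hf
      refine sum_eq_zero fun T' _ => ?_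
      rw [h1 (a + _ + v i), h1 (a + _)]
      exact CharTwo.add_self_eq_zero _
    · exact ih d (fun a => f (a + v i) + f a) (hf (v i))
        (by rw [card_insert_of_notMem hi] at hd; omega) a

theorem moebius {ι : Type} [DecidableEq ι] (v : ι → A) (S : Finset ι) :
    ∀ (f : A → ZMod 2), f (∑ i ∈ S, v i) =
      ∑ T ∈ S.powerset, ∑ T' ∈ T.powerset, f (∑ i ∈ T', v i) := by
  induction S using Finset.induction_on with
  | empty =>
    intro f
    simp
  | insert i S hi ih =>
    intro f
    have h1 := ih (fun a => f (v i + a))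
    rw [sum_insert hi, sum_powerset_insert hi, h1, ← sum_add_distrib]
    refine sum_congr rfl fun T hT => ?_
    have hi' : i ∉ T := fun h => hi (mem_powerset.1 hT h)
    rw [sum_powerset_insert hi', ← add_assoc, CharTwo.add_self_eq_zero, zero_add]
    refine sum_congr rfl fun T' hT' => ?_
    have hi'' : i ∉ T' := fun h => hi' (mem_powerset.1 hT' h)
    rw [sum_insert hi'']

theorem exp {ι : Type} [DecidableEq ι] {d : ℕ} {f : A → ZMod 2} (v : ι → A)
    (S : Finset ι) (h : DegLE d f) : f (∑ i ∈ S, v i) =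
      ∑ T ∈ S.powerset.filter (fun T => T.card ≤ d), ∑ T' ∈ T.powerset, f (∑ i ∈ T', v i) := by
  rw [moebius v S f, sum_filter]
  refine sum_congr rfl fun T _ => ?_
  split_ifs with hT
  · rfl
  · have h1 := dvan v T d f h (by omega) 0
    simpa only [zero_add] using h1

end POLM

theorem specPOL : SpecPOL where
  zero := POLM.zero
  const := POLM.const
  mono := POLM.mono
  add := POLM.add
  sum := POLM.sum
  mul := POLM.mul
  comp := POLM.comp
  shift := POLM.shift
  dif := fun v h => h v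
  ofAdd := POLM.ofAdd
  lin := POLM.lin
  two := POLM.two
  three := POLM.three
  exp := POLM.exp

end DL
end

section
/-!
MP_3ff0f8_gt, ALGEBRA HALF, EX/K block, module SEF (helper20)
-/
open SimpleGraph Finset

namespace DL

namespace SEFM

variable {α : Type} [Fintype α] [DecidableEq α] {G : SimpleGraph α} {a b : α}

theorem sel_adj (K : Finset α) (u v : α) : (sel G a b K).Adj u v ↔ G.Adj u v ∧
    ¬ ∃ x, G.Adj a x ∧ G.Adj b x ∧ ((x ∈ K ∧ s(u, v) = s(a, x)) ∨ (x ∉ K ∧ s(u, v) = s(b, x))) := by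
  unfold sel
  rw [SimpleGraph.deleteEdges_adj]
  rfl

theorem iff' (K : Finset α) (x : α) (hab : G.Adj a b) (hxa : x ≠ a) (hxb : x ≠ b) :
      ((sel G a b K).Adj a x ↔ G.Adj a x ∧ (G.Adj b x → x ∉ K)) ∧
      ((sel G a b K).Adj b x ↔ G.Adj b x ∧ (G.Adj a x → x ∈ K)) := by
  have hne := hab.ne
  constructor
  · rw [sel_adj]
    refine and_congr_right fun hax => ⟨fun h hbx hxK => h ⟨x, hax, hbx, Or.inl ⟨hxK, rfl⟩⟩, ?_⟩
    rintro h ⟨y, hay, hby, ⟨hyK, he⟩ | ⟨hyK, he⟩⟩
    · rcases Sym2.eq_iff.1 he with ⟨_, h1⟩ | ⟨h1, h2⟩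
      · exact h (h1 ▸ hby) (h1 ▸ hyK)
      · exact hxa h2
    · rcases Sym2.eq_iff.1 he with ⟨h1, _⟩ | ⟨h1, h2⟩
      · exact hne h1
      · exact hxb h2
  · rw [sel_adj]
    refine and_congr_right fun hbx => ⟨fun h hax => by_contra fun hxK => h ⟨x, hax, hbx, Or.inr ⟨hxK, rfl⟩⟩, ?_⟩
    rintro h ⟨y, hay, hby, ⟨hyK, he⟩ | ⟨hyK, he⟩⟩
    · rcases Sym2.eq_iff.1 he with ⟨h1, _⟩ | ⟨h1, h2⟩
      · exact hne h1.symm
      · exact hxa h2
    · rcases Sym2.eq_iff.1 he with ⟨_, h1⟩ | ⟨h1, h2⟩
      · exact hyK (h1 ▸ h (h1 ▸ hay))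
      · exact hxb h2

theorem off' (K : Finset α) (u v : α) (hua : u ≠ a) (hub : u ≠ b) (hva : v ≠ a) (hvb : v ≠ b) :
    ((sel G a b K).Adj u v ↔ G.Adj u v) := by
  rw [sel_adj]
  refine and_iff_left ?_
  rintro ⟨y, hay, hby, ⟨hyK, he⟩ | ⟨hyK, he⟩⟩
  · rcases Sym2.eq_iff.1 he with ⟨h1, _⟩ | ⟨h1, h2⟩
    · exact hua h1
    · exact hva h2
  · rcases Sym2.eq_iff.1 he with ⟨h1, _⟩ | ⟨h1, h2⟩
    · exact hub h1
    · exact hvb h2

theorem adj' (K : Finset α) (hab : G.Adj a b) : (sel G a b K).Adj a b := by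
  rw [sel_adj]
  refine ⟨hab, ?_⟩
  rintro ⟨y, hay, hby, ⟨hyK, he⟩ | ⟨hyK, he⟩⟩
  · rcases Sym2.eq_iff.1 he with ⟨_, h1⟩ | ⟨h1, h2⟩
    · exact hby.ne h1
    · exact hab.ne h2.symm
  · rcases Sym2.eq_iff.1 he with ⟨h1, _⟩ | ⟨h1, h2⟩
    · exact hab.ne h1
    · exact hay.ne h1

theorem contr' (K : Finset α) (hab : G.Adj a b) : contr (sel G a b K) a b = contr G a b := by
  ext u w
  rw [contr_adj, contr_adj]
  refine and_congr_right fun hub => and_congr_right fun hwb => and_congr_right fun huw => ?_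
  by_cases hua : u = a
  · have hwa : w ≠ a := fun h => huw (hua.trans h.symm)
    obtain ⟨h1, h2⟩ := iff' K w hab hwa hwb
    rw [hua]
    tauto
  · by_cases hwa : w = a
    · obtain ⟨h1, h2⟩ := iff' K u hab hua hub
      rw [hwa]
      rw [SimpleGraph.adj_comm _ u a, SimpleGraph.adj_comm _ u b, SimpleGraph.adj_comm _ u a,
        SimpleGraph.adj_comm _ u b]
      tauto
    · rw [off' K u w hua hub hwa hwb]
      tauto

theorem triC {x : α} (hab : G.Adj a b) (hax : G.Adj a x) (hbx : G.Adj b x) :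
    IsCyc G {s(a, x), s(b, x), s(a, b)} := by
  have h := isCyc_of_isPth_del (P := {s(a, b)}) hax.symm hbx.symm hab.ne (by
    rw [isPth_del]
    refine ⟨IsPth.edge hab, ?_⟩
    rw [vs_singleton]
    simp only [disjoint_singleton_right, mem_insert, mem_singleton, not_or]
    exact ⟨fun h => hax.ne h.symm, fun h => hbx.ne h.symm⟩)
  rwa [Sym2.eq_swap, Sym2.eq_swap (a := x) (b := b)] at h

end SEFM

open SEFM in
theorem specSEF : SpecSEF where
  le := fun G a b K => SimpleGraph.deleteEdges_le _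
  adj := fun {α _ _ G a b} K hab => ⟨adj' K hab, fun x hx => by
    have hxa : x ≠ a := fun h => hx.1.ne h.symm
    have hxb : x ≠ b := fun h => hx.2.ne h.symm
    obtain ⟨h1, h2⟩ := iff' K x hab hxa hxb
    have h3 := h1.1 hx.1
    have h4 := h2.1 hx.2
    exact h3.2 h4.1 (h4.2 h3.1), contr' K hab⟩
  iff := fun K x hab hxa hxb => iff' K x hab hxa hxb
  off := fun K u v h1 h2 h3 h4 => off' K u v h1 h2 h3 h4
  cyc := by
    intro α _ _ G a b C hab hC
    by_cases hx : ∃ x, G.Adj a x ∧ G.Adj b x ∧ s(a, x) ∈ C ∧ s(b, x) ∈ C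
    · obtain ⟨x, hax, hbx, h1, h2⟩ := hx
      left
      refine ⟨x, hax, hbx, ?_⟩
      have hab' := hC.2 (left_mem_vs h1) (left_mem_vs h2)
      refine (hC.1.eq_of_subset (triC hab hax hbx) ?_).symm
      intro e he
      simp only [mem_insert, mem_singleton] at he
      rcases he with rfl | rfl | rfl
      · exact h1
      · exact h2
      · exact hab'
    · right
      refine ⟨?_, hC.2⟩
      unfold sel
      rw [isCyc_deleteEdges]
      refine ⟨hC.1, ?_⟩
      rintro e he ⟨x, hax, hbx, ⟨hxK, rfl⟩ | ⟨hxK, rfl⟩⟩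
      · exact hx ⟨x, hax, hbx, he, (mem_filter.1 hxK).2⟩
      · exact hxK (mem_filter.2 ⟨mem_univ _, he⟩)
  z1 := by
    intro α _ _ G a b K c hab hc h1 h2
    rw [mem_Z1] at hc ⊢
    refine ⟨fun e he => ?_, hc.2⟩
    unfold sel
    rw [SimpleGraph.edgeSet_deleteEdges]
    refine ⟨hc.1 e he, ?_⟩
    rintro ⟨x, hax, hbx, ⟨hxK, rfl⟩ | ⟨hxK, rfl⟩⟩
    · exact he (h1 x hxK hax hbx)
    · exact he (h2 x hxK hax hbx)
  tri := fun hab hax hbx => ⟨triC hab hax hbx, fun _ _ => by simp⟩

end DL
end
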