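import Pool.Agent.DL.EX.Spec

/-!
# MP_3ff0f8_gt, algebra half, module MEA
-/

set_option autoImplicit false

open SimpleGraph Finset

namespace DL

namespace MEAM

variable {α : Type} [Fintype α] [DecidableEq α]

/-- a `D_4` minor of a subgraph -/
def up {G H : SimpleGraph α} (h : H ≤ G) (D : D4M H) : D4M G where
  X := D.X
  disj := D.disj
  T := D.T
  sub := fun i => (D.sub i).trans h
  inX := D.inX
  conn := D.conn
  acyc := D.acyc
  p := D.p
  q := D.q
  pX := D.pX
  qX := D.qX
  adj := fun i b => h (D.adj i b)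
  ne := D.ne

theorem up_cyc {G H : SimpleGraph α} (h : H ≤ G) (D : D4M H) (e : Fin 4 → Bool) :
    (up h D).cyc e = D.cyc e := rfl

open Classical in
/-- the function on the cycles of `contr G a b` given by a function on the cycles of `G` -/
noncomputable def trf (G : SimpleGraph α) (a b : α) (f : Finset (Sym2 α) → ZMod 2)
    (D : Finset (Sym2 α)) : ZMod 2 :=
  if h : ∃ C, CycM G a b C ∧ chi C = lft G a b (chi D) then f h.choose else 0

theorem trf_eq {G : SimpleGraph α} {a b : α} (f : Finset (Sym2 α) → ZMod 2)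
    {C D : Finset (Sym2 α)} (h1 : CycM G a b C) (h2 : chi C = lft G a b (chi D)) :
    trf G a b f D = f C := by
  classical
  have hex : ∃ C, CycM G a b C ∧ chi C = lft G a b (chi D) := ⟨C, h1, h2⟩
  unfold trf
  rw [dif_pos hex]
  congr 1
  exact chi_injective (hex.choose_spec.2.trans h2.symm)

end MEAM

open MEAM in
theorem specMEA (hCTA : SpecCTA) (hCTD : SpecCTD) (hCTF : SpecCTF) (hSEF : SpecSEF) : SpecMEA := by
  intro α _ _ G a b hab hU f hf K
  obtain ⟨hadj, hno, hcon⟩ := hSEF.adj K hab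
  have hle := hSEF.le G a b K
  have hF : InF (contr G a b) (trf (sel G a b K) a b f) := by
    apply hU
    rw [← hcon]
    intro D
    obtain ⟨D', hD'⟩ := hCTD hadj hno D
    have h1 := hf (up hle D')
    rw [← h1]
    refine sum_congr rfl fun e _ => ?_
    rw [up_cyc, trf_eq f (hD' e).1 (hD' e).2]
  obtain ⟨φ, hφ1, hφ2⟩ := hCTF.up hab K _ hF
  refine ⟨φ, hφ1, ?_⟩
  intro C hC
  obtain ⟨D, hD1, hD2, hD3⟩ := hCTA.cp hadj hno C hC
  rw [hcon] at hD1
  rw [hφ2 C D hC hD1 hD2, trf_eq f hC hD2]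

end DL
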