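import Pool.Agent.DL.EX.Spec
import Pool.Agent.DL.EX.MEA

section
/-!
# MP_3ff0f8_gt, algebra half, module MEB
-/
set_option autoImplicit false
set_option linter.unusedSectionVars false

open SimpleGraph Finset

namespace DL

namespace MEBM

variable {α : Type} [Fintype α] [DecidableEq α]

/-! ### The space `F(G)` -/

theorem inF_mono {G H : SimpleGraph α} (h : H ≤ G) {φ : Finset (Sym2 α) → ZMod 2}
    (hφ : InF G φ) : InF H φ := by
  obtain ⟨p, hp, hp0, l, hl⟩ := hφ
  exact ⟨p, hp, hp0, l, fun C hC => hl C (hC.mono h)⟩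

theorem inF_congr {G : SimpleGraph α} {φ ψ : Finset (Sym2 α) → ZMod 2}
    (hφ : InF G φ) (h : ∀ C, IsCyc G C → ψ C = φ C) : InF G ψ := by
  obtain ⟨p, hp, hp0, l, hl⟩ := hφ
  exact ⟨p, hp, hp0, l, fun C hC => (h C hC).trans (hl C hC)⟩

theorem cohs_zero (C : Finset (Sym2 α)) : cohs (fun _ _ _ _ : α => (0 : ZMod 2)) C = 0 := by
  simp [cohs]

theorem cohs_add (l l' : α → α → α → α → ZMod 2) (C : Finset (Sym2 α)) :
    cohs (fun a b c d => l a b c d + l' a b c d) C = cohs l C + cohs l' C := by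
  simp only [cohs, add_mul, sum_add_distrib]

theorem inF_add (hPOL : SpecPOL) {G : SimpleGraph α} {φ ψ : Finset (Sym2 α) → ZMod 2}
    (hφ : InF G φ) (hψ : InF G ψ) : InF G (fun C => φ C + ψ C) := by
  obtain ⟨p, hp, hp0, l, hl⟩ := hφ
  obtain ⟨p', hp', hp0', l', hl'⟩ := hψ
  refine ⟨fun c => p c + p' c, hPOL.add hp hp', by simp [hp0, hp0'],
    fun a b c d => l a b c d + l' a b c d, fun C hC => ?_⟩
  have h1 := cohs_add l l' C
  simp only [cohs] at h1
  simp only [h1]
  rw [hl C hC, hl' C hC]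
  ring

theorem inF_poly (G : SimpleGraph α) {p : Chain α → ZMod 2} (hp : DegLE 3 p) (hp0 : p 0 = 0) :
    InF G (fun C => p (chi C)) :=
  ⟨p, hp, hp0, fun _ _ _ _ => 0, fun C _ => by simp⟩

theorem inF_zero (hPOL : SpecPOL) (G : SimpleGraph α) : InF G (fun _ => 0) :=
  inF_poly G (p := fun _ => 0) (hPOL.zero 3) rfl

theorem inF_cohs (hPOL : SpecPOL) (G : SimpleGraph α) (l : α → α → α → α → ZMod 2) :
    InF G (cohs l) :=
  ⟨fun _ => 0, hPOL.zero 3, rfl, l, fun C _ => by simp [cohs]⟩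

theorem inF_sum (hPOL : SpecPOL) {G : SimpleGraph α} {ι : Type} [DecidableEq ι] (s : Finset ι)
    (φ : ι → Finset (Sym2 α) → ZMod 2) (h : ∀ i ∈ s, InF G (φ i)) :
    InF G (fun C => ∑ i ∈ s, φ i C) := by
  induction s using Finset.induction_on with
  | empty => simpa using inF_zero hPOL G
  | insert i s hi ih =>
    have h1 := inF_add hPOL (h i (mem_insert_self _ _))
      (ih fun j hj => h j (mem_insert_of_mem hj))
    refine inF_congr h1 fun C _ => ?_
    rw [sum_insert hi]

/-! ### `sel` -/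

theorem sel_congr {G : SimpleGraph α} {a b : α} {K K' : Finset α}
    (h : ∀ x, G.Adj a x → G.Adj b x → (x ∈ K ↔ x ∈ K')) : sel G a b K = sel G a b K' := by
  unfold sel
  congr 1
  ext e
  simp only [Set.mem_ofPred_eq]
  constructor
  · rintro ⟨x, h1, h2, h3⟩
    refine ⟨x, h1, h2, ?_⟩
    rw [← h x h1 h2]
    exact h3
  · rintro ⟨x, h1, h2, h3⟩
    refine ⟨x, h1, h2, ?_⟩
    rw [h x h1 h2]
    exact h3

theorem cycM_mono {G H : SimpleGraph α} {a b : α} (h : H ≤ G) {C : Finset (Sym2 α)}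
    (hC : CycM H a b C) : CycM G a b C := ⟨hC.1.mono h, hC.2⟩

theorem sum_two {F : α → α → ZMod 2} {p q : α} (hpq : p ≠ q)
    (h : ∀ u v, F u v ≠ 0 → (u = p ∧ v = q) ∨ (u = q ∧ v = p)) :
    ∑ u, ∑ v, F u v = F p q + F q p := by
  have h1 : ∀ u, ∑ v, F u v = (if u = p then F p q else 0) + (if u = q then F q p else 0) := by
    intro u
    by_cases hup : u = p
    · subst hup
      rw [if_pos rfl, if_neg hpq, add_zero]
      refine sum_eq_single q (fun v _ hv => ?_) (fun h => absurd (mem_univ _) h)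
      by_contra hne
      rcases h u v hne with ⟨_, h2⟩ | ⟨h2, _⟩
      · exact hv h2
      · exact hpq h2
    · by_cases huq : u = q
      · subst huq
        rw [if_neg hup, if_pos rfl, zero_add]
        refine sum_eq_single p (fun v _ hv => ?_) (fun h => absurd (mem_univ _) h)
        by_contra hne
        rcases h u v hne with ⟨h2, _⟩ | ⟨_, h2⟩
        · exact hup h2
        · exact hv h2
      · rw [if_neg hup, if_neg huq, add_zero]
        refine sum_eq_zero fun v _ => ?_
        by_contra hne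
        rcases h u v hne with ⟨h2, _⟩ | ⟨h2, _⟩
        · exact hup h2
        · exact huq h2
  simp only [h1, sum_add_distrib, sum_ite_eq', mem_univ, if_true]

theorem add_eq_zero_iff' {x y : ZMod 2} (h : x = y) : x + y = 0 := by
  rw [h]
  exact zmod2_add_self y

theorem mrg_b (a b : α) : mrg a b b = a := if_pos rfl

theorem mrg_ne {a b x : α} (h : x ≠ b) : mrg a b x = x := if_neg h

/-- the value of the lift -/
theorem lft_apply {G : SimpleGraph α} {a b u v : α} (h : G.Adj u v) (huv : s(u, v) ≠ s(a, b))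
    (c : Chain α) : lft G a b c s(u, v) = c s(mrg a b u, mrg a b v) := by
  classical
  unfold lft
  rw [if_neg huv, if_pos ((mem_edgeSet G).2 h)]
  rfl

/-- the prescribed lift of the coefficients -/
def mlift (μ : α → α → α → α → ZMod 2) (a b x : α) : α → α → α → α → ZMod 2 := fun u v c d =>
  if c = a ∨ c = b ∨ d = a ∨ d = b then 0
  else if u = b ∧ v = x then μ a x c d else if u = x ∧ v = b then μ x a c d else 0

theorem cohs_lift (hCTB : SpecCTB) (hSEF : SpecSEF) {G : SimpleGraph α} {a b x : α}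
    (hab : G.Adj a b) (hax : G.Adj a x) (hbx : G.Adj b x) {μ : α → α → α → α → ZMod 2}
    (hμ : ∀ u v c d, μ u v c d ≠ 0 → s(u, v) = s(a, x) ∧ Dj4 u v c d)
    {C D : Finset (Sym2 α)} (hC : CycM (sel G a b {x}) a b C)
    (hD : IsCyc (contr (sel G a b {x}) a b) D)
    (hCD : chi C = lft (sel G a b {x}) a b (chi D)) :
    cohs (mlift μ a b x) C = cohs μ D := by
  obtain ⟨hadj, hno, hcon⟩ := hSEF.adj {x} hab
  have hxa : x ≠ a := hax.ne'
  have hxb : x ≠ b := hbx.ne'
  have hbK : (sel G a b {x}).Adj b x :=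
    ((hSEF.iff {x} x hab hxa hxb).2).2 ⟨hbx, fun _ => mem_singleton_self x⟩
  have hnb : s(b, x) ≠ s(a, b) := by
    intro h
    rcases Sym2.eq_iff.1 h with ⟨h1, _⟩ | ⟨_, h1⟩
    · exact hab.ne h1.symm
    · exact hxa h1
  have hDb : ∀ v, s(b, v) ∉ D := by
    intro v hv
    have h1 := hD.adj_of_mem hv
    exact h1.1 rfl
  -- the terms
  have key : ∀ p q p' q' : α, (sel G a b {x}).Adj p q → s(p, q) ≠ s(a, b) → mrg a b p = p' →
      mrg a b q = q' → s(p', q') = s(a, x) → ∀ c d, c ≠ a → c ≠ b → d ≠ a → d ≠ b →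
      μ p' q' c d * coh p q c d C = μ p' q' c d * coh p' q' c d D := by
    intro p q p' q' hpq hpq' hp hq _ c d hca hcb hda hdb
    by_cases hcd : (sel G a b {x}).Adj c d
    · have h1 := hCTB hadj hno C D hC hD hCD p q c d hpq hcd hpq' (by
        intro h
        rcases Sym2.eq_iff.1 h with ⟨h1, _⟩ | ⟨h1, _⟩
        · exact hca h1
        · exact hcb h1)
      rw [h1, hp, hq, mrg_ne hcb, mrg_ne hdb]
    · have h1 : s(c, d) ∉ C := fun h => hcd (hC.1.adj_of_mem h)
      have h2 : s(c, d) ∉ D := by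
        intro h
        apply hcd
        have h3 := hD.adj_of_mem h
        rw [contr_adj] at h3
        rcases h3.2.2.2 with h4 | ⟨h4, _⟩ | ⟨h4, _⟩
        · exact h4
        · exact absurd h4 hca
        · exact absurd h4 hda
      rw [coh_eq_zero_right h1, coh_eq_zero_right h2]
  unfold cohs
  rw [sum_two (F := fun u v => ∑ c, ∑ d, mlift μ a b x u v c d * coh u v c d C) (p := b) (q := x)
    (Ne.symm hxb), sum_two (F := fun u v => ∑ c, ∑ d, μ u v c d * coh u v c d D) (p := a) (q := x)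
    (Ne.symm hxa)]
  · have hz1 : ∀ c d, (c = a ∨ c = b ∨ d = a ∨ d = b) → μ a x c d * coh a x c d D = 0 := by
      intro c d h
      by_contra hne
      have h1 : μ a x c d ≠ 0 := left_ne_zero_of_mul hne
      obtain ⟨_, _, _, h2, h3, _, _⟩ := hμ a x c d h1
      rcases h with h | h | h | h
      · exact h2 h.symm
      · apply hne
        rw [h, coh_eq_zero_right (hDb d), mul_zero]
      · exact h3 h.symm
      · apply hne
        rw [h, coh_eq_zero_right (by rw [Sym2.eq_swap]; exact hDb c), mul_zero]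
    have hz2 : ∀ c d, (c = a ∨ c = b ∨ d = a ∨ d = b) → μ x a c d * coh x a c d D = 0 := by
      intro c d h
      by_contra hne
      have h1 : μ x a c d ≠ 0 := left_ne_zero_of_mul hne
      obtain ⟨_, _, _, _, _, h2, h3⟩ := hμ x a c d h1
      rcases h with h | h | h | h
      · exact h2 h.symm
      · apply hne
        rw [h, coh_eq_zero_right (hDb d), mul_zero]
      · exact h3 h.symm
      · apply hne
        rw [h, coh_eq_zero_right (by rw [Sym2.eq_swap]; exact hDb c), mul_zero]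
    congr 1
    · refine sum_congr rfl fun c _ => sum_congr rfl fun d _ => ?_
      by_cases h : c = a ∨ c = b ∨ d = a ∨ d = b
      · rw [hz1 c d h]
        unfold mlift
        rw [if_pos h, zero_mul]
      · unfold mlift
        rw [if_neg h, if_pos ⟨rfl, rfl⟩]
        push Not at h
        exact key b x a x hbK hnb (mrg_b a b) (mrg_ne hxb) rfl c d h.1 h.2.1 h.2.2.1 h.2.2.2
    · refine sum_congr rfl fun c _ => sum_congr rfl fun d _ => ?_
      by_cases h : c = a ∨ c = b ∨ d = a ∨ d = b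
      · rw [hz2 c d h]
        unfold mlift
        rw [if_pos h, zero_mul]
      · unfold mlift
        rw [if_neg h, if_neg (fun h1 => hxb h1.1), if_pos ⟨rfl, rfl⟩]
        push Not at h
        exact key x b x a hbK.symm (by rw [Sym2.eq_swap]; exact hnb) (mrg_ne hxb) (mrg_b a b)
          Sym2.eq_swap c d h.1 h.2.1 h.2.2.1 h.2.2.2
  · intro u v hne
    obtain ⟨c, _, hc⟩ := exists_ne_zero_of_sum_ne_zero hne
    obtain ⟨d, _, hd⟩ := exists_ne_zero_of_sum_ne_zero hc
    have h1 := hμ u v c d (left_ne_zero_of_mul hd)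
    exact Sym2.eq_iff.1 h1.1
  · intro u v hne
    obtain ⟨c, _, hc⟩ := exists_ne_zero_of_sum_ne_zero hne
    obtain ⟨d, _, hd⟩ := exists_ne_zero_of_sum_ne_zero hc
    have h1 := left_ne_zero_of_mul hd
    unfold mlift at h1
    by_cases h2 : c = a ∨ c = b ∨ d = a ∨ d = b
    · rw [if_pos h2] at h1
      exact absurd rfl h1
    · rw [if_neg h2] at h1
      by_cases h3 : u = b ∧ v = x
      · exact Or.inl h3
      · rw [if_neg h3] at h1
        by_cases h4 : u = x ∧ v = b
        · exact Or.inr h4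
        · rw [if_neg h4] at h1
          exact absurd rfl h1

/-- the lift is zero on the cycles without `bx` -/
theorem cohs_mlift_zero {a b x : α} {μ : α → α → α → α → ZMod 2} {C : Finset (Sym2 α)}
    (h : s(b, x) ∉ C) : cohs (mlift μ a b x) C = 0 := by
  unfold cohs
  refine sum_eq_zero fun u _ => sum_eq_zero fun v _ => sum_eq_zero fun c _ =>
    sum_eq_zero fun d _ => ?_
  unfold mlift
  split_ifs with h1 h2 h3
  · rw [zero_mul]
  · rw [h2.1, h2.2, coh_eq_zero_left h, mul_zero]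
  · rw [h3.1, h3.2, coh_eq_zero_left (by rw [Sym2.eq_swap]; exact h), mul_zero]
  · rw [zero_mul]

theorem deg_coord (hPOL : SpecPOL) (e : Sym2 α) : DegLE 1 (fun c : Chain α => c e) :=
  hPOL.ofAdd fun _ _ => rfl

/-- Step 1 for one common neighbour -/
theorem one (hPOL : SpecPOL) (hCTA : SpecCTA) (hCTB : SpecCTB) (hCTF : SpecCTF) (hSEF : SpecSEF)
    (hEXD : SpecEXD) {G : SimpleGraph α} {a b x : α} (hab : G.Adj a b) (hax : G.Adj a x)
    (hbx : G.Adj b x) (hS : S3S (delE (contr G a b) a x)) (hK : KZ (delE (contr G a b) a x))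
    (θ : Finset (Sym2 α) → ZMod 2) (hθ : InF G θ)
    (h0 : ∀ C, CycM (sel G a b {x}) a b C → CycM (sel G a b ∅) a b C → θ C = 0) :
    ∃ φ, InF G φ ∧ (∀ C, s(b, x) ∉ C → φ C = 0) ∧
      ∀ C, CycM (sel G a b {x}) a b C → θ C = φ C := by
  classical
  obtain ⟨hadj, hno, hcon⟩ := hSEF.adj {x} hab
  have hle := hSEF.le G a b {x}
  have hxa : x ≠ a := hax.ne'
  have hxb : x ≠ b := hbx.ne'
  have hbK : (sel G a b {x}).Adj b x :=
    ((hSEF.iff {x} x hab hxa hxb).2).2 ⟨hbx, fun _ => mem_singleton_self x⟩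
  have hnb : s(b, x) ≠ s(a, b) := by
    intro h
    rcases Sym2.eq_iff.1 h with ⟨h1, _⟩ | ⟨_, h1⟩
    · exact hab.ne h1.symm
    · exact hxa h1
  have hval : ∀ C D : Finset (Sym2 α), chi C = lft (sel G a b {x}) a b (chi D) →
      chi C s(b, x) = chi D s(a, x) := by
    intro C D h
    rw [h, lft_apply hbK hnb, mrg_b, mrg_ne hxb]
  -- the function on `H`
  have hF : InF (contr G a b) (MEAM.trf (sel G a b {x}) a b θ) := by
    rw [← hcon]
    refine hCTF.down hadj hno θ _ (inF_mono hle hθ) ?_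
    intro C D hC _ hCD
    exact MEAM.trf_eq θ hC hCD
  have hzero : ∀ D, IsCyc (delE (contr G a b) a x) D →
      MEAM.trf (sel G a b {x}) a b θ D = 0 := by
    intro D hD
    rw [isCyc_delE, ← hcon] at hD
    obtain ⟨C, hC1, hC2⟩ := hCTA.cl hadj hno D hD.1
    rw [MEAM.trf_eq θ hC1 hC2]
    apply h0 C hC1
    have hbC : s(b, x) ∉ C := by
      rw [← chi_ne_zero, hval C D hC2, chi_ne_zero]
      exact hD.2
    refine ⟨hC1.1.transfer fun e he => ?_, hC1.2⟩
    have h1 := hC1.1.subset e he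
    unfold sel at h1 ⊢
    rw [edgeSet_deleteEdges] at h1 ⊢
    refine ⟨h1.1, ?_⟩
    rintro ⟨y, hy1, hy2, hy3⟩
    apply h1.2
    rcases hy3 with ⟨hy3, _⟩ | ⟨_, hy4⟩
    · exact absurd hy3 (notMem_empty y)
    · refine ⟨y, hy1, hy2, Or.inr ⟨?_, hy4⟩⟩
      rw [mem_singleton]
      rintro rfl
      apply hbC
      rw [← hy4]
      exact he
  obtain ⟨q, μ, hq1, hq2, hμ, hval2⟩ := hEXD (delE (contr G a b) a x) (contr G a b)
    (delE_le _ _ _) hS hK _ hF hzero
  have hsd : ∀ e, e ∈ (contr G a b).edgeSet \ (delE (contr G a b) a x).edgeSet → e = s(a, x) := by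
    rintro e ⟨he1, he2⟩
    by_contra hne
    apply he2
    induction e using Sym2.ind with
    | _ u v =>
      rw [mem_edgeSet] at he1 ⊢
      rw [delE_adj]
      exact ⟨he1, hne⟩
  have hμ' : ∀ u v c d, μ u v c d ≠ 0 → s(u, v) = s(a, x) ∧ Dj4 u v c d := fun u v c d h =>
    ⟨hsd _ (hμ u v c d h).1, (hμ u v c d h).2⟩
  let L : Chain α →+ Chain α :=
    { toFun := prj a b
      map_zero' := by
        funext e
        unfold prj
        simp
      map_add' := fun c d => (hCTA.lin G a b c d).2 }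
  have hpdeg : DegLE 3 (fun c : Chain α => c s(b, x) * q s(a, x) (prj a b c)) :=
    hPOL.mul (deg_coord hPOL s(b, x)) (hPOL.comp L (hq1 s(a, x)))
  refine ⟨fun C => chi C s(b, x) * q s(a, x) (prj a b (chi C)) + cohs (mlift μ a b x) C,
    inF_add hPOL (inF_poly G hpdeg (by simp)) (inF_cohs hPOL G _), ?_, ?_⟩
  · intro C hC
    show chi C s(b, x) * q s(a, x) (prj a b (chi C)) + cohs (mlift μ a b x) C = 0
    rw [chi_of_notMem hC, zero_mul, zero_add, cohs_mlift_zero hC]
  · intro C hC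
    obtain ⟨D, hD1, hD2, hD3⟩ := hCTA.cp hadj hno C hC
    have h1 : IsCyc (contr G a b) D := by rw [← hcon]; exact hD1
    have h2 := hval2 D h1
    rw [MEAM.trf_eq θ hC hD2, sum_eq_single s(a, x)] at h2
    · show θ C = chi C s(b, x) * q s(a, x) (prj a b (chi C)) + cohs (mlift μ a b x) C
      rw [h2, cohs_lift hCTB hSEF hab hax hbx hμ' hC hD1 hD2, hval C D hD2, ← hD3]
    · intro e _ he
      have h3 : q e = 0 := hq2 e fun h => he (hsd e h)
      rw [h3]
      simp
    · intro h
      exact absurd (mem_univ _) h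

end MEBM

open MEBM in
theorem specMEB (hPOL : SpecPOL) (hCTA : SpecCTA) (hCTB : SpecCTB) (hCTF : SpecCTF)
    (hSEF : SpecSEF) (hEXD : SpecEXD) (hMEA : SpecMEA) : SpecMEB := by
  intro α _ _ G a b hab _ hU hSK f hf
  classical
  obtain ⟨φ₀, hφ₀, hφ₀'⟩ := hMEA hab hU f hf ∅
  have hone : ∀ x : α, ∃ φ, InF G φ ∧ (∀ C, s(b, x) ∉ C → φ C = 0) ∧
      (G.Adj a x → G.Adj b x → ∀ C, CycM (sel G a b {x}) a b C → f C + φ₀ C = φ C) := by
    intro x
    by_cases hx : G.Adj a x ∧ G.Adj b x
    · obtain ⟨θ, hθ, hθ'⟩ := hMEA hab hU f hf {x}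
      obtain ⟨φ, h1, h2, h3⟩ := one hPOL hCTA hCTB hCTF hSEF hEXD hab hx.1 hx.2 (hSK x hx.1 hx.2).1
        (hSK x hx.1 hx.2).2 (fun C => θ C + φ₀ C) (inF_add hPOL hθ hφ₀) (by
          intro C hC hC'
          show θ C + φ₀ C = 0
          rw [← hθ' C hC, ← hφ₀' C hC']
          exact zmod2_add_self _)
      refine ⟨φ, h1, h2, fun _ _ C hC => ?_⟩
      rw [← h3 C hC, hθ' C hC]
    · refine ⟨fun _ => 0, inF_zero hPOL G, fun _ _ => rfl, fun h1 h2 => absurd ⟨h1, h2⟩ hx⟩
  choose φx hx1 hx2 hx3 using hone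
  let t : α → Finset (Sym2 α) := fun x => {s(a, x), s(b, x), s(a, b)}
  let κ : α → ZMod 2 := fun x => f (t x) + φ₀ (t x) + φx x (t x)
  have hmem : ∀ x, x ∈ cmn G a b ↔ G.Adj a x ∧ G.Adj b x := fun x => by simp [cmn]
  have hdeg : DegLE 3 (fun c : Chain α => ∑ x ∈ cmn G a b, κ x * (c s(a, x) * c s(b, x))) := by
    refine hPOL.sum _ _ fun x _ => ?_
    exact hPOL.mul (hPOL.const 1 (κ x)) (hPOL.mul (deg_coord hPOL _) (deg_coord hPOL _))
  refine ⟨fun C => (φ₀ C + ∑ x ∈ cmn G a b, φx x C) +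
    ∑ x ∈ cmn G a b, κ x * (chi C s(a, x) * chi C s(b, x)),
    inF_add hPOL (inF_add hPOL hφ₀ (inF_sum hPOL _ _ fun x _ => hx1 x))
      (inF_poly G hdeg (by simp)), ?_⟩
  intro C hC huniq
  show f C = (φ₀ C + ∑ x ∈ cmn G a b, φx x C) +
    ∑ x ∈ cmn G a b, κ x * (chi C s(a, x) * chi C s(b, x))
  rcases hSEF.cyc hab hC with ⟨x, hax, hbx, hCx⟩ | hsel
  · have hxm : x ∈ cmn G a b := (hmem x).2 ⟨hax, hbx⟩
    have hbC : s(b, x) ∈ C := by rw [hCx]; simp
    have haC : s(a, x) ∈ C := by rw [hCx]; simp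
    rw [sum_eq_single_of_mem x hxm, sum_eq_single_of_mem x hxm, chi_of_mem haC, chi_of_mem hbC]
    · have hCt : t x = C := hCx.symm
      show f C = (φ₀ C + φx x C) + (f (t x) + φ₀ (t x) + φx x (t x)) * (1 * 1)
      rw [hCt]
      have e1 := zmod2_add_self (φ₀ C)
      have e2 := zmod2_add_self (φx x C)
      linear_combination -e1 - e2
    · intro y hy hyx
      have : s(b, y) ∉ C := fun h => hyx (huniq y x hy hxm h hbC)
      rw [chi_of_notMem this, mul_zero, mul_zero]
    · intro y hy hyx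
      exact hx2 y C fun h => hyx (huniq y x hy hxm h hbC)
  · by_cases hex : ∃ x ∈ cmn G a b, s(b, x) ∈ C
    · obtain ⟨x, hxm, hbC⟩ := hex
      obtain ⟨hax, hbx⟩ := (hmem x).1 hxm
      have hs : sel G a b (univ.filter fun x => s(b, x) ∈ C) = sel G a b {x} := by
        refine sel_congr fun y hy1 hy2 => ?_
        rw [mem_filter, mem_singleton]
        constructor
        · rintro ⟨_, h⟩
          exact huniq y x ((hmem y).2 ⟨hy1, hy2⟩) hxm h hbC
        · rintro rfl
          exact ⟨mem_univ _, hbC⟩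
      rw [hs] at hsel
      have h1 := hx3 x hax hbx C hsel
      have haC : s(a, x) ∉ C := by
        intro h
        have h2 := hsel.1.adj_of_mem h
        rw [(hSEF.iff {x} x hab hax.ne' hbx.ne').1] at h2
        exact h2.2 hbx (mem_singleton_self x)
      rw [sum_eq_single_of_mem x hxm, sum_eq_zero, ← h1]
      · have e1 := zmod2_add_self (φ₀ C)
        linear_combination -e1
      · intro y hy
        by_cases hyx : y = x
        · rw [hyx, chi_of_notMem haC, zero_mul, mul_zero]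
        · have : s(b, y) ∉ C := fun h => hyx (huniq y x hy hxm h hbC)
          rw [chi_of_notMem this, mul_zero, mul_zero]
      · intro y hy hyx
        exact hx2 y C fun h => hyx (huniq y x hy hxm h hbC)
    · push Not at hex
      have hs : sel G a b (univ.filter fun x => s(b, x) ∈ C) = sel G a b ∅ := by
        refine sel_congr fun y hy1 hy2 => ?_
        rw [mem_filter]
        constructor
        · rintro ⟨_, h⟩
          exact absurd h (hex y ((hmem y).2 ⟨hy1, hy2⟩))
        · intro h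
          exact absurd h (notMem_empty y)
      rw [hs] at hsel
      rw [sum_eq_zero, sum_eq_zero, hφ₀' C hsel, add_zero, add_zero]
      · intro y hy
        rw [chi_of_notMem (hex y hy), mul_zero, mul_zero]
      · intro y hy
        exact hx2 y C (hex y hy)

end DL
end

section
/-!
MP_3ff0f8_gt, EX/K block, module H1L (helper19): a cocycle of the deleted product summed over
a cycle.
-/
open SimpleGraph Finset

namespace DL.H1LM

variable {α : Type} [Fintype α] [DecidableEq α]

/-- a coboundary sums to zero over a cycle -/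
theorem sum_cob {J : SimpleGraph α} {ζ : Finset (Sym2 α)} (hζ : IsCyc J ζ) (f : α → ZMod 2) :
    ∑ h ∈ ζ, cob f h = 0 := by
  rw [← sum_mul_chi]
  exact cob_orth hζ.chi_mem f

/-- the cocycle condition for one edge -/
theorem coc {J : SimpleGraph α} {al : α → Sym2 α → ZMod 2} (h : IsCoc J al) {a b : α}
    (hab : J.Adj a b) {e : Sym2 α} (he : e ∈ J.edgeSet) (ha : a ∉ e) (hb : b ∉ e) :
    al a e + al b e = cob (fun u => al u s(a, b)) e := by
  induction e using Sym2.ind with
  | _ c d =>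
    simp only [Sym2.mem_iff, not_or] at ha hb
    have := h a b c d hab he ha.1 ha.2 hb.1 hb.2
    rw [cob_mk]
    have e1 := zmod2_add_self (al c s(a, b))
    have e2 := zmod2_add_self (al d s(a, b))
    calc _ = (al a s(c, d) + al b s(c, d) + al c s(a, b) + al d s(a, b)) -
          (al c s(a, b) + al c s(a, b)) - (al d s(a, b) + al d s(a, b)) +
          (al c s(a, b) + al d s(a, b)) := by ring
      _ = _ := by rw [this, e1, e2]; ring

theorem csum_adj {J : SimpleGraph α} {al : α → Sym2 α → ZMod 2} (h : IsCoc J al)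
    {ζ : Finset (Sym2 α)} (hζ : IsCyc J ζ) {a b : α} (hab : J.Adj a b) (ha : a ∉ vs ζ)
    (hb : b ∉ vs ζ) : csum al a ζ = csum al b ζ := by
  have key : csum al a ζ + csum al b ζ = 0 := by
    rw [csum, csum, ← sum_add_distrib, ← sum_cob hζ fun u => al u s(a, b)]
    refine sum_congr rfl fun e he => coc h hab (hζ.subset e he) ?_ ?_
    · exact fun h' => ha (mem_vs.2 ⟨e, he, h'⟩)
    · exact fun h' => hb (mem_vs.2 ⟨e, he, h'⟩)
  have e1 := zmod2_add_self (csum al b ζ)
  calc _ = (csum al a ζ + csum al b ζ) - (csum al b ζ + csum al b ζ) + csum al b ζ := by ring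
    _ = _ := by rw [key, e1]; ring

theorem csum_rch {J : SimpleGraph α} {al : α → Sym2 α → ZMod 2} (h : IsCoc J al)
    {ζ : Finset (Sym2 α)} (hζ : IsCyc J ζ) {a b : α} (hab : (del J (vs ζ)).Reachable a b) :
    csum al a ζ = csum al b ζ := by
  obtain ⟨w⟩ := hab
  induction w with
  | nil => rfl
  | @cons u v w huv p ih => exact (csum_adj h hζ huv.1 huv.2.1 huv.2.2).trans ih

/-- the value at a vertex of the cycle with its two neighbours -/
def RR (al : α → Sym2 α → ZMod 2) (ζ : Finset (Sym2 α)) (c p q : α) : ZMod 2 :=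
  ∑ h ∈ ζ.filter (fun h => c ∉ h), al c h + al p s(c, q) + al q s(c, p)

theorem RR_comm (al : α → Sym2 α → ZMod 2) (ζ : Finset (Sym2 α)) (c p q : α) :
    RR al ζ c p q = RR al ζ c q p := by
  rw [RR, RR]; ring

/-- the edges of a cycle at a vertex -/
theorem cyc_split {J : SimpleGraph α} {ζ : Finset (Sym2 α)} (hζ : IsCyc J ζ) {c p q : α}
    (hp : s(c, p) ∈ ζ) (hq : s(c, q) ∈ ζ) (hpq : p ≠ q) (f : Sym2 α → ZMod 2) :
    ∑ h ∈ ζ, f h = ∑ h ∈ ζ.filter (fun h => c ∉ h), f h + f s(c, p) + f s(c, q) := by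
  rw [← sum_filter_add_sum_filter_not ζ (fun h => c ∉ h) f, add_assoc]
  congr 1
  have : ζ.filter (fun h => ¬ c ∉ h) = {s(c, p), s(c, q)} := by
    ext e
    rw [mem_filter, mem_insert, mem_singleton, not_not]
    constructor
    · rintro ⟨he, hc⟩
      obtain ⟨d, rfl⟩ := Sym2.mem_iff_exists.1 hc
      rcases hζ.eq_or_eq hp hq hpq he with rfl | rfl
      · exact Or.inl rfl
      · exact Or.inr rfl
    · rintro (rfl | rfl)
      · exact ⟨hp, by simp⟩
      · exact ⟨hq, by simp⟩
  rw [this, sum_pair]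
  intro e
  rw [Sym2.eq_iff] at e
  rcases e with ⟨_, e⟩ | ⟨e1, e2⟩
  · exact hpq e
  · exact hpq (e2.trans e1)

/-- one step along the cycle -/
theorem RR_step {J : SimpleGraph α} {al : α → Sym2 α → ZMod 2} (h : IsCoc J al)
    {ζ : Finset (Sym2 α)} (hζ : IsCyc J ζ) {c c' p q : α} (hp : s(c, p) ∈ ζ)
    (hcc : s(c, c') ∈ ζ) (hpc : p ≠ c') (hq : s(c', q) ∈ ζ) (hqc : q ≠ c) :
    RR al ζ c p c' = RR al ζ c' c q := by
  have hne : c ≠ c' := (hζ.adj_of_mem hcc).ne
  have hcq : c ≠ q := hqc.symm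
  have hcc' : s(c', c) ∈ ζ := by rwa [Sym2.eq_swap]
  -- the sums over the edges avoiding `c` (resp. `c'`), split at the other vertex
  have split1 : ∀ f : Sym2 α → ZMod 2, ∑ h ∈ ζ.filter (fun h => c ∉ h), f h =
      ∑ h ∈ ζ.filter (fun h => c ∉ h ∧ c' ∉ h), f h + f s(c', q) := by
    intro f
    have e : ζ.filter (fun h => c ∉ h) = insert s(c', q) (ζ.filter (fun h => c ∉ h ∧ c' ∉ h)) := by
      ext e
      simp only [mem_filter, mem_insert]
      constructor
      · rintro ⟨he, hc⟩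
        by_cases hc' : c' ∈ e
        · obtain ⟨d, rfl⟩ := Sym2.mem_iff_exists.1 hc'
          rcases hζ.eq_or_eq hcc' hq hqc.symm he with rfl | rfl
          · exact absurd (by simp) hc
          · exact Or.inl rfl
        · exact Or.inr ⟨he, hc, hc'⟩
      · rintro (rfl | ⟨he, hc, _⟩)
        · refine ⟨hq, ?_⟩
          simp [hne, hcq]
        · exact ⟨he, hc⟩
    rw [e, sum_insert (by simp), add_comm]
  have split2 : ∀ f : Sym2 α → ZMod 2, ∑ h ∈ ζ.filter (fun h => c' ∉ h), f h =
      ∑ h ∈ ζ.filter (fun h => c ∉ h ∧ c' ∉ h), f h + f s(c, p) := by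
    intro f
    have e : ζ.filter (fun h => c' ∉ h) = insert s(c, p) (ζ.filter (fun h => c ∉ h ∧ c' ∉ h)) := by
      ext e
      simp only [mem_filter, mem_insert]
      constructor
      · rintro ⟨he, hc'⟩
        by_cases hc : c ∈ e
        · obtain ⟨d, rfl⟩ := Sym2.mem_iff_exists.1 hc
          rcases hζ.eq_or_eq hp hcc hpc he with rfl | rfl
          · exact Or.inl rfl
          · exact absurd (by simp) hc'
        · exact Or.inr ⟨he, hc, hc'⟩
      · rintro (rfl | ⟨he, _, hc'⟩)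
        · refine ⟨hp, ?_⟩
          simp [hne.symm, hpc.symm]
        · exact ⟨he, hc'⟩
    rw [e, sum_insert (by simp), add_comm]
  have h1 := sum_cob hζ fun u => al u s(c, c')
  rw [cyc_split hζ hp hcc hpc, split1, cob_mk, cob_mk, cob_mk] at h1
  have h2 : ∑ h ∈ ζ.filter (fun h => c ∉ h ∧ c' ∉ h), cob (fun u => al u s(c, c')) h =
      ∑ h ∈ ζ.filter (fun h => c ∉ h ∧ c' ∉ h), al c h +
      ∑ h ∈ ζ.filter (fun h => c ∉ h ∧ c' ∉ h), al c' h := by
    rw [← sum_add_distrib]
    refine sum_congr rfl fun e he => ?_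
    rw [mem_filter] at he
    exact (coc h (hζ.adj_of_mem hcc) (hζ.subset e he.1) he.2.1 he.2.2).symm
  rw [h2] at h1
  rw [RR, RR, split1, split2]
  have hs : s(c', c) = s(c, c') := Sym2.eq_swap
  rw [hs]
  generalize ∑ h ∈ ζ.filter (fun h => c ∉ h ∧ c' ∉ h), al c h = X at *
  generalize ∑ h ∈ ζ.filter (fun h => c ∉ h ∧ c' ∉ h), al c' h = Y at *
  generalize al c s(c', q) = x1 at *
  generalize al p s(c, c') = x2 at *
  generalize al c' s(c, p) = x3 at *
  generalize al q s(c, c') = x4 at *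
  generalize al c s(c, c') = x5 at *
  generalize al c' s(c, c') = x6 at *
  revert h1
  clear split1 split2 h2
  revert X Y x1 x2 x3 x4 x5 x6
  decide

theorem RR_const {J : SimpleGraph α} {al : α → Sym2 α → ZMod 2} (h : IsCoc J al)
    {ζ : Finset (Sym2 α)} (hζ : IsCyc J ζ) {c c' : α} (hr : Rch ζ c c') :
    ∀ p q p' q', s(c, p) ∈ ζ → s(c, q) ∈ ζ → p ≠ q → s(c', p') ∈ ζ → s(c', q') ∈ ζ → p' ≠ q' →
      RR al ζ c p q = RR al ζ c' p' q' := by
  -- the value does not depend on the names of the neighbours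
  have same : ∀ c p q p' q', s(c, p) ∈ ζ → s(c, q) ∈ ζ → p ≠ q → s(c, p') ∈ ζ → s(c, q') ∈ ζ →
      p' ≠ q' → RR al ζ c p q = RR al ζ c p' q' := by
    intro c p q p' q' hp hq hpq hp' hq' hpq'
    rcases hζ.eq_or_eq hp hq hpq hp' with rfl | rfl <;>
      rcases hζ.eq_or_eq hp hq hpq hq' with rfl | rfl
    · exact absurd rfl hpq'
    · rfl
    · exact RR_comm _ _ _ _ _
    · exact absurd rfl hpq'
  obtain ⟨w⟩ := hr
  induction w with
  | nil => exact same _
  | @cons u v w huv r ih =>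
    intro p q p' q' hp hq hpq hp' hq' hpq'
    have huv' : s(u, v) ∈ ζ := by
      have := ((fromEdgeSet_adj _).1 huv).1
      exact_mod_cast this
    obtain ⟨p0, hp0, hp0'⟩ := hζ.exists_other huv'
    have hvu : s(v, u) ∈ ζ := by rwa [Sym2.eq_swap]
    obtain ⟨q0, hq0, hq0'⟩ := hζ.exists_other hvu
    rw [same u p q p0 v hp hq hpq hp0' huv' hp0, RR_step h hζ hp0' huv' hp0 hq0' hq0]
    exact ih u q0 p' q' hvu hq0' hq0.symm hp' hq' hpq'

/-- the two neighbours on the cycle and a neighbour off the cycle -/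
theorem csum_eq {J : SimpleGraph α} {al : α → Sym2 α → ZMod 2} (h : IsCoc J al)
    {ζ : Finset (Sym2 α)} (hζ : IsCyc J ζ) {x c p q : α} (hx : x ∉ vs ζ) (hxc : J.Adj x c)
    (hp : s(c, p) ∈ ζ) (hq : s(c, q) ∈ ζ) (hpq : p ≠ q) :
    csum al x ζ = RR al ζ c p q + sv al c x p q := by
  have h1 := sum_cob hζ fun u => al u s(x, c)
  rw [cyc_split hζ hp hq hpq, cob_mk, cob_mk] at h1
  have h2 : ∑ h ∈ ζ.filter (fun h => c ∉ h), cob (fun u => al u s(x, c)) h =
      ∑ h ∈ ζ.filter (fun h => c ∉ h), al x h + ∑ h ∈ ζ.filter (fun h => c ∉ h), al c h := by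
    rw [← sum_add_distrib]
    refine sum_congr rfl fun e he => ?_
    rw [mem_filter] at he
    exact (coc h hxc (hζ.subset e he.1) (fun h' => hx (mem_vs.2 ⟨e, he.1, h'⟩)) he.2).symm
  rw [h2] at h1
  have hs : s(x, c) = s(c, x) := Sym2.eq_swap
  rw [hs] at h1
  rw [csum, cyc_split hζ hp hq hpq, RR, sv]
  generalize ∑ h ∈ ζ.filter (fun h => c ∉ h), al x h = X at *
  generalize ∑ h ∈ ζ.filter (fun h => c ∉ h), al c h = Y at *
  generalize al x s(c, p) = x1 at *
  generalize al x s(c, q) = x2 at *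
  generalize al p s(c, x) = x3 at *
  generalize al p s(c, q) = x4 at *
  generalize al q s(c, x) = x5 at *
  generalize al q s(c, p) = x6 at *
  generalize al c s(c, x) = x7 at *
  revert h1
  clear h2
  revert X Y x1 x2 x3 x4 x5 x6 x7
  decide

theorem specH1L : SpecH1L where
  rch := fun h hζ _ _ hr => csum_rch h hζ hr
  rot := by
    intro α _ _ J al ζ h hζ
    obtain ⟨v, hv⟩ := vs_nonempty hζ.nonempty
    obtain ⟨i, j, hij, hi, hj, _⟩ := hζ.two_edges hv
    have key : ∀ c p q, s(c, p) ∈ ζ → s(c, q) ∈ ζ → p ≠ q → RR al ζ v i j = RR al ζ c p q := by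
      intro c p q hp hq hpq
      have hr : Rch ζ v c := by
        by_cases hvc : v = c
        · subst hvc; exact Rch.refl _ _
        · obtain ⟨P, _, hP, _, hPC, _⟩ := hζ.split hv (left_mem_vs hp) hvc
          exact hP.rch (hPC ▸ subset_union_left)
      exact RR_const h hζ hr i j p q hi hj hij hp hq hpq
    refine ⟨RR al ζ v i j, fun c p q hp hq hpq => key c p q hp hq hpq, ?_⟩
    intro x c p q hx hxc hp hq hpq
    rw [csum_eq h hζ hx hxc hp hq hpq, key c p q hp hq hpq]

end DL.H1LM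
end

section
/-!
# Module H4A: two disjoint paths between four neighbours of a vertex
-/
open SimpleGraph Finset

namespace DL

namespace H4AM

variable {α : Type} [Fintype α] [DecidableEq α] {J : SimpleGraph α}

/-- neighbours `a`, `b` of `c` outside `S`, `S` at most one vertex -/
theorem reach (h : S3S J) {c x y z w : α} (hx : J.Adj c x) (hy : J.Adj c y) (hz : J.Adj c z)
    (hw : J.Adj c w) (hxy : x ≠ y) (hzw : z ≠ w) (S : Finset α) (hS : S.card < 2) :
    ∃ a ∈ ({x, y} : Finset α), ∃ b ∈ ({z, w} : Finset α), a ∉ S ∧ b ∉ S ∧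
      (del (del J {c}) S).Reachable a b := by
  obtain ⟨hK, -, h3⟩ := h
  have hVx : x ∈ VS J := right_mem_VS hx
  have hVy : y ∈ VS J := right_mem_VS hy
  have hVz : z ∈ VS J := right_mem_VS hz
  have hVw : w ∈ VS J := right_mem_VS hw
  have hxc : x ≠ c := hx.ne'
  have hyc : y ≠ c := hy.ne'
  have hzc : z ≠ c := hz.ne'
  have hwc : w ≠ c := hw.ne'
  rw [del_del]
  by_cases hne : ∀ s ∈ S, s = c
  · -- nothing else is deleted
    have h1 : ({c} ∪ S : Finset α) = {c} := by
      apply Finset.union_eq_left.2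
      intro s hs
      rw [mem_singleton]
      exact hne s hs
    rw [h1]
    refine ⟨x, by simp, z, by simp, fun h => hxc (hne x h), fun h => hzc (hne z h), ?_⟩
    exact hK.2 {c} (by simp) x hVx z hVz (by simpa using hxc) (by simpa using hzc)
  · push Not at hne
    obtain ⟨s, hs, hsc⟩ := hne
    have hS1 : S = {s} := by
      apply Finset.eq_singleton_iff_unique_mem.2
      refine ⟨hs, fun t ht => ?_⟩
      exact Finset.card_le_one.1 (by omega) t ht s hs
    subst hS1
    have h1 : ({c} ∪ {s} : Finset α) = {c, s} := rfl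
    rw [h1]
    rcases h3 c s (Ne.symm hsc) with h4 | ⟨v, hv, hcs, h4⟩
    · obtain ⟨a, ha, haV, has, hac⟩ : ∃ a ∈ ({x, y} : Finset α), a ∈ VS J ∧ a ≠ s ∧ a ≠ c := by
        by_cases hxs : x = s
        · exact ⟨y, by simp, hVy, fun h => hxy (hxs.trans h.symm), hyc⟩
        · exact ⟨x, by simp, hVx, hxs, hxc⟩
      obtain ⟨b, hb, hbV, hbs, hbc⟩ : ∃ b ∈ ({z, w} : Finset α), b ∈ VS J ∧ b ≠ s ∧ b ≠ c := by
        by_cases hzs : z = s
        · exact ⟨w, by simp, hVw, fun h => hzw (hzs.trans h.symm), hwc⟩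
        · exact ⟨z, by simp, hVz, hzs, hzc⟩
      exact ⟨a, ha, b, hb, by simpa using has, by simpa using hbs,
        h4 a haV b hbV (by simp [hac, has]) (by simp [hbc, hbs])⟩
    · have hns : ∀ u, J.Adj c u → u ≠ s := by
        rintro u hu rfl
        exact hcs hu
      obtain ⟨a, ha, haV, hav, hac, has⟩ : ∃ a ∈ ({x, y} : Finset α), a ∈ VS J ∧ a ≠ v ∧ a ≠ c ∧
          a ≠ s := by
        by_cases hxv : x = v
        · exact ⟨y, by simp, hVy, fun h => hxy (hxv.trans h.symm), hyc, hns y hy⟩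
        · exact ⟨x, by simp, hVx, hxv, hxc, hns x hx⟩
      obtain ⟨b, hb, hbV, hbv, hbc, hbs⟩ : ∃ b ∈ ({z, w} : Finset α), b ∈ VS J ∧ b ≠ v ∧ b ≠ c ∧
          b ≠ s := by
        by_cases hzv : z = v
        · exact ⟨w, by simp, hVw, fun h => hzw (hzv.trans h.symm), hwc, hns w hw⟩
        · exact ⟨z, by simp, hVz, hzv, hzc, hns z hz⟩
      refine ⟨a, ha, b, hb, by simpa using has, by simpa using hbs, ?_⟩
      have h5 := h4 a haV b hbV (by simp [hac, has, hav]) (by simp [hbc, hbs, hbv])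
      refine h5.mono (del_anti ?_)
      intro t ht
      simp only [mem_insert, mem_singleton] at ht ⊢
      tauto

end H4AM

open H4AM in
theorem specH4A : SpecH4A := by
  intro α _ _ J hJ c x y z w hx hy hz hw hxy hzw hxz hxw hyz hyw
  obtain ⟨a, b, P, ha, hb, hP, hd, -, -⟩ := menger' (G := del J {c}) (A := {x, y}) (B := {z, w})
    (k := 2) (reach hJ hx hy hz hw hxy hzw)
  have h01 := hd 0 1 (by decide)
  have ha01 : a 0 ≠ a 1 := by
    intro h
    exact Finset.disjoint_left.1 h01 (mem_insert_self _ _) (h ▸ mem_insert_self _ _)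
  have hb01 : b 0 ≠ b 1 := by
    intro h
    have h1 := (hP 0).end_mem
    have h2 := (hP 1).end_mem
    rw [← h] at h2
    exact Finset.disjoint_left.1 h01 h1 h2
  have hdd : Disjoint (vs (P 0)) (vs (P 1)) :=
    h01.mono (subset_insert _ _) (subset_insert _ _)
  have a0 := ha 0
  have a1 := ha 1
  have b0 := hb 0
  have b1 := hb 1
  have p0 := hP 0
  have p1 := hP 1
  simp only [mem_insert, mem_singleton] at a0 a1 b0 b1
  rcases a0 with a0 | a0 <;> rcases a1 with a1 | a1
  · exact absurd (a0.trans a1.symm) ha01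
  · rcases b0 with b0 | b0 <;> rcases b1 with b1 | b1
    · exact absurd (b0.trans b1.symm) hb01
    · rw [a0, b0] at p0; rw [a1, b1] at p1
      exact Or.inl ⟨_, _, p0, p1, hdd⟩
    · rw [a0, b0] at p0; rw [a1, b1] at p1
      exact Or.inr ⟨_, _, p0, p1, hdd⟩
    · exact absurd (b0.trans b1.symm) hb01
  · rcases b0 with b0 | b0 <;> rcases b1 with b1 | b1
    · exact absurd (b0.trans b1.symm) hb01
    · rw [a0, b0] at p0; rw [a1, b1] at p1
      exact Or.inr ⟨_, _, p1, p0, hdd.symm⟩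
    · rw [a0, b0] at p0; rw [a1, b1] at p1
      exact Or.inl ⟨_, _, p1, p0, hdd.symm⟩
    · exact absurd (b0.trans b1.symm) hb01
  · exact absurd (a0.trans a1.symm) ha01

end DL
end

section
/-!
# Module H4B: three paths between two vertices of degree at least three
-/
open SimpleGraph Finset

namespace DL

namespace H4BM

variable {α : Type} [Fintype α] [DecidableEq α] {J : SimpleGraph α}

/-- `c` has a neighbour outside a set with at most two elements -/
theorem exists_nb {c : α} {N : Finset α} (hN : N.card = 3) (h : ∀ x ∈ N, J.Adj c x)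
    (S : Finset α) (hS : S.card ≤ 2) : ∃ y, J.Adj c y ∧ y ∉ S := by
  by_contra hcon
  push Not at hcon
  have h1 : N ⊆ S := fun x hx => hcon x (h x hx)
  have := card_le_card h1
  omega

/-- a vertex with at least three neighbours is not of degree 2 -/
theorem ne_deg2 {c v p q : α} {N : Finset α} (hN : N.card = 3) (h : ∀ x ∈ N, J.Adj c x)
    (hv : ∀ w, J.Adj v w ↔ w = p ∨ w = q) : v ≠ c := by
  rintro rfl
  have h1 : N ⊆ {p, q} := by
    intro x hx
    rw [mem_insert, mem_singleton]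
    exact (hv x).1 (h x hx)
  have h2 := card_le_card h1
  have h3 : ({p, q} : Finset α).card ≤ 2 := card_le_two
  omega

/-- the two vertices are not separated by two vertices -/
theorem reach2 (h : S3S J) {c c' : α} (hcc : c ≠ c') {N N' : Finset α} (hN : N.card = 3)
    (hNc : ∀ x ∈ N, J.Adj c x) (hN' : N'.card = 3) (hNc' : ∀ x ∈ N', J.Adj c' x)
    (T : Finset α) (hc : c ∉ T) (hc' : c' ∉ T) (hT : T.card < 3) : (del J T).Reachable c c' := by
  obtain ⟨hK, -, h3⟩ := h
  obtain ⟨y, hy, -⟩ := exists_nb hN hNc ∅ (by simp)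
  obtain ⟨y', hy', -⟩ := exists_nb hN' hNc' ∅ (by simp)
  have hV : c ∈ VS J := left_mem_VS hy
  have hV' : c' ∈ VS J := left_mem_VS hy'
  by_cases h2 : T.card < 2
  · exact hK.2 T h2 c hV c' hV' hc hc'
  · obtain ⟨s, t, hst, rfl⟩ := card_eq_two.1 (show T.card = 2 by omega)
    rcases h3 s t hst with h4 | ⟨v, hv, -, h4⟩
    · exact h4 c hV c' hV' hc hc'
    · have hv1 : v ≠ c := ne_deg2 hN hNc hv
      have hv2 : v ≠ c' := ne_deg2 hN' hNc' hv
      simp only [mem_insert, mem_singleton, not_or] at hc hc'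
      refine (h4 c hV c' hV' (by simp [hc.1, hc.2, hv1.symm]) (by simp [hc'.1, hc'.2, hv2.symm])).mono
        (del_anti ?_)
      intro z hz
      simp only [mem_insert, mem_singleton] at hz ⊢
      tauto

/-- the case of adjacent vertices -/
theorem reach1 (h : S3S J) {c c' : α} (hcc : c ≠ c') {N N' : Finset α} (hN : N.card = 3)
    (hNc : ∀ x ∈ N, J.Adj c x) (hN' : N'.card = 3) (hNc' : ∀ x ∈ N', J.Adj c' x)
    (T : Finset α) (hc : c ∉ T) (hc' : c' ∉ T) (hT : T.card < 2) :
    (del (delE J c c') T).Reachable c c' := by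
  obtain ⟨hK, -, h3⟩ := h
  -- it is enough to reach `c'` from a neighbour `y` in `J - c - T`
  have key : ∀ y, J.Adj c y → y ≠ c' → y ∉ T → (del J (insert c T)).Reachable y c' →
      (del (delE J c c') T).Reachable c c' := by
    intro y hy hyc' hyT hr
    have h1 : (del (delE J c c') T).Adj c y := by
      rw [del_adj, delE_adj]
      refine ⟨⟨hy, ?_⟩, hc, hyT⟩
      intro he
      rcases Sym2.eq_iff.1 he with ⟨_, h2⟩ | ⟨h2, _⟩
      · exact hyc' h2
      · exact hcc h2
    refine h1.reachable.trans (hr.mono ?_)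
    intro a b hab
    rw [del_adj] at hab ⊢
    rw [delE_adj]
    obtain ⟨h2, h3, h4⟩ := hab
    rw [mem_insert, not_or] at h3 h4
    refine ⟨⟨h2, ?_⟩, h3.2, h4.2⟩
    intro he
    rcases Sym2.eq_iff.1 he with ⟨h5, _⟩ | ⟨_, h5⟩
    · exact h3.1 h5
    · exact h4.1 h5
  obtain ⟨y', hy', -⟩ := exists_nb hN' hNc' ∅ (by simp)
  have hV' : c' ∈ VS J := left_mem_VS hy'
  by_cases hT0 : T = ∅
  · subst hT0
    obtain ⟨y, hy, hyc⟩ := exists_nb hN hNc {c'} (by simp)
    rw [mem_singleton] at hyc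
    refine key y hy hyc (by simp) ?_
    exact hK.2 _ (by simp) y (right_mem_VS hy) c' hV' (by simpa using hy.ne')
      (by simpa using hcc.symm)
  · obtain ⟨s, hs⟩ := nonempty_iff_ne_empty.2 hT0
    have hT1 : T = {s} := by
      apply Finset.eq_singleton_iff_unique_mem.2
      refine ⟨hs, fun t ht => ?_⟩
      exact Finset.card_le_one.1 (by omega) t ht s hs
    subst hT1
    rw [mem_singleton] at hc hc'
    rcases h3 c s hc with h4 | ⟨v, hv, hcs, h4⟩
    · obtain ⟨y, hy, hyc⟩ := exists_nb hN hNc {c', s} card_le_two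
      simp only [mem_insert, mem_singleton, not_or] at hyc
      refine key y hy hyc.1 (by simpa using hyc.2) ?_
      exact h4 y (right_mem_VS hy) c' hV' (by simp [hy.ne', hyc.2])
        (by simp [hcc.symm, hc'])
    · have hv2 : v ≠ c' := ne_deg2 hN' hNc' hv
      obtain ⟨y, hy, hyc⟩ := exists_nb hN hNc {c', v} card_le_two
      simp only [mem_insert, mem_singleton, not_or] at hyc
      have hys : y ≠ s := by
        rintro rfl
        exact hcs hy
      refine key y hy hyc.1 (by simpa using hys) ?_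
      refine (h4 y (right_mem_VS hy) c' hV' (by simp [hy.ne', hys, hyc.2])
        (by simp [hcc.symm, hc', hv2.symm])).mono (del_anti ?_)
      intro z hz
      simp only [mem_insert, mem_singleton] at hz ⊢
      tauto

/-- from three paths, one of which is not the edge -/
theorem finish {c c' : α} (hcc : c ≠ c') {P Q R : Finset (Sym2 α)} (hP : IsPth J c c' P)
    (hQ : IsPth J c c' Q) (hR : IsPth J c c' R) (hPQ : vs P ∩ vs Q ⊆ {c, c'})
    (hRP : vs R ∩ vs P ⊆ {c, c'}) (hRQ : vs R ∩ vs Q ⊆ {c, c'}) (hne : P ≠ Q)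
    (he : s(c, c') ∉ R) :
    ∃ ζ x x', IsCyc J ζ ∧ c ∈ vs ζ ∧ c' ∈ vs ζ ∧ J.Adj c x ∧ J.Adj c' x' ∧ x ∉ vs ζ ∧ x' ∉ vs ζ ∧
      (del J (vs ζ)).Reachable x x' := by
  obtain ⟨x, hx, hxR, hcR, hR1⟩ := hR.uncons hcc
  have hxc' : x ≠ c' := by
    rintro rfl
    exact he hxR
  obtain ⟨x', hx', hxR', hcR', hR2⟩ := hR1.symm.uncons hxc'.symm
  have hsub1 : vs (R \ {s(c, x)}) ⊆ vs R := vs_mono sdiff_subset
  have hsub2 : vs ((R \ {s(c, x)}) \ {s(c', x')}) ⊆ vs (R \ {s(c, x)}) := vs_mono sdiff_subset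
  have hmem : ∀ v, v ∈ vs R → v ≠ c → v ≠ c' → v ∉ vs (P ∪ Q) := by
    intro v hv h1 h2 h3
    rw [mem_vs_union] at h3
    rcases h3 with h3 | h3
    · have := hRP (mem_inter.2 ⟨hv, h3⟩)
      simp only [mem_insert, mem_singleton] at this
      tauto
    · have := hRQ (mem_inter.2 ⟨hv, h3⟩)
      simp only [mem_insert, mem_singleton] at this
      tauto
  have hxv : x ∈ vs R := right_mem_vs hxR
  have hxv' : x' ∈ vs (R \ {s(c, x)}) := right_mem_vs hxR'
  have hx'c : x' ≠ c := by
    rintro rfl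
    exact hcR hxv'
  have hx'c' : x' ≠ c' := hx'.ne'
  refine ⟨P ∪ Q, x, x', hP.isCyc_union hQ hcc hPQ hne, ?_, ?_, hx, hx', ?_, ?_, ?_⟩
  · rw [mem_vs_union]
    exact Or.inl (hP.left_mem hcc)
  · rw [mem_vs_union]
    exact Or.inl (hP.right_mem hcc)
  · exact hmem x hxv hx.ne' hxc'
  · exact hmem x' (hsub1 hxv') hx'c hx'c'
  · refine (hR2.reachable_del ?_).symm
    intro z hz
    rw [mem_insert] at hz
    rcases hz with rfl | hz
    · exact hmem z (hsub1 hxv') hx'c hx'c'
    · refine hmem z (hsub1 (hsub2 hz)) ?_ ?_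
      · rintro rfl
        exact hcR (hsub2 hz)
      · rintro rfl
        exact hcR' hz

end H4BM

open H4BM in
theorem specH4B : SpecH4B := by
  intro α _ _ J hJ c c' hcc ⟨N, hN, hNc⟩ ⟨N', hN', hNc'⟩
  -- three paths
  obtain ⟨P, hinj, hP, hd⟩ : ∃ P : Fin 3 → Finset (Sym2 α), Function.Injective P ∧
      (∀ i, IsPth J c c' (P i)) ∧ (∀ i j, i ≠ j → vs (P i) ∩ vs (P j) ⊆ {c, c'}) := by
    by_cases hadj : J.Adj c c'
    · obtain ⟨P, h1, h2, h3, -, -⟩ := kpaths_adj (k := 2) hadj
        (fun T hc hc' hT => reach1 hJ hcc hN hNc hN' hNc' T hc hc' hT)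
      exact ⟨P, h1, h2, h3⟩
    · exact kpaths (k := 3) hcc hadj
        (fun T hc hc' hT => reach2 hJ hcc hN hNc hN' hNc' T hc hc' hT)
  have hedge : ∀ i j, s(c, c') ∈ P i → s(c, c') ∈ P j → i = j := by
    intro i j hi hj
    apply hinj
    rw [(hP i).eq_singleton hi, (hP j).eq_singleton hj]
  by_cases h0 : s(c, c') ∈ P 0
  · have h1 : s(c, c') ∉ P 1 := fun h => absurd (hedge 0 1 h0 h) (by decide)
    exact finish hcc (hP 0) (hP 2) (hP 1) (hd 0 2 (by decide)) (hd 1 0 (by decide))
      (hd 1 2 (by decide)) (hinj.ne (by decide)) h1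
  · exact finish hcc (hP 1) (hP 2) (hP 0) (hd 1 2 (by decide)) (hd 0 1 (by decide))
      (hd 0 2 (by decide)) (hinj.ne (by decide)) h0

end DL
end

section
/-!
MP_3ff0f8_gt, EX/K block, module HST (helper19): all the numbers `sv al c x y z` are equal.
-/
open SimpleGraph Finset

namespace DL.HSTM

set_option linter.unusedSectionVars false

variable {α : Type} [Fintype α] [DecidableEq α]

/-- two disjoint paths `x - y`, `z - w` of `J - c` -/
theorem pairing (hH1L : SpecH1L) {J : SimpleGraph α} {al : α → Sym2 α → ZMod 2} (h : IsCoc J al)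
    {c x y z w : α} {P Q : Finset (Sym2 α)} (hx : J.Adj c x) (hy : J.Adj c y) (hz : J.Adj c z)
    (hw : J.Adj c w) (hxy : x ≠ y) (hzw : z ≠ w) (hP : IsPth (del J {c}) x y P)
    (hQ : IsPth (del J {c}) z w Q) (hd : Disjoint (vs P) (vs Q)) :
    sv al c z x y = sv al c w x y := by
  have hζ : IsCyc J (insert s(c, x) (insert s(c, y) P)) := isCyc_of_isPth_del hx hy hxy hP
  have hvs : Disjoint (vs Q) (vs (insert s(c, x) (insert s(c, y) P))) := by
    rw [vs_insert, vs_insert]
    have hcQ : c ∉ vs Q := fun h' =>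
      Finset.disjoint_left.1 (vs_of_isPth_del hQ) h' (mem_singleton_self _)
    rw [Finset.disjoint_left]
    intro v hv hv'
    simp only [mem_union, mem_insert, mem_singleton] at hv'
    rcases hv' with (rfl | rfl) | (rfl | rfl) | hv'
    · exact hcQ hv
    · exact Finset.disjoint_left.1 hd (hP.left_mem hxy) hv
    · exact hcQ hv
    · exact Finset.disjoint_left.1 hd (hP.right_mem hxy) hv
    · exact Finset.disjoint_left.1 hd hv' hv
  have hQJ : IsPth J z w Q := (isPth_del.1 hQ).1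
  have hr : (del J (vs (insert s(c, x) (insert s(c, y) P)))).Reachable z w :=
    (isPth_del.2 ⟨hQJ, hvs⟩).reachable
  have hz' : z ∉ vs (insert s(c, x) (insert s(c, y) P)) :=
    Finset.disjoint_left.1 hvs (hQ.left_mem hzw)
  have hw' : w ∉ vs (insert s(c, x) (insert s(c, y) P)) :=
    Finset.disjoint_left.1 hvs (hQ.right_mem hzw)
  obtain ⟨R, _, hR⟩ := hH1L.rot h hζ
  have h1 := hR z c x y hz' hz.symm (mem_insert_self _ _)
    (mem_insert_of_mem (mem_insert_self _ _)) hxy
  have h2 := hR w c x y hw' hw.symm (mem_insert_self _ _)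
    (mem_insert_of_mem (mem_insert_self _ _)) hxy
  have h3 := hH1L.rch h hζ hz' hw' hr
  rw [h1, h2] at h3
  exact add_left_cancel h3

theorem sv_swap12 (al : α → Sym2 α → ZMod 2) (c x y z : α) : sv al c x y z = sv al c y x z := by
  rw [sv, sv]; ring

theorem sv_swap23 (al : α → Sym2 α → ZMod 2) (c x y z : α) : sv al c x y z = sv al c x z y := by
  rw [sv, sv]; ring

theorem sv_swap13 (al : α → Sym2 α → ZMod 2) (c x y z : α) : sv al c x y z = sv al c z y x := by
  rw [sv, sv]; ring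

theorem sv_rot (al : α → Sym2 α → ZMod 2) (c x y z : α) : sv al c x y z = sv al c y z x := by
  rw [sv, sv]; ring

/-- both equations of a pairing -/
theorem pairing2 (hH1L : SpecH1L) {J : SimpleGraph α} {al : α → Sym2 α → ZMod 2}
    (h : IsCoc J al) {c x y z w : α} (hx : J.Adj c x) (hy : J.Adj c y) (hz : J.Adj c z)
    (hw : J.Adj c w) (hxy : x ≠ y) (hzw : z ≠ w)
    (hPQ : ∃ P Q, IsPth (del J {c}) x y P ∧ IsPth (del J {c}) z w Q ∧ Disjoint (vs P) (vs Q)) :
    sv al c x y z = sv al c x y w ∧ sv al c x z w = sv al c y z w := by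
  obtain ⟨P, Q, hP, hQ, hd⟩ := hPQ
  have h1 := pairing hH1L h hx hy hz hw hxy hzw hP hQ hd
  have h2 := pairing hH1L h hz hw hx hy hzw hxy hQ hP hd.symm
  refine ⟨?_, h2⟩
  rw [sv_rot, sv_rot, h1, ← sv_rot, ← sv_rot]

/-- exchanging one element -/
theorem exchange (hH1L : SpecH1L) (hH4A : SpecH4A) {J : SimpleGraph α} (hJ : S3S J)
    {al : α → Sym2 α → ZMod 2} (h : IsCoc J al) {c x y z w : α} (hx : J.Adj c x)
    (hy : J.Adj c y) (hz : J.Adj c z) (hw : J.Adj c w) (hxy : x ≠ y) (hxz : x ≠ z) (hyz : y ≠ z)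
    (hwy : w ≠ y) (hwz : w ≠ z) : sv al c x y z = sv al c w y z := by
  by_cases hxw : x = w
  · subst hxw; rfl
  -- the partitions `xy|zw`, `xz|yw`, `xw|yz`
  have a1 := hH4A J hJ c x y z w hx hy hz hw hxy hwz.symm hxz hxw hyz hwy.symm
  have a2 := hH4A J hJ c x z y w hx hz hy hw hxz hwy.symm hxy hxw hyz.symm hwz.symm
  have a3 := hH4A J hJ c x w y z hx hw hy hz hxw hyz hxy hxz hwy hwz
  -- equations of the pairings
  have pxz : (∃ P Q, IsPth (del J {c}) x z P ∧ IsPth (del J {c}) y w Q ∧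
      Disjoint (vs P) (vs Q)) → sv al c x z y = sv al c x z w ∧ sv al c x y w = sv al c z y w :=
    fun hh => pairing2 hH1L h hx hz hy hw hxz hwy.symm hh
  have pxw : (∃ P Q, IsPth (del J {c}) x w P ∧ IsPth (del J {c}) y z Q ∧
      Disjoint (vs P) (vs Q)) → sv al c x w y = sv al c x w z ∧ sv al c x y z = sv al c w y z :=
    fun hh => pairing2 hH1L h hx hw hy hz hxw hyz hh
  have pxy : (∃ P Q, IsPth (del J {c}) x y P ∧ IsPth (del J {c}) z w Q ∧
      Disjoint (vs P) (vs Q)) → sv al c x y z = sv al c x y w ∧ sv al c x z w = sv al c y z w :=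
    fun hh => pairing2 hH1L h hx hy hz hw hxy hwz.symm hh
  have key : (∃ P Q, IsPth (del J {c}) x w P ∧ IsPth (del J {c}) y z Q ∧
      Disjoint (vs P) (vs Q)) ∨ ((∃ P Q, IsPth (del J {c}) x z P ∧ IsPth (del J {c}) y w Q ∧
      Disjoint (vs P) (vs Q)) ∧ ∃ P Q, IsPth (del J {c}) x y P ∧ IsPth (del J {c}) z w Q ∧
      Disjoint (vs P) (vs Q)) := by
    rcases a1 with b1 | b1
    · rcases a2 with b2 | b2
      · exact Or.inr ⟨b1, b2⟩
      · obtain ⟨P, Q, hP, hQ, hd⟩ := b2
        exact Or.inl ⟨P, Q, hP, hQ.symm, hd⟩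
    · exact Or.inl b1
  rcases key with k | ⟨k1, k2⟩
  · exact (pxw k).2
  · have e1 := pxz k1
    have e2 := pxy k2
    rw [sv_swap23, e1.1, e2.2, sv_swap12, sv_rot, sv_swap12, sv_swap23]

/-- the same `c` -/
theorem same_vertex (hH1L : SpecH1L) (hH4A : SpecH4A) {J : SimpleGraph α} (hJ : S3S J)
    {al : α → Sym2 α → ZMod 2} (h : IsCoc J al) {c x y z x' y' z' : α} (hx : J.Adj c x)
    (hy : J.Adj c y) (hz : J.Adj c z) (hxy : x ≠ y) (hxz : x ≠ z) (hyz : y ≠ z)
    (hx' : J.Adj c x') (hy' : J.Adj c y') (hz' : J.Adj c z') (hxy' : x' ≠ y') (hxz' : x' ≠ z')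
    (hyz' : y' ≠ z') : sv al c x y z = sv al c x' y' z' := by
  -- first element
  have s1 : ∃ u v, J.Adj c u ∧ J.Adj c v ∧ u ≠ v ∧ x' ≠ u ∧ x' ≠ v ∧
      sv al c x y z = sv al c x' u v := by
    by_cases h1 : x' = y
    · subst h1
      exact ⟨x, z, hx, hz, hxz, hxy.symm, hyz, sv_swap12 _ _ _ _ _⟩
    · by_cases h2 : x' = z
      · subst h2
        exact ⟨y, x, hy, hx, hxy.symm, hyz.symm, hxz.symm, sv_swap13 _ _ _ _ _⟩
      · exact ⟨y, z, hy, hz, hyz, h1, h2,
          exchange hH1L hH4A hJ h hx hy hz hx' hxy hxz hyz h1 h2⟩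
  obtain ⟨u, v, hu, hv, huv, hxu, hxv, e1⟩ := s1
  -- second element
  have s2 : ∃ t, J.Adj c t ∧ x' ≠ t ∧ y' ≠ t ∧ sv al c x' u v = sv al c x' y' t := by
    by_cases h1 : y' = v
    · subst h1
      exact ⟨u, hu, hxu, huv.symm, sv_swap23 _ _ _ _ _⟩
    · refine ⟨v, hv, hxv, h1, ?_⟩
      rw [sv_swap12, sv_swap12 al c x' y' v]
      exact exchange hH1L hH4A hJ h hu hx' hv hy' hxu.symm huv hxv hxy'.symm h1
  obtain ⟨t, ht, hxt, hyt, e2⟩ := s2
  rw [e1, e2, sv_swap13, sv_swap13 al c x' y' z']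
  exact exchange hH1L hH4A hJ h ht hy' hx' hz' hyt.symm hxt.symm hxy'.symm hyz'.symm hxz'.symm

theorem specHST (hH1L : SpecH1L) (hH4A : SpecH4A) (hH4B : SpecH4B) : SpecHST := by
  intro α _ _ J hJ al h
  obtain ⟨c0, x0, y0, z0, hxy0, hxz0, hyz0, hx0, hy0, hz0⟩ := hJ.2.1
  refine ⟨sv al c0 x0 y0 z0, ?_⟩
  intro c x y z hx hy hz hxy hxz hyz
  by_cases hcc : c = c0
  · subst hcc
    exact same_vertex hH1L hH4A hJ h hx hy hz hxy hxz hyz hx0 hy0 hz0 hxy0 hxz0 hyz0
  · have hN : ∀ {c x y z : α}, J.Adj c x → J.Adj c y → J.Adj c z → x ≠ y → x ≠ z → y ≠ z →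
        ∃ N : Finset α, N.card = 3 ∧ ∀ x ∈ N, J.Adj c x := by
      intro c x y z hx hy hz hxy hxz hyz
      refine ⟨{x, y, z}, ?_, ?_⟩
      · rw [card_insert_of_notMem (by simp [hxy, hxz]), card_pair hyz]
      · intro v hv
        simp only [mem_insert, mem_singleton] at hv
        rcases hv with rfl | rfl | rfl
        · exact hx
        · exact hy
        · exact hz
    obtain ⟨ζ, u, u', hζ, hc, hc0, hu, hu', huζ, huζ', hr⟩ :=
      hH4B J hJ c c0 hcc (hN hx hy hz hxy hxz hyz) (hN hx0 hy0 hz0 hxy0 hxz0 hyz0)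
    obtain ⟨R, _, hR⟩ := hH1L.rot h hζ
    obtain ⟨p, q, hpq, hp, hq, _⟩ := hζ.two_edges hc
    obtain ⟨p', q', hpq', hp', hq', _⟩ := hζ.two_edges hc0
    have h1 := hR u c p q huζ hu.symm hp hq hpq
    have h2 := hR u' c0 p' q' huζ' hu'.symm hp' hq' hpq'
    have h3 := hH1L.rch h hζ huζ huζ' hr
    rw [h1, h2] at h3
    have h4 : sv al c u p q = sv al c0 u' p' q' := add_left_cancel h3
    have hup : u ≠ p := fun e => huζ (e ▸ right_mem_vs hp)
    have huq : u ≠ q := fun e => huζ (e ▸ right_mem_vs hq)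
    have hup' : u' ≠ p' := fun e => huζ' (e ▸ right_mem_vs hp')
    have huq' : u' ≠ q' := fun e => huζ' (e ▸ right_mem_vs hq')
    rw [same_vertex hH1L hH4A hJ h hx hy hz hxy hxz hyz hu (hζ.adj_of_mem hp)
      (hζ.adj_of_mem hq) hup huq hpq, h4]
    exact same_vertex hH1L hH4A hJ h hu' (hζ.adj_of_mem hp') (hζ.adj_of_mem hq') hup' huq' hpq'
      hx0 hy0 hz0 hxy0 hxz0 hyz0

end DL.HSTM
end

section
/-!
# Module HTH: THEOREM H
-/
open SimpleGraph Finset

namespace DL

namespace HTHM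

variable {α : Type} [Fintype α] [DecidableEq α] {J : SimpleGraph α}

theorem mem_VS_of_vs {ζ : Finset (Sym2 α)} (hζ : IsCyc J ζ) {x : α} (hx : x ∈ vs ζ) :
    x ∈ VS J := by
  obtain ⟨i, j, -, hi, -, -⟩ := hζ.two_edges hx
  exact left_mem_VS (hζ.adj_of_mem hi)

/-- (5) -/
theorem csum_eq (hH1L : SpecH1L) (hJ : S3S J) {al : α → Sym2 α → ZMod 2} (h : IsCoc J al)
    {s : ZMod 2} (hs : ∀ c x y z, J.Adj c x → J.Adj c y → J.Adj c z →
    x ≠ y → x ≠ z → y ≠ z → sv al c x y z = s) {ζ : Finset (Sym2 α)} (hζ : IsCyc J ζ)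
    {R : ZMod 2} (hR : ∀ x c p q, x ∉ vs ζ → J.Adj x c → s(c, p) ∈ ζ → s(c, q) ∈ ζ → p ≠ q →
      csum al x ζ = R + sv al c x p q) {w : α} (hw : w ∈ VS J) (hwζ : w ∉ vs ζ) :
    csum al w ζ = R + s := by
  obtain ⟨v, hv⟩ := vs_nonempty hζ.nonempty
  have hvJ : v ∈ VS J := mem_VS_of_vs hζ hv
  have hr : J.Reachable w v := by
    have := hJ.1.2 ∅ (by simp) w hw v hvJ (by simp) (by simp)
    exact this.mono (del_le _ _)
  obtain ⟨P, hP⟩ := exists_isPth hr
  have hwv : w ≠ v := fun e => hwζ (e ▸ hv)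
  obtain ⟨c, P1, P2, hc, h1, -, -, -, -, h6, -⟩ := hP.first (X := (vs ζ : Set α))
    (Or.inr ⟨v, hP.right_mem hwv, by exact_mod_cast hv⟩)
  have hcζ : c ∈ vs ζ := by exact_mod_cast hc
  have hcw : c ≠ w := fun e => hwζ (e ▸ hcζ)
  obtain ⟨x, hcx, hxP, hcP, h2⟩ := h1.symm.uncons hcw
  have hxζ : x ∉ vs ζ := by
    intro hx
    exact hcx.ne' (h6 x (right_mem_vs hxP) (by exact_mod_cast hx))
  have hreach : (del J (vs ζ)).Reachable x w := by
    refine h2.reachable_del ?_
    intro z hz hzζ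
    rw [mem_insert] at hz
    rcases hz with rfl | hz
    · exact hxζ hzζ
    · have := h6 z (vs_mono (sdiff_subset) hz) (by exact_mod_cast hzζ)
      exact hcP (this ▸ hz)
  obtain ⟨p, q, hpq, hp, hq, -⟩ := hζ.two_edges hcζ
  have e1 := hH1L.rch h hζ hxζ hwζ hreach
  have e2 := hR x c p q hxζ hcx.symm hp hq hpq
  have e3 := hs c x p q hcx (hζ.adj_of_mem hp) (hζ.adj_of_mem hq)
    (fun e => hxζ (e ▸ right_mem_vs hp)) (fun e => hxζ (e ▸ right_mem_vs hq)) hpq
  rw [← e1, e2, e3]

/-- (6) -/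
theorem R_add {al : α → Sym2 α → ZMod 2} {ζ₁ ζ₂ ζ₃ : Finset (Sym2 α)} {R₁ R₂ : ZMod 2}
    (h1 : IsCyc J ζ₁) (hR₁ : ∀ c p q, s(c, p) ∈ ζ₁ → s(c, q) ∈ ζ₁ → p ≠ q →
      R₁ = ∑ h ∈ ζ₁.filter (fun h => c ∉ h), al c h + al p s(c, q) + al q s(c, p))
    (hR₂ : ∀ c p q, s(c, p) ∈ ζ₂ → s(c, q) ∈ ζ₂ → p ≠ q →
      R₂ = ∑ h ∈ ζ₂.filter (fun h => c ∉ h), al c h + al p s(c, q) + al q s(c, p))
    (h0 : chi ζ₁ + chi ζ₂ + chi ζ₃ = 0) {x : α} (hx : x ∈ vs ζ₁) (hx3 : x ∉ vs ζ₃) :
    R₁ + R₂ = csum al x ζ₃ := by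
  obtain ⟨p, q, hpq, hp, hq, -⟩ := h1.two_edges hx
  have key : ∀ e, chi ζ₁ e + chi ζ₂ e = chi ζ₃ e := by
    intro e
    have := congrFun h0 e
    simp only [Pi.add_apply, Pi.zero_apply] at this
    have e1 := zmod2_add_self (chi ζ₃ e)
    calc chi ζ₁ e + chi ζ₂ e = (chi ζ₁ e + chi ζ₂ e + chi ζ₃ e) - (chi ζ₃ e + chi ζ₃ e) +
          chi ζ₃ e := by ring
      _ = _ := by rw [this, e1]; ring
  have mem2 : ∀ y, s(x, y) ∈ ζ₁ → s(x, y) ∈ ζ₂ := by
    intro y hy
    have h3 : s(x, y) ∉ ζ₃ := fun hh => hx3 (left_mem_vs hh)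
    have := key s(x, y)
    rw [chi_of_mem hy, chi_of_notMem h3] at this
    by_contra hh
    rw [chi_of_notMem hh] at this
    exact absurd this (by decide)
  rw [hR₁ x p q hp hq hpq, hR₂ x p q (mem2 p hp) (mem2 q hq) hpq]
  have f1 : ∀ ζ : Finset (Sym2 α), ∑ h ∈ ζ.filter (fun h => x ∉ h), al x h =
      ∑ h, (if x ∉ h then al x h else 0) * chi ζ h := by
    intro ζ
    rw [sum_mul_chi, Finset.sum_filter]
  have f2 : csum al x ζ₃ = ∑ h, (if x ∉ h then al x h else 0) * chi ζ₃ h := by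
    rw [sum_mul_chi, csum]
    refine sum_congr rfl fun h hh => ?_
    rw [if_pos]
    exact fun hxh => hx3 (mem_vs.2 ⟨h, hh, hxh⟩)
  rw [f1, f1, f2]
  have f3 : ∑ h, (if x ∉ h then al x h else 0) * chi ζ₁ h +
      ∑ h, (if x ∉ h then al x h else 0) * chi ζ₂ h =
      ∑ h, (if x ∉ h then al x h else 0) * chi ζ₃ h := by
    rw [← sum_add_distrib]
    refine sum_congr rfl fun h _ => ?_
    rw [← mul_add, key]
  rw [← f3]
  have e1 := zmod2_add_self (al p s(x, q))
  have e2 := zmod2_add_self (al q s(x, p))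
  generalize ∑ h, (if x ∉ h then al x h else 0) * chi ζ₁ h = A
  generalize ∑ h, (if x ∉ h then al x h else 0) * chi ζ₂ h = B
  calc A + al p s(x, q) + al q s(x, p) + (B + al p s(x, q) + al q s(x, p)) =
      A + B + (al p s(x, q) + al p s(x, q)) + (al q s(x, p) + al q s(x, p)) := by ring
    _ = _ := by rw [e1, e2]; ring

end HTHM

open HTHM in
theorem specHTH (hH1L : SpecH1L) (hHST : SpecHST) (hTHL : SpecTHL) : SpecHTH := by
  classical
  intro α _ _ J hJ al h
  obtain ⟨s, hs⟩ := hHST J hJ al h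
  let R : Finset (Sym2 α) → ZMod 2 := fun ζ =>
    if hζ : IsCyc J ζ then Classical.choose (hH1L.rot h hζ) else 0
  have hR : ∀ {ζ} (hζ : IsCyc J ζ), R ζ = Classical.choose (hH1L.rot h hζ) := by
    intro ζ hζ
    simp only [R]
    rw [dif_pos hζ]
  have hR1 : ∀ {ζ} (_ : IsCyc J ζ), ∀ c p q, s(c, p) ∈ ζ → s(c, q) ∈ ζ → p ≠ q →
      R ζ = ∑ h ∈ ζ.filter (fun h => c ∉ h), al c h + al p s(c, q) + al q s(c, p) := by
    intro ζ hζ
    rw [hR hζ]
    exact (Classical.choose_spec (hH1L.rot h hζ)).1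
  have hR2 : ∀ {ζ} (_ : IsCyc J ζ), ∀ x c p q, x ∉ vs ζ → J.Adj x c → s(c, p) ∈ ζ →
      s(c, q) ∈ ζ → p ≠ q → csum al x ζ = R ζ + sv al c x p q := by
    intro ζ hζ
    rw [hR hζ]
    exact (Classical.choose_spec (hH1L.rot h hζ)).2
  have h5 : ∀ {ζ} (_ : IsCyc J ζ) {w : α}, w ∈ VS J → w ∉ vs ζ → csum al w ζ = R ζ + s :=
    fun hζ _ hw hwζ => csum_eq hH1L hJ h hs hζ (hR2 hζ) hw hwζ
  obtain ⟨η, hη⟩ := hTHL J (fun ζ => R ζ + s) (by
    rintro ζ₁ ζ₂ ζ₃ h1 h2 h3 h0 ⟨x, hx, hx3⟩
    have e1 := R_add h1 (hR1 h1) (hR1 h2) h0 hx hx3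
    rw [h5 h3 (mem_VS_of_vs h1 hx) hx3] at e1
    have e2 := zmod2_add_self s
    have e3 := zmod2_add_self (R ζ₃)
    calc R ζ₁ + s + (R ζ₂ + s) + (R ζ₃ + s) = (R ζ₁ + R ζ₂) + R ζ₃ + s + (s + s) := by ring
      _ = (R ζ₃ + R ζ₃) + (s + s) + (s + s) := by rw [e1]; ring
      _ = 0 := by rw [e2, e3]; ring)
  refine ⟨η, fun w hw => ?_⟩
  refine Z1_induction (by simp) fun C c hC _ _ ih => ?_
  simp only [Pi.add_apply, mul_add, sum_add_distrib, ih]
  congr 1
  rw [sum_mul_chi, sum_mul_chi]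
  obtain ⟨hCJ, hd⟩ := isCyc_del.1 hC
  have hwC : w ∉ vs C := fun hh => Finset.disjoint_left.1 hd hh (mem_singleton_self _)
  have e1 := h5 hCJ hw hwC
  rw [csum] at e1
  rw [e1, hη C hCJ]

end DL
end

section
/-!
# MP_3ff0f8_gt, ALGEBRA HALF, module I3K: Theorem I3 for 3-connected graphs
-/
open SimpleGraph Finset

namespace DL

theorem specI3K (hTHO : SpecTHO) (hPMB : SpecPMB) (hST2 : SpecST2) (hST3 : SpecST3)
    (hK4B : SpecK4B) : SpecI3K := by
  intro α _ _ G hG
  induction hn : (VS G).card using Nat.strong_induction_on generalizing G with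
  | _ n ih =>
    by_cases h4 : (VS G).card ≤ 4
    · exact hK4B G hG h4
    obtain ⟨a, b, hab, hH⟩ := hTHO G hG (by omega)
    have hlt : (VS (contr G a b)).card < n := by
      have h1 : VS (contr G a b) = (VS G).erase b :=
        VS_contr hab fun v hv => le_trans (by norm_num) (hG.le_nbs hv)
      rw [h1, ← hn]
      exact card_erase_lt_of_mem (right_mem_VS hab)
    have hI : I3P (contr G a b) := ih _ hlt (contr G a b) hH rfl
    have hPM : PMP G a b := hPMB hab hH hI
    intro p hp hp0 hpC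
    obtain ⟨r, ρ, h1, h2, h3, h4, h5⟩ := hST2 hab hG hPM p hp hp0 hpC
    exact hST3 hab hH p hpC r ρ h1 h2 h3 h4 h5

end DL
end

section
/-!
# MP_3ff0f8_gt, EX/K block: module `I3S` (helper86)
-/
open SimpleGraph Finset

namespace DL

namespace I3SM

theorem mem_VS_of_adj {α : Type} [Fintype α] [DecidableEq α] {G : SimpleGraph α} {a b : α}
    (h : G.Adj a b) : a ∈ VS G := by
  unfold VS
  simp only [mem_filter, mem_univ, true_and]
  exact ⟨b, h⟩

/-- an S3S graph without vertices of degree 2 is 3-connected -/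
theorem kconn {α : Type} [Fintype α] [DecidableEq α] {G : SimpleGraph α} (h : S3S G)
    (hno : ¬ ∃ v p q, p ≠ q ∧ ∀ w, G.Adj v w ↔ w = p ∨ w = q) : KConn 3 G := by
  obtain ⟨h2, ⟨c, x, y, z, hxy, hxz, hyz, hx, hy, hz⟩, h3⟩ := h
  refine ⟨?_, fun S hS => ?_⟩
  · have hsub : ({c, x, y, z} : Finset α) ⊆ VS G := by
      intro w hw
      simp only [mem_insert, mem_singleton] at hw
      rcases hw with rfl | rfl | rfl | rfl
      · exact mem_VS_of_adj hx
      · exact mem_VS_of_adj hx.symm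
      · exact mem_VS_of_adj hy.symm
      · exact mem_VS_of_adj hz.symm
    have hc : ({c, x, y, z} : Finset α).card = 4 := by
      rw [card_insert_of_notMem, card_insert_of_notMem, card_insert_of_notMem, card_singleton]
      · simpa using hyz
      · simp only [mem_insert, mem_singleton, not_or]
        exact ⟨hxy, hxz⟩
      · simp only [mem_insert, mem_singleton, not_or]
        exact ⟨hx.ne, hy.ne, hz.ne⟩
    have := card_le_card hsub
    omega
  · by_cases hS2 : S.card < 2
    · exact h2.2 S hS2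
    · have hS' : S.card = 2 := by omega
      obtain ⟨p, q, hpq, rfl⟩ := card_eq_two.1 hS'
      rcases h3 p q hpq with h | ⟨v, hv, _⟩
      · exact h
      · exact absurd ⟨v, p, q, hpq, hv⟩ hno

end I3SM

open I3SM in
theorem specI3S (hSUP : SpecSUP) (hI3K : SpecI3K) : SpecI3S := by
  intro α _ _ G hG
  induction hn : (VS G).card using Nat.strong_induction_on generalizing G with
  | _ n ih =>
    subst hn
    by_cases h : ∃ v p q, p ≠ q ∧ ∀ w, G.Adj v w ↔ w = p ∨ w = q
    · obtain ⟨v, p, q, hpq, hv⟩ := h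
      obtain ⟨s1, s2, s3⟩ := hSUP G hG v p q hpq hv
      refine s3 (ih _ ?_ _ s1 rfl)
      rw [s2]
      exact card_erase_lt_of_mem (mem_VS_of_adj ((hv p).2 (Or.inl rfl)))
    · exact hI3K G (kconn hG h)

end DL
end

section
/-!
MP_3ff0f8_gt, ALGEBRA HALF, EX/K block, module TRA (helper57): the spaces `TR A`.
-/
open SimpleGraph Finset

namespace DL

namespace TRAM

set_option linter.unusedSectionVars false

variable {α : Type} [Fintype α] [DecidableEq α]

theorem sq (x : ZMod 2) : x * x = x := by revert x; decide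

theorem dbl (x : ZMod 2) : x + x = 0 := by revert x; decide

theorem z01 (x : ZMod 2) : x = 0 ∨ x = 1 := by revert x; decide

theorem ne0 {x : ZMod 2} (h : x ≠ 0) : x = 1 := by
  rcases z01 x with h1 | h1
  · exact absurd h1 h
  · exact h1

theorem mem3 {A : Set (Sym2 α)} {x y z : Sym2 α} (hx : x ∈ A) (hy : y ∈ A) (hz : z ∈ A)
    (h1 : x ≠ y) (h2 : x ≠ z) (h3 : y ≠ z) : (fun c : Chain α => c x * c y * c z) ∈ TR A :=
  Submodule.subset_span ⟨x, hx, y, hy, z, hz, h1, h2, h3, rfl⟩

theorem ind {A : Set (Sym2 α)} (p : (Chain α → ZMod 2) → Prop) (h0 : p 0)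
    (hadd : ∀ f g, p f → p g → p (f + g))
    (hgen : ∀ x ∈ A, ∀ y ∈ A, ∀ z ∈ A, x ≠ y → x ≠ z → y ≠ z → p (fun c => c x * c y * c z))
    {r : Chain α → ZMod 2} (hr : r ∈ TR A) : p r := by
  refine Submodule.span_induction (p := fun f _ => p f) ?_ h0
    (fun f g _ _ hf hg => hadd f g hf hg) ?_ hr
  · rintro f ⟨x, hx, y, hy, z, hz, h1, h2, h3, rfl⟩
    exact hgen x hx y hy z hz h1 h2 h3
  · intro a f _ hf
    rcases z01 a with rfl | rfl
    · simpa using h0
    · simpa using hf

theorem indP {A : Set (Sym2 α)} (p : (Chain α → ZMod 2) → Prop) (h0 : p 0)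
    (hadd : ∀ f g, p f → p g → p (f + g))
    (hgen : ∀ x ∈ A, ∀ y ∈ A, x ≠ y → p (fun c => c x * c y))
    {r : Chain α → ZMod 2} (hr : r ∈ PR A) : p r := by
  refine Submodule.span_induction (p := fun f _ => p f) ?_ h0
    (fun f g _ _ hf hg => hadd f g hf hg) ?_ hr
  · rintro f ⟨x, hx, y, hy, h1, rfl⟩
    exact hgen x hx y hy h1
  · intro a f _ hf
    rcases z01 a with rfl | rfl
    · simpa using h0
    · simpa using hf

/-- a substitution of coordinates which maps products of three different coordinates into `TR B` -/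
theorem subst {A B : Set (Sym2 α)} (t : Chain α → Chain α)
    (h : ∀ x ∈ A, ∀ y ∈ A, ∀ z ∈ A, x ≠ y → x ≠ z → y ≠ z →
      (fun c => t c x * t c y * t c z) ∈ TR B)
    {r : Chain α → ZMod 2} (hr : r ∈ TR A) : (fun c => r (t c)) ∈ TR B := by
  refine ind (p := fun r => (fun c => r (t c)) ∈ TR B) ?_ ?_ h hr
  · exact (TR B).zero_mem
  · intro f g hf hg
    exact (TR B).add_mem hf hg

theorem coordDeg (hPOL : SpecPOL) (x : Sym2 α) : DegLE 1 (fun c : Chain α => c x) :=
  hPOL.ofAdd (fun _ _ => rfl)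

theorem prod_chi (T₀ T : Finset (Sym2 α)) : ∏ e ∈ T, chi T₀ e = if T ⊆ T₀ then 1 else 0 := by
  split_ifs with h
  · exact Finset.prod_eq_one (fun e he => by simp [chi, h he])
  · obtain ⟨e, he, hn⟩ := Finset.not_subset.mp h
    exact Finset.prod_eq_zero he (by simp [chi, hn])

theorem expand {B : Finset (Sym2 α)} {s : Chain α → ZMod 2} (hs : s ∈ TR (B : Set (Sym2 α)))
    (c : Chain α) : s c = ∑ T ∈ B.powersetCard 3, s (chi T) * ∏ e ∈ T, c e := by
  refine ind (p := fun s => s c = ∑ T ∈ B.powersetCard 3, s (chi T) * ∏ e ∈ T, c e) ?_ ?_ ?_ hs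
  · simp
  · intro f g hf hg
    simp only [Pi.add_apply, add_mul, Finset.sum_add_distrib]
    rw [hf, hg]
  · intro x hx y hy z hz h1 h2 h3
    have hx' : x ∈ B := hx
    have hy' : y ∈ B := hy
    have hz' : z ∈ B := hz
    have hc : ({x, y, z} : Finset (Sym2 α)).card = 3 := Finset.card_eq_three.mpr ⟨x, y, z, h1, h2, h3, rfl⟩
    have hsub : ({x, y, z} : Finset (Sym2 α)) ⊆ B := by
      intro e he
      simp only [Finset.mem_insert, Finset.mem_singleton] at he
      rcases he with rfl | rfl | rfl <;> assumption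
    have hp : ∀ d : Chain α, ∏ e ∈ ({x, y, z} : Finset (Sym2 α)), d e = d x * d y * d z := by
      intro d
      rw [Finset.prod_insert (by simp [h1, h2]), Finset.prod_insert (by simp [h3]),
        Finset.prod_singleton, mul_assoc]
    rw [Finset.sum_eq_single_of_mem ({x, y, z} : Finset (Sym2 α))]
    · have := hp (chi {x, y, z})
      rw [prod_chi, if_pos (Finset.Subset.refl _)] at this
      simp only
      rw [← this, hp, one_mul]
    · exact Finset.mem_powersetCard.mpr ⟨hsub, hc⟩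
    · intro T hT hne
      have hT' := Finset.mem_powersetCard.mp hT
      have h4 := hp (chi T)
      rw [prod_chi, if_neg] at h4
      · simp only
        rw [← h4, zero_mul]
      · intro hsubT
        exact hne (Finset.eq_of_subset_of_card_le hsubT (by rw [hc, hT'.2])).symm

/-- `c x * c y * Σ_B c` -/
theorem elim {B : Finset (Sym2 α)} {x y : Sym2 α} (hx : x ∈ B) (hy : y ∈ B) (hxy : x ≠ y) :
    (fun c : Chain α => c x * c y * ∑ h ∈ B, c h) ∈ TR (B : Set (Sym2 α)) := by
  have h1 : (fun c : Chain α => c x * c y * ∑ h ∈ B, c h) =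
      ∑ h ∈ (B.erase x).erase y, fun c : Chain α => c x * c y * c h := by
    funext c
    rw [Finset.sum_apply, ← Finset.add_sum_erase B _ hx,
      ← Finset.add_sum_erase (B.erase x) _ (Finset.mem_erase.mpr ⟨hxy.symm, hy⟩), mul_add, mul_add,
      Finset.mul_sum, ← add_assoc]
    have : c x * c y * c x + c x * c y * c y = 0 := by
      have e1 : c x * c y * c x = c x * c y := by
        rw [mul_comm (c x) (c y), mul_assoc, sq]
      have e2 : c x * c y * c y = c x * c y := by
        rw [mul_assoc, sq]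
      rw [e1, e2, dbl]
    rw [this, zero_add]
  rw [h1]
  refine Submodule.sum_mem _ (fun h hh => ?_)
  have hh1 := Finset.mem_erase.mp hh
  have hh2 := Finset.mem_erase.mp hh1.2
  exact mem3 (A := (B : Set (Sym2 α))) (Finset.mem_coe.mpr hx) (Finset.mem_coe.mpr hy)
    (Finset.mem_coe.mpr hh2.2) hxy hh2.1.symm hh1.1.symm

theorem four' (A : Finset (Sym2 α)) {r : Chain α → ZMod 2} (hr : r ∈ TR (A : Set (Sym2 α)))
    (h4 : ∀ F ⊆ A, F.card = 4 → r (chi F) = 0) (c : Chain α) (hc : ∑ e ∈ A, c e = 0) : r c = 0 := by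
  rcases A.eq_empty_or_nonempty with rfl | ⟨k, hk⟩
  · have h0 : (∅ : Finset (Sym2 α)).powersetCard 3 = ∅ :=
      Finset.powersetCard_eq_empty.mpr (by simp)
    rw [expand hr c, h0, Finset.sum_empty]
  · set t : Chain α → Chain α := fun c e => if e = k then ∑ h ∈ A.erase k, c h else c e with ht
    have htk : ∀ c : Chain α, t c k = ∑ h ∈ A.erase k, c h := fun c => by simp [ht]
    have hte : ∀ (c : Chain α) e, e ≠ k → t c e = c e := fun c e he => by simp [ht, he]
    have hs : (fun c => r (t c)) ∈ TR ((A.erase k : Finset (Sym2 α)) : Set (Sym2 α)) := by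
      refine subst (A := (A : Set (Sym2 α))) t ?_ hr
      intro x hx y hy z hz h1 h2 h3
      have hx' : x ∈ A := hx
      have hy' : y ∈ A := hy
      have hz' : z ∈ A := hz
      by_cases hxk : x = k
      · subst hxk
        have := elim (B := A.erase x) (x := y) (y := z) (Finset.mem_erase.mpr ⟨h1.symm, hy'⟩)
          (Finset.mem_erase.mpr ⟨h2.symm, hz'⟩) h3
        convert this using 2 with c
        rw [htk, hte c y h1.symm, hte c z h2.symm]
        ring
      · by_cases hyk : y = k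
        · subst hyk
          have := elim (B := A.erase y) (x := x) (y := z) (Finset.mem_erase.mpr ⟨hxk, hx'⟩)
            (Finset.mem_erase.mpr ⟨h3.symm, hz'⟩) h2
          convert this using 2 with c
          rw [htk, hte c x h1, hte c z h3.symm]
          ring
        · by_cases hzk : z = k
          · subst hzk
            have := elim (B := A.erase z) (x := x) (y := y) (Finset.mem_erase.mpr ⟨hxk, hx'⟩)
              (Finset.mem_erase.mpr ⟨hyk, hy'⟩) h1
            convert this using 2 with c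
            rw [htk, hte c x hxk, hte c y hyk]
          · have := mem3 (A := ((A.erase k : Finset (Sym2 α)) : Set (Sym2 α))) (x := x) (y := y) (z := z)
              (Finset.mem_coe.mpr (Finset.mem_erase.mpr ⟨hxk, hx'⟩))
              (Finset.mem_coe.mpr (Finset.mem_erase.mpr ⟨hyk, hy'⟩))
              (Finset.mem_coe.mpr (Finset.mem_erase.mpr ⟨hzk, hz'⟩)) h1 h2 h3
            convert this using 2 with c
            rw [hte c x hxk, hte c y hyk, hte c z hzk]
    have hrc : r c = r (t c) := by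
      congr 1
      funext e
      by_cases he : e = k
      · subst he
        rw [htk]
        rw [← Finset.add_sum_erase A _ hk] at hc
        have := dbl (c e)
        calc c e = c e + (c e + ∑ h ∈ A.erase e, c h) := by rw [hc, add_zero]
          _ = ∑ h ∈ A.erase e, c h := by rw [← add_assoc, this, zero_add]
      · rw [hte c e he]
    rw [hrc]
    have := expand hs c
    rw [this]
    refine Finset.sum_eq_zero (fun T hT => ?_)
    have hT' := Finset.mem_powersetCard.mp hT
    have hkT : k ∉ T := fun h => by simpa using hT'.1 h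
    have : t (chi T) = chi (insert k T) := by
      funext e
      by_cases he : e = k
      · subst he
        rw [htk]
        have : ∑ h ∈ A.erase e, chi T h = ∑ h ∈ T, (1 : ZMod 2) := by
          rw [← Finset.sum_subset hT'.1]
          · exact Finset.sum_congr rfl (fun h hh => by simp [chi, hh])
          · intro h _ hn
            simp [chi, hn]
        rw [this]
        simp [chi, hT'.2]
        decide
      · rw [hte _ e he]
        simp [chi, he]
    rw [this, h4 (insert k T), zero_mul]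
    · intro e he
      rcases Finset.mem_insert.mp he with rfl | he
      · exact hk
      · exact (Finset.mem_erase.mp (hT'.1 he)).2
    · rw [Finset.card_insert_of_notMem hkT, hT'.2]

/-- move the coordinate `y` to `k` -/
def tau (y k : Sym2 α) (c : Chain α) : Chain α := fun e =>
  if e = y then 0 else if e = k then c k + c y else c e

theorem tau_y (y k : Sym2 α) (c : Chain α) : tau y k c y = 0 := by simp [tau]

theorem tau_k {y k : Sym2 α} (h : y ≠ k) (c : Chain α) : tau y k c k = c k + c y := by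
  simp [tau, h.symm]

theorem tau_e {y k e : Sym2 α} (h : e ≠ y) (h' : e ≠ k) (c : Chain α) : tau y k c e = c e := by
  simp [tau, h, h']

theorem tau_id {y k : Sym2 α} (h : y ≠ k) {c : Chain α} (hc : c y = 0) : tau y k c = c := by
  funext e
  by_cases h1 : e = y
  · subst h1; rw [tau_y, hc]
  · by_cases h2 : e = k
    · subst h2; rw [tau_k h, hc, add_zero]
    · rw [tau_e h1 h2]

theorem tau_sum {A : Finset (Sym2 α)} {y k : Sym2 α} (hy : y ∈ A) (hk : k ∈ A) (h : y ≠ k)
    (c : Chain α) : ∑ e ∈ A, tau y k c e = ∑ e ∈ A, c e := by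
  rw [← Finset.add_sum_erase A _ hy, ← Finset.add_sum_erase A c hy,
    ← Finset.add_sum_erase (A.erase y) _ (Finset.mem_erase.mpr ⟨h.symm, hk⟩),
    ← Finset.add_sum_erase (A.erase y) c (Finset.mem_erase.mpr ⟨h.symm, hk⟩), tau_y, tau_k h]
  have : ∑ e ∈ (A.erase y).erase k, tau y k c e = ∑ e ∈ (A.erase y).erase k, c e := by
    refine Finset.sum_congr rfl (fun e he => ?_)
    have h1 := Finset.mem_erase.mp he
    have h2 := Finset.mem_erase.mp h1.2
    exact tau_e h2.1 h1.1 c
  rw [this]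
  ring

theorem tau_mem {A : Set (Sym2 α)} {y k : Sym2 α} (hy : y ∈ A) (hk : k ∈ A) (h : y ≠ k)
    {r : Chain α → ZMod 2} (hr : r ∈ TR A) : (fun c => r (tau y k c)) ∈ TR A := by
  refine subst (tau y k) ?_ hr
  intro a ha b hb d hd h1 h2 h3
  have hz : (fun _ : Chain α => (0 : ZMod 2)) ∈ TR A := (TR A).zero_mem
  by_cases hay : a = y
  · subst hay
    convert hz using 2 with c
    rw [tau_y, zero_mul, zero_mul]
  by_cases hby : b = y
  · subst hby
    convert hz using 2 with c
    rw [tau_y, mul_zero, zero_mul]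
  by_cases hdy : d = y
  · subst hdy
    convert hz using 2 with c
    rw [tau_y, mul_zero]
  by_cases hak : a = k
  · subst hak
    have := (TR A).add_mem (mem3 ha hb hd h1 h2 h3) (mem3 hy hb hd (Ne.symm hby) (Ne.symm hdy) h3)
    convert this using 1
    funext c
    rw [Pi.add_apply, tau_k h, tau_e hby (Ne.symm h1), tau_e hdy (Ne.symm h2)]
    ring
  by_cases hbk : b = k
  · subst hbk
    have := (TR A).add_mem (mem3 ha hb hd h1 h2 h3) (mem3 ha hy hd hay h2 (Ne.symm hdy))
    convert this using 1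
    funext c
    rw [Pi.add_apply, tau_k h, tau_e hay h1, tau_e hdy (Ne.symm h3)]
    ring
  by_cases hdk : d = k
  · subst hdk
    have := (TR A).add_mem (mem3 ha hb hd h1 h2 h3) (mem3 ha hb hy h1 hay hby)
    convert this using 1
    funext c
    rw [Pi.add_apply, tau_k h, tau_e hay h2, tau_e hby h3]
    ring
  · have := mem3 ha hb hd h1 h2 h3
    convert this using 2 with c
    rw [tau_e hay hak, tau_e hby hbk, tau_e hdy hdk]

end TRAM

open TRAM in
/-- Module TRA. -/
theorem specTRA (hPOL : SpecPOL) : SpecTRA where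
  deg := by
    intro α _ _ A r hr
    refine ind (p := fun r => DegLE 3 r ∧ r 0 = 0) ?_ ?_ ?_ hr
    · exact ⟨hPOL.zero 3, rfl⟩
    · intro f g hf hg
      exact ⟨hPOL.add hf.1 hg.1, by rw [Pi.add_apply, hf.2, hg.2, add_zero]⟩
    · intro x _ y _ z _ _ _ _
      exact ⟨hPOL.mul (hPOL.mul (coordDeg hPOL x) (coordDeg hPOL y)) (coordDeg hPOL z), by simp⟩
  degP := by
    intro α _ _ A r hr
    refine indP (p := fun r => DegLE 2 r ∧ r 0 = 0) ?_ ?_ ?_ hr
    · exact ⟨hPOL.zero 2, rfl⟩
    · intro f g hf hg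
      exact ⟨hPOL.add hf.1 hg.1, by rw [Pi.add_apply, hf.2, hg.2, add_zero]⟩
    · intro x _ y _ _
      exact ⟨hPOL.mul (coordDeg hPOL x) (coordDeg hPOL y), by simp⟩
  mono := by
    intro α _ _ A B hAB
    refine Submodule.span_mono ?_
    rintro f ⟨x, hx, y, hy, z, hz, h⟩
    exact ⟨x, hAB hx, y, hAB hy, z, hAB hz, h⟩
  loc := by
    intro α _ _ A r hr c c' h
    refine ind (p := fun r => r c = r c') rfl ?_ ?_ hr
    · intro f g hf hg
      rw [Pi.add_apply, Pi.add_apply, hf, hg]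
    · intro x hx y hy z hz _ _ _
      simp only [h x hx, h y hy, h z hz]
  two := by
    intro α _ _ A r hr c x y h
    refine ind (p := fun r => r c = 0) rfl ?_ ?_ hr
    · intro f g hf hg
      rw [Pi.add_apply, hf, hg, add_zero]
    · intro a ha b hb d hd h1 h2 h3
      simp only
      by_contra hne
      have h4 : c a ≠ 0 := fun h => hne (by rw [h]; ring)
      have h5 : c b ≠ 0 := fun h => hne (by rw [h]; ring)
      have h6 : c d ≠ 0 := fun h => hne (by rw [h]; ring)
      rcases h a ha h4 with e1 | e1 <;> rcases h b hb h5 with e2 | e2 <;>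
        rcases h d hd h6 with e3 | e3 <;> first
          | exact h1 (e1.trans e2.symm)
          | exact h2 (e1.trans e3.symm)
          | exact h3 (e2.trans e3.symm)
  three := by
    intro α _ _ A r hr c x y z h hxyz
    refine ind (p := fun r => r c = 0) rfl ?_ ?_ hr
    · intro f g hf hg
      rw [Pi.add_apply, hf, hg, add_zero]
    · intro a ha b hb d hd h1 h2 h3
      simp only
      by_contra hne
      have h4 : c a ≠ 0 := fun h => hne (by rw [h]; ring)
      have h5 : c b ≠ 0 := fun h => hne (by rw [h]; ring)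
      have h6 : c d ≠ 0 := fun h => hne (by rw [h]; ring)
      rcases h a ha h4 with e1 | e1 | e1 <;> rcases h b hb h5 with e2 | e2 | e2 <;>
        rcases h d hd h6 with e3 | e3 | e3 <;> first
          | exact h1 (e1.trans e2.symm)
          | exact h2 (e1.trans e3.symm)
          | exact h3 (e2.trans e3.symm)
          | (subst e1 e2 e3; first | exact hne hxyz | exact hne ((by ring : _ = _).trans hxyz))
  res := by
    intro α _ _ A r B hr
    refine ind (p := fun r => ∃ r' ∈ TR (A \ B), ∀ c : Chain α, (∀ e ∈ A ∩ B, c e = 0) → r c = r' c)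
      ?_ ?_ ?_ hr
    · exact ⟨0, (TR (A \ B)).zero_mem, fun _ _ => rfl⟩
    · rintro f g ⟨f', hf', hf⟩ ⟨g', hg', hg⟩
      exact ⟨f' + g', (TR (A \ B)).add_mem hf' hg', fun c hc => by
        rw [Pi.add_apply, Pi.add_apply, hf c hc, hg c hc]⟩
    · intro x hx y hy z hz h1 h2 h3
      by_cases hxB : x ∈ B
      · exact ⟨0, (TR (A \ B)).zero_mem, fun c hc => by simp [hc x ⟨hx, hxB⟩]⟩
      by_cases hyB : y ∈ B
      · exact ⟨0, (TR (A \ B)).zero_mem, fun c hc => by simp [hc y ⟨hy, hyB⟩]⟩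
      by_cases hzB : z ∈ B
      · exact ⟨0, (TR (A \ B)).zero_mem, fun c hc => by simp [hc z ⟨hz, hzB⟩]⟩
      exact ⟨_, mem3 ⟨hx, hxB⟩ ⟨hy, hyB⟩ ⟨hz, hzB⟩ h1 h2 h3, fun _ _ => rfl⟩
  map := by
    intro α _ _ A B r φ hinj hB hr
    refine ind (p := fun r => ∃ r' ∈ TR B, ∀ c c' : Chain α, (∀ e ∈ A, c e = c' (φ e)) → r c = r' c')
      ?_ ?_ ?_ hr
    · exact ⟨0, (TR B).zero_mem, fun _ _ _ => rfl⟩
    · rintro f g ⟨f', hf', hf⟩ ⟨g', hg', hg⟩
      exact ⟨f' + g', (TR B).add_mem hf' hg', fun c c' hc => by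
        rw [Pi.add_apply, Pi.add_apply, hf c c' hc, hg c c' hc]⟩
    · intro x hx y hy z hz h1 h2 h3
      refine ⟨_, mem3 (hB x hx) (hB y hy) (hB z hz) (fun h => h1 (hinj hx hy h))
        (fun h => h2 (hinj hx hz h)) (fun h => h3 (hinj hy hz h)), fun c c' hc => ?_⟩
      simp only [hc x hx, hc y hy, hc z hz]
  four := by
    intro α _ _ A r hr h4 c hc
    exact four' A hr h4 c hc
  glue := by
    intro α _ _ A r₁ r₂ x y k hx hy hk hxy hxk hyk h1 h2 h
    refine ⟨fun c => r₁ (tau y k c) + r₂ (tau x k c) + r₁ (tau x k (tau y k c)), ?_, ?_⟩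
    · have hxA : x ∈ (A : Set (Sym2 α)) := hx
      have hyA : y ∈ (A : Set (Sym2 α)) := hy
      have hkA : k ∈ (A : Set (Sym2 α)) := hk
      exact (TR (A : Set (Sym2 α))).add_mem
        ((TR (A : Set (Sym2 α))).add_mem (tau_mem hyA hkA hyk h1) (tau_mem hxA hkA hxk h2))
        (tau_mem hyA hkA hyk (tau_mem hxA hkA hxk h1))
    · intro c hc
      constructor
      · intro hcy
        have e1 : tau y k c = c := tau_id hyk hcy
        simp only
        rw [e1]
        have e2 : r₁ (tau x k c) = r₂ (tau x k c) := by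
          apply h
          · rw [tau_sum hx hk hxk, hc]
          · exact tau_y x k c
          · rw [tau_e (Ne.symm hxy) hyk, hcy]
        rw [e2, add_assoc, dbl, add_zero]
      · intro hcx
        have e1 : tau x k c = c := tau_id hxk hcx
        have e2 : tau x k (tau y k c) = tau y k c := by
          apply tau_id hxk
          rw [tau_e hxy hxk, hcx]
        simp only
        rw [e1, e2, add_comm (r₁ (tau y k c)) (r₂ c), add_assoc, dbl, add_zero]

end DL
end

section
/-!
MP_3ff0f8_gt, ALGEBRA HALF, EX/K block, module INJ (helper57): functions `q + Σ μ dirn` which vanish on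
all `a`-`b` paths of `G - ab`.
-/
open SimpleGraph Finset

namespace DL

namespace INJM

open TRAM

set_option linter.unusedSectionVars false

variable {α : Type} [Fintype α] [DecidableEq α]

theorem memP {A : Set (Sym2 α)} {x y : Sym2 α} (hx : x ∈ A) (hy : y ∈ A) (h1 : x ≠ y) :
    (fun c : Chain α => c x * c y) ∈ PR A := Submodule.subset_span ⟨x, hx, y, hy, h1, rfl⟩

theorem locP {A : Set (Sym2 α)} {r : Chain α → ZMod 2} (hr : r ∈ PR A) (c c' : Chain α)
    (h : ∀ e ∈ A, c e = c' e) : r c = r c' := by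
  refine indP (p := fun r => r c = r c') rfl ?_ ?_ hr
  · intro f g hf hg
    rw [Pi.add_apply, Pi.add_apply, hf, hg]
  · intro x hx y hy _
    simp only [h x hx, h y hy]

theorem resP {A : Set (Sym2 α)} {r : Chain α → ZMod 2} (B : Set (Sym2 α)) (hr : r ∈ PR A) :
    ∃ r' ∈ PR (A \ B), ∀ c : Chain α, (∀ e ∈ A ∩ B, c e = 0) → r c = r' c := by
  refine indP (p := fun r => ∃ r' ∈ PR (A \ B), ∀ c : Chain α, (∀ e ∈ A ∩ B, c e = 0) → r c = r' c)
      ?_ ?_ ?_ hr
  · exact ⟨0, (PR (A \ B)).zero_mem, fun _ _ => rfl⟩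
  · rintro f g ⟨f', hf', hf⟩ ⟨g', hg', hg⟩
    exact ⟨f' + g', (PR (A \ B)).add_mem hf' hg', fun c hc => by
        rw [Pi.add_apply, Pi.add_apply, hf c hc, hg c hc]⟩
  · intro x hx y hy h1
    by_cases hxB : x ∈ B
    · exact ⟨0, (PR (A \ B)).zero_mem, fun c hc => by simp [hc x ⟨hx, hxB⟩]⟩
    by_cases hyB : y ∈ B
    · exact ⟨0, (PR (A \ B)).zero_mem, fun c hc => by simp [hc y ⟨hy, hyB⟩]⟩
    exact ⟨_, memP ⟨hx, hxB⟩ ⟨hy, hyB⟩ h1, fun _ _ => rfl⟩

/-- split off one coordinate -/
theorem split_ins {A A' : Set (Sym2 α)} {e : Sym2 α} (hA : ∀ x ∈ A', x ≠ e → x ∈ A)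
    {r : Chain α → ZMod 2} (hr : r ∈ TR A') :
    ∃ r₀ ∈ TR A, ∃ ρ ∈ PR A, ∀ c, r c = r₀ c + c e * ρ c := by
  refine ind (p := fun r => ∃ r₀ ∈ TR A, ∃ ρ ∈ PR A, ∀ c, r c = r₀ c + c e * ρ c) ?_ ?_ ?_ hr
  · exact ⟨0, (TR A).zero_mem, 0, (PR A).zero_mem, fun c => by simp⟩
  · rintro f g ⟨f0, hf0, f1, hf1, hf⟩ ⟨g0, hg0, g1, hg1, hg⟩
    refine ⟨f0 + g0, (TR A).add_mem hf0 hg0, f1 + g1, (PR A).add_mem hf1 hg1, fun c => ?_⟩
    simp only [Pi.add_apply, hf c, hg c]
    ring
  · intro x hx y hy z hz h1 h2 h3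
    by_cases hxe : x = e
    · subst hxe
      exact ⟨0, (TR A).zero_mem, _, memP (hA y hy h1.symm) (hA z hz h2.symm) h3,
        fun c => by simp [mul_assoc]⟩
    by_cases hye : y = e
    · subst hye
      exact ⟨0, (TR A).zero_mem, _, memP (hA x hx h1) (hA z hz h3.symm) h2,
        fun c => by simp only [Pi.zero_apply]; ring⟩
    by_cases hze : z = e
    · subst hze
      exact ⟨0, (TR A).zero_mem, _, memP (hA x hx h2) (hA y hy h3) h1,
        fun c => by simp only [Pi.zero_apply]; ring⟩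
    · exact ⟨_, mem3 (hA x hx hxe) (hA y hy hye) (hA z hz hze) h1 h2 h3, 0, (PR A).zero_mem,
        fun c => by simp⟩

theorem add_chi_self (c : Chain α) (k : Sym2 α) : (c + chi {k}) k = c k + 1 := by
  rw [Pi.add_apply, chi_of_mem (by simp)]

theorem add_chi_ne (c : Chain α) {k e : Sym2 α} (h : e ≠ k) : (c + chi {k}) e = c e := by
  rw [Pi.add_apply, chi_of_notMem (by simpa using h), add_zero]

/-- the difference in the direction of one coordinate -/
theorem dif {A : Set (Sym2 α)} {k : Sym2 α} {r : Chain α → ZMod 2} (hr : r ∈ TR A) :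
    (fun c => r c + r (c + chi {k})) ∈ PR A := by
  refine ind (p := fun r => (fun c => r c + r (c + chi {k})) ∈ PR A) ?_ ?_ ?_ hr
  · have : (fun c : Chain α => (0 : Chain α → ZMod 2) c + (0 : Chain α → ZMod 2) (c + chi {k})) = 0 := by
      funext c; simp
    rw [this]
    exact (PR A).zero_mem
  · intro f g hf hg
    have := (PR A).add_mem hf hg
    convert this using 1
    funext c
    simp only [Pi.add_apply]
    ring
  · intro x hx y hy z hz h1 h2 h3
    by_cases hxk : x = k
    · subst hxk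
      convert memP hy hz h3 using 1
      funext c
      beta_reduce
      rw [add_chi_self, add_chi_ne c h1.symm, add_chi_ne c h2.symm]
      have := dbl (c x * c y * c z)
      calc _ = (c x * c y * c z + c x * c y * c z) + c y * c z := by ring
        _ = _ := by rw [this, zero_add]
    by_cases hyk : y = k
    · subst hyk
      convert memP hx hz h2 using 1
      funext c
      beta_reduce
      rw [add_chi_self, add_chi_ne c h1, add_chi_ne c h3.symm]
      have := dbl (c x * c y * c z)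
      calc _ = (c x * c y * c z + c x * c y * c z) + c x * c z := by ring
        _ = _ := by rw [this, zero_add]
    by_cases hzk : z = k
    · subst hzk
      convert memP hx hy h1 using 1
      funext c
      beta_reduce
      rw [add_chi_self, add_chi_ne c h2, add_chi_ne c h3]
      have := dbl (c x * c y * c z)
      calc _ = (c x * c y * c z + c x * c y * c z) + c x * c y := by ring
        _ = _ := by rw [this, zero_add]
    · have : (fun c : Chain α => c x * c y * c z + (c + chi {k}) x * (c + chi {k}) y * (c + chi {k}) z) = 0 := by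
        funext c
        rw [add_chi_ne c hxk, add_chi_ne c hyk, add_chi_ne c hzk, dbl]
        rfl
      rw [this]
      exact (PR A).zero_mem

/-! ## sums over ordered pairs -/

theorem sum_pair (F : α → α → ZMod 2) (κ : Chain α) :
    ∑ c, ∑ d, κ s(c, d) * F c d = ∑ e, κ e * ∑ c, ∑ d, if s(c, d) = e then F c d else 0 := by
  simp only [mul_sum, mul_ite, mul_zero]
  rw [sum_comm]
  conv_rhs => rw [sum_comm]
  rw [sum_comm]
  refine sum_congr rfl fun c _ => ?_
  rw [sum_comm]
  refine sum_congr rfl fun d _ => ?_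
  rw [sum_ite_eq]
  simp

theorem sum_sym (F : α → α → ZMod 2) {x y : α} (hxy : x ≠ y) :
    (∑ c, ∑ d, if s(c, d) = s(x, y) then F c d else 0) = F x y + F y x := by
  have : ∀ c d, (if s(c, d) = s(x, y) then F c d else 0) =
      (if c = x then (if d = y then F x y else 0) else 0) +
        (if c = y then (if d = x then F y x else 0) else 0) := by
    intro c d
    simp only [Sym2.eq_iff]
    by_cases h1 : c = x
    · subst h1
      by_cases h2 : d = y
      · subst h2; simp [hxy]
      · simp [h2, hxy]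
    · by_cases h2 : c = y
      · subst h2
        by_cases h3 : d = x
        · subst h3; simp [h1]
        · simp [h1, h3]
      · simp [h1, h2]
  simp only [this, sum_add_distrib]
  simp

theorem sum_diag (F : α → α → ZMod 2) (x : α) :
    (∑ c, ∑ d, if s(c, d) = s(x, x) then F c d else 0) = F x x := by
  have : ∀ c d, (if s(c, d) = s(x, x) then F c d else 0) =
      (if c = x then (if d = x then F x x else 0) else 0) := by
    intro c d
    simp only [Sym2.eq_iff]
    by_cases h1 : c = x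
    · subst h1
      by_cases h2 : d = c
      · subst h2; simp
      · simp [h2]
    · simp [h1]
  simp only [this]
  simp

theorem sum_fix (μ : α → α → ZMod 2) (F : α → α → α → α → ZMod 2) (a b : α) :
    ∑ x, ∑ y, ∑ c, ∑ d, (if x = b ∧ y = a then μ c d else 0) * F x y c d =
      ∑ c, ∑ d, μ c d * F b a c d := by
  rw [sum_eq_single b, sum_eq_single a]
  · simp
  · intro y _ hy; simp [hy]
  · simp
  · intro x _ hx; simp [hx]
  · simp

theorem sum_two (f : α → ZMod 2) {a b : α} (hab : a ≠ b) :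
    ∑ x, f x = (∑ x, if x = a ∨ x = b then 0 else f x) + (f a + f b) := by
  have : ∀ x, f x = (if x = a ∨ x = b then 0 else f x) +
      ((if x = a then f a else 0) + (if x = b then f b else 0)) := by
    intro x
    by_cases h1 : x = a
    · subst h1; simp [hab]
    · by_cases h2 : x = b
      · subst h2; simp [h1]
      · simp [h1, h2]
  conv_lhs => rw [sum_congr rfl fun x _ => this x]
  rw [sum_add_distrib, sum_add_distrib]
  simp

theorem z_eq {x y : ZMod 2} (h : x + y = 0) : y = x := by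
  revert x y; decide

theorem z_swap {w x y z : ZMod 2} (h : w + x = y + z) : w + y = x + z := by
  revert w x y z; decide

theorem star_delE (G : SimpleGraph α) (a b v : α) :
    star G v \ {s(a, b)} = star (delE G a b) v := by
  ext e
  simp only [star, delE, Set.mem_sdiff, Set.mem_ofPred_eq, Set.mem_singleton_iff,
    edgeSet_deleteEdges]
  tauto

theorem edge_delE {G : SimpleGraph α} {a b : α} {e : Sym2 α} :
    e ∈ (delE G a b).edgeSet ↔ e ∈ G.edgeSet ∧ e ≠ s(a, b) := by
  simp [delE]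

section main

variable {G : SimpleGraph α} {a b : α} {μ : α → α → ZMod 2}

theorem mu_ne (hμ : ∀ c d, μ c d ≠ 0 → (del G {a, b}).Adj c d) (c d : α) (h : μ c d ≠ 0) :
    c ≠ a ∧ c ≠ b ∧ d ≠ a ∧ d ≠ b := by
  have := hμ c d h
  simp only [del, mem_insert, mem_singleton, not_or] at this
  exact ⟨this.2.1.1, this.2.1.2, this.2.2.1, this.2.2.2⟩

theorem pcyc (hab : G.Adj a b) {P : Finset (Sym2 α)} (h : IsPth (delE G a b) a b P) :
    IsCyc G (insert s(a, b) P) ∧ s(a, b) ∉ P := by
  obtain ⟨h1, h2⟩ := isPth_delE.1 h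
  exact ⟨h1.isCyc hab h2, h2⟩

theorem cpth {C : Finset (Sym2 α)} (h1 : IsCyc G C) (h2 : s(a, b) ∈ C) :
    IsPth (delE G a b) a b (C \ {s(a, b)}) :=
  isPth_delE.2 ⟨h1.isPth h2, by simp⟩

/-- the functions `c(ab) q(c + ab)` on cycles -/
theorem cub (hPOL : SpecPOL) {q : Chain α → ZMod 2} (hq : DegLE 2 q) :
    DegLE 3 (fun c : Chain α => c s(a, b) * q (c + chi {s(a, b)})) :=
  hPOL.mul (coordDeg hPOL _) (hPOL.shift _ hq)

theorem cub_cyc {q : Chain α → ZMod 2} {C : Finset (Sym2 α)} :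
    chi C s(a, b) * q (chi C + chi {s(a, b)}) =
      if s(a, b) ∈ C then q (chi (C \ {s(a, b)})) else 0 := by
  split_ifs with h
  · rw [chi_of_mem h, one_mul, chi_sdiff (by simpa using h)]
  · rw [chi_of_notMem h, zero_mul]

/-- Step 1: `μ c d + μ d c` is a coboundary -/
theorem step1 (hPOL : SpecPOL) (hS3F : SpecS3F) (hLPE : SpecLPE) (hab : G.Adj a b)
    (hK3 : KConn 3 G) (hS3 : S3S (delE G a b)) (hKZ : KZ G) {q : Chain α → ZMod 2}
    (hq : DegLE 2 q) (hμ : ∀ c d, μ c d ≠ 0 → (del G {a, b}).Adj c d)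
    (hP : ∀ P, IsPth (delE G a b) a b P → q (chi P) + ∑ c, ∑ d, μ c d * dirn a c d P = 0) :
    ∃ s : α → ZMod 2, ∀ c d, (del G {a, b}).Adj c d → μ c d + μ d c = s c + s d := by
  have h1 : InP3 G (fun C => ∑ x, ∑ y, ∑ c, ∑ d,
      (if x = b ∧ y = a then μ c d else 0) * coh x y c d C) := by
    refine ⟨fun c => c s(a, b) * q (c + chi {s(a, b)}), cub hPOL hq, by simp, ?_⟩
    intro C hC
    beta_reduce
    rw [sum_fix μ (fun x y c d => coh x y c d C) a b, cub_cyc]
    split_ifs with h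
    · rw [← z_eq (hP _ (cpth hC h))]
      refine sum_congr rfl fun c _ => sum_congr rfl fun d _ => ?_
      by_cases h0 : μ c d = 0
      · simp [h0]
      · obtain ⟨h1, h2, h3, h4⟩ := mu_ne hμ c d h0
        have hba : s(b, a) ∈ C := by rwa [Sym2.eq_swap]
        have hne : s(c, d) ≠ s(b, a) := by
          intro e
          rw [Sym2.eq_iff] at e
          rcases e with ⟨e, _⟩ | ⟨e, _⟩
          · exact h2 e
          · exact h1 e
        rw [coh_eq_dirn hba hne, Sym2.eq_swap (a := b)]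
    · refine sum_eq_zero fun c _ => sum_eq_zero fun d _ => ?_
      rw [coh_eq_zero_left (by rwa [Sym2.eq_swap]), mul_zero]
  have h2 := hKZ _ h1
  have hK2 : KConn 2 G := ⟨by have := hK3.1; omega, fun S hS => hK3.2 S (by omega)⟩
  have hvs := hS3F.vsE a b hK2
  have ha : a ∈ VS (delE G a b) := by
    rw [hvs]; simp only [VS, mem_filter, mem_univ, true_and]; exact ⟨b, hab⟩
  have hb : b ∈ VS (delE G a b) := by
    rw [hvs]; simp only [VS, mem_filter, mem_univ, true_and]; exact ⟨a, hab.symm⟩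
  obtain ⟨s, hs⟩ := cut (G := del G {a, b})
    (a := fun e => ∑ c, ∑ d, if s(c, d) = e then μ c d else 0) (by
      intro Z hZ
      obtain ⟨z, hz, hz'⟩ := hLPE.edge hab hS3 ha hb Z hZ
      have h3 := h2 z hz
      rw [sum_fix μ (fun x y c d => z s(x, y) s(c, d)) a b] at h3
      have h4 := sum_pair μ Z
      rw [sum_congr rfl fun e _ => mul_comm _ _, ← h4, ← h3]
      refine sum_congr rfl fun c _ => sum_congr rfl fun d _ => ?_
      rw [Sym2.eq_swap (a := b), hz', mul_comm])
  refine ⟨s, fun c d hcd => ?_⟩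
  rw [← hs c d hcd, sum_sym μ hcd.ne]

/-- Step 2: the number of edges of a path at a vertex -/
theorem step2 (hVRW : SpecVRW) (hab : G.Adj a b) : ∃ Q : α → Chain α → ZMod 2,
    (∀ w, Q w ∈ PR (star (delE G a b) w)) ∧
      ∀ w P, IsPth (delE G a b) a b P → w ≠ a → w ≠ b → Q w (chi P) = if w ∈ vs P then 1 else 0 := by
  choose q0 hq0 hq0' using fun w : α => hVRW.vs2 w
  choose Q0 hQ0 hQ0' using fun w => resP {e | e ∉ (delE G a b).edgeSet} (hq0 w)
  have hst : ∀ w, ({e | w ∈ e} : Set (Sym2 α)) \ {e | e ∉ (delE G a b).edgeSet} =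
      star (delE G a b) w := by
    intro w
    ext e
    simp only [star, Set.mem_sdiff, Set.mem_ofPred_eq, not_not]
    tauto
  have hQs : ∀ w, Q0 w ∈ PR (star (delE G a b) w) := fun w => by
    rw [← hst w]; exact hQ0 w
  refine ⟨Q0, hQs, ?_⟩
  intro w P hP hwa hwb
  obtain ⟨hC, hn⟩ := pcyc hab hP
  have hwab : ∀ e : Sym2 α, w ∈ e → e ≠ s(a, b) := by
    rintro e he rfl
    rw [Sym2.mem_iff] at he
    exact he.elim hwa hwb
  have h1 : Q0 w (chi P) = Q0 w (chi (insert s(a, b) P)) := by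
    refine locP (hQs w) _ _ fun e he => ?_
    have h0 : chi {s(a, b)} e = 0 := chi_of_notMem (by simpa using hwab e he.2)
    rw [chi_insert hn, Pi.add_apply, h0, zero_add]
  rw [h1, ← hQ0' w, hq0' w G _ hC]
  · congr 1
    rw [vs_insert]
    simp [hwa, hwb]
  · rintro e ⟨he1, he2⟩
    refine chi_of_notMem fun h => ?_
    rcases mem_insert.1 h with h | h
    · exact hwab e he1 h
    · exact he2 (hP.subset e h)

/-- Step 3 -/
theorem step3 (hVRW : SpecVRW) (hab : G.Adj a b)
    (hμ : ∀ c d, μ c d ≠ 0 → (del G {a, b}).Adj c d) {s : α → ZMod 2}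
    (hs : ∀ c d, (del G {a, b}).Adj c d → μ c d + μ d c = s c + s d)
    {Q : α → Chain α → ZMod 2}
    (hQ : ∀ w P, IsPth (delE G a b) a b P → w ≠ a → w ≠ b → Q w (chi P) = if w ∈ vs P then 1 else 0) :
    ∃ κ : Chain α, ∀ P, IsPth (delE G a b) a b P → ∑ c, ∑ d, μ c d * dirn a c d P =
      (∑ w, if w = a ∨ w = b then 0 else s w * (Q w (chi P) + chi P s(w, b))) +
        ∑ e, κ e * chi P e := by
  classical
  set κ : Chain α := Sym2.lift ⟨fun c d => if (del G {a, b}).Adj c d then μ c d + s c else 0, by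
    intro c d
    beta_reduce
    by_cases h : (del G {a, b}).Adj c d
    · rw [if_pos h, if_pos h.symm]
      exact z_swap (hs c d h)
    · rw [if_neg h, if_neg fun h' => h h'.symm]⟩ with hκ
  have hκ' : ∀ c d, κ s(c, d) = if (del G {a, b}).Adj c d then μ c d + s c else 0 := fun _ _ => rfl
  refine ⟨κ, fun P hP => ?_⟩
  obtain ⟨hC, hn⟩ := pcyc hab hP
  -- (i)
  have h1 : ∀ w, w ≠ a → w ≠ b → Q w (chi P) + chi P s(w, b) =
      ∑ x, if x = a ∨ x = b then 0 else dirn a w x P := by
    intro w hwa hwb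
    have e1 := hVRW.vr hC w b a hwb hwa hab.ne.symm
    have e2 : ∀ x, coh w x b a (insert s(a, b) P) = dirn a w x P := by
      intro x
      rw [← hC.coh_comm]
      have hba : s(b, a) ∉ P := by rwa [Sym2.eq_swap]
      have hne : s(w, x) ≠ s(b, a) := by
        intro e
        rw [Sym2.eq_iff] at e
        rcases e with ⟨e, _⟩ | ⟨e, _⟩
        · exact hwb e
        · exact hwa e
      rw [Sym2.eq_swap (a := a), coh_insert hba hne]
    rw [sum_congr rfl fun x _ => e2 x, sum_two _ hab.ne, hP.dirn_into_start, hP.dirn_end, zero_add] at e1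
    rw [hQ w P hP hwa hwb]
    have e3 : (if s(b, a) ∈ insert s(a, b) P ∧ w ∈ vs (insert s(a, b) P) then (1 : ZMod 2) else 0) =
        if w ∈ vs P then 1 else 0 := by
      congr 1
      rw [vs_insert, Sym2.eq_swap (a := b)]
      simp [hwa, hwb]
    rw [e3] at e1
    rw [← e1, add_assoc, zmod2_add_self, add_zero]
  -- (ii)
  have h2 : ∑ e, κ e * chi P e = ∑ c, ∑ d, κ s(c, d) * dirn a c d P := by
    rw [sum_pair]
    refine sum_congr rfl fun e _ => ?_
    congr 1
    induction e using Sym2.ind with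
    | _ x y =>
      by_cases hxy : x = y
      · subst hxy
        rw [sum_diag]
        have : s(x, x) ∉ P := fun h => hP.not_isDiag _ h (by simp)
        rw [dirn_eq_zero_of_notMem this, chi_of_notMem this]
      · rw [sum_sym _ hxy, hP.dirn_add_swap]
  -- (iii)
  have h3 : ∀ c d, μ c d * dirn a c d P =
      (if c = a ∨ c = b then 0 else s c * (if d = a ∨ d = b then 0 else dirn a c d P)) +
        κ s(c, d) * dirn a c d P := by
    intro c d
    by_cases hcd : s(c, d) ∈ P
    · have hadj : G.Adj c d := (isPth_delE.1 hP).1.adj_of_mem hcd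
      by_cases hc : c = a ∨ c = b
      · have hna : ¬ (del G {a, b}).Adj c d := fun h => h.2.1 (by simpa using hc)
        have h0 : μ c d = 0 := by
          by_contra h; exact hna (hμ c d h)
        rw [h0, if_pos hc, hκ', if_neg hna]
        simp
      · by_cases hd : d = a ∨ d = b
        · have hna : ¬ (del G {a, b}).Adj c d := fun h => h.2.2 (by simpa using hd)
          have h0 : μ c d = 0 := by
            by_contra h; exact hna (hμ c d h)
          rw [h0, if_neg hc, if_pos hd, hκ', if_neg hna]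
          simp
        · have hna : (del G {a, b}).Adj c d := ⟨hadj, by simpa using hc, by simpa using hd⟩
          rw [if_neg hc, if_neg hd, hκ', if_pos hna]
          have := zmod2_add_self (s c * dirn a c d P)
          calc μ c d * dirn a c d P = (s c * dirn a c d P + s c * dirn a c d P) +
                μ c d * dirn a c d P := by rw [this, zero_add]
            _ = _ := by ring
    · rw [dirn_eq_zero_of_notMem hcd]
      simp
  rw [h2, sum_congr rfl fun c _ => sum_congr rfl fun d _ => h3 c d]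
  simp only [sum_add_distrib]
  congr 1
  refine sum_congr rfl fun c _ => ?_
  by_cases hc : c = a ∨ c = b
  · simp [hc]
  · simp only [if_neg hc]
    rw [not_or] at hc
    rw [h1 c hc.1 hc.2, mul_sum]

end main

end INJM

open INJM TRAM in
/-- Module INJ. -/
theorem specINJ (hPOL : SpecPOL) (hTRA : SpecTRA) (hI3K : SpecI3K) (hDIR : SpecDIR)
    (hS3F : SpecS3F) (hLPE : SpecLPE) (hVRW : SpecVRW) : SpecINJ := by
  intro α _ _ G a b hab hK3 hS3 hKZ q μ hq hμ hP
  classical
  obtain ⟨s, hs⟩ := step1 hPOL hS3F hLPE hab hK3 hS3 hKZ hq hμ hP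
  obtain ⟨Q0, hQ0, hQ0'⟩ := step2 hVRW hab
  obtain ⟨κ, hκ⟩ := step3 hVRW hab hμ hs hQ0'
  refine ⟨s, hs, ?_⟩
  -- the function `q₁`
  set q1 : Chain α → ZMod 2 := fun c => q c +
    ((∑ w, if w = a ∨ w = b then 0 else s w * (Q0 w c + c s(w, b))) + ∑ e, κ e * c e) with hq1
  have hq1d : DegLE 2 q1 := by
    refine hPOL.add hq (hPOL.add (hPOL.sum _ _ fun w _ => ?_) (hPOL.sum _ _ fun e _ => ?_))
    · by_cases hw : w = a ∨ w = b
      · simp only [if_pos hw]
        exact hPOL.zero 2
      · simp only [if_neg hw]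
        exact hPOL.mul (hPOL.const 0 (s w)) (hPOL.add (hTRA.degP (hQ0 w)).1
          (hPOL.mono (by norm_num) (coordDeg hPOL s(w, b))))
    · exact hPOL.mono (by norm_num) (hPOL.mul (hPOL.const 0 (κ e)) (coordDeg hPOL e))
  have hq1z : ∀ P, IsPth (delE G a b) a b P → q1 (chi P) = 0 := by
    intro P hPp
    rw [hq1]
    beta_reduce
    rw [← hκ P hPp]
    exact hP P hPp
  obtain ⟨r, hr, hr1⟩ := hI3K G hK3 (fun c : Chain α => c s(a, b) * q1 (c + chi {s(a, b)}))
    (cub hPOL hq1d) (by simp) (by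
      intro C hC
      rw [cub_cyc]
      split_ifs with h
      · exact hq1z _ (cpth hC h)
      · rfl)
  choose r' hr' hr2 using fun v => hTRA.res {s(a, b)} (hr v)
  have hr3 : ∀ v, r' v ∈ RV (delE G a b) v := fun v => by
    have := hr' v
    rw [star_delE] at this
    exact this
  have hr4 : ∀ v (c : Chain α), c s(a, b) = 0 → r v c = r' v c := by
    intro v c hc
    refine hr2 v c ?_
    rintro e ⟨_, he⟩
    rw [Set.mem_singleton_iff] at he
    rw [he, hc]
  have hJ0 : ∀ c : Chain α, (∀ e, c e ≠ 0 → e ∈ (delE G a b).edgeSet) → c s(a, b) = 0 := by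
    intro c hc
    by_contra h
    exact (edge_delE.1 (hc _ h)).2 rfl
  have hdir := hDIR (delE G a b) (hS3F.dhE a b hK3) r' hr3 (by
    intro c hc
    have h0 := hJ0 c hc.1
    have h1 : c ∈ Z1 G := ⟨fun e he => (edge_delE.1 (hc.1 e he)).1, hc.2⟩
    have h2 := hr1 c h1
    beta_reduce at h2
    rw [h0, zero_mul] at h2
    rw [h2]
    exact sum_congr rfl fun v _ => (hr4 v c h0).symm)
  have hK2 : KConn 2 G := ⟨by have := hK3.1; omega, fun S hS => hK3.2 S (by omega)⟩
  have hvs := hS3F.vsE a b hK2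
  -- the ends
  have hend : ∀ u, u = a ∨ u = b → ∃ ρ ∈ PR (star (delE G a b) u), ∀ c : Chain α,
      (∀ e, c e ≠ 0 → e ∈ (delE G a b).edgeSet) → bdy c u = 1 →
        r u (c + chi {s(a, b)}) = ρ c := by
    intro u hu
    have huV : u ∈ VS (delE G a b) := by
      rw [hvs]; simp only [VS, mem_filter, mem_univ, true_and]
      rcases hu with rfl | rfl
      · exact ⟨b, hab⟩
      · exact ⟨a, hab.symm⟩
    simp only [VS, mem_filter, mem_univ, true_and] at huV
    obtain ⟨x, hx0⟩ := huV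
    have hx : (delE G a b).Adj u x := hx0
    have hk : s(u, x) ∈ star (delE G a b) u := ⟨hx, by simp⟩
    obtain ⟨r0, hr0, ρ0, hρ0, h0⟩ := split_ins (A := star (delE G a b) u) (e := s(a, b)) (by
      intro e he hne
      exact ⟨edge_delE.2 ⟨he.1, hne⟩, he.2⟩) (hr u)
    refine ⟨_, (PR (star (delE G a b) u)).add_mem (dif (k := s(u, x)) hr0) hρ0, ?_⟩
    intro c hc hb
    have hc0 := hJ0 c hc
    rw [h0, add_chi_self, hc0, zero_add, one_mul, Pi.add_apply]
    have hloc : ∀ e ∈ star (delE G a b) u, (c + chi {s(a, b)}) e = c e := by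
      intro e he
      exact add_chi_ne c (edge_delE.1 he.1).2
    rw [hTRA.loc hr0 _ c hloc, locP hρ0 _ c hloc]
    have hsup : ∀ e, (c + chi {s(u, x)}) e ≠ 0 → e ∈ (delE G a b).edgeSet := by
      intro e he
      by_cases h : e = s(u, x)
      · rw [h]; exact hx
      · rw [add_chi_ne c h] at he
        exact hc e he
    have h5 : r0 (c + chi {s(u, x)}) = 0 := by
      have e1 := h0 (c + chi {s(u, x)})
      rw [hJ0 _ hsup, zero_mul, add_zero] at e1
      rw [← e1, hr4 u _ (hJ0 _ hsup)]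
      refine hdir u _ hsup ?_
      rw [bdy_add, hb, bdy_chi_edge u hx.ne]
      simp [hx.ne]
      decide
    rw [h5, add_zero]
  obtain ⟨ρ, hρ, hρ1⟩ := hend a (Or.inl rfl)
  obtain ⟨ρ', hρ', hρ1'⟩ := hend b (Or.inr rfl)
  refine ⟨fun w => if w = a ∨ w = b then 0 else Q0 w,
    fun e => κ e + ∑ w, (if w = a ∨ w = b then 0 else if e = s(w, b) then s w else 0), ρ, ρ',
    ?_, ?_, hρ, hρ', ?_⟩
  · intro w
    by_cases hw : w = a ∨ w = b
    · simp only [if_pos hw]
      exact (PR _).zero_mem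
    · simp only [if_neg hw]
      exact hQ0 w
  · intro w P hPp hwa hwb
    have hw : ¬ (w = a ∨ w = b) := by simp [hwa, hwb]
    simp only [if_neg hw]
    exact hQ0' w P hPp hwa hwb
  · intro c hc hb
    have hc0 := hJ0 c hc
    -- the closed chain
    have hZ : c + chi {s(a, b)} ∈ Z1 G := by
      refine ⟨fun e he => ?_, fun v => ?_⟩
      · by_cases h : e = s(a, b)
        · rw [h]; exact hab
        · rw [add_chi_ne c h] at he
          exact (edge_delE.1 (hc e he)).1
      · rw [bdy_add, hb, bdy_chi_edge v hab.ne]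
        by_cases h1 : v = a
        · subst h1; simp [hab.ne]; decide
        · by_cases h2 : v = b
          · subst h2; simp [h1]; decide
          · simp [h1, h2]
    have h1 := hr1 _ hZ
    beta_reduce at h1
    rw [add_chi_self, hc0, zero_add, one_mul, add_assoc, chain_add_self, add_zero,
      sum_two _ hab.ne, hρ1 c hc (by rw [hb]; simp), hρ1' c hc (by rw [hb]; simp)] at h1
    have h2 : (∑ x, if x = a ∨ x = b then 0 else r x (c + chi {s(a, b)})) = 0 := by
      refine sum_eq_zero fun v _ => ?_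
      split_ifs with hv
      · rfl
      · rw [not_or] at hv
        have : r v (c + chi {s(a, b)}) = r v c := by
          refine hTRA.loc (hr v) _ _ fun e he => add_chi_ne c ?_
          rintro rfl
          have := he.2
          rw [Sym2.mem_iff] at this
          exact this.elim hv.1 hv.2
        rw [this, hr4 v c hc0]
        refine hdir v c hc ?_
        rw [hb]; simp [hv.1, hv.2]
    rw [h2, zero_add, hq1] at h1
    beta_reduce at h1
    have h3 : ∑ e, (κ e + ∑ w, (if w = a ∨ w = b then 0 else if e = s(w, b) then s w else 0)) * c e =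
        ∑ e, κ e * c e + ∑ w, (if w = a ∨ w = b then 0 else s w * c s(w, b)) := by
      simp only [add_mul, sum_add_distrib, sum_mul]
      congr 1
      rw [sum_comm]
      refine sum_congr rfl fun w _ => ?_
      by_cases hw : w = a ∨ w = b
      · simp [hw]
      · simp only [if_neg hw, ite_mul, zero_mul, sum_ite_eq', mem_univ, if_true]
    have h4 : (∑ w, if w = a ∨ w = b then 0 else s w * (Q0 w c + c s(w, b))) =
        (∑ w, s w * (if w = a ∨ w = b then 0 else Q0 w) c) +
          ∑ w, (if w = a ∨ w = b then 0 else s w * c s(w, b)) := by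
      rw [← sum_add_distrib]
      refine sum_congr rfl fun w _ => ?_
      by_cases hw : w = a ∨ w = b
      · simp [hw]
      · simp only [if_neg hw]; ring
    rw [h3]
    rw [h4] at h1
    revert h1
    generalize (∑ w, s w * (if w = a ∨ w = b then 0 else Q0 w) c) = X1
    generalize (∑ w, (if w = a ∨ w = b then 0 else s w * c s(w, b))) = X2
    generalize (∑ e, κ e * c e) = X3
    generalize q c = X4
    generalize ρ c = X5
    generalize ρ' c = X6
    revert X1 X2 X3 X4 X5 X6
    decide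

end DL
end
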