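import Pool.Agent.DL.EX.Defs
import Pool.Agent.DL.PC2
import Pool.Agent.DL.MENG
import Pool.Agent.DL.KC

/-!
# MP_3ff0f8_gt, ALGEBRA HALF, EX/K block (helper16): the modules

Module `XXX` = file `DL/EX/XXX.lean`, theorem `specXXX (hYYY : SpecYYY) … : SpecXXX`; the hypotheses may be
any other Specs named in the docstring; own lemmas in the namespace `DL.XXXM`.  Base library: `DL/PC.lean`,
`DL/PC2.lean`, `DL/MENG.lean` (Menger), `DL/KC.lean` (connectivity) of helper59, imported here: read their headers first.  Texts: /team-store/MP_3ff0f8_gt_{EX_h97,K_h97,ME_h92,PSR_h97}.md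
(the docstrings here are self-contained).  Even trace on `A`: `Σ_{e ∈ A} c e = 0`.
-/

open SimpleGraph Finset

namespace DL

/-! ## A. Polynomial functions -/

/-- **POL** (200 lines).  Functions of bounded degree.  `mul`: `Δ_v(fg)(a) = Δ_vf(a) g(a+v) + f(a) Δ_vg(a)`,
induction on `d + e`.  `lin`: `DegLE 1 f`: `Δ_v f` is constant.  `two`/`three`: values of functions of degree `≤ 2`,
`≤ 3` (third/fourth differences vanish).  `exp`: Möbius inversion: without the condition `T.card ≤ d` the identity holds for every `f`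
(a pair `T' ⊆ S` is counted `2^{|S - T'|}` times), and the inner sum of `T` is an iterated difference of order `|T|` at `0`,
it vanishes if `|T| > d`. -/
structure SpecPOL : Prop where
  zero : ∀ {A : Type} [AddCommGroup A] (d : ℕ), DegLE d (fun _ : A => (0 : ZMod 2))
  const : ∀ {A : Type} [AddCommGroup A] (d : ℕ) (x : ZMod 2), DegLE d (fun _ : A => x)
  mono : ∀ {A : Type} [AddCommGroup A] {d e : ℕ} {f : A → ZMod 2}, d ≤ e → DegLE d f → DegLE e f
  add : ∀ {A : Type} [AddCommGroup A] {d : ℕ} {f g : A → ZMod 2}, DegLE d f → DegLE d g →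
    DegLE d (fun a => f a + g a)
  sum : ∀ {A ι : Type} [AddCommGroup A] {d : ℕ} (s : Finset ι) (f : ι → A → ZMod 2),
    (∀ i ∈ s, DegLE d (f i)) → DegLE d (fun a => ∑ i ∈ s, f i a)
  mul : ∀ {A : Type} [AddCommGroup A] {d e : ℕ} {f g : A → ZMod 2}, DegLE d f → DegLE e g →
    DegLE (d + e) (fun a => f a * g a)
  comp : ∀ {A B : Type} [AddCommGroup A] [AddCommGroup B] {d : ℕ} {f : B → ZMod 2} (L : A →+ B),
    DegLE d f → DegLE d (fun a => f (L a))
  shift : ∀ {A : Type} [AddCommGroup A] {d : ℕ} {f : A → ZMod 2} (v : A), DegLE d f →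
    DegLE d (fun a => f (a + v))
  dif : ∀ {A : Type} [AddCommGroup A] {d : ℕ} {f : A → ZMod 2} (v : A), DegLE (d + 1) f →
    DegLE d (fun a => f (a + v) + f a)
  ofAdd : ∀ {A : Type} [AddCommGroup A] {f : A → ZMod 2}, (∀ a b, f (a + b) = f a + f b) → DegLE 1 f
  lin : ∀ {A : Type} [AddCommGroup A] {f : A → ZMod 2}, DegLE 1 f → f 0 = 0 →
    ∀ a b, f (a + b) = f a + f b
  two : ∀ {A : Type} [AddCommGroup A] {f : A → ZMod 2}, DegLE 2 f → ∀ a u v w : A,
    f a + f (a + u) + f (a + v) + f (a + w) + f (a + u + v) + f (a + u + w) + f (a + v + w) +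
      f (a + u + v + w) = 0
  three : ∀ {A : Type} [AddCommGroup A] {f : A → ZMod 2}, DegLE 3 f → ∀ a u v w x : A,
    f a + f (a + u) + f (a + v) + f (a + w) + f (a + u + v) + f (a + u + w) + f (a + v + w) +
      f (a + u + v + w) + (f (a + x) + f (a + u + x) + f (a + v + x) + f (a + w + x) +
      f (a + u + v + x) + f (a + u + w + x) + f (a + v + w + x) + f (a + u + v + w + x)) = 0
  exp : ∀ {A ι : Type} [AddCommGroup A] [DecidableEq ι] {d : ℕ} {f : A → ZMod 2} (v : ι → A)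
    (S : Finset ι), DegLE d f → f (∑ i ∈ S, v i) =
      ∑ T ∈ S.powerset.filter (fun T => T.card ≤ d), ∑ T' ∈ T.powerset, f (∑ i ∈ T', v i)

/-- **DVS** (from POL; 80 lines).  Division.  Induction on `S`.  `S = ∅`: `p = 0` on `V`, `q = 0`.  `S = insert e S'`:
the hypothesis of induction for `V ⊓ {c e = 0}` and `S'` gives `p = Σ_{S'} c f q_f` there; `p' = p + Σ_{S'} c f q_f`
has degree `≤ d + 1` and vanishes on `{c ∈ V, c e = 0}`.  If `c e = 0` on `V` put `q_e = 0`; otherwise take `t ∈ V` with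
`t e = 1` and `q_e c = p' (c + t) + p' c`: for `c ∈ V` with `c e = 1` we have `p' (c + t) = 0`. -/
def SpecDVS : Prop := ∀ {α : Type} [Fintype α] [DecidableEq α] (V : Submodule (ZMod 2) (Chain α))
  (S : Finset (Sym2 α)) (d : ℕ) (p : Chain α → ZMod 2), DegLE (d + 1) p →
  (∀ c ∈ V, (∀ e ∈ S, c e = 0) → p c = 0) →
  ∃ q : Sym2 α → Chain α → ZMod 2, (∀ e, DegLE d (q e)) ∧ ∀ c ∈ V, p c = ∑ e ∈ S, c e * q e c

/-- **TRA** (from POL; 220 lines).  The spaces `TR A` (products of three different coordinates in `A`).  Everything by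
`Submodule.span_induction`.  `two`: a product of three different coordinates vanishes if at most two coordinates of `c`
in `A` are nonzero (the support lies in `{x, y}`).  `three`: if `A` has at most three elements on the support and the
trace is even then not all three are `1`.  `res`: drop the products containing `e`.  `map`: relabelling of coordinates
by `φ`, injective on `A` (for `c` with `c' (φ e) = c e`).  `four` (an element of `TR A` which vanishes on the
4-subsets vanishes on all even traces): let `c` have even trace.  Choose `k ∈ A` (if `A` is empty trivial); on even traces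
`x_e x_f x_k = Σ_{h ∈ A, h ≠ e, f, k} x_e x_f x_h` (as `x_k = Σ_{h ≠ k} x_h` and `x_e x_f (x_e + x_f) = 0`), so
`r = Σ κ_{efg} x_e x_f x_g` over the 3-subsets of `A - k` on even traces, and `κ_{efg} = r (chi {e,f,g,k}) = 0`.
`glue`: `r₁, r₂ ∈ TR A` agree on the even traces which avoid `x` and `y`.  Let `τ_y c := c + c y • (δ_y + δ_k)`, `τ_x` the same
with `x`; then `r c := r₁ (τ_y c) + r₂ (τ_x c) + r₁ (τ_x (τ_y c))` is in `TR A` as a function of `c` (the substitution `c k ↦ c k +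
c y`, `c y ↦ 0` maps products to sums of products of different coordinates: `c e c f c k ↦ c e c f c k + c e c f c y`).  If `c y =
0` then `τ_y c = c` and `r₂ (τ_x c) = r₁ (τ_x c)`, so `r c = r₁ c`; if `c x = 0` then `τ_x` does nothing and `r c = r₂ c`. -/
structure SpecTRA : Prop where
  deg : ∀ {α : Type} [Fintype α] [DecidableEq α] {A : Set (Sym2 α)} {r : Chain α → ZMod 2}, r ∈ TR A →
    DegLE 3 r ∧ r 0 = 0
  degP : ∀ {α : Type} [Fintype α] [DecidableEq α] {A : Set (Sym2 α)} {r : Chain α → ZMod 2}, r ∈ PR A →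
    DegLE 2 r ∧ r 0 = 0
  mono : ∀ {α : Type} [Fintype α] [DecidableEq α] {A B : Set (Sym2 α)}, A ⊆ B → TR A ≤ TR B
  loc : ∀ {α : Type} [Fintype α] [DecidableEq α] {A : Set (Sym2 α)} {r : Chain α → ZMod 2}, r ∈ TR A →
    ∀ c c' : Chain α, (∀ e ∈ A, c e = c' e) → r c = r c'
  two : ∀ {α : Type} [Fintype α] [DecidableEq α] {A : Set (Sym2 α)} {r : Chain α → ZMod 2}, r ∈ TR A →
    ∀ (c : Chain α) (x y : Sym2 α), (∀ e ∈ A, c e ≠ 0 → e = x ∨ e = y) → r c = 0
  three : ∀ {α : Type} [Fintype α] [DecidableEq α] {A : Set (Sym2 α)} {r : Chain α → ZMod 2}, r ∈ TR A →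
    ∀ (c : Chain α) (x y z : Sym2 α), (∀ e ∈ A, c e ≠ 0 → e = x ∨ e = y ∨ e = z) →
      c x * c y * c z = 0 → r c = 0
  res : ∀ {α : Type} [Fintype α] [DecidableEq α] {A : Set (Sym2 α)} {r : Chain α → ZMod 2} (B : Set (Sym2 α)),
    r ∈ TR A → ∃ r' ∈ TR (A \ B), ∀ c : Chain α, (∀ e ∈ A ∩ B, c e = 0) → r c = r' c
  map : ∀ {α : Type} [Fintype α] [DecidableEq α] {A B : Set (Sym2 α)} {r : Chain α → ZMod 2}
    (φ : Sym2 α → Sym2 α), Set.InjOn φ A → (∀ e ∈ A, φ e ∈ B) → r ∈ TR A →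
    ∃ r' ∈ TR B, ∀ c c' : Chain α, (∀ e ∈ A, c e = c' (φ e)) → r c = r' c'
  four : ∀ {α : Type} [Fintype α] [DecidableEq α] (A : Finset (Sym2 α)) {r : Chain α → ZMod 2},
    r ∈ TR (A : Set (Sym2 α)) → (∀ F ⊆ A, F.card = 4 → r (chi F) = 0) →
    ∀ c : Chain α, ∑ e ∈ A, c e = 0 → r c = 0
  glue : ∀ {α : Type} [Fintype α] [DecidableEq α] (A : Finset (Sym2 α)) {r₁ r₂ : Chain α → ZMod 2}
    (x y k : Sym2 α), x ∈ A → y ∈ A → k ∈ A → x ≠ y → x ≠ k → y ≠ k →
    r₁ ∈ TR (A : Set (Sym2 α)) → r₂ ∈ TR (A : Set (Sym2 α)) →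
    (∀ c : Chain α, ∑ e ∈ A, c e = 0 → c x = 0 → c y = 0 → r₁ c = r₂ c) →
    ∃ r ∈ TR (A : Set (Sym2 α)), ∀ c : Chain α, ∑ e ∈ A, c e = 0 →
      (c y = 0 → r c = r₁ c) ∧ (c x = 0 → r c = r₂ c)

/-- **TRX** (from POL, TRA; 220 lines).  Existence.  Let `P` have degree `≤ 3` on chains.  Fix `k ∈ A` (`A = ∅`: trivial).
A chain `c` supported on `A` with even trace is `Σ_{h ∈ A - k} c h • (δ_h + δ_k)`; so `P c` is the multilinear polynomial
`Σ_T κ_T Π_{h ∈ T} c h` over the subsets `T` of `A - k` with at most 3 elements, `κ_T = Σ_{T' ⊆ T} P (chi of T', with k added if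
|T'| is odd)`.  `ex`: all even subsets with at most 2 elements have value `0`, so only 3-sets `T` remain,
`κ_T = P (chi (T ∪ {k}))`.  `split`: take `k = g₀ ∈ B` (if `B = ∅` or `A = ∅` this is `ex`).  For `T` with two elements in
`A` and one in `B`: `κ_T = 0`.  For `T = {f, g, g'}`, `f ∈ A`: the value `0` on `{f, f', g, g'}` gives `κ_{f g g'} = κ_{f' g g'} =:
κ_{g g'}`, and `Σ_{f ∈ A} x_f x_g x_g' = x_g x_g' (Σ_{h ∈ B} x_h) = Σ_{h ∈ B, h ≠ g, g'} x_g x_g' x_h` on even traces. -/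
structure SpecTRX : Prop where
  ex : ∀ {α : Type} [Fintype α] [DecidableEq α] (A : Finset (Sym2 α)) (P : Chain α → ZMod 2), DegLE 3 P →
    (∀ F ⊆ A, F.card = 0 ∨ F.card = 2 → P (chi F) = 0) →
    ∃ r ∈ TR (A : Set (Sym2 α)), ∀ c : Chain α, (∀ e, c e ≠ 0 → e ∈ A) → ∑ e ∈ A, c e = 0 → P c = r c
  split : ∀ {α : Type} [Fintype α] [DecidableEq α] (A B : Finset (Sym2 α)), Disjoint A B →
    ∀ P : Chain α → ZMod 2, DegLE 3 P → (∀ F ⊆ A ∪ B, F.card = 0 ∨ F.card = 2 → P (chi F) = 0) →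
    (∀ F ⊆ A ∪ B, (F ∩ A).card = 2 → (F ∩ B).card = 2 → P (chi F) = 0) →
    ∃ r ∈ TR (A : Set (Sym2 α)), ∃ r' ∈ TR (B : Set (Sym2 α)), ∀ c : Chain α,
      (∀ e, c e ≠ 0 → e ∈ A ∪ B) → ∑ e ∈ A ∪ B, c e = 0 → P c = r c + r' c

/-! ## B. Connectivity, directness -/

/-- **S3F** (most of it is in KC.lean; 120 lines).  Elementary connectivity.  `k3`: `KConn 3 G → S3S G` (a vertex with at most two neighbours would
be cut off by them, there are at least 4 vertices).  `dh`, `dhE`: `G - v` is 2-connected, so it stays connected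
without one edge; `G - v - z` is connected, without one edge it has at most 2 components.  `deg`: every vertex of a
`KConn k` graph has at least `k` neighbours (otherwise its neighbours cut it off).  `del`: deleting a vertex.
`vsE`: the vertex set does not change when an edge is deleted and all degrees are `≥ 2`. -/
structure SpecS3F : Prop where
  k3 : ∀ {α : Type} [Fintype α] [DecidableEq α] {G : SimpleGraph α}, KConn 3 G → S3S G
  dh : ∀ {α : Type} [Fintype α] [DecidableEq α] {G : SimpleGraph α}, KConn 3 G → DH G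
  dhE : ∀ {α : Type} [Fintype α] [DecidableEq α] {G : SimpleGraph α} (a b : α), KConn 3 G →
    DH (delE G a b)
  deg : ∀ {α : Type} [Fintype α] [DecidableEq α] {G : SimpleGraph α} {k : ℕ}, KConn k G →
    ∀ v ∈ VS G, ∀ N : Finset α, (∀ w, G.Adj v w → w ∈ N) → k ≤ N.card
  del : ∀ {α : Type} [Fintype α] [DecidableEq α] {G : SimpleGraph α} {k : ℕ} (v : α), 1 ≤ k →
    KConn (k + 1) G → KConn k (del G {v}) ∧ VS (del G {v}) = (VS G).erase v
  vsE : ∀ {α : Type} [Fintype α] [DecidableEq α] {G : SimpleGraph α} (a b : α), KConn 2 G →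
    VS (delE G a b) = VS G

/-- **LTR** (280 lines).  LEMMA T.  `U` a vertex set, all its elements connected in `H`, and for every `z` among three
elements of `U - z` two are connected in `H - z`; `t₁, …, t₄ ∈ U` different.  Then there is a set `T` of edges which
connects the `t_i`, with at most 3 edges at every vertex and at most 2 at the `t_i`.
Proof.  Call SPIDER a vertex `z` with paths `L_i` from `z` to `t_i` (`i = 1..4`), pairwise meeting only in `z` (`L_i = ∅` if `z =
t_i`).  (1) There is a good `T` or a spider.  Take a path `P` from `t₁` to `t₂`.  If `t₃ ∈ P` let `z = t₃`, otherwise a path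
from `t₃` to its first vertex `z` on `P`: a tripod: three legs from `z` to `t₁, t₂, t₃`.  If `t₄` is on the tripod and `≠ z`,
`T` = tripod is good (`z` has degree 3, or 2 if `z = t_i`; an inner vertex of a leg has degree 2, `t_i ≠ z` has
degree 1).  If `t₄ = z` this is a spider.  Otherwise take a path from `t₄` to its first vertex `z'` on the tripod.  If `z' ≠ z`
the union is good (`z'` inner vertex of a leg: degree 3, not a `t_i`; `z' = t_i`: degree 2).  If `z' = z`: a spider.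
(2) A spider gives a good `T`.  At least three legs are nontrivial; let `y_i` be the neighbour of `z` on leg `i`; two of them are
connected in `H - z` (`y_i ∈ U` is not needed: the ends `t_i ∈ U` of the legs are connected to the `y_i` in `H - z`, so
apply the hypothesis to three `t_i ≠ z`).  So there is a path in `H - z` from a vertex of some leg `L_i - z` to a
vertex of another one; take the last vertex `u` on the first leg and then the first vertex `u'` on another leg `L_j`: a path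
`R` from `u ∈ L_i - z` to `u' ∈ L_j - z` whose inner vertices are on no leg.  `T` := all the legs except `L_i`, and `R`, and the part
of `L_i` from `u` to `t_i`.  Degrees: `z`: number of nontrivial legs minus 1 (`≤ 3`, and `≤ 2` if `z = t_k`); `u`: `≤ 2`; `u'`: 3 if it
is an inner vertex of `L_j` (then it is no `t_k`), 2 if `u' = t_j`.  All other degrees `≤ 2`. -/
def SpecLTR : Prop := ∀ {α : Type} [Fintype α] [DecidableEq α] (H : SimpleGraph α) (U : Finset α)
  (t : Fin 4 → α), Function.Injective t → (∀ i, t i ∈ U) → (∀ x ∈ U, ∀ y ∈ U, H.Reachable x y) →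
  (∀ z, ∀ x ∈ U, ∀ y ∈ U, ∀ w ∈ U, x ≠ z → y ≠ z → w ≠ z →
    (del H {z}).Reachable x y ∨ (del H {z}).Reachable x w ∨ (del H {z}).Reachable y w) →
  ∃ T : Finset (Sym2 α), (∀ e ∈ T, e ∈ H.edgeSet) ∧ (∀ i j, Rch T (t i) (t j)) ∧
    (∀ w, (T.filter fun e => w ∈ e).card ≤ 3) ∧ ∀ i, (T.filter fun e => t i ∈ e).card ≤ 2

/-- **DIR** (from LTR, TRA; 120 lines).  DIRECTNESS.  Fix `v`.  By `TRA.four` (with `A` = the edges at `v`) it is enough to show
`r v (chi F) = 0` for `F = {v t₁, …, v t₄}`, four different edges at `v`.  LTR for `H = del G {v}`, `U = VS G - v`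
(`del (del G {v}) {z} = del G {v, z}`) gives `T`.  Take paths of `T` from `t₁` to `t₂` and from `t₃` to `t₄`; `c := chi P₁₂ +
chi P₃₄ + chi F ∈ Z1 G` (boundary `0`; `P`'s avoid `v`).  At a vertex `w ≠ v` the support of `c` is contained in at most three
edges (`T`-edges at `w`, and `v t_i` if `w = t_i`) and has even size, so `r w c = 0` (`TRA.two`, `.three`).  Hence `r v c = 0`
and `r v c = r v (chi F)`. -/
def SpecDIR : Prop := ∀ {α : Type} [Fintype α] [DecidableEq α] (G : SimpleGraph α), DH G →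
  ∀ r : α → Chain α → ZMod 2, (∀ v, r v ∈ RV G v) → (∀ c ∈ Z1 G, ∑ v, r v c = 0) →
  ∀ v c, (∀ e, c e ≠ 0 → e ∈ G.edgeSet) → bdy c v = 0 → r v c = 0

/-- **THO** (helper92, proved as exists_con3).  Thomassen's lemma. -/
def SpecTHO : Prop := ∀ {α : Type} [Fintype α] [DecidableEq α] (G : SimpleGraph α), KConn 3 G →
  5 ≤ (VS G).card → ∃ a b, G.Adj a b ∧ KConn 3 (contr G a b)

/-! ## C. Contraction -/

/-- **CTA** (250 lines).  Chains and cycles of `H = contr G a b`.  First group: `a`, `b` have no common neighbour (every edge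
of `H` comes from exactly one edge of `G`; no edge of `H` contains `b`).  `lz`, `pz`: boundaries at the vertices `≠ a, b` are the same
sums; the boundary of `lft c` at `b` is the sum over all `H`-edges at `a`.  `lp`, `pl`: the value on `ab` is determined by the
boundary at `a`.  `cl`: a cycle of `H` avoiding `a` is a cycle of `G`; if it passes `a` through `ai`, `aj` (path `P` from `i` to `j` in
`H - a = G - a - b`) the lift is `i a j + P`, `i b j + P` or `i a b j + P` according to whether `i`, `j` are adjacent to `a` or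
`b` in `G` (`PC`: isCyc_of_isPth_del etc.).  `cp`: conversely; a cycle in `CycM` which passes through `ab` is `j b a i + P` and `i ≠ j`
as there is no common neighbour. -/
structure SpecCTA : Prop where
  lin : ∀ {α : Type} [Fintype α] [DecidableEq α] (G : SimpleGraph α) (a b : α) (c d : Chain α),
    lft G a b (c + d) = lft G a b c + lft G a b d ∧ prj a b (c + d) = prj a b c + prj a b d
  lz : ∀ {α : Type} [Fintype α] [DecidableEq α] {G : SimpleGraph α} {a b : α}, G.Adj a b →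
    NoCN G a b → ∀ c ∈ Z1 (contr G a b), lft G a b c ∈ Z1 G
  pz : ∀ {α : Type} [Fintype α] [DecidableEq α] {G : SimpleGraph α} {a b : α}, G.Adj a b →
    ∀ c ∈ Z1 G, prj a b c ∈ Z1 (contr G a b)
  pl : ∀ {α : Type} [Fintype α] [DecidableEq α] {G : SimpleGraph α} {a b : α}, G.Adj a b →
    NoCN G a b → ∀ c ∈ Z1 (contr G a b), prj a b (lft G a b c) = c
  lp : ∀ {α : Type} [Fintype α] [DecidableEq α] {G : SimpleGraph α} {a b : α}, G.Adj a b →
    NoCN G a b → ∀ c ∈ Z1 G, lft G a b (prj a b c) = c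
  cl : ∀ {α : Type} [Fintype α] [DecidableEq α] {G : SimpleGraph α} {a b : α}, G.Adj a b →
    NoCN G a b → ∀ D, IsCyc (contr G a b) D → ∃ C, CycM G a b C ∧ chi C = lft G a b (chi D)
  cp : ∀ {α : Type} [Fintype α] [DecidableEq α] {G : SimpleGraph α} {a b : α}, G.Adj a b →
    NoCN G a b → ∀ C, CycM G a b C → ∃ D, IsCyc (contr G a b) D ∧ chi C = lft G a b (chi D) ∧
      chi D = prj a b (chi C)
  dl : ∀ {α : Type} [Fintype α] [DecidableEq α] {G : SimpleGraph α} {a b : α}, G.Adj a b →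
    del (contr G a b) {a} = del G {a, b}

/-- **CTB** (200 lines).  Coherence functions of corresponding cycles (`C` in `G`, `D` in `H = contr G a b`, no common
neighbour): for edges `st`, `uv ≠ ab` of `G`.  Both sides are `0` if `st ∉ C` or `uv ∉ C`.  Otherwise reachability: `C - {st, uv}`
is mapped by merging `b` to `a` onto `D - {s't', u'v'}`, possibly with `ab` shrunk, so `Rch (C \ …) t u → Rch (D \ …) t' u'`.
Conversely a path in `D - {s't', u'v'}` from `t'` to `u'` lifts (edges of `D` lift uniquely; where it passes `a` it can be connected: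
if `C` contains `ab`, or `C` contains only one of `a`, `b`), and if `t ≠ t'`, i.e. `t = b`, `t' = a`: `C` contains `b`, and either `ab ∈ C` or
`a ∉ C`; in the second case the lift starts at `b`. -/
def SpecCTB : Prop := ∀ {α : Type} [Fintype α] [DecidableEq α] {G : SimpleGraph α} {a b : α}, G.Adj a b →
  NoCN G a b → ∀ C D, CycM G a b C → IsCyc (contr G a b) D → chi C = lft G a b (chi D) →
  ∀ s t u v, G.Adj s t → G.Adj u v → s(s, t) ≠ s(a, b) → s(u, v) ≠ s(a, b) →
    coh s t u v C = coh (mrg a b s) (mrg a b t) (mrg a b u) (mrg a b v) D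

/-- **CTZ** (200 lines).  Two-cycles.  `up`: `z e f := w (m e) (m f)` for edges `e, f ≠ ab` of `G` (`m = Sym2.map (mrg a b)`;
this is `0` if `m e`, `m f` have a common vertex), `z (ab) f = z f (ab) := Σ_{x ~ a, x ≠ b} w (ax) (m f)` for `f` disjoint from
`a`, `b`, `0` otherwise.  Row `f ≠ ab`: boundary at `v ≠ a, b` the same sum, at `a` by definition of `z (ab) f` (if `a ∉ f`), at `b`
because the `H`-row has boundary `0` at `a`.  If `a ∈ f`, `b ∉ f`: at `v = b` all `z f g` with `g ∋ b` vanish (also `g = ab`,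
not disjoint).  Row `ab`: sum of the rows `m (ax)`.  `down`: for `z` as in the hypothesis
`w e f := z (lift e) (lift f)` where the lift of an edge of `H` is the unique edge `≠ ab` of `G` mapped to it. -/
structure SpecCTZ : Prop where
  up : ∀ {α : Type} [Fintype α] [DecidableEq α] {G : SimpleGraph α} {a b : α}, G.Adj a b → NoCN G a b →
    ∀ w, IsZ2 (contr G a b) w → ∃ z, IsZ2 G z ∧ ∀ e ∈ G.edgeSet, ∀ f ∈ G.edgeSet, e ≠ s(a, b) →
      f ≠ s(a, b) → z e f = w (e.map (mrg a b)) (f.map (mrg a b))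
  down : ∀ {α : Type} [Fintype α] [DecidableEq α] {G : SimpleGraph α} {a b : α}, G.Adj a b → NoCN G a b →
    ∀ z, IsZ2 G z → (∀ e f, a ∈ e → b ∈ f → e ≠ s(a, b) → f ≠ s(a, b) → z e f = 0) →
    ∃ w, IsZ2 (contr G a b) w ∧ ∀ e ∈ G.edgeSet, ∀ f ∈ G.edgeSet, e ≠ s(a, b) →
      f ≠ s(a, b) → z e f = w (e.map (mrg a b)) (f.map (mrg a b))

/-- **TRE** (220 lines).  Trees.  `TreeOn T X` below.  `tp`: the chosen path of an acyclic graph; unique.  `grow`, `glue`: acyclic
because a cycle of `T ⊔ T'` passing both would pass the only common vertex twice (or: `Z1 (T ⊔ T') = Z1 T ⊔ Z1 T'`, a chain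
of `T ⊔ T'` splits into its `T` and `T'` parts, whose boundaries vanish at all vertices `≠ v`, hence at `v`; and acyclic iff `Z1 =
⊥`).  `pth`: the tree of a path.  `four`: the sum of the four tree paths is `0` (both sides have boundary zero and lie in `T`;
`Z1 T = ⊥`). -/
structure TreeOn {α : Type} (T : SimpleGraph α) (X : Finset α) : Prop where
  inX : ∀ v w, T.Adj v w → v ∈ X
  conn : ∀ v ∈ X, ∀ w ∈ X, T.Reachable v w
  acyc : T.IsAcyclic

/-- see TRE -/
structure SpecTRE : Prop where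
  z1 : ∀ {α : Type} [Fintype α] [DecidableEq α] (T : SimpleGraph α), T.IsAcyclic ↔ ∀ c ∈ Z1 T, c = 0
  tp : ∀ {α : Type} [Fintype α] [DecidableEq α] {T : SimpleGraph α} {X : Finset α}, TreeOn T X →
    ∀ v ∈ X, ∀ w ∈ X, IsPth T v w (tp T v w) ∧ ∀ P, IsPth T v w P → P = tp T v w
  tpc : ∀ {α : Type} [Fintype α] [DecidableEq α] {T : SimpleGraph α} {X : Finset α}, TreeOn T X →
    ∀ v ∈ X, ∀ w ∈ X, ∀ c : Chain α, (∀ e, c e ≠ 0 → e ∈ T.edgeSet) →
    (∀ u, bdy c u = (if u = v then 1 else 0) + if u = w then 1 else 0) → c = chi (DL.tp T v w)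
  tpm : ∀ {α : Type} [Fintype α] [DecidableEq α] {T T' : SimpleGraph α} {X X' : Finset α}, TreeOn T X →
    TreeOn T' X' → T ≤ T' → X ⊆ X' → ∀ v ∈ X, ∀ w ∈ X, DL.tp T' v w = DL.tp T v w
  single : ∀ {α : Type} [Fintype α] [DecidableEq α] (v : α), TreeOn (⊥ : SimpleGraph α) {v} ∧
    DL.tp (⊥ : SimpleGraph α) v v = ∅
  glue : ∀ {α : Type} [Fintype α] [DecidableEq α] {T T' : SimpleGraph α} {X X' : Finset α} {v : α},
    TreeOn T X → TreeOn T' X' → X ∩ X' = {v} → TreeOn (T ⊔ T') (X ∪ X') ∧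
    ∀ x ∈ X, ∀ y ∈ X', DL.tp (T ⊔ T') x y = DL.tp T x v ∪ DL.tp T' v y
  grow : ∀ {α : Type} [Fintype α] [DecidableEq α] {T : SimpleGraph α} {X : Finset α} {v w : α},
    TreeOn T X → v ∈ X → w ∉ X → TreeOn (T ⊔ fromEdgeSet {s(v, w)}) (insert w X) ∧
    ∀ x ∈ X, DL.tp (T ⊔ fromEdgeSet {s(v, w)}) x w = insert s(v, w) (DL.tp T x v)
  pth : ∀ {α : Type} [Fintype α] [DecidableEq α] {G : SimpleGraph α} {s t : α} {P : Finset (Sym2 α)},
    IsPth G s t P → TreeOn (fromEdgeSet (P : Set (Sym2 α))) (insert s (vs P)) ∧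
    DL.tp (fromEdgeSet (P : Set (Sym2 α))) s t = P
  four : ∀ {α : Type} [Fintype α] [DecidableEq α] {T : SimpleGraph α} {X : Finset α}, TreeOn T X →
    ∀ v ∈ X, ∀ w ∈ X, ∀ u ∈ X, chi (DL.tp T v w) + chi (DL.tp T v u) = chi (DL.tp T w u)

/-- **DCB** (from TRE; 200 lines).  The 16 cycles and the four paths.  The pieces (trees in disjoint sets, edges between
different sets) are pairwise disjoint edge sets, consecutive ones meet in one vertex: concatenate (`IsPth.append`), close up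
(`isCyc_insert_iff`).  `chi` is the sum.  `four`: sum of the four paths `= 0` by `TRE.four`; `bead`: two paths which differ in
one bead differ by a cycle.  `aff`: from `four`. -/
structure SpecDCB : Prop where
  cyc : ∀ {α : Type} [Fintype α] [DecidableEq α] {G : SimpleGraph α} (D : D4M G) (e : Fin 4 → Bool),
    IsCyc G (D.cyc e) ∧ chi (D.cyc e) = ∑ i : Fin 4, (chi {s(D.p i (e i), D.q i (e i))} +
      chi (tp (D.T (i + 1)) (D.q i (e i)) (D.p (i + 1) (e (i + 1)))))
  pth : ∀ {α : Type} [Fintype α] [DecidableEq α] {G : SimpleGraph α} {s t : α} (K : Ch2 G s t)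
    (e : Fin 2 → Bool), IsPth G s t (K.pth e) ∧ (∀ v ∈ vs (K.pth e), ∃ i, v ∈ K.X i) ∧
    chi (K.pth e) = chi (tp (K.T 0) s (K.p 0 (e 0))) + chi {s(K.p 0 (e 0), K.q 0 (e 0))} +
      chi (tp (K.T 1) (K.q 0 (e 0)) (K.p 1 (e 1))) + chi {s(K.p 1 (e 1), K.q 1 (e 1))} +
      chi (tp (K.T 2) (K.q 1 (e 1)) t)
  four : ∀ {α : Type} [Fintype α] [DecidableEq α] {G : SimpleGraph α} {s t : α} (K : Ch2 G s t),
    ∑ e : Fin 2 → Bool, chi (K.pth e) = 0
  bead : ∀ {α : Type} [Fintype α] [DecidableEq α] {G : SimpleGraph α} {s t : α} (K : Ch2 G s t)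
    (b : Bool), (∃ Z, IsCyc G Z ∧ chi (K.pth ![false, b]) + chi (K.pth ![true, b]) = chi Z) ∧
      ∃ Z, IsCyc G Z ∧ chi (K.pth ![b, false]) + chi (K.pth ![b, true]) = chi Z
  aff : ∀ {α : Type} [Fintype α] [DecidableEq α] {G : SimpleGraph α} {s t : α} (K : Ch2 G s t)
    (w0 : ZMod 2) (w : Chain α), ∑ e : Fin 2 → Bool, (w0 + ∑ h ∈ K.pth e, w h) = 0

/-- **CTD** (from CTA, TRE, DCB; 250 lines).  Lift of a `D_4` minor of `H = contr G a b` to `G` (no common neighbour).  If `a` is in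
no `D.X i`, `D` itself is a `D_4` minor of `G`.  Let `a ∈ D.X j`.  `X' j := insert b (X j)`, `T' j` := all edges of `G` which merge to
edges of `T j`, and `ab`; the other trees are the same (they do not contain `a`; no `X i` contains `b`: it would be `{b}`, as `b` is in no edge of `H`, but it contains an end of an edge of `H`).  `T' j` is acyclic: `contr (T' j) a b = T j` has
`Z1 = 0`, so `Z1 (T' j) = 0` by `CTA.lp`, `.pz`.  The beads are the lifts of the beads (`p`, `q` equal to `a` are replaced by `b` if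
the edge of `G` is at `b`).  Cycles: `prj (chi (D'.cyc e)) = chi (D.cyc e)`: compare with DCB.cyc: `prj` of the chain of a tree path
has the right boundary, TRE.tpc. -/
def SpecCTD : Prop := ∀ {α : Type} [Fintype α] [DecidableEq α] {G : SimpleGraph α} {a b : α}, G.Adj a b →
  NoCN G a b → ∀ D : D4M (contr G a b), ∃ D' : D4M G, ∀ e,
    CycM G a b (D'.cyc e) ∧ chi (D'.cyc e) = lft G a b (chi (D.cyc e))

/-- **SEF** (120 lines).  Facts on `sel G a b K`.  `cyc`: a cycle in `CycM` which contains `ax` and `bx` for a common neighbour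
contains `a` and `b`, hence `ab`, and is the triangle; otherwise let `K` be the set of the `x` with `bx ∈ C`.
`z1`: the same for chains, any `K` between `{x : c (bx) ≠ 0}` and the complement of `{x : c (ax) ≠ 0}`. -/
structure SpecSEF : Prop where
  le : ∀ {α : Type} [Fintype α] [DecidableEq α] (G : SimpleGraph α) (a b : α) (K : Finset α),
    sel G a b K ≤ G
  adj : ∀ {α : Type} [Fintype α] [DecidableEq α] {G : SimpleGraph α} {a b : α} (K : Finset α),
    G.Adj a b → (sel G a b K).Adj a b ∧ NoCN (sel G a b K) a b ∧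
      contr (sel G a b K) a b = contr G a b
  iff : ∀ {α : Type} [Fintype α] [DecidableEq α] {G : SimpleGraph α} {a b : α} (K : Finset α) (x : α),
    G.Adj a b → x ≠ a → x ≠ b →
      ((sel G a b K).Adj a x ↔ G.Adj a x ∧ (G.Adj b x → x ∉ K)) ∧
      ((sel G a b K).Adj b x ↔ G.Adj b x ∧ (G.Adj a x → x ∈ K))
  off : ∀ {α : Type} [Fintype α] [DecidableEq α] {G : SimpleGraph α} {a b : α} (K : Finset α) (u v : α),
    u ≠ a → u ≠ b → v ≠ a → v ≠ b → ((sel G a b K).Adj u v ↔ G.Adj u v)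
  cyc : ∀ {α : Type} [Fintype α] [DecidableEq α] {G : SimpleGraph α} {a b : α} {C : Finset (Sym2 α)},
    G.Adj a b → CycM G a b C → (∃ x, G.Adj a x ∧ G.Adj b x ∧ C = {s(a, x), s(b, x), s(a, b)}) ∨
      CycM (sel G a b (univ.filter fun x => s(b, x) ∈ C)) a b C
  z1 : ∀ {α : Type} [Fintype α] [DecidableEq α] {G : SimpleGraph α} {a b : α} (K : Finset α)
    {c : Chain α}, G.Adj a b → c ∈ Z1 G → (∀ x ∈ K, G.Adj a x → G.Adj b x → c s(a, x) = 0) →
      (∀ x ∉ K, G.Adj a x → G.Adj b x → c s(b, x) = 0) → c ∈ Z1 (sel G a b K)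
  tri : ∀ {α : Type} [Fintype α] [DecidableEq α] {G : SimpleGraph α} {a b x : α}, G.Adj a b →
    G.Adj a x → G.Adj b x → CycM G a b {s(a, x), s(b, x), s(a, b)}

/-- **CTF** (from POL, CTA, CTB, SEF, VRW; 200 lines).  Functions.  `down`: a function in `F(G)` gives a function in `F(contr G a b)`
(no common neighbours; `φ'` is any function on the cycles of `contr G a b` with `φ' D = φ C` for corresponding cycles): the polynomial
part is `p ∘ lft`; `coh s t u v` with `st, uv ≠ ab` edges of `G` becomes `coh` of the merged vertices (CTB), with a non-edge it is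
`0`; `coh a b u v` with `a ∉ {u, v}` is on the cycles `Σ_{x ≠ b} coh a x u v` + polynomial (VRW), and if `a ∈ {u, v}` it is polynomial (PC2
coh_share); reversals by PC2.  `up`: for `sel G a b K` (`H = contr G a b`): the polynomial part is `p ∘ prj`; `coh s' t' u' v'` of edges of
`H` becomes `coh` of the lifted edges of `sel G a b K` (CTB). -/
structure SpecCTF : Prop where
  down : ∀ {α : Type} [Fintype α] [DecidableEq α] {G : SimpleGraph α} {a b : α}, G.Adj a b →
    NoCN G a b → ∀ φ φ' : Finset (Sym2 α) → ZMod 2, InF G φ →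
    (∀ C D, CycM G a b C → IsCyc (contr G a b) D → chi C = lft G a b (chi D) → φ' D = φ C) →
    InF (contr G a b) φ'
  up : ∀ {α : Type} [Fintype α] [DecidableEq α] {G : SimpleGraph α} {a b : α}, G.Adj a b →
    ∀ (K : Finset α) (φ' : Finset (Sym2 α) → ZMod 2), InF (contr G a b) φ' →
    ∃ φ, InF G φ ∧ ∀ C D, CycM (sel G a b K) a b C → IsCyc (contr G a b) D →
      chi C = lft (sel G a b K) a b (chi D) → φ C = φ' D

/-! ## D. Theorem I3 -/

/-- every cubic function which vanishes on the cycles is a sum of local ones -/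
def I3P {α : Type} [Fintype α] [DecidableEq α] (G : SimpleGraph α) : Prop :=
  ∀ p : Chain α → ZMod 2, DegLE 3 p → p 0 = 0 → (∀ C, IsCyc G C → p (chi C) = 0) →
    ∃ r : α → Chain α → ZMod 2, (∀ v, r v ∈ RV G v) ∧ ∀ c ∈ Z1 G, p c = ∑ v, r v c

/-- the edges `≠ ab` at `a` or `b` -/
def sab {α : Type} (G : SimpleGraph α) (a b : α) : Set (Sym2 α) :=
  {e | e ∈ G.edgeSet ∧ (a ∈ e ∨ b ∈ e) ∧ e ≠ s(a, b)}

open Classical in
/-- the common neighbours of `a` and `b` -/
noncomputable def cmn {α : Type} [Fintype α] (G : SimpleGraph α) (a b : α) : Finset α :=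
  univ.filter fun x => G.Adj a x ∧ G.Adj b x

/-- `Σ_x c(ax) c(bx) l_x(c)` over the common neighbours -/
noncomputable def cnp {α : Type} [Fintype α] [DecidableEq α] (G : SimpleGraph α) (a b : α)
    (l : α → Chain α) (c : Chain α) : ZMod 2 :=
  ∑ x ∈ cmn G a b, c s(a, x) * c s(b, x) * ∑ e, l x e * c e

/-- the polynomials vanishing on the cycles of `G/ab` -/
def PMP {α : Type} [Fintype α] [DecidableEq α] (G : SimpleGraph α) (a b : α) : Prop :=
  ∀ p : Chain α → ZMod 2, DegLE 3 p → p 0 = 0 → (∀ C, CycM G a b C → p (chi C) = 0) →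
    ∃ (r : α → Chain α → ZMod 2) (ρ : Chain α → ZMod 2) (l : α → Chain α),
      (∀ v, r v ∈ RV G v) ∧ r a = 0 ∧ r b = 0 ∧ ρ ∈ TR (sab G a b) ∧
      (∀ x e, a ∈ e ∨ b ∈ e → l x e = 0) ∧
      ∀ c ∈ Z1 G, p c = ∑ v, r v c + ρ c + cnp G a b l c

/-- **TWO** (from KC.lean; 200 lines).  Cycles with given traces.  `H = contr G a b` 3-connected, so `G - a - b = H - a` is
2-connected (at least 3 vertices).  `pair`: a path of the connected graph `G - a - b` between `x` and `x'` (empty if `x = x'`;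
then both edges are `ax`, `bx` and the cycle is the triangle).  `four`: `f = a x, f' = a x', g = b y, g' = b y'`: two disjoint
(possibly trivial) paths in `G - a - b` between `{x, x'}` and `{y, y'}`.  `arc`: `Z` a cycle of `G - {a, b, x}`, `x` a common
neighbour; `G - x` is 2-connected: two disjoint paths from `{a, b}` to `Z`, meeting `Z` in different vertices `z₁`, `z₂`; with
the two arcs of `Z` and `a x b` they form two cycles `C₁`, `C₂`, `chi C₁ + chi C₂ = chi Z`; the edges at `a` and `b` are the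
same; `C_i` contains no pair `ay`, `by` with `y ≠ x` (it would be the cycle `a x b y`, but it has more vertices). -/
structure SpecTWO : Prop where
  pair : ∀ {α : Type} [Fintype α] [DecidableEq α] {G : SimpleGraph α} {a b : α}, G.Adj a b →
    KConn 3 (contr G a b) → ∀ F : Finset (Sym2 α), F.card = 2 → (∀ e ∈ F, e ∈ sab G a b) →
    ∃ C, CycM G a b C ∧ ∀ e ∈ sab G a b, e ∈ C ↔ e ∈ F
  four : ∀ {α : Type} [Fintype α] [DecidableEq α] {G : SimpleGraph α} {a b : α}, G.Adj a b →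
    KConn 3 (contr G a b) → ∀ x x' y y', x ≠ x' → y ≠ y' → x ≠ b → x' ≠ b → y ≠ a → y' ≠ a →
    G.Adj a x → G.Adj a x' → G.Adj b y → G.Adj b y' →
    ∃ C, IsCyc G C ∧ s(a, b) ∉ C ∧ ∀ e ∈ sab G a b, e ∈ C ↔ e ∈ ({s(a, x), s(a, x'), s(b, y), s(b, y')} : Finset _)
  arc : ∀ {α : Type} [Fintype α] [DecidableEq α] {G : SimpleGraph α} {a b x : α}, G.Adj a b →
    KConn 3 G → G.Adj a x → G.Adj b x → ∀ Z, IsCyc (del G {a, b, x}) Z →
    ∃ C₁ C₂, IsCyc G C₁ ∧ IsCyc G C₂ ∧ s(a, x) ∈ C₁ ∧ s(b, x) ∈ C₁ ∧ s(a, b) ∉ C₁ ∧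
      (∀ e, a ∈ e ∨ b ∈ e → (e ∈ C₁ ↔ e ∈ C₂)) ∧ chi C₁ + chi C₂ = chi Z ∧
      ∀ y, y ≠ x → ¬ (s(a, y) ∈ C₁ ∧ s(b, y) ∈ C₁)

/-- **PRL** (from POL, TWO; 120 lines).  PAIR LEMMA.  `V' = {c ∈ Z1 G : c(ax) c(bx) = 0 for all common neighbours x}`, `t_x` =
chain of the triangle `abx`.  `q` has degree `≤ 2` and vanishes on `V'`: then `q c = Σ_x q(t_x) c(ax) c(bx)` on `Z1 G`.  Proof: let
`q' = q + Σ_x q(t_x) c(ax) c(bx)`: degree `≤ 2`, zero on `V'` and at the `t_x` (`t_x` has no other edges at `a`, `b` than `ax`, `bx`, `ab`).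
`q'(c) = 0` by induction on the size of `S(c) = {x : c(ax) = c(bx) = 1}`.  Let `x ∈ S(c)`, `c' = c + t_x`, `S(c') = S(c) - x`.  Choose
`u ∈ Z1 G`, the chain of a cycle (TWO.pair) with trace `{ax, h}`, `h ∈ sab`, `h ≠ ax, bx`, such that `S(c' + u) ⊆ S(c')`: if
some `h ∈ sab` is in no pair take this one; otherwise take any other common neighbour `y` (there is one:
`contr G a b` has degree `≥ 3` at `a`), and `h = ay` or `h = by`: if `c'(ay) = c'(by)` any, if exactly one of them is `1` take that one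
for `h`.  Then `q'(u) = q'(u + t_x) = 0` (in `V'`), `q'(c' + u) = q'(c' + u + t_x) = 0` (induction, `x ∉ S`), `q'(t_x) = 0 = q'(0)`, so
`B(u, t_x) = 0 = B(c' + u, t_x)` for the bilinear form `B` of `q'`, `B(c', t_x) = 0`, `q'(c) = q'(c') + q'(t_x) = 0`. -/
def SpecPRL : Prop := ∀ {α : Type} [Fintype α] [DecidableEq α] {G : SimpleGraph α} {a b : α}, G.Adj a b →
  KConn 3 (contr G a b) → ∀ q : Chain α → ZMod 2, DegLE 2 q →
  (∀ c ∈ Z1 G, (∀ x, G.Adj a x → G.Adj b x → c s(a, x) * c s(b, x) = 0) → q c = 0) →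
  ∀ c ∈ Z1 G, q c = ∑ x ∈ cmn G a b, q (chi {s(a, x), s(b, x), s(a, b)}) * (c s(a, x) * c s(b, x))

/-- **PMA** (from POL, TRA, DIR, S3F, CTA, SEF; 280 lines).  STEP 1, first half.  `H = contr G a b`, `D` = common neighbours,
`G_K = sel G a b K`, `lft_K = lft G_K a b`, `V_K = Z1 G_K`.  (A) `p ∘ lft_K` is cubic and zero on the cycles of `H` (CTA.cl), so by
`I3P H`: `p (lft_K c) = Σ_w r^K w c` for `c ∈ Z1 H`; `G_K` depends only on `K ∩ D`, choose `r^K` depending only on `K ∩ D`.  (B) Let `x ∈ D`, `x ∉ K`, `K' = K ∪ {x}`.  For `c ∈ Z1 (delE H a x)` we have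
`lft_K c = lft_K' c`, so `Σ_w (r^K w + r^K' w)(c) = 0`; drop the products containing `ax` (TRA.res) and apply DIR to `delE H a
x` (S3F.dhE): `r^K w = r^K' w` on all chains on edges of `H` with boundary `0` at `w`, for `w ∉ {a, x}`; for `w = x` the same on the
chains with `c(ax) = 0`.  (C) So (changing `K` one element at a time) on chains with even boundary at `w ≠ a`: for `w ∉ D` `r^K w =
r^∅ w`; for `w ∈ D` `r^K w = r^∅ w` if `w ∉ K`, `= r^{w} w` if `w ∈ K`, and `r^∅ w`, `r^{w} w` agree if `c(aw) = 0`.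
(D) Definition of `R_w ∈ RV G w` (`w ≠ a, b`), using TRA.map to read the coordinate `aw` of `H` as `aw` or `bw` in `G`:
`w ∉ D`: `r^∅ w` with `aw` read as the edge `aw` or `bw` of `G` which exists; `w ∈ D`: TRA.glue of `r^∅ w` (`aw` read as `aw`) and
`r^{w} w` (`aw` read as `bw`), `k` a third edge at `w` (`H` has degree `≥ 3` at `w`).  Then for `c ∈ V_K`, `c' = prj c`:
`p c = r^K a c' + Σ_{w ≠ a, b} R_w c`. -/
def SpecPMA : Prop := ∀ {α : Type} [Fintype α] [DecidableEq α] {G : SimpleGraph α} {a b : α}, G.Adj a b →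
  KConn 3 (contr G a b) → I3P (contr G a b) → ∀ p : Chain α → ZMod 2, DegLE 3 p → p 0 = 0 →
  (∀ C, CycM G a b C → p (chi C) = 0) →
  ∃ (R : α → Chain α → ZMod 2) (s : Finset α → Chain α → ZMod 2), (∀ w, R w ∈ RV G w) ∧ R a = 0 ∧ R b = 0 ∧
    (∀ K, s K ∈ RV (contr G a b) a) ∧
    ∀ K, ∀ c ∈ Z1 (sel G a b K), p c = s K (prj a b c) + ∑ w, R w c

/-- **PMB** (from POL, TRA, TRX, PMA, PRL, TWO, SEF; 250 lines).  STEP 1, second half.  `p₁ = p + Σ_w R_w` (cubic).  Let `K₀ = Z1 (del G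
{a, b})`, `V'` as in PRL; `V'` is the union of the `Z1 (sel G a b K)` (SEF.z1), `V' + K₀ = V'`, and for `c ∈ V'`, `k ∈ K₀`: `p₁ (c + k) =
s K (prj (c + k)) = s K (prj c) = p₁ c` (TRA.loc: same edges at `a`).  So `q_k c = p₁ (c + k) + p₁ c` has degree `≤ 2` and
vanishes on `V'`; PRL: `q_k c = Σ_x γ_x(k) c(ax) c(bx)` on `Z1 G`, `γ_x(k) = q_k (t_x)`.  `γ_x` is additive on `K₀`: `q_{k + k'} c = q_k (c +
k') + q_k' c`, evaluate at `t_x` (`k'` has no edges at `a`, `b`).  Extend `γ_x` to a linear functional of the chains, `c ↦ Σ_e l x e c e`, with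
`l x e = 0` for the edges at `a`, `b` (change `l` there: `K₀` does not see it).  `p₂ = p₁ + cnp G a b l` is `K₀`-invariant on `Z1 G`.
SECTION: fix `h₀ ∈ A = sab G a b`; for `h ∈ A - h₀` choose `γ_h ∈ Z1 G` with trace `{h, h₀}` on `A` (TWO.pair); `σ c := Σ_{h ≠ h₀} c h •
γ_h`.  For `c ∈ Z1 G` (even trace on `A`) `σ c + c` has no edges in `A`, nor `ab`, so it is in `K₀` and `p₂ c = p₂ (σ c)`.
`P := p₂ ∘ σ` is cubic, `P (chi F) = 0` for `F = ∅` and for 2-subsets `F` of `A`: let `C ∈ CycM` have trace `F`; `P (chi F) = p₂ (chi C) =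
p (chi C) + Σ_w R_w (chi C) + cnp (chi C) = 0 + 0 + cnp`: `R_w` vanishes on cycles (TRA.two); `cnp (chi C) = 0`: if `F` is
no pair all products `c(ax) c(bx)` vanish, and if `F = {ax, bx}` then take for `C` the triangle: `l x` vanishes on its edges.  TRX.ex:
`P = ρ ∈ TR A` on even traces. -/
def SpecPMB : Prop := ∀ {α : Type} [Fintype α] [DecidableEq α] {G : SimpleGraph α} {a b : α}, G.Adj a b →
  KConn 3 (contr G a b) → I3P (contr G a b) → PMP G a b

/-- **ST2** (from POL, TRA, TWO, PC2.cut; 220 lines).  STEP 2.  `p` vanishes on all cycles of `G`, `G` 3-connected, PMP.  For a common neighbour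
`x` and a cycle `Z` of `G - {a, b, x}`: TWO.arc gives `C₁`, `C₂`; `p = 0`, `R_v = 0` on both, `ρ` has the same value, in `cnp` only the
term of `x` is not `0`: `0 = Σ_e l x e (chi C₁ e + chi C₂ e) = Σ_{e ∈ Z} l x e`.  So (PC2.cut') `l x e = s u + s v` for `e = uv` in `G - {a, b, x}`.
For `c ∈ Z1 G` `Σ_e cob s e c e = 0`, so `Σ_e l x e c e = Σ_{e ∋ a, b or x} (l x e + cob s e) c e`.  Multiply by `c(ax) c(bx)`: the terms with
`e ∋ x`, `e ≠ ax, bx` are in `RV G x`; `e ∈ sab G a b`, `e ≠ ax, bx`, are in `TR (sab G a b)`; `e = ax` or `bx` gives `c(ax) c(bx)`;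
`e = ab`: `c(ab) = Σ` of the other edges at `a`.  So `p c = Σ_v r' v c + ρ' c + Σ_x κ_x c(ax) c(bx)` on `Z1 G`, `κ_x ∈ F_2`; the
triangle `abx` is a cycle: `κ_x = 0`. -/
def SpecST2 : Prop := ∀ {α : Type} [Fintype α] [DecidableEq α] {G : SimpleGraph α} {a b : α}, G.Adj a b →
  KConn 3 G → PMP G a b → ∀ p : Chain α → ZMod 2, DegLE 3 p → p 0 = 0 → (∀ C, IsCyc G C → p (chi C) = 0) →
  ∃ (r : α → Chain α → ZMod 2) (ρ : Chain α → ZMod 2), (∀ v, r v ∈ RV G v) ∧ r a = 0 ∧ r b = 0 ∧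
    ρ ∈ TR (sab G a b) ∧ ∀ c ∈ Z1 G, p c = ∑ v, r v c + ρ c

/-- **ST3** (from TRA, TRX, TWO; 150 lines).  STEP 3.  `A`, `B` = the edges `≠ ab` at `a`, at `b` (disjoint), `A ∪ B = sab G a b`.  `ρ (chi F) =
0` if `F ⊆ A ∪ B` has at most two elements (TRA.two); if `F` has two elements in `A` and two in `B`, TWO.four gives a cycle
`C` with trace `F`: `0 = p (chi C) = 0 + ρ (chi C) = ρ (chi F)` (TRA.loc).  TRX.split: `ρ = r + r'` on chains supported on `A ∪ B`
with even trace, hence (TRA.loc) at all `c ∈ Z1 G`; `TR A ≤ RV G a`, `TR B ≤ RV G b`. -/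
def SpecST3 : Prop := ∀ {α : Type} [Fintype α] [DecidableEq α] {G : SimpleGraph α} {a b : α}, G.Adj a b →
  KConn 3 (contr G a b) → ∀ p : Chain α → ZMod 2, (∀ C, IsCyc G C → p (chi C) = 0) →
  ∀ (r : α → Chain α → ZMod 2) (ρ : Chain α → ZMod 2), (∀ v, r v ∈ RV G v) → r a = 0 → r b = 0 →
    ρ ∈ TR (sab G a b) → (∀ c ∈ Z1 G, p c = ∑ v, r v c + ρ c) →
    ∃ r' : α → Chain α → ZMod 2, (∀ v, r' v ∈ RV G v) ∧ ∀ c ∈ Z1 G, p c = ∑ v, r' v c

/-- **K4B** (120 lines).  Base: a 3-connected graph with 4 vertices is `K_4` (every vertex has 3 neighbours), and every nonzero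
element of `Z1 G` is the chain of a cycle (7 elements: 4 triangles, 3 four-cycles; or: an element of `Z1` is a disjoint union of
cycles, PC exists_decomp, and two edge-disjoint cycles of `K_4` would need `6` edges, all degrees `3`, odd). -/
def SpecK4B : Prop := ∀ {α : Type} [Fintype α] [DecidableEq α] (G : SimpleGraph α), KConn 3 G →
  (VS G).card ≤ 4 → I3P G

/-- **I3K** (from THO, PMB, ST2, ST3, K4B; 50 lines).  Induction on the number of vertices (`contr G a b` has fewer). -/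
def SpecI3K : Prop := ∀ {α : Type} [Fintype α] [DecidableEq α] (G : SimpleGraph α), KConn 3 G → I3P G

/-- **SUP** (from S3F, TRA, PC; 250 lines).  Suppression of a vertex `v` of degree 2 with neighbours `p`, `q` in an S3S graph
`J`: `J'` = `J - v` with the edge `pq` is S3S.  [`ConnOff` statements of `J` pass to `J'` (replace `p v q` by `pq`).  2-cuts `{x, y}` of
`J'`: if `{x, y} ≠ {p, q}` (and `v ∉ {x, y}`), use the alternative of `J`; the vertex `v'` with `N(v') = {x, y}` is not `v` and not `p` or `q`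
(whose neighbour `v` would be in `{x, y}`).  If `{x, y} = {p, q}`: in `J` the alternative gives `v''` with `N(v'') = {p, q}` and `J - {p, q, v''}`
connected; if `v'' ≠ v` then `v` is isolated there, so `V = {p, q, v, v''}`, `p` has only the neighbours `v, v''`, no vertex has 3
neighbours, contradiction.  So `J - {p, q, v}` is connected.]  `i3`: `I3P J' → I3P J`: `L : c' ↦ c`, `c (vp) = c (vq) = c' (pq)`, `c (pq) = 0`,
same values elsewhere; `M : c ↦ c'`, `c' (pq) = c (vp)`.  `L` maps `Z1 J'` onto `Z1 J`, `L (M c) = c`, chains of cycles to chains of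
cycles.  `p ∘ L = Σ r'_w` on `Z1 J'`; `r'_w ∘ M ∈ RV J w` on chains supported on `J` (TRA.map; at `p`, `q` the edge `pq` is read as
`vp`, `vq`). -/
def SpecSUP : Prop := ∀ {α : Type} [Fintype α] [DecidableEq α] (J : SimpleGraph α), S3S J →
  ∀ v p q, p ≠ q → (∀ w, J.Adj v w ↔ w = p ∨ w = q) →
  S3S (del J {v} ⊔ fromEdgeSet {s(p, q)}) ∧
  VS (del J {v} ⊔ fromEdgeSet {s(p, q)}) = (VS J).erase v ∧
  (I3P (del J {v} ⊔ fromEdgeSet {s(p, q)}) → I3P J)

/-- **I3S** (from SUP, I3K, S3F; 60 lines).  THEOREM I3 for S3S graphs.  Induction on the number of vertices.  If no vertex has degree 2,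
`J` is 3-connected: every vertex has degree `≥ 3` (S3F.deg), so `4 ≤` number of vertices, and the second alternative of S3S
never occurs.  (`J.Adj v w ↔ w = p ∨ w = q` and `¬ J.Adj p q` from the alternative at `{p, q} = N(v)`, which separates `v` from the rest.) -/
def SpecI3S : Prop := ∀ {α : Type} [Fintype α] [DecidableEq α] (G : SimpleGraph α), S3S G → I3P G

/-! ## E. Relations between coherence functions; EXD, EXM -/

/-- **VRW** (from POL, PC2; 150 lines).  `vr`: a cycle through `cd` and `w` passes `w` through two edges `wx`, `wy`; exactly one of them is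
traversed outwards with respect to the direction in which `cd` is traversed from `c` to `d` (write `C = cd + P`, coh_insert and
dirn of `P` from `d` to `c`: `P = P₁ ∪ P₂` at `w`; `dirn` of `wx` is `1` iff `wx` is the first edge of `P₂`).  If `w = c` or `w = d` is excluded.
`vs2`: `[w ∈ C]` = number of pairs of edges of `C` at `w`. -/
structure SpecVRW : Prop where
  vr : ∀ {α : Type} [Fintype α] [DecidableEq α] {G : SimpleGraph α} {C : Finset (Sym2 α)}, IsCyc G C →
    ∀ w c d, w ≠ c → w ≠ d → c ≠ d →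
    ∑ x, coh w x c d C = if s(c, d) ∈ C ∧ w ∈ vs C then 1 else 0
  vs2 : ∀ {α : Type} [Fintype α] [DecidableEq α] (w : α), ∃ q ∈ PR ({e | w ∈ e} : Set (Sym2 α)),
    ∀ (G : SimpleGraph α) (C : Finset (Sym2 α)), IsCyc G C → q (chi C) = if w ∈ vs C then 1 else 0

/-- sum of the 8 coefficients of the orientations of the pair `ab`, `cd` -/
def sym8 {α : Type} (l : α → α → α → α → ZMod 2) (a b c d : α) : ZMod 2 :=
  l a b c d + l b a c d + l a b d c + l b a d c + (l c d a b + l d c a b + l c d b a + l d c b a)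

/-- four different vertices -/
def Dj4 {α : Type} (a b c d : α) : Prop := a ≠ b ∧ c ≠ d ∧ a ≠ c ∧ a ≠ d ∧ b ≠ c ∧ b ≠ d

/-- **NOR** (from POL, PC2; 150 lines).  If the 8 coefficients of every pair of disjoint edges of `G` have sum `0` then the combination is a
polynomial of degree `≤ 2` on the cycles of `G`: group the sum over the 8 orientations of each unordered pair; modulo
`x_{ab} x_{cd}` all 8 coherence functions are equal (coh_reverse, coh_comm, coh_add_swap).  Terms with `s(a,b)` or `s(c,d)` not in `G`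
vanish; terms of adjacent or equal edges are `0` or `x_{ab} x_{cd}` (coh_share). -/
def SpecNOR : Prop := ∀ {α : Type} [Fintype α] [DecidableEq α] (G : SimpleGraph α)
  (l : α → α → α → α → ZMod 2), (∀ a b c d, G.Adj a b → G.Adj c d → Dj4 a b c d → sym8 l a b c d = 0) →
  ∃ p : Chain α → ZMod 2, DegLE 2 p ∧ p 0 = 0 ∧ ∀ C, IsCyc G C → cohs l C = p (chi C)

/-- **MUE** (80 lines).  Coefficients supported on one orientation: choose for every unordered pair `{e, f}` of edges with `E e` or `E f`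
and `g e f ≠ 0` one quadruple `(a, b, c, d)` with `E s(a, b)` representing it. -/
def SpecMUE : Prop := ∀ {α : Type} [Fintype α] [DecidableEq α] (g : Sym2 α → Sym2 α → ZMod 2)
  (E : Set (Sym2 α)), (∀ e f, g e f = g f e) →
  ∃ μ : α → α → α → α → ZMod 2, (∀ a b c d, μ a b c d ≠ 0 → s(a, b) ∈ E ∧ Dj4 a b c d) ∧
    ∀ a b c d, Dj4 a b c d → (s(a, b) ∈ E ∨ s(c, d) ∈ E → sym8 μ a b c d = g s(a, b) s(c, d)) ∧
      (s(a, b) ∉ E → s(c, d) ∉ E → sym8 μ a b c d = 0)

/-- **COB** (150 lines).  Duality.  On the space of the symmetric functions `z` on pairs of disjoint edges of `G` the functional `pair2 l`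
vanishes on the common kernel of the functionals `z ↦ Σ_{f ∋ v} z e f` (`v ∉ e`) and `z ↦ z e f` (`nb e f`), so it is a linear
combination of them (`mem_span_of_iInf_ker_le_ker` or `Submodule.dualAnnihilator`); evaluate at the symmetric function of the pair
`{ab, cd}`. -/
def SpecCOB : Prop := ∀ {α : Type} [Fintype α] [DecidableEq α] (G : SimpleGraph α)
  (l : α → α → α → α → ZMod 2) (nb : Sym2 α → Sym2 α → Prop),
  (∀ z, IsZ2 G z → (∀ e f, nb e f → z e f = 0) → pair2 l z = 0) →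
  ∃ (m : α → Sym2 α → ZMod 2) (ν : Sym2 α → Sym2 α → ZMod 2), (∀ e f, ν e f ≠ 0 → nb e f) ∧
    ∀ a b c d, G.Adj a b → G.Adj c d → Dj4 a b c d → sym8 l a b c d =
      m a s(c, d) + m b s(c, d) + m c s(a, b) + m d s(a, b) + ν s(a, b) s(c, d) + ν s(c, d) s(a, b)

/-- **VRS** (from VRW, POL; 120 lines).  The combination `Σ_{w, cd} m(w, cd) Σ_x coh w x c d`: there are coefficients `l'` with
`sym8 l' a b c d = m a cd + m b cd + m c ab + m d ab` for all different `a, b, c, d` and `cohs l'` a cubic polynomial on all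
cycles (of all graphs).  [`l' w x c d := m w s(c,d)` for one orientation `(c, d)` of every edge `≠`-disjoint from `w` and all `x`;
`Σ_x coh w x c d = x_{cd} [w ∈ C]` for `w ∉ {c, d}`; the terms with `x ∈ {c, d}` do not matter for disjoint pairs.] -/
def SpecVRS : Prop := ∀ {α : Type} [Fintype α] [DecidableEq α] (m : α → Sym2 α → ZMod 2),
  ∃ l' : α → α → α → α → ZMod 2, (∀ a b c d, Dj4 a b c d →
    sym8 l' a b c d = m a s(c, d) + m b s(c, d) + m c s(a, b) + m d s(a, b)) ∧
    ∃ p : Chain α → ZMod 2, DegLE 3 p ∧ p 0 = 0 ∧ ∀ (G : SimpleGraph α) (C : Finset (Sym2 α)),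
      IsCyc G C → cohs l' C = p (chi C)

/-- **EXD** (from POL, DVS, I3S, NOR, MUE, COB, VRS; 150 lines).  THEOREM EX (deletion of any set of edges).  `φ = p + cohs l` on the cycles of
`G'`.  On the cycles of `G` `cohs l = p` is cubic, so by `KZ G` `pair2 l` kills `Z_2(G)`; COB (with `nb = False`): `sym8 l` on
disjoint edges of `G` is given by `m`; VRS gives `l'`, and MUE (with `E` = the edges of `G'` not in `G`, `g` = `sym8 (l + l')` as a
function of the pair) gives `μ`; `sym8 (l + l' + μ) = 0` on all disjoint pairs of edges of `G'` [pairs in `G`: `m`-terms cancel,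
`μ` contributes `0`], so by NOR `cohs l = polynomial + cohs μ` on the cycles of `G'`.  So `φ = p' (chi C) + cohs μ C`, `p'` cubic, `cohs μ =
0` on the cycles of `G`, so `p' = 0` there; I3S: `p' = Σ_v r v` on `Z1 G`.  `p' + Σ_v r v` is zero on `Z1 G = {c ∈ Z1 G' : c e = 0 for e ∈ E}`;
DVS (with `V = Z1 G'`).  `r v (chi C) = 0` for all cycles. -/
def SpecEXD : Prop := ∀ {α : Type} [Fintype α] [DecidableEq α] (G G' : SimpleGraph α), G ≤ G' → S3S G →
  KZ G → ∀ φ : Finset (Sym2 α) → ZMod 2, InF G' φ → (∀ C, IsCyc G C → φ C = 0) →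
  ∃ (q : Sym2 α → Chain α → ZMod 2) (μ : α → α → α → α → ZMod 2), (∀ e, DegLE 2 (q e)) ∧
    (∀ e, e ∉ G'.edgeSet \ G.edgeSet → q e = 0) ∧
    (∀ a b c d, μ a b c d ≠ 0 → s(a, b) ∈ G'.edgeSet \ G.edgeSet ∧ Dj4 a b c d) ∧
    ∀ C, IsCyc G' C → φ C = ∑ e, chi C e * q e (chi C) + cohs μ C

/-- **L2M** (from CTA, CTB, CTZ, SEF, POL; 200 lines).  `l` without terms of the edge `ab`, `cohs l` cubic on `CycM G a b`, `KZ (contr G a b)`.
Then `pair2 l z = 0` for every 2-cycle `z` of `sel G a b K` with `z e f = 0` for `e ∋ a`, `f ∋ b`, `e, f ≠ ab`.  Proof: for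
corresponding cycles `C` of `G_K = sel G a b K` (in CycM) and `D` of `H` we have `cohs l C = cohs l₁ D`, where `l₁ a' b' c' d'` = sum of
the `l s t u v` over the edges `st`, `uv` of `G_K` merging to `a'b'`, `c'd'` (with orientation) (CTB); so `cohs l₁ D = p (lft_K (chi
D))` is cubic on the cycles of `H`; `KZ H`: `pair2 l₁ w = 0` for `w ∈ Z_2(H)`; with `w` from CTZ.down `pair2 l₁ w = pair2 l z`. -/
def SpecL2M : Prop := ∀ {α : Type} [Fintype α] [DecidableEq α] {G : SimpleGraph α} {a b : α}, G.Adj a b →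
  KZ (contr G a b) → ∀ l : α → α → α → α → ZMod 2,
  (∀ s t u v, l s t u v ≠ 0 → s(s, t) ≠ s(a, b) ∧ s(u, v) ≠ s(a, b)) →
  (∃ p : Chain α → ZMod 2, DegLE 3 p ∧ p 0 = 0 ∧ ∀ C, CycM G a b C → cohs l C = p (chi C)) →
  ∀ K z, IsZ2 (sel G a b K) z → (∀ e f, a ∈ e → b ∈ f → e ≠ s(a, b) → f ≠ s(a, b) → z e f = 0) →
    pair2 l z = 0

/-- **K2M** (from L2M, LPE, CTZ, SEF, S3F; 200 lines).  `Kur = Z_2` for the multigraph `G/ab`.  The same for every 2-cycle `z` of `G` with
`z e f = 0` for `e ∋ a`, `f ∋ b`, `≠ ab`.  Let `D` = common neighbours.  For `x ∈ D` put `Z_x := z (bx) ·`, it is in `Z1 (del G {a, b, x})`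
(boundary `0` at the vertices `≠ b, x`, no edge at `a`; `ab` is not disjoint from `bx`).  TORUS `t_x ⊗ Z` : `(e, f) ↦ t(e) Z(f) + Z(e)
t(f)`, `t` = chain of the triangle `abx`, `Z ∈ Z1 (del G {a, b, x})`: it is in `Z_2(G)`.  `z + Σ_x t_x ⊗ Z_x` has zero rows at all `bx`,
so it is in `Z_2(sel G a b ∅)`: killed by L2M.  It remains `pair2 l (t_x ⊗ Z) = 0`.  LPE for `J = delE H a x`, `H = contr G a b`, the
edge `ax`: there is `w ∈ Z_2(H)` with row `w (ax) · = Z` (`del H {a, x} = del G {a, b, x}`; `VS J = VS H` by S3F.vsE).  Let `z₀`, `z₁` be its lifts (CTZ.up) to `sel G a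
b ∅` and `sel G a b {x}`, both killed.  `z₀ + z₁` and `t_x ⊗ Z` agree on all pairs of edges `≠ ab` (`z₀ (ax) f = Z f = z₁ (bx) f`,
`z₀ (bx) · = 0 = z₁ (ax) ·`, the other rows are equal in `z₀` and `z₁` and `0` in the torus), and `l` sees only these. -/
def SpecK2M : Prop := ∀ {α : Type} [Fintype α] [DecidableEq α] {G : SimpleGraph α} {a b : α}, G.Adj a b →
  KConn 3 (contr G a b) → KZ (contr G a b) → (∀ x, G.Adj a x → G.Adj b x → S3S (delE (contr G a b) a x)) →
  ∀ l : α → α → α → α → ZMod 2,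
  (∀ s t u v, l s t u v ≠ 0 → s(s, t) ≠ s(a, b) ∧ s(u, v) ≠ s(a, b)) →
  (∃ p : Chain α → ZMod 2, DegLE 3 p ∧ p 0 = 0 ∧ ∀ C, CycM G a b C → cohs l C = p (chi C)) →
  ∀ z, IsZ2 G z → (∀ e f, a ∈ e → b ∈ f → e ≠ s(a, b) → f ≠ s(a, b) → z e f = 0) →
    pair2 l z = 0

/-- **EXM** (from POL, VRW, NOR, MUE, COB, VRS, K2M, PMB, I3K; 250 lines).  THEOREM EXM (one contraction).  `φ = p + cohs l` on the cycles of `G`.
(1) One may assume that `l` has no terms with the edge `ab`: on cycles `coh a b c d = Σ_{x ≠ b} coh a x c d` + cubic (VRW) if `a ∉ {c, d}`, and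
if `a ∈ {c, d}` it is polynomial; `coh b a c d`, `coh c d a b` by PC2.  (2) On `CycM` `cohs l = p` is cubic; K2M: `pair2 l` kills the `z ∈
Z_2(G)` with `z = 0` on `A × B` (`A`, `B` = edges `≠ ab` at `a`, `b`).  (3) COB with `nb e f := e ∈ A ∧ f ∈ B` gives `m`, `ν`; VRS gives `l'`; `l'' x a b y := ν (ax) (by) + ν (by) (ax)` for `ax ∈ A`, `by ∈ B`
disjoint, `0` otherwise; `sym8 (l + l' + l'') = 0` on the pairs of disjoint edges of `G`, NOR: `cohs l` = cubic + `cohs l''` on all cycles of `G`.  (4) With `gam x y C = x_{ax} x_{by} + coh x a b y` (`= 0` on `CycM`: a cycle through `ax`, `by` in `CycM` contains `ab`):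
`φ = p'' (chi C) + Σ ν x y gam x y C`, `p''` cubic, zero on `CycM`; PMP (PMB, I3K). -/
def SpecEXM : Prop := ∀ {α : Type} [Fintype α] [DecidableEq α] {G : SimpleGraph α} {a b : α}, G.Adj a b →
  KConn 3 (contr G a b) → KZ (contr G a b) →
  (∀ x, G.Adj a x → G.Adj b x → S3S (delE (contr G a b) a x)) →
  ∀ φ : Finset (Sym2 α) → ZMod 2, InF G φ → (∀ C, CycM G a b C → φ C = 0) →
  ∃ (ν : α → α → ZMod 2) (ρ : Chain α → ZMod 2) (l : α → Chain α),
    (∀ x y, ν x y ≠ 0 → G.Adj a x ∧ G.Adj b y ∧ x ≠ y ∧ x ≠ b ∧ y ≠ a) ∧ ρ ∈ TR (sab G a b) ∧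
    (∀ x e, a ∈ e ∨ b ∈ e → l x e = 0) ∧
    ∀ C, IsCyc G C → φ C = ∑ x, ∑ y, ν x y * (chi C s(a, x) * chi C s(b, y) + coh x a b y C) +
      ρ (chi C) + cnp G a b l (chi C)

/-- **INJ** (from POL, I3K, DIR, S3F, COB, LPE, PC2, VRW; 220 lines).  `G` 3-connected, `ab` an edge, `J = delE G a b` S3S, `KZ G`; `q` of
degree `≤ 2`, `q (chi P) + Σ μ c d dirn a c d P = 0` on all `a`-`b` paths of `J`, `μ` supported on the edges of `J - a - b`.  Then
`μ` is a sum of vertex stars up to orientation, and after subtracting them `q` is local at `a` and `b`.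
Proof.  `φ C = x_{ab} q + Σ_{c,d} μ c d coh a' ..`: with `C = ab + P` `dirn a c d P = coh b a c d C`.  `φ = 0` on all cycles of `G`; so
`Σ μ c d coh b a c d` is cubic on cycles, `KZ G`: `Σ μ c d z (ab) (cd) = 0` for `z ∈ Z_2(G)`; by LPE the rows `z (ab) ·` fill `Z1 (del G {a, b})`,
so (PC2.cut) `μ c d + μ d c = s c + s d`.  On `a`-`b` paths `dirn a c d + dirn a d c = x_{cd}` and for `w ≠ a, b`: `Σ_x dirn a w x = [w ∈ P]
= Q_w (chi P)`, `Σ_{x ≠ a, b} dirn a w x = Q_w (chi P) + x_{wb}` (`Q_w` = sum over the pairs of edges of `J` at `w`).  Hence `Σ μ c d dirn a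
c d P = Σ_{w ≠ a, b} s w (Q_w (chi P) + x_{wb}) + Σ_{edges {c, d} of J - a - b} …`: precisely `Σ_{c,d} μ c d dirn a c d P = Σ_{w ≠ a,b} s w (Q_w + x_{wb}) + λ
(chi P)`, `λ` linear.  So `q₁ = q + λ + Σ_{w ≠ a, b} s w (Q_w + x_{wb})` has degree `≤ 2` and is zero on the `a`-`b` paths; `x_{ab} q₁` is zero on all
cycles of `G`: I3K: `c(ab) q₁ (c) = Σ_v r v c` on `Z1 G`; on `Z1 J` the sum is `0`, DIR for `J` (S3F.dhE; drop the products with
`ab`): so `r v` vanishes on even traces without `ab`; for `v ≠ a, b` `r v = 0` on even traces; for `v = a`: `r a = r₀ +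
c(ab) ρ_a` with `r₀ ∈ TR (star J a)` zero on even traces, `ρ_a ∈ PR (star J a)`; for `c ∈ Z1 G` with `c(ab) = 1` the trace on `star J a` is
odd; let `k ∈ star J a`: `r₀ (c + δ_k) = 0`, and `r₀ c + r₀ (c + δ_k) = Σ κ_{efk} c e c f ∈ PR (star J a)`.  Hence `q₁ = ρ + ρ'` on the
`a`-`b` chains of `J` (`c ↦ c + δ_{ab}`). -/
def SpecINJ : Prop := ∀ {α : Type} [Fintype α] [DecidableEq α] {G : SimpleGraph α} {a b : α}, G.Adj a b →
  KConn 3 G → S3S (delE G a b) → KZ G → ∀ (q : Chain α → ZMod 2) (μ : α → α → ZMod 2), DegLE 2 q →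
  (∀ c d, μ c d ≠ 0 → (del G {a, b}).Adj c d) →
  (∀ P, IsPth (delE G a b) a b P → q (chi P) + ∑ c, ∑ d, μ c d * dirn a c d P = 0) →
  ∃ (s : α → ZMod 2), (∀ c d, (del G {a, b}).Adj c d → μ c d + μ d c = s c + s d) ∧
    ∃ (Q : α → Chain α → ZMod 2) (l : Chain α) (ρ ρ' : Chain α → ZMod 2),
      (∀ w, Q w ∈ PR (star (delE G a b) w)) ∧
      (∀ w P, IsPth (delE G a b) a b P → w ≠ a → w ≠ b → Q w (chi P) = if w ∈ vs P then 1 else 0) ∧
      ρ ∈ PR (star (delE G a b) a) ∧ ρ' ∈ PR (star (delE G a b) b) ∧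
      ∀ c : Chain α, (∀ e, c e ≠ 0 → e ∈ (delE G a b).edgeSet) →
        (∀ v, bdy c v = if v = a ∨ v = b then 1 else 0) →
        q c = ρ c + ρ' c + ∑ e, l e * c e + ∑ w, s w * Q w c

/-! ## F. Homology of the unordered deleted product (Theorem H, L, L') -/

/-- **H1L** (200 lines).  `al` a cocycle, `ζ` a cycle.  `adj`: `a ~ b`, both not on `ζ`: `Σ_{h ∈ ζ} (al a h + al b h) = Σ_{h = uv ∈ ζ} (al u ab +
al v ab) = 0` (every vertex of `ζ` occurs twice).  `rch`: along a walk.  `rot`: for `c ∈ ζ` with `ζ`-neighbours `p`, `q` put `R_c =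
Σ_{h ∈ ζ, c ∉ h} al c h + al p cq + al q cp`.  For consecutive `p, c, c', q'` on `ζ`: `R_c + R_c' = Σ_{h ∌ c, c'} (al c h + al c' h) + al c c'q' + al c' pc
+ (al p cc' + al c' pc) + (al c c'q' + al q' cc') = (al q' cc' + al p cc') + al p cc' + al q' cc' = 0`, because the edges `h ∌ c, c'` form the
path of `ζ` from `q'` to `p` (inner vertices occur twice).  So `R` is constant on `ζ`.  If `x ∉ ζ`, `x ~ c`: `csum al x ζ = Σ_{h ∌ c}
(al c h) + al p xc + al q xc + al x cp + al x cq` (cocycle condition for `xc`, `h`, summed over the path from `p` to `q`), and this is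
`R_c + sv al c x p q`. -/
structure SpecH1L : Prop where
  rch : ∀ {α : Type} [Fintype α] [DecidableEq α] {J : SimpleGraph α} {al : α → Sym2 α → ZMod 2}
    {ζ : Finset (Sym2 α)} {a b : α}, IsCoc J al → IsCyc J ζ → a ∉ vs ζ → b ∉ vs ζ →
    (del J (vs ζ)).Reachable a b → csum al a ζ = csum al b ζ
  rot : ∀ {α : Type} [Fintype α] [DecidableEq α] {J : SimpleGraph α} {al : α → Sym2 α → ZMod 2}
    {ζ : Finset (Sym2 α)}, IsCoc J al → IsCyc J ζ → ∃ R : ZMod 2,
    (∀ c p q, s(c, p) ∈ ζ → s(c, q) ∈ ζ → p ≠ q →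
      R = ∑ h ∈ ζ.filter (fun h => c ∉ h), al c h + al p s(c, q) + al q s(c, p)) ∧
    ∀ x c p q, x ∉ vs ζ → J.Adj x c → s(c, p) ∈ ζ → s(c, q) ∈ ζ → p ≠ q →
      csum al x ζ = R + sv al c x p q

/-- **H4A** (from MENG.lean; 120 lines).  `J` S3S, `c` with different neighbours `x, y, z, w`: two disjoint paths of `J - c` from `{x, y}` to `{z, w}`.
Menger: otherwise a vertex `s` separates `{x, y}` from `{z, w}` in `J - c`, so `J - {c, s}` is disconnected; S3S: `N(v) = {c, s}`, `c, s`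
not adjacent, `J - {c, s, v}` connected: one side of `J - {c, s}` is `{v}`, say `{x, y} - s = {v}`; so one of `x`, `y` is `s`, but `c ~ s`:
contradiction. -/
def SpecH4A : Prop := ∀ {α : Type} [Fintype α] [DecidableEq α] (J : SimpleGraph α), S3S J →
  ∀ c x y z w, J.Adj c x → J.Adj c y → J.Adj c z → J.Adj c w → x ≠ y → z ≠ w → x ≠ z → x ≠ w →
    y ≠ z → y ≠ w →
    (∃ P Q, IsPth (del J {c}) x z P ∧ IsPth (del J {c}) y w Q ∧ Disjoint (vs P) (vs Q)) ∨
    ∃ P Q, IsPth (del J {c}) x w P ∧ IsPth (del J {c}) y z Q ∧ Disjoint (vs P) (vs Q)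

/-- **H4B** (from MENG.lean kpaths, kpaths_adj; 200 lines).  `J` S3S, `c ≠ c'` with at least three neighbours: there are three internally disjoint `c`-`c'` paths.
Not adjacent: no set `S` of `≤ 2` vertices separates `c` from `c'` (KConn 2; for `S = {s, t}` S3S gives `v` with `N(v) = {s, t}` and one side is
`{v}`, so `c` or `c'` has only two neighbours).  Adjacent: the edge `cc'` and two paths in `J - cc'`: a vertex `s` separating `c` and
`c'` in `J - cc'`, sides `A ∋ c`, `B ∋ c'`: if `A ≠ {c}` then `{s, c}` separates `A - c` from `B` in `J`, S3S: one of them is a vertex `v` with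
`N(v) = {s, c}`, `s`, `c` not adjacent; `B = {v} = {c'}` is impossible (degree `≥ 3`), so `A = {c, v}` and `N(c) ⊆ {v, s, c'}`, but `c` is not
adjacent to `s`: only two neighbours.  Same for `B`; if `A = {c}`, `B = {c'}`: `N(c) ⊆ {s, c'}`.  At most one of the three paths is an
edge; let `P₃` have an inner vertex, `ζ = P₁ ∪ P₂`, `x`, `x'` the second and last but one vertex of `P₃`. -/
def SpecH4B : Prop := ∀ {α : Type} [Fintype α] [DecidableEq α] (J : SimpleGraph α), S3S J →
  ∀ c c', c ≠ c' → (∃ N : Finset α, N.card = 3 ∧ ∀ x ∈ N, J.Adj c x) →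
    (∃ N : Finset α, N.card = 3 ∧ ∀ x ∈ N, J.Adj c' x) →
    ∃ ζ x x', IsCyc J ζ ∧ c ∈ vs ζ ∧ c' ∈ vs ζ ∧ J.Adj c x ∧ J.Adj c' x' ∧ x ∉ vs ζ ∧ x' ∉ vs ζ ∧
      (del J (vs ζ)).Reachable x x'

/-- **HST** (from H1L, H4A, H4B; 180 lines).  All `sv al c x y z` (`x, y, z` different neighbours of `c`) are equal.  `sv` is symmetric in `x, y,
z`, and the sum of the four `sv al c` over the triples of `{x, y, z, w}` is `0` (not needed).  Same `c`: if `J - c` has disjoint paths
`P : x → y` and `Q : z → w` then `ζ = cx + P + yc` is a cycle, `z` and `w` are connected off `ζ`: `csum al z ζ = csum al w ζ`, so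
(H1L.rot) `sv al c z x y = sv al c w x y`; exchanging the roles `sv al c x z w = sv al c y z w`.  By H4A for the partitions
`xy|zw`, `xz|yw`, `xw|yz` at least two of the three pairings occur, and then all four triples have the same value.  Triples of
neighbours of `c` are connected by exchanging one element at a time.  Different `c, c'`: H4B: `csum al x ζ = csum al x' ζ`, so `sv al
c x p q = sv al c' x' p' q'`. -/
def SpecHST : Prop := ∀ {α : Type} [Fintype α] [DecidableEq α] (J : SimpleGraph α), S3S J →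
  ∀ al : α → Sym2 α → ZMod 2, IsCoc J al → ∃ s : ZMod 2, ∀ c x y z, J.Adj c x → J.Adj c y → J.Adj c z →
    x ≠ y → x ≠ z → y ≠ z → sv al c x y z = s

/-- **THL** (from PC2; 150 lines).  Any graph.  A function on cycles which is additive on the triples of cycles `ζ₁, ζ₂, ζ₃` with `chi ζ₁ + chi ζ₂
+ chi ζ₃ = 0` and a vertex `x ∈ ζ₁`, `x ∉ ζ₃` is linear.  Induction on the number of edges (of a subgraph `J'`): add an edge `e = ab` to
`J'`.  If `J'` has no `a`-`b` path nothing changes.  Otherwise fix one, `Q₀`, and put `η e := xi (e + Q₀) + η (Q₀)`.  A cycle through `e` is `e +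
Q`, `Q` an `a`-`b` path of `J'`; `bead_moves` joins `Q₀` and `Q`; for one move (`Q = A ∪ R ∪ D`, `Q' = A ∪ B ∪ D`, `Z = R ∪ B`): `R`, `B`
are not both a single edge, so one of them has an inner vertex, it is on exactly one of `Q`, `Q'`, and on `Z`: apply the hypothesis to
`e + Q`, `e + Q'`, `Z` in a suitable order: `xi (e + Q') = xi (e + Q) + xi Z = xi (e + Q) + η Z`. -/
def SpecTHL : Prop := ∀ {α : Type} [Fintype α] [DecidableEq α] (J : SimpleGraph α)
  (xi : Finset (Sym2 α) → ZMod 2), (∀ ζ₁ ζ₂ ζ₃, IsCyc J ζ₁ → IsCyc J ζ₂ → IsCyc J ζ₃ →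
    chi ζ₁ + chi ζ₂ + chi ζ₃ = 0 → (∃ x ∈ vs ζ₁, x ∉ vs ζ₃) → xi ζ₁ + xi ζ₂ + xi ζ₃ = 0) →
  ∃ η : Chain α, ∀ ζ, IsCyc J ζ → xi ζ = ∑ h ∈ ζ, η h

/-- **HTH** (from H1L, HST, THL, S3F; 150 lines).  THEOREM H.  Let `R ζ` be as in H1L, `s` as in HST, `xi ζ := R ζ + s`.  (5) `csum al w ζ = xi ζ` for
every `w ∈ VS J` not on `ζ`: a path from `w` to `ζ` (`J` is connected) gives `x ∉ ζ` adjacent to `c ∈ ζ`, connected to `w` off `ζ`
(`.rch`, `.rot`).  (6) `ζ₁ + ζ₂ + ζ₃ = 0`, `x ∈ ζ₁`, `x ∉ ζ₃`: `ζ₁`, `ζ₂` have the same edges `xp`, `xq` at `x`, so `R ζ₁ + R ζ₂ = Σ_{h ∈ ζ₃} al x h =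
csum al x ζ₃ = xi ζ₃`.  THL.  `Z1 (del J {w})` is spanned by cycles. -/
def SpecHTH : Prop := ∀ {α : Type} [Fintype α] [DecidableEq α] (J : SimpleGraph α), S3S J →
  ∀ al : α → Sym2 α → ZMod 2, IsCoc J al → ∃ η : Chain α, ∀ w ∈ VS J, ∀ Z ∈ Z1 (del J {w}),
    ∑ e, al w e * Z e = ∑ e, η e * Z e

/-- **LEX** (from HTH; 120 lines).  LEMMA L.  Duality: the linear map `∂` from the symmetric functions `z` on pairs of disjoint edges of
`J` to functions on the cells `(w, e)`, `w ∉ e ∈ J`, `(∂z) w e = Σ_{f ∋ w} z e f`.  A linear functional `al` which vanishes on the image is a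
cocycle (evaluate at the function of the pair `{ab, cd}`), and then `Σ_w Σ_e al w e λ w e = Σ_w Σ_e η e λ w e = 0` by HTH.  So `λ` is
in the image. -/
def SpecLEX : Prop := ∀ {α : Type} [Fintype α] [DecidableEq α] (J : SimpleGraph α), S3S J →
  ∀ la : α → Chain α, (∀ w, la w ∈ Z1 (del J {w})) → (∀ w ∉ VS J, la w = 0) → ∑ w, la w = 0 →
  ∃ z : Sym2 α → Sym2 α → ZMod 2, (∀ e f, z e f = z f e) ∧
    (∀ e f, z e f ≠ 0 → e ∈ J.edgeSet ∧ f ∈ J.edgeSet ∧ Dj e f) ∧
    ∀ w e, w ∉ e → ∑ f ∈ univ.filter (fun f => w ∈ f), z e f = la w e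

/-- **LPE** (from LEX; 150 lines).  COROLLARY L'.  `edge`: LEX with `la a = la b = Z`, `z := z_J + ab × Z`.  `star`: `z := z_J + Σ_w uw × la w` (rows `z
(uw) f = la w f = z f (uw)`, `z (uw) (uw') = 0`); boundary of the row `f ∈ J` at `w`: `la w f + la w f`, at `u`: `Σ_w la w f = 0`; of the row `uw`
at `v ≠ u, w`: `bdy (la w) v = 0`. -/
structure SpecLPE : Prop where
  edge : ∀ {α : Type} [Fintype α] [DecidableEq α] {G : SimpleGraph α} {a b : α}, G.Adj a b →
    S3S (delE G a b) → a ∈ VS (delE G a b) → b ∈ VS (delE G a b) → ∀ Z ∈ Z1 (del G {a, b}),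
    ∃ z, IsZ2 G z ∧ ∀ f, z s(a, b) f = Z f
  star : ∀ {α : Type} [Fintype α] [DecidableEq α] {G : SimpleGraph α} {u : α}, S3S (del G {u}) →
    ∀ la : α → Chain α, (∀ w, la w ∈ Z1 (del G {u, w})) →
    (∀ w, la w ≠ 0 → G.Adj u w ∧ w ∈ VS (del G {u})) → ∑ w, la w = 0 →
    ∃ z, IsZ2 G z ∧ ∀ w f, G.Adj u w → z s(u, w) f = la w f

/-! ## G. The affine lemma RT_1 -/

/-- a blob: `X ∋ s` with a spanning tree `T ≤ G` -/
structure Blob {α : Type} (G : SimpleGraph α) (s : α) (X : Finset α) (T : SimpleGraph α) : Prop where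
  sX : s ∈ X
  sub : T ≤ G
  tree : TreeOn T X

/-- an `X`-simple path from `s` to `t`: a tree path from `s` to `x ∈ X`, an edge `xy`, a path of `G - X` from `y` to `t` -/
def XPth {α : Type} [Fintype α] [DecidableEq α] (G : SimpleGraph α) (s t : α) (X : Finset α) (T : SimpleGraph α)
    (P : Finset (Sym2 α)) : Prop :=
  ∃ x ∈ X, ∃ y, ∃ P', y ∉ X ∧ G.Adj x y ∧ IsPth (del G X) y t P' ∧ P = tp T s x ∪ {s(x, y)} ∪ P'

/-- **RTW** (from TRE, DCB; 250 lines).  Two kinds of chains.  `X`, `T` a blob, `x₀, x ∈ X`, `t' ∉ X`, `G.Adj x₀ t'`.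
`whe` (Wheatstone bridge and a stem): `A` a path from `x` to `z`, `B` from `z` to `t'`, `ρ` from `z` to `y`, `P` from `t'` to `y`, `Q` from `y` to `t`
(`Q = ∅` if `y = t`); `z, t', y` different; the paths meet only in common ends, and `A` meets `X` only in `x`, the others do not meet
`X`.  Trees: `X 0 = X ∪` (vertices of `A` without `z`), `X 1 =` vertices of `B` and of `ρ` without `y`, `X 2 =` vertices of `P` without
`t'` and of `Q`; beads: `x₀t'` and the last edge of `A`; the first edge of `P` and the last edge of `ρ`.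
`two` (two beads): `A` a path from `x` to `t'`, not the edge `x₀t'`; `C` from `t'` to `u`, `R ≠ R'` from `u` to `w`, `D` from `w` to `t`.
Trees: `X 0 = X ∪ A - t'`, `X 1 = C ∪ (R - w) ∪ (R' - w)`, `X 2 = D`; beads: `x₀t'`, the last edge of `A`; the last edges of `R`, `R'`. -/
structure SpecRTW : Prop where
  whe : ∀ {α : Type} [Fintype α] [DecidableEq α] {G : SimpleGraph α} {s t : α} {X : Finset α}
    {T : SimpleGraph α}, Blob G s X T → ∀ x₀ ∈ X, ∀ x ∈ X, ∀ t' z y A B ρ P Q, t' ∉ X → z ∉ X → y ∉ X →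
    G.Adj x₀ t' → z ≠ t' → z ≠ y → y ≠ t' → IsPth G x z A → IsPth G z t' B → IsPth G z y ρ →
    IsPth G t' y P → IsPth G y t Q → t ∉ X → t ≠ t' → t ∉ vs A → t ∉ vs B → (t ∈ vs ρ → t = y) →
    (t ∈ vs P → t = y) → vs A ∩ X ⊆ {x} → Disjoint (vs B) X → Disjoint (vs ρ) X →
    Disjoint (vs P) X → Disjoint (vs Q) X → vs A ∩ vs B ⊆ {z} → vs A ∩ vs ρ ⊆ {z} →
    Disjoint (vs A) (vs P) → Disjoint (vs A) (vs Q) → vs B ∩ vs ρ ⊆ {z} → vs B ∩ vs P ⊆ {t'} →
    Disjoint (vs B) (vs Q) → vs ρ ∩ vs P ⊆ {y} → vs ρ ∩ vs Q ⊆ {y} → vs P ∩ vs Q ⊆ {y} →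
    ∃ K : Ch2 G s t, X ⊆ K.X 0 ∧ T ≤ K.T 0 ∧
      K.pth ![false, false] = tp T s x₀ ∪ {s(x₀, t')} ∪ P ∪ Q ∧
      K.pth ![true, false] = tp T s x ∪ A ∪ B ∪ P ∪ Q ∧
      K.pth ![true, true] = tp T s x ∪ A ∪ ρ ∪ Q ∧
      K.pth ![false, true] = tp T s x₀ ∪ {s(x₀, t')} ∪ B ∪ ρ ∪ Q
  two : ∀ {α : Type} [Fintype α] [DecidableEq α] {G : SimpleGraph α} {s t : α} {X : Finset α}
    {T : SimpleGraph α}, Blob G s X T → ∀ x₀ ∈ X, ∀ x ∈ X, ∀ t' u w A C R R' D, t' ∉ X →
    G.Adj x₀ t' → IsPth G x t' A → A ≠ {s(x₀, t')} → IsPth G t' u C → IsPth G u w R →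
    IsPth G u w R' → R ≠ R' → u ≠ w → IsPth G w t D → vs A ∩ X ⊆ {x} → Disjoint (vs C) X →
    Disjoint (vs R) X → Disjoint (vs R') X → Disjoint (vs D) X → t ∉ X → vs A ∩ (insert t' (vs C)) ⊆ {t'} →
    vs A ∩ vs R ⊆ {t'} → vs A ∩ vs R' ⊆ {t'} → Disjoint (vs A) (insert t (vs D)) →
    (insert t' (vs C)) ∩ vs R ⊆ {u} → (insert t' (vs C)) ∩ vs R' ⊆ {u} →
    Disjoint (insert t' (vs C)) (insert t (vs D)) →
    vs R ∩ vs R' ⊆ {u, w} → vs R ∩ (insert t (vs D)) ⊆ {w} → vs R' ∩ (insert t (vs D)) ⊆ {w} →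
    ∃ K : Ch2 G s t, X ⊆ K.X 0 ∧ T ≤ K.T 0 ∧
      K.pth ![false, false] = tp T s x₀ ∪ {s(x₀, t')} ∪ C ∪ R ∪ D ∧
      K.pth ![true, false] = tp T s x ∪ A ∪ C ∪ R ∪ D ∧
      K.pth ![false, true] = tp T s x₀ ∪ {s(x₀, t')} ∪ C ∪ R' ∪ D ∧
      K.pth ![true, true] = tp T s x ∪ A ∪ C ∪ R' ∪ D

/-- **RTI** (from TRE, DCB, RTW, PC2; 400 lines).  RT_1 with a blob.  Induction on (number of edges of `G`, number of vertices outside
`X`), lexicographic.  If no edge from `X` to a vertex `≠ t` outside exists, the `X`-simple paths are `tp T s x + xt`: put `w (xt)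
:= φ`, all other `w := 0`.  Otherwise let `x₀ ∈ X`, `t' ∉ X`, `t' ≠ t`, `e = x₀t'` an edge, `X⁺ = X + t'`, `T⁺ = T + e`: a blob; `X⁺`-simple paths
are `X`-simple (NON-CHORDAL: avoiding `t'`, or with first edge `e` outside `X`), chains containing `(X⁺, T⁺)` contain `(X, T)`.  By
induction `φ` is affine on the non-chordal paths; subtract the affine function (DCB.aff): `φ = 0` on them.  CHORDAL paths: `tp T s x ∪ P₁
∪ P₂`, `P₁` a path from `x` to `t'`, meeting `X` only in `x`, `P₁ ≠ e`, `P₂` a path of `G - X` from `t'` to `t`, `P₁ ∩ P₂ = {t'}`.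
(i) If an inner vertex of `P₁` is connected to `t` in `G - X⁺` then `φ = 0`: a path from an inner vertex of `P₁` to `P₂ - t'` in `G - X⁺`; take the
last vertex `z` on `P₁` and then the first vertex `y` on `P₂`: `ρ`; RTW.whe with `A = P₁[x, z]`, `B = P₁[z, t']`, `P = P₂[t', y]`, `Q =
P₂[y, t]`: three of the four paths are non-chordal, so `φ = 0` on the fourth.
(ii) Otherwise `P₁` has no inner vertex, or they lie in one component `K` of `G - X⁺`, `t ∉ K`; `P₂ - t'` lies in the component of `t`.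
Then `φ` depends only on `P₁`: for two `t'`-`t` paths `P₂`, `P₂'` of `G - X` `bead_moves` in `G - X`, each move by RTW.two (`A = P₁`): the
two paths with `e` are non-chordal.  Put `ψ P₁ := φ (tp T s x ∪ P₁ ∪ P₂⁰)` with a fixed `P₂⁰` (if there is none there are no chordal
paths).  For a component `K` of `G - X⁺`, `t ∉ K`, let `G_K` be the graph of the edges of `G` inside `X ∪ K ∪ {t'}` which are not edges
between `X` and `t'`: it has fewer edges than `G`, `(X, T)` is a blob of `G_K`, and its `X`-simple `s`-`t'` paths are the paths of type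
(ii) in `K`.  A chain `L` of `G_K` from `s` to `t'` containing `(X, T)` gives a chain of `G` from `s` to `t`: replace `L.X 2`, `L.T 2` by `L.X 2 ∪ vs
P₂⁰`, `L.T 2 ⊔ P₂⁰` (TRE.glue).  So by induction `ψ` is affine on these paths: `ψ = w_K⁰ + Σ_{h} w_K h`.  Put `w' (xy) := w_K (xy) + w_K⁰ + Σ_{h ∈ tp T s x} w_K
h` for the edges from `x ∈ X` to `y ∈ K`, `w' h := w_K h` for the edges with an end in `K` and none in `X`, `w' (xt') := ψ` for the edges
`xt' ≠ e`, `x ∈ X`, and `w' := 0` for all other edges.  `Σ_{h ∈ P} w' h = φ P` for all `X`-simple paths: non-chordal paths contain no edge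
with an end in such a `K` and no `xt' ≠ e`; paths of type (i): same; paths of type (ii): exactly the edges of `P₁`. -/
def SpecRTI : Prop := ∀ {α : Type} [Fintype α] [DecidableEq α] (G : SimpleGraph α) (s t : α) (X : Finset α)
  (T : SimpleGraph α), Blob G s X T → t ∉ X → ∀ φ : Finset (Sym2 α) → ZMod 2,
  (∀ K : Ch2 G s t, X ⊆ K.X 0 → T ≤ K.T 0 → ∑ e : Fin 2 → Bool, φ (K.pth e) = 0) →
  ∃ (w0 : ZMod 2) (w : Chain α), ∀ P, XPth G s t X T P → φ P = w0 + ∑ h ∈ P, w h

/-- **RT1** (from RTI, TRE; 30 lines).  `X = {s}`, `T = ⊥`. -/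
def SpecRT1 : Prop := ∀ {α : Type} [Fintype α] [DecidableEq α] (G : SimpleGraph α) (s t : α), s ≠ t →
  ∀ φ : Finset (Sym2 α) → ZMod 2, (∀ K : Ch2 G s t, ∑ e : Fin 2 → Bool, φ (K.pth e) = 0) →
  ∃ (w0 : ZMod 2) (w : Chain α), ∀ P, IsPth G s t P → φ P = w0 + ∑ h ∈ P, w h

/-! ## H. D_4 minors from two chains; THEOREM ME -/

/-- **D4G** (from TRE, DCB; 200 lines).  Two chains from `s` to `t` which meet only in `s`, `t` form a `D_4` minor: trees `K.T 0 ⊔ L.T 0`, `K.T 1`, `K.T 2 ⊔ L.T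
2`, `L.T 1`; edges `K.p 0, K.q 0 | K.p 1, K.q 1 | L.q 1, L.p 1 | L.q 0, L.p 0`. -/
def SpecD4G : Prop := ∀ {α : Type} [Fintype α] [DecidableEq α] {G : SimpleGraph α} {s t : α}
  (K L : Ch2 G s t), K.X 0 ∩ L.X 0 = {s} → K.X 2 ∩ L.X 2 = {t} →
  (∀ i j, ¬ (i = 0 ∧ j = 0) → ¬ (i = 2 ∧ j = 2) → Disjoint (K.X i) (L.X j)) →
  ∃ D : D4M G, ∀ e : Fin 4 → Bool, D.cyc e = K.pth ![e 0, e 1] ∪ L.pth ![e 3, e 2]

/-- **D4C** (from D4G, TRE, DCB; 120 lines).  `a ~ b`, `x ≠ y` common neighbours, `K` a chain of `G - a - b` from `x` to `y`.  The second chain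
is `{x}`, `{a, b}` with the edge `ab`, `{y}`: beads `xa`, `xb` and `ay`, `by`. -/
def SpecD4C : Prop := ∀ {α : Type} [Fintype α] [DecidableEq α] {G : SimpleGraph α} {a b x y : α}, G.Adj a b →
  G.Adj a x → G.Adj b x → G.Adj a y → G.Adj b y → x ≠ y → ∀ K : Ch2 (del G {a, b}) x y,
  ∃ D : D4M G, ∀ e : Fin 4 → Bool, D.cyc e = K.pth ![e 0, e 1] ∪
    {s(if e 3 then b else a, x), s(if e 2 then b else a, y)} ∪ if e 3 = e 2 then ∅ else {s(a, b)}

/-- **MEA** (from CTA, CTD, CTF, SEF; 200 lines).  Base and transfer.  `f` `D_4`-even on `G`, `U (contr G a b)`: for every `K` there is `φ ∈ F(G)`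
with `f = φ` on the cycles of `CycM (sel G a b K)`.  `f' D := f C` for corresponding cycles is `D_4`-even on `H = contr G a b` (CTD
for `sel G a b K ≤ G`; a `D_4` minor of `sel G a b K` is one of `G`), so it is in `F(H)`; CTF.up. -/
def SpecMEA : Prop := ∀ {α : Type} [Fintype α] [DecidableEq α] {G : SimpleGraph α} {a b : α}, G.Adj a b →
  U (contr G a b) → ∀ f, D4even G f → ∀ K, ∃ φ, InF G φ ∧ ∀ C, CycM (sel G a b K) a b C → f C = φ C

/-- **MEB** (from MEA, EXD, CTA, CTF, SEF; 250 lines).  STEP 1.  After subtracting the function of MEA for `K = ∅`, `f = 0` on the cycles of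
`CycM (sel G a b ∅)`.  Let `x` be a common neighbour, `f'` the function on the cycles of `H` given by `f` on `CycM (sel G a b {x})`: it is
in `F(H)` and zero on the cycles of `delE H a x` (these lift to cycles without `ax` and `bx`, which are in `sel G a b ∅`).
EXD for `delE H a x ≤ H`: `f' = chi(ax) q + cohs μ`, all terms contain the edge `ax` of `H`.  Its lift `φ_x ∈ F(G)` as in CTF.up
(polynomial `c(bx) q (prj c)`, coherences with the edge `bx`) equals `f` on the cycles of `CycM (sel G a b {x})` and is `0` on all cycles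
without `bx`.  Subtract all `φ_x`, and multiples of `x_{ax} x_{bx}` to make `f` zero on the triangles `abx`: now `f = 0` on all cycles in
`CycM` with at most one edge `bx`, `x` a common neighbour. -/
def SpecMEB : Prop := ∀ {α : Type} [Fintype α] [DecidableEq α] {G : SimpleGraph α} {a b : α}, G.Adj a b →
  KConn 3 (contr G a b) → U (contr G a b) →
  (∀ x, G.Adj a x → G.Adj b x → S3S (delE (contr G a b) a x) ∧ KZ (delE (contr G a b) a x)) →
  ∀ f, D4even G f → ∃ φ, InF G φ ∧ ∀ C, CycM G a b C →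
    (∀ x y, x ∈ cmn G a b → y ∈ cmn G a b → s(b, x) ∈ C → s(b, y) ∈ C → x = y) → f C = φ C

/-- **ME** (from MEB, D4C, RT1, FEV, PC2, POL; 200 lines).  THEOREM ME.  Replace `f` by `f + φ` (still `D_4`-even: FEV).  STEP 2.
A cycle in `CycM` with two edges `bx`, `by` is `bx + by + P`, `P` an `x`-`y` path of `G - a - b`; let `ψ P = f (..)`.  For a chain `K` of `G - a -
b` from `x` to `y` take the `D_4` minor of D4C: the 16 cycles are in `CycM`; `f = 0` on those with `e 3` or `e 2` false (at most one edge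
`bz`); so the sum of `ψ` over the four paths of `K` is `0`; RT1: `ψ P = w0 + Σ_{h ∈ P} w h`.  The function `x_{bx} x_{by} (w0 + Σ_h w h x_h)`, `h` in
`G - a - b`, is in `F(G)`, equal to `f` on these cycles and `0` on all other cycles of `CycM`.  Sum over the pairs `{x, y}`. -/
def SpecME : Prop := ∀ {α : Type} [Fintype α] [DecidableEq α] {G : SimpleGraph α} {a b : α}, G.Adj a b →
  KConn 3 (contr G a b) → U (contr G a b) →
  (∀ x, G.Adj a x → G.Adj b x → S3S (delE (contr G a b) a x) ∧ KZ (delE (contr G a b) a x)) →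
  ∀ f, D4even G f → ∃ φ, InF G φ ∧ ∀ C, CycM G a b C → f C = φ C

/-- **FEV** (from DCB, TRE, POL, PC2; 250 lines).  Elements of `F(G)` are `D_4`-even.  Polynomials: by DCB.cyc and TRE.four
`chi (D.cyc e) = c₀ + Σ_{i, e i = true} z_i` with `z_i` the chain of the `i`-th bead (two edges and two tree paths), so
the sum over the 16 cycles is a fourth difference (POL.three).  Coherence: orient `C = D.cyc e` in the direction `X 0 → X 1 → X 2 → X 3 → X 0`
and let `f_{uv}(e) = 1` iff `C` passes from `u` to `v`.  For the edge `p i b - q i b`: `f_{pq} = [e i = b]`, `f_{qp} = 0`.  For an edge `uv` of `T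
(i+1)`, let `σ` be the indicator of the part of `T (i+1) - uv` containing `v`: `f_{uv} = (1 + σ (q i (e i))) σ (p (i+1) (e (i+1)))`,
`x_{uv} = f_{uv} + f_{vu} = σ (q i (e i)) + σ (p (i+1) (e (i+1)))`.  All other edges are in no `D.cyc e`.  For different edges `coh u v c d C = f_{uv} f_{cd}
+ f_{vu} f_{dc} = x x' + x f_{cd} + f_{uv} x'`, where `x` has degree `≤ 1` and `f` degree `≤ 2` as a function of `(e 0, .., e 3)`: total degree
`≤ 3`, so the sum over all `e` is `0`.  Equal edges: PC2 coh_self, coh_self_rev. -/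
def SpecFEV : Prop := ∀ {α : Type} [Fintype α] [DecidableEq α] (G : SimpleGraph α) (φ : Finset (Sym2 α) → ZMod 2),
  InF G φ → D4even G φ

end DL
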