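import Pool.Agent.DL.EX.MUE
import Pool.Agent.DL.EX.Spec
import Pool.Agent.DL.EX.INJ

section
set_option autoImplicit false

/-!
# EXD: exactness for the deletion of edges
-/

open SimpleGraph Finset

namespace DL

namespace EXDM

open MUEM

variable {α : Type} [Fintype α] [DecidableEq α]

lemma tr_deg (hPOL : SpecPOL) {A : Set (Sym2 α)} {r : Chain α → ZMod 2} (hr : r ∈ TR A) :
    DegLE 3 r := by
  unfold TR at hr
  induction hr using Submodule.span_induction with
  | mem x h =>
    obtain ⟨e, _, f, _, g, _, _, _, _, rfl⟩ := h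
    have h1 : ∀ e : Sym2 α, DegLE 1 (fun c : Chain α => c e) := fun e =>
      hPOL.ofAdd fun a b => Pi.add_apply a b e
    exact hPOL.mul (hPOL.mul (h1 e) (h1 f)) (h1 g)
  | zero => exact hPOL.zero 3
  | add x y _ _ h1 h2 => exact hPOL.add h1 h2
  | smul a x _ h =>
    have h2 := hPOL.mul (hPOL.const 0 a) h
    rw [zero_add] at h2
    exact h2

lemma tr_zero {A : Set (Sym2 α)} {r : Chain α → ZMod 2} (hr : r ∈ TR A) : r 0 = 0 := by
  unfold TR at hr
  induction hr using Submodule.span_induction with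
  | mem x h =>
    obtain ⟨e, _, f, _, g, _, _, _, _, rfl⟩ := h
    simp
  | zero => rfl
  | add x y _ _ h1 h2 => rw [Pi.add_apply, h1, h2, add_zero]
  | smul a x _ h => rw [Pi.smul_apply, h, smul_zero]

/-- local cubic polynomials vanish on cycles -/
lemma rv_cyc {G H : SimpleGraph α} {v : α} {r : Chain α → ZMod 2} (hr : r ∈ RV G v)
    {C : Finset (Sym2 α)} (hC : IsCyc H C) : r (chi C) = 0 := by
  unfold RV TR at hr
  induction hr using Submodule.span_induction with
  | mem x h =>
    obtain ⟨e, he, f, hf, g, hg, hef, heg, hfg, rfl⟩ := h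
    by_contra hne
    replace hne : chi C e * chi C f * chi C g ≠ 0 := hne
    have h1 : chi C e ≠ 0 := fun h => hne (by rw [h]; ring)
    have h2 : chi C f ≠ 0 := fun h => hne (by rw [h]; ring)
    have h3 : chi C g ≠ 0 := fun h => hne (by rw [h]; ring)
    rw [chi_ne_zero] at h1 h2 h3
    obtain ⟨i, rfl⟩ := Sym2.mem_iff_exists.1 he.2
    obtain ⟨j, rfl⟩ := Sym2.mem_iff_exists.1 hf.2
    obtain ⟨k, rfl⟩ := Sym2.mem_iff_exists.1 hg.2
    have hij : i ≠ j := fun h => hef (by rw [h])
    rcases hC.eq_or_eq h1 h2 hij h3 with h | h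
    · exact heg (by rw [h])
    · exact hfg (by rw [h])
  | zero => rfl
  | add x y _ _ h1 h2 => rw [Pi.add_apply, h1, h2, add_zero]
  | smul a x _ h => rw [Pi.smul_apply, h, smul_zero]

/-- `sym8` as a function of the two edges -/
noncomputable def g8 (l : α → α → α → α → ZMod 2) (e f : Sym2 α) : ZMod 2 :=
  sym8 l (Quot.out e).1 (Quot.out e).2 (Quot.out f).1 (Quot.out f).2

lemma g8_mk (l : α → α → α → α → ZMod 2) (a b c d : α) : g8 l s(a, b) s(c, d) = sym8 l a b c d := by
  unfold g8
  have h1 : s((Quot.out s(a, b)).1, (Quot.out s(a, b)).2) = s(a, b) := Quot.out_eq s(a, b)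
  have h2 : s((Quot.out s(c, d)).1, (Quot.out s(c, d)).2) = s(c, d) := Quot.out_eq s(c, d)
  rcases Sym2.eq_iff.1 h1 with ⟨h3, h4⟩ | ⟨h3, h4⟩ <;>
    rcases Sym2.eq_iff.1 h2 with ⟨h5, h6⟩ | ⟨h5, h6⟩ <;> rw [h3, h4, h5, h6]
  · exact sym8_swap2 l a b c d
  · exact sym8_swap1 l a b c d
  · rw [sym8_swap1, sym8_swap2]

lemma g8_symm (l : α → α → α → α → ZMod 2) (e f : Sym2 α) : g8 l e f = g8 l f e := by
  unfold g8
  exact (sym8_comm l _ _ _ _).symm

lemma sym8_add (l l' : α → α → α → α → ZMod 2) (a b c d : α) :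
    sym8 (fun a b c d => l a b c d + l' a b c d) a b c d = sym8 l a b c d + sym8 l' a b c d := by
  unfold sym8; ring

lemma cohs_add (l l' : α → α → α → α → ZMod 2) (C : Finset (Sym2 α)) :
    cohs (fun a b c d => l a b c d + l' a b c d) C = cohs l C + cohs l' C := by
  simp only [cohs, add_mul, sum_add_distrib]

end EXDM

open EXDM MUEM in
theorem specEXD (hPOL : SpecPOL) (hDVS : SpecDVS) (hI3S : SpecI3S) (hNOR : SpecNOR)
    (hCOB : SpecCOB) (hVRS : SpecVRS) : SpecEXD := by
  classical
  intro α _ _ G G' hle hS hKZ φ hφ hφ0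
  obtain ⟨p, hp3, hp0, l, hl⟩ := hφ
  have two : ∀ x : ZMod 2, x + x = 0 := zmod2_add_self
  -- `cohs l` is cubic on the cycles of `G`
  have hP3 : InP3 G (fun C => ∑ a, ∑ b, ∑ c, ∑ d, l a b c d * coh a b c d C) := by
    refine ⟨p, hp3, hp0, fun C hC => ?_⟩
    have h1 := hl C (hC.mono hle)
    rw [hφ0 C hC] at h1
    change (∑ a, ∑ b, ∑ c, ∑ d, l a b c d * coh a b c d C) = p (chi C)
    have key : ∀ x y : ZMod 2, 0 = y + x → x = y := by decide
    exact key _ _ h1
  have hz := hKZ l hP3
  obtain ⟨m, ν, hν, hm⟩ := hCOB G l (fun _ _ => False) (fun z hz2 _ => hz z hz2)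
  have hν0 : ∀ e f, ν e f = 0 := fun e f => by_contra fun h => hν e f h
  obtain ⟨l', hl'1, p1, hp13, hp10, hp1⟩ := hVRS m
  -- the new coefficients
  set E : Set (Sym2 α) := G'.edgeSet \ G.edgeSet with hE
  set ll : α → α → α → α → ZMod 2 := fun a b c d => l a b c d + l' a b c d with hll
  obtain ⟨μ, hμ1, hμ2⟩ := specMUE (g8 ll) E (g8_symm ll)
  -- NOR
  obtain ⟨p2, hp23, hp20, hp2⟩ := hNOR G' (fun a b c d => ll a b c d + μ a b c d) (by
    intro a b c d hab hcd hd
    rw [sym8_add]
    obtain ⟨h1, h2⟩ := hμ2 a b c d hd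
    by_cases h3 : s(a, b) ∈ E ∨ s(c, d) ∈ E
    · rw [h1 h3, g8_mk]
      exact two _
    · push Not at h3
      rw [h2 h3.1 h3.2, add_zero, hll, sym8_add]
      have hab' : G.Adj a b := by
        by_contra h
        exact h3.1 ⟨hab, h⟩
      have hcd' : G.Adj c d := by
        by_contra h
        exact h3.2 ⟨hcd, h⟩
      rw [hm a b c d hab' hcd' hd, hl'1 a b c d hd, hν0, hν0, add_zero, add_zero]
      exact two _)
  have hcohs : ∀ C, IsCyc G' C → cohs l C = p1 (chi C) + p2 (chi C) + cohs μ C := by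
    intro C hC
    have h1 := hp2 C hC
    rw [cohs_add, hll, cohs_add, hp1 G' C hC] at h1
    have h2 := two (p1 (chi C))
    have h3 := two (cohs μ C)
    linear_combination h1 - h2 - h3
  set p' : Chain α → ZMod 2 := fun c => p c + p1 c + p2 c with hp'
  have hp'3 : DegLE 3 p' := hPOL.add (hPOL.add hp3 hp13) (hPOL.mono (by norm_num) hp23)
  have hp'0 : p' 0 = 0 := by simp only [hp', hp0, hp10, hp20, add_zero]
  have hφ' : ∀ C, IsCyc G' C → φ C = p' (chi C) + cohs μ C := by
    intro C hC
    have h1 := hl C hC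
    have h2 := hcohs C hC
    unfold cohs at h2 ⊢
    rw [h1, h2]
    simp only [hp']
    ring
  have hμ0 : ∀ C, IsCyc G C → cohs μ C = 0 := by
    intro C hC
    unfold cohs
    refine sum_eq_zero fun a _ => sum_eq_zero fun b _ => sum_eq_zero fun c _ =>
      sum_eq_zero fun d _ => ?_
    by_cases h : μ a b c d = 0
    · rw [h, zero_mul]
    · have h1 := (hμ1 a b c d h).1.2
      rw [coh_eq_zero_left fun h2 => h1 (hC.subset _ h2), mul_zero]
  obtain ⟨r, hr1, hr2⟩ := hI3S G hS p' hp'3 hp'0 (by
    intro C hC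
    have h1 := hφ' C (hC.mono hle)
    rw [hφ0 C hC, hμ0 C hC, add_zero] at h1
    exact h1.symm)
  set P : Chain α → ZMod 2 := fun c => p' c + ∑ v, r v c with hP
  have hP3' : DegLE 3 P := hPOL.add hp'3 (hPOL.sum univ _ fun v _ => tr_deg hPOL (hr1 v))
  set S : Finset (Sym2 α) := univ.filter (fun e => e ∈ E) with hSdef
  obtain ⟨q, hq1, hq2⟩ := hDVS (Z1 G') S 2 P hP3' (by
    intro c hc hcS
    have hcG : c ∈ Z1 G := by
      refine ⟨fun e he => ?_, hc.2⟩
      by_contra h
      apply he
      refine hcS e ?_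
      rw [hSdef, mem_filter]
      exact ⟨mem_univ _, hc.1 e he, h⟩
    simp only [hP]
    rw [hr2 c hcG]
    exact two _)
  refine ⟨fun e => if e ∈ S then q e else 0, μ, fun e => ?_, fun e he => ?_, hμ1, fun C hC => ?_⟩
  · by_cases h : e ∈ S
    · simp only [if_pos h]
      exact hq1 e
    · simp only [if_neg h]
      exact hPOL.zero 2
  · refine if_neg fun h => he ?_
    rw [hSdef, mem_filter] at h
    exact h.2
  · rw [hφ' C hC]
    congr 1
    have h1 := hq2 (chi C) hC.chi_mem
    simp only [hP] at h1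
    rw [sum_eq_zero fun v _ => rv_cyc (hr1 v) hC, add_zero] at h1
    rw [h1, ← Finset.sum_subset (Finset.subset_univ S)]
    · exact sum_congr rfl fun e he => by simp only [if_pos he]
    · intro e _ he
      simp only [if_neg he]
      simp

end DL
end

section
/-!
# ST3 (helper24): step 3 of Theorem I3
-/
set_option autoImplicit false

open SimpleGraph Finset

namespace DL

namespace ST3M

variable {α : Type} [Fintype α] [DecidableEq α] {G : SimpleGraph α}

/-- elements of `RV G v` vanish on cycles -/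
theorem rv_cyc (hTRA : SpecTRA) {v : α} {f : Chain α → ZMod 2} (hf : f ∈ RV G v)
    {C : Finset (Sym2 α)} (hC : IsCyc G C) : f (chi C) = 0 := by
  by_cases hv : v ∈ vs C
  · obtain ⟨i, j, _, _, _, h3⟩ := hC.two_edges hv
    refine hTRA.two hf (chi C) s(v, i) s(v, j) ?_
    intro e he hne
    rw [chi_ne_zero] at hne
    obtain ⟨w, rfl⟩ := Sym2.mem_iff_exists.mp he.2
    rcases h3 w hne with rfl | rfl
    · exact Or.inl rfl
    · exact Or.inr rfl
  · refine hTRA.two hf (chi C) s(v, v) s(v, v) ?_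
    intro e he hne
    rw [chi_ne_zero] at hne
    exact absurd (mem_vs.2 ⟨e, hne, he.2⟩) hv

/-- an edge which contains two different vertices -/
theorem eq_of_mem_mem {a b : α} (hab : a ≠ b) {e : Sym2 α} (ha : a ∈ e) (hb : b ∈ e) :
    e = s(a, b) := by
  exact ((Sym2.mem_and_mem_iff hab).1 ⟨ha, hb⟩)

open Classical in
/-- the edges at `a` different from `ab` -/
noncomputable def EA (G : SimpleGraph α) (a b : α) : Finset (Sym2 α) :=
  univ.filter fun e => e ∈ G.edgeSet ∧ a ∈ e ∧ e ≠ s(a, b)

theorem mem_EA {a b : α} {e : Sym2 α} : e ∈ EA G a b ↔ e ∈ G.edgeSet ∧ a ∈ e ∧ e ≠ s(a, b) := by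
  simp [EA]

theorem EA_disjoint {a b : α} (hab : a ≠ b) : Disjoint (EA G a b) (EA G b a) := by
  rw [Finset.disjoint_left]
  intro e h1 h2
  rw [mem_EA] at h1 h2
  exact h1.2.2 (eq_of_mem_mem hab h1.2.1 h2.2.1)

theorem EA_union {a b : α} {e : Sym2 α} : e ∈ EA G a b ∪ EA G b a ↔ e ∈ sab G a b := by
  rw [mem_union, mem_EA, mem_EA]
  unfold sab
  show _ ↔ e ∈ G.edgeSet ∧ (a ∈ e ∨ b ∈ e) ∧ e ≠ s(a, b)
  rw [Sym2.eq_swap (a := b) (b := a)]
  tauto

theorem EA_union_coe {a b : α} : ((EA G a b ∪ EA G b a : Finset (Sym2 α)) : Set (Sym2 α)) = sab G a b := by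
  ext e
  rw [Finset.mem_coe]
  exact EA_union

/-- the trace of a cycle-space element on the edges at `a` without `ab` is `c (ab)` -/
theorem sum_EA {a b : α} (hab : G.Adj a b) {c : Chain α} (hc : c ∈ Z1 G) :
    ∑ e ∈ EA G a b, c e = c s(a, b) := by
  classical
  have h1 := hc.2 a
  rw [bdy_eq] at h1
  have h2 : ∑ e ∈ univ.filter (fun e => a ∈ e), c e =
      c s(a, b) + ∑ e ∈ (univ.filter (fun e => a ∈ e)).erase s(a, b), c e := by
    rw [Finset.add_sum_erase]
    simp
  have h3 : ∑ e ∈ (univ.filter (fun e => a ∈ e)).erase s(a, b), c e = ∑ e ∈ EA G a b, c e := by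
    symm
    apply Finset.sum_subset
    · intro e he
      rw [mem_EA] at he
      rw [mem_erase, mem_filter]
      exact ⟨he.2.2, mem_univ _, he.2.1⟩
    · intro e he hne
      rw [mem_erase, mem_filter] at he
      rw [mem_EA] at hne
      by_contra h0
      exact hne ⟨hc.1 e h0, he.2.2, he.1⟩
  rw [h2, h3] at h1
  have h4 := zmod2_add_self (c s(a, b))
  calc ∑ e ∈ EA G a b, c e = (c s(a, b) + c s(a, b)) + ∑ e ∈ EA G a b, c e := by rw [h4, zero_add]
    _ = c s(a, b) + (c s(a, b) + ∑ e ∈ EA G a b, c e) := by ring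
    _ = c s(a, b) := by rw [h1, add_zero]

theorem sum_sab {a b : α} (hab : G.Adj a b) {c : Chain α} (hc : c ∈ Z1 G) :
    ∑ e ∈ EA G a b ∪ EA G b a, c e = 0 := by
  rw [Finset.sum_union (EA_disjoint hab.ne), sum_EA hab hc, sum_EA hab.symm hc,
    Sym2.eq_swap (a := b) (b := a)]
  exact zmod2_add_self _

/-- restriction of a chain -/
def rst (S : Finset (Sym2 α)) (c : Chain α) : Chain α := fun e => if e ∈ S then c e else 0

theorem rst_of_mem {S : Finset (Sym2 α)} {c : Chain α} {e : Sym2 α} (h : e ∈ S) :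
    rst S c e = c e := if_pos h

theorem rst_supp {S : Finset (Sym2 α)} {c : Chain α} {e : Sym2 α} (h : rst S c e ≠ 0) :
    e ∈ S := by
  by_contra h0
  exact h (if_neg h0)

theorem sum_rst {S : Finset (Sym2 α)} {c : Chain α} : ∑ e ∈ S, rst S c e = ∑ e ∈ S, c e :=
  Finset.sum_congr rfl fun _ h => rst_of_mem h

/-- edges at `a` as pairs -/
theorem exists_other_end {a b : α} {e : Sym2 α} (h : e ∈ EA G a b) :
    ∃ x, e = s(a, x) ∧ G.Adj a x ∧ x ≠ b := by
  rw [mem_EA] at h
  obtain ⟨w, rfl⟩ := Sym2.mem_iff_exists.mp h.2.1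
  refine ⟨w, rfl, h.1, ?_⟩
  rintro rfl
  exact h.2.2 rfl

end ST3M

open ST3M

theorem specST3 (hTRA : SpecTRA) (hTRX : SpecTRX) (hTWO : SpecTWO) : SpecST3 := by
  classical
  intro α _ _ G a b hab hK p hp r ρ hr hra hrb hρ hsum
  have hρ' : ρ ∈ TR ((EA G a b ∪ EA G b a : Finset (Sym2 α)) : Set (Sym2 α)) := by
    rw [EA_union_coe]
    exact hρ
  obtain ⟨r1, hr1, r2, hr2, hsplit⟩ := hTRX.split (EA G a b) (EA G b a) (EA_disjoint hab.ne) ρ
    (hTRA.deg hρ).1 (by
      intro F hF hcard
      rcases hcard with h0 | h2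
      · rw [Finset.card_eq_zero] at h0
        subst h0
        refine hTRA.two hρ _ s(a, b) s(a, b) ?_
        intro e _ hne
        rw [chi_ne_zero] at hne
        exact absurd hne (Finset.notMem_empty _)
      · obtain ⟨x, y, _, rfl⟩ := Finset.card_eq_two.mp h2
        refine hTRA.two hρ _ x y ?_
        intro e _ hne
        rw [chi_ne_zero, mem_insert, mem_singleton] at hne
        exact hne) (by
      intro F hF h1 h2
      obtain ⟨e1, e2, hne1, hFA⟩ := Finset.card_eq_two.mp h1
      obtain ⟨e3, e4, hne2, hFB⟩ := Finset.card_eq_two.mp h2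
      have m1 : e1 ∈ F ∩ EA G a b := by rw [hFA]; simp
      have m2 : e2 ∈ F ∩ EA G a b := by rw [hFA]; simp
      have m3 : e3 ∈ F ∩ EA G b a := by rw [hFB]; simp
      have m4 : e4 ∈ F ∩ EA G b a := by rw [hFB]; simp
      obtain ⟨x, rfl, hax, hxb⟩ := exists_other_end (mem_inter.mp m1).2
      obtain ⟨x', rfl, hax', hxb'⟩ := exists_other_end (mem_inter.mp m2).2
      obtain ⟨y, rfl, hby, hya⟩ := exists_other_end (mem_inter.mp m3).2
      obtain ⟨y', rfl, hby', hya'⟩ := exists_other_end (mem_inter.mp m4).2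
      obtain ⟨C, hC, _, hCe⟩ := hTWO.four hab hK x x' y y' (by rintro rfl; exact hne1 rfl)
        (by rintro rfl; exact hne2 rfl) hxb hxb' hya hya' hax hax' hby hby'
      have hFeq : F = {s(a, x), s(a, x'), s(b, y), s(b, y')} := by
        ext e
        constructor
        · intro he
          rcases mem_union.mp (hF he) with h | h
          · have : e ∈ F ∩ EA G a b := mem_inter.mpr ⟨he, h⟩
            rw [hFA, mem_insert, mem_singleton] at this
            rcases this with rfl | rfl <;> simp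
          · have : e ∈ F ∩ EA G b a := mem_inter.mpr ⟨he, h⟩
            rw [hFB, mem_insert, mem_singleton] at this
            rcases this with rfl | rfl <;> simp
        · intro he
          simp only [mem_insert, mem_singleton] at he
          rcases he with rfl | rfl | rfl | rfl
          · exact (mem_inter.mp m1).1
          · exact (mem_inter.mp m2).1
          · exact (mem_inter.mp m3).1
          · exact (mem_inter.mp m4).1
      have hloc : ρ (chi F) = ρ (chi C) := by
        refine hTRA.loc hρ _ _ ?_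
        intro e he
        rw [chi_apply, chi_apply, hFeq]
        simp only [hCe e he]
      have h3 := hsum (chi C) hC.chi_mem
      rw [hp C hC, Finset.sum_eq_zero (fun v _ => rv_cyc hTRA (hr v) hC), zero_add] at h3
      rw [hloc, ← h3])
  refine ⟨fun v => r v + (if v = a then r1 else 0) + (if v = b then r2 else 0), ?_, ?_⟩
  · intro v
    refine Submodule.add_mem _ (Submodule.add_mem _ (hr v) ?_) ?_
    · split_ifs with h
      · subst h
        refine hTRA.mono ?_ hr1
        intro e he
        rw [Finset.mem_coe, mem_EA] at he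
        exact ⟨he.1, he.2.1⟩
      · exact Submodule.zero_mem _
    · split_ifs with h
      · subst h
        refine hTRA.mono ?_ hr2
        intro e he
        rw [Finset.mem_coe, mem_EA] at he
        exact ⟨he.1, he.2.1⟩
      · exact Submodule.zero_mem _
  · intro c hc
    rw [hsum c hc]
    have h1 : ρ c = r1 c + r2 c := by
      have e1 : ρ c = ρ (rst (EA G a b ∪ EA G b a) c) :=
        hTRA.loc hρ' _ _ fun e he => (rst_of_mem (Finset.mem_coe.mp he)).symm
      have e2 : r1 (rst (EA G a b ∪ EA G b a) c) = r1 c :=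
        hTRA.loc hr1 _ _ fun e he => rst_of_mem (mem_union_left _ (Finset.mem_coe.mp he))
      have e3 : r2 (rst (EA G a b ∪ EA G b a) c) = r2 c :=
        hTRA.loc hr2 _ _ fun e he => rst_of_mem (mem_union_right _ (Finset.mem_coe.mp he))
      rw [e1, hsplit _ (fun e he => rst_supp he) (by rw [sum_rst]; exact sum_sab hab hc), e2, e3]
    have h2 : ∑ v, (r v + (if v = a then r1 else 0) + (if v = b then r2 else 0)) c =
        ∑ v, r v c + r1 c + r2 c := by
      simp only [Pi.add_apply, Finset.sum_add_distrib]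
      congr 1
      · congr 1
        rw [Finset.sum_eq_single a]
        · rw [if_pos rfl]
        · intro v _ hv
          rw [if_neg hv]
          rfl
        · intro h
          exact absurd (mem_univ a) h
      · rw [Finset.sum_eq_single b]
        · rw [if_pos rfl]
        · intro v _ hv
          rw [if_neg hv]
          rfl
        · intro h
          exact absurd (mem_univ b) h
    rw [h2, h1, add_assoc]

end DL
end

section
/-!
# MP_3ff0f8_gt, algebra half, module EXM
-/
set_option autoImplicit false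
set_option linter.unusedSectionVars false

open SimpleGraph Finset

namespace DL

namespace EXMM

variable {α : Type} [Fintype α] [DecidableEq α]

/-- a cubic polynomial plus coherence functions without the edge `ab`, on the cycles -/
def Good (G : SimpleGraph α) (a b : α) (f : Finset (Sym2 α) → ZMod 2) : Prop :=
  ∃ p : Chain α → ZMod 2, DegLE 3 p ∧ p 0 = 0 ∧ ∃ l : α → α → α → α → ZMod 2,
    (∀ s t u v, l s t u v ≠ 0 → s(s, t) ≠ s(a, b) ∧ s(u, v) ≠ s(a, b)) ∧
    ∀ C, IsCyc G C → f C = p (chi C) + cohs l C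

variable {G : SimpleGraph α} {a b : α}

theorem good_congr {f g : Finset (Sym2 α) → ZMod 2} (hg : Good G a b g)
    (h : ∀ C, IsCyc G C → f C = g C) : Good G a b f := by
  obtain ⟨p, hp, h0, l, hl, hl'⟩ := hg
  exact ⟨p, hp, h0, l, hl, fun C hC => (h C hC).trans (hl' C hC)⟩

theorem good_poly {p : Chain α → ZMod 2} (hp : DegLE 3 p) (h0 : p 0 = 0) :
    Good G a b (fun C => p (chi C)) :=
  ⟨p, hp, h0, fun _ _ _ _ => 0, fun _ _ _ _ h => absurd rfl h, fun C _ => by
    rw [MEBM.cohs_zero, add_zero]⟩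

theorem good_zero (hPOL : SpecPOL) : Good G a b (fun _ => 0) :=
  good_poly (p := fun _ => 0) (hPOL.zero 3) rfl

theorem good_add (hPOL : SpecPOL) {f g : Finset (Sym2 α) → ZMod 2} (hf : Good G a b f)
    (hg : Good G a b g) : Good G a b (fun C => f C + g C) := by
  obtain ⟨p, hp, h0, l, hl, hl'⟩ := hf
  obtain ⟨q, hq, h0', m, hm, hm'⟩ := hg
  refine ⟨fun c => p c + q c, hPOL.add hp hq, by simp [h0, h0'],
    fun s t u v => l s t u v + m s t u v, ?_, ?_⟩
  · intro s t u v h
    by_cases h1 : l s t u v = 0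
    · refine hm s t u v fun h2 => h ?_
      show l s t u v + m s t u v = 0
      rw [h1, h2, add_zero]
    · exact hl s t u v h1
  · intro C hC
    show f C + g C = (p (chi C) + q (chi C)) + _
    rw [hl' C hC, hm' C hC, MEBM.cohs_add]
    ring

theorem good_sum (hPOL : SpecPOL) {ι : Type} (s : Finset ι) (f : ι → Finset (Sym2 α) → ZMod 2)
    (h : ∀ i ∈ s, Good G a b (f i)) : Good G a b (fun C => ∑ i ∈ s, f i C) := by
  classical
  induction s using Finset.induction_on with
  | empty => simpa using good_zero hPOL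
  | insert i s hi ih =>
    have h1 := good_add hPOL (h i (mem_insert_self i s))
      (ih fun j hj => h j (mem_insert_of_mem hj))
    refine good_congr h1 fun C _ => ?_
    rw [sum_insert hi]

theorem good_smul (hPOL : SpecPOL) (x : ZMod 2) {f : Finset (Sym2 α) → ZMod 2}
    (hf : Good G a b f) : Good G a b (fun C => x * f C) := by
  rcases zmod2_cases x with h | h
  · subst h
    simpa using good_zero hPOL
  · subst h
    simpa using hf

theorem good_coh (hPOL : SpecPOL) {s t u v : α} (h1 : s(s, t) ≠ s(a, b))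
    (h2 : s(u, v) ≠ s(a, b)) : Good G a b (fun C => coh s t u v C) := by
  refine ⟨fun _ => 0, hPOL.zero 3, rfl,
    fun a b c d => if a = s ∧ b = t ∧ c = u ∧ d = v then 1 else 0, ?_, fun C _ => ?_⟩
  · intro a' b' c' d' h
    dsimp only at h
    split_ifs at h with h3
    · obtain ⟨rfl, rfl, rfl, rfl⟩ := h3
      exact ⟨h1, h2⟩
    · exact absurd rfl h
  · unfold cohs
    rw [zero_add, sum_eq_single s, sum_eq_single t, sum_eq_single u, sum_eq_single v]
    · simp
    · intro d _ hd
      simp [hd]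
    · simp
    · intro c _ hc
      simp [hc]
    · simp
    · intro b _ hb
      simp [hb]
    · simp
    · intro a _ ha
      simp [ha]
    · simp

theorem good_pair (hPOL : SpecPOL) (e f : Sym2 α) : Good G a b (fun C => chi C e * chi C f) := by
  have h1 : DegLE 3 (fun c : Chain α => c e * c f) :=
    hPOL.mono (by norm_num : 1 + 1 ≤ 3) (hPOL.mul (MEBM.deg_coord hPOL e) (MEBM.deg_coord hPOL f))
  exact good_poly (p := fun c => c e * c f) h1 (by simp)

theorem pr_deg (hPOL : SpecPOL) {A : Set (Sym2 α)} {q : Chain α → ZMod 2} (hq : q ∈ PR A) :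
    DegLE 2 q ∧ q 0 = 0 := by
  induction hq using Submodule.span_induction with
  | mem f hf =>
    obtain ⟨x, -, y, -, -, rfl⟩ := hf
    exact ⟨hPOL.mul (d := 1) (e := 1) (MEBM.deg_coord hPOL x) (MEBM.deg_coord hPOL y), by simp⟩
  | zero => exact ⟨hPOL.zero 2, rfl⟩
  | add f g _ _ hf hg => exact ⟨hPOL.add hf.1 hg.1, by simp [hf.2, hg.2]⟩
  | smul r f _ hf =>
    rcases zmod2_cases r with h | h
    · subst h
      rw [zero_smul]
      exact ⟨hPOL.zero 2, rfl⟩
    · subst h
      rw [one_smul]
      exact hf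

/-- coherence functions with the edge `ab` in the first place -/
theorem good_ab (hPOL : SpecPOL) (hVRW : SpecVRW) (hab : a ≠ b) (c d : α) :
    Good G a b (fun C => coh a b c d C) := by
  by_cases h : ∃ v, v ∈ s(a, b) ∧ v ∈ s(c, d)
  · rcases coh_share h with h1 | h1
    · exact good_congr (good_zero hPOL) fun C hC => h1 G C hC
    · exact good_congr (good_pair hPOL s(a, b) s(c, d)) fun C hC => h1 G C hC
  · push Not at h
    have hac : a ≠ c := fun e => h a (by simp) (by rw [e]; simp)
    have had : a ≠ d := fun e => h a (by simp) (by rw [e]; simp)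
    by_cases hcd : c = d
    · refine good_congr (good_zero hPOL) fun C hC => ?_
      show coh a b c d C = 0
      refine coh_eq_zero_right fun h2 => hC.not_isDiag _ h2 ?_
      rw [hcd]
      simp
    · obtain ⟨q, hq, hq'⟩ := hVRW.vs2 a
      obtain ⟨hq2, hq0⟩ := pr_deg hPOL hq
      have h1 : Good G a b (fun C => ∑ x ∈ univ.erase b, coh a x c d C) := by
        refine good_sum hPOL _ _ fun x hx => ?_
        refine good_coh hPOL ?_ ?_
        · intro e
          rcases Sym2.eq_iff.1 e with ⟨_, e2⟩ | ⟨e1, _⟩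
          · exact (mem_erase.1 hx).1 e2
          · exact hab e1
        · intro e
          rcases Sym2.eq_iff.1 e with ⟨e1, _⟩ | ⟨_, e1⟩
          · exact hac e1.symm
          · exact had e1.symm
      have hdeg : DegLE 3 (fun c' : Chain α => c' s(c, d) * q c') :=
        hPOL.mul (d := 1) (e := 2) (MEBM.deg_coord hPOL _) hq2
      have h2 : Good G a b (fun C => chi C s(c, d) * q (chi C)) :=
        good_poly (p := fun c' => c' s(c, d) * q c') hdeg (by simp)
      refine good_congr (good_add hPOL h1 h2) fun C hC => ?_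
      have h3 := hVRW.vr hC a c d hac had hcd
      rw [← add_sum_erase univ _ (mem_univ b)] at h3
      have h4 : chi C s(c, d) * q (chi C) = if s(c, d) ∈ C ∧ a ∈ vs C then 1 else 0 := by
        rw [hq' G C hC, chi_apply]
        by_cases e1 : s(c, d) ∈ C <;> by_cases e2 : a ∈ vs C <;> simp [e1, e2]
      show coh a b c d C = ∑ x ∈ univ.erase b, coh a x c d C + chi C s(c, d) * q (chi C)
      rw [h4, ← h3]
      have h5 := zmod2_add_self (∑ x ∈ univ.erase b, coh a x c d C)
      linear_combination -h5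

theorem good_all (hPOL : SpecPOL) (hVRW : SpecVRW) (hab : a ≠ b) (s t u v : α) :
    Good G a b (fun C => coh s t u v C) := by
  by_cases h1 : s(s, t) = s(a, b)
  · rcases Sym2.eq_iff.1 h1 with ⟨rfl, rfl⟩ | ⟨rfl, rfl⟩
    · exact good_ab hPOL hVRW hab u v
    · refine good_congr (good_ab hPOL hVRW hab v u) fun C hC => ?_
      exact hC.coh_reverse t s v u
  · by_cases h2 : s(u, v) = s(a, b)
    · rcases Sym2.eq_iff.1 h2 with ⟨rfl, rfl⟩ | ⟨rfl, rfl⟩
      · refine good_congr (good_ab hPOL hVRW hab s t) fun C hC => ?_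
        exact (hC.coh_comm s t u v).symm
      · refine good_congr (good_ab hPOL hVRW hab t s) fun C hC => ?_
        show coh s t u v C = coh v u t s C
        rw [← hC.coh_comm s t u v]
        exact hC.coh_reverse v u t s
    · exact good_coh hPOL h1 h2

theorem good_of_inF (hPOL : SpecPOL) (hVRW : SpecVRW) (hab : a ≠ b)
    {φ : Finset (Sym2 α) → ZMod 2} (hφ : InF G φ) : Good G a b φ := by
  obtain ⟨p, hp, h0, l, hl⟩ := hφ
  refine good_congr (good_add hPOL (good_poly hp h0)
    (good_sum hPOL univ (fun s C => ∑ t, ∑ u, ∑ v, l s t u v * coh s t u v C) fun s _ =>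
      good_sum hPOL univ (fun t C => ∑ u, ∑ v, l s t u v * coh s t u v C) fun t _ =>
        good_sum hPOL univ (fun u C => ∑ v, l s t u v * coh s t u v C) fun u _ =>
          good_sum hPOL univ (fun v C => l s t u v * coh s t u v C) fun v _ =>
            good_smul hPOL _ (good_all hPOL hVRW hab s t u v))) ?_
  intro C hC
  exact hl C hC

theorem sym8_add (l l' : α → α → α → α → ZMod 2) (p q c d : α) :
    sym8 (fun a b c d => l a b c d + l' a b c d) p q c d = sym8 l p q c d + sym8 l' p q c d := by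
  unfold sym8
  ring

open Classical in
/-- the coefficients of the pairs `ax`, `by` -/
noncomputable def nup (G : SimpleGraph α) (a b : α) (ν : Sym2 α → Sym2 α → ZMod 2) (x y : α) :
    ZMod 2 :=
  if G.Adj a x ∧ G.Adj b y ∧ x ≠ y ∧ x ≠ b ∧ y ≠ a then ν s(a, x) s(b, y) else 0

/-- the coefficients -/
noncomputable def lpp (G : SimpleGraph α) (a b : α) (ν : Sym2 α → Sym2 α → ZMod 2) :
    α → α → α → α → ZMod 2 :=
  fun u v c d => if v = a ∧ c = b then nup G a b ν u d else 0

theorem cohs_lpp (ν : Sym2 α → Sym2 α → ZMod 2) (C : Finset (Sym2 α)) :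
    cohs (lpp G a b ν) C = ∑ x, ∑ y, nup G a b ν x y * coh x a b y C := by
  unfold cohs
  refine sum_congr rfl fun u _ => ?_
  rw [sum_eq_single a, sum_eq_single b]
  · refine sum_congr rfl fun d _ => ?_
    unfold lpp
    rw [if_pos ⟨rfl, rfl⟩]
  · intro c _ hc
    refine sum_eq_zero fun d _ => ?_
    unfold lpp
    rw [if_neg (fun h => hc h.2), zero_mul]
  · intro h
    exact absurd (mem_univ _) h
  · intro v _ hv
    refine sum_eq_zero fun c _ => sum_eq_zero fun d _ => ?_
    unfold lpp
    rw [if_neg (fun h => hv h.1), zero_mul]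
  · intro h
    exact absurd (mem_univ _) h

theorem half {ν : Sym2 α → Sym2 α → ZMod 2}
    (hν : ∀ e f, ν e f ≠ 0 → (a ∈ e ∧ e ≠ s(a, b)) ∧ (b ∈ f ∧ f ≠ s(a, b))) {p q c d : α}
    (hpq : G.Adj p q) (hcd : G.Adj c d) (hD : Dj4 p q c d) :
    lpp G a b ν p q c d + lpp G a b ν q p c d + lpp G a b ν p q d c + lpp G a b ν q p d c =
      ν s(p, q) s(c, d) := by
  obtain ⟨h1, h2, h3, h4, h5, h6⟩ := hD
  by_cases ha : a = p ∨ a = q
  · by_cases hb : b = c ∨ b = d
    · rcases ha with rfl | rfl <;> rcases hb with rfl | rfl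
      · have e1 : lpp G a b ν a q b d = 0 := if_neg fun h => h1 h.1.symm
        have e2 : lpp G a b ν q a b d = ν s(a, q) s(b, d) := by
          unfold lpp nup
          rw [if_pos ⟨rfl, rfl⟩, if_pos ⟨hpq, hcd, h6, h5, h4.symm⟩]
        have e3 : lpp G a b ν a q d b = 0 := if_neg fun h => h1 h.1.symm
        have e4 : lpp G a b ν q a d b = 0 := if_neg fun h => h2 h.2.symm
        rw [e1, e2, e3, e4]
        ring
      · have e1 : lpp G a b ν a q c b = 0 := if_neg fun h => h1 h.1.symm
        have e2 : lpp G a b ν q a c b = 0 := if_neg fun h => h2 h.2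
        have e3 : lpp G a b ν a q b c = 0 := if_neg fun h => h1 h.1.symm
        have e4 : lpp G a b ν q a b c = ν s(a, q) s(b, c) := by
          unfold lpp nup
          rw [if_pos ⟨rfl, rfl⟩, if_pos ⟨hpq, hcd.symm, h5, h6, h3.symm⟩]
        rw [e1, e2, e3, e4, Sym2.eq_swap (a := c)]
        ring
      · have e1 : lpp G a b ν p a b d = ν s(a, p) s(b, d) := by
          unfold lpp nup
          rw [if_pos ⟨rfl, rfl⟩, if_pos ⟨hpq.symm, hcd, h4, h3, h6.symm⟩]
        have e2 : lpp G a b ν a p b d = 0 := if_neg fun h => h1 h.1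
        have e3 : lpp G a b ν p a d b = 0 := if_neg fun h => h2 h.2.symm
        have e4 : lpp G a b ν a p d b = 0 := if_neg fun h => h1 h.1
        rw [e1, e2, e3, e4, Sym2.eq_swap (a := p)]
        ring
      · have e1 : lpp G a b ν p a c b = 0 := if_neg fun h => h2 h.2
        have e2 : lpp G a b ν a p c b = 0 := if_neg fun h => h1 h.1
        have e3 : lpp G a b ν p a b c = ν s(a, p) s(b, c) := by
          unfold lpp nup
          rw [if_pos ⟨rfl, rfl⟩, if_pos ⟨hpq.symm, hcd.symm, h3, h4, h5.symm⟩]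
        have e4 : lpp G a b ν a p b c = 0 := if_neg fun h => h1 h.1
        rw [e1, e2, e3, e4, Sym2.eq_swap (a := p), Sym2.eq_swap (a := c)]
        ring
    · have h0 : ν s(p, q) s(c, d) = 0 := by
        by_contra hne
        have := (hν _ _ hne).2.1
        rw [Sym2.mem_iff] at this
        exact hb this
      push Not at hb
      have e1 : lpp G a b ν p q c d = 0 := if_neg fun h => hb.1 h.2.symm
      have e2 : lpp G a b ν q p c d = 0 := if_neg fun h => hb.1 h.2.symm
      have e3 : lpp G a b ν p q d c = 0 := if_neg fun h => hb.2 h.2.symm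
      have e4 : lpp G a b ν q p d c = 0 := if_neg fun h => hb.2 h.2.symm
      rw [h0, e1, e2, e3, e4]
      ring
  · have h0 : ν s(p, q) s(c, d) = 0 := by
      by_contra hne
      have := (hν _ _ hne).1.1
      rw [Sym2.mem_iff] at this
      exact ha this
    push Not at ha
    have e1 : lpp G a b ν p q c d = 0 := if_neg fun h => ha.2 h.1.symm
    have e2 : lpp G a b ν q p c d = 0 := if_neg fun h => ha.1 h.1.symm
    have e3 : lpp G a b ν p q d c = 0 := if_neg fun h => ha.2 h.1.symm
    have e4 : lpp G a b ν q p d c = 0 := if_neg fun h => ha.1 h.1.symm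
    rw [h0, e1, e2, e3, e4]
    ring

theorem sym8_lpp {ν : Sym2 α → Sym2 α → ZMod 2}
    (hν : ∀ e f, ν e f ≠ 0 → (a ∈ e ∧ e ≠ s(a, b)) ∧ (b ∈ f ∧ f ≠ s(a, b))) {p q c d : α}
    (hpq : G.Adj p q) (hcd : G.Adj c d) (hD : Dj4 p q c d) :
    sym8 (lpp G a b ν) p q c d = ν s(p, q) s(c, d) + ν s(c, d) s(p, q) := by
  have h1 := half (G := G) hν hpq hcd hD
  obtain ⟨h2, h3, h4, h5, h6, h7⟩ := hD
  have h8 := half (G := G) hν hcd hpq ⟨h3, h2, h4.symm, h6.symm, h5.symm, h7.symm⟩
  unfold sym8
  rw [h1, h8]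

/-- on `CycM` the two functions of a pair `ax`, `by` agree -/
theorem gam_zero (hab : a ≠ b) {C : Finset (Sym2 α)} (hC : CycM G a b C) {x y : α}
    (hxb : x ≠ b) (hya : y ≠ a) :
    chi C s(a, x) * chi C s(b, y) = coh x a b y C := by
  by_cases h1 : s(a, x) ∈ C
  · by_cases h2 : s(b, y) ∈ C
    · rw [chi_of_mem h1, chi_of_mem h2, one_mul]
      symm
      rw [coh_apply, if_pos]
      refine ⟨by rw [Sym2.eq_swap]; exact h1, h2, ?_⟩
      have h3 : s(a, b) ∈ C := hC.2 (left_mem_vs h1) (left_mem_vs h2)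
      refine Rch.of_mem ?_
      rw [mem_sdiff, mem_insert, mem_singleton]
      refine ⟨h3, ?_⟩
      rintro (h4 | h4)
      · rcases Sym2.eq_iff.1 h4 with ⟨_, h5⟩ | ⟨_, h5⟩
        · exact hab h5.symm
        · exact hxb h5.symm
      · rcases Sym2.eq_iff.1 h4 with ⟨h5, _⟩ | ⟨h5, _⟩
        · exact hab h5
        · exact hya h5.symm
    · rw [chi_of_notMem h2, mul_zero, coh_eq_zero_right h2]
  · rw [chi_of_notMem h1, zero_mul, coh_eq_zero_left (by rw [Sym2.eq_swap]; exact h1)]

end EXMM

open EXMM in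
theorem specEXM (hPOL : SpecPOL) (hTRA : SpecTRA) (hVRW : SpecVRW) (hNOR : SpecNOR)
    (hCOB : SpecCOB) (hVRS : SpecVRS) (hK2M : SpecK2M) (hPMB : SpecPMB) (hI3K : SpecI3K) :
    SpecEXM := by
  intro α _ _ G a b hab hK3 hKZ hS φ hφ h0
  classical
  obtain ⟨p₁, hp₁, hp₁0, l₁, hl₁, hφ₁⟩ := good_of_inF hPOL hVRW hab.ne hφ
  have hcub : ∃ p : Chain α → ZMod 2, DegLE 3 p ∧ p 0 = 0 ∧
      ∀ C, CycM G a b C → cohs l₁ C = p (chi C) := by
    refine ⟨p₁, hp₁, hp₁0, fun C hC => ?_⟩
    have h1 := hφ₁ C hC.1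
    rw [h0 C hC] at h1
    have h2 := zmod2_add_self (p₁ (chi C))
    linear_combination -h1 - h2
  have hkill := hK2M hab hK3 hKZ hS l₁ hl₁ hcub
  obtain ⟨m, ν, hν, hsym⟩ := hCOB G l₁
    (fun e f => (a ∈ e ∧ e ≠ s(a, b)) ∧ (b ∈ f ∧ f ≠ s(a, b))) (by
      intro z hz hz'
      refine hkill z hz fun e f hae hbf he hf => ?_
      exact hz' e f ⟨⟨hae, he⟩, ⟨hbf, hf⟩⟩)
  obtain ⟨l', hl', p', hp', hp'0, hpl'⟩ := hVRS m
  obtain ⟨p₂, hp₂, hp₂0, hpl₂⟩ := hNOR G
    (fun s t u v => (l₁ s t u v + l' s t u v) + lpp G a b ν s t u v) (by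
      intro s t u v hst huv hD
      rw [sym8_add (fun s t u v => l₁ s t u v + l' s t u v), sym8_add, hsym s t u v hst huv hD,
        hl' s t u v hD, sym8_lpp hν hst huv hD]
      have e1 := zmod2_add_self (m s s(u, v) + m t s(u, v) + m u s(s, t) + m v s(s, t))
      have e2 := zmod2_add_self (ν s(s, t) s(u, v) + ν s(u, v) s(s, t))
      linear_combination e1 + e2)
  have hcoh : ∀ C, IsCyc G C → cohs l₁ C = p₂ (chi C) + p' (chi C) +
      ∑ x, ∑ y, nup G a b ν x y * coh x a b y C := by
    intro C hC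
    have h1 := hpl₂ C hC
    rw [MEBM.cohs_add (fun s t u v => l₁ s t u v + l' s t u v), MEBM.cohs_add, cohs_lpp,
      hpl' G C hC] at h1
    have e1 := zmod2_add_self (p' (chi C))
    have e2 := zmod2_add_self (∑ x, ∑ y, nup G a b ν x y * coh x a b y C)
    linear_combination h1 - e1 - e2
  have hsupp : ∀ x y, nup G a b ν x y ≠ 0 → G.Adj a x ∧ G.Adj b y ∧ x ≠ y ∧ x ≠ b ∧ y ≠ a := by
    intro x y h
    unfold nup at h
    split_ifs at h with h1
    · exact h1
    · exact absurd rfl h
  have hdeg : DegLE 3 (fun c : Chain α => ∑ x, ∑ y, nup G a b ν x y * (c s(a, x) * c s(b, y))) := by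
    refine hPOL.sum _ _ fun x _ => hPOL.sum _ _ fun y _ => ?_
    exact hPOL.mul (d := 1) (e := 2) (hPOL.const 1 _)
      (hPOL.mul (d := 1) (e := 1) (MEBM.deg_coord hPOL _) (MEBM.deg_coord hPOL _))
  have hP3 : DegLE 3 (fun c : Chain α => (p₁ c + (p₂ c + p' c)) +
      ∑ x, ∑ y, nup G a b ν x y * (c s(a, x) * c s(b, y))) :=
    hPOL.add (hPOL.add hp₁ (hPOL.add (hPOL.mono (by norm_num) hp₂) hp')) hdeg
  obtain ⟨r, ρ, l, hr, _, _, hρ, hl, hval⟩ := hPMB hab hK3 (hI3K _ hK3) _ hP3
    (by simp [hp₁0, hp₂0, hp'0]) (by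
      intro C hC
      have h1 := hφ₁ C hC.1
      rw [h0 C hC, hcoh C hC.1] at h1
      have h2 : ∑ x, ∑ y, nup G a b ν x y * (chi C s(a, x) * chi C s(b, y)) =
          ∑ x, ∑ y, nup G a b ν x y * coh x a b y C := by
        refine sum_congr rfl fun x _ => sum_congr rfl fun y _ => ?_
        by_cases h3 : nup G a b ν x y = 0
        · rw [h3, zero_mul, zero_mul]
        · obtain ⟨_, _, _, h5, h6⟩ := hsupp x y h3
          rw [gam_zero hab.ne hC h5 h6]
      show (p₁ (chi C) + (p₂ (chi C) + p' (chi C))) +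
        ∑ x, ∑ y, nup G a b ν x y * (chi C s(a, x) * chi C s(b, y)) = 0
      rw [h2]
      linear_combination -h1)
  refine ⟨nup G a b ν, ρ, l, hsupp, hρ, hl, ?_⟩
  intro C hC
  have h1 := hφ₁ C hC
  rw [hcoh C hC] at h1
  have h2 := hval (chi C) hC.chi_mem
  rw [sum_eq_zero (fun v _ => ST3M.rv_cyc hTRA (hr v) hC), zero_add] at h2
  have h3 : ∑ x, ∑ y, nup G a b ν x y * (chi C s(a, x) * chi C s(b, y) + coh x a b y C) =
      ∑ x, ∑ y, nup G a b ν x y * (chi C s(a, x) * chi C s(b, y)) +
        ∑ x, ∑ y, nup G a b ν x y * coh x a b y C := by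
    simp only [mul_add, sum_add_distrib]
  rw [h3, add_assoc (_ + _) (ρ (chi C)), ← h2, h1]
  have e1 := zmod2_add_self
    (∑ x, ∑ y, nup G a b ν x y * (chi C s(a, x) * chi C s(b, y)))
  linear_combination -e1

end DL
end

section
/-!
# ST2 (helper24): step 2 of Theorem I3
-/
set_option autoImplicit false

open SimpleGraph Finset

namespace DL

namespace ST2M

open ST3M

variable {α : Type} [Fintype α] [DecidableEq α] {G : SimpleGraph α}

/-- the functions of the form `RV G x + TR (sab G a b) + κ c(ax) c(bx)` on the cycle space -/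
def Gd (G : SimpleGraph α) (a b x : α) (f : Chain α → ZMod 2) : Prop :=
  ∃ R ∈ RV G x, ∃ P ∈ TR (sab G a b), ∃ κ : ZMod 2,
    ∀ c ∈ Z1 G, f c = R c + P c + κ * (c s(a, x) * c s(b, x))

theorem Gd.zero {a b x : α} {f : Chain α → ZMod 2} (h : ∀ c ∈ Z1 G, f c = 0) :
    Gd G a b x f :=
  ⟨0, Submodule.zero_mem _, 0, Submodule.zero_mem _, 0, fun c hc => by rw [h c hc]; simp⟩

theorem Gd.add {a b x : α} {f g : Chain α → ZMod 2} (hf : Gd G a b x f) (hg : Gd G a b x g) :
    Gd G a b x (fun c => f c + g c) := by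
  obtain ⟨R, hR, P, hP, κ, h⟩ := hf
  obtain ⟨R', hR', P', hP', κ', h'⟩ := hg
  refine ⟨R + R', Submodule.add_mem _ hR hR', P + P', Submodule.add_mem _ hP hP', κ + κ', ?_⟩
  intro c hc
  show f c + g c = (R c + R' c) + (P c + P' c) + (κ + κ') * _
  rw [h c hc, h' c hc]
  ring

theorem Gd.smul {a b x : α} {f : Chain α → ZMod 2} (m : ZMod 2) (hf : Gd G a b x f) :
    Gd G a b x (fun c => m * f c) := by
  obtain ⟨R, hR, P, hP, κ, h⟩ := hf
  refine ⟨m • R, Submodule.smul_mem _ _ hR, m • P, Submodule.smul_mem _ _ hP, m * κ, ?_⟩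
  intro c hc
  show m * f c = m * R c + m * P c + _
  rw [h c hc]
  ring

theorem Gd.sum {ι : Type} {a b x : α} (s : Finset ι) (f : ι → Chain α → ZMod 2)
    (hf : ∀ i ∈ s, Gd G a b x (f i)) : Gd G a b x (fun c => ∑ i ∈ s, f i c) := by
  classical
  induction s using Finset.induction_on with
  | empty => exact Gd.zero fun c _ => by simp
  | insert i s hi ih =>
    have h1 := (hf i (mem_insert_self _ _)).add (ih fun j hj => hf j (mem_insert_of_mem hj))
    have h2 : (fun c => ∑ j ∈ insert i s, f j c) = fun c => f i c + ∑ j ∈ s, f j c := by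
      funext c
      rw [Finset.sum_insert hi]
    rw [h2]
    exact h1

theorem Gd.congr {a b x : α} {f g : Chain α → ZMod 2} (h : ∀ c ∈ Z1 G, f c = g c)
    (hg : Gd G a b x g) : Gd G a b x f := by
  obtain ⟨R, hR, P, hP, κ, h'⟩ := hg
  exact ⟨R, hR, P, hP, κ, fun c hc => by rw [h c hc, h' c hc]⟩

theorem idem (y : ZMod 2) : y * y = y := by
  revert y
  decide

theorem base {a b x : α} (hab : a ≠ b) (hax : G.Adj a x) (hbx : G.Adj b x)
    {e : Sym2 α} (hne : e ≠ s(a, b)) (he : a ∈ e ∨ b ∈ e ∨ x ∈ e) :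
    Gd G a b x (fun c => c s(a, x) * c s(b, x) * c e) := by
  by_cases hG : e ∈ G.edgeSet
  · by_cases h1 : e = s(a, x)
    · subst h1
      refine ⟨0, Submodule.zero_mem _, 0, Submodule.zero_mem _, 1, ?_⟩
      intro c _
      show c s(a, x) * c s(b, x) * c s(a, x) = 0 + 0 + 1 * (c s(a, x) * c s(b, x))
      calc c s(a, x) * c s(b, x) * c s(a, x) = (c s(a, x) * c s(a, x)) * c s(b, x) := by ring
        _ = _ := by rw [idem]; ring
    · by_cases h2 : e = s(b, x)
      · subst h2
        refine ⟨0, Submodule.zero_mem _, 0, Submodule.zero_mem _, 1, ?_⟩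
        intro c _
        show c s(a, x) * c s(b, x) * c s(b, x) = 0 + 0 + 1 * (c s(a, x) * c s(b, x))
        calc c s(a, x) * c s(b, x) * c s(b, x) = c s(a, x) * (c s(b, x) * c s(b, x)) := by ring
          _ = _ := by rw [idem]; ring
      · have h3 : s(a, x) ≠ s(b, x) := by
          intro h
          rw [Sym2.congr_left] at h
          exact hab h
        by_cases hx : x ∈ e
        · refine ⟨fun c => c s(a, x) * c s(b, x) * c e, ?_, 0, Submodule.zero_mem _, 0, ?_⟩
          · apply Submodule.subset_span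
            exact ⟨s(a, x), ⟨hax, by simp⟩, s(b, x), ⟨hbx, by simp⟩, e, ⟨hG, hx⟩, h3, Ne.symm h1,
              Ne.symm h2, rfl⟩
          · intro c _
            simp
        · refine ⟨0, Submodule.zero_mem _, fun c => c s(a, x) * c s(b, x) * c e, ?_, 0, ?_⟩
          · apply Submodule.subset_span
            have hab' : a ∈ e ∨ b ∈ e := by tauto
            refine ⟨s(a, x), ⟨hax, Or.inl (by simp), ?_⟩, s(b, x), ⟨hbx, Or.inr (by simp), ?_⟩, e,
              ⟨hG, hab', hne⟩, h3, Ne.symm h1, Ne.symm h2, rfl⟩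
            · intro h
              rw [Sym2.congr_right] at h
              exact hbx.ne h.symm
            · intro h
              rw [Sym2.eq_swap (a := a), Sym2.congr_right] at h
              exact hax.ne h.symm
          · intro c _
            simp
  · refine Gd.zero fun c hc => ?_
    have : c e = 0 := by
      by_contra h
      exact hG (hc.1 e h)
    rw [this, mul_zero]

theorem base' {a b x : α} (hab : G.Adj a b) (hax : G.Adj a x) (hbx : G.Adj b x)
    {e : Sym2 α} (he : a ∈ e ∨ b ∈ e ∨ x ∈ e) :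
    Gd G a b x (fun c => c s(a, x) * c s(b, x) * c e) := by
  by_cases hne : e = s(a, b)
  · subst hne
    refine Gd.congr (g := fun c => ∑ e ∈ EA G a b, c s(a, x) * c s(b, x) * c e) ?_ ?_
    · intro c hc
      rw [← Finset.mul_sum, sum_EA hab hc]
    · refine Gd.sum _ _ fun e he => ?_
      rw [mem_EA] at he
      exact base hab.ne hax hbx he.2.2 (Or.inl he.2.1)
  · exact base hab.ne hax hbx hne he

/-- the whole term of a common neighbour -/
theorem term {a b x : α} (hab : G.Adj a b) (hax : G.Adj a x) (hbx : G.Adj b x) (l : Chain α)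
    (s : α → ZMod 2) (hs : ∀ u v, (del G {a, b, x}).Adj u v → l s(u, v) = s u + s v) :
    Gd G a b x (fun c => c s(a, x) * c s(b, x) * ∑ e, l e * c e) := by
  refine Gd.congr (g := fun c => ∑ e, (l e + cob s e) * (c s(a, x) * c s(b, x) * c e)) ?_ ?_
  · intro c hc
    have h1 := cob_orth hc s
    have h2 : ∑ e, l e * c e = ∑ e, (l e + cob s e) * c e := by
      simp only [add_mul, Finset.sum_add_distrib, h1, add_zero]
    rw [h2, Finset.mul_sum]
    exact Finset.sum_congr rfl fun e _ => by ring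
  · refine Gd.sum _ _ fun e _ => ?_
    by_cases he : a ∈ e ∨ b ∈ e ∨ x ∈ e
    · exact (base' hab hax hbx he).smul _
    · refine Gd.zero fun c hc => ?_
      by_cases h0 : c e = 0
      · rw [h0, mul_zero, mul_zero]
      · have hG := hc.1 e h0
        have h3 : l e + cob s e = 0 := by
          induction e using Sym2.ind with
          | _ u v =>
            simp only [Sym2.mem_iff, not_or] at he
            have hd : (del G {a, b, x}).Adj u v := by
              refine ⟨hG, ?_, ?_⟩
              · simp only [mem_insert, mem_singleton, not_or]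
                exact ⟨Ne.symm he.1.1, Ne.symm he.2.1.1, Ne.symm he.2.2.1⟩
              · simp only [mem_insert, mem_singleton, not_or]
                exact ⟨Ne.symm he.1.2, Ne.symm he.2.1.2, Ne.symm he.2.2.2⟩
            rw [hs u v hd, cob_mk]
            exact zmod2_add_self _
        rw [h3, zero_mul]

theorem triangle {a b x : α} (hab : G.Adj a b) (hax : G.Adj a x) (hbx : G.Adj b x) :
    IsCyc G {s(a, x), s(b, x), s(a, b)} := by
  have h1 : IsPth G x b {s(x, b)} := IsPth.edge hbx.symm
  have h2 : IsPth G a b (insert s(a, x) {s(x, b)}) := by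
    refine IsPth.cons hax h1 ?_
    rw [vs_singleton]
    simp only [mem_insert, mem_singleton, not_or]
    exact ⟨hax.ne, hab.ne⟩
  have h3 := h2.isCyc hab (by
    rw [mem_insert, mem_singleton]
    rintro (h | h)
    · rw [Sym2.congr_right] at h
      exact hbx.ne h
    · rw [Sym2.congr_left] at h
      exact hax.ne h)
  have h4 : ({s(a, x), s(b, x), s(a, b)} : Finset (Sym2 α)) =
      insert s(a, b) (insert s(a, x) {s(x, b)}) := by
    ext e
    simp only [mem_insert, mem_singleton, Sym2.eq_swap (a := x) (b := b)]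
    tauto
  rw [h4]
  exact h3

theorem mem_cmn {a b x : α} : x ∈ cmn G a b ↔ G.Adj a x ∧ G.Adj b x := by
  simp [cmn]

theorem notMem_triangle {a b x y : α} (hab : a ≠ b) (hax : a ≠ x) (hyx : y ≠ x) (hyb : y ≠ b) :
    s(a, y) ∉ ({s(a, x), s(b, x), s(a, b)} : Finset (Sym2 α)) := by
  simp only [mem_insert, mem_singleton, not_or]
  refine ⟨?_, ?_, ?_⟩
  · intro h
    rw [Sym2.congr_right] at h
    exact hyx h
  · intro h
    rw [Sym2.eq_iff] at h
    rcases h with ⟨h1, _⟩ | ⟨h1, _⟩
    · exact hab h1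
    · exact hax h1
  · intro h
    rw [Sym2.congr_right] at h
    exact hyb h

/-- elements of `TR (sab G a b)` vanish on the triangles `abx` -/
theorem tr_triangle (hTRA : SpecTRA) {a b x : α} {ρ : Chain α → ZMod 2}
    (hρ : ρ ∈ TR (sab G a b)) : ρ (chi {s(a, x), s(b, x), s(a, b)}) = 0 := by
  refine hTRA.two hρ _ s(a, x) s(b, x) ?_
  intro e he hne
  rw [chi_ne_zero] at hne
  simp only [mem_insert, mem_singleton] at hne
  rcases hne with h | h | h
  · exact Or.inl h
  · exact Or.inr h
  · exact absurd h he.2.2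

end ST2M

open ST3M ST2M

theorem specST2 (hTRA : SpecTRA) (hTWO : SpecTWO) : SpecST2 := by
  classical
  intro α _ _ G a b hab hK hPMP p hp hp0 hcyc
  obtain ⟨r, ρ, l, hr, hra, hrb, hρ, hl, hsum⟩ := hPMP p hp hp0 (fun C hC => hcyc C hC.1)
  have hrC : ∀ C, IsCyc G C → ∑ v, r v (chi C) = 0 := fun C hC =>
    Finset.sum_eq_zero fun v _ => rv_cyc hTRA (hr v) hC
  -- the coefficients `l x` are coboundaries on `G - {a, b, x}`
  have hcut : ∀ x ∈ cmn G a b, ∃ s : α → ZMod 2, ∀ u v, (del G {a, b, x}).Adj u v →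
      l x s(u, v) = s u + s v := by
    intro x hx
    rw [mem_cmn] at hx
    apply cut'
    intro Z hZ
    obtain ⟨C₁, C₂, hC₁, hC₂, h1, h2, _, h4, h5, h6⟩ := hTWO.arc hab hK hx.1 hx.2 Z hZ
    have e1 := hsum _ hC₁.chi_mem
    have e2 := hsum _ hC₂.chi_mem
    rw [hcyc _ hC₁, hrC _ hC₁, zero_add] at e1
    rw [hcyc _ hC₂, hrC _ hC₂, zero_add] at e2
    have e3 : ρ (chi C₁) = ρ (chi C₂) := by
      refine hTRA.loc hρ _ _ ?_
      intro e he
      rw [chi_apply, chi_apply]
      simp only [h4 e he.2.1]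
    have e4 : ∀ C, (∀ e, a ∈ e ∨ b ∈ e → (e ∈ C₁ ↔ e ∈ C)) →
        cnp G a b l (chi C) = ∑ e, l x e * chi C e := by
      intro C hC
      unfold cnp
      rw [Finset.sum_eq_single x]
      · have m1 : s(a, x) ∈ C := (hC _ (Or.inl (by simp))).mp h1
        have m2 : s(b, x) ∈ C := (hC _ (Or.inr (by simp))).mp h2
        rw [chi_of_mem m1, chi_of_mem m2, one_mul, one_mul]
      · intro y _ hyx
        have h7 := h6 y hyx
        rw [hC _ (Or.inl (by simp)), hC _ (Or.inr (by simp))] at h7
        have h8 : chi C s(a, y) * chi C s(b, y) = 0 := by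
          by_cases h9 : s(a, y) ∈ C
          · rw [chi_of_notMem (fun h => h7 ⟨h9, h⟩), mul_zero]
          · rw [chi_of_notMem h9, zero_mul]
        rw [h8, zero_mul]
      · intro h
        exact absurd (mem_cmn.mpr hx) h
    rw [e4 C₁ (fun e _ => Iff.rfl)] at e1
    rw [e4 C₂ h4, ← e3] at e2
    have e5 : ∑ e ∈ Z, l x e = ∑ e, l x e * chi C₁ e + ∑ e, l x e * chi C₂ e := by
      rw [← sum_mul_chi, ← h5, ← Finset.sum_add_distrib]
      exact Finset.sum_congr rfl fun e _ => by rw [Pi.add_apply, mul_add]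
    rw [e5]
    have e6 : (ρ (chi C₁) + ∑ e, l x e * chi C₁ e) + (ρ (chi C₁) + ∑ e, l x e * chi C₂ e) =
        ∑ e, l x e * chi C₁ e + ∑ e, l x e * chi C₂ e := by
      have := zmod2_add_self (ρ (chi C₁))
      linear_combination this
    rw [← e6, ← e1, ← e2, add_zero]
  have key : ∀ x ∈ cmn G a b,
      Gd G a b x (fun c => c s(a, x) * c s(b, x) * ∑ e, l x e * c e) := by
    intro x hx
    obtain ⟨s, hs⟩ := hcut x hx
    rw [mem_cmn] at hx
    exact term hab hx.1 hx.2 (l x) s hs
  choose! R hR P hP κ hκ using key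
  have hform : ∀ c ∈ Z1 G, p c = ∑ v, r v c + ρ c +
      ∑ x ∈ cmn G a b, (R x c + P x c + κ x * (c s(a, x) * c s(b, x))) := by
    intro c hc
    rw [hsum c hc]
    congr 1
    exact Finset.sum_congr rfl fun x hx => hκ x hx c hc
  -- `κ x = 0`
  have hκ0 : ∀ x ∈ cmn G a b, κ x = 0 := by
    intro x hx
    have hx' := mem_cmn.mp hx
    have hT := triangle hab hx'.1 hx'.2
    have h1 := hform _ hT.chi_mem
    rw [hcyc _ hT, hrC _ hT, tr_triangle hTRA hρ, zero_add, zero_add] at h1
    rw [Finset.sum_eq_single x] at h1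
    · rw [rv_cyc hTRA (hR x hx) hT, tr_triangle hTRA (hP x hx), chi_of_mem (by simp),
        chi_of_mem (by simp), zero_add, zero_add, one_mul, mul_one] at h1
      exact h1.symm
    · intro y hy hyx
      have hy' := mem_cmn.mp hy
      rw [rv_cyc hTRA (hR y hy) hT, tr_triangle hTRA (hP y hy),
        chi_of_notMem (notMem_triangle hab.ne hx'.1.ne hyx hy'.2.ne')]
      ring
    · intro h
      exact absurd hx h
  refine ⟨fun v => r v + (if v ∈ cmn G a b then R v else 0), ρ + ∑ x ∈ cmn G a b, P x, ?_, ?_, ?_,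
    ?_, ?_⟩
  · intro v
    refine Submodule.add_mem _ (hr v) ?_
    split_ifs with h
    · exact hR v h
    · exact Submodule.zero_mem _
  · show r a + (if a ∈ cmn G a b then R a else 0) = 0
    rw [hra, if_neg, add_zero]
    intro h
    exact (mem_cmn.mp h).1.ne rfl
  · show r b + (if b ∈ cmn G a b then R b else 0) = 0
    rw [hrb, if_neg, add_zero]
    intro h
    exact (mem_cmn.mp h).2.ne rfl
  · exact Submodule.add_mem _ hρ (Submodule.sum_mem _ fun x hx => hP x hx)
  · intro c hc
    rw [hform c hc]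
    have h1 : ∑ x ∈ cmn G a b, (R x c + P x c + κ x * (c s(a, x) * c s(b, x))) =
        ∑ x ∈ cmn G a b, R x c + ∑ x ∈ cmn G a b, P x c := by
      rw [← Finset.sum_add_distrib]
      exact Finset.sum_congr rfl fun x hx => by rw [hκ0 x hx, zero_mul, add_zero]
    have h2 : ∑ v, (r v + (if v ∈ cmn G a b then R v else 0)) c =
        ∑ v, r v c + ∑ x ∈ cmn G a b, R x c := by
      simp only [Pi.add_apply, Finset.sum_add_distrib]
      congr 1
      rw [← Finset.sum_filter_add_sum_filter_not univ (fun v => v ∈ cmn G a b)]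
      have e1 : ∑ v ∈ univ.filter (fun v => ¬ v ∈ cmn G a b),
          (if v ∈ cmn G a b then R v else 0 : Chain α → ZMod 2) c = 0 :=
        Finset.sum_eq_zero fun v hv => by
          rw [if_neg (mem_filter.mp hv).2]
          rfl
      rw [e1, add_zero]
      refine Finset.sum_congr ?_ ?_
      · ext v
        simp
      · intro v hv
        rw [if_pos hv]
    have h3 : (ρ + ∑ x ∈ cmn G a b, P x) c = ρ c + ∑ x ∈ cmn G a b, P x c := by
      rw [Pi.add_apply, Finset.sum_apply]
    rw [h1, h2, h3]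
    ring

end DL
end

section
/-!
# PMB (helper24): step 1 of Theorem I3, second half
-/
set_option autoImplicit false

open SimpleGraph Finset

namespace DL

namespace PMBM

open ST3M ST2M

variable {α : Type} [Fintype α] [DecidableEq α] {G : SimpleGraph α}

/-- chains of `G - a - b` have no edges at `a`, `b` -/
theorem del_zero {a b : α} {k : Chain α} (hk : k ∈ Z1 (del G {a, b})) {e : Sym2 α}
    (he : a ∈ e ∨ b ∈ e) : k e = 0 := by
  by_contra h
  have h1 := hk.1 e h
  induction e using Sym2.ind with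
  | _ u v =>
    obtain ⟨_, h3, h4⟩ := (h1 : (del G {a, b}).Adj u v)
    simp only [mem_insert, mem_singleton, not_or] at h3 h4
    simp only [Sym2.mem_iff] at he
    rcases he with (he | he) | (he | he)
    · exact h3.1 he.symm
    · exact h4.1 he.symm
    · exact h3.2 he.symm
    · exact h4.2 he.symm

theorem del_le' (S : Finset α) : del G S ≤ G := fun _ _ h => h.1

theorem mem_del_of {a b : α} (hab : G.Adj a b) {c : Chain α} (hc : c ∈ Z1 G)
    (h : ∀ e ∈ EA G a b ∪ EA G b a, c e = 0) : c ∈ Z1 (del G {a, b}) := by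
  have h0 : c s(a, b) = 0 := by
    rw [← sum_EA hab hc]
    exact Finset.sum_eq_zero fun e he => h e (mem_union_left _ he)
  refine ⟨fun e he => ?_, hc.2⟩
  have hG := hc.1 e he
  have ha : a ∉ e := by
    intro ha
    by_cases heq : e = s(a, b)
    · rw [heq] at he
      exact he h0
    · exact he (h e (mem_union_left _ (mem_EA.mpr ⟨hG, ha, heq⟩)))
  have hb : b ∉ e := by
    intro hb
    by_cases heq : e = s(b, a)
    · rw [heq, Sym2.eq_swap] at he
      exact he h0
    · exact he (h e (mem_union_right _ (mem_EA.mpr ⟨hG, hb, heq⟩)))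
  induction e using Sym2.ind with
  | _ u v =>
    simp only [Sym2.mem_iff, not_or] at ha hb
    refine ⟨hG, ?_, ?_⟩
    · simp only [mem_insert, mem_singleton, not_or]
      exact ⟨Ne.symm ha.1, Ne.symm hb.1⟩
    · simp only [mem_insert, mem_singleton, not_or]
      exact ⟨Ne.symm ha.2, Ne.symm hb.2⟩

/-- the linear form of a chain -/
def lf (l : Chain α) (c : Chain α) : ZMod 2 := ∑ e, l e * c e

theorem lf_add (l c d : Chain α) : lf l (c + d) = lf l c + lf l d := by
  unfold lf
  rw [← Finset.sum_add_distrib]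
  exact Finset.sum_congr rfl fun e _ => by rw [Pi.add_apply, mul_add]

theorem cnp_eq {a b : α} (l : α → Chain α) (c : Chain α) :
    cnp G a b l c = ∑ x ∈ cmn G a b, c s(a, x) * c s(b, x) * lf (l x) c := rfl

theorem cnp_add {a b : α} (l : α → Chain α) (c k : Chain α) (hk : ∀ e, a ∈ e ∨ b ∈ e → k e = 0) :
    cnp G a b l (c + k) = cnp G a b l c +
      ∑ x ∈ cmn G a b, lf (l x) k * (c s(a, x) * c s(b, x)) := by
  rw [cnp_eq, cnp_eq, ← Finset.sum_add_distrib]
  refine Finset.sum_congr rfl fun x _ => ?_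
  rw [Pi.add_apply, Pi.add_apply, hk s(a, x) (Or.inl (by simp)), hk s(b, x) (Or.inr (by simp)),
    add_zero, add_zero, lf_add]
  ring

theorem cnp_deg (hPOL : SpecPOL) {a b : α} (l : α → Chain α) :
    DegLE 3 (fun c : Chain α => cnp G a b l c) := by
  have h1 : ∀ e : Sym2 α, DegLE 1 (fun c : Chain α => c e) := fun e =>
    hPOL.ofAdd fun _ _ => rfl
  have h2 : ∀ x, DegLE 1 (fun c : Chain α => lf (l x) c) := fun x =>
    hPOL.ofAdd fun c d => lf_add _ c d
  have h3 := hPOL.sum (d := 3) (cmn G a b)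
    (fun x (c : Chain α) => c s(a, x) * c s(b, x) * lf (l x) c)
    (fun x _ => hPOL.mul (d := 2) (e := 1) (hPOL.mul (d := 1) (e := 1) (h1 _) (h1 _)) (h2 x))
  exact h3

/-- the values of `prj` at the vertex `a` do not see `G - a - b` -/
theorem prj_add {a b : α} {c k : Chain α} (hk : ∀ e, a ∈ e ∨ b ∈ e → k e = 0) {e : Sym2 α}
    (ha : a ∈ e) : prj a b (c + k) e = prj a b c e := by
  unfold prj
  by_cases h : b ∈ e ∨ e.IsDiag
  · rw [if_pos h, if_pos h]
  · rw [if_neg h, if_neg h]
    refine Finset.sum_congr rfl fun f hf => ?_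
    rw [mem_filter] at hf
    have h1 : a ∈ f ∨ b ∈ f := by
      have h2 : a ∈ f.map (mrg a b) := by rw [hf.2.2]; exact ha
      rw [Sym2.mem_map] at h2
      obtain ⟨v, hv, hva⟩ := h2
      unfold mrg at hva
      by_cases hvb : v = b
      · subst hvb
        exact Or.inr hv
      · rw [if_neg hvb] at hva
        subst hva
        exact Or.inl hv
    rw [Pi.add_apply, hk f h1, add_zero]

/-- a functional which is additive on a subspace is given by coefficients -/
theorem exists_coeff (V : Submodule (ZMod 2) (Chain α)) (γ : Chain α → ZMod 2)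
    (hγ : ∀ c ∈ V, ∀ d ∈ V, γ (c + d) = γ c + γ d) :
    ∃ m : Chain α, ∀ c ∈ V, γ c = ∑ e, m e * c e := by
  classical
  let φ : V →+ ZMod 2 := AddMonoidHom.mk' (fun c => γ c.1) (fun c d => hγ c.1 c.2 d.1 d.2)
  let ψ : V →ₗ[ZMod 2] ZMod 2 := φ.toZModLinearMap 2
  obtain ⟨Λ, hΛ⟩ := LinearMap.exists_extend ψ
  refine ⟨fun e => Λ (Pi.single e 1), fun c hc => ?_⟩
  have h1 : Λ c = γ c := by
    have := LinearMap.congr_fun hΛ ⟨c, hc⟩
    exact this
  have h2 : c = ∑ e, c e • (Pi.single e (1 : ZMod 2) : Chain α) := by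
    funext f
    rw [Finset.sum_apply, Finset.sum_eq_single f]
    · simp
    · intro e _ hef
      simp [Pi.single_eq_of_ne (Ne.symm hef)]
    · intro h
      exact absurd (mem_univ f) h
  rw [← h1]
  conv_lhs => rw [h2]
  rw [map_sum]
  exact Finset.sum_congr rfl fun e _ => by rw [map_smul, smul_eq_mul, mul_comm]

/-- a section of the trace map -/
theorem exists_section (hTWO : SpecTWO) {a b : α} (hab : G.Adj a b) (hK : KConn 3 (contr G a b)) :
    ∃ σ : Chain α →+ Chain α, (∀ c, σ c ∈ Z1 G) ∧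
      (∀ c, ∑ e ∈ EA G a b ∪ EA G b a, c e = 0 → ∀ e ∈ EA G a b ∪ EA G b a, σ c e = c e) ∧
      ∀ c d, (∀ e ∈ EA G a b ∪ EA G b a, c e = d e) → σ c = σ d := by
  classical
  set A := EA G a b ∪ EA G b a with hA
  rcases Finset.eq_empty_or_nonempty A with h0 | ⟨h₀, hh₀⟩
  · refine ⟨0, fun c => Submodule.zero_mem _, ?_, fun c d _ => rfl⟩
    intro c _ e he
    rw [h0] at he
    exact absurd he (Finset.notMem_empty _)
  · have hex : ∀ h ∈ A.erase h₀, ∃ C, CycM G a b C ∧ ∀ e ∈ A, e ∈ C ↔ e = h ∨ e = h₀ := by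
      intro h hh
      rw [mem_erase] at hh
      obtain ⟨C, hC, hCe⟩ := hTWO.pair hab hK {h, h₀} (Finset.card_pair hh.1) (by
        intro e he
        rw [mem_insert, mem_singleton] at he
        rcases he with rfl | rfl
        · exact EA_union.mp hh.2
        · exact EA_union.mp hh₀)
      refine ⟨C, hC, fun e he => ?_⟩
      rw [hCe e (EA_union.mp he), mem_insert, mem_singleton]
    choose! C hC hCe using hex
    let σ : Chain α →+ Chain α :=
      { toFun := fun c => ∑ h ∈ A.erase h₀, c h • chi (C h)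
        map_zero' := Finset.sum_eq_zero fun h _ => by rw [Pi.zero_apply, zero_smul]
        map_add' := fun c d => by
          rw [← Finset.sum_add_distrib]
          exact Finset.sum_congr rfl fun h _ => by rw [Pi.add_apply, add_smul] }
    have hσ : ∀ c, σ c = ∑ h ∈ A.erase h₀, c h • chi (C h) := fun c => rfl
    refine ⟨σ, ?_, ?_, ?_⟩
    · intro c
      rw [hσ]
      exact Submodule.sum_mem _ fun h hh => Submodule.smul_mem _ _ (hC h hh).1.chi_mem
    · intro c hc e he
      rw [hσ, Finset.sum_apply]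
      by_cases heq : e = h₀
      · subst heq
        have h1 : ∑ h ∈ A.erase e, (c h • chi (C h)) e = ∑ h ∈ A.erase e, c h := by
          refine Finset.sum_congr rfl fun h hh => ?_
          rw [Pi.smul_apply, smul_eq_mul, chi_of_mem ((hCe h hh e he).mpr (Or.inr rfl)), mul_one]
        rw [h1]
        have h2 := Finset.add_sum_erase A (fun h => c h) he
        rw [hc] at h2
        have h3 := zmod2_add_self (c e)
        linear_combination h2 - h3
      · rw [Finset.sum_eq_single e]
        · rw [Pi.smul_apply, smul_eq_mul,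
            chi_of_mem ((hCe e (mem_erase.mpr ⟨heq, he⟩) e he).mpr (Or.inl rfl)), mul_one]
        · intro h hh hne
          rw [Pi.smul_apply, chi_of_notMem, smul_zero]
          intro hmem
          rcases (hCe h hh e he).mp hmem with h1 | h1
          · exact hne h1.symm
          · exact heq h1
        · intro h
          exact absurd (mem_erase.mpr ⟨heq, he⟩) h
    · intro c d hcd
      rw [hσ, hσ]
      exact Finset.sum_congr rfl fun h hh => by rw [hcd h (mem_of_mem_erase hh)]

end PMBM

open ST3M ST2M PMBM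

theorem specPMB (hPOL : SpecPOL) (hTRA : SpecTRA) (hTRX : SpecTRX) (hPMA : SpecPMA)
    (hPRL : SpecPRL) (hTWO : SpecTWO) (hSEF : SpecSEF) : SpecPMB := by
  classical
  intro α _ _ G a b hab hK hI3 p hp hp0 hcyc
  obtain ⟨R, s, hR, hRa, hRb, hs, hsum⟩ := hPMA hab hK hI3 p hp hp0 hcyc
  -- `p₁`
  set p₁ : Chain α → ZMod 2 := fun c => p c + ∑ w, R w c with hp₁
  have hp₁deg : DegLE 3 p₁ :=
    hPOL.add hp (hPOL.sum univ (fun w c => R w c) fun w _ => (hTRA.deg (hR w)).1)
  have hp₁s : ∀ K, ∀ c ∈ Z1 (sel G a b K), p₁ c = s K (prj a b c) := by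
    intro K c hc
    show p c + ∑ w, R w c = _
    rw [hsum K c hc, add_assoc, zmod2_add_self, add_zero]
  -- `V'` is covered by the `sel G a b K`
  have hcover : ∀ c ∈ Z1 G, (∀ x, G.Adj a x → G.Adj b x → c s(a, x) * c s(b, x) = 0) →
      ∀ k ∈ Z1 (del G {a, b}), p₁ (c + k) = p₁ c := by
    intro c hc hV k hk
    have hkG : k ∈ Z1 G := Z1_mono (del_le' _) hk
    have hk0 : ∀ e, a ∈ e ∨ b ∈ e → k e = 0 := fun e he => del_zero hk he
    set K : Finset α := univ.filter fun x => c s(b, x) ≠ 0 with hKdef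
    have hc1 : c ∈ Z1 (sel G a b K) := by
      refine hSEF.z1 K hab hc ?_ ?_
      · intro x hx hax hbx
        rw [hKdef, mem_filter] at hx
        exact (mul_eq_zero.mp (hV x hax hbx)).resolve_right hx.2
      · intro x hx _ _
        by_contra h
        exact hx (by rw [hKdef, mem_filter]; exact ⟨mem_univ _, h⟩)
    have hc2 : c + k ∈ Z1 (sel G a b K) := by
      refine hSEF.z1 K hab (Submodule.add_mem _ hc hkG) ?_ ?_
      · intro x hx hax hbx
        rw [hKdef, mem_filter] at hx
        rw [Pi.add_apply, hk0 _ (Or.inl (by simp)), add_zero]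
        exact (mul_eq_zero.mp (hV x hax hbx)).resolve_right hx.2
      · intro x hx _ _
        rw [Pi.add_apply, hk0 _ (Or.inr (by simp)), add_zero]
        by_contra h
        exact hx (by rw [hKdef, mem_filter]; exact ⟨mem_univ _, h⟩)
    rw [hp₁s K c hc1, hp₁s K _ hc2]
    refine hTRA.loc (hs K) _ _ ?_
    intro e he
    exact prj_add hk0 he.2
  -- the pair lemma for the differences
  have hq : ∀ k ∈ Z1 (del G {a, b}), ∀ c ∈ Z1 G, p₁ (c + k) + p₁ c =
      ∑ x ∈ cmn G a b, (p₁ (chi {s(a, x), s(b, x), s(a, b)} + k) +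
        p₁ (chi {s(a, x), s(b, x), s(a, b)})) * (c s(a, x) * c s(b, x)) := by
    intro k hk
    refine hPRL hab hK (fun c => p₁ (c + k) + p₁ c) (hPOL.dif k hp₁deg) ?_
    intro c hc hV
    show p₁ (c + k) + p₁ c = 0
    rw [hcover c hc hV k hk]
    exact zmod2_add_self _
  -- additivity of `γ_x`
  have hγ : ∀ x ∈ cmn G a b, ∀ k ∈ Z1 (del G {a, b}), ∀ k' ∈ Z1 (del G {a, b}),
      (p₁ (chi {s(a, x), s(b, x), s(a, b)} + (k + k')) + p₁ (chi {s(a, x), s(b, x), s(a, b)})) =
      (p₁ (chi {s(a, x), s(b, x), s(a, b)} + k) + p₁ (chi {s(a, x), s(b, x), s(a, b)})) +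
      (p₁ (chi {s(a, x), s(b, x), s(a, b)} + k') + p₁ (chi {s(a, x), s(b, x), s(a, b)})) := by
    intro x hx k hk k' hk'
    have hx' := mem_cmn.mp hx
    set t : Chain α := chi {s(a, x), s(b, x), s(a, b)} with ht
    have hT : t ∈ Z1 G := (triangle hab hx'.1 hx'.2).chi_mem
    have h1 := hq k hk (t + k') (Submodule.add_mem _ hT (Z1_mono (del_le' _) hk'))
    have h2 : ∑ y ∈ cmn G a b, (p₁ (chi {s(a, y), s(b, y), s(a, b)} + k) +
        p₁ (chi {s(a, y), s(b, y), s(a, b)})) * ((t + k') s(a, y) * (t + k') s(b, y)) =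
        p₁ (t + k) + p₁ t := by
      rw [Finset.sum_eq_single x]
      · rw [Pi.add_apply, Pi.add_apply, del_zero hk' (Or.inl (by simp)),
          del_zero hk' (Or.inr (by simp)), add_zero, add_zero, ht, chi_of_mem (by simp),
          chi_of_mem (by simp), mul_one, mul_one]
      · intro y hy hyx
        have hy' := mem_cmn.mp hy
        rw [Pi.add_apply, del_zero hk' (Or.inl (by simp)), add_zero, ht,
          chi_of_notMem (notMem_triangle hab.ne hx'.1.ne hyx hy'.2.ne'), zero_mul, mul_zero]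
      · intro h
        exact absurd hx h
    rw [h2] at h1
    have h3 : t + k' + k = t + (k + k') := by rw [add_assoc, add_comm k' k]
    rw [h3] at h1
    have h4 := zmod2_add_self (p₁ (t + k'))
    calc p₁ (t + (k + k')) + p₁ t
        = (p₁ (t + (k + k')) + p₁ (t + k')) + (p₁ (t + k') + p₁ t) -
          (p₁ (t + k') + p₁ (t + k')) := by ring
      _ = (p₁ (t + k) + p₁ t) + (p₁ (t + k') + p₁ t) := by rw [h1, h4, sub_zero]
  -- coefficients
  have hm : ∀ x ∈ cmn G a b, ∃ m : Chain α, ∀ k ∈ Z1 (del G {a, b}),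
      (p₁ (chi {s(a, x), s(b, x), s(a, b)} + k) + p₁ (chi {s(a, x), s(b, x), s(a, b)})) =
        ∑ e, m e * k e := fun x hx =>
    exists_coeff (Z1 (del G {a, b})) (fun k => p₁ (chi {s(a, x), s(b, x), s(a, b)} + k) +
      p₁ (chi {s(a, x), s(b, x), s(a, b)})) (hγ x hx)
  choose! m hm using hm
  set l : α → Chain α := fun x e => if a ∈ e ∨ b ∈ e then 0 else m x e with hl
  have hl0 : ∀ x e, a ∈ e ∨ b ∈ e → l x e = 0 := fun x e he => if_pos he
  have hlk : ∀ x ∈ cmn G a b, ∀ k ∈ Z1 (del G {a, b}),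
      (p₁ (chi {s(a, x), s(b, x), s(a, b)} + k) + p₁ (chi {s(a, x), s(b, x), s(a, b)})) =
        lf (l x) k := by
    intro x hx k hk
    rw [hm x hx k hk]
    refine Finset.sum_congr rfl fun e _ => ?_
    by_cases he : a ∈ e ∨ b ∈ e
    · rw [del_zero hk he, mul_zero, mul_zero]
    · show m x e * k e = (if a ∈ e ∨ b ∈ e then 0 else m x e) * k e
      rw [if_neg he]
  -- `p₂`
  set p₂ : Chain α → ZMod 2 := fun c => p₁ c + cnp G a b l c with hp₂
  have hp₂deg : DegLE 3 p₂ := hPOL.add hp₁deg (cnp_deg hPOL l)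
  have hinv : ∀ c ∈ Z1 G, ∀ k ∈ Z1 (del G {a, b}), p₂ (c + k) = p₂ c := by
    intro c hc k hk
    show p₁ (c + k) + cnp G a b l (c + k) = p₁ c + cnp G a b l c
    rw [cnp_add l c k (fun e he => del_zero hk he)]
    have h1 := hq k hk c hc
    have h2 : ∑ x ∈ cmn G a b, (p₁ (chi {s(a, x), s(b, x), s(a, b)} + k) +
        p₁ (chi {s(a, x), s(b, x), s(a, b)})) * (c s(a, x) * c s(b, x)) =
        ∑ x ∈ cmn G a b, lf (l x) k * (c s(a, x) * c s(b, x)) :=
      Finset.sum_congr rfl fun x hx => by rw [hlk x hx k hk]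
    rw [h2] at h1
    rw [← h1]
    have h3 := zmod2_add_self (p₁ (c + k))
    linear_combination h3
  -- the section
  obtain ⟨σ, hσ1, hσ2, hσ3⟩ := exists_section hTWO hab hK
  have hdiff : ∀ c ∈ Z1 G, ∀ d ∈ Z1 G, (∀ e ∈ EA G a b ∪ EA G b a, c e = d e) →
      p₂ c = p₂ d := by
    intro c hc d hd h
    have h1 : d + c ∈ Z1 (del G {a, b}) := by
      refine mem_del_of hab (Submodule.add_mem _ hd hc) fun e he => ?_
      rw [Pi.add_apply, h e he]
      exact zmod2_add_self _
    have h2 : c = d + (d + c) := by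
      rw [← add_assoc, chain_add_self, zero_add]
    rw [h2]
    exact hinv d hd _ h1
  have hPdeg : DegLE 3 (fun c => p₂ (σ c)) := hPOL.comp σ hp₂deg
  obtain ⟨ρ, hρ, hρe⟩ := hTRX.ex (EA G a b ∪ EA G b a) (fun c => p₂ (σ c)) hPdeg (by
    intro F hF hcard
    rcases hcard with h0 | h2
    · rw [Finset.card_eq_zero] at h0
      subst h0
      have e1 : (chi ∅ : Chain α) = 0 := by
        funext e
        exact chi_of_notMem (Finset.notMem_empty _)
      show p₂ (σ (chi ∅)) = 0
      rw [e1, map_zero]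
      show p 0 + ∑ w, R w 0 + cnp G a b l 0 = 0
      rw [hp0, Finset.sum_eq_zero (fun w _ => (hTRA.deg (hR w)).2), cnp_eq,
        Finset.sum_eq_zero (fun x _ => by rw [Pi.zero_apply, zero_mul, zero_mul])]
      rfl
    · -- a cycle with the trace `F`
      have hex : ∃ C, CycM G a b C ∧ (∀ e ∈ EA G a b ∪ EA G b a, e ∈ C ↔ e ∈ F) ∧
          cnp G a b l (chi C) = 0 := by
        by_cases hpair : ∃ x ∈ cmn G a b, F = {s(a, x), s(b, x)}
        · obtain ⟨x, hx, hFx⟩ := hpair
          have hx' := mem_cmn.mp hx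
          refine ⟨_, hSEF.tri hab hx'.1 hx'.2, ?_, ?_⟩
          · intro e he
            have hne := (EA_union.mp he).2.2
            rw [hFx]
            simp only [mem_insert, mem_singleton]
            constructor
            · rintro (h | h | h)
              · exact Or.inl h
              · exact Or.inr h
              · exact absurd h hne
            · rintro (h | h)
              · exact Or.inl h
              · exact Or.inr (Or.inl h)
          · rw [cnp_eq]
            refine Finset.sum_eq_zero fun y _ => ?_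
            have : lf (l y) (chi {s(a, x), s(b, x), s(a, b)}) = 0 := by
              unfold lf
              rw [sum_mul_chi]
              refine Finset.sum_eq_zero fun e he => hl0 y e ?_
              simp only [mem_insert, mem_singleton] at he
              rcases he with rfl | rfl | rfl
              · exact Or.inl (by simp)
              · exact Or.inr (by simp)
              · exact Or.inl (by simp)
            rw [this, mul_zero]
        · obtain ⟨C, hC, hCe⟩ := hTWO.pair hab hK F h2 (fun e he => EA_union.mp (hF he))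
          refine ⟨C, hC, fun e he => hCe e (EA_union.mp he), ?_⟩
          rw [cnp_eq]
          refine Finset.sum_eq_zero fun x hx => ?_
          have hx' := mem_cmn.mp hx
          have h3 : chi C s(a, x) * chi C s(b, x) = 0 := by
            by_contra hne
            have h4 : s(a, x) ∈ C := by
              by_contra h
              rw [chi_of_notMem h, zero_mul] at hne
              exact hne rfl
            have h5 : s(b, x) ∈ C := by
              by_contra h
              rw [chi_of_notMem h, mul_zero] at hne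
              exact hne rfl
            have s1 : s(a, x) ∈ sab G a b := by
              refine ⟨hx'.1, Or.inl (by simp), ?_⟩
              intro h
              rw [Sym2.congr_right] at h
              exact hx'.2.ne h.symm
            have s2 : s(b, x) ∈ sab G a b := by
              refine ⟨hx'.2, Or.inr (by simp), ?_⟩
              intro h
              rw [Sym2.eq_swap (a := a), Sym2.congr_right] at h
              exact hx'.1.ne h.symm
            rw [hCe _ s1] at h4
            rw [hCe _ s2] at h5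
            have h6 : s(a, x) ≠ s(b, x) := by
              intro h
              rw [Sym2.congr_left] at h
              exact hab.ne h
            have h7 : ({s(a, x), s(b, x)} : Finset (Sym2 α)) = F := by
              apply Finset.eq_of_subset_of_card_le
              · intro e he
                rw [mem_insert, mem_singleton] at he
                rcases he with rfl | rfl
                · exact h4
                · exact h5
              · rw [h2, Finset.card_pair h6]
            exact hpair ⟨x, hx, h7.symm⟩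
          rw [h3, zero_mul]
      obtain ⟨C, hC, hCe, hcnp⟩ := hex
      have htr : ∀ e ∈ EA G a b ∪ EA G b a, chi C e = chi F e := by
        intro e he
        rw [chi_apply, chi_apply]
        simp only [hCe e he]
      have heven : ∑ e ∈ EA G a b ∪ EA G b a, chi F e = 0 := by
        rw [← sum_sab hab hC.1.chi_mem]
        exact Finset.sum_congr rfl fun e he => (htr e he).symm
      show p₂ (σ (chi F)) = 0
      rw [hdiff (σ (chi F)) (hσ1 _) (chi C) hC.1.chi_mem (fun e he => by
        rw [hσ2 _ heven e he, htr e he])]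
      show p (chi C) + ∑ w, R w (chi C) + cnp G a b l (chi C) = 0
      rw [hcnp, hcyc C hC, Finset.sum_eq_zero (fun w _ => rv_cyc hTRA (hR w) hC.1)]
      rfl)
  refine ⟨R, ρ, l, hR, hRa, hRb, ?_, hl0, ?_⟩
  · rw [← EA_union_coe]
    exact hρ
  · intro c hc
    have h1 : p₂ c = ρ c := by
      have e1 := hρe (rst (EA G a b ∪ EA G b a) c) (fun e he => rst_supp he)
        (by rw [sum_rst]; exact sum_sab hab hc)
      have e2 : ρ (rst (EA G a b ∪ EA G b a) c) = ρ c :=
        hTRA.loc hρ _ _ fun e he => rst_of_mem (Finset.mem_coe.mp he)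
      have e3 : σ (rst (EA G a b ∪ EA G b a) c) = σ c := hσ3 _ _ fun e he => rst_of_mem he
      rw [e2] at e1
      rw [← e1]
      show p₂ c = p₂ (σ (rst (EA G a b ∪ EA G b a) c))
      rw [e3]
      exact hdiff c hc (σ c) (hσ1 c) fun e he => (hσ2 c (sum_sab hab hc) e he).symm
    have h2 : p c + ∑ w, R w c + cnp G a b l c = ρ c := h1
    rw [← h2]
    have h3 := zmod2_add_self (∑ w, R w c)
    have h4 := zmod2_add_self (cnp G a b l c)
    linear_combination (-1 : ZMod 2) * h3 - h4

end DL
end
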