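import Pool.Agent.DL.EX.Spec
import Pool.Agent.DL.RT1
import Pool.Agent.DL.TREE

section
/-!
MP_3ff0f8_gt, EX/K block: the affine lemma, from `DL/RT1.lean` (helper59).
-/
open SimpleGraph Finset

namespace DL

namespace RT1M

set_option linter.unusedSectionVars false

variable {α : Type} [Fintype α] [DecidableEq α] {G : SimpleGraph α}

/-- the chain in the form of the Specs -/
def toCh2 {s t : α} (c : Chn2 G s t) : Ch2 G s t where
  X := ![c.Y0, c.Y1, c.Y2]
  disj := by
    intro i j hij
    fin_cases i <;> fin_cases j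
    · exact absurd rfl hij
    · exact c.d01
    · exact c.d02
    · exact c.d01.symm
    · exact absurd rfl hij
    · exact c.d12
    · exact c.d02.symm
    · exact c.d12.symm
    · exact absurd rfl hij
  T := ![c.T0, c.T1, c.T2]
  sub := by
    intro i
    fin_cases i
    · exact c.le0
    · exact c.le1
    · exact c.le2
  inX := by
    intro i
    fin_cases i
    · exact c.t0.inY
    · exact c.t1.inY
    · exact c.t2.inY
  conn := by
    intro i
    fin_cases i
    · exact c.t0.conn
    · exact c.t1.conn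
    · exact c.t2.conn
  acyc := by
    intro i
    fin_cases i
    · exact c.t0.acyc
    · exact c.t1.acyc
    · exact c.t2.acyc
  sX := c.hs
  tX := c.ht
  p := ![c.p0, c.p1]
  q := ![c.q0, c.q1]
  pX := by
    intro i b
    fin_cases i
    · exact c.hp0 b
    · exact c.hp1 b
  qX := by
    intro i b
    fin_cases i
    · exact c.hq0 b
    · exact c.hq1 b
  adj := by
    intro i b
    fin_cases i
    · exact c.adj0 b
    · exact c.adj1 b
  ne := by
    intro i
    fin_cases i
    · exact c.ne0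
    · exact c.ne1

theorem toCh2_pth {s t : α} (c : Chn2 G s t) (e : Fin 2 → Bool) :
    (toCh2 c).pth e = c.pth (e 0) (e 1) := by
  change tp c.T0 s (c.p0 (e 0)) ∪ {s(c.p0 (e 0), c.q0 (e 0))} ∪
    tp c.T1 (c.q0 (e 0)) (c.p1 (e 1)) ∪ {s(c.p1 (e 1), c.q1 (e 1))} ∪
    tp c.T2 (c.q1 (e 1)) t = _
  rw [Chn2.pth, Chn2.out]
  simp only [insert_eq, union_assoc]

theorem sum_toCh2 {s t : α} (c : Chn2 G s t) (φ : Finset (Sym2 α) → ZMod 2) :
    ∑ e, ∑ e', φ (c.pth e e') = ∑ e : Fin 2 → Bool, φ ((toCh2 c).pth e) := by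
  rw [← Fintype.sum_prod_type' (f := fun e e' => φ (c.pth e e'))]
  symm
  refine Fintype.sum_equiv (finTwoArrowEquiv Bool) _ _ fun e => ?_
  rw [toCh2_pth]
  rfl

end RT1M

/-- RTI -/
theorem specRTI : SpecRTI := by
  classical
  intro α _ _ G s t X T hB ht φ hφ
  have hT : RTree X T := ⟨hB.tree.inX, hB.tree.conn, hB.tree.acyc⟩
  obtain ⟨w, hw⟩ := RT1M.aux _ G s t X T φ hT hB.sub hB.sX ht rfl (fun c h1 h2 => by
    rw [RT1M.sum_toCh2]
    exact hφ (RT1M.toCh2 c) h1 h2)
  refine ⟨0, fun e => if e ∈ T.edgeSet then 0 else w e, ?_⟩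
  rintro P ⟨x, hx, y, P', hy, hxy, hP', rfl⟩
  obtain ⟨hP1, hP2⟩ := DL.isPth_del.1 hP'
  have hxP : x ∉ vs P' := fun h => Finset.disjoint_left.1 hP2 h hx
  have hex : RT1M.Ex G X x t (insert s(x, y) P') := by
    refine ⟨hx, hP1.cons hxy hxP, fun z hz hzX => ?_⟩
    rw [vs_insert, mem_union, mem_insert, mem_singleton] at hz
    rcases hz with (rfl | rfl) | hz
    · rfl
    · exact absurd hzX hy
    · exact absurd hzX (Finset.disjoint_left.1 hP2 hz)
  have h1 := hw x _ hex
  have e1 : tp T s x ∪ {s(x, y)} ∪ P' = tp T s x ∪ insert s(x, y) P' := by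
    rw [insert_eq, union_assoc]
  have hnot : ∀ e ∈ insert s(x, y) P', e ∉ T.edgeSet := by
    intro e he he'
    induction e using Sym2.ind with
    | _ a b => exact hex.not_inside he ⟨hT.inY _ _ he', hT.inY' he'⟩
  have hdis : Disjoint (tp T s x) (insert s(x, y) P') := by
    rw [Finset.disjoint_left]
    intro e he he'
    exact hnot e he' ((hT.tp_isPth hB.sX hx).subset e he)
  rw [e1, h1, zero_add, sum_union hdis]
  have h0 : ∑ e ∈ tp T s x, (if e ∈ T.edgeSet then 0 else w e) = 0 :=
    sum_eq_zero fun e he => if_pos ((hT.tp_isPth hB.sX hx).subset e he)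
  rw [h0, zero_add]
  exact sum_congr rfl fun e he => (if_neg (hnot e he)).symm

/-- RT1 -/
theorem specRT1 : SpecRT1 := by
  intro α _ _ G s t hst φ hφ
  obtain ⟨w, hw⟩ := rt1 hst φ (fun c => by
    rw [RT1M.sum_toCh2]
    exact hφ _)
  exact ⟨0, w, fun P hP => by rw [zero_add]; exact hw P hP⟩

end DL
end

section
/-!
# MP_3ff0f8_gt, EX block, module TRE: trees
-/
open SimpleGraph Finset

namespace DL

set_option linter.unusedSectionVars false

namespace TREM

variable {α : Type} [Fintype α] [DecidableEq α]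

theorem toR {T : SimpleGraph α} {X : Finset α} (h : TreeOn T X) : RTree X T :=
  ⟨h.inX, h.conn, h.acyc⟩

theorem ofR {T : SimpleGraph α} {X : Finset α} (h : RTree X T) : TreeOn T X :=
  ⟨h.inY, h.conn, h.acyc⟩

theorem z1 (T : SimpleGraph α) : T.IsAcyclic ↔ ∀ c ∈ Z1 T, c = 0 := by
  constructor
  · exact fun h c hc => eq_zero_of_acyclic h hc
  · intro h v w hw
    have h1 : IsCyc T w.edges.toFinset := ⟨v, w, hw, rfl⟩
    have h2 := h _ h1.chi_mem
    obtain ⟨e, he⟩ := h1.nonempty
    have h3 := congrFun h2 e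
    rw [chi_of_mem he] at h3
    exact one_ne_zero h3

theorem tpc {T : SimpleGraph α} {X : Finset α} (h : TreeOn T X) {v w : α} (hv : v ∈ X)
    (hw : w ∈ X) {c : Chain α} (hc : ∀ e, c e ≠ 0 → e ∈ T.edgeSet)
    (hb : ∀ u, bdy c u = (if u = v then 1 else 0) + if u = w then 1 else 0) :
    c = chi (DL.tp T v w) := by
  have hP := (toR h).tp_isPth hv hw
  have h0 : c + chi (tp T v w) = 0 := by
    refine eq_zero_of_acyclic h.acyc ⟨fun e he => ?_, fun u => ?_⟩
    · rcases mem_union.1 (csupp_add _ _ (mem_csupp.2 he)) with h1 | h1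
      · exact hc e (mem_csupp.1 h1)
      · rw [csupp_chi] at h1
        exact hP.subset e h1
    · rw [bdy_add, hb, hP.bdy_chi, zmod2_add_self]
  have h1 := chain_add_eq_iff.1 h0
  rwa [zero_add] at h1

/-- two trees with one common vertex -/
theorem glue {T T' : SimpleGraph α} {X X' : Finset α} {v : α} (h : TreeOn T X)
    (h' : TreeOn T' X') (hX : X ∩ X' = {v}) : TreeOn (T ⊔ T') (X ∪ X') := by
  classical
  have hv : v ∈ X ∧ v ∈ X' := mem_inter.1 (by rw [hX]; exact mem_singleton_self v)
  have hcom : ∀ u, u ∈ X → u ∈ X' → u = v := fun u h1 h2 => by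
    have := mem_inter.2 ⟨h1, h2⟩
    rw [hX] at this
    exact mem_singleton.1 this
  refine ⟨?_, ?_, ?_⟩
  · intro a b hab
    rcases hab with hab | hab
    · exact mem_union_left _ (h.inX a b hab)
    · exact mem_union_right _ (h'.inX a b hab)
  · have h1 : ∀ a ∈ X ∪ X', (T ⊔ T').Reachable a v := by
      intro a ha
      rcases mem_union.1 ha with ha | ha
      · exact (h.conn a ha v hv.1).mono le_sup_left
      · exact (h'.conn a ha v hv.2).mono le_sup_right
    exact fun a ha b hb => (h1 a ha).trans (h1 b hb).symm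
  · rw [z1]
    intro c hc
    set c1 : Chain α := fun e => if e ∈ T.edgeSet then c e else 0 with hc1
    set c2 : Chain α := fun e => if e ∈ T.edgeSet then 0 else c e with hc2
    have hsum : c1 + c2 = c := by
      funext e
      rw [Pi.add_apply, hc1, hc2]
      by_cases he : e ∈ T.edgeSet <;> simp [he]
    have hs1 : ∀ e, c1 e ≠ 0 → e ∈ T.edgeSet := by
      intro e he
      by_contra h0
      exact he (by rw [hc1]; simp [h0])
    have hs2 : ∀ e, c2 e ≠ 0 → e ∈ T'.edgeSet := by
      intro e he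
      have h0 : e ∉ T.edgeSet := by
        intro h0
        exact he (by rw [hc2]; simp [h0])
      have h3 : c e ≠ 0 := by
        intro h4
        exact he (by rw [hc2]; simp [h4])
      have h5 := hc.1 e h3
      rw [edgeSet_sup] at h5
      exact h5.resolve_left h0
    have hb1 : ∀ u, u ∉ X → bdy c1 u = 0 := by
      intro u hu
      refine sum_eq_zero fun e he => ?_
      by_contra h0
      have h3 := hs1 e h0
      have h4 := (mem_filter.1 he).2
      induction e using Sym2.ind with
      | _ a b =>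
        rw [Sym2.mem_iff] at h4
        rcases h4 with rfl | rfl
        · exact hu (h.inX _ b h3)
        · exact hu (h.inX _ a ((mem_edgeSet T).1 h3).symm)
    have hb2 : ∀ u, u ∉ X' → bdy c2 u = 0 := by
      intro u hu
      refine sum_eq_zero fun e he => ?_
      by_contra h0
      have h3 := hs2 e h0
      have h4 := (mem_filter.1 he).2
      induction e using Sym2.ind with
      | _ a b =>
        rw [Sym2.mem_iff] at h4
        rcases h4 with rfl | rfl
        · exact hu (h'.inX _ b h3)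
        · exact hu (h'.inX _ a ((mem_edgeSet T').1 h3).symm)
    have hb12 : ∀ u, bdy c1 u + bdy c2 u = 0 := fun u => by
      rw [← bdy_add, hsum]
      exact hc.2 u
    have hb3 : ∀ u, u ≠ v → bdy c1 u = 0 := by
      intro u hu
      by_cases h1 : u ∈ X
      · have h2 := hb2 u fun h2 => hu (hcom u h1 h2)
        have h3 := hb12 u
        rwa [h2, add_zero] at h3
      · exact hb1 u h1
    have hb4 : bdy c1 v = 0 := by
      have h1 := sum_mul_bdy (fun _ => (1 : ZMod 2)) (c := c1)
        fun e he => T.not_isDiag_of_mem_edgeSet (hs1 e he)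
      have h2 : ∑ e, cob (fun _ : α => (1 : ZMod 2)) e * c1 e = 0 := by
        refine sum_eq_zero fun e _ => ?_
        induction e using Sym2.ind with
        | _ a b => rw [cob_mk, zmod2_add_self, zero_mul]
      rw [h2] at h1
      simp only [one_mul] at h1
      rwa [Finset.sum_eq_single v (fun u _ hu => hb3 u hu)
        (fun h3 => absurd (mem_univ v) h3)] at h1
    have hb5 : ∀ u, bdy c1 u = 0 := fun u => by
      by_cases hu : u = v
      · rw [hu]; exact hb4
      · exact hb3 u hu
    have hz1 : c1 = 0 := eq_zero_of_acyclic h.acyc ⟨hs1, hb5⟩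
    have hz2 : c2 = 0 := eq_zero_of_acyclic h'.acyc ⟨hs2, fun u => by
      have := hb12 u
      rwa [hb5 u, zero_add] at this⟩
    rw [← hsum, hz1, hz2, add_zero]

/-- the path in a glued tree -/
theorem glue_tp {T T' : SimpleGraph α} {X X' : Finset α} {v : α} (h : TreeOn T X)
    (h' : TreeOn T' X') (hX : X ∩ X' = {v}) {x y : α} (hx : x ∈ X) (hy : y ∈ X') :
    DL.tp (T ⊔ T') x y = DL.tp T x v ∪ DL.tp T' v y := by
  have hv : v ∈ X ∧ v ∈ X' := mem_inter.1 (by rw [hX]; exact mem_singleton_self v)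
  have h1 := ((toR h).tp_isPth hx hv.1).mono (le_sup_left : T ≤ T ⊔ T')
  have h2 := ((toR h').tp_isPth hv.2 hy).mono (le_sup_right : T' ≤ T ⊔ T')
  refine DL.tp_eq (glue h h' hX).acyc (h1.append h2 ?_)
  intro z hz
  rw [← hX]
  rw [mem_inter] at hz ⊢
  exact ⟨(toR h).vs_tp hx hv.1 hz.1, (toR h').vs_tp hv.2 hy hz.2⟩

theorem grow {T : SimpleGraph α} {X : Finset α} {v w : α} (h : TreeOn T X) (hv : v ∈ X)
    (hw : w ∉ X) : TreeOn (T ⊔ fromEdgeSet {s(v, w)}) (insert w X) := by
  have h1 := (toR h).add_leaf hv hw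
  rw [gr, coe_singleton] at h1
  exact ofR h1

theorem grow_tp {T : SimpleGraph α} {X : Finset α} {v w : α} (h : TreeOn T X) (hv : v ∈ X)
    (hw : w ∉ X) {x : α} (hx : x ∈ X) :
    DL.tp (T ⊔ fromEdgeSet {s(v, w)}) x w = insert s(v, w) (DL.tp T x v) := by
  have hvw : v ≠ w := fun e => hw (e ▸ hv)
  have h1 := ((toR h).tp_isPth hx hv).mono
    (le_sup_left : T ≤ T ⊔ fromEdgeSet {s(v, w)})
  have h2 : (T ⊔ fromEdgeSet {s(v, w)}).Adj v w := by
    right
    rw [fromEdgeSet_adj]
    exact ⟨rfl, hvw⟩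
  have h3 : IsPth (T ⊔ fromEdgeSet {s(v, w)}) x w (DL.tp T x v ∪ {s(v, w)}) := by
    refine h1.append (IsPth.edge h2) ?_
    intro z hz
    rw [mem_inter, vs_singleton, mem_insert, mem_singleton] at hz
    rw [mem_singleton]
    rcases hz.2 with h4 | h4
    · exact h4
    · exact absurd ((toR h).vs_tp hx hv (h4 ▸ hz.1)) hw
  rw [DL.tp_eq (grow h hv hw).acyc h3, union_comm]
  rfl

end TREM

open TREM in
/-- Module TRE. -/
theorem specTRE : SpecTRE where
  z1 := TREM.z1
  tp := fun h v hv w hw => ⟨(toR h).tp_isPth hv hw, fun _ hP => (DL.tp_eq h.acyc hP).symm⟩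
  tpc := fun h _ hv _ hw _ hc hb => TREM.tpc h hv hw hc hb
  tpm := fun h h' hle _ v hv w hw => DL.tp_mono h'.acyc hle (h.conn v hv w hw)
  single := fun v => ⟨ofR (RTree.single v), DL.tp_self isAcyclic_bot v⟩
  glue := fun h h' hX => ⟨TREM.glue h h' hX, fun _ hx _ hy => glue_tp h h' hX hx hy⟩
  grow := fun h hv hw => ⟨TREM.grow h hv hw, fun _ hx => grow_tp h hv hw hx⟩
  pth := fun {α _ _ G s t P} hP => ⟨ofR hP.treeOn, by
    refine DL.tp_eq hP.treeOn.acyc (hP.transfer fun e he => ?_)
    have := hP.not_isDiag e he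
    induction e using Sym2.ind with
    | _ a b => exact gr_adj.2 ⟨he, by simpa using this⟩⟩
  four := fun {α _ _ T X} h v hv w hw u hu => by
    have h1 := (toR h).four hv hw hw hu
    rw [DL.tp_self h.acyc w, DL.chi_empty, zero_add] at h1
    have h2 := DL.chain_add_eq_iff.1 h1
    rwa [zero_add] at h2

end DL
end
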