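import Pool.Agent.DL.EX.MUE

set_option autoImplicit false

/-!
# COB: duality for the 2-cycles of the deleted product
-/

open SimpleGraph Finset

namespace DL

namespace COBM

open MUEM

variable {α : Type} [Fintype α] [DecidableEq α]

/-- the space of symmetric functions on pairs of disjoint edges of `G` -/
def V (G : SimpleGraph α) : Submodule (ZMod 2) (Sym2 α → Sym2 α → ZMod 2) where
  carrier := {z | (∀ e f, z e f = z f e) ∧ ∀ e f, z e f ≠ 0 → e ∈ G.edgeSet ∧ f ∈ G.edgeSet ∧ Dj e f}
  add_mem' := by
    rintro x y ⟨hx, hx'⟩ ⟨hy, hy'⟩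
    refine ⟨fun e f => by simp only [Pi.add_apply, hx e f, hy e f], fun e f h => ?_⟩
    by_cases h1 : x e f = 0
    · have h2 : y e f ≠ 0 := by
        intro h2
        apply h
        simp [h1, h2]
      exact hy' e f h2
    · exact hx' e f h1
  zero_mem' := ⟨fun _ _ => rfl, fun e f h => absurd rfl h⟩
  smul_mem' := by
    rintro r x ⟨hx, hx'⟩
    refine ⟨fun e f => by simp only [Pi.smul_apply, hx e f], fun e f h => ?_⟩
    apply hx'
    intro h1
    apply h
    simp [h1]

/-- the value of the coefficients as a functional -/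
noncomputable def K (G : SimpleGraph α) (l : α → α → α → α → ZMod 2) : V G →ₗ[ZMod 2] ZMod 2 where
  toFun z := pair2 l z.1
  map_add' x y := by
    simp only [pair2, Submodule.coe_add, Pi.add_apply, mul_add, sum_add_distrib]
  map_smul' r x := by
    simp only [pair2, Submodule.coe_smul, Pi.smul_apply, smul_eq_mul, RingHom.id_apply, mul_sum]
    refine sum_congr rfl fun a _ => sum_congr rfl fun b _ => sum_congr rfl fun c _ =>
      sum_congr rfl fun d _ => by ring

open Classical in
/-- the boundary functional -/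
noncomputable def Lb (G : SimpleGraph α) (p : Sym2 α × α) : V G →ₗ[ZMod 2] ZMod 2 where
  toFun z := if p.2 ∈ p.1 then 0 else ∑ f ∈ univ.filter (fun f => p.2 ∈ f), z.1 p.1 f
  map_add' x y := by
    split_ifs
    · simp
    · simp only [Submodule.coe_add, Pi.add_apply, sum_add_distrib]
  map_smul' r x := by
    split_ifs
    · simp
    · simp only [Submodule.coe_smul, Pi.smul_apply, smul_eq_mul, RingHom.id_apply, mul_sum]

open Classical in
/-- the value functional -/
noncomputable def Ln (G : SimpleGraph α) (nb : Sym2 α → Sym2 α → Prop) (p : Sym2 α × Sym2 α) :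
    V G →ₗ[ZMod 2] ZMod 2 where
  toFun z := if nb p.1 p.2 then z.1 p.1 p.2 else 0
  map_add' x y := by
    split_ifs
    · simp only [Submodule.coe_add, Pi.add_apply]
    · simp
  map_smul' r x := by
    split_ifs
    · simp only [Submodule.coe_smul, Pi.smul_apply, smul_eq_mul, RingHom.id_apply]
    · simp

open Classical in
/-- the symmetric function of a pair of edges -/
noncomputable def z0 (p q : Sym2 α) (e f : Sym2 α) : ZMod 2 :=
  if (e = p ∧ f = q) ∨ (e = q ∧ f = p) then 1 else 0

lemma dj_of_dj4 {a b c d : α} (h : Dj4 a b c d) : Dj s(a, b) s(c, d) := by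
  obtain ⟨h1, h2, h3, h4, h5, h6⟩ := h
  rintro v ⟨hv1, hv2⟩
  rcases Sym2.mem_iff.1 hv1 with rfl | rfl <;> rcases Sym2.mem_iff.1 hv2 with h | h
  · exact h3 h
  · exact h4 h
  · exact h5 h
  · exact h6 h

lemma z0_mem (G : SimpleGraph α) {a b c d : α} (hab : G.Adj a b) (hcd : G.Adj c d)
    (h : Dj4 a b c d) : z0 s(a, b) s(c, d) ∈ V G := by
  refine ⟨fun e f => ?_, fun e f hne => ?_⟩
  · unfold z0
    congr 1
    exact propext ⟨fun h => h.symm.imp And.symm And.symm, fun h => h.symm.imp And.symm And.symm⟩
  · unfold z0 at hne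
    split_ifs at hne with h1
    · rcases h1 with ⟨rfl, rfl⟩ | ⟨rfl, rfl⟩
      · exact ⟨hab, hcd, dj_of_dj4 h⟩
      · exact ⟨hcd, hab, fun v hv => dj_of_dj4 h v hv.symm⟩
    · exact absurd rfl hne

lemma edge_ne {a b c d : α} (h : Dj4 a b c d) : s(a, b) ≠ s(c, d) := by
  intro e
  rcases Sym2.eq_iff.1 e with ⟨h1, _⟩ | ⟨h1, _⟩
  · exact h.2.2.1 h1
  · exact h.2.2.2.1 h1

lemma sum_ite_pair (g : α → α → ZMod 2) {a b : α} (hab : a ≠ b) :
    ∑ x, ∑ y, (if s(x, y) = s(a, b) then g x y else 0) = g a b + g b a := by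
  have h1 : ∀ x y, (if s(x, y) = s(a, b) then g x y else 0) =
      (if x = a then (if y = b then g x y else 0) else 0) +
      (if x = b then (if y = a then g x y else 0) else 0) := by
    intro x y
    by_cases h : s(x, y) = s(a, b)
    · rcases Sym2.eq_iff.1 h with ⟨rfl, rfl⟩ | ⟨rfl, rfl⟩
      · simp [hab]
      · simp [hab, hab.symm]
    · rw [if_neg h]
      have h2 : ¬ (x = a ∧ y = b) := fun h3 => h (by rw [h3.1, h3.2])
      have h3 : ¬ (x = b ∧ y = a) := fun h3 => h (by rw [h3.1, h3.2, Sym2.eq_swap])
      by_cases hx : x = a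
      · have hy : y ≠ b := fun hy => h2 ⟨hx, hy⟩
        simp [hx, hy, hab]
      · by_cases hx' : x = b
        · have hy : y ≠ a := fun hy => h3 ⟨hx', hy⟩
          simp [hx', hy, hab.symm]
        · simp [hx, hx']
  simp only [h1, sum_add_distrib]
  simp

lemma pair2_z0 (l : α → α → α → α → ZMod 2) {a b c d : α} (h : Dj4 a b c d) :
    pair2 l (z0 s(a, b) s(c, d)) = sym8 l a b c d := by
  have hne := edge_ne h
  have h1 : ∀ w x y z, l w x y z * z0 s(a, b) s(c, d) s(w, x) s(y, z) =
      (if s(w, x) = s(a, b) then (if s(y, z) = s(c, d) then l w x y z else 0) else 0) +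
      (if s(w, x) = s(c, d) then (if s(y, z) = s(a, b) then l w x y z else 0) else 0) := by
    intro w x y z
    unfold z0
    by_cases p : s(w, x) = s(a, b)
    · by_cases q : s(y, z) = s(c, d)
      · simp [p, q, hne]
      · simp [p, q, hne]
    · by_cases p' : s(w, x) = s(c, d)
      · by_cases q : s(y, z) = s(a, b)
        · simp [p', q, hne.symm]
        · simp [p', q, hne.symm]
      · simp [p, p']
  unfold pair2
  simp only [h1, sum_add_distrib]
  have h2 : ∀ (a b c d : α), a ≠ b → c ≠ d → ∑ w, ∑ x, ∑ y, ∑ z, (if s(w, x) = s(a, b) then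
      (if s(y, z) = s(c, d) then l w x y z else 0) else 0) =
      l a b c d + l a b d c + (l b a c d + l b a d c) := by
    intro a b c d hab hcd
    have h3 : ∀ w x, ∑ y, ∑ z, (if s(w, x) = s(a, b) then
        (if s(y, z) = s(c, d) then l w x y z else 0) else 0) =
        if s(w, x) = s(a, b) then l w x c d + l w x d c else 0 := by
      intro w x
      split_ifs
      · exact sum_ite_pair (fun y z => l w x y z) hcd
      · simp
    simp only [h3]
    exact sum_ite_pair (fun w x => l w x c d + l w x d c) hab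
  rw [h2 a b c d h.1 h.2.1, h2 c d a b h.2.1 h.1]
  unfold sym8
  ring

lemma sum_z0 {p q : Sym2 α} (hpq : p ≠ q) (e : Sym2 α) (v : α) :
    ∑ f ∈ univ.filter (fun f => v ∈ f), z0 p q e f =
      (if e = p ∧ v ∈ q then 1 else 0) + (if e = q ∧ v ∈ p then 1 else 0) := by
  have h1 : ∀ f, z0 p q e f = (if e = p then (if f = q then 1 else 0) else 0) +
      (if e = q then (if f = p then 1 else 0) else 0) := by
    intro f
    unfold z0
    by_cases h : e = p
    · subst h
      simp [hpq]
    · by_cases h' : e = q
      · subst h'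
        simp [hpq.symm]
      · simp [h, h']
  simp only [h1, sum_add_distrib]
  congr 1
  · by_cases h : e = p
    · simp only [h, true_and, if_true]
      rw [sum_ite_eq']
      simp
    · simp [h]
  · by_cases h : e = q
    · simp only [h, true_and, if_true]
      rw [sum_ite_eq']
      simp
    · simp [h]

end COBM

open COBM MUEM in
theorem specCOB : SpecCOB := by
  classical
  intro α _ _ G l nb hl
  let L : (Sym2 α × α) ⊕ (Sym2 α × Sym2 α) → (V G →ₗ[ZMod 2] ZMod 2) := fun i =>
    match i with
    | Sum.inl p => Lb G p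
    | Sum.inr p => Ln G nb p
  have hker : ⨅ i, LinearMap.ker (L i) ≤ LinearMap.ker (K G l) := by
    intro z hz
    rw [Submodule.mem_iInf] at hz
    rw [LinearMap.mem_ker]
    refine hl z.1 ⟨z.2.1, z.2.2, fun e v hv => ?_⟩ fun e f hnb => ?_
    · have := hz (Sum.inl (e, v))
      rw [LinearMap.mem_ker] at this
      change (if v ∈ e then (0 : ZMod 2) else _) = 0 at this
      rw [if_neg hv] at this
      exact this
    · have := hz (Sum.inr (e, f))
      rw [LinearMap.mem_ker] at this
      change (if nb e f then _ else (0 : ZMod 2)) = 0 at this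
      rw [if_pos hnb] at this
      exact this
  have hspan := mem_span_of_iInf_ker_le_ker hker
  rw [Submodule.mem_span_range_iff_exists_fun] at hspan
  obtain ⟨k, hk⟩ := hspan
  refine ⟨fun v e => k (Sum.inl (e, v)), fun e f => if nb e f then k (Sum.inr (e, f)) else 0,
    fun e f h => ?_, fun a b c d hab hcd hdj => ?_⟩
  · by_contra hcon
    exact h (if_neg hcon)
  · have hne := edge_ne hdj
    have h1 := LinearMap.congr_fun hk ⟨z0 s(a, b) s(c, d), z0_mem G hab hcd hdj⟩
    have h2 : K G l ⟨z0 s(a, b) s(c, d), z0_mem G hab hcd hdj⟩ = sym8 l a b c d :=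
      pair2_z0 l hdj
    rw [h2] at h1
    rw [← h1, LinearMap.sum_apply, Fintype.sum_sum_type]
    have e1 : ∑ p : Sym2 α × α, (k (Sum.inl p) • L (Sum.inl p))
        ⟨z0 s(a, b) s(c, d), z0_mem G hab hcd hdj⟩ =
        k (Sum.inl (s(c, d), a)) + k (Sum.inl (s(c, d), b)) + k (Sum.inl (s(a, b), c)) +
          k (Sum.inl (s(a, b), d)) := by
      have e2 : ∀ p : Sym2 α × α, (k (Sum.inl p) • L (Sum.inl p))
          ⟨z0 s(a, b) s(c, d), z0_mem G hab hcd hdj⟩ =
          (if p.1 = s(a, b) then (if p.2 ∈ s(c, d) then k (Sum.inl p) else 0) else 0) +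
          (if p.1 = s(c, d) then (if p.2 ∈ s(a, b) then k (Sum.inl p) else 0) else 0) := by
        intro p
        rw [LinearMap.smul_apply, smul_eq_mul]
        change k (Sum.inl p) * (if p.2 ∈ p.1 then (0 : ZMod 2) else
          ∑ f ∈ univ.filter (fun f => p.2 ∈ f), z0 s(a, b) s(c, d) p.1 f) = _
        rw [sum_z0 hne]
        have hD := dj_of_dj4 hdj
        by_cases h1 : p.1 = s(a, b)
        · rw [h1]
          by_cases h3 : p.2 ∈ s(c, d)
          · have h4 : p.2 ∉ s(a, b) := fun h => hD p.2 ⟨h, h3⟩
            simp [h3, h4, hne]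
          · simp [h3, hne]
        · by_cases h2 : p.1 = s(c, d)
          · rw [h2]
            by_cases h3 : p.2 ∈ s(a, b)
            · have h4 : p.2 ∉ s(c, d) := fun h => hD p.2 ⟨h3, h⟩
              simp [h3, h4, hne.symm]
            · simp [h3, hne.symm]
          · simp [h1, h2]
      simp only [e2, sum_add_distrib]
      have e3 : ∀ (p : Sym2 α) (x y : α), x ≠ y → ∑ q : Sym2 α × α,
          (if q.1 = p then (if q.2 ∈ s(x, y) then k (Sum.inl q) else 0) else 0) =
          k (Sum.inl (p, x)) + k (Sum.inl (p, y)) := by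
        intro p x y hxy
        rw [Fintype.sum_prod_type, sum_eq_single p]
        · simp only [if_true]
          have e4 : ∀ v : α, (if v ∈ s(x, y) then k (Sum.inl (p, v)) else 0) =
              (if v = x then k (Sum.inl (p, v)) else 0) + (if v = y then k (Sum.inl (p, v)) else 0) := by
            intro v
            by_cases h1 : v = x
            · simp [h1, hxy]
            · by_cases h2 : v = y
              · simp [h2, hxy.symm]
              · simp [h1, h2]
          simp only [e4, sum_add_distrib]
          simp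
        · intro e _ he
          simp [he]
        · intro h
          exact absurd (mem_univ _) h
      rw [e3 _ c d hdj.2.1, e3 _ a b hdj.1]
      ring
    have e5 : ∑ p : Sym2 α × Sym2 α, (k (Sum.inr p) • L (Sum.inr p))
        ⟨z0 s(a, b) s(c, d), z0_mem G hab hcd hdj⟩ =
        (if nb s(a, b) s(c, d) then k (Sum.inr (s(a, b), s(c, d))) else 0) +
        (if nb s(c, d) s(a, b) then k (Sum.inr (s(c, d), s(a, b))) else 0) := by
      have e2 : ∀ p : Sym2 α × Sym2 α, (k (Sum.inr p) • L (Sum.inr p))
          ⟨z0 s(a, b) s(c, d), z0_mem G hab hcd hdj⟩ =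
          (if p = (s(a, b), s(c, d)) then (if nb p.1 p.2 then k (Sum.inr p) else 0) else 0) +
          (if p = (s(c, d), s(a, b)) then (if nb p.1 p.2 then k (Sum.inr p) else 0) else 0) := by
        intro p
        rw [LinearMap.smul_apply, smul_eq_mul]
        change k (Sum.inr p) * (if nb p.1 p.2 then z0 s(a, b) s(c, d) p.1 p.2 else 0) = _
        unfold z0
        by_cases h1 : p = (s(a, b), s(c, d))
        · subst h1
          simp [hne]
        · by_cases h2 : p = (s(c, d), s(a, b))
          · subst h2
            simp [hne.symm]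
          · have h3 : ¬ ((p.1 = s(a, b) ∧ p.2 = s(c, d)) ∨ (p.1 = s(c, d) ∧ p.2 = s(a, b))) := by
              rintro (h | h)
              · exact h1 (Prod.ext h.1 h.2)
              · exact h2 (Prod.ext h.1 h.2)
            rw [if_neg h3, if_neg h1, if_neg h2]
            simp
      simp only [e2, sum_add_distrib]
      simp
    rw [e1, e5]
    ring

end DL
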