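import Pool.Agent.DL.EX.Spec

/-!
# MP_3ff0f8_gt, EX/K block: module `D4C` (helper86)
-/

open SimpleGraph Finset

namespace DL

namespace D4CM

/-- chains of a subgraph are chains -/
def up {α : Type} [Fintype α] [DecidableEq α] {G H : SimpleGraph α} {s t : α} (h : G ≤ H)
    (K : Ch2 G s t) : Ch2 H s t where
  X := K.X
  disj := K.disj
  T := K.T
  sub := fun i => le_trans (K.sub i) h
  inX := K.inX
  conn := K.conn
  acyc := K.acyc
  sX := K.sX
  tX := K.tX
  p := K.p
  q := K.q
  pX := K.pX
  qX := K.qX
  adj := fun i b => h (K.adj i b)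
  ne := K.ne

theorem up_pth {α : Type} [Fintype α] [DecidableEq α] {G H : SimpleGraph α} {s t : α} (h : G ≤ H)
    (K : Ch2 G s t) (e : Fin 2 → Bool) : (up h K).pth e = K.pth e := rfl

theorem del_le {α : Type} [DecidableEq α] (G : SimpleGraph α) (S : Finset α) : del G S ≤ G :=
  fun _ _ h => h.1

/-- an isolated vertex is only connected to itself -/
theorem eq_of_reach {α : Type} {T : SimpleGraph α} {a w : α} (ha : ∀ x, ¬ T.Adj a x)
    (h : T.Reachable a w) : a = w := by
  obtain ⟨p⟩ := h
  cases p with
  | nil => rfl
  | cons h _ => exact absurd h (ha _)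

theorem st1 {β : Type} [DecidableEq β] (A B : β) :
    (∅ : Finset β) ∪ {A} ∪ ∅ ∪ {B} ∪ ∅ = {A, B} ∪ ∅ := by
  ext z; simp only [mem_union, mem_insert, mem_singleton, notMem_empty]; tauto

theorem st2 {β : Type} [DecidableEq β] (A B C : β) :
    (∅ : Finset β) ∪ {A} ∪ {C} ∪ {B} ∪ ∅ = {A, B} ∪ {C} := by
  ext z; simp only [mem_union, mem_insert, mem_singleton, notMem_empty]; tauto

/-- the vertices `a`, `b` are not in a chain of `G - a - b` between other vertices -/
theorem not_mem {α : Type} [Fintype α] [DecidableEq α] {G : SimpleGraph α} {S : Finset α}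
    {x y : α} (K : Ch2 (del G S) x y) (hx : x ∉ S) (hy : y ∉ S) (i : Fin 3) :
    ∀ a ∈ S, a ∉ K.X i := by
  intro a haS haX
  have hiso : ∀ z, ¬ (K.T i).Adj a z := fun z hz => ((K.sub i) hz).2.1 haS
  have key : ∀ w ∈ K.X i, w ∉ S → False := by
    intro w hw hwS
    have := eq_of_reach hiso (K.conn i a haX w hw)
    exact hwS (this ▸ haS)
  fin_cases i
  · exact key x K.sX hx
  · exact key (K.q 0 false) (K.qX 0 false) (K.adj 0 false).2.2
  · exact key y K.tX hy

end D4CM

open D4CM in
theorem specD4C (hD4G : SpecD4G) (hTRE : SpecTRE) : SpecD4C := by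
  intro α _ _ G a b x y hab hax hbx hay hby hxy K
  have hxS : x ∉ ({a, b} : Finset α) := by
    simp only [mem_insert, mem_singleton, not_or]
    exact ⟨hax.ne', hbx.ne'⟩
  have hyS : y ∉ ({a, b} : Finset α) := by
    simp only [mem_insert, mem_singleton, not_or]
    exact ⟨hay.ne', hby.ne'⟩
  have hne : a ≠ b := hab.ne
  -- the tree on `{a, b}`
  obtain ⟨ta, tae⟩ := hTRE.single a
  obtain ⟨tx, txe⟩ := hTRE.single x
  obtain ⟨ty, tye⟩ := hTRE.single y
  obtain ⟨tt, ttp⟩ := hTRE.grow (v := a) (w := b) ta (by simp) (by simp [hne.symm])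
  set T1 : SimpleGraph α := ⊥ ⊔ fromEdgeSet {s(a, b)} with hT1
  have hT1adj : T1.Adj a b := by
    rw [hT1]
    simp [hne]
  have haX : a ∈ insert b ({a} : Finset α) := by simp
  have hbX : b ∈ insert b ({a} : Finset α) := by simp
  have p_ab : tp T1 a b = {s(a, b)} := (((hTRE.tp tt a haX b hbX).2 _ (IsPth.edge hT1adj))).symm
  have p_ba : tp T1 b a = {s(a, b)} := by
    have := (((hTRE.tp tt b hbX a haX).2 _ (IsPth.edge hT1adj).symm)).symm
    exact this
  have p_aa : tp T1 a a = ∅ := ((hTRE.tp tt a haX a haX).2 _ (IsPth.nil a)).symm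
  have p_bb : tp T1 b b = ∅ := ((hTRE.tp tt b hbX b hbX).2 _ (IsPth.nil b)).symm
  have hle1 : T1 ≤ G := by
    intro u w huw
    rw [hT1] at huw
    simp only [bot_sup_eq, fromEdgeSet_adj, Set.mem_singleton_iff] at huw
    have : s(u, w) ∈ G.edgeSet := by rw [huw.1]; exact hab
    exact this
  let L : Ch2 G x y :=
    { X := ![{x}, insert b {a}, {y}]
      disj := by
        intro i j hij
        fin_cases i <;> fin_cases j
        · exact absurd rfl hij
        · simp [hax.ne', hbx.ne']
        · simp [hxy]
        · simp [hax.ne', hbx.ne']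
        · exact absurd rfl hij
        · simp [hay.ne', hby.ne']
        · simp [hxy.symm]
        · simp [hay.ne', hby.ne']
        · exact absurd rfl hij
      T := ![⊥, T1, ⊥]
      sub := by
        intro i
        fin_cases i
        · exact bot_le
        · exact hle1
        · exact bot_le
      inX := by
        intro i
        fin_cases i
        · exact tx.inX
        · exact tt.inX
        · exact ty.inX
      conn := by
        intro i
        fin_cases i
        · exact tx.conn
        · exact tt.conn
        · exact ty.conn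
      acyc := by
        intro i
        fin_cases i
        · exact tx.acyc
        · exact tt.acyc
        · exact ty.acyc
      sX := by simp
      tX := by simp
      p := ![fun _ => x, fun c => if c then b else a]
      q := ![fun c => if c then b else a, fun _ => y]
      pX := by
        intro i c
        fin_cases i
        · simp
        · cases c <;> simp
      qX := by
        intro i c
        fin_cases i
        · cases c <;> simp
        · simp
      adj := by
        intro i c
        fin_cases i
        · cases c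
          · simpa using hax.symm
          · simpa using hbx.symm
        · cases c
          · simpa using hay
          · simpa using hby
      ne := by
        intro i
        fin_cases i
        · show s(x, a) ≠ s(x, b)
          intro h
          exact hne (Sym2.congr_right.1 h)
        · show s(a, y) ≠ s(b, y)
          intro h
          exact hne (Sym2.congr_left.1 h) }
  have hL : ∀ e : Fin 2 → Bool, L.pth e = {s(if e 0 then b else a, x), s(if e 1 then b else a, y)} ∪
      if e 0 = e 1 then ∅ else {s(a, b)} := by
    intro e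
    have h1 : L.pth e = tp ⊥ x x ∪ {s(x, if e 0 then b else a)} ∪
        tp T1 (if e 0 then b else a) (if e 1 then b else a) ∪
        {s(if e 1 then b else a, y)} ∪ tp ⊥ y y := rfl
    rw [h1, txe, tye]
    cases h0 : e 0 <;> cases h1 : e 1
    · simp only [Bool.false_eq_true, if_false, if_true, p_aa]
      rw [Sym2.eq_swap (a := x) (b := a)]
      exact st1 _ _
    · simp only [Bool.false_eq_true, if_false, if_true, p_ab]
      rw [Sym2.eq_swap (a := x) (b := a)]
      exact st2 _ _ _
    · simp only [Bool.false_eq_true, if_false, if_true, p_ba, Bool.true_eq_false]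
      rw [Sym2.eq_swap (a := x) (b := b)]
      exact st2 _ _ _
    · simp only [if_true, p_bb]
      rw [Sym2.eq_swap (a := x) (b := b)]
      exact st1 _ _
  set K' : Ch2 G x y := up (del_le G _) K with hK'
  have hKX : ∀ i, K'.X i = K.X i := fun i => rfl
  have hKdis : ∀ i, Disjoint (K'.X i) (L.X 1) := by
    intro i
    rw [Finset.disjoint_left]
    intro z hz hz'
    have hz'' : z = b ∨ z = a := by
      have : z ∈ insert b ({a} : Finset α) := hz'
      simpa using this
    exact not_mem K hxS hyS i z (by rcases hz'' with h | h <;> simp [h]) hz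
  have hx0 : ∀ i, i ≠ 0 → x ∉ K'.X i := fun i hi h =>
    Finset.disjoint_left.1 (K'.disj 0 i hi.symm) K'.sX h
  have hy2 : ∀ i, i ≠ 2 → y ∉ K'.X i := fun i hi h =>
    Finset.disjoint_left.1 (K'.disj 2 i hi.symm) K'.tX h
  obtain ⟨D, hD⟩ := hD4G K' L (by
    ext z
    rw [mem_inter, mem_singleton]
    constructor
    · rintro ⟨_, h⟩
      have : z ∈ ({x} : Finset α) := h
      simpa using this
    · rintro rfl
      exact ⟨K'.sX, by show z ∈ ({z} : Finset α); simp⟩) (by
    ext z
    rw [mem_inter, mem_singleton]
    constructor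
    · rintro ⟨_, h⟩
      have : z ∈ ({y} : Finset α) := h
      simpa using this
    · rintro rfl
      exact ⟨K'.tX, by show z ∈ ({z} : Finset α); simp⟩) (by
    intro i j h1 h2
    fin_cases j
    · show Disjoint (K'.X i) ({x} : Finset α)
      rw [Finset.disjoint_singleton_right]
      exact hx0 i fun h => h1 ⟨h, rfl⟩
    · exact hKdis i
    · show Disjoint (K'.X i) ({y} : Finset α)
      rw [Finset.disjoint_singleton_right]
      exact hy2 i fun h => h2 ⟨h, rfl⟩)
  refine ⟨D, fun e => ?_⟩
  rw [hD e, hL, hK', up_pth, union_assoc]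
  rfl

end DL
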