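import Pool.Agent.DL.EX.Spec

/-!
MP_3ff0f8_gt, ALGEBRA HALF, EX/K block, module D4G (helper6)
-/

open SimpleGraph Finset

namespace DL

namespace D4GM

variable {α : Type} [Fintype α] [DecidableEq α] {G : SimpleGraph α} {s t : α}

omit [Fintype α] [DecidableEq α] in
theorem treeOn (K : Ch2 G s t) (i : Fin 3) : TreeOn (K.T i) (K.X i) :=
  ⟨K.inX i, K.conn i, K.acyc i⟩

theorem tp_comm (hTRE : SpecTRE) {T : SimpleGraph α} {X : Finset α} (h : TreeOn T X) {v w : α}
    (hv : v ∈ X) (hw : w ∈ X) : tp T v w = tp T w v :=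
  (hTRE.tp h w hw v hv).2 _ (hTRE.tp h v hv w hw).1.symm

/-- the four trees -/
def XX (K L : Ch2 G s t) : Fin 4 → Finset α := ![K.X 0 ∪ L.X 0, K.X 1, K.X 2 ∪ L.X 2, L.X 1]

/-- the four trees -/
def TT (K L : Ch2 G s t) : Fin 4 → SimpleGraph α := ![K.T 0 ⊔ L.T 0, K.T 1, K.T 2 ⊔ L.T 2, L.T 1]

theorem tree (hTRE : SpecTRE) (K L : Ch2 G s t) (h0 : K.X 0 ∩ L.X 0 = {s}) (h2 : K.X 2 ∩ L.X 2 = {t}) :
    ∀ i, TreeOn (TT K L i) (XX K L i) := by
  intro i
  fin_cases i
  · exact (hTRE.glue (treeOn K 0) (treeOn L 0) h0).1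
  · exact treeOn K 1
  · exact (hTRE.glue (treeOn K 2) (treeOn L 2) h2).1
  · exact treeOn L 1

theorem img4 {β : Type} [DecidableEq β] (f : Fin 4 → β) :
    (univ.image f) = {f 0, f 1, f 2, f 3} := by
  ext x
  simp only [mem_image, mem_univ, true_and, mem_insert, mem_singleton]
  constructor
  · rintro ⟨i, rfl⟩
    fin_cases i
    · exact Or.inl rfl
    · exact Or.inr (Or.inl rfl)
    · exact Or.inr (Or.inr (Or.inl rfl))
    · exact Or.inr (Or.inr (Or.inr rfl))
  · rintro (rfl | rfl | rfl | rfl)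
    exacts [⟨0, rfl⟩, ⟨1, rfl⟩, ⟨2, rfl⟩, ⟨3, rfl⟩]

theorem bi4 {β : Type} [DecidableEq β] (g : Fin 4 → Finset β) :
    (univ.biUnion g) = g 0 ∪ g 1 ∪ g 2 ∪ g 3 := by
  ext x
  simp only [mem_biUnion, mem_univ, true_and, mem_union]
  constructor
  · rintro ⟨i, hi⟩
    fin_cases i
    · exact Or.inl (Or.inl (Or.inl hi))
    · exact Or.inl (Or.inl (Or.inr hi))
    · exact Or.inl (Or.inr hi)
    · exact Or.inr hi
  · rintro (((h | h) | h) | h)
    exacts [⟨0, h⟩, ⟨1, h⟩, ⟨2, h⟩, ⟨3, h⟩]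

theorem comb {β : Type} [DecidableEq β] (a b c d : β) (A B1 B2 C D1 D2 : Finset β) :
    ({a, b, c, d} : Finset β) ∪ (A ∪ (B1 ∪ B2) ∪ C ∪ (D1 ∪ D2)) =
      (D2 ∪ {a} ∪ A ∪ {b} ∪ B1) ∪ (D1 ∪ {d} ∪ C ∪ {c} ∪ B2) := by
  have h : ({a, b, c, d} : Finset β) = {a} ∪ ({b} ∪ ({c} ∪ {d})) := rfl
  rw [h]
  ac_rfl

end D4GM

open D4GM

/-- Two chains with the same ends form a `D_4` minor. -/
theorem specD4G (hTRE : SpecTRE) : SpecD4G := by
  intro α _ _ G s t K L h0 h2 hd
  have htree := tree hTRE K L h0 h2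
  have d := fun i j h => K.disj i j h
  have d' := fun i j h => L.disj i j h
  have hdisj : ∀ i j, i < j → Disjoint (XX K L i) (XX K L j) := by
    intro i j hij
    fin_cases i <;> fin_cases j <;> first | (exact absurd hij (by decide)) | skip
    · show Disjoint (K.X 0 ∪ L.X 0) (K.X 1)
      rw [disjoint_union_left]
      exact ⟨d 0 1 (by decide), (hd 1 0 (by decide) (by decide)).symm⟩
    · show Disjoint (K.X 0 ∪ L.X 0) (K.X 2 ∪ L.X 2)
      rw [disjoint_union_left, disjoint_union_right, disjoint_union_right]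
      exact ⟨⟨d 0 2 (by decide), hd 0 2 (by decide) (by decide)⟩,
        (hd 2 0 (by decide) (by decide)).symm, d' 0 2 (by decide)⟩
    · show Disjoint (K.X 0 ∪ L.X 0) (L.X 1)
      rw [disjoint_union_left]
      exact ⟨hd 0 1 (by decide) (by decide), d' 0 1 (by decide)⟩
    · show Disjoint (K.X 1) (K.X 2 ∪ L.X 2)
      rw [disjoint_union_right]
      exact ⟨d 1 2 (by decide), hd 1 2 (by decide) (by decide)⟩
    · show Disjoint (K.X 1) (L.X 1)
      exact hd 1 1 (by decide) (by decide)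
    · show Disjoint (K.X 2 ∪ L.X 2) (L.X 1)
      rw [disjoint_union_left]
      exact ⟨hd 2 1 (by decide) (by decide), d' 2 1 (by decide)⟩
  have m0 := hTRE.glue (treeOn L 0) (treeOn K 0) (by rw [inter_comm]; exact h0)
  have m2 := hTRE.glue (treeOn K 2) (treeOn L 2) h2
  refine ⟨{ X := XX K L
            disj := by
              intro i j hij
              rcases lt_or_gt_of_ne hij with h | h
              · exact hdisj i j h
              · exact (hdisj j i h).symm
            T := TT K L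
            sub := by
              intro i
              fin_cases i
              · exact sup_le (K.sub 0) (L.sub 0)
              · exact K.sub 1
              · exact sup_le (K.sub 2) (L.sub 2)
              · exact L.sub 1
            inX := fun i => (htree i).inX
            conn := fun i => (htree i).conn
            acyc := fun i => (htree i).acyc
            p := ![K.p 0, K.p 1, L.q 1, L.q 0]
            q := ![K.q 0, K.q 1, L.p 1, L.p 0]
            pX := by
              intro i b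
              fin_cases i
              · exact mem_union_left _ (K.pX 0 b)
              · exact K.pX 1 b
              · exact mem_union_right _ (L.qX 1 b)
              · exact L.qX 0 b
            qX := by
              intro i b
              fin_cases i
              · exact K.qX 0 b
              · exact mem_union_left _ (K.qX 1 b)
              · exact L.pX 1 b
              · exact mem_union_right _ (L.pX 0 b)
            adj := by
              intro i b
              fin_cases i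
              · exact K.adj 0 b
              · exact K.adj 1 b
              · exact (L.adj 1 b).symm
              · exact (L.adj 0 b).symm
            ne := by
              intro i
              fin_cases i
              · exact K.ne 0
              · exact K.ne 1
              · intro h
                exact L.ne 1 (Sym2.eq_swap.trans (h.trans Sym2.eq_swap))
              · intro h
                exact L.ne 0 (Sym2.eq_swap.trans (h.trans Sym2.eq_swap)) }, ?_⟩
  intro e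
  have k1 : tp (K.T 2 ⊔ L.T 2) (K.q 1 (e 1)) (L.q 1 (e 2)) =
      tp (K.T 2) (K.q 1 (e 1)) t ∪ tp (L.T 2) (L.q 1 (e 2)) t := by
    rw [m2.2 _ (K.qX 1 _) _ (L.qX 1 _), tp_comm hTRE (treeOn L 2) L.tX (L.qX 1 _)]
  have k2 : tp (K.T 0 ⊔ L.T 0) (L.p 0 (e 3)) (K.p 0 (e 0)) =
      tp (L.T 0) s (L.p 0 (e 3)) ∪ tp (K.T 0) s (K.p 0 (e 0)) := by
    rw [sup_comm, m0.2 _ (L.pX 0 _) _ (K.pX 0 _), tp_comm hTRE (treeOn L 0) (L.pX 0 _) L.sX]
  have k3 : tp (L.T 1) (L.p 1 (e 2)) (L.q 0 (e 3)) = tp (L.T 1) (L.q 0 (e 3)) (L.p 1 (e 2)) :=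
    tp_comm hTRE (treeOn L 1) (L.pX 1 _) (L.qX 0 _)
  unfold D4M.cyc Ch2.pth
  rw [img4, bi4]
  show ({s(K.p 0 (e 0), K.q 0 (e 0)), s(K.p 1 (e 1), K.q 1 (e 1)), s(L.q 1 (e 2), L.p 1 (e 2)),
      s(L.q 0 (e 3), L.p 0 (e 3))} : Finset (Sym2 α)) ∪
    (tp (K.T 1) (K.q 0 (e 0)) (K.p 1 (e 1)) ∪ tp (K.T 2 ⊔ L.T 2) (K.q 1 (e 1)) (L.q 1 (e 2)) ∪
      tp (L.T 1) (L.p 1 (e 2)) (L.q 0 (e 3)) ∪ tp (K.T 0 ⊔ L.T 0) (L.p 0 (e 3)) (K.p 0 (e 0))) =
    (tp (K.T 0) s (K.p 0 (e 0)) ∪ {s(K.p 0 (e 0), K.q 0 (e 0))} ∪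
      tp (K.T 1) (K.q 0 (e 0)) (K.p 1 (e 1)) ∪ {s(K.p 1 (e 1), K.q 1 (e 1))} ∪
      tp (K.T 2) (K.q 1 (e 1)) t) ∪
    (tp (L.T 0) s (L.p 0 (e 3)) ∪ {s(L.p 0 (e 3), L.q 0 (e 3))} ∪
      tp (L.T 1) (L.q 0 (e 3)) (L.p 1 (e 2)) ∪ {s(L.p 1 (e 2), L.q 1 (e 2))} ∪
      tp (L.T 2) (L.q 1 (e 2)) t)
  rw [k1, k2, k3, Sym2.eq_swap (a := L.q 1 (e 2)), Sym2.eq_swap (a := L.q 0 (e 3))]
  exact comb _ _ _ _ _ _ _ _ _ _

end DL
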