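import Pool.Agent.DL.EX.Spec

/-!
MP_3ff0f8_gt, ALGEBRA HALF, EX/K block, module FEV (helper77): elements of `F(G)` are `D_4`-even.
-/

open SimpleGraph Finset

namespace DL

namespace FEVM

set_option linter.unusedSectionVars false

variable {α : Type} [Fintype α] [DecidableEq α] {G : SimpleGraph α}

/-! ### sums over the cube -/

theorem sum_zero (F : (Fin 4 → Bool) → ZMod 2) (l : Fin 4)
    (h : ∀ e b, F (Function.update e l b) = F e) : ∑ e, F e = 0 := by
  refine sum_involution (fun e _ => Function.update e l (!(e l))) ?_ ?_ (by simp) ?_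
  · intro e _
    rw [h]
    exact zmod2_add_self _
  · intro e _ _ h'
    have := congrFun h' l
    simp at this
  · intro e _
    simp

theorem prod_zero (A B : Fin 4 → (Fin 4 → Bool) → ZMod 2)
    (hA : ∀ i e e', e i = e' i → A i e = A i e')
    (hB : ∀ j e e', e j = e' j → e (j + 1) = e' (j + 1) → B j e = B j e') :
    ∑ e, (∑ i, A i e) * (∑ j, B j e) = 0 := by
  have h1 : ∑ e, (∑ i, A i e) * (∑ j, B j e) = ∑ i, ∑ j, ∑ e, A i e * B j e := by
    simp only [sum_mul_sum]
    rw [sum_comm]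
    exact sum_congr rfl fun i _ => sum_comm
  rw [h1]
  refine sum_eq_zero fun i _ => sum_eq_zero fun j _ => ?_
  obtain ⟨l, h2, h3, h4⟩ : ∃ l : Fin 4, l ≠ i ∧ l ≠ j ∧ l ≠ j + 1 := by
    revert i j; decide
  refine sum_zero _ l fun e b => ?_
  rw [hA i (Function.update e l b) e (by rw [Function.update_of_ne h2.symm]),
    hB j (Function.update e l b) e (by rw [Function.update_of_ne h3.symm])
      (by rw [Function.update_of_ne h4.symm])]

/-- the cube -/
def cube : Bool × Bool × Bool × Bool ≃ (Fin 4 → Bool) where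
  toFun x := ![x.1, x.2.1, x.2.2.1, x.2.2.2]
  invFun e := (e 0, e 1, e 2, e 3)
  left_inv _ := rfl
  right_inv e := by
    funext i
    fin_cases i <;> rfl

theorem sum16 (F : (Fin 4 → Bool) → ZMod 2) :
    ∑ e, F e = ∑ b0 : Bool, ∑ b1 : Bool, ∑ b2 : Bool, ∑ b3 : Bool, F ![b0, b1, b2, b3] := by
  rw [← cube.sum_comp F]
  simp only [Fintype.sum_prod_type]
  rfl

theorem sum16' (H : Bool → Bool → Bool → Bool → ZMod 2) :
    ∑ e : Fin 4 → Bool, H (e 0) (e 1) (e 2) (e 3) =
      ∑ b0 : Bool, ∑ b1 : Bool, ∑ b2 : Bool, ∑ b3 : Bool, H b0 b1 b2 b3 := by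
  rw [sum16]
  rfl

/-- fourth differences -/
theorem diff4 {A : Type} [AddCommGroup A] (f : A → ZMod 2) (a u v w x : A)
    (h : f a + f (a + u) + f (a + v) + f (a + w) + f (a + u + v) + f (a + u + w) + f (a + v + w) +
      f (a + u + v + w) + (f (a + x) + f (a + u + x) + f (a + v + x) + f (a + w + x) +
      f (a + u + v + x) + f (a + u + w + x) + f (a + v + w + x) + f (a + u + v + w + x)) = 0) :
    ∑ b0 : Bool, ∑ b1 : Bool, ∑ b2 : Bool, ∑ b3 : Bool, f (a + (if b0 then u else 0) +
      (if b1 then v else 0) + (if b2 then w else 0) + (if b3 then x else 0)) = 0 := by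
  rw [Fintype.sum_bool]
  rw [Fintype.sum_bool, Fintype.sum_bool]
  rw [Fintype.sum_bool, Fintype.sum_bool, Fintype.sum_bool, Fintype.sum_bool]
  rw [Fintype.sum_bool, Fintype.sum_bool, Fintype.sum_bool, Fintype.sum_bool,
    Fintype.sum_bool, Fintype.sum_bool, Fintype.sum_bool, Fintype.sum_bool]
  have e1 : ∀ y : A, (if (true : Bool) = true then y else 0) = y := fun y => if_pos rfl
  have e2 : ∀ y : A, (if (false : Bool) = true then y else 0) = 0 := fun y => if_neg (by decide)
  rw [e1, e1, e1, e1, e2, e2, e2, e2]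
  simp only [add_zero]
  linear_combination h

/-- cubic functions of `Σ_i g i (e i)` -/
theorem cubic_zero (hPOL : SpecPOL) (p : Chain α → ZMod 2) (hp : DegLE 3 p)
    (g : Fin 4 → Bool → Chain α) : ∑ e : Fin 4 → Bool, p (∑ i, g i (e i)) = 0 := by
  have h := hPOL.three hp (∑ i, g i false) (g 0 true - g 0 false) (g 1 true - g 1 false)
    (g 2 true - g 2 false) (g 3 true - g 3 false)
  have key : ∀ e : Fin 4 → Bool, ∑ i, g i (e i) = ∑ i, g i false +
      (if e 0 then g 0 true - g 0 false else 0) + (if e 1 then g 1 true - g 1 false else 0) +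
      (if e 2 then g 2 true - g 2 false else 0) + (if e 3 then g 3 true - g 3 false else 0) := by
    intro e
    simp only [Fin.sum_univ_four]
    cases e 0 <;> cases e 1 <;> cases e 2 <;> cases e 3 <;>
      simp only [if_true, if_false, Bool.false_eq_true] <;> abel
  rw [sum_congr rfl fun e _ => congrArg p (key e)]
  rw [sum16' fun b0 b1 b2 b3 => p (∑ i, g i false +
      (if b0 then g 0 true - g 0 false else 0) + (if b1 then g 1 true - g 1 false else 0) +
      (if b2 then g 2 true - g 2 false else 0) + (if b3 then g 3 true - g 3 false else 0))]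
  exact diff4 p _ _ _ _ _ h

/-! ### coherence on `pq + P` -/

theorem dirn_edge {p q u v : α} (h : s(u, v) ≠ s(p, q)) : dirn p u v {s(p, q)} = 0 :=
  dirn_eq_zero_of_notMem (by simpa using h)

/-- traversal function of `pq + P` -/
noncomputable def trv (p q : α) (P : Finset (Sym2 α)) (u v : α) : ZMod 2 :=
  dirn p u v {s(p, q)} + dirn q u v P

theorem trv_swap {p q : α} {P : Finset (Sym2 α)} (hpq : G.Adj p q) (hP : IsPth G q p P)
    (hn : s(p, q) ∉ P) (u v : α) :
    trv p q P u v + trv p q P v u = chi (insert s(p, q) P) s(u, v) := by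
  have h1 := (IsPth.edge hpq).dirn_add_swap u v
  have h2 := hP.dirn_add_swap u v
  have h3 := congrFun (chi_insert (e := s(p, q)) hn) s(u, v)
  rw [h3, Pi.add_apply, ← h1, ← h2]
  simp only [trv]
  ring

theorem coh_trv {p q : α} {P : Finset (Sym2 α)} (hpq : G.Adj p q) (hP : IsPth G q p P)
    (hn : s(p, q) ∉ P) {a b c d : α} (hne : s(a, b) ≠ s(c, d)) :
    coh a b c d (insert s(p, q) P) = trv p q P a b * trv p q P c d +
      trv p q P b a * trv p q P d c := by
  have hC : IsCyc G (insert s(p, q) P) := by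
    have := hP.symm.isCyc hpq hn
    exact this
  have e1 : trv p q P p q = 1 := by
    rw [trv, dirn_start, chi_of_mem (by simp), dirn_eq_zero_of_notMem hn, add_zero]
  have e2 : trv p q P q p = 0 := by
    rw [trv, (IsPth.edge hpq).dirn_into_start, dirn_eq_zero_of_notMem (by rwa [Sym2.eq_swap]),
      add_zero]
  have e3 : ∀ u v, s(u, v) ≠ s(p, q) → trv p q P u v = dirn q u v P := by
    intro u v h
    rw [trv, dirn_edge h, zero_add]
  have e4 : ∀ u v, s(u, v) ∉ insert s(p, q) P → trv p q P u v = 0 := by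
    intro u v h
    rw [mem_insert, not_or] at h
    rw [e3 u v h.1, dirn_eq_zero_of_notMem h.2]
  -- first edge `pq`
  have A : ∀ c d, s(p, q) ≠ s(c, d) → coh p q c d (insert s(p, q) P) = trv p q P c d := by
    intro c d h
    rw [coh_insert hn h.symm, e3 c d h.symm]
  have A' : ∀ a b c d, s(a, b) = s(p, q) → s(a, b) ≠ s(c, d) →
      coh a b c d (insert s(p, q) P) = trv p q P a b * trv p q P c d +
        trv p q P b a * trv p q P d c := by
    intro a b c d h h'
    rw [h] at h'
    rw [Sym2.eq_iff] at h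
    rcases h with ⟨rfl, rfl⟩ | ⟨rfl, rfl⟩
    · rw [A c d h', e1, e2, one_mul, zero_mul, add_zero]
    · rw [← hC.coh_reverse, A d c (by rwa [Sym2.eq_swap (a := d)]), e1, e2, one_mul, zero_mul,
        zero_add]
  by_cases h1 : s(a, b) = s(p, q)
  · exact A' a b c d h1 hne
  by_cases h2 : s(c, d) = s(p, q)
  · rw [← hC.coh_comm, A' c d a b h2 hne.symm]
    ring
  by_cases h3 : s(a, b) ∈ P
  · -- `P = P1 + ab + P2`
    have B : ∀ a b c d, s(a, b) ∈ P → s(a, b) ≠ s(c, d) → s(a, b) ≠ s(p, q) → s(c, d) ≠ s(p, q) →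
        dirn q a b P = 1 → coh a b c d (insert s(p, q) P) = trv p q P a b * trv p q P c d +
        trv p q P b a * trv p q P d c := by
      intro a b c d h3 hne h1 h2 hd
      obtain ⟨P1, P2, g1, g2, _, g4, g5, g6⟩ := hP.dirn_eq_one_iff.1 hd
      have hba : dirn q b a P = 0 := (dirn_of_split h3 g1 g2 g4 g6).2
      have hab : G.Adj a b := hP.adj_of_mem h3
      have haP2 : a ∉ insert p (vs P2) := by
        refine Finset.disjoint_left.1 g6 ?_
        by_cases hqa : q = a
        · rw [hqa]; exact mem_insert_self _ _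
        · exact mem_insert_of_mem (g1.right_mem hqa)
      have hbP1 : b ∉ insert q (vs P1) := by
        refine Finset.disjoint_right.1 g6 ?_
        by_cases hqa : b = p
        · rw [hqa]; exact mem_insert_self _ _
        · exact mem_insert_of_mem (g2.left_mem hqa)
      have hin12 : vs P1 ∩ vs P2 = ∅ := by
        rw [← Finset.disjoint_iff_inter_eq_empty]
        exact g6.mono (subset_insert _ _) (subset_insert _ _)
      have hqP2 : q ∉ vs P2 := fun h => Finset.disjoint_left.1 g6 (mem_insert_self _ _)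
        (mem_insert_of_mem h)
      have hpP1 : p ∉ vs P1 := fun h => Finset.disjoint_left.1 g6 (mem_insert_of_mem h)
        (mem_insert_self _ _)
      -- the rest of the cycle
      have hR1 : IsPth G b q (P2 ∪ {s(p, q)}) := by
        refine g2.append (IsPth.edge hpq) fun x hx => ?_
        rw [vs_singleton, mem_inter, mem_insert, mem_singleton] at hx
        obtain ⟨hx, rfl | rfl⟩ := hx
        · simp
        · exact (hqP2 hx).elim
      have hR1v : vs (P2 ∪ {s(p, q)}) ∩ vs P1 ⊆ {q} := by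
        intro x hx
        rw [vs_union, vs_singleton, mem_inter, mem_union, mem_insert, mem_singleton] at hx
        obtain ⟨hx | rfl | rfl, hx'⟩ := hx
        · have : x ∈ vs P1 ∩ vs P2 := mem_inter.2 ⟨hx', hx⟩
          rw [hin12] at this
          simp at this
        · exact (hpP1 hx').elim
        · simp
      have hR : dirn b c d (P2 ∪ {s(p, q)} ∪ P1) = dirn b c d P2 + dirn q c d P1 := by
        rw [hR1.dirn_append g1 hR1v, g2.dirn_append (IsPth.edge hpq) (fun x hx => by
          rw [vs_singleton, mem_inter, mem_insert, mem_singleton] at hx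
          obtain ⟨hx, rfl | rfl⟩ := hx
          · simp
          · exact (hqP2 hx).elim), dirn_edge h2, add_zero]
      have hPd : dirn q c d P = dirn q c d P1 + dirn b c d P2 := by
        have hQ1 : IsPth G q b (P1 ∪ {s(a, b)}) := by
          refine g1.append (IsPth.edge hab) fun x hx => ?_
          rw [vs_singleton, mem_inter, mem_insert, mem_singleton] at hx
          obtain ⟨hx, rfl | rfl⟩ := hx
          · simp
          · exact (hbP1 (mem_insert_of_mem hx)).elim
        have hQv : vs (P1 ∪ {s(a, b)}) ∩ vs P2 ⊆ {b} := by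
          intro x hx
          rw [vs_union, vs_singleton, mem_inter, mem_union, mem_insert, mem_singleton] at hx
          obtain ⟨hx | rfl | rfl, hx'⟩ := hx
          · have : x ∈ vs P1 ∩ vs P2 := mem_inter.2 ⟨hx, hx'⟩
            rw [hin12] at this
            simp at this
          · exact (haP2 (mem_insert_of_mem hx')).elim
          · simp
        have hPe : P = P1 ∪ {s(a, b)} ∪ P2 := by
          rw [union_right_comm, g4]
          ext e
          simp only [mem_union, mem_sdiff, mem_singleton]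
          constructor
          · intro h
            by_cases he : e = s(a, b)
            · exact Or.inr he
            · exact Or.inl ⟨h, he⟩
          · rintro (h | rfl)
            · exact h.1
            · exact h3
        rw [hPe, hQ1.dirn_append g2 hQv, g1.dirn_append (IsPth.edge hab) (fun x hx => by
          rw [vs_singleton, mem_inter, mem_insert, mem_singleton] at hx
          obtain ⟨hx, rfl | rfl⟩ := hx
          · simp
          · exact (hbP1 (mem_insert_of_mem hx)).elim), dirn_edge hne.symm, add_zero]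
      have hCe : insert s(p, q) P \ {s(a, b)} = P2 ∪ {s(p, q)} ∪ P1 := by
        rw [union_right_comm, union_comm P2 P1, g4]
        ext e
        simp only [mem_union, mem_sdiff, mem_singleton, mem_insert]
        constructor
        · rintro ⟨rfl | h, h'⟩
          · exact Or.inr rfl
          · exact Or.inl ⟨h, h'⟩
        · rintro (h | rfl)
          · exact ⟨Or.inr h.1, h.2⟩
          · exact ⟨Or.inl rfl, h1.symm⟩
      rw [coh_eq_dirn (mem_insert_of_mem h3) hne.symm, hCe, hR, e3 a b h1,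
        e3 b a (by rwa [Sym2.eq_swap (a := b)]), hd, hba, one_mul, zero_mul, add_zero, e3 c d h2, hPd,
        add_comm]
    rcases zmod2_cases (dirn q a b P) with hd | hd
    · have h5 := hP.dirn_add_swap a b
      rw [hd, zero_add, chi_of_mem h3] at h5
      rw [← hC.coh_reverse, B b a d c (by rwa [Sym2.eq_swap]) (by
        rwa [Sym2.eq_swap (a := b), Sym2.eq_swap (a := d)]) (by rwa [Sym2.eq_swap (a := b)])
        (by rwa [Sym2.eq_swap (a := d)]) h5]
      ring
    · exact B a b c d h3 hne h1 h2 hd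
  · have h4 : s(a, b) ∉ insert s(p, q) P := by
      rw [mem_insert, not_or]
      exact ⟨h1, h3⟩
    rw [coh_eq_zero_left h4, e4 a b h4, e4 b a (by rwa [Sym2.eq_swap (a := b)]), zero_mul, zero_mul,
      add_zero]

/-! ### the path of a `D_4` cycle -/

theorem step {s q p r : α} {Q R : Finset (Sym2 α)} {Y X : Finset α} (hQ : IsPth G s q Q)
    (hvQ : vs Q ⊆ insert q Y) (hYX : Disjoint Y X) (hq : q ∈ X) (hR : IsPth G q p R)
    (hvR : vs R ⊆ X) (hp : p ∈ X) (hpr : G.Adj p r) (hr : r ∉ Y) (hrX : r ∉ X) :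
    IsPth G s r (Q ∪ R ∪ {s(p, r)}) ∧ vs (Q ∪ R ∪ {s(p, r)}) ⊆ insert r (Y ∪ X) ∧
      ∀ u v, dirn s u v (Q ∪ R ∪ {s(p, r)}) = dirn s u v Q + dirn q u v R + dirn p u v {s(p, r)} := by
  have h1 : vs Q ∩ vs R ⊆ {q} := by
    intro x hx
    rw [mem_inter] at hx
    have h2 := hvQ hx.1
    rw [mem_insert] at h2
    rcases h2 with rfl | h2
    · simp
    · exact (Finset.disjoint_left.1 hYX h2 (hvR hx.2)).elim
  have h2 : vs (Q ∪ R) ⊆ Y ∪ X := by
    intro x hx
    rw [vs_union, mem_union] at hx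
    rw [mem_union]
    rcases hx with hx | hx
    · have := hvQ hx
      rw [mem_insert] at this
      rcases this with rfl | h
      · exact Or.inr hq
      · exact Or.inl h
    · exact Or.inr (hvR hx)
  have h3 : vs (Q ∪ R) ∩ vs {s(p, r)} ⊆ {p} := by
    intro x hx
    rw [vs_singleton, mem_inter, mem_insert, mem_singleton] at hx
    obtain ⟨hx, rfl | rfl⟩ := hx
    · simp
    · have := h2 hx
      rw [mem_union] at this
      exact (this.elim hr hrX).elim
  refine ⟨(hQ.append hR h1).append (IsPth.edge hpr) h3, ?_, fun u v => ?_⟩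
  · intro x hx
    rw [vs_union, vs_singleton, mem_union, mem_insert, mem_singleton] at hx
    rw [mem_insert]
    rcases hx with hx | rfl | rfl
    · exact Or.inr (h2 hx)
    · exact Or.inr (mem_union_right _ hp)
    · exact Or.inl rfl
  · rw [(hQ.append hR h1).dirn_append (IsPth.edge hpr) h3, hQ.dirn_append hR h1]

/-- the tree path between two beads -/
noncomputable def tr (D : D4M G) (e : Fin 4 → Bool) (i : Fin 4) : Finset (Sym2 α) :=
  tp (D.T (i + 1)) (D.q i (e i)) (D.p (i + 1) (e (i + 1)))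

theorem treeOn (D : D4M G) (i : Fin 4) : TreeOn (D.T i) (D.X i) :=
  ⟨D.inX i, D.conn i, D.acyc i⟩

theorem vs_tp (hTRE : SpecTRE) (D : D4M G) (i : Fin 4) {v w : α} (hv : v ∈ D.X i) (hw : w ∈ D.X i) :
    vs (tp (D.T i) v w) ⊆ D.X i := by
  intro x hx
  obtain ⟨e, he, hxe⟩ := mem_vs.1 hx
  have h1 := (hTRE.tp (treeOn D i) v hv w hw).1.subset e he
  obtain ⟨y, rfl⟩ := Sym2.mem_iff_exists.1 hxe
  exact D.inX i x y h1

theorem tr_path (hTRE : SpecTRE) (D : D4M G) (e : Fin 4 → Bool) (i : Fin 4) :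
    IsPth G (D.q i (e i)) (D.p (i + 1) (e (i + 1))) (tr D e i) :=
  ((hTRE.tp (treeOn D (i + 1)) _ (D.qX i (e i)) _ (D.pX (i + 1) (e (i + 1)))).1).mono (D.sub (i + 1))

theorem vs_tr (hTRE : SpecTRE) (D : D4M G) (e : Fin 4 → Bool) (i : Fin 4) :
    vs (tr D e i) ⊆ D.X (i + 1) :=
  vs_tp hTRE D (i + 1) (D.qX i (e i)) (D.pX (i + 1) (e (i + 1)))

/-- the traversal function in one sector -/
noncomputable def H (D : D4M G) (u v : α) (i : Fin 4) (e : Fin 4 → Bool) : ZMod 2 :=
  dirn (D.p i (e i)) u v {s(D.p i (e i), D.q i (e i))} + dirn (D.q i (e i)) u v (tr D e i)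

theorem H_congr (D : D4M G) (u v : α) (i : Fin 4) (e e' : Fin 4 → Bool) (h1 : e i = e' i)
    (h2 : e (i + 1) = e' (i + 1)) : H D u v i e = H D u v i e' := by
  simp only [H, tr, h1, h2]

theorem cyc_path (hTRE : SpecTRE) (D : D4M G) (e : Fin 4 → Bool) :
    ∃ P, IsPth G (D.q 3 (e 3)) (D.p 3 (e 3)) P ∧
      D.cyc e = insert s(D.p 3 (e 3), D.q 3 (e 3)) P ∧
      ∀ u v, trv (D.p 3 (e 3)) (D.q 3 (e 3)) P u v = ∑ i, H D u v i e := by
  have d : ∀ i j : Fin 4, i ≠ j → Disjoint (D.X i) (D.X j) := D.disj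
  have q0 : D.q 0 (e 0) ∈ D.X 1 := D.qX 0 (e 0)
  have q1 : D.q 1 (e 1) ∈ D.X 2 := D.qX 1 (e 1)
  have q2 : D.q 2 (e 2) ∈ D.X 3 := D.qX 2 (e 2)
  have q3 : D.q 3 (e 3) ∈ D.X 0 := D.qX 3 (e 3)
  have p0 := D.pX 0 (e 0)
  have p1 := D.pX 1 (e 1)
  have p2 := D.pX 2 (e 2)
  have p3 := D.pX 3 (e 3)
  have no : ∀ {x : α} {i j : Fin 4}, x ∈ D.X i → i ≠ j → x ∉ D.X j :=
    fun hx hij hx' => Finset.disjoint_left.1 (d _ _ hij) hx hx'
  obtain ⟨a1, a2, a3⟩ := step (G := G) (p := D.p 0 (e 0)) (IsPth.nil (D.q 3 (e 3))) (by simp)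
    (disjoint_empty_left (D.X 0)) q3 (tr_path hTRE D e 3) (vs_tr hTRE D e 3) p0 (D.adj 0 (e 0))
    (by simp) (no q0 (by decide))
  obtain ⟨b1, b2, b3⟩ := step (G := G) (p := D.p 1 (e 1)) a1 a2 (by
      rw [empty_union]; exact d 0 1 (by decide)) q0 (tr_path hTRE D e 0) (vs_tr hTRE D e 0) p1
      (D.adj 1 (e 1)) (by rw [empty_union]; exact no q1 (by decide)) (no q1 (by decide))
  obtain ⟨c1, c2, c3⟩ := step (G := G) (p := D.p 2 (e 2)) b1 b2 (by
      rw [empty_union, disjoint_union_left]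
      exact ⟨d 0 2 (by decide), d 1 2 (by decide)⟩) q1 (tr_path hTRE D e 1) (vs_tr hTRE D e 1) p2
      (D.adj 2 (e 2)) (by
        rw [empty_union, mem_union, not_or]
        exact ⟨no q2 (by decide), no q2 (by decide)⟩) (no q2 (by decide))
  have f1 : IsPth G (D.q 2 (e 2)) (D.p 3 (e 3)) (tr D e 2) := tr_path hTRE D e 2
  have f2 : vs (tr D e 2) ⊆ D.X 3 := vs_tr hTRE D e 2
  have f3 := fun (x : α) (hx : x ∈ vs (∅ ∪ tr D e 3 ∪ {s(D.p 0 (e 0), D.q 0 (e 0))} ∪ tr D e 0 ∪
      {s(D.p 1 (e 1), D.q 1 (e 1))} ∪ tr D e 1 ∪ {s(D.p 2 (e 2), D.q 2 (e 2))}) ∩ vs (tr D e 2)) =>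
    show x ∈ ({D.q 2 (e 2)} : Finset α) by
      rw [mem_inter] at hx
      have h3 := f2 hx.2
      have h4 := c2 hx.1
      rw [empty_union, mem_insert, mem_union, mem_union] at h4
      rcases h4 with rfl | (h4 | h4) | h4
      · simp
      · exact (no h3 (by decide) h4).elim
      · exact (no h3 (by decide) h4).elim
      · exact (no h3 (by decide) h4).elim
  refine ⟨_, c1.append f1 f3, ?_, fun u v => ?_⟩
  · ext x
    simp only [D4M.cyc, mem_union, mem_image, mem_biUnion, mem_univ, true_and, mem_insert,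
      mem_singleton]
    constructor
    · rintro (⟨i, rfl⟩ | ⟨i, hi⟩)
      · fin_cases i
        · exact Or.inr (Or.inl (Or.inl (Or.inl (Or.inl (Or.inl (Or.inr rfl))))))
        · exact Or.inr (Or.inl (Or.inl (Or.inl (Or.inr rfl))))
        · exact Or.inr (Or.inl (Or.inr rfl))
        · exact Or.inl rfl
      · have hi' : x ∈ tr D e i := hi
        clear hi
        fin_cases i
        · exact Or.inr (Or.inl (Or.inl (Or.inl (Or.inl (Or.inr hi')))))
        · exact Or.inr (Or.inl (Or.inl (Or.inr hi')))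
        · exact Or.inr (Or.inr hi')
        · exact Or.inr (Or.inl (Or.inl (Or.inl (Or.inl (Or.inl (Or.inl (Or.inr hi')))))))
    · rintro (rfl | ((((((h | h) | rfl) | h) | rfl) | h) | rfl) | h)
      · exact Or.inl ⟨3, rfl⟩
      · simp at h
      · exact Or.inr ⟨3, h⟩
      · exact Or.inl ⟨0, rfl⟩
      · exact Or.inr ⟨0, h⟩
      · exact Or.inl ⟨1, rfl⟩
      · exact Or.inr ⟨1, h⟩
      · exact Or.inl ⟨2, rfl⟩
      · exact Or.inr ⟨2, h⟩
  · have h0 : dirn (D.q 3 (e 3)) u v ∅ = 0 := dirn_eq_zero_of_notMem (by simp)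
    rw [trv, c1.dirn_append f1 f3, c3 u v, b3 u v, a3 u v, h0]
    simp only [Fin.sum_univ_four, H]
    ring

/-- the chain of a `D_4` cycle -/
noncomputable def gg (D : D4M G) (i : Fin 4) (b : Bool) : Chain α :=
  chi {s(D.p i b, D.q i b)} + chi (tp (D.T i) (D.p i false) (D.p i b)) +
    chi (tp (D.T (i + 1)) (D.p (i + 1) false) (D.q i b))

theorem chi_cyc (hTRE : SpecTRE) (hDCB : SpecDCB) (D : D4M G) (e : Fin 4 → Bool) :
    chi (D.cyc e) = ∑ i, gg D i (e i) := by
  rw [(hDCB.cyc D e).2]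
  have h1 : ∀ i : Fin 4, chi (tp (D.T (i + 1)) (D.q i (e i)) (D.p (i + 1) (e (i + 1)))) =
      chi (tp (D.T (i + 1)) (D.p (i + 1) false) (D.q i (e i))) +
      chi (tp (D.T (i + 1)) (D.p (i + 1) false) (D.p (i + 1) (e (i + 1)))) := by
    intro i
    exact (hTRE.four (treeOn D (i + 1)) _ (D.pX (i + 1) false) _ (D.qX i (e i)) _
      (D.pX (i + 1) (e (i + 1)))).symm
  rw [sum_congr rfl fun i _ => congrArg (chi {s(D.p i (e i), D.q i (e i))} + ·) (h1 i)]
  simp only [gg, sum_add_distrib]
  have h2 : ∑ i : Fin 4, chi (tp (D.T (i + 1)) (D.p (i + 1) false) (D.p (i + 1) (e (i + 1)))) =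
      ∑ i : Fin 4, chi (tp (D.T i) (D.p i false) (D.p i (e i))) :=
    Equiv.sum_comp (Equiv.addRight (1 : Fin 4)) fun i => chi (tp (D.T i) (D.p i false) (D.p i (e i)))
  rw [h2]
  abel

end FEVM

open FEVM in
theorem specFEV (hPOL : SpecPOL) (hTRE : SpecTRE) (hDCB : SpecDCB) : SpecFEV := by
  intro α _ _ G φ hφ D
  obtain ⟨p, hp, _, l, hl⟩ := hφ
  have hC : ∀ e, IsCyc G (D.cyc e) := fun e => (hDCB.cyc D e).1
  rw [sum_congr rfl fun e _ => hl (D.cyc e) (hC e), sum_add_distrib]
  have h1 : ∑ e, p (chi (D.cyc e)) = 0 := by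
    rw [sum_congr rfl fun e _ => congrArg p (chi_cyc hTRE hDCB D e)]
    exact cubic_zero hPOL p hp (gg D)
  rw [h1, zero_add]
  have hXX : ∀ a b c d : α, ∑ e, chi (D.cyc e) s(a, b) * chi (D.cyc e) s(c, d) = 0 := by
    intro a b c d
    have : ∀ e, chi (D.cyc e) s(a, b) * chi (D.cyc e) s(c, d) =
        (∑ i, gg D i (e i) s(a, b)) * ∑ i, gg D i (e i) s(c, d) := by
      intro e
      rw [chi_cyc hTRE hDCB D e, Finset.sum_apply, Finset.sum_apply]
    rw [sum_congr rfl fun e _ => this e]
    exact prod_zero (fun i e => gg D i (e i) s(a, b)) (fun i e => gg D i (e i) s(c, d))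
      (fun i e e' h => by simp only [h]) (fun i e e' h _ => by simp only [h])
  have hXF : ∀ a b c d : α, ∑ e, chi (D.cyc e) s(a, b) * ∑ i, H D c d i e = 0 := by
    intro a b c d
    have : ∀ e, chi (D.cyc e) s(a, b) * (∑ i, H D c d i e) =
        (∑ i, gg D i (e i) s(a, b)) * ∑ i, H D c d i e := by
      intro e
      rw [chi_cyc hTRE hDCB D e, Finset.sum_apply]
    rw [sum_congr rfl fun e _ => this e]
    exact prod_zero (fun i e => gg D i (e i) s(a, b)) (fun i e => H D c d i e)
      (fun i e e' h => by simp only [h]) (fun i e e' h h' => H_congr D c d i e e' h h')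
  have key : ∀ a b c d : α, ∑ e, coh a b c d (D.cyc e) = 0 := by
    intro a b c d
    by_cases hsh : ∃ v, v ∈ s(a, b) ∧ v ∈ s(c, d)
    · rcases coh_share hsh with h | h
      · exact sum_eq_zero fun e _ => h G _ (hC e)
      · rw [sum_congr rfl fun e _ => h G _ (hC e)]
        exact hXX a b c d
    · have hne : s(a, b) ≠ s(c, d) := fun h => hsh ⟨a, by simp, by rw [← h]; simp⟩
      have hf : ∀ e, coh a b c d (D.cyc e) = chi (D.cyc e) s(a, b) * chi (D.cyc e) s(c, d) +
          chi (D.cyc e) s(a, b) * (∑ i, H D c d i e) + chi (D.cyc e) s(c, d) * ∑ i, H D a b i e := by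
        intro e
        obtain ⟨P, hP, hPe, hPt⟩ := cyc_path hTRE D e
        have hadj : G.Adj (D.p 3 (e 3)) (D.q 3 (e 3)) := D.adj 3 (e 3)
        have hn : s(D.p 3 (e 3), D.q 3 (e 3)) ∉ P := by
          intro h
          have e1 := hC e
          rw [hPe, insert_eq_of_mem h] at e1
          have e2 := e1.bdy_chi (D.p 3 (e 3))
          rw [hP.bdy_chi, if_neg hadj.ne, if_pos rfl] at e2
          exact absurd e2 (by decide)
        have t1 := trv_swap hadj hP hn a b
        have t2 := trv_swap hadj hP hn c d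
        rw [← hPe] at t1 t2
        have t3 := coh_trv hadj hP hn hne
        rw [← hPe] at t3
        rw [t3, ← t1, ← t2, ← hPt c d, ← hPt a b]
        generalize trv (D.p 3 (e 3)) (D.q 3 (e 3)) P a b = x
        generalize trv (D.p 3 (e 3)) (D.q 3 (e 3)) P b a = y
        generalize trv (D.p 3 (e 3)) (D.q 3 (e 3)) P c d = z
        generalize trv (D.p 3 (e 3)) (D.q 3 (e 3)) P d c = w
        revert x y z w; decide
      rw [sum_congr rfl fun e _ => hf e, sum_add_distrib, sum_add_distrib, hXX, hXF, hXF]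
      simp
  rw [sum_comm]
  refine sum_eq_zero fun a _ => ?_
  rw [sum_comm]
  refine sum_eq_zero fun b _ => ?_
  rw [sum_comm]
  refine sum_eq_zero fun c _ => ?_
  rw [sum_comm]
  refine sum_eq_zero fun d _ => ?_
  rw [← mul_sum, key, mul_zero]

end DL
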