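import Pool.Agent.DL.EX.Spec

/-!
MP_3ff0f8_gt, ALGEBRA HALF, EX/K block, module LEX (helper77): LEMMA L by duality from HTH.
-/

open SimpleGraph Finset

namespace DL

namespace LEXM

variable {α : Type} [Fintype α] [DecidableEq α]

/-- the boundary map on functions on pairs of edges -/
noncomputable def D : (Sym2 α → Sym2 α → ZMod 2) →ₗ[ZMod 2] (α → Sym2 α → ZMod 2) where
  toFun z w e := if w ∈ e then 0 else ∑ f ∈ univ.filter (fun f => w ∈ f), z e f
  map_add' x y := by
    funext w e
    simp only [Pi.add_apply]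
    split_ifs
    · simp
    · rw [sum_add_distrib]
  map_smul' r x := by
    funext w e
    simp only [Pi.smul_apply, smul_eq_mul, RingHom.id_apply]
    split_ifs
    · simp
    · rw [mul_sum]

theorem D_apply (z : Sym2 α → Sym2 α → ZMod 2) (w : α) (e : Sym2 α) :
    D z w e = if w ∈ e then 0 else ∑ f ∈ univ.filter (fun f => w ∈ f), z e f := rfl

/-- symmetric functions on pairs of disjoint edges of `J` -/
def S (J : SimpleGraph α) : Submodule (ZMod 2) (Sym2 α → Sym2 α → ZMod 2) where
  carrier := {z | (∀ e f, z e f = z f e) ∧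
    ∀ e f, z e f ≠ 0 → e ∈ J.edgeSet ∧ f ∈ J.edgeSet ∧ Dj e f}
  add_mem' := by
    rintro x y ⟨hx, hx'⟩ ⟨hy, hy'⟩
    refine ⟨fun e f => by simp only [Pi.add_apply]; rw [hx, hy], fun e f h => ?_⟩
    by_cases h1 : x e f = 0
    · apply hy'
      intro h2
      exact h (by simp [h1, h2])
    · exact hx' e f h1
  zero_mem' := ⟨fun _ _ => rfl, fun _ _ h => (h rfl).elim⟩
  smul_mem' := by
    rintro r x ⟨hx, hx'⟩
    refine ⟨fun e f => by simp only [Pi.smul_apply]; rw [hx], fun e f h => ?_⟩
    apply hx'
    intro h2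
    exact h (by simp [h2])

/-- the symmetric function of a pair -/
def pr (e₀ f₀ : Sym2 α) : Sym2 α → Sym2 α → ZMod 2 := fun e f =>
  if (e = e₀ ∧ f = f₀) ∨ (e = f₀ ∧ f = e₀) then 1 else 0

theorem pr_mem {J : SimpleGraph α} {a b c d : α} (hab : J.Adj a b) (hcd : J.Adj c d)
    (h1 : a ≠ c) (h2 : a ≠ d) (h3 : b ≠ c) (h4 : b ≠ d) : pr s(a, b) s(c, d) ∈ S J := by
  have hD : Dj s(a, b) s(c, d) := by
    rintro v ⟨hv, hv'⟩
    rw [Sym2.mem_iff] at hv hv'
    rcases hv with rfl | rfl <;> rcases hv' with h | h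
    · exact h1 h
    · exact h2 h
    · exact h3 h
    · exact h4 h
  have hD' : Dj s(c, d) s(a, b) := fun v hv => hD v hv.symm
  refine ⟨fun e f => ?_, fun e f h => ?_⟩
  · simp only [pr]
    congr 1
    apply propext
    tauto
  · simp only [pr] at h
    split_ifs at h with h'
    · rcases h' with ⟨rfl, rfl⟩ | ⟨rfl, rfl⟩
      · exact ⟨hab, hcd, hD⟩
      · exact ⟨hcd, hab, hD'⟩
    · exact (h rfl).elim

/-- linear functionals on cells -/
theorem fun_eq (φ : (α → Sym2 α → ZMod 2) →ₗ[ZMod 2] ZMod 2) (g : α → Sym2 α → ZMod 2) :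
    φ g = ∑ w, ∑ e, φ (Pi.single w (Pi.single e 1)) * g w e := by
  have h : g = ∑ w, ∑ e, g w e • (Pi.single w (Pi.single e (1 : ZMod 2)) : α → Sym2 α → ZMod 2) := by
    funext w e
    simp only [Finset.sum_apply, Pi.smul_apply, smul_eq_mul]
    rw [sum_eq_single w, sum_eq_single e]
    · simp
    · intro f _ hf
      simp [Pi.single_apply, hf.symm]
    · simp
    · intro v _ hv
      refine sum_eq_zero fun f _ => ?_
      rw [Pi.single_eq_of_ne hv.symm]
      simp
    · simp
  conv_lhs => rw [h]
  simp only [map_sum, map_smul, smul_eq_mul]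
  exact sum_congr rfl fun w _ => sum_congr rfl fun e _ => mul_comm _ _

theorem D_pr {a b c d : α} (h0 : a ≠ b) (h0' : c ≠ d)
    (h1 : a ≠ c) (h2 : a ≠ d) (h3 : b ≠ c) (h4 : b ≠ d) :
    D (pr s(a, b) s(c, d)) = Pi.single a (Pi.single s(c, d) 1) + Pi.single b (Pi.single s(c, d) 1) +
      Pi.single c (Pi.single s(a, b) 1) + Pi.single d (Pi.single s(a, b) 1) := by
  have hne : s(a, b) ≠ s(c, d) := by
    intro h
    rw [Sym2.eq_iff] at h
    rcases h with ⟨h, _⟩ | ⟨h, _⟩
    · exact h1 h
    · exact h2 h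
  funext w e
  rw [D_apply]
  simp only [Pi.add_apply]
  have hsum : ∑ f ∈ univ.filter (fun f => w ∈ f), pr s(a, b) s(c, d) e f =
      (if e = s(a, b) ∧ w ∈ s(c, d) then 1 else 0) + if e = s(c, d) ∧ w ∈ s(a, b) then 1 else 0 := by
    have : ∀ f, pr s(a, b) s(c, d) e f = (if f = s(c, d) then (if e = s(a, b) then 1 else 0) else 0) +
        if f = s(a, b) then (if e = s(c, d) then 1 else 0) else 0 := by
      intro f
      simp only [pr]
      by_cases e1 : e = s(a, b)
      · subst e1
        by_cases f1 : f = s(c, d)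
        · subst f1
          simp [hne, hne.symm]
        · simp [f1, hne]
      · by_cases e2 : e = s(c, d)
        · subst e2
          by_cases f1 : f = s(a, b)
          · subst f1; simp [hne]
          · simp [f1, hne.symm]
        · simp [e1, e2]
    rw [sum_congr rfl fun f _ => this f, sum_add_distrib, sum_ite_eq', sum_ite_eq']
    simp only [mem_filter, mem_univ, true_and]
    congr 1
    · by_cases h : w ∈ s(c, d) <;> by_cases h' : e = s(a, b) <;> simp [h, h']
    · by_cases h : w ∈ s(a, b) <;> by_cases h' : e = s(c, d) <;> simp [h, h']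
  rw [hsum]
  have hs : ∀ x y : α, ∀ g : Sym2 α, (Pi.single x (Pi.single g (1 : ZMod 2)) : α → Sym2 α → ZMod 2) y e =
      if y = x ∧ e = g then 1 else 0 := by
    intro x y g
    by_cases h : y = x
    · subst h
      rw [Pi.single_eq_same, Pi.single_apply]
      simp
    · rw [Pi.single_eq_of_ne h]
      simp [h]
  rw [hs, hs, hs, hs]
  by_cases e1 : e = s(a, b)
  · subst e1
    by_cases wa : w = a
    · subst wa; simp [hne, h1, h2]
    · by_cases wb : w = b
      · subst wb; simp [hne, h3, h4]
      · by_cases wc : w = c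
        · subst wc; simp [hne, wa, wb, h0']
        · by_cases wd : w = d
          · subst wd; simp [hne, wa, wb, wc]
          · simp [wa, wb, wc, wd]
  · by_cases e2 : e = s(c, d)
    · subst e2
      by_cases wc : w = c
      · subst wc; simp [hne.symm, h1.symm, h3.symm]
      · by_cases wd : w = d
        · subst wd; simp [hne.symm, h2.symm, h4.symm]
        · by_cases wa : w = a
          · subst wa; simp [hne.symm, wc, wd, h0]
          · by_cases wb : w = b
            · subst wb; simp [hne.symm, wa, wc, wd]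
            · simp [wa, wb, wc, wd]
    · simp [e1, e2]

end LEXM

open LEXM in
theorem specLEX (hHTH : SpecHTH) : SpecLEX := by
  intro α _ _ J hJ la h1 h2 h3
  have hz : ∀ w e, w ∈ e → la w e = 0 := by
    intro w e hwe
    by_contra h
    have := (h1 w).1 e h
    induction e using Sym2.ind with
    | _ a b =>
      rw [mem_edgeSet] at this
      obtain ⟨_, ha, hb⟩ := this
      rw [Sym2.mem_iff] at hwe
      rcases hwe with rfl | rfl
      · exact ha (by simp)
      · exact hb (by simp)
  have key : (la : α → Sym2 α → ZMod 2) ∈ (S J).map (D (α := α)) := by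
    rw [← Subspace.forall_mem_dualAnnihilator_apply_eq_zero_iff]
    intro φ hφ
    rw [Submodule.mem_dualAnnihilator] at hφ
    set al : α → Sym2 α → ZMod 2 := fun w e => φ (Pi.single w (Pi.single e 1)) with hal
    have hcoc : IsCoc J al := by
      intro a b c d hab hcd g1 g2 g3 g4
      have := hφ _ (Submodule.mem_map_of_mem (pr_mem hab hcd g1 g2 g3 g4))
      rw [D_pr hab.ne hcd.ne g1 g2 g3 g4] at this
      simpa only [map_add] using this
    obtain ⟨η, hη⟩ := hHTH J hJ al hcoc
    rw [fun_eq φ la]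
    have : ∀ w, ∑ e, al w e * la w e = ∑ e, η e * la w e := by
      intro w
      by_cases hw : w ∈ VS J
      · exact hη w hw _ (h1 w)
      · rw [h2 w hw]; simp
    rw [show (∑ w, ∑ e, φ (Pi.single w (Pi.single e 1)) * la w e) = ∑ w, ∑ e, η e * la w e from
      sum_congr rfl fun w _ => this w, sum_comm]
    refine sum_eq_zero fun e _ => ?_
    rw [← mul_sum]
    have h4 : ∑ w, la w e = 0 := by
      have := congrFun h3 e
      rwa [Finset.sum_apply] at this
    rw [h4, mul_zero]
  obtain ⟨z, hzS, hzD⟩ := key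
  refine ⟨z, hzS.1, hzS.2, fun w e hwe => ?_⟩
  have := congrFun (congrFun hzD w) e
  rw [D_apply, if_neg hwe] at this
  exact this

end DL
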