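import Pool.Agent.DL.EX.MUE

set_option autoImplicit false

/-!
# NOR: combinations of coherence functions with vanishing symmetrized coefficients
-/

open SimpleGraph Finset

namespace DL

namespace NORM

open MUEM

variable {α : Type} [Fintype α] [DecidableEq α]

open Classical in
/-- orientation of the edge `ab` relative to the numbering -/
noncomputable def og (a b : α) : ZMod 2 := if rk a < rk b then 0 else 1

/-- smaller and larger end of an edge -/
noncomputable def lo (e : Sym2 α) : α := if rk (Quot.out e).1 < rk (Quot.out e).2 then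
  (Quot.out e).1 else (Quot.out e).2

noncomputable def hi (e : Sym2 α) : α := if rk (Quot.out e).1 < rk (Quot.out e).2 then
  (Quot.out e).2 else (Quot.out e).1

lemma lohi (e : Sym2 α) : s(lo e, hi e) = e := by
  have h : s((Quot.out e).1, (Quot.out e).2) = e := Quot.out_eq e
  unfold lo hi
  split_ifs
  · exact h
  · rw [Sym2.eq_swap]; exact h

lemma lohi_lt {e : Sym2 α} (he : ¬ e.IsDiag) : rk (lo e) < rk (hi e) := by
  have h : s((Quot.out e).1, (Quot.out e).2) = e := Quot.out_eq e
  have h2 : (Quot.out e).1 ≠ (Quot.out e).2 := by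
    intro h3
    apply he
    rw [← h, Sym2.mk_isDiag_iff]
    exact h3
  unfold lo hi
  rcases rk_lt_or h2 with h3 | h3
  · rw [if_pos h3.1, if_pos h3.1]; exact h3.1
  · rw [if_neg h3.2, if_neg h3.2]; exact h3.1

lemma lohi_mk {a b : α} (h : a ≠ b) :
    (rk a < rk b ∧ lo s(a, b) = a ∧ hi s(a, b) = b) ∨
      (rk b < rk a ∧ ¬ rk a < rk b ∧ lo s(a, b) = b ∧ hi s(a, b) = a) := by
  have h1 := lohi s(a, b)
  have h2 : rk (lo s(a, b)) < rk (hi s(a, b)) := lohi_lt (by rwa [Sym2.mk_isDiag_iff])
  rcases Sym2.eq_iff.1 h1 with ⟨h3, h4⟩ | ⟨h3, h4⟩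
  · rw [h3, h4] at h2
    exact Or.inl ⟨h2, h3, h4⟩
  · rw [h3, h4] at h2
    exact Or.inr ⟨h2, by omega, h3, h4⟩

open Classical in
/-- the coherence function of the pair of edges `e`, `f` with their standard orientations -/
noncomputable def ch (C : Finset (Sym2 α)) (e f : Sym2 α) : ZMod 2 :=
  if Dj4 (lo e) (hi e) (lo f) (hi f) then coh (lo e) (hi e) (lo f) (hi f) C else 0

lemma ch_symm {G : SimpleGraph α} {C : Finset (Sym2 α)} (hC : IsCyc G C) (e f : Sym2 α) :
    ch C e f = ch C f e := by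
  unfold ch
  by_cases h : Dj4 (lo e) (hi e) (lo f) (hi f)
  · rw [if_pos h, if_pos (dj_comm h), hC.coh_comm]
  · rw [if_neg h, if_neg fun h' => h (dj_comm h')]

lemma dj_lohi {a b c d : α} (hab : a ≠ b) (hcd : c ≠ d) :
    Dj4 (lo s(a, b)) (hi s(a, b)) (lo s(c, d)) (hi s(c, d)) ↔ Dj4 a b c d := by
  rcases lohi_mk hab with ⟨_, h1, h2⟩ | ⟨_, _, h1, h2⟩ <;>
    rcases lohi_mk hcd with ⟨_, h3, h4⟩ | ⟨_, _, h3, h4⟩ <;> rw [h1, h2, h3, h4]
  · exact ⟨dj_swap2, dj_swap2⟩
  · exact ⟨dj_swap1, dj_swap1⟩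
  · exact ⟨fun h => dj_swap1 (dj_swap2 h), fun h => dj_swap1 (dj_swap2 h)⟩

lemma edge_ne {a b c d : α} (h : Dj4 a b c d) : s(a, b) ≠ s(c, d) := by
  intro e
  rcases Sym2.eq_iff.1 e with ⟨h1, _⟩ | ⟨h1, _⟩
  · exact h.2.2.1 h1
  · exact h.2.2.2.1 h1

/-- all orientations are the standard one modulo the product -/
lemma coh_std {G : SimpleGraph α} {C : Finset (Sym2 α)} (hC : IsCyc G C) {a b c d : α}
    (h : Dj4 a b c d) :
    coh a b c d C = ch C s(a, b) s(c, d) + (og a b + og c d) * (chi C s(a, b) * chi C s(c, d)) := by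
  have hne := edge_ne h
  have hab := h.1
  have hcd := h.2.1
  unfold ch
  rw [if_pos ((dj_lohi hab hcd).2 h)]
  have s1 := hC.coh_add_swap (a := a) (b := b) (c := c) (d := d) hne
  have s2 := hC.coh_add_swap (a := b) (b := a) (c := c) (d := d)
    (by rw [Sym2.eq_swap]; exact hne)
  have r1 := hC.coh_reverse a b c d
  have r2 := hC.coh_reverse a b d c
  rw [Sym2.eq_swap (a := b) (b := a)] at s2
  have two : ∀ x : ZMod 2, x + x = 0 := zmod2_add_self
  rcases lohi_mk hab with ⟨p, h1, h2⟩ | ⟨_, p, h1, h2⟩ <;>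
    rcases lohi_mk hcd with ⟨q, h3, h4⟩ | ⟨_, q, h3, h4⟩ <;> rw [h1, h2, h3, h4] <;>
    simp only [og, p, q, if_true, if_false]
  · ring
  · have := two (coh a b d c C)
    linear_combination s1 - this
  · rw [r2]
    have := two (coh a b d c C)
    linear_combination s1 - this
  · rw [r1]
    have := two (chi C s(a, b) * chi C s(c, d))
    linear_combination -this

open Classical in
/-- the coefficient of the polynomial part -/
noncomputable def tau (a b c d : α) : ZMod 2 :=
  if Dj4 a b c d then og a b + og c d else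
    if ∀ (G : SimpleGraph α) (C : Finset (Sym2 α)), IsCyc G C → coh a b c d C = 0 then 0 else 1

lemma coh_eq {G : SimpleGraph α} {C : Finset (Sym2 α)} (hC : IsCyc G C) (a b c d : α) :
    coh a b c d C = ch C s(a, b) s(c, d) + tau a b c d * (chi C s(a, b) * chi C s(c, d)) := by
  classical
  by_cases h : Dj4 a b c d
  · rw [coh_std hC h, tau, if_pos h]
  · by_cases hab : a = b
    · have h1 : s(a, b) ∉ C := fun h' => hC.not_isDiag _ h' (by rw [Sym2.mk_isDiag_iff]; exact hab)
      have h2 : ch C s(a, b) s(c, d) = 0 := by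
        unfold ch
        split_ifs with h3
        · rw [coh_eq_zero_left]
          rwa [lohi]
        · rfl
      rw [coh_eq_zero_left h1, h2, chi_of_notMem h1]
      ring
    by_cases hcd : c = d
    · have h1 : s(c, d) ∉ C := fun h' => hC.not_isDiag _ h' (by rw [Sym2.mk_isDiag_iff]; exact hcd)
      have h2 : ch C s(a, b) s(c, d) = 0 := by
        unfold ch
        split_ifs with h3
        · rw [coh_eq_zero_right]
          rwa [lohi]
        · rfl
      rw [coh_eq_zero_right h1, h2, chi_of_notMem h1]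
      ring
    have h2 : ch C s(a, b) s(c, d) = 0 := by
      unfold ch
      rw [if_neg fun h' => h ((dj_lohi hab hcd).1 h')]
    have hsh : ∃ v, v ∈ s(a, b) ∧ v ∈ s(c, d) := by
      by_contra hcon
      push Not at hcon
      apply h
      have ha := hcon a (Sym2.mem_mk_left _ _)
      have hb := hcon b (Sym2.mem_mk_right _ _)
      rw [Sym2.mem_iff] at ha hb
      push Not at ha hb
      exact ⟨hab, hcd, ha.1, ha.2, hb.1, hb.2⟩
    rw [h2, zero_add, tau, if_neg h]
    rcases coh_share hsh with h3 | h3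
    · rw [if_pos h3, h3 G C hC, zero_mul]
    · by_cases h4 : ∀ (G : SimpleGraph α) (C : Finset (Sym2 α)), IsCyc G C → coh a b c d C = 0
      · rw [if_pos h4, h4 G C hC, zero_mul]
      · rw [if_neg h4, h3 G C hC, one_mul]

/-- the polynomial -/
noncomputable def pol (l : α → α → α → α → ZMod 2) (c : Chain α) : ZMod 2 :=
  ∑ a, ∑ b, ∑ c', ∑ d, l a b c' d * (tau a b c' d * (c s(a, b) * c s(c', d)))

lemma pol_deg (hPOL : SpecPOL) (l : α → α → α → α → ZMod 2) : DegLE 2 (pol l) := by
  have h1 : ∀ e : Sym2 α, DegLE 1 (fun c : Chain α => c e) := fun e =>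
    hPOL.ofAdd fun a b => Pi.add_apply a b e
  have h2 : ∀ e f : Sym2 α, DegLE 2 (fun c : Chain α => c e * c f) := fun e f =>
    hPOL.mul (h1 e) (h1 f)
  have h3 : ∀ (x y : ZMod 2) (e f : Sym2 α), DegLE 2 (fun c : Chain α => x * (y * (c e * c f))) := by
    intro x y e f
    have := hPOL.mul (hPOL.const 0 (x * y)) (h2 e f)
    rw [zero_add] at this
    have e1 : (fun c : Chain α => x * (y * (c e * c f))) = fun c => (x * y) * (c e * c f) := by
      funext c; ring
    rw [e1]
    exact this
  unfold pol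
  refine hPOL.sum _ _ fun a _ => hPOL.sum _ _ fun b _ => hPOL.sum _ _ fun c _ =>
    hPOL.sum _ _ fun d _ => h3 _ _ _ _

end NORM

open NORM MUEM in
theorem specNOR (hPOL : SpecPOL) : SpecNOR := by
  intro α _ _ G l hl
  refine ⟨pol l, pol_deg hPOL l, ?_, fun C hC => ?_⟩
  · unfold pol
    simp
  · have h1 : ∑ a, ∑ b, ∑ c, ∑ d, l a b c d * ch C s(a, b) s(c, d) = 0 := by
      have hdj : ∀ a b c d, ch C s(a, b) s(c, d) ≠ 0 →
          Dj4 a b c d ∧ s(a, b) ∈ C ∧ s(c, d) ∈ C := by
        intro a b c d h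
        unfold ch at h
        split_ifs at h with h2
        · rw [coh_ne_zero, lohi, lohi] at h
          have hab : a ≠ b := by
            intro h3
            exact hC.not_isDiag _ h.1 (by rw [Sym2.mk_isDiag_iff]; exact h3)
          have hcd : c ≠ d := by
            intro h3
            exact hC.not_isDiag _ h.2.1 (by rw [Sym2.mk_isDiag_iff]; exact h3)
          exact ⟨(dj_lohi hab hcd).1 h2, h.1, h.2.1⟩
        · exact absurd rfl h
      exact pair_zero l (ch C) (ch_symm hC) (fun a b c d h => (hdj a b c d h).1)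
        (fun a b c d h => hl a b c d (hC.adj_of_mem (hdj a b c d h).2.1)
          (hC.adj_of_mem (hdj a b c d h).2.2) (hdj a b c d h).1)
    unfold cohs pol
    have h2 : ∀ a b c d, l a b c d * coh a b c d C = l a b c d * ch C s(a, b) s(c, d) +
        l a b c d * (tau a b c d * (chi C s(a, b) * chi C s(c, d))) := by
      intro a b c d
      rw [coh_eq hC]
      ring
    simp only [h2, sum_add_distrib]
    rw [h1, zero_add]

end DL
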