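import Pool.Agent.DL.EX.VRW

/-!
MP_3ff0f8_gt, ALGEBRA HALF, EX/K block, module PRL (helper20)
-/

open SimpleGraph Finset

namespace DL

namespace PRLM

set_option linter.unusedSectionVars false

variable {α : Type} [Fintype α] [DecidableEq α] {G : SimpleGraph α} {a b : α}

theorem mem_cmn {x : α} : x ∈ cmn G a b ↔ G.Adj a x ∧ G.Adj b x := by
  simp [cmn]

/-- the pairs in the support -/
noncomputable def S (G : SimpleGraph α) (a b : α) (c : Chain α) : Finset α := by
  classical exact (cmn G a b).filter (fun x => c s(a, x) * c s(b, x) ≠ 0)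

theorem mem_S {c : Chain α} {x : α} :
    x ∈ S G a b c ↔ (G.Adj a x ∧ G.Adj b x) ∧ c s(a, x) = 1 ∧ c s(b, x) = 1 := by
  classical
  unfold S
  rw [mem_filter, mem_cmn]
  refine and_congr_right fun _ => ?_
  rcases zmod2_cases (c s(a, x)) with h | h <;> rcases zmod2_cases (c s(b, x)) with h' | h' <;>
    simp [h, h']

/-- triangle -/
def T (a b x : α) : Chain α := chi {s(a, x), s(b, x), s(a, b)}

theorem T_a {x y : α} (hab : a ≠ b) (hyb : y ≠ b) (hxa : x ≠ a) :
    T a b x s(a, y) = if y = x then 1 else 0 := by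
  unfold T
  rw [chi_apply]
  congr 1
  simp only [mem_insert, mem_singleton, Sym2.eq_iff, eq_iff_iff]
  constructor
  · rintro ((⟨_, h⟩ | ⟨h, _⟩) | (⟨h, _⟩ | ⟨h, _⟩) | (⟨_, h⟩ | ⟨h, _⟩))
    · exact h
    · exact absurd h hxa.symm
    · exact absurd h hab
    · exact absurd h hxa.symm
    · exact absurd h hyb
    · exact absurd h hab
  · rintro rfl; exact Or.inl (Or.inl ⟨trivial, rfl⟩)

theorem T_b {x y : α} (hab : a ≠ b) (hya : y ≠ a) (hxb : x ≠ b) :
    T a b x s(b, y) = if y = x then 1 else 0 := by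
  unfold T
  rw [chi_apply]
  congr 1
  simp only [mem_insert, mem_singleton, Sym2.eq_iff, eq_iff_iff]
  constructor
  · rintro ((⟨h, _⟩ | ⟨h, _⟩) | (⟨_, h⟩ | ⟨h, _⟩) | (⟨h, _⟩ | ⟨_, h⟩))
    · exact absurd h hab.symm
    · exact absurd h hxb.symm
    · exact h
    · exact absurd h hxb.symm
    · exact absurd h hab.symm
    · exact absurd h hya
  · rintro rfl; exact Or.inr (Or.inl (Or.inl ⟨trivial, rfl⟩))

/-- an edge `h` at `a` or `b` and away from `x` -/
theorem exists_h (hab : G.Adj a b) (hH : KConn 3 (contr G a b)) {x : α} (hx : G.Adj a x) (hxb : x ≠ b)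
    (c' : Chain α) :
    ∃ w y, (w = a ∨ w = b) ∧ G.Adj w y ∧ y ≠ a ∧ y ≠ b ∧ y ≠ x ∧
      (G.Adj a y → G.Adj b y → (w = a → ¬ (c' s(a, y) = 0 ∧ c' s(b, y) = 1)) ∧
        (w = b → ¬ (c' s(a, y) = 1 ∧ c' s(b, y) = 0))) := by
  have h3 : 3 ≤ (nbs (contr G a b) a).card := hH.le_nbs (left_mem_VS (b := x) (by
    rw [contr_adj]; exact ⟨hab.ne, hxb, hx.ne, Or.inl hx⟩))
  have : ∃ y ∈ nbs (contr G a b) a, y ≠ x := by
    by_contra h
    push Not at h
    have : nbs (contr G a b) a ⊆ {x} := fun y hy => by rw [mem_singleton]; exact h y hy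
    have := card_le_card this
    simp at this
    omega
  obtain ⟨y, hy, hyx⟩ := this
  rw [mem_nbs, contr_adj] at hy
  obtain ⟨_, hyb, hay, h⟩ := hy
  by_cases hAy : G.Adj a y
  · by_cases hBy : G.Adj b y
    · by_cases hc : c' s(a, y) = 0 ∧ c' s(b, y) = 1
      · refine ⟨b, y, Or.inr rfl, hBy, hay.symm, hyb, hyx, fun _ _ => ⟨fun h => absurd h hab.ne.symm, fun _ h => ?_⟩⟩
        rw [hc.1] at h
        exact absurd h.1 (by decide)
      · exact ⟨a, y, Or.inl rfl, hAy, hay.symm, hyb, hyx, fun _ _ => ⟨fun _ => hc, fun h => absurd h hab.ne⟩⟩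
    · exact ⟨a, y, Or.inl rfl, hAy, hay.symm, hyb, hyx, fun _ h => absurd h hBy⟩
  · refine ⟨b, y, Or.inr rfl, ?_, hay.symm, hyb, hyx, fun h => absurd h hAy⟩
    rcases h with h | ⟨_, h⟩ | ⟨h, _⟩
    · exact absurd h hAy
    · exact h
    · exact absurd h.symm hay

theorem main (hPOL : SpecPOL) (hab : G.Adj a b) (hH : KConn 3 (contr G a b))
    (q' : Chain α → ZMod 2) (hq : DegLE 2 q') (h0 : ∀ c ∈ Z1 G, S G a b c = ∅ → q' c = 0)
    (hT : ∀ x, G.Adj a x → G.Adj b x → q' (T a b x) = 0) :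
    ∀ n, ∀ c ∈ Z1 G, (S G a b c).card = n → q' c = 0 := by
  intro n
  induction n using Nat.strong_induction_on with
  | _ n ih =>
  intro c hc hn
  rcases (S G a b c).eq_empty_or_nonempty with hS | ⟨x, hx⟩
  · exact h0 c hc hS
  have hx' := mem_S.1 hx
  obtain ⟨⟨hax, hbx⟩, hcx1, hcx2⟩ := hx'
  have hxa : x ≠ a := hax.ne.symm
  have hxb : x ≠ b := hbx.ne.symm
  have hne := hab.ne
  have hTZ : T a b x ∈ Z1 G := (specSEF.tri hab hax hbx).1.chi_mem
  set t := T a b x with ht
  have hc' : c + t ∈ Z1 G := (Z1 G).add_mem hc hTZ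
  obtain ⟨w, y, hw, hwy, hya, hyb, hyx, hgood⟩ := exists_h hab hH hax hxb (c + t)
  -- the cycle
  have hsab : ∀ v z, (v = a ∨ v = b) → G.Adj v z → z ≠ a → z ≠ b → s(v, z) ∈ sab G a b := by
    intro v z hv hvz hza hzb
    refine ⟨hvz, ?_, ?_⟩
    · rcases hv with rfl | rfl
      · exact Or.inl (by simp)
      · exact Or.inr (by simp)
    · intro h
      rcases Sym2.eq_iff.1 h with ⟨_, h⟩ | ⟨_, h⟩
      · exact hzb h
      · exact hza h
  have hFne : s(a, x) ≠ s(w, y) := by
    intro h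
    rcases Sym2.eq_iff.1 h with ⟨_, h⟩ | ⟨h, _⟩
    · exact hyx h.symm
    · exact hya h.symm
  obtain ⟨C, hC, hCF⟩ := specTWO.pair hab hH {s(a, x), s(w, y)} (card_pair hFne) (by
    intro e he
    simp only [mem_insert, mem_singleton] at he
    rcases he with rfl | rfl
    · exact hsab a x (Or.inl rfl) hax hxa hxb
    · exact hsab w y hw hwy hya hyb)
  have huZ : chi C ∈ Z1 G := hC.1.chi_mem
  set u := chi C with hu
  have hua : ∀ z, G.Adj a z → z ≠ b → u s(a, z) = if z = x ∨ (w = a ∧ z = y) then 1 else 0 := by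
    intro z haz hzb
    rw [hu, chi_apply]
    congr 1
    rw [eq_iff_iff, hCF _ (hsab a z (Or.inl rfl) haz haz.ne.symm hzb)]
    simp only [mem_insert, mem_singleton, Sym2.eq_iff]
    constructor
    · rintro ((⟨_, h⟩ | ⟨h, _⟩) | (⟨h1, h2⟩ | ⟨h1, h2⟩))
      · exact Or.inl h
      · exact absurd h.symm hxa
      · exact Or.inr ⟨h1.symm, h2⟩
      · exact absurd h1.symm hya
    · rintro (h | ⟨h1, h2⟩)
      · exact Or.inl (Or.inl ⟨trivial, h⟩)
      · exact Or.inr (Or.inl ⟨h1.symm, h2⟩)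
  have hub : ∀ z, G.Adj b z → z ≠ a → u s(b, z) = if w = b ∧ z = y then 1 else 0 := by
    intro z hbz hza
    rw [hu, chi_apply]
    congr 1
    rw [eq_iff_iff, hCF _ (hsab b z (Or.inr rfl) hbz hza hbz.ne.symm)]
    simp only [mem_insert, mem_singleton, Sym2.eq_iff]
    constructor
    · rintro ((⟨h, _⟩ | ⟨h, _⟩) | (⟨h1, h2⟩ | ⟨h1, h2⟩))
      · exact absurd h.symm hne
      · exact absurd h.symm hxb
      · exact ⟨h1.symm, h2⟩
      · exact absurd h1.symm hyb
    · rintro ⟨h1, h2⟩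
      exact Or.inr (Or.inl ⟨h1.symm, h2⟩)
  have hta : ∀ z, G.Adj b z → t s(a, z) = if z = x then 1 else 0 := fun z hz =>
    T_a hne hz.ne.symm hxa
  have htb : ∀ z, G.Adj a z → t s(b, z) = if z = x then 1 else 0 := fun z hz =>
    T_b hne hz.ne.symm hxb
  have h10 : (1 : ZMod 2) ≠ 0 := by decide
  have h11 : (1 : ZMod 2) + 1 = 0 := by decide
  -- S (c + t)
  have hSct : S G a b (c + t) ⊆ (S G a b c).erase x := by
    intro z hz
    obtain ⟨⟨haz, hbz⟩, h1, h2⟩ := mem_S.1 hz
    rw [Pi.add_apply, hta z hbz] at h1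
    rw [Pi.add_apply, htb z haz] at h2
    rw [mem_erase]
    by_cases hzx : z = x
    · exfalso
      rw [if_pos hzx, hzx, hcx1, h11] at h1
      exact h10 h1.symm
    · rw [if_neg hzx, add_zero] at h1 h2
      exact ⟨hzx, mem_S.2 ⟨⟨haz, hbz⟩, h1, h2⟩⟩
  have hcard : (S G a b (c + t)).card < n := by
    have h1 := card_le_card hSct
    rw [card_erase_of_mem hx, hn] at h1
    have h2 : 0 < n := by rw [← hn]; exact card_pos.2 ⟨x, hx⟩
    omega
  have hw' : ¬ (w = a ∧ w = b) := fun h => hne (h.1.symm.trans h.2)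
  -- S u = ∅
  have hSu : S G a b u = ∅ := by
    rw [eq_empty_iff_forall_notMem]
    intro z hz
    obtain ⟨⟨haz, hbz⟩, h1, h2⟩ := mem_S.1 hz
    rw [hua z haz hbz.ne.symm] at h1
    rw [hub z hbz haz.ne.symm] at h2
    have h3 : w = b ∧ z = y := by
      by_contra h
      rw [if_neg h] at h2
      exact h10 h2.symm
    have h4 : z = x ∨ (w = a ∧ z = y) := by
      by_contra h
      rw [if_neg h] at h1
      exact h10 h1.symm
    rcases h4 with h4 | h4
    · exact hyx (h3.2.symm.trans h4)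
    · exact hw' ⟨h4.1, h3.1⟩
  have hSut : S G a b (u + t) = ∅ := by
    rw [eq_empty_iff_forall_notMem]
    intro z hz
    obtain ⟨⟨haz, hbz⟩, h1, h2⟩ := mem_S.1 hz
    rw [Pi.add_apply, hua z haz hbz.ne.symm, hta z hbz] at h1
    rw [Pi.add_apply, hub z hbz haz.ne.symm, htb z haz] at h2
    by_cases hzx : z = x
    · rw [if_pos (Or.inl hzx), if_pos hzx, h11] at h1
      exact h10 h1.symm
    · rw [if_neg hzx, add_zero] at h1 h2
      have h3 : w = b ∧ z = y := by
        by_contra h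
        rw [if_neg h] at h2
        exact h10 h2.symm
      have h4 : z = x ∨ (w = a ∧ z = y) := by
        by_contra h
        rw [if_neg h] at h1
        exact h10 h1.symm
      rcases h4 with h4 | h4
      · exact hzx h4
      · exact hw' ⟨h4.1, h3.1⟩
  have hSuc : S G a b (u + (c + t)) ⊆ S G a b (c + t) := by
    intro z hz
    obtain ⟨⟨haz, hbz⟩, h1, h2⟩ := mem_S.1 hz
    rw [Pi.add_apply, hua z haz hbz.ne.symm] at h1
    rw [Pi.add_apply, hub z hbz haz.ne.symm] at h2
    by_cases hzx : z = x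
    · exfalso
      rw [if_neg (fun h => hyx (h.2.symm.trans hzx)), zero_add, Pi.add_apply, htb z haz, if_pos hzx,
        hzx, hcx2, h11] at h2
      exact h10 h2.symm
    · by_cases hzy : z = y
      · subst hzy
        obtain ⟨g1, g2⟩ := hgood haz hbz
        rcases hw with hw | hw
        · exfalso
          rw [if_pos (Or.inr ⟨hw, rfl⟩)] at h1
          rw [if_neg (fun h => hw' ⟨hw, h.1⟩), zero_add] at h2
          refine g1 hw ⟨?_, h2⟩
          rcases zmod2_cases ((c + t) s(a, z)) with h | h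
          · exact h
          · rw [h, h11] at h1; exact absurd h1.symm h10
        · exfalso
          rw [if_neg (fun h => h.elim hzx fun h => hw' ⟨h.1, hw⟩), zero_add] at h1
          rw [if_pos ⟨hw, rfl⟩] at h2
          refine g2 hw ⟨h1, ?_⟩
          rcases zmod2_cases ((c + t) s(b, z)) with h | h
          · exact h
          · rw [h, h11] at h2; exact absurd h2.symm h10
      · rw [if_neg (fun h => h.elim hzx fun h => hzy h.2), zero_add] at h1
        rw [if_neg (fun h => hzy h.2), zero_add] at h2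
        exact mem_S.2 ⟨⟨haz, hbz⟩, h1, h2⟩
  have hSutc : S G a b (u + t + (c + t)) ⊆ S G a b (c + t) := by
    intro z hz
    obtain ⟨⟨haz, hbz⟩, h1, h2⟩ := mem_S.1 hz
    rw [Pi.add_apply, Pi.add_apply, hua z haz hbz.ne.symm, hta z hbz] at h1
    rw [Pi.add_apply, Pi.add_apply, hub z hbz haz.ne.symm, htb z haz] at h2
    by_cases hzx : z = x
    · exfalso
      rw [if_pos (Or.inl hzx), if_pos hzx, h11, zero_add, Pi.add_apply, hta z hbz, if_pos hzx, hzx,
        hcx1, h11] at h1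
      exact h10 h1.symm
    · refine hSuc (mem_S.2 ⟨⟨haz, hbz⟩, ?_, ?_⟩)
      · rw [if_neg hzx, add_zero] at h1
        rw [Pi.add_apply, hua z haz hbz.ne.symm]; exact h1
      · rw [if_neg hzx, add_zero] at h2
        rw [Pi.add_apply, hub z hbz haz.ne.symm]; exact h2
  have e1 := h0 u huZ hSu
  have e2 := h0 (u + t) ((Z1 G).add_mem huZ hTZ) hSut
  have e3 := ih _ hcard (c + t) hc' rfl
  have e4 := ih _ (lt_of_le_of_lt (card_le_card hSuc) hcard) (u + (c + t))
    ((Z1 G).add_mem huZ hc') rfl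
  have e5 := ih _ (lt_of_le_of_lt (card_le_card hSutc) hcard) (u + t + (c + t))
    ((Z1 G).add_mem ((Z1 G).add_mem huZ hTZ) hc') rfl
  have e6 := hT x hax hbx
  have e7 := h0 0 (Z1 G).zero_mem (by
    rw [eq_empty_iff_forall_notMem]
    intro z hz
    have := (mem_S.1 hz).2.1
    rw [Pi.zero_apply] at this
    exact h10 this.symm)
  have e8 := hPOL.two hq 0 u t (c + t)
  simp only [zero_add] at e8
  have e9 : t + (c + t) = c := by
    rw [add_left_comm, chain_add_self, add_zero]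
  rw [← ht] at e6
  rw [e9, e1, e2, e3, e4, e5, e6, e7] at e8
  simpa using e8

end PRLM

open PRLM in
theorem specPRL (hPOL : SpecPOL) : SpecPRL := by
  intro α _ _ G a b hab hH q hq hV c hc
  have hne := hab.ne
  have hdeg : DegLE 2 (fun c : Chain α => q c +
      ∑ x ∈ cmn G a b, q (T a b x) * (c s(a, x) * c s(b, x))) := by
    refine hPOL.add hq (hPOL.sum _ _ fun x _ => ?_)
    have h1 : ∀ e : Sym2 α, DegLE 1 (fun c : Chain α => c e) := fun e =>
      hPOL.ofAdd fun c d => rfl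
    exact hPOL.mul (d := 0) (e := 2) (hPOL.const 0 _) (hPOL.mul (d := 1) (e := 1) (h1 _) (h1 _))
  have key := main hPOL hab hH _ hdeg (by
    intro c hc hS
    have h1 : ∀ x, G.Adj a x → G.Adj b x → c s(a, x) * c s(b, x) = 0 := by
      intro x hax hbx
      by_contra h
      have : x ∈ S G a b c := by
        rw [mem_S]
        rcases zmod2_cases (c s(a, x)) with h1 | h1 <;>
          rcases zmod2_cases (c s(b, x)) with h2 | h2 <;> simp_all
      rw [hS] at this
      simp at this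
    have h2 := hV c hc h1
    show q c + _ = 0
    rw [h2, zero_add]
    refine sum_eq_zero fun x hx => ?_
    obtain ⟨hax, hbx⟩ := mem_cmn.1 hx
    rw [h1 x hax hbx, mul_zero]) (by
    intro x hax hbx
    show q (T a b x) + _ = 0
    rw [sum_eq_single x]
    · rw [T_a hne hbx.ne.symm hax.ne.symm, T_b hne hax.ne.symm hbx.ne.symm, if_pos rfl]
      simp [zmod2_add_self]
    · intro y hy hyx
      obtain ⟨hay, hby⟩ := mem_cmn.1 hy
      rw [T_a hne hby.ne.symm hax.ne.symm, if_neg hyx]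
      simp
    · intro h
      exact absurd (mem_cmn.2 ⟨hax, hbx⟩) h)
  have h2 := key _ c hc rfl
  have h3 : ∀ x y : ZMod 2, x + y = 0 → x = y := by decide
  exact h3 _ _ h2

end DL
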