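import Pool.Agent.DL.EX.Spec
import Pool.Agent.Lib.MP_3ff0f8_gt.PL.Ctr

/-!
# THO (helper92): every 3-connected graph with at least 5 vertices has an edge whose contraction is 3-connected
-/

open SimpleGraph Finset

namespace DL.THOM

open Pool.Agent.Lib.MP_3ff0f8_gt

variable {α : Type} [Fintype α] [DecidableEq α] {G : SimpleGraph α}

theorem rch_of_reach {A S : Finset α} (hA : ∀ x, x ∈ A ↔ x ∈ VS G ∧ x ∉ S) {u w : α}
    (h : (del G S).Reachable u w) : PL.Rch G A u w := by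
  obtain ⟨W⟩ := h
  induction W with
  | nil => exact Relation.ReflTransGen.refl
  | @cons p q r hpq W ih =>
    refine PL.Rch.trans (PL.Rch.single hpq.1 ?_ ?_) ih
    · exact (hA p).2 ⟨left_mem_VS hpq.1, hpq.2.1⟩
    · exact (hA q).2 ⟨right_mem_VS hpq.1, hpq.2.2⟩

theorem reach_of_rch {H : SimpleGraph α} {A S : Finset α} (hH : ∀ x ∈ A, ∀ y ∈ A, G.Adj x y → H.Adj x y)
    (hA : ∀ x ∈ A, x ∉ S) {u w : α} (h : PL.Rch G A u w) : (del H S).Reachable u w := by
  induction h with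
  | refl => exact Reachable.refl _
  | @tail p q _ h2 ih =>
    refine ih.trans (Adj.reachable ?_)
    exact ⟨hH p h2.2.1 q h2.2.2 h2.1, hA p h2.2.1, hA q h2.2.2⟩

theorem K3_of_KConn (h : KConn 3 G) : PL.K3 G (VS G) := by
  refine ⟨h.1, fun S hS => ⟨?_, ?_⟩⟩
  · obtain ⟨w, hw, hwS⟩ := h.exists_notMem (S := S) (by omega)
    exact ⟨w, mem_sdiff.2 ⟨hw, hwS⟩⟩
  · intro u hu w hw
    rw [mem_sdiff] at hu hw
    exact rch_of_reach (fun x => mem_sdiff) (h.2 S (by omega) u hu.1 w hw.1 hu.2 hw.2)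

theorem con_contr {a b x y : α} (hx : x ≠ b) (hy : y ≠ b) (h : (PL.con G a b).Adj x y) :
    (contr G a b).Adj x y := by
  obtain ⟨h1, h2⟩ := h
  refine ⟨hx, hy, h1, ?_⟩
  rcases h2 with h2 | h2 | h2
  · exact Or.inl h2
  · exact Or.inr (Or.inl h2)
  · exact Or.inr (Or.inr ⟨h2.1, h2.2.symm⟩)

theorem KConn_contr {a b : α} (ha : a ∈ VS G) (h : PL.K3 (PL.con G a b) ((VS G).erase b)) :
    KConn 3 (contr G a b) := by
  have hsub : (VS G).erase b ⊆ VS (contr G a b) := by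
    intro x hx
    have h0 := h.2 ∅ (by simp)
    rw [sdiff_empty] at h0
    have hc := h.1
    obtain ⟨y, hy, hyx⟩ := exists_mem_ne (show 1 < ((VS G).erase b).card by omega) x
    obtain ⟨p, q, hpq, hp, hq, hpx, -⟩ := h0.exit (C := {x}) hx (mem_singleton_self x) hy
      (fun h => hyx (mem_singleton.1 h))
    rw [mem_singleton] at hpx
    subst hpx
    exact left_mem_VS (con_contr (mem_erase.1 hp).1 (mem_erase.1 hq).1 hpq)
  have hsub' : VS (contr G a b) ⊆ (VS G).erase b := by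
    intro x hx
    obtain ⟨y, hy⟩ := mem_VS.1 hx
    refine mem_erase.2 ⟨hy.1, ?_⟩
    rcases hy.2.2.2 with h1 | h1 | h1
    · exact left_mem_VS h1
    · rw [h1.1]; exact ha
    · exact left_mem_VS h1.2
  refine ⟨lt_of_lt_of_le h.1 (card_le_card hsub), fun S hS u hu w hw huS hwS => ?_⟩
  have h1 := h.2 S (by omega)
  have h2 := h1.2 u (mem_sdiff.2 ⟨hsub' hu, huS⟩) w (mem_sdiff.2 ⟨hsub' hw, hwS⟩)
  refine reach_of_rch (G := PL.con G a b) ?_ ?_ h2
  · intro x hx y hy hxy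
    rw [mem_sdiff, mem_erase] at hx hy
    exact con_contr hx.1.1 hy.1.1 hxy
  · intro x hx
    exact (mem_sdiff.1 hx).2

end DL.THOM

namespace DL

/-- Thomassen's lemma -/
theorem specTHO : SpecTHO := by
  intro α _ _ G hG hc
  obtain ⟨a, ha, b, hb, hab, h⟩ :=
    Pool.Agent.Lib.MP_3ff0f8_gt.PL.exists_con3 (THOM.K3_of_KConn hG) hc
  exact ⟨a, b, hab, THOM.KConn_contr ha h⟩

end DL
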