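import Pool.Agent.DL.EX.SEF
import Pool.Agent.DL.EX.Spec

section
/-!
MP_3ff0f8_gt, ALGEBRA HALF, EX/K block, module TWO (helper20)
-/
open SimpleGraph Finset

namespace DL

namespace TWOM

set_option linter.unusedSectionVars false

variable {α : Type} [Fintype α] [DecidableEq α] {G : SimpleGraph α} {a b : α}

/-- `G - a - b = H - a` -/
theorem del_contr (_hab : G.Adj a b) : del (contr G a b) {a} = del G {a, b} := by
  ext u w
  rw [del_adj, del_adj, contr_adj]
  simp only [mem_singleton, mem_insert, not_or]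
  constructor
  · rintro ⟨⟨h1, h2, h3, h4⟩, h5, h6⟩
    refine ⟨?_, ⟨h5, h1⟩, h6, h2⟩
    rcases h4 with h | ⟨h, _⟩ | ⟨h, _⟩
    · exact h
    · exact absurd h h5
    · exact absurd h h6
  · rintro ⟨h1, ⟨h2, h3⟩, h4, h5⟩
    exact ⟨⟨h3, h5, h1.ne, Or.inl h1⟩, h2, h4⟩

theorem two_conn (hab : G.Adj a b) (hH : KConn 3 (contr G a b)) :
    KConn 2 (del G {a, b}) ∧ VS (del G {a, b}) = (VS (contr G a b)).erase a := by
  rw [← del_contr hab]
  refine ⟨hH.del_vertex (by norm_num) a, ?_⟩
  rw [hH.VS_del (by simp)]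
  ext v; simp [and_comm]

theorem mem_VS' (hab : G.Adj a b) (hH : KConn 3 (contr G a b)) {c x : α} (hc : c = a ∨ c = b)
    (hcx : G.Adj c x) (hxa : x ≠ a) (hxb : x ≠ b) : x ∈ VS (del G {a, b}) := by
  rw [(two_conn hab hH).2, mem_erase]
  refine ⟨hxa, ?_⟩
  refine right_mem_VS (a := a) ?_
  rw [contr_adj]
  refine ⟨hab.ne, hxb, hxa.symm, ?_⟩
  rcases hc with rfl | rfl
  · exact Or.inl hcx
  · exact Or.inr (Or.inl ⟨rfl, hcx⟩)

theorem mem_sab {e : Sym2 α} (he : e ∈ sab G a b) :
    ∃ c x, (c = a ∨ c = b) ∧ G.Adj c x ∧ x ≠ a ∧ x ≠ b ∧ e = s(c, x) := by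
  obtain ⟨h1, h2, h3⟩ := he
  rcases h2 with h | h
  · obtain ⟨x, rfl⟩ := Sym2.mem_iff_exists.1 h
    have h4 : G.Adj a x := h1
    exact ⟨a, x, Or.inl rfl, h4, h4.ne.symm, fun h' => h3 (by rw [h']), rfl⟩
  · obtain ⟨x, rfl⟩ := Sym2.mem_iff_exists.1 h
    have h4 : G.Adj b x := h1
    exact ⟨b, x, Or.inr rfl, h4, fun h' => h3 (by rw [h', Sym2.eq_swap]), h4.ne.symm, rfl⟩

theorem notMem_of_vs {P : Finset (Sym2 α)} {S : Finset α} (h : Disjoint (vs P) S) {e : Sym2 α} {v : α}
    (hv : v ∈ e) (hvS : v ∈ S) : e ∉ P := fun he =>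
  Finset.disjoint_left.1 h (mem_vs.2 ⟨e, he, hv⟩) hvS

/-- edges at `a` or `b` are in no path avoiding them -/
theorem notMem_sab {P : Finset (Sym2 α)} (h : Disjoint (vs P) {a, b}) {e : Sym2 α}
    (he : e ∈ sab G a b) : e ∉ P := by
  rcases he.2.1 with h1 | h1
  · exact notMem_of_vs h h1 (by simp)
  · exact notMem_of_vs h h1 (by simp)

theorem pair' (hab : G.Adj a b) (hH : KConn 3 (contr G a b)) (F : Finset (Sym2 α)) (hF : F.card = 2)
    (hFs : ∀ e ∈ F, e ∈ sab G a b) : ∃ C, CycM G a b C ∧ ∀ e ∈ sab G a b, e ∈ C ↔ e ∈ F := by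
  obtain ⟨e1, e2, hne, rfl⟩ := card_eq_two.1 hF
  obtain ⟨c, x, hc, hcx, hxa, hxb, rfl⟩ := mem_sab (hFs e1 (by simp))
  obtain ⟨c', x', hc', hcx', hxa', hxb', rfl⟩ := mem_sab (hFs e2 (by simp))
  obtain ⟨h2, hV⟩ := two_conn hab hH
  have hxV := mem_VS' hab hH hc hcx hxa hxb
  have hxV' := mem_VS' hab hH hc' hcx' hxa' hxb'
  by_cases hxx : x = x'
  · subst hxx
    have key : ∀ e : Sym2 α, e ∈ sab G a b → (e ∈ ({s(a, x), s(b, x), s(a, b)} : Finset (Sym2 α)) ↔
        e ∈ ({s(a, x), s(b, x)} : Finset (Sym2 α))) := by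
      intro e he
      simp only [mem_insert, mem_singleton]
      have := he.2.2
      tauto
    have hax : G.Adj a x ∧ G.Adj b x := by
      rcases hc with rfl | rfl <;> rcases hc' with rfl | rfl
      · exact absurd rfl hne
      · exact ⟨hcx, hcx'⟩
      · exact ⟨hcx', hcx⟩
      · exact absurd rfl hne
    refine ⟨_, specSEF.tri hab hax.1 hax.2, fun e he => (key e he).trans ?_⟩
    simp only [mem_insert, mem_singleton]
    rcases hc with rfl | rfl <;> rcases hc' with rfl | rfl
    · exact absurd rfl hne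
    · exact Iff.rfl
    · exact or_comm
    · exact absurd rfl hne
  · obtain ⟨P, hP⟩ := exists_isPth (h2.connected (by norm_num) hxV hxV')
    have hPv := vs_of_isPth_del hP
    have hcP : ∀ v, v = a ∨ v = b → v ∉ vs P := fun v hv h =>
      Finset.disjoint_left.1 hPv h (by simpa using hv)
    by_cases hcc : c = c'
    · subst hcc
      have hP' : IsPth (del G {c}) x x' P := hP.mono (del_anti (by
        rcases hc with rfl | rfl <;> simp))
      refine ⟨_, ⟨isCyc_of_isPth_del hcx hcx' hxx hP', ?_⟩, ?_⟩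
      · intro h3 h4
        exfalso
        rw [vs_insert, vs_insert] at h3 h4
        simp only [mem_union, mem_insert, mem_singleton] at h3 h4
        have h5 := hcP a (Or.inl rfl)
        have h6 := hcP b (Or.inr rfl)
        have h7 := hab.ne
        rcases hc with rfl | rfl
        · rcases h4 with (h | h) | (h | h) | h
          · exact h7 h.symm
          · exact hxb h.symm
          · exact h7 h.symm
          · exact hxb' h.symm
          · exact h6 h
        · rcases h3 with (h | h) | (h | h) | h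
          · exact h7 h
          · exact hxa h.symm
          · exact h7 h
          · exact hxa' h.symm
          · exact h5 h
      · intro e he
        have h3 := notMem_sab hPv he
        simp only [mem_insert, mem_singleton]
        tauto
    · -- c ≠ c'
      have hcc' : G.Adj c c' := by
        rcases hc with rfl | rfl <;> rcases hc' with rfl | rfl
        · exact absurd rfl hcc
        · exact hab
        · exact hab.symm
        · exact absurd rfl hcc
      have hxc : x ≠ c' := by rcases hc' with rfl | rfl <;> assumption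
      have hxc' : x' ≠ c := by rcases hc with rfl | rfl <;> assumption
      have hP' : IsPth (del G {c'}) x x' P := hP.mono (del_anti (by
        rcases hc' with rfl | rfl <;> simp))
      have hP2 : IsPth (del G {c'}) c x' (insert s(c, x) P) := by
        refine hP'.cons ?_ (hcP c hc)
        rw [del_adj]
        refine ⟨hcx, ?_, ?_⟩
        · simpa using hcc
        · simpa using hxc
      refine ⟨_, ⟨isCyc_of_isPth_del hcc'.symm hcx' hxc'.symm hP2, ?_⟩, ?_⟩
      · intro _ _
        have : s(a, b) = s(c', c) := by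
          rcases hc with rfl | rfl <;> rcases hc' with rfl | rfl
          · exact absurd rfl hcc
          · exact Sym2.eq_swap
          · rfl
          · exact absurd rfl hcc
        rw [this]; simp
      · intro e he
        have h3 := notMem_sab hPv he
        have h4 : e ≠ s(c', c) := by
          have : s(a, b) = s(c', c) := by
            rcases hc with rfl | rfl <;> rcases hc' with rfl | rfl
            · exact absurd rfl hcc
            · exact Sym2.eq_swap
            · rfl
            · exact absurd rfl hcc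
          rw [← this]; exact he.2.2
        simp only [mem_insert, mem_singleton]
        tauto

theorem four' (hab : G.Adj a b) (hH : KConn 3 (contr G a b)) (x x' y y' : α) (hxx : x ≠ x')
    (hyy : y ≠ y') (hxb : x ≠ b) (hxb' : x' ≠ b) (hya : y ≠ a) (hya' : y' ≠ a)
    (hx : G.Adj a x) (hx' : G.Adj a x') (hy : G.Adj b y) (hy' : G.Adj b y') :
    ∃ C, IsCyc G C ∧ s(a, b) ∉ C ∧
      ∀ e ∈ sab G a b, e ∈ C ↔ e ∈ ({s(a, x), s(a, x'), s(b, y), s(b, y')} : Finset _) := by
  obtain ⟨h2, hV⟩ := two_conn hab hH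
  have hxV := mem_VS' hab hH (Or.inl rfl) hx hx.ne.symm hxb
  have hxV' := mem_VS' hab hH (Or.inl rfl) hx' hx'.ne.symm hxb'
  have hyV := mem_VS' hab hH (Or.inr rfl) hy hya hy.ne.symm
  have hyV' := mem_VS' hab hH (Or.inr rfl) hy' hya' hy'.ne.symm
  obtain ⟨z, z', P, Q, hz, hP, hQ, hPQ⟩ := h2.two_paths hxV hxV' hyV hyV' hxx hyy
  have hz1 : G.Adj b z ∧ G.Adj b z' ∧ z ≠ a ∧ z' ≠ a ∧ z ≠ z' ∧
      (∀ e : Sym2 α, (e = s(b, z) ∨ e = s(b, z')) ↔ (e = s(b, y) ∨ e = s(b, y'))) := by
    rcases hz with ⟨rfl, rfl⟩ | ⟨rfl, rfl⟩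
    · exact ⟨hy, hy', hya, hya', hyy, fun e => Iff.rfl⟩
    · exact ⟨hy', hy, hya', hya, hyy.symm, fun e => or_comm⟩
  obtain ⟨hbz, hbz', hza, hza', hzz, hzy⟩ := hz1
  have hPv := vs_of_isPth_del hP
  have hQv := vs_of_isPth_del hQ
  have hP1 : IsPth (del G {a}) x z P := hP.mono (del_anti (by simp))
  have hQ1 : IsPth (del G {a}) x' z' Q := hQ.mono (del_anti (by simp))
  have hbP : b ∉ vs P := fun h => Finset.disjoint_left.1 hPv h (by simp)
  have hbQ : b ∉ vs Q := fun h => Finset.disjoint_left.1 hQv h (by simp)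
  have hbz1 : (del G {a}).Adj b z := ⟨hbz, by simpa using hab.ne.symm, by simpa using hza⟩
  have hbz2 : (del G {a}).Adj b z' := ⟨hbz', by simpa using hab.ne.symm, by simpa using hza'⟩
  -- path x .. z b
  have hP2 : IsPth (del G {a}) b x (insert s(b, z) P) := (hP1.symm).cons hbz1 hbP
  have hQ2 : IsPth (del G {a}) b x' (insert s(b, z') Q) := (hQ1.symm).cons hbz2 hbQ
  have hzP : z ∈ insert x (vs P) := hP.end_mem
  have hzQ : z' ∈ insert x' (vs Q) := hQ.end_mem
  have hR : IsPth (del G {a}) x x' (insert s(b, z) P ∪ insert s(b, z') Q) := by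
    refine hP2.symm.append hQ2 ?_
    intro v hv
    rw [mem_inter, vs_insert, vs_insert] at hv
    simp only [mem_union, mem_insert, mem_singleton] at hv ⊢
    by_contra hvb
    have h3 : v ∈ insert x (vs P) := by
      rcases hv.1 with (h | h) | h
      · exact absurd h hvb
      · rw [h]; exact hzP
      · exact mem_insert_of_mem h
    have h4 : v ∈ insert x' (vs Q) := by
      rcases hv.2 with (h | h) | h
      · exact absurd h hvb
      · rw [h]; exact hzQ
      · exact mem_insert_of_mem h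
    exact Finset.disjoint_left.1 hPQ h3 h4
  refine ⟨_, isCyc_of_isPth_del hx hx' hxx hR, ?_, ?_⟩
  · simp only [mem_insert, mem_union, not_or]
    refine ⟨?_, ?_, ⟨?_, ?_⟩, ?_, ?_⟩
    · intro h; rcases Sym2.eq_iff.1 h with ⟨_, h⟩ | ⟨h, _⟩
      · exact hxb h.symm
      · exact hx.ne h
    · intro h; rcases Sym2.eq_iff.1 h with ⟨_, h⟩ | ⟨h, _⟩
      · exact hxb' h.symm
      · exact hx'.ne h
    · intro h; rcases Sym2.eq_iff.1 h with ⟨h, _⟩ | ⟨h, _⟩
      · exact hab.ne h
      · exact hza h.symm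
    · exact notMem_of_vs hPv (v := a) (by simp) (by simp)
    · intro h; rcases Sym2.eq_iff.1 h with ⟨h, _⟩ | ⟨h, _⟩
      · exact hab.ne h
      · exact hza' h.symm
    · exact notMem_of_vs hQv (v := a) (by simp) (by simp)
  · intro e he
    have h3 := notMem_sab hPv he
    have h4 := notMem_sab hQv he
    have h5 := hzy e
    simp only [mem_insert, mem_union, mem_singleton, h3, h4, or_false]
    rw [h5]

theorem arc_aux {x : α} (hax : G.Adj a x) (hbx : G.Adj b x) (hab : G.Adj a b)
    {Z : Finset (Sym2 α)} (hZ : IsCyc (del G {a, b, x}) Z)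
    {z z' : α} {P Q : Finset (Sym2 α)} (hz : z ∈ vs Z) (hz' : z' ∈ vs Z)
    (hP : IsPth (del G {x}) a z P) (hQ : IsPth (del G {x}) b z' Q)
    (hPQ : Disjoint (insert a (vs P)) (insert b (vs Q)))
    (hPZ : ∀ v ∈ insert a (vs P), v ∈ vs Z → v = z)
    (hQZ : ∀ v ∈ insert b (vs Q), v ∈ vs Z → v = z') :
    ∃ C₁ C₂, IsCyc G C₁ ∧ IsCyc G C₂ ∧ s(a, x) ∈ C₁ ∧ s(b, x) ∈ C₁ ∧ s(a, b) ∉ C₁ ∧
      (∀ e, a ∈ e ∨ b ∈ e → (e ∈ C₁ ↔ e ∈ C₂)) ∧ chi C₁ + chi C₂ = chi Z ∧
      ∀ y, y ≠ x → ¬ (s(a, y) ∈ C₁ ∧ s(b, y) ∈ C₁) := by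
  obtain ⟨hZ1, hZ2⟩ := isCyc_del.1 hZ
  have haZ : a ∉ vs Z := fun h => Finset.disjoint_left.1 hZ2 h (by simp)
  have hbZ : b ∉ vs Z := fun h => Finset.disjoint_left.1 hZ2 h (by simp)
  have hxZ : x ∉ vs Z := fun h => Finset.disjoint_left.1 hZ2 h (by simp)
  have hzP : z ∈ insert a (vs P) := hP.end_mem
  have hzQ : z' ∈ insert b (vs Q) := hQ.end_mem
  have hzz : z ≠ z' := by
    rintro rfl
    exact Finset.disjoint_left.1 hPQ hzP hzQ
  have hPx := vs_of_isPth_del hP
  have hQx := vs_of_isPth_del hQ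
  have hxP : x ∉ vs P := fun h => Finset.disjoint_left.1 hPx h (by simp)
  have hxQ : x ∉ vs Q := fun h => Finset.disjoint_left.1 hQx h (by simp)
  obtain ⟨R1, R2, hR1, hR2, hR12, hRd, hRv⟩ := hZ1.split hz hz' hzz
  have hR1Z : R1 ⊆ Z := hR12 ▸ subset_union_left
  have hR2Z : R2 ⊆ Z := hR12 ▸ subset_union_right
  have hbP : b ∉ vs P := fun h =>
    Finset.disjoint_left.1 hPQ (mem_insert_of_mem h) (mem_insert_self _ _)
  have haQ : a ∉ vs Q := fun h =>
    Finset.disjoint_left.1 hPQ (mem_insert_self _ _) (mem_insert_of_mem h)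
  -- the path with R
  have key : ∀ R, R ⊆ Z → IsPth G z z' R → IsPth (del G {x}) a b (P ∪ R ∪ Q) := by
    intro R hRZ hR
    have hRx : IsPth (del G {x}) z z' R := isPth_del.2 ⟨hR, by
      rw [disjoint_singleton_right]; exact fun h => hxZ (vs_mono hRZ h)⟩
    have h1 : IsPth (del G {x}) a z' (P ∪ R) := by
      refine hP.append hRx ?_
      intro v hv
      rw [mem_inter] at hv
      rw [mem_singleton]
      exact hPZ v (mem_insert_of_mem hv.1) (vs_mono hRZ hv.2)
    refine h1.append hQ.symm ?_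
    intro v hv
    rw [mem_inter, mem_vs_union] at hv
    rw [mem_singleton]
    rcases hv.1 with h | h
    · exact absurd (mem_insert_of_mem hv.2) (Finset.disjoint_left.1 hPQ (mem_insert_of_mem h))
    · exact hQZ v (mem_insert_of_mem hv.2) (vs_mono hRZ h)
  have hC1 := isCyc_of_isPth_del hax.symm hbx.symm hab.ne (key R1 hR1Z hR1)
  have hC2 := isCyc_of_isPth_del hax.symm hbx.symm hab.ne (key R2 hR2Z hR2)
  have hsx : ∀ R, R ⊆ Z → s(x, a) ∉ insert s(x, b) (P ∪ R ∪ Q) ∧ s(x, b) ∉ P ∪ R ∪ Q := by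
    intro R hRZ
    simp only [mem_insert, mem_union, not_or]
    refine ⟨⟨?_, ⟨?_, ?_⟩, ?_⟩, ⟨?_, ?_⟩, ?_⟩
    · intro h; rcases Sym2.eq_iff.1 h with ⟨_, h⟩ | ⟨h, _⟩
      · exact hab.ne h
      · exact hbx.ne h.symm
    · exact fun h => hxP (left_mem_vs h)
    · exact fun h => hxZ (vs_mono hRZ (left_mem_vs h))
    · exact fun h => hxQ (left_mem_vs h)
    · exact fun h => hxP (left_mem_vs h)
    · exact fun h => hxZ (vs_mono hRZ (left_mem_vs h))
    · exact fun h => hxQ (left_mem_vs h)
  have hPZd : ∀ R, R ⊆ Z → Disjoint P R := by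
    intro R hRZ
    refine disjoint_of_vs_subset (x := z) hP.not_isDiag ?_
    intro v hv
    rw [mem_inter] at hv
    rw [mem_singleton]
    exact hPZ v (mem_insert_of_mem hv.1) (vs_mono hRZ hv.2)
  have hQZd : ∀ R, R ⊆ Z → Disjoint (P ∪ R) Q := by
    intro R hRZ
    rw [disjoint_union_left]
    refine ⟨?_, ?_⟩
    · refine disjoint_of_vs ?_
      refine Disjoint.mono (subset_insert _ _) (subset_insert _ _) hPQ
    · refine (disjoint_of_vs_subset (x := z') hQ.not_isDiag ?_).symm
      intro v hv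
      rw [mem_inter] at hv
      rw [mem_singleton]
      exact hQZ v (mem_insert_of_mem hv.1) (vs_mono hRZ hv.2)
  have hchi : ∀ R, R ⊆ Z → chi (insert s(x, a) (insert s(x, b) (P ∪ R ∪ Q))) =
      chi {s(x, a)} + (chi {s(x, b)} + (chi P + chi R + chi Q)) := by
    intro R hRZ
    rw [chi_insert (hsx R hRZ).1, chi_insert (hsx R hRZ).2, chi_union (hQZd R hRZ),
      chi_union (hPZd R hRZ)]
  refine ⟨_, _, hC1, hC2, ?_, ?_, ?_, ?_, ?_, ?_⟩
  · rw [Sym2.eq_swap]; simp
  · rw [Sym2.eq_swap (a := b)]; simp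
  · simp only [mem_insert, mem_union, not_or]
    refine ⟨?_, ?_, ⟨?_, ?_⟩, ?_⟩
    · intro h; rcases Sym2.eq_iff.1 h with ⟨h, _⟩ | ⟨_, h⟩
      · exact hax.ne h
      · exact hbx.ne h
    · intro h; rcases Sym2.eq_iff.1 h with ⟨h, _⟩ | ⟨h, _⟩
      · exact hax.ne h
      · exact hab.ne h
    · exact fun h => hbP (right_mem_vs h)
    · exact fun h => haZ (vs_mono hR1Z (left_mem_vs h))
    · exact fun h => haQ (left_mem_vs h)
  · intro e he
    have h1 : ∀ R, R ⊆ Z → e ∉ R := by
      intro R hRZ h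
      rcases he with h' | h'
      · exact haZ (vs_mono hRZ (mem_vs.2 ⟨e, h, h'⟩))
      · exact hbZ (vs_mono hRZ (mem_vs.2 ⟨e, h, h'⟩))
    have h2 := h1 R1 hR1Z
    have h3 := h1 R2 hR2Z
    simp only [mem_insert, mem_union]
    tauto
  · rw [hchi R1 hR1Z, hchi R2 hR2Z, ← hR12, chi_union hRd]
    have e1 : chi {s(x, a)} + (chi {s(x, b)} + (chi P + chi R1 + chi Q)) +
        (chi {s(x, a)} + (chi {s(x, b)} + (chi P + chi R2 + chi Q))) =
        (chi {s(x, a)} + chi {s(x, a)}) + (chi {s(x, b)} + chi {s(x, b)}) + (chi P + chi P) +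
          (chi Q + chi Q) + (chi R1 + chi R2) := by abel
    rw [e1]
    simp only [chain_add_self, zero_add]
  · rintro y hyx ⟨h1, h2⟩
    simp only [mem_insert, mem_union] at h1 h2
    have h3 : y ∈ vs P := by
      rcases h1 with h | h | (h | h) | h
      · rcases Sym2.eq_iff.1 h with ⟨h, _⟩ | ⟨_, h⟩
        · exact absurd h hax.ne
        · exact absurd h hyx
      · rcases Sym2.eq_iff.1 h with ⟨h, _⟩ | ⟨h, _⟩
        · exact absurd h hax.ne
        · exact absurd h hab.ne
      · exact right_mem_vs h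
      · exact absurd (vs_mono hR1Z (left_mem_vs h)) haZ
      · exact absurd (left_mem_vs h) haQ
    have h4 : y ∈ vs Q := by
      rcases h2 with h | h | (h | h) | h
      · rcases Sym2.eq_iff.1 h with ⟨h, _⟩ | ⟨h, _⟩
        · exact absurd h hbx.ne
        · exact absurd h hab.ne.symm
      · rcases Sym2.eq_iff.1 h with ⟨h, _⟩ | ⟨_, h⟩
        · exact absurd h hbx.ne
        · exact absurd h hyx
      · exact absurd (left_mem_vs h) hbP
      · exact absurd (vs_mono hR1Z (left_mem_vs h)) hbZ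
      · exact right_mem_vs h
    exact Finset.disjoint_left.1 hPQ (mem_insert_of_mem h3) (mem_insert_of_mem h4)

theorem arc' {x : α} (hab : G.Adj a b) (hG : KConn 3 G) (hax : G.Adj a x) (hbx : G.Adj b x)
    (Z : Finset (Sym2 α)) (hZ : IsCyc (del G {a, b, x}) Z) :
    ∃ C₁ C₂, IsCyc G C₁ ∧ IsCyc G C₂ ∧ s(a, x) ∈ C₁ ∧ s(b, x) ∈ C₁ ∧ s(a, b) ∉ C₁ ∧
      (∀ e, a ∈ e ∨ b ∈ e → (e ∈ C₁ ↔ e ∈ C₂)) ∧ chi C₁ + chi C₂ = chi Z ∧
      ∀ y, y ≠ x → ¬ (s(a, y) ∈ C₁ ∧ s(b, y) ∈ C₁) := by
  obtain ⟨hZ1, hZ2⟩ := isCyc_del.1 hZ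
  have hG2 : KConn 2 (del G {x}) := hG.del_vertex (by norm_num) x
  have hVS : VS (del G {x}) = VS G \ {x} := hG.VS_del (by simp)
  have hxZ : x ∉ vs Z := fun h => Finset.disjoint_left.1 hZ2 h (by simp)
  have hA : ({a, b} : Finset α) ⊆ VS (del G {x}) := by
    rw [hVS]
    intro v hv
    simp only [mem_insert, mem_singleton] at hv
    rw [mem_sdiff, mem_singleton]
    rcases hv with rfl | rfl
    · exact ⟨left_mem_VS hab, hax.ne⟩
    · exact ⟨right_mem_VS hab, hbx.ne⟩
  have hB : vs Z ⊆ VS (del G {x}) := by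
    rw [hVS]
    intro v hv
    rw [mem_sdiff, mem_singleton]
    exact ⟨hZ1.vs_subset hv, fun h => hxZ (h ▸ hv)⟩
  have hBc : 2 ≤ (vs Z).card := by
    obtain ⟨e, he⟩ := hZ1.nonempty
    induction e using Sym2.ind with
    | _ u v =>
      have huv := hZ1.adj_of_mem he
      rw [← card_pair huv.ne]
      refine card_le_card ?_
      intro w hw
      simp only [mem_insert, mem_singleton] at hw
      rcases hw with rfl | rfl
      · exact left_mem_vs he
      · exact right_mem_vs he
  obtain ⟨p, q, P, hp, hq, hP, hd, hPA, hPB⟩ := hG2.linked hA hB (by rw [card_pair hab.ne]) hBc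
  have hp0 := hp 0
  have hp1 := hp 1
  have hd01 := hd 0 1 (by decide)
  have hpp : p 0 ≠ p 1 := by
    intro h
    exact Finset.disjoint_left.1 hd01 (mem_insert_self _ _) (by rw [h]; exact mem_insert_self _ _)
  simp only [mem_insert, mem_singleton] at hp0 hp1
  have hP0 := hP 0
  have hP1 := hP 1
  have hB0 := hPB 0
  have hB1 := hPB 1
  rcases hp0 with h0 | h0 <;> rcases hp1 with h1 | h1
  · exact absurd (h0.trans h1.symm) hpp
  · rw [h0] at hP0 hB0 hd01
    rw [h1] at hP1 hB1 hd01
    exact arc_aux hax hbx hab hZ (hq 0) (hq 1) hP0 hP1 hd01 hB0 hB1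
  · rw [h0] at hP0 hB0 hd01
    rw [h1] at hP1 hB1 hd01
    exact arc_aux hax hbx hab hZ (hq 1) (hq 0) hP1 hP0 hd01.symm hB1 hB0
  · exact absurd (h0.trans h1.symm) hpp

end TWOM

open TWOM in
theorem specTWO : SpecTWO where
  pair := fun hab hH F hF hFs => pair' hab hH F hF hFs
  four := fun hab hH x x' y y' h1 h2 h3 h4 h5 h6 h7 h8 h9 h10 =>
    four' hab hH x x' y y' h1 h2 h3 h4 h5 h6 h7 h8 h9 h10
  arc := fun hab hG hax hbx Z hZ => arc' hab hG hax hbx Z hZ

end DL
end

section
/-!
MP_3ff0f8_gt, ALGEBRA HALF, EX/K block, module S3F (helper6)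
-/
open SimpleGraph Finset

namespace DL

namespace S3FM

variable {α : Type} [Fintype α] [DecidableEq α] {G : SimpleGraph α}

/-- after deleting an edge every vertex of a connected graph still reaches an end of the edge or everything -/
theorem reach_or {x y : α} (a b : α) (h : G.Reachable x y) :
    (delE G a b).Reachable x y ∨
      (((delE G a b).Reachable x a ∨ (delE G a b).Reachable x b) ∧
        ((delE G a b).Reachable y a ∨ (delE G a b).Reachable y b)) := by
  obtain ⟨P, hP⟩ := exists_isPth h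
  by_cases hab : s(a, b) ∈ P
  · right
    obtain ⟨P1, P2, h1, h2, h3, h4⟩ := hP.split_edge hab
    have hn1 : s(a, b) ∉ P1 := by
      intro h5
      have : s(a, b) ∈ P \ {s(a, b)} := h2 ▸ mem_union_left _ h5
      simp at this
    have hn2 : s(a, b) ∉ P2 := by
      intro h5
      have : s(a, b) ∈ P \ {s(a, b)} := h2 ▸ mem_union_right _ h5
      simp at this
    rcases h1 with ⟨h1, h1'⟩ | ⟨h1, h1'⟩
    · exact ⟨Or.inl (isPth_delE.2 ⟨h1, hn1⟩).reachable,
        Or.inr (isPth_delE.2 ⟨h1', hn2⟩).reachable.symm⟩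
    · exact ⟨Or.inr (isPth_delE.2 ⟨h1, hn1⟩).reachable,
        Or.inl (isPth_delE.2 ⟨h1', hn2⟩).reachable.symm⟩
  · exact Or.inl (isPth_delE.2 ⟨hP, hab⟩).reachable

theorem del_delE (G : SimpleGraph α) (a b : α) (S : Finset α) :
    del (delE G a b) S = delE (del G S) a b := by
  ext u v
  rw [del_adj, delE_adj, delE_adj, del_adj]
  tauto

theorem card_pair_lt (p q : α) : ({p, q} : Finset α).card < 3 := lt_of_le_of_lt card_le_two (by norm_num)

end S3FM

open S3FM

/-- Elementary connectivity. -/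
theorem specS3F : SpecS3F where
  k3 := by
    intro α _ _ G hG
    refine ⟨hG.mono (by norm_num), ?_, fun p q _ => Or.inl (hG.2 _ (card_pair_lt p q))⟩
    have hne : (VS G).Nonempty := card_pos.1 (lt_trans (by norm_num) hG.1)
    obtain ⟨c, hc⟩ := hne
    have h3 := hG.le_nbs hc
    obtain ⟨x, hx, y, hy, z, hz, hxy, hxz, hyz⟩ := two_lt_card.1 (show 2 < (nbs G c).card by omega)
    exact ⟨c, x, y, z, hxy, hxz, hyz, mem_nbs.1 hx, mem_nbs.1 hy, mem_nbs.1 hz⟩
  dh := by
    intro α _ _ G hG
    refine ⟨fun v => hG.2 _ (by simp), fun v z _ x hx y hy w _ hxS hyS _ => ?_⟩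
    exact Or.inl (hG.reach (card_pair_lt v z) hx hy hxS hyS)
  dhE := by
    intro α _ _ G a b hG
    have h2 : KConn 2 (delE G a b) := hG.delE (by norm_num) a b
    refine ⟨fun v => h2.2 _ (by simp), fun v z _ x hx y hy w hw hxS hyS hwS => ?_⟩
    have hle := VS_mono (delE_le G a b)
    rw [del_delE]
    have rxy := reach_or a b (hG.reach (card_pair_lt v z) (hle hx) (hle hy) hxS hyS)
    have rxw := reach_or a b (hG.reach (card_pair_lt v z) (hle hx) (hle hw) hxS hwS)
    rcases rxy with h | ⟨hxe, hye⟩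
    · exact Or.inl h
    rcases rxw with h | ⟨_, hwe⟩
    · exact Or.inr (Or.inl h)
    rcases hxe with hx1 | hx1 <;> rcases hye with hy1 | hy1 <;> rcases hwe with hw1 | hw1
    · exact Or.inl (hx1.trans hy1.symm)
    · exact Or.inl (hx1.trans hy1.symm)
    · exact Or.inr (Or.inl (hx1.trans hw1.symm))
    · exact Or.inr (Or.inr (hy1.trans hw1.symm))
    · exact Or.inr (Or.inr (hy1.trans hw1.symm))
    · exact Or.inr (Or.inl (hx1.trans hw1.symm))
    · exact Or.inl (hx1.trans hy1.symm)
    · exact Or.inl (hx1.trans hy1.symm)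
  deg := by
    intro α _ _ G k hG v hv N hN
    exact (hG.le_nbs hv).trans (card_le_card fun w hw => hN w (mem_nbs.1 hw))
  del := by
    intro α _ _ G k v hk hG
    refine ⟨hG.del_vertex hk v, ?_⟩
    rw [hG.VS_del (S := {v}) (by rw [card_singleton]; omega), sdiff_singleton_eq_erase]
  vsE := by
    intro α _ _ G a b hG
    exact VS_delE fun v hv => hG.le_nbs hv

end DL
end

section
/-!
MP_3ff0f8_gt, ALGEBRA HALF, EX/K block, module SUP (helper20)
-/
open SimpleGraph Finset

namespace DL

namespace SUPM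

set_option linter.unusedSectionVars false

variable {α : Type} [Fintype α] [DecidableEq α] {J : SimpleGraph α} {v p q : α}

/-- the graph with `v` suppressed -/
def sup (J : SimpleGraph α) (v p q : α) : SimpleGraph α := del J {v} ⊔ fromEdgeSet {s(p, q)}

theorem sup_adj {a b : α} : (sup J v p q).Adj a b ↔
    (J.Adj a b ∧ a ≠ v ∧ b ≠ v) ∨ (s(a, b) = s(p, q) ∧ a ≠ b) := by
  unfold sup
  rw [SimpleGraph.sup_adj, del_adj, fromEdgeSet_adj]
  simp only [mem_singleton, Set.mem_singleton_iff]

theorem ne_of_adj (hv : ∀ w, J.Adj v w ↔ w = p ∨ w = q) : p ≠ v ∧ q ≠ v :=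
  ⟨fun h => ((hv p).2 (Or.inl rfl)).ne h.symm, fun h => ((hv q).2 (Or.inr rfl)).ne h.symm⟩

/-- at least 4 vertices -/
theorem four_le (h3 : ∃ c x y z, x ≠ y ∧ x ≠ z ∧ y ≠ z ∧ J.Adj c x ∧ J.Adj c y ∧ J.Adj c z) :
    4 ≤ (VS J).card := by
  obtain ⟨c, x, y, z, hxy, hxz, hyz, hx, hy, hz⟩ := h3
  have : ({c, x, y, z} : Finset α) ⊆ VS J := by
    intro w hw
    simp only [mem_insert, mem_singleton] at hw
    rcases hw with rfl | rfl | rfl | rfl
    · exact left_mem_VS hx
    · exact right_mem_VS hx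
    · exact right_mem_VS hy
    · exact right_mem_VS hz
  refine le_trans ?_ (card_le_card this)
  rw [card_insert_of_notMem, card_insert_of_notMem, card_insert_of_notMem, card_singleton]
  · simpa using hyz
  · simpa using ⟨hxy, hxz⟩
  · simp only [mem_insert, mem_singleton, not_or]
    exact ⟨hx.ne, hy.ne, hz.ne⟩

theorem isolated {S : Finset α} {w : α} (hv : ∀ w, J.Adj v w ↔ w = p ∨ w = q) (hp : p ∈ S)
    (hq : q ∈ S) (h : (del J S).Reachable v w) : w = v := by
  by_contra hne
  obtain ⟨u, hu⟩ := exists_adj_of_reachable h (Ne.symm hne)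
  rw [del_adj] at hu
  rcases (hv u).1 hu.1 with rfl | rfl
  · exact hu.2.2 hp
  · exact hu.2.2 hq

theorem L3 (h3 : ∃ c x y z, x ≠ y ∧ x ≠ z ∧ y ≠ z ∧ J.Adj c x ∧ J.Adj c y ∧ J.Adj c z)
    (hv : ∀ w, J.Adj v w ↔ w = p ∨ w = q) {v' : α} (hv' : ∀ w, J.Adj v' w ↔ w = p ∨ w = q)
    (hpq : ¬ J.Adj p q) (hC : ConnOff J {p, q, v'}) : v' = v := by
  by_contra hne
  have hvV : v ∈ VS J := left_mem_VS ((hv p).2 (Or.inl rfl))
  obtain ⟨hpv, hqv⟩ := ne_of_adj hv
  have hvn : v ∉ ({p, q, v'} : Finset α) := by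
    simp only [mem_insert, mem_singleton, not_or]
    exact ⟨hpv.symm, hqv.symm, Ne.symm hne⟩
  have hall : ∀ w ∈ VS J, w = p ∨ w = q ∨ w = v' ∨ w = v := by
    intro w hw
    by_cases hws : w ∈ ({p, q, v'} : Finset α)
    · simp only [mem_insert, mem_singleton] at hws
      tauto
    · have := isolated hv (by simp) (by simp) (hC v hvV w hw hvn hws)
      tauto
  obtain ⟨c, x, y, z, hxy, hxz, hyz, hx, hy, hz⟩ := h3
  -- two candidates for the neighbours
  have two : ∀ s t : α, (∀ w, J.Adj c w → w = s ∨ w = t) → False := by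
    intro s t h
    rcases h x hx with h1 | h1 <;> rcases h y hy with h2 | h2 <;> rcases h z hz with h4 | h4 <;>
      simp_all
  rcases hall c (left_mem_VS hx) with h | h | h | h
  · subst h
    refine two v v' fun w hw => ?_
    rcases hall w (right_mem_VS hw) with h | h | h | h
    · exact absurd h.symm hw.ne
    · exact absurd (h ▸ hw) hpq
    · exact Or.inr h
    · exact Or.inl h
  · subst h
    refine two v v' fun w hw => ?_
    rcases hall w (right_mem_VS hw) with h | h | h | h
    · exact absurd (h ▸ hw).symm hpq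
    · exact absurd h.symm hw.ne
    · exact Or.inr h
    · exact Or.inl h
  · subst h
    exact two p q fun w hw => (hv' w).1 hw
  · subst h
    exact two p q fun w hw => (hv w).1 hw

theorem F1 (hJ : S3S J) (hpq : p ≠ q) (hv : ∀ w, J.Adj v w ↔ w = p ∨ w = q) :
    ¬ J.Adj p q ∧ ConnOff J {p, q, v} := by
  obtain ⟨h2, h3, hc⟩ := hJ
  rcases hc p q hpq with h | ⟨v', hv', hn, hC⟩
  · exfalso
    have hvV : v ∈ VS J := left_mem_VS ((hv p).2 (Or.inl rfl))
    obtain ⟨hpv, hqv⟩ := ne_of_adj hv
    have hvn : v ∉ ({p, q} : Finset α) := by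
      simp only [mem_insert, mem_singleton, not_or]
      exact ⟨hpv.symm, hqv.symm⟩
    have hsub : VS J ⊆ {p, q, v} := by
      intro w hw
      by_cases hws : w ∈ ({p, q} : Finset α)
      · simp only [mem_insert, mem_singleton] at hws ⊢
        tauto
      · have := isolated hv (by simp) (by simp) (h v hvV w hw hvn hws)
        simp [this]
    have h4 := four_le h3
    have h5 := card_le_card hsub
    have h6 : ({p, q, v} : Finset α).card ≤ 3 := card_le_three
    omega
  · have := L3 h3 hv hv' hn hC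
    subst this
    exact ⟨hn, hC⟩

/-- reachability -/
theorem reach (hpq : p ≠ q) (hv : ∀ w, J.Adj v w ↔ w = p ∨ w = q) {S : Finset α}
    {x y : α} (h : (del J S).Reachable x y) (hx : x ≠ v) (hy : y ≠ v) :
    (del (sup J v p q) S).Reachable x y := by
  obtain ⟨hpv, hqv⟩ := ne_of_adj hv
  -- representative for v
  have key : ∃ f : α → α, (∀ z, z ≠ v → f z = z) ∧
      ∀ a b, (del J S).Adj a b → (del (sup J v p q) S).Reachable (f a) (f b) := by
    by_cases hpS : p ∈ S
    · refine ⟨fun z => if z = v then q else z, fun z hz => if_neg hz, ?_⟩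
      have h1 : ∀ b, (del J S).Adj v b → (del (sup J v p q) S).Reachable q
          (if b = v then q else b) := by
        intro b hb
        rw [del_adj] at hb
        rcases (hv b).1 hb.1 with rfl | rfl
        · exact absurd hpS hb.2.2
        · rw [if_neg hqv]
      intro a b hab
      by_cases ha : a = v
      · subst ha
        simp only [if_true]
        exact h1 b hab
      · by_cases hb : b = v
        · subst hb
          simp only [if_true]
          exact (h1 a hab.symm).symm
        · simp only [if_neg ha, if_neg hb]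
          rw [del_adj] at hab
          refine SimpleGraph.Adj.reachable ?_
          rw [del_adj, sup_adj]
          exact ⟨Or.inl ⟨hab.1, ha, hb⟩, hab.2⟩
    · refine ⟨fun z => if z = v then p else z, fun z hz => if_neg hz, ?_⟩
      have h1 : ∀ b, (del J S).Adj v b → (del (sup J v p q) S).Reachable p
          (if b = v then p else b) := by
        intro b hb
        rw [del_adj] at hb
        rcases (hv b).1 hb.1 with rfl | rfl
        · rw [if_neg hpv]
        · rw [if_neg hqv]
          refine SimpleGraph.Adj.reachable ?_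
          rw [del_adj, sup_adj]
          exact ⟨Or.inr ⟨rfl, hpq⟩, hpS, hb.2.2⟩
      intro a b hab
      by_cases ha : a = v
      · subst ha
        simp only [if_true]
        exact h1 b hab
      · by_cases hb : b = v
        · subst hb
          simp only [if_true]
          exact (h1 a hab.symm).symm
        · simp only [if_neg ha, if_neg hb]
          rw [del_adj] at hab
          refine SimpleGraph.Adj.reachable ?_
          rw [del_adj, sup_adj]
          exact ⟨Or.inl ⟨hab.1, ha, hb⟩, hab.2⟩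
  obtain ⟨f, hf, hfa⟩ := key
  have h2 : ∀ a b, (del J S).Reachable a b → (del (sup J v p q) S).Reachable (f a) (f b) := by
    rintro a b ⟨w⟩
    induction w with
    | nil => exact Reachable.refl _
    | cons h _ ih => exact (hfa _ _ h).trans ih
  have := h2 x y h
  rwa [hf x hx, hf y hy] at this

theorem VS_sup (h2 : KConn 2 J) (hpq : p ≠ q) (hv : ∀ w, J.Adj v w ↔ w = p ∨ w = q) :
    VS (sup J v p q) = (VS J).erase v := by
  obtain ⟨hpv, hqv⟩ := ne_of_adj hv
  ext x
  rw [mem_erase, mem_VS]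
  constructor
  · rintro ⟨y, hy⟩
    rcases sup_adj.1 hy with ⟨h, h1, _⟩ | ⟨h, _⟩
    · exact ⟨h1, left_mem_VS h⟩
    · rcases Sym2.eq_iff.1 h with ⟨rfl, rfl⟩ | ⟨rfl, rfl⟩
      · exact ⟨hpv, right_mem_VS ((hv _).2 (Or.inl rfl))⟩
      · exact ⟨hqv, right_mem_VS ((hv _).2 (Or.inr rfl))⟩
  · rintro ⟨hxv, hx⟩
    obtain ⟨y, hy, hyv⟩ := h2.exists_adj_ne hx v
    exact ⟨y, sup_adj.2 (Or.inl ⟨hy, hxv, hyv⟩)⟩

theorem connOff (h2 : KConn 2 J) (hpq : p ≠ q) (hv : ∀ w, J.Adj v w ↔ w = p ∨ w = q) {S : Finset α}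
    (h : ConnOff J S) : ConnOff (sup J v p q) S := by
  intro a ha b hb haS hbS
  rw [VS_sup h2 hpq hv, mem_erase] at ha hb
  exact reach hpq hv (h a ha.2 b hb.2 haS hbS) ha.1 hb.1

theorem del_erase (hv : ∀ w, J.Adj v w ↔ w = p ∨ w = q) (S : Finset α) :
    del (sup J v p q) (S.erase v) = del (sup J v p q) S := by
  obtain ⟨hpv, hqv⟩ := ne_of_adj hv
  have hn : ∀ a b, (sup J v p q).Adj a b → a ≠ v := by
    intro a b h
    rcases sup_adj.1 h with ⟨_, h1, _⟩ | ⟨h, _⟩
    · exact h1
    · rcases Sym2.eq_iff.1 h with ⟨rfl, rfl⟩ | ⟨rfl, rfl⟩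
      · exact hpv
      · exact hqv
  ext a b
  rw [del_adj, del_adj]
  refine and_congr_right fun h => ?_
  have h1 := hn a b h
  have h2 := hn b a h.symm
  simp only [mem_erase, ne_eq, h1, h2, not_false_eq_true, true_and]

theorem connOff_erase (h2 : KConn 2 J) (hpq : p ≠ q) (hv : ∀ w, J.Adj v w ↔ w = p ∨ w = q)
    {S : Finset α} (h : ConnOff J (S.erase v)) : ConnOff (sup J v p q) S := by
  have h1 := connOff h2 hpq hv h
  intro a ha b hb haS hbS
  rw [← del_erase hv]
  exact h1 a ha b hb (fun h => haS (mem_of_mem_erase h)) (fun h => hbS (mem_of_mem_erase h))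

theorem s3s (hJ : S3S J) (hpq : p ≠ q) (hv : ∀ w, J.Adj v w ↔ w = p ∨ w = q) :
    S3S (sup J v p q) := by
  obtain ⟨hn, hC⟩ := F1 hJ hpq hv
  obtain ⟨h2, h3, hc⟩ := hJ
  obtain ⟨hpv, hqv⟩ := ne_of_adj hv
  have h4 := four_le h3
  have hvV : v ∈ VS J := left_mem_VS ((hv p).2 (Or.inl rfl))
  have hK : KConn 2 (sup J v p q) := by
    refine ⟨?_, fun S hS => ?_⟩
    · rw [VS_sup h2 hpq hv, card_erase_of_mem hvV]
      omega
    · exact connOff_erase h2 hpq hv (h2.2 _ (lt_of_le_of_lt (card_le_card (erase_subset _ _)) hS))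
  refine ⟨hK, ?_, ?_⟩
  · obtain ⟨c, x, y, z, hxy, hxz, hyz, hx, hy, hz⟩ := h3
    have hcv : c ≠ v := by
      rintro rfl
      have hx' := (hv x).1 hx
      have hy' := (hv y).1 hy
      have hz' := (hv z).1 hz
      rcases hx' with h | h <;> rcases hy' with h' | h' <;> rcases hz' with h'' | h'' <;> simp_all
    -- the new neighbour
    have hnew : ∃ f : α → α, (∀ w, J.Adj c w → (sup J v p q).Adj c (f w)) ∧
        ∀ w w', J.Adj c w → J.Adj c w' → f w = f w' → w = w' := by
      by_cases hcp : c = p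
      · subst hcp
        refine ⟨fun w => if w = v then q else w, ?_, ?_⟩
        · intro w hw
          by_cases h : w = v
          · simp only [if_pos h]
            exact sup_adj.2 (Or.inr ⟨rfl, hpq⟩)
          · simp only [if_neg h]
            exact sup_adj.2 (Or.inl ⟨hw, hcv, h⟩)
        · intro w w' hw hw' he
          by_cases h : w = v <;> by_cases h' : w' = v
          · rw [h, h']
          · simp only [if_pos h, if_neg h'] at he
            exact absurd (he ▸ hw') hn
          · simp only [if_pos h', if_neg h] at he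
            exact absurd (he ▸ hw) hn
          · simpa only [if_neg h, if_neg h'] using he
      · by_cases hcq : c = q
        · subst hcq
          refine ⟨fun w => if w = v then p else w, ?_, ?_⟩
          · intro w hw
            by_cases h : w = v
            · simp only [if_pos h]
              exact sup_adj.2 (Or.inr ⟨Sym2.eq_swap, hpq.symm⟩)
            · simp only [if_neg h]
              exact sup_adj.2 (Or.inl ⟨hw, hcv, h⟩)
          · intro w w' hw hw' he
            by_cases h : w = v <;> by_cases h' : w' = v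
            · rw [h, h']
            · simp only [if_pos h, if_neg h'] at he
              exact absurd (he ▸ hw').symm hn
            · simp only [if_pos h', if_neg h] at he
              exact absurd (he ▸ hw).symm hn
            · simpa only [if_neg h, if_neg h'] using he
        · refine ⟨id, fun w hw => sup_adj.2 (Or.inl ⟨hw, hcv, ?_⟩), fun _ _ _ _ h => h⟩
          rintro rfl
          rcases (hv c).1 hw.symm with h | h
          · exact hcp h
          · exact hcq h
    obtain ⟨f, hf1, hf2⟩ := hnew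
    exact ⟨c, f x, f y, f z, fun h => hxy (hf2 _ _ hx hy h), fun h => hxz (hf2 _ _ hx hz h),
      fun h => hyz (hf2 _ _ hy hz h), hf1 x hx, hf1 y hy, hf1 z hz⟩
  · intro x y hxy
    by_cases hvxy : v ∈ ({x, y} : Finset α)
    · left
      have h := hK.2 (({x, y} : Finset α).erase v) (by
        rw [card_erase_of_mem hvxy, card_pair hxy]; norm_num)
      intro a ha b hb haS hbS
      have := h a ha b hb (fun h => haS (mem_of_mem_erase h)) (fun h => hbS (mem_of_mem_erase h))
      rwa [del_erase hv] at this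
    · rcases hc x y hxy with h | ⟨v', hv', hn', hC'⟩
      · exact Or.inl (connOff h2 hpq hv h)
      · by_cases hvv : v' = v
        · subst hvv
          left
          have hset : ({x, y} : Finset α) = {p, q} := by
            ext w
            simp only [mem_insert, mem_singleton]
            rw [← hv w, ← hv' w]
          rw [hset]
          intro a ha b hb haS hbS
          rw [VS_sup h2 hpq hv, mem_erase] at ha hb
          have h5 : ∀ w, w ≠ v' → w ∉ ({p, q} : Finset α) → w ∉ ({p, q, v'} : Finset α) := by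
            intro w h6 h7
            simp only [mem_insert, mem_singleton] at h7 ⊢
            tauto
          refine (hC a ha.2 b hb.2 (h5 a ha.1 haS) (h5 b hb.1 hbS)).mono ?_
          intro s t hst
          rw [del_adj] at hst ⊢
          simp only [mem_insert, mem_singleton, not_or] at hst ⊢
          refine ⟨sup_adj.2 (Or.inl ⟨hst.1, hst.2.1.2.2, hst.2.2.2.2⟩), ⟨hst.2.1.1, hst.2.1.2.1⟩,
            ⟨hst.2.2.1, hst.2.2.2.1⟩⟩
        · right
          simp only [mem_insert, mem_singleton, not_or] at hvxy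
          have hv'v : ¬ J.Adj v' v := by
            intro h
            rcases (hv' v).1 h with h | h
            · exact hvxy.1 h
            · exact hvxy.2 h
          have hv'p : v' ≠ p := by
            rintro rfl
            exact hv'v ((hv v').2 (Or.inl rfl)).symm
          have hv'q : v' ≠ q := by
            rintro rfl
            exact hv'v ((hv v').2 (Or.inr rfl)).symm
          refine ⟨v', fun w => ?_, ?_, connOff h2 hpq hv hC'⟩
          · rw [← hv' w, sup_adj]
            constructor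
            · rintro (⟨h, _⟩ | ⟨h, _⟩)
              · exact h
              · rcases Sym2.eq_iff.1 h with ⟨h, _⟩ | ⟨h, _⟩
                · exact absurd h hv'p
                · exact absurd h hv'q
            · intro h
              exact Or.inl ⟨h, hvv, fun h' => hv'v (h' ▸ h)⟩
          · rw [sup_adj]
            rintro (⟨h, _⟩ | ⟨h, _⟩)
            · exact hn' h
            · have hset : ∀ w, J.Adj v' w ↔ w = p ∨ w = q := by
                intro w
                rw [hv' w]
                rcases Sym2.eq_iff.1 h with ⟨rfl, rfl⟩ | ⟨rfl, rfl⟩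
                · exact Iff.rfl
                · exact or_comm
              have hset2 : ({x, y, v'} : Finset α) = {p, q, v'} := by
                ext w
                simp only [mem_insert, mem_singleton]
                rcases Sym2.eq_iff.1 h with ⟨rfl, rfl⟩ | ⟨rfl, rfl⟩ <;> tauto
              exact hvv (L3 h3 hv hset hn (hset2 ▸ hC'))

/-! ## the polynomials -/

/-- the triangle -/
def tri (v p q : α) : Chain α := chi {s(v, p), s(v, q), s(p, q)}

theorem ne3 (hpq : p ≠ q) (hpv : p ≠ v) (hqv : q ≠ v) :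
    s(v, p) ≠ s(v, q) ∧ s(v, p) ≠ s(p, q) ∧ s(v, q) ≠ s(p, q) := by
  refine ⟨?_, ?_, ?_⟩
  · intro h; rcases Sym2.eq_iff.1 h with ⟨_, h⟩ | ⟨h, _⟩
    · exact hpq h
    · exact hqv h.symm
  · intro h; rcases Sym2.eq_iff.1 h with ⟨h, _⟩ | ⟨h, _⟩
    · exact hpv h.symm
    · exact hqv h.symm
  · intro h; rcases Sym2.eq_iff.1 h with ⟨h, _⟩ | ⟨h, _⟩
    · exact hpv h.symm
    · exact hqv h.symm

theorem tri_eq (hpq : p ≠ q) (hpv : p ≠ v) (hqv : q ≠ v) :
    tri v p q = chi {s(v, p)} + (chi {s(v, q)} + chi {s(p, q)}) := by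
  obtain ⟨h1, h2, h3⟩ := ne3 hpq hpv hqv
  unfold tri
  rw [chi_insert, chi_insert]
  · simpa using h3
  · simp only [mem_insert, mem_singleton, not_or]
    exact ⟨h1, h2⟩

theorem bdy_tri (hpq : p ≠ q) (hpv : p ≠ v) (hqv : q ≠ v) (w : α) : bdy (tri v p q) w = 0 := by
  rw [tri_eq hpq hpv hqv, bdy_add, bdy_add, bdy_chi_edge _ hpv.symm, bdy_chi_edge _ hqv.symm,
    bdy_chi_edge _ hpq]
  have : ∀ x y z : ZMod 2, x + y + (x + z + (y + z)) = 0 := by decide
  exact this _ _ _

/-- `L c = c + c(pq) tri` -/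
def LL (v p q : α) : Chain α →+ Chain α where
  toFun c := c + c s(p, q) • tri v p q
  map_zero' := by simp
  map_add' c d := by
    simp only [Pi.add_apply, add_smul]
    abel

/-- `M c = c + c(vp) tri` -/
def MM (v p q : α) (c : Chain α) : Chain α := c + c s(v, p) • tri v p q

theorem tri_pq : tri v p q s(p, q) = 1 := by
  unfold tri; rw [chi_of_mem]; simp

theorem bdy_v (hpq : p ≠ q) (hv : ∀ w, J.Adj v w ↔ w = p ∨ w = q) {c : Chain α} (hc : c ∈ Z1 J) :
    c s(v, p) = c s(v, q) := by
  have h := (mem_Z1.1 hc).2 v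
  rw [bdy_eq] at h
  obtain ⟨hpv, hqv⟩ := ne_of_adj hv
  have h1 : ∑ e ∈ univ.filter (fun e => v ∈ e), c e = ∑ e ∈ ({s(v, p), s(v, q)} : Finset (Sym2 α)), c e := by
    symm
    refine sum_subset ?_ ?_
    · intro e he
      simp only [mem_insert, mem_singleton] at he
      rw [mem_filter]
      rcases he with rfl | rfl <;> simp
    · intro e he hne
      by_contra h0
      have h2 := (mem_Z1.1 hc).1 e h0
      obtain ⟨w, rfl⟩ := Sym2.mem_iff_exists.1 (mem_filter.1 he).2
      rcases (hv w).1 h2 with rfl | rfl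
      · exact hne (by simp)
      · exact hne (by simp)
  rw [h1, sum_pair (ne3 hpq hpv hqv).1] at h
  have : ∀ x y : ZMod 2, x + y = 0 → x = y := by decide
  exact this _ _ h

theorem tri_apply (e : Sym2 α) (h1 : e ≠ s(v, p)) (h2 : e ≠ s(v, q)) (h3 : e ≠ s(p, q)) :
    tri v p q e = 0 := by
  unfold tri; rw [chi_of_notMem]; simp [h1, h2, h3]

theorem M_mem (hn : ¬ J.Adj p q) (hpq : p ≠ q) (hv : ∀ w, J.Adj v w ↔ w = p ∨ w = q)
    {c : Chain α} (hc : c ∈ Z1 J) : MM v p q c ∈ Z1 (sup J v p q) := by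
  obtain ⟨hpv, hqv⟩ := ne_of_adj hv
  have hb := bdy_v hpq hv hc
  have hc' := mem_Z1.1 hc
  rw [mem_Z1]
  refine ⟨fun e he => ?_, fun w => ?_⟩
  · by_cases h3 : e = s(p, q)
    · rw [h3]; exact sup_adj.2 (Or.inr ⟨rfl, hpq⟩)
    by_cases h1 : e = s(v, p)
    · exfalso; apply he
      unfold MM tri
      rw [h1, Pi.add_apply, Pi.smul_apply, chi_of_mem (by simp), smul_eq_mul, mul_one,
        zmod2_add_self]
    by_cases h2 : e = s(v, q)
    · exfalso; apply he
      unfold MM tri
      rw [h2, Pi.add_apply, Pi.smul_apply, chi_of_mem (by simp), smul_eq_mul, mul_one, hb,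
        zmod2_add_self]
    have h4 : MM v p q c e = c e := by
      unfold MM
      rw [Pi.add_apply, Pi.smul_apply, tri_apply e h1 h2 h3, smul_zero, add_zero]
    rw [h4] at he
    have h5 := hc'.1 e he
    induction e using Sym2.ind with
    | _ a b =>
      refine sup_adj.2 (Or.inl ⟨h5, ?_, ?_⟩)
      · rintro rfl
        rcases (hv b).1 h5 with rfl | rfl
        · exact h1 rfl
        · exact h2 rfl
      · rintro rfl
        rcases (hv a).1 (SimpleGraph.Adj.symm h5) with rfl | rfl
        · exact h1 Sym2.eq_swap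
        · exact h2 Sym2.eq_swap
  · unfold MM
    rw [bdy_add, bdy_smul, hc'.2 w, bdy_tri hpq hpv hqv, mul_zero, add_zero]

theorem LM (hn : ¬ J.Adj p q)
    {c : Chain α} (hc : c ∈ Z1 J) : LL v p q (MM v p q c) = c := by
  have h0 : c s(p, q) = 0 := by
    by_contra h
    exact hn ((mem_Z1.1 hc).1 _ h)
  show MM v p q c + MM v p q c s(p, q) • tri v p q = c
  have h1 : MM v p q c s(p, q) = c s(v, p) := by
    unfold MM
    rw [Pi.add_apply, Pi.smul_apply, tri_pq, h0, zero_add, smul_eq_mul, mul_one]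
  rw [h1]
  unfold MM
  rw [add_assoc, chain_add_self, add_zero]

theorem L_cyc (hpq : p ≠ q) (hv : ∀ w, J.Adj v w ↔ w = p ∨ w = q)
    {C' : Finset (Sym2 α)} (hC : IsCyc (sup J v p q) C') :
    ∃ C, IsCyc J C ∧ chi C = LL v p q (chi C') := by
  obtain ⟨hpv, hqv⟩ := ne_of_adj hv
  show ∃ C, IsCyc J C ∧ chi C = chi C' + chi C' s(p, q) • tri v p q
  have hedge : ∀ e ∈ C', e ≠ s(p, q) → e ∈ (del J {v}).edgeSet := by
    intro e he hne
    have := hC.subset e he
    induction e using Sym2.ind with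
    | _ a b =>
      rcases sup_adj.1 this with ⟨h, h1, h2⟩ | ⟨h, _⟩
      · exact ⟨h, by simpa using h1, by simpa using h2⟩
      · exact absurd h hne
  by_cases h : s(p, q) ∈ C'
  · have hR := hC.isPth h
    have hR1 : IsPth (del J {v}) p q (C' \ {s(p, q)}) := hR.transfer fun e he => by
      rw [mem_sdiff, mem_singleton] at he
      exact hedge e he.1 he.2
    refine ⟨_, isCyc_of_isPth_del ((hv p).2 (Or.inl rfl)) ((hv q).2 (Or.inr rfl)) hpq hR1, ?_⟩
    have hvR := vs_of_isPth_del hR1
    have hvR' : v ∉ vs (C' \ {s(p, q)}) := fun h => Finset.disjoint_left.1 hvR h (by simp)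
    obtain ⟨h1, h2, h3⟩ := ne3 hpq hpv hqv
    rw [chi_insert, chi_insert, chi_of_mem h, one_smul, tri_eq hpq hpv hqv, chi_sdiff (by simpa using h)]
    · abel
    · exact fun h => hvR' (left_mem_vs h)
    · rw [mem_insert, not_or]
      exact ⟨h1, fun h => hvR' (left_mem_vs h)⟩
  · refine ⟨C', ?_, ?_⟩
    · refine hC.transfer fun e he => ?_
      have := hedge e he (fun h' => h (h' ▸ he))
      induction e using Sym2.ind with
      | _ a b => exact this.1
    · rw [chi_of_notMem h, zero_smul, add_zero]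

theorem i3 (hPOL : SpecPOL) (hTRA : SpecTRA) (hn : ¬ J.Adj p q) (hpq : p ≠ q)
    (hv : ∀ w, J.Adj v w ↔ w = p ∨ w = q) (hI : I3P (sup J v p q)) : I3P J := by
  obtain ⟨hpv, hqv⟩ := ne_of_adj hv
  intro P hP hP0 hPC
  obtain ⟨r, hr, hrP⟩ := hI (fun c => P (LL v p q c)) (hPOL.comp (LL v p q) hP)
    (by simp only [map_zero, hP0]) (by
    intro C hC
    obtain ⟨D, hD, hDC⟩ := L_cyc hpq hv hC
    show P (LL v p q (chi C)) = 0
    rw [← hDC]; exact hPC D hD)
  -- local pieces
  have hloc : ∀ w, ∃ r' ∈ RV J w, ∀ c ∈ Z1 J, r w (MM v p q c) = r' c := by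
    intro w
    obtain ⟨r', hr', h⟩ := hTRA.map (A := star (sup J v p q) w) (B := star J w)
      (fun e => if e = s(p, q) then s(v, w) else e) (by
        intro e he e' he' hee
        have hv1 : ∀ e ∈ star (sup J v p q) w, v ∉ e := by
          intro e he hve
          obtain ⟨x, rfl⟩ := Sym2.mem_iff_exists.1 hve
          rcases sup_adj.1 he.1 with ⟨_, h, _⟩ | ⟨h, _⟩
          · exact h rfl
          · rcases Sym2.eq_iff.1 h with ⟨h, _⟩ | ⟨h, _⟩
            · exact hpv h.symm
            · exact hqv h.symm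
        try simp only at hee
        by_cases h1 : e = s(p, q) <;> by_cases h2 : e' = s(p, q)
        · rw [h1, h2]
        · rw [if_pos h1, if_neg h2] at hee
          exact absurd (hee ▸ Sym2.mem_mk_left v w) (hv1 e' he')
        · rw [if_neg h1, if_pos h2] at hee
          exact absurd (hee ▸ Sym2.mem_mk_left v w) (hv1 e he)
        · rwa [if_neg h1, if_neg h2] at hee) (by
        intro e he
        try simp only
        by_cases h1 : e = s(p, q)
        · rw [if_pos h1]
          refine ⟨?_, Sym2.mem_mk_right v w⟩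
          have := he.2
          rw [h1, Sym2.mem_iff] at this
          exact (hv w).2 this
        · rw [if_neg h1]
          refine ⟨?_, he.2⟩
          have h5 := he.1
          induction e using Sym2.ind with
          | _ a b =>
            rcases sup_adj.1 h5 with ⟨h, _⟩ | ⟨h, _⟩
            · exact h
            · exact absurd h h1) (hr w)
    refine ⟨r', hr', fun c hc => h _ _ ?_⟩
    intro e he
    try simp only
    have h0 : c s(p, q) = 0 := by
      by_contra h
      exact hn ((mem_Z1.1 hc).1 _ h)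
    by_cases h1 : e = s(p, q)
    · rw [if_pos h1, h1]
      unfold MM
      rw [Pi.add_apply, Pi.smul_apply, tri_pq, h0, zero_add, smul_eq_mul, mul_one]
      have := he.2
      rw [h1, Sym2.mem_iff] at this
      rcases this with rfl | rfl
      · rfl
      · exact bdy_v hpq hv hc
    · rw [if_neg h1]
      unfold MM
      have hve : v ∉ e := by
        intro hve
        obtain ⟨x, rfl⟩ := Sym2.mem_iff_exists.1 hve
        rcases sup_adj.1 he.1 with ⟨_, h, _⟩ | ⟨h, _⟩
        · exact h rfl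
        · exact h1 h
      rw [Pi.add_apply, Pi.smul_apply, tri_apply e _ _ h1, smul_zero, add_zero]
      · rintro rfl; exact hve (by simp)
      · rintro rfl; exact hve (by simp)
  choose r' hr' hrr using hloc
  refine ⟨r', hr', fun c hc => ?_⟩
  have h1 := hrP _ (M_mem hn hpq hv hc)
  rw [LM hn hc] at h1
  rw [h1]
  exact sum_congr rfl fun w _ => hrr w c hc

end SUPM

open SUPM in
theorem specSUP (hPOL : SpecPOL) (hTRA : SpecTRA) : SpecSUP := by
  intro α _ _ J hJ v p q hpq hv
  exact ⟨s3s hJ hpq hv, VS_sup hJ.1 hpq hv, fun h => i3 hPOL hTRA (F1 hJ hpq hv).1 hpq hv h⟩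

end DL
end

section
/-!
MP_3ff0f8_gt, EX/K block, module THL (helper19): functions on cycles which are additive on
the triples with a private vertex are linear.
-/
open SimpleGraph Finset

namespace DL.THLM

variable {α : Type} [Fintype α] [DecidableEq α]

/-- a path is an edge or has an inner vertex -/
theorem inner_vertex {G : SimpleGraph α} {x y : α} {P : Finset (Sym2 α)} (h : IsPth G x y P)
    (hxy : x ≠ y) : P = {s(x, y)} ∨ ∃ u ∈ vs P, u ≠ x ∧ u ≠ y := by
  obtain ⟨u, hu, hu1, _, _⟩ := h.uncons hxy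
  by_cases huy : u = y
  · subst huy
    exact Or.inl (h.eq_singleton hu1)
  · exact Or.inr ⟨u, right_mem_vs hu1, hu.ne', huy⟩

/-- the inner vertex of a bead is on one of the two cycles only -/
theorem private_vertex {J : SimpleGraph α} {a b x y u : α} {A R B D : Finset (Sym2 α)}
    (hA : IsPth J a x A) (hD : IsPth J y b D)
    (h1 : vs A ∩ vs R ⊆ {x}) (h3 : vs R ∩ vs D ⊆ {y}) (h7 : vs R ∩ vs B ⊆ {x, y})
    (hu : u ∈ vs R) (hux : u ≠ x) (huy : u ≠ y) :
    u ∈ vs (insert s(a, b) (A ∪ R ∪ D)) ∧ u ∉ vs (insert s(a, b) (A ∪ B ∪ D)) := by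
  have huA : u ∉ vs A := fun h => hux (by simpa using h1 (mem_inter.2 ⟨h, hu⟩))
  have huD : u ∉ vs D := fun h => huy (by simpa using h3 (mem_inter.2 ⟨hu, h⟩))
  have huB : u ∉ vs B := fun h => by
    have := h7 (mem_inter.2 ⟨hu, h⟩)
    rw [mem_insert, mem_singleton] at this
    exact this.elim hux huy
  constructor
  · rw [vs_insert, vs_union, vs_union]
    simp [hu]
  · rw [vs_insert, vs_union, vs_union]
    simp only [mem_union, mem_insert, mem_singleton, not_or]
    refine ⟨⟨?_, ?_⟩, ⟨huA, huB⟩, huD⟩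
    · rintro rfl
      by_cases hux' : u = x
      · exact hux hux'
      · exact huA (hA.left_mem hux')
    · rintro rfl
      by_cases huy' : y = u
      · exact huy huy'.symm
      · exact huD (hD.right_mem huy')

theorem sum_chi (η : Chain α) (C : Finset (Sym2 α)) : ∑ e ∈ C, η e = ∑ e, η e * chi C e :=
  (sum_mul_chi η C).symm

/-- one move -/
theorem move {J : SimpleGraph α} {xi : Finset (Sym2 α) → ZMod 2}
    (h : ∀ ζ₁ ζ₂ ζ₃, IsCyc J ζ₁ → IsCyc J ζ₂ → IsCyc J ζ₃ →
      chi ζ₁ + chi ζ₂ + chi ζ₃ = 0 → (∃ x ∈ vs ζ₁, x ∉ vs ζ₃) → xi ζ₁ + xi ζ₂ + xi ζ₃ = 0)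
    {F : Finset (Sym2 α)} {η : Chain α} (hη : ∀ ζ, IsCyc J ζ → ζ ⊆ F → xi ζ = ∑ h ∈ ζ, η h)
    {a b : α} (hab : J.Adj a b) (he : s(a, b) ∉ F) {E Q Q' : Finset (Sym2 α)} (hE : E ⊆ F)
    (hB : Bead J a b E Q Q') :
    xi (insert s(a, b) Q) + ∑ h ∈ Q, η h = xi (insert s(a, b) Q') + ∑ h ∈ Q', η h := by
  obtain ⟨Z, hZ, hZE, _, hchi⟩ := hB.exists_cyc
  have hxZ := hη Z hZ (hZE.trans hE)
  have hQ : s(a, b) ∉ Q := fun h => he (hE (hB.subL h))
  have hQ' : s(a, b) ∉ Q' := fun h => he (hE (hB.subR h))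
  have c1 : IsCyc J (insert s(a, b) Q) := hB.pthL.isCyc hab hQ
  have c2 : IsCyc J (insert s(a, b) Q') := hB.pthR.isCyc hab hQ'
  have hsum : chi (insert s(a, b) Q) + chi Z + chi (insert s(a, b) Q') = 0 := by
    rw [chi_insert hQ, chi_insert hQ', ← hchi]
    have h1 := chain_add_self (chi {s(a, b)})
    have h2 := chain_add_self (chi Q)
    have h3 := chain_add_self (chi Q')
    calc _ = (chi {s(a, b)} + chi {s(a, b)}) + (chi Q + chi Q) + (chi Q' + chi Q') := by abel
      _ = 0 := by rw [h1, h2, h3]; simp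
  have hη' : ∑ h ∈ Q, η h + ∑ h ∈ Q', η h = ∑ h ∈ Z, η h := by
    rw [sum_chi η Q, sum_chi η Q', sum_chi η Z, ← hchi, ← sum_add_distrib]
    exact sum_congr rfl fun e _ => by rw [Pi.add_apply]; ring
  have key : xi (insert s(a, b) Q) + xi Z + xi (insert s(a, b) Q') = 0 := by
    obtain ⟨x, y, A, R, B, D, hxy, hA, hR, hB', hD, rfl, rfl, h1, h2, h3, h4, h5, h6, h7, hne⟩ :=
      hB.data
    rcases inner_vertex hR hxy with h8 | ⟨u, hu, hux, huy⟩
    · rcases inner_vertex hB' hxy with h9 | ⟨u, hu, hux, huy⟩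
      · exact absurd (h8.trans h9.symm) hne
      · have := private_vertex (R := B) (B := R) hA hD h2 h4 (by rwa [inter_comm]) hu hux huy
        have h10 := h _ _ _ c2 hZ c1 (by rw [← hsum]; abel) ⟨u, this⟩
        rw [← h10]; ring
    · have := private_vertex (R := R) (B := B) hA hD h1 h3 h7 hu hux huy
      exact h _ _ _ c1 hZ c2 hsum ⟨u, this⟩
  rw [hxZ, ← hη'] at key
  have e1 := zmod2_add_self (xi (insert s(a, b) Q'))
  have e2 := zmod2_add_self (∑ h ∈ Q', η h)
  calc _ = (xi (insert s(a, b) Q) + (∑ h ∈ Q, η h + ∑ h ∈ Q', η h) + xi (insert s(a, b) Q')) +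
        (xi (insert s(a, b) Q') + ∑ h ∈ Q', η h) -
        (xi (insert s(a, b) Q') + xi (insert s(a, b) Q')) - (∑ h ∈ Q', η h + ∑ h ∈ Q', η h) +
        ∑ h ∈ Q', η h - ∑ h ∈ Q', η h := by ring
    _ = _ := by rw [key, e1, e2]; ring

theorem specTHL : SpecTHL := by
  intro α _ _ J xi h
  have key : ∀ F : Finset (Sym2 α), (∀ e ∈ F, e ∈ J.edgeSet) →
      ∃ η : Chain α, ∀ ζ, IsCyc J ζ → ζ ⊆ F → xi ζ = ∑ h ∈ ζ, η h := by
    intro F
    induction F using Finset.induction_on with
    | empty =>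
      intro _
      refine ⟨0, fun ζ hζ hζF => ?_⟩
      have := hζ.nonempty
      rw [subset_empty.1 hζF] at this
      exact absurd this (by simp)
    | insert e F he ih =>
      intro hF
      obtain ⟨η, hη⟩ := ih fun e' he' => hF e' (mem_insert_of_mem he')
      have heJ := hF e (mem_insert_self _ _)
      induction e using Sym2.ind with
      | _ a b =>
      have hab : J.Adj a b := heJ
      have hpath : ∀ ζ, IsCyc J ζ → s(a, b) ∈ ζ → ζ ⊆ insert s(a, b) F →
          IsPth J a b (ζ \ {s(a, b)}) ∧ ζ \ {s(a, b)} ⊆ F := by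
        intro ζ hζ hm hsub
        refine ⟨hζ.isPth hm, fun e' he' => ?_⟩
        rw [mem_sdiff, mem_singleton] at he'
        have := hsub he'.1
        rw [mem_insert] at this
        exact this.resolve_left he'.2
      by_cases hQ : ∃ Q₀, IsPth J a b Q₀ ∧ Q₀ ⊆ F
      · obtain ⟨Q₀, hQ₀, hQF⟩ := hQ
        refine ⟨Function.update η s(a, b) (xi (insert s(a, b) Q₀) + ∑ h ∈ Q₀, η h),
          fun ζ hζ hsub => ?_⟩
        by_cases hm : s(a, b) ∈ ζ
        · obtain ⟨h1, h2⟩ := hpath ζ hζ hm hsub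
          have hmv := bead_moves hQ₀ h1
          have hE : Q₀ ∪ ζ \ {s(a, b)} ⊆ F := union_subset hQF h2
          have hconst : ∀ Q, Relation.ReflTransGen (Bead J a b (Q₀ ∪ ζ \ {s(a, b)})) Q₀ Q →
              xi (insert s(a, b) Q₀) + ∑ h ∈ Q₀, η h = xi (insert s(a, b) Q) + ∑ h ∈ Q, η h := by
            intro Q hQ
            induction hQ with
            | refl => rfl
            | tail _ hstep ih' => exact ih'.trans (move h hη hab he hE hstep)
          have h3 := hconst _ hmv
          rw [IsCyc.insert_sdiff hm] at h3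
          rw [← IsCyc.insert_sdiff hm, sum_insert (by simp), Function.update_self, h3,
            IsCyc.insert_sdiff hm]
          have h4 : ∑ x ∈ ζ \ {s(a, b)}, Function.update η s(a, b)
              (xi ζ + ∑ h ∈ ζ \ {s(a, b)}, η h) x = ∑ h ∈ ζ \ {s(a, b)}, η h := by
            refine sum_congr rfl fun x hx => ?_
            rw [Function.update_of_ne]
            rintro rfl
            simp at hx
          rw [h4, add_assoc, zmod2_add_self, add_zero]
        · have hsub' : ζ ⊆ F := fun e' he' => by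
            have := hsub he'
            rw [mem_insert] at this
            exact this.resolve_left fun h' => hm (h' ▸ he')
          rw [hη ζ hζ hsub']
          refine sum_congr rfl fun x hx => ?_
          rw [Function.update_of_ne]
          rintro rfl
          exact hm hx
      · refine ⟨η, fun ζ hζ hsub => ?_⟩
        by_cases hm : s(a, b) ∈ ζ
        · exact absurd ⟨_, hpath ζ hζ hm hsub⟩ hQ
        · refine hη ζ hζ fun e' he' => ?_
          have := hsub he'
          rw [mem_insert] at this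
          exact this.resolve_left fun h' => hm (h' ▸ he')
  classical
  obtain ⟨η, hη⟩ := key (univ.filter fun e => e ∈ J.edgeSet) fun e he => (mem_filter.1 he).2
  exact ⟨η, fun ζ hζ => hη ζ hζ fun e he => mem_filter.2 ⟨mem_univ _, hζ.subset e he⟩⟩

end DL.THLM
end

section
/-!
# TRX: cubic functions on even traces
-/
set_option autoImplicit false

open SimpleGraph Finset

namespace DL

set_option linter.unusedSectionVars false

namespace TRXM

variable {α : Type} [Fintype α] [DecidableEq α]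

theorem two_eq (x : ZMod 2) : x + x = 0 := by
  have h : (2 : ZMod 2) = 0 := by decide
  rw [← two_mul, h, zero_mul]

theorem cases2 (x : ZMod 2) : x = 0 ∨ x = 1 := by
  have : ∀ x : ZMod 2, x = 0 ∨ x = 1 := by decide
  exact this x

/-- `δ_i + δ_k` -/
def vv (k i : Sym2 α) : Chain α := fun e => (if e = i then 1 else 0) + (if e = k then 1 else 0)

/-- the value of a sum of the `vv` -/
theorem sum_vv (k : Sym2 α) (S : Finset (Sym2 α)) (e : Sym2 α) :
    (∑ i ∈ S, vv k i) e = (if e ∈ S then 1 else 0) + (S.card : ZMod 2) * (if e = k then 1 else 0) := by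
  rw [Finset.sum_apply]
  unfold vv
  rw [Finset.sum_add_distrib, Finset.sum_ite_eq, Finset.sum_const, nsmul_eq_mul]

theorem sum_vv_even (k : Sym2 α) (S : Finset (Sym2 α)) (h : S.card % 2 = 0) :
    ∑ i ∈ S, vv k i = chi S := by
  funext e
  have h2 : ((S.card : ℕ) : ZMod 2) = 0 := by
    rw [ZMod.natCast_eq_zero_iff]
    omega
  rw [sum_vv, h2, zero_mul, add_zero]
  rfl

theorem sum_vv_odd (k : Sym2 α) (S : Finset (Sym2 α)) (h : S.card % 2 = 1) (hk : k ∉ S) :
    ∑ i ∈ S, vv k i = chi (insert k S) := by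
  funext e
  have h2 : ((S.card : ℕ) : ZMod 2) = 1 := by
    have h3 : (((S.card - 1 : ℕ) : ℕ) : ZMod 2) = 0 := by
      rw [ZMod.natCast_eq_zero_iff]
      omega
    have h4 : S.card = (S.card - 1) + 1 := by omega
    rw [h4]
    push_cast
    rw [h3, zero_add]
  rw [sum_vv, h2, one_mul]
  unfold chi
  by_cases he : e = k
  · subst he
    rw [if_neg hk, if_pos rfl, if_pos (Finset.mem_insert_self _ _), zero_add]
  · rw [if_neg he, add_zero]
    by_cases hS : e ∈ S
    · rw [if_pos hS, if_pos (Finset.mem_insert_of_mem hS)]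
    · rw [if_neg hS, if_neg]
      rw [Finset.mem_insert]
      tauto

/-- the coefficient of the set `T` -/
def kap (P : Chain α → ZMod 2) (k : Sym2 α) (T : Finset (Sym2 α)) : ZMod 2 :=
  P (chi (insert k T))

/-- the multilinear form on the even subsets -/
theorem form_set (hPOL : SpecPOL) (E : Finset (Sym2 α)) (k : Sym2 α) (hk : k ∈ E)
    (P : Chain α → ZMod 2) (hP : DegLE 3 P)
    (h0 : ∀ F ⊆ E, F.card = 0 ∨ F.card = 2 → P (chi F) = 0) (S : Finset (Sym2 α))
    (hS : S ⊆ E.erase k) :
    P (∑ i ∈ S, vv k i) = ∑ T ∈ S.powersetCard 3, kap P k T := by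
  classical
  have hkS : ∀ T ⊆ S, k ∉ T := fun T hT h => Finset.notMem_erase k E (hS (hT h))
  have hSE : ∀ T ⊆ S, T ⊆ E := fun T hT => (hT.trans hS).trans (Finset.erase_subset _ _)
  rw [hPOL.exp (vv k) S hP]
  -- values on small sets
  have hsmall : ∀ T ⊆ S, T.card ≤ 2 → P (∑ i ∈ T, vv k i) = 0 := by
    intro T hT hc
    have h3 : T.card = 0 ∨ T.card = 1 ∨ T.card = 2 := by omega
    rcases h3 with h3 | h3 | h3
    · rw [sum_vv_even k T (by omega)]
      exact h0 T (hSE T hT) (Or.inl h3)
    · rw [sum_vv_odd k T (by omega) (hkS T hT)]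
      refine h0 _ ?_ (Or.inr ?_)
      · exact Finset.insert_subset hk (hSE T hT)
      · rw [Finset.card_insert_of_notMem (hkS T hT)]
        omega
    · rw [sum_vv_even k T (by omega)]
      exact h0 T (hSE T hT) (Or.inr h3)
  symm
  have hsub : S.powersetCard 3 ⊆ S.powerset.filter (fun T => T.card ≤ 3) := by
    intro T hT
    rw [Finset.mem_powersetCard] at hT
    rw [Finset.mem_filter, Finset.mem_powerset]
    exact ⟨hT.1, hT.2.le⟩
  have hval : ∀ T ∈ S.powersetCard 3, kap P k T = ∑ T' ∈ T.powerset, P (∑ i ∈ T', vv k i) := by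
    intro T hT
    rw [Finset.mem_powersetCard] at hT
    rw [Finset.sum_eq_single T]
    · rw [sum_vv_odd k T (by omega) (hkS T hT.1)]
      rfl
    · intro T' hT' hne
      rw [Finset.mem_powerset] at hT'
      apply hsmall T' (hT'.trans hT.1)
      have := Finset.card_lt_card (Finset.ssubset_iff_subset_ne.2 ⟨hT', hne⟩)
      omega
    · intro h
      exact absurd (Finset.mem_powerset.2 (Finset.Subset.refl T)) h
  rw [Finset.sum_congr rfl hval]
  apply Finset.sum_subset hsub
  intro T hT hT'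
  rw [Finset.mem_filter, Finset.mem_powerset] at hT
  rw [Finset.mem_powersetCard] at hT'
  have h3 : T.card ≤ 2 := by
    by_contra hcon
    exact hT' ⟨hT.1, by omega⟩
  refine Finset.sum_eq_zero fun T' hT'' => ?_
  rw [Finset.mem_powerset] at hT''
  exact hsmall T' (hT''.trans hT.1) ((Finset.card_le_card hT'').trans h3)

/-- the set of the coordinates with value `1` -/
def sup1 (E : Finset (Sym2 α)) (c : Chain α) : Finset (Sym2 α) := E.filter fun e => c e = 1

theorem sum_sup1 (E : Finset (Sym2 α)) (c : Chain α) :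
    ((sup1 E c).card : ZMod 2) = ∑ e ∈ E, c e := by
  unfold sup1
  rw [Finset.card_filter]
  push_cast
  refine Finset.sum_congr rfl fun e _ => ?_
  rcases cases2 (c e) with h | h
  · rw [h, if_neg (by decide)]
  · rw [h, if_pos rfl]

theorem chain_eq (E : Finset (Sym2 α)) (k : Sym2 α) (hk : k ∈ E) (c : Chain α)
    (hc : ∀ e, c e ≠ 0 → e ∈ E) (he : ∑ e ∈ E, c e = 0) :
    c = ∑ i ∈ sup1 (E.erase k) c, vv k i := by
  funext e
  rw [sum_vv]
  by_cases hek : e = k
  · subst hek
    rw [if_pos rfl, mul_one, sum_sup1, if_neg (by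
      unfold sup1
      rw [Finset.mem_filter]
      exact fun h => Finset.notMem_erase _ _ h.1), zero_add]
    rw [← Finset.add_sum_erase _ _ hk] at he
    have h1 : ∀ a b : ZMod 2, a + b = 0 → a = b := by decide
    exact h1 _ _ he
  · rw [if_neg hek, mul_zero, add_zero]
    unfold sup1
    by_cases hE : e ∈ E
    · rcases cases2 (c e) with h | h
      · rw [h, if_neg]
        rw [Finset.mem_filter, h]
        rintro ⟨_, h2⟩
        exact absurd h2 (by decide)
      · rw [h, if_pos]
        exact Finset.mem_filter.2 ⟨Finset.mem_erase.2 ⟨hek, hE⟩, h⟩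
    · have h0 : c e = 0 := by
        by_contra h
        exact hE (hc e h)
      rw [h0, if_neg]
      rw [Finset.mem_filter]
      exact fun h => hE (Finset.mem_of_mem_erase h.1)

/-- the multilinear form -/
theorem form (hPOL : SpecPOL) (E : Finset (Sym2 α)) (k : Sym2 α) (hk : k ∈ E)
    (P : Chain α → ZMod 2) (hP : DegLE 3 P)
    (h0 : ∀ F ⊆ E, F.card = 0 ∨ F.card = 2 → P (chi F) = 0) (c : Chain α)
    (hc : ∀ e, c e ≠ 0 → e ∈ E) (he : ∑ e ∈ E, c e = 0) :
    P c = ∑ T ∈ (E.erase k).powersetCard 3, kap P k T * ∏ i ∈ T, c i := by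
  classical
  have h1 : P c = P (∑ i ∈ sup1 (E.erase k) c, vv k i) := by rw [← chain_eq E k hk c hc he]
  rw [h1, form_set hPOL E k hk P hP h0 (sup1 (E.erase k) c) (Finset.filter_subset _ _)]
  have hsub : (sup1 (E.erase k) c).powersetCard 3 ⊆ (E.erase k).powersetCard 3 :=
    Finset.powersetCard_mono (Finset.filter_subset _ _)
  rw [← Finset.sum_subset hsub (f := fun T => kap P k T * ∏ i ∈ T, c i)]
  · refine Finset.sum_congr rfl fun T hT => ?_
    rw [Finset.mem_powersetCard] at hT
    rw [Finset.prod_eq_one, mul_one]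
    intro i hi
    have := hT.1 hi
    exact (Finset.mem_filter.1 this).2
  · intro T hT hT'
    rw [Finset.mem_powersetCard] at hT hT'
    have h2 : ∃ i ∈ T, i ∉ sup1 (E.erase k) c := by
      by_contra hcon
      push Not at hcon
      exact hT' ⟨hcon, hT.2⟩
    obtain ⟨i, hi, hi'⟩ := h2
    have h3 : c i = 0 := by
      rcases cases2 (c i) with h | h
      · exact h
      · exact absurd (Finset.mem_filter.2 ⟨hT.1 hi, h⟩) hi'
    rw [Finset.prod_eq_zero hi h3, mul_zero]

/-- cubic monomials are in `TR` -/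
theorem mono_mem (A : Set (Sym2 α)) (T : Finset (Sym2 α)) (hT : (T : Set (Sym2 α)) ⊆ A)
    (hc : T.card = 3) : (fun c : Chain α => ∏ i ∈ T, c i) ∈ TR A := by
  obtain ⟨x, y, z, hxy, hxz, hyz, rfl⟩ := Finset.card_eq_three.1 hc
  refine Submodule.subset_span ⟨x, hT (by simp), y, hT (by simp), z, hT (by simp), hxy, hxz, hyz, ?_⟩
  funext c
  rw [Finset.prod_insert (by simp [hxy, hxz]), Finset.prod_insert (by simp [hyz]),
    Finset.prod_singleton, mul_assoc]

theorem sum_mem {ι : Type} (A : Set (Sym2 α)) (s : Finset ι) (a : ι → Chain α → ZMod 2)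
    (h : ∀ i ∈ s, a i ∈ TR A) : (fun c : Chain α => ∑ i ∈ s, a i c) ∈ TR A := by
  have : (fun c : Chain α => ∑ i ∈ s, a i c) = ∑ i ∈ s, a i := by
    funext c
    rw [Finset.sum_apply]
  rw [this]
  exact Submodule.sum_mem _ h

theorem smul_mem (A : Set (Sym2 α)) (x : ZMod 2) (a : Chain α → ZMod 2) (h : a ∈ TR A) :
    (fun c : Chain α => x * a c) ∈ TR A := Submodule.smul_mem _ x h

/-- the sum of the coefficients over a set of monomials -/
theorem psum_mem (A : Set (Sym2 α)) (P : Chain α → ZMod 2) (k : Sym2 α) (B : Finset (Sym2 α))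
    (hB : (B : Set (Sym2 α)) ⊆ A) :
    (fun c : Chain α => ∑ T ∈ B.powersetCard 3, kap P k T * ∏ i ∈ T, c i) ∈ TR A := by
  refine sum_mem A _ (fun T c => kap P k T * ∏ i ∈ T, c i) fun T hT => ?_
  rw [Finset.mem_powersetCard] at hT
  exact smul_mem A _ _ (mono_mem A T (fun x hx => hB (hT.1 hx)) hT.2)

theorem ex (hPOL : SpecPOL) (A : Finset (Sym2 α)) (P : Chain α → ZMod 2) (hP : DegLE 3 P)
    (h0 : ∀ F ⊆ A, F.card = 0 ∨ F.card = 2 → P (chi F) = 0) :
    ∃ r ∈ TR (A : Set (Sym2 α)), ∀ c : Chain α, (∀ e, c e ≠ 0 → e ∈ A) → ∑ e ∈ A, c e = 0 →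
      P c = r c := by
  rcases A.eq_empty_or_nonempty with rfl | ⟨k, hk⟩
  · refine ⟨0, Submodule.zero_mem _, fun c hc _ => ?_⟩
    have hc0 : c = chi ∅ := by
      funext e
      show c e = if e ∈ (∅ : Finset (Sym2 α)) then 1 else 0
      rw [if_neg (by simp)]
      by_contra h
      exact absurd (hc e h) (by simp)
    rw [hc0, h0 ∅ (Finset.Subset.refl _) (Or.inl rfl)]
    rfl
  · refine ⟨_, psum_mem (A : Set (Sym2 α)) P k (A.erase k) (fun x hx => Finset.mem_of_mem_erase hx),
      fun c hc he => form hPOL A k hk P hP h0 c hc he⟩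

/-- the coefficient of a set with two elements in `A` vanishes -/
theorem kap_two (A B : Finset (Sym2 α)) (hAB : Disjoint A B) (k : Sym2 α) (hk : k ∈ B)
    (P : Chain α → ZMod 2)
    (h2 : ∀ F ⊆ A ∪ B, (F ∩ A).card = 2 → (F ∩ B).card = 2 → P (chi F) = 0)
    (T : Finset (Sym2 α)) (hT : T ⊆ (A ∪ B).erase k) (hc : T.card = 3) (hTA : (T ∩ A).card = 2) :
    kap P k T = 0 := by
  have hkT : k ∉ T := fun h => Finset.notMem_erase _ _ (hT h)
  have hkA : k ∉ A := fun h => Finset.disjoint_left.1 hAB h hk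
  have hTE : T ⊆ A ∪ B := hT.trans (Finset.erase_subset _ _)
  have hTB : (T ∩ B).card = 1 := by
    have h1 : T = (T ∩ A) ∪ (T ∩ B) := by
      rw [← Finset.inter_union_distrib_left]
      exact (Finset.inter_eq_left.2 hTE).symm
    have h3 : ((T ∩ A) ∪ (T ∩ B)).card = (T ∩ A).card + (T ∩ B).card :=
      Finset.card_union_of_disjoint (hAB.mono Finset.inter_subset_right Finset.inter_subset_right)
    rw [← h1] at h3
    omega
  apply h2
  · exact Finset.insert_subset (Finset.mem_union_right _ hk) hTE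
  · rw [Finset.insert_inter_of_notMem hkA, hTA]
  · rw [Finset.insert_inter_of_mem hk, Finset.card_insert_of_notMem (fun h =>
      hkT (Finset.mem_of_mem_inter_left h)), hTB]

/-- the coefficients of the sets with one element in `A` do not depend on this element -/
theorem kap_one (hPOL : SpecPOL) (A B : Finset (Sym2 α)) (hAB : Disjoint A B) (k : Sym2 α)
    (hk : k ∈ B) (P : Chain α → ZMod 2) (hP : DegLE 3 P)
    (h0 : ∀ F ⊆ A ∪ B, F.card = 0 ∨ F.card = 2 → P (chi F) = 0)
    (h2 : ∀ F ⊆ A ∪ B, (F ∩ A).card = 2 → (F ∩ B).card = 2 → P (chi F) = 0)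
    (f f' : Sym2 α) (hf : f ∈ A) (hf' : f' ∈ A) (U : Finset (Sym2 α)) (hU : U ⊆ B.erase k)
    (hc : U.card = 2) : kap P k (insert f U) = kap P k (insert f' U) := by
  classical
  by_cases hff : f = f'
  · rw [hff]
  have hdis : ∀ x, x ∈ A → x ∉ B := fun x hx => Finset.disjoint_left.1 hAB hx
  have hUB : U ⊆ B := hU.trans (Finset.erase_subset _ _)
  have hfU : f ∉ U := fun h => hdis f hf (hUB h)
  have hfU' : f' ∉ U := fun h => hdis f' hf' (hUB h)
  have hkU : k ∉ U := fun h => Finset.notMem_erase _ _ (hU h)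
  have hkf : k ≠ f := by rintro rfl; exact hdis _ hf hk
  have hkf' : k ≠ f' := by rintro rfl; exact hdis _ hf' hk
  have hfi : f ∉ insert f' U := by
    rw [Finset.mem_insert]; tauto
  have hfi' : f' ∉ insert f U := by
    rw [Finset.mem_insert]
    rintro (h | h)
    · exact hff h.symm
    · exact hfU' h
  set S := insert f (insert f' U) with hS
  have hScard : S.card = 4 := by
    rw [hS, Finset.card_insert_of_notMem hfi, Finset.card_insert_of_notMem hfU', hc]
  have hSsub : S ⊆ (A ∪ B).erase k := by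
    intro x hx
    rw [hS, Finset.mem_insert, Finset.mem_insert] at hx
    rw [Finset.mem_erase, Finset.mem_union]
    rcases hx with rfl | rfl | hx
    · exact ⟨hkf.symm, Or.inl hf⟩
    · exact ⟨hkf'.symm, Or.inl hf'⟩
    · exact ⟨fun h => hkU (h ▸ hx), Or.inr (hUB hx)⟩
  have hSA : S ∩ A = {f, f'} := by
    ext x
    rw [Finset.mem_inter, hS, Finset.mem_insert, Finset.mem_insert, Finset.mem_insert,
      Finset.mem_singleton]
    constructor
    · rintro ⟨h1 | h1 | h1, h3⟩
      · exact Or.inl h1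
      · exact Or.inr h1
      · exact absurd (hUB h1) (hdis x h3)
    · rintro (rfl | rfl)
      · exact ⟨Or.inl rfl, hf⟩
      · exact ⟨Or.inr (Or.inl rfl), hf'⟩
  have hSB : S ∩ B = U := by
    ext x
    rw [Finset.mem_inter, hS, Finset.mem_insert, Finset.mem_insert]
    constructor
    · rintro ⟨rfl | rfl | h1, h3⟩
      · exact absurd h3 (hdis _ hf)
      · exact absurd h3 (hdis _ hf')
      · exact h1
    · exact fun h => ⟨Or.inr (Or.inr h), hUB h⟩
  have h3 : P (∑ i ∈ S, vv k i) = 0 := by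
    rw [sum_vv_even k S (by omega)]
    refine h2 S (hSsub.trans (Finset.erase_subset _ _)) ?_ ?_
    · rw [hSA, Finset.card_pair hff]
    · rw [hSB, hc]
  rw [form_set hPOL (A ∪ B) k (Finset.mem_union_right _ hk) P hP h0 S hSsub] at h3
  have hsub : ({insert f U, insert f' U} : Finset (Finset (Sym2 α))) ⊆ S.powersetCard 3 := by
    intro T hT
    rw [Finset.mem_insert, Finset.mem_singleton] at hT
    rw [Finset.mem_powersetCard]
    rcases hT with rfl | rfl
    · refine ⟨?_, by rw [Finset.card_insert_of_notMem hfU, hc]⟩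
      intro x hx
      rw [Finset.mem_insert] at hx
      rw [hS, Finset.mem_insert, Finset.mem_insert]
      tauto
    · exact ⟨Finset.subset_insert _ _, by rw [Finset.card_insert_of_notMem hfU', hc]⟩
  rw [← Finset.sum_subset hsub, Finset.sum_pair] at h3
  · have : ∀ a b : ZMod 2, a + b = 0 → a = b := by decide
    exact this _ _ h3
  · intro h
    have h4 : f ∈ insert f' U := by
      rw [← h]; exact Finset.mem_insert_self _ _
    exact hfi h4
  · intro T hT hT'
    rw [Finset.mem_powersetCard] at hT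
    have hfT : f ∈ T := by
      by_contra hn
      apply hT'
      rw [Finset.mem_insert, Finset.mem_singleton]
      right
      have h5 : T ⊆ insert f' U := by
        intro x hx
        have := hT.1 hx
        rw [hS, Finset.mem_insert] at this
        rcases this with rfl | h
        · exact absurd hx hn
        · exact h
      exact Finset.eq_of_subset_of_card_le h5 (by
        rw [Finset.card_insert_of_notMem hfU', hc, hT.2])
    have hfT' : f' ∈ T := by
      by_contra hn
      apply hT'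
      rw [Finset.mem_insert, Finset.mem_singleton]
      left
      have h5 : T ⊆ insert f U := by
        intro x hx
        have := hT.1 hx
        rw [hS, Finset.mem_insert, Finset.mem_insert] at this
        rw [Finset.mem_insert]
        rcases this with h | rfl | h
        · exact Or.inl h
        · exact absurd hx hn
        · exact Or.inr h
      exact Finset.eq_of_subset_of_card_le h5 (by
        rw [Finset.card_insert_of_notMem hfU, hc, hT.2])
    apply kap_two A B hAB k hk P h2 T (hT.1.trans hSsub) hT.2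
    have h6 : T ∩ A = {f, f'} := by
      apply Finset.Subset.antisymm
      · rw [← hSA]
        exact Finset.inter_subset_inter_right hT.1
      · intro x hx
        rw [Finset.mem_insert, Finset.mem_singleton] at hx
        rw [Finset.mem_inter]
        rcases hx with rfl | rfl
        · exact ⟨hfT, hf⟩
        · exact ⟨hfT', hf'⟩
    rw [h6, Finset.card_pair hff]

theorem split (hPOL : SpecPOL) (A B : Finset (Sym2 α)) (hAB : Disjoint A B)
    (P : Chain α → ZMod 2) (hP : DegLE 3 P)
    (h0 : ∀ F ⊆ A ∪ B, F.card = 0 ∨ F.card = 2 → P (chi F) = 0)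
    (h2 : ∀ F ⊆ A ∪ B, (F ∩ A).card = 2 → (F ∩ B).card = 2 → P (chi F) = 0) :
    ∃ r ∈ TR (A : Set (Sym2 α)), ∃ r' ∈ TR (B : Set (Sym2 α)), ∀ c : Chain α,
      (∀ e, c e ≠ 0 → e ∈ A ∪ B) → ∑ e ∈ A ∪ B, c e = 0 → P c = r c + r' c := by
  classical
  rcases B.eq_empty_or_nonempty with rfl | ⟨k, hk⟩
  · rw [Finset.union_empty] at h0 ⊢
    obtain ⟨r, hr, h⟩ := ex hPOL A P hP h0
    exact ⟨r, hr, 0, Submodule.zero_mem _, fun c hc he => by
      rw [h c hc he]; exact (add_zero _).symm⟩
  rcases A.eq_empty_or_nonempty with rfl | ⟨f₀, hf₀⟩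
  · rw [Finset.empty_union] at h0 ⊢
    obtain ⟨r, hr, h⟩ := ex hPOL B P hP h0
    exact ⟨0, Submodule.zero_mem _, r, hr, fun c hc he => by
      rw [h c hc he]; exact (zero_add _).symm⟩
  have hdis : ∀ x, x ∈ A → x ∉ B := fun x hx => Finset.disjoint_left.1 hAB hx
  set B' := B.erase k with hB'
  have hB'B : B' ⊆ B := Finset.erase_subset _ _
  -- the third part
  set r3 : Chain α → ZMod 2 := fun c => ∑ U ∈ B'.powersetCard 2, kap P k (insert f₀ U) *
    ∑ h ∈ B \ U, ∏ i ∈ insert h U, c i with hr3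
  have hr3m : r3 ∈ TR (B : Set (Sym2 α)) := by
    refine sum_mem _ _ (fun U c => kap P k (insert f₀ U) *
      ∑ h ∈ B \ U, ∏ i ∈ insert h U, c i) fun U hU => ?_
    rw [Finset.mem_powersetCard] at hU
    refine smul_mem _ _ _ ?_
    refine sum_mem _ _ (fun h c => ∏ i ∈ insert h U, c i) fun h hh => ?_
    rw [Finset.mem_sdiff] at hh
    refine mono_mem _ _ ?_ ?_
    · intro x hx
      have hx' : x ∈ insert h U := hx
      rw [Finset.mem_insert] at hx'
      rcases hx' with rfl | hx'
      · exact hh.1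
      · exact hB'B (hU.1 hx')
    · rw [Finset.card_insert_of_notMem hh.2, hU.2]
  refine ⟨_, psum_mem (A : Set (Sym2 α)) P k A (fun x hx => hx), _,
    Submodule.add_mem _ (psum_mem (B : Set (Sym2 α)) P k B' (fun x hx => hB'B hx)) hr3m,
    fun c hc he => ?_⟩
  rw [form hPOL (A ∪ B) k (Finset.mem_union_right _ hk) P hP h0 c hc he]
  show ∑ T ∈ ((A ∪ B).erase k).powersetCard 3, kap P k T * ∏ i ∈ T, c i =
    ∑ T ∈ A.powersetCard 3, kap P k T * ∏ i ∈ T, c i +
      (∑ T ∈ B'.powersetCard 3, kap P k T * ∏ i ∈ T, c i + r3 c)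
  have hE : (A ∪ B).erase k = A ∪ B' := by
    ext x
    rw [Finset.mem_erase, Finset.mem_union, Finset.mem_union, hB', Finset.mem_erase]
    constructor
    · rintro ⟨h1, h3 | h3⟩
      · exact Or.inl h3
      · exact Or.inr ⟨h1, h3⟩
    · rintro (h1 | h1)
      · refine ⟨?_, Or.inl h1⟩
        rintro rfl
        exact hdis _ h1 hk
      · exact ⟨h1.1, Or.inr h1.2⟩
  set g : Finset (Sym2 α) → ZMod 2 := fun T => kap P k T * ∏ i ∈ T, c i with hg
  set X := (A ∪ B').powersetCard 3 with hX
  have hf1 : X.filter (fun T => T ⊆ A) = A.powersetCard 3 := by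
    ext T
    rw [Finset.mem_filter, hX, Finset.mem_powersetCard, Finset.mem_powersetCard]
    constructor
    · rintro ⟨h1, h3⟩
      exact ⟨h3, h1.2⟩
    · rintro ⟨h1, h3⟩
      exact ⟨⟨h1.trans Finset.subset_union_left, h3⟩, h1⟩
  have hf2 : (X.filter (fun T => ¬ T ⊆ A)).filter (fun T => T ⊆ B') = B'.powersetCard 3 := by
    ext T
    rw [Finset.mem_filter, Finset.mem_filter, hX, Finset.mem_powersetCard, Finset.mem_powersetCard]
    constructor
    · rintro ⟨⟨h1, _⟩, h3⟩
      exact ⟨h3, h1.2⟩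
    · rintro ⟨h1, h3⟩
      refine ⟨⟨⟨h1.trans Finset.subset_union_right, h3⟩, ?_⟩, h1⟩
      intro hA
      obtain ⟨x, hx⟩ := Finset.card_pos.1 (by rw [h3]; norm_num)
      exact hdis x (hA hx) (hB'B (h1 hx))
  set Y := (X.filter (fun T => ¬ T ⊆ A)).filter (fun T => ¬ T ⊆ B') with hY
  have hsplit : ∑ T ∈ X, g T = ∑ T ∈ A.powersetCard 3, g T + (∑ T ∈ B'.powersetCard 3, g T +
      ∑ T ∈ Y, g T) := by
    rw [← hf1, ← hf2, Finset.sum_filter_add_sum_filter_not, Finset.sum_filter_add_sum_filter_not]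
  rw [hE]
  show ∑ T ∈ X, g T = ∑ T ∈ A.powersetCard 3, g T + (∑ T ∈ B'.powersetCard 3, g T + r3 c)
  rw [hsplit]
  congr 2
  -- the mixed sets
  set Z := (A ×ˢ B'.powersetCard 2).image (fun q => insert q.1 q.2) with hZ
  have hZY : Z ⊆ Y := by
    intro T hT
    obtain ⟨⟨f, U⟩, hfU, rfl⟩ := Finset.mem_image.1 hT
    rw [Finset.mem_product, Finset.mem_powersetCard] at hfU
    obtain ⟨hf, hU, hUc⟩ := hfU
    dsimp only at hf hU hUc ⊢
    have hfnU : f ∉ U := fun h => hdis f hf (hB'B (hU h))
    rw [hY, Finset.mem_filter, Finset.mem_filter, hX, Finset.mem_powersetCard]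
    refine ⟨⟨⟨?_, by rw [Finset.card_insert_of_notMem hfnU, hUc]⟩, ?_⟩, ?_⟩
    · exact Finset.insert_subset (Finset.mem_union_left _ hf)
        (hU.trans Finset.subset_union_right)
    · intro h
      obtain ⟨x, hx⟩ := Finset.card_pos.1 (show 0 < U.card by rw [hUc]; norm_num)
      exact hdis x (h (Finset.mem_insert_of_mem hx)) (hB'B (hU hx))
    · intro h
      exact hdis f hf (hB'B (h (Finset.mem_insert_self _ _)))
  have hY0 : ∀ T ∈ Y, T ∉ Z → g T = 0 := by
    intro T hT hTZ
    rw [hY, Finset.mem_filter, Finset.mem_filter, hX, Finset.mem_powersetCard] at hT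
    obtain ⟨⟨⟨hT1, hT2⟩, hT3⟩, hT4⟩ := hT
    have hTu : (T ∩ A).card + (T ∩ B').card = 3 := by
      rw [← Finset.card_union_of_disjoint ((hAB.mono_right hB'B).mono Finset.inter_subset_right
        Finset.inter_subset_right), ← Finset.inter_union_distrib_left,
        Finset.inter_eq_left.2 hT1, hT2]
    have hA1 : (T ∩ A).card ≠ 0 := by
      intro h
      apply hT4
      intro x hx
      rcases Finset.mem_union.1 (hT1 hx) with h3 | h3
      · rw [Finset.card_eq_zero] at h
        exact absurd (Finset.mem_inter.2 ⟨hx, h3⟩) (by rw [h]; simp)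
      · exact h3
    have hB1 : (T ∩ B').card ≠ 0 := by
      intro h
      apply hT3
      intro x hx
      rcases Finset.mem_union.1 (hT1 hx) with h3 | h3
      · exact h3
      · rw [Finset.card_eq_zero] at h
        exact absurd (Finset.mem_inter.2 ⟨hx, h3⟩) (by rw [h]; simp)
    have h12 : (T ∩ A).card = 1 ∨ (T ∩ A).card = 2 := by omega
    rcases h12 with h1 | h1
    · exfalso
      apply hTZ
      obtain ⟨f, hf⟩ := Finset.card_eq_one.1 h1
      have hfm : f ∈ T ∩ A := by rw [hf]; exact Finset.mem_singleton_self f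
      rw [Finset.mem_inter] at hfm
      refine Finset.mem_image.2 ⟨(f, T ∩ B'), ?_, ?_⟩
      · rw [Finset.mem_product, Finset.mem_powersetCard]
        exact ⟨hfm.2, Finset.inter_subset_right, by
          show (T ∩ B').card = 2
          omega⟩
      · show insert f (T ∩ B') = T
        ext x
        rw [Finset.mem_insert, Finset.mem_inter]
        constructor
        · rintro (rfl | h)
          · exact hfm.1
          · exact h.1
        · intro hx
          rcases Finset.mem_union.1 (hT1 hx) with h3 | h3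
          · left
            have : x ∈ T ∩ A := Finset.mem_inter.2 ⟨hx, h3⟩
            rw [hf, Finset.mem_singleton] at this
            exact this
          · exact Or.inr ⟨hx, h3⟩
    · show kap P k T * _ = 0
      rw [kap_two A B hAB k hk P h2 T (by rw [hE]; exact hT1) hT2 h1, zero_mul]
  rw [← Finset.sum_subset hZY hY0, hZ, Finset.sum_image, Finset.sum_product_right]
  · rw [hr3]
    dsimp only
    refine Finset.sum_congr rfl fun U hU => ?_
    rw [Finset.mem_powersetCard] at hU
    have h5 : ∀ f ∈ A, g (insert f U) = kap P k (insert f₀ U) * ((∏ i ∈ U, c i) * c f) := by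
      intro f hf
      show kap P k (insert f U) * _ = _
      rw [kap_one hPOL A B hAB k hk P hP h0 h2 f f₀ hf hf₀ U hU.1 hU.2,
        Finset.prod_insert (fun h => hdis f hf (hB'B (hU.1 h))), mul_comm (c f)]
    rw [Finset.sum_congr rfl h5, ← Finset.mul_sum, ← Finset.mul_sum]
    congr 1
    have h6 : ∑ f ∈ A, c f = ∑ h ∈ B, c h := by
      rw [Finset.sum_union hAB] at he
      have : ∀ a b : ZMod 2, a + b = 0 → a = b := by decide
      exact this _ _ he
    have h7 : ∀ h ∈ B \ U, ∏ i ∈ insert h U, c i = (∏ i ∈ U, c i) * c h := by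
      intro h hh
      rw [Finset.mem_sdiff] at hh
      rw [Finset.prod_insert hh.2, mul_comm]
    rw [Finset.sum_congr rfl h7, ← Finset.mul_sum, h6]
    -- the coordinates in `U`
    obtain ⟨x, y, hxy, rfl⟩ := Finset.card_eq_two.1 hU.2
    have hUB : ({x, y} : Finset (Sym2 α)) ⊆ B := hU.1.trans hB'B
    rw [← Finset.sum_sdiff hUB, Finset.sum_pair hxy, Finset.prod_pair hxy, mul_add]
    have : ∀ a b : ZMod 2, a * b * (a + b) = 0 := by decide
    rw [this, add_zero]
  · rintro ⟨f, U⟩ hfU ⟨f', U'⟩ hfU' heq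
    rw [Finset.mem_coe, Finset.mem_product, Finset.mem_powersetCard] at hfU hfU'
    dsimp only at hfU hfU' heq
    have h8 : f = f' := by
      have h9 : f ∈ insert f' U' := by rw [← heq]; exact Finset.mem_insert_self _ _
      rcases Finset.mem_insert.1 h9 with h | h
      · exact h
      · exact absurd (hB'B (hfU'.2.1 h)) (hdis f hfU.1)
    subst h8
    have hn : f ∉ U := fun h => hdis f hfU.1 (hB'B (hfU.2.1 h))
    have hn' : f ∉ U' := fun h => hdis f hfU.1 (hB'B (hfU'.2.1 h))
    have h10 : U = U' := by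
      rw [← Finset.erase_insert hn, ← Finset.erase_insert hn', heq]
    rw [h10]

end TRXM

theorem specTRX (hPOL : SpecPOL) : SpecTRX where
  ex := fun A P hP h0 => TRXM.ex hPOL A P hP h0
  split := fun A B hAB P hP h0 h2 => TRXM.split hPOL A B hAB P hP h0 h2

end DL
end

section
set_option autoImplicit false

/-!
# VRW: the vertex relation between coherence functions
-/

open SimpleGraph Finset

namespace DL

namespace VRWM

variable {α : Type} [Fintype α] [DecidableEq α]

lemma sum_chi_start {G : SimpleGraph α} {w c : α} {P : Finset (Sym2 α)} (hP : IsPth G w c P)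
    (hwc : w ≠ c) : ∑ x, chi P s(w, x) = 1 := by
  obtain ⟨u, _, hu, _, _⟩ := hP.uncons hwc
  rw [Finset.sum_eq_single u]
  · exact chi_of_mem hu
  · intro x _ hx
    apply chi_of_notMem
    intro h
    exact hx (hP.left_unique h hu)
  · intro h
    exact absurd (mem_univ _) h

lemma vr {G : SimpleGraph α} {C : Finset (Sym2 α)} (hC : IsCyc G C) (w c d : α) (hwc : w ≠ c)
    (hwd : w ≠ d) (_hcd : c ≠ d) :
    ∑ x, coh w x c d C = if s(c, d) ∈ C ∧ w ∈ vs C then 1 else 0 := by
  by_cases h1 : s(c, d) ∈ C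
  · by_cases h2 : w ∈ vs C
    · rw [if_pos ⟨h1, h2⟩]
      have hP := hC.isPth' h1
      have hw : w ∈ vs (C \ {s(c, d)}) := by
        obtain ⟨e, he, hwe⟩ := mem_vs.1 h2
        refine mem_vs.2 ⟨e, ?_, hwe⟩
        rw [mem_sdiff, mem_singleton]
        refine ⟨he, ?_⟩
        rintro rfl
        rcases Sym2.mem_iff.1 hwe with h | h
        · exact hwc h
        · exact hwd h
      obtain ⟨P1, P2, hP1, hP2, hU, _, hV⟩ := hP.split (Or.inr hw)
      rw [← sum_chi_start hP2 hwc]
      refine sum_congr rfl fun x _ => ?_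
      have hne : s(w, x) ≠ s(c, d) := by
        intro e
        have h3 : w ∈ s(c, d) := e ▸ Sym2.mem_mk_left w x
        rcases Sym2.mem_iff.1 h3 with h | h
        · exact hwc h
        · exact hwd h
      rw [← hC.coh_comm w x c d, coh_eq_dirn h1 hne, ← hU, hP1.dirn_append hP2 hV,
        hP1.dirn_from_end, zero_add, dirn_start]
    · rw [if_neg (fun h => h2 h.2)]
      refine sum_eq_zero fun x _ => coh_eq_zero_left fun h => h2 (left_mem_vs h)
  · rw [if_neg (fun h => h1 h.1)]
    exact sum_eq_zero fun x _ => coh_eq_zero_right h1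

/-- the quadratic polynomial which is the indicator of `w ∈ C` on cycles -/
noncomputable def vq (w : α) (c : Chain α) : ZMod 2 :=
  ∑ T ∈ (univ.filter (fun e : Sym2 α => w ∈ e)).powersetCard 2, ∏ e ∈ T, c e

lemma vq_mem (w : α) : vq w ∈ PR ({e | w ∈ e} : Set (Sym2 α)) := by
  have h1 : vq w = ∑ T ∈ (univ.filter (fun e : Sym2 α => w ∈ e)).powersetCard 2,
      (fun c : Chain α => ∏ e ∈ T, c e) := by
    funext c
    simp only [vq, Finset.sum_apply]
  rw [h1]
  refine Submodule.sum_mem _ fun T hT => ?_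
  rw [mem_powersetCard] at hT
  obtain ⟨hT1, hT2⟩ := hT
  obtain ⟨e, f, hef, rfl⟩ := Finset.card_eq_two.1 hT2
  have he := hT1 (mem_insert_self e {f})
  have hf := hT1 (mem_insert_of_mem (mem_singleton_self f))
  rw [mem_filter] at he hf
  refine Submodule.subset_span ⟨e, he.2, f, hf.2, hef, ?_⟩
  funext c
  exact prod_pair hef

lemma prod_chi (C T : Finset (Sym2 α)) : ∏ e ∈ T, chi C e = if T ⊆ C then 1 else 0 := by
  split_ifs with h
  · exact prod_eq_one fun e he => chi_of_mem (h he)
  · obtain ⟨e, he, hne⟩ := not_subset.1 h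
    exact prod_eq_zero he (chi_of_notMem hne)

lemma vq_chi (w : α) {G : SimpleGraph α} {C : Finset (Sym2 α)} (hC : IsCyc G C) :
    vq w (chi C) = if w ∈ vs C then 1 else 0 := by
  have h1 : vq w (chi C) = (((C.filter (fun e => w ∈ e)).card.choose 2 : ℕ) : ZMod 2) := by
    unfold vq
    simp only [prod_chi]
    rw [← Finset.sum_filter, sum_const, nsmul_eq_mul, mul_one, ← card_powersetCard]
    congr 2
    ext T
    simp only [mem_filter, mem_powersetCard]
    constructor
    · rintro ⟨⟨h1, h2⟩, h3⟩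
      exact ⟨fun e he => mem_filter.2 ⟨h3 he, (mem_filter.1 (h1 he)).2⟩, h2⟩
    · rintro ⟨h1, h2⟩
      exact ⟨⟨fun e he => mem_filter.2 ⟨mem_univ _, (mem_filter.1 (h1 he)).2⟩, h2⟩,
        fun e he => (mem_filter.1 (h1 he)).1⟩
  rw [h1]
  by_cases hw : w ∈ vs C
  · rw [if_pos hw]
    obtain ⟨i, j, hij, hi, hj, h⟩ := hC.two_edges hw
    have h2 : C.filter (fun e => w ∈ e) = {s(w, i), s(w, j)} := by
      ext e
      rw [mem_filter, mem_insert, mem_singleton]
      constructor
      · rintro ⟨he, hwe⟩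
        obtain ⟨k, rfl⟩ := Sym2.mem_iff_exists.1 hwe
        rcases h k he with rfl | rfl
        · exact Or.inl rfl
        · exact Or.inr rfl
      · rintro (rfl | rfl)
        · exact ⟨hi, Sym2.mem_mk_left _ _⟩
        · exact ⟨hj, Sym2.mem_mk_left _ _⟩
    have h3 : s(w, i) ≠ s(w, j) := by
      intro e
      rcases Sym2.eq_iff.1 e with ⟨_, h⟩ | ⟨h4, h5⟩
      · exact hij h
      · exact hij (h5.trans h4)
    rw [h2, card_pair h3]
    rfl
  · rw [if_neg hw]
    have h2 : C.filter (fun e => w ∈ e) = ∅ := by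
      rw [filter_eq_empty_iff]
      intro e he hwe
      exact hw (mem_vs.2 ⟨e, he, hwe⟩)
    rw [h2]
    rfl

end VRWM

theorem specVRW : SpecVRW where
  vr := fun hC w c d h1 h2 h3 => VRWM.vr hC w c d h1 h2 h3
  vs2 := fun w => ⟨VRWM.vq w, VRWM.vq_mem w, fun _ _ hC => VRWM.vq_chi w hC⟩

end DL
end
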